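import Pool.Agent.Work.SUBST.Abs

/-!
# Case II of the exponential block: definitions and joints
-/

set_option autoImplicit false

open Filter Topology

namespace SUBST

/-- `w` has period `q`. -/
def HasPer (w : List ℕ) (q : ℕ) : Prop :=
  ∀ i, i + q < w.length → w.getD i 0 = w.getD (i + q) 0

/-- Weight of a word. -/
noncomputable def lw {A : Type} (lam : A → ℝ) (w : List A) : ℝ := (w.map lam).sum

/-- Limit position of the `k`-th letter of `X`. -/
noncomputable def ASys.pl {A : Type} (S : ASys A) (lam : A → ℝ) (k : ℕ) : ℝ := lw lam (S.pre k)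

/-- Case II: letters of maximal growth have no small periods. -/
def ASys.GapII {A : Type} (S : ASys A) (lam : A → ℝ) : Prop :=
  ∃ ε : ℝ, 0 < ε ∧ ∃ n1 : ℕ, ∀ n, n1 ≤ n → ∀ c, 0 < lam c → ∀ q : ℕ, 1 ≤ q →
    HasPer (S.W n [c]) q → ε * S.len n [c] ≤ q

/-- A sequence of pairs of levels with converging scale ratio. -/
structure LevSeq {A B : Type} (S : ASys A) (T : ASys B) (nn mm : ℕ → ℕ) (θ : ℝ) : Prop where
  pos : 0 < θ
  n_top : Tendsto nn atTop atTop
  m_top : Tendsto mm atTop atTop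
  ratio : Tendsto (fun j => (T.len (mm j) [T.a] : ℝ) / S.len (nn j) [S.a]) atTop (𝓝 θ)

/-- Limit overlap of the `k`-th block of `S` and the `l`-th block of `T`. -/
noncomputable def Ov {A B : Type} (S : ASys A) (T : ASys B) (lam : A → ℝ) (mu : B → ℝ) (θ : ℝ)
    (k l : ℕ) : ℝ :=
  min (S.pl lam (k + 1)) (θ * T.pl mu (l + 1)) - max (S.pl lam k) (θ * T.pl mu l)

/-- Limit offset. -/
noncomputable def Off {A B : Type} (S : ASys A) (T : ASys B) (lam : A → ℝ) (mu : B → ℝ) (θ : ℝ)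
    (k l : ℕ) : ℝ :=
  S.pl lam k - θ * T.pl mu l

/-- Joint SEP (separation of offsets). -/
def SepProp {A B : Type} (S : ASys A) (T : ASys B) (lam : A → ℝ) (mu : B → ℝ) : Prop :=
  ∀ η : ℝ, 0 < η → ∃ ε : ℝ, 0 < ε ∧ ∀ (nn mm : ℕ → ℕ) (θ : ℝ), LevSeq S T nn mm θ →
    ∀ k k' l l' : ℕ, S.X k = S.X k' → T.X l = T.X l' → η ≤ Ov S T lam mu θ k l →
      |Off S T lam mu θ k l - Off S T lam mu θ k' l'| < ε →
      ∀ᶠ j in atTop, (S.pos (nn j) k : ℤ) - T.pos (mm j) l =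
        S.pos (nn j) k' - T.pos (mm j) l'

/-- Joint D4 (finitely many limit ratios), the hypothesis of `growth_match`. -/
def RatioProp {A B : Type} (S : ASys A) (T : ASys B) : Prop :=
  ∀ C : ℝ, ∃ F : Finset ℝ, ∀ ε > 0, ∃ n₁ : ℕ, ∀ n ≥ n₁, ∀ m ≥ n₁,
    (S.len n [S.a] : ℝ) ≤ C * T.len m [T.a] → (T.len m [T.a] : ℝ) ≤ C * S.len n [S.a] →
    ∃ f ∈ F, |(S.len n [S.a] : ℝ) / T.len m [T.a] - f| < ε

/-- Joint D8 (the chain). -/
def ChainProp {A B : Type} (S : ASys A) (T : ASys B) : Prop :=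
  ∀ (M N n₀ m₀ : ℕ) (θ : ℝ), 1 ≤ M → 1 ≤ N →
    LevSeq S T (fun t => n₀ + M * t) (fun t => m₀ + N * t) θ →
    ∃ e : ℕ → ℕ, S.RegSeq e ∧ T.RegSeq e

/-- Tiles: an interval of length `≥ 2η` overlaps some tile in `≥ η`. -/
theorem tile (g : ℕ → ℝ) (η : ℝ) (hη : 0 < η) (hmono : Monotone g)
    (hstep : ∀ l, g (l + 1) = g l ∨ g l + 2 * η ≤ g (l + 1)) (K : ℕ) (a b : ℝ) (ha : g 0 ≤ a)
    (hab : a + 2 * η ≤ b) (hb : b ≤ g K) :
    ∃ l, l < K ∧ η ≤ min b (g (l + 1)) - max a (g l) := by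
  classical
  have hex : ∃ l, a < g (l + 1) := by
    refine ⟨K, lt_of_lt_of_le ?_ (hmono (Nat.le_succ K))⟩
    linarith
  obtain ⟨l0, hl0, hmin0⟩ : ∃ l0, a < g (l0 + 1) ∧ ∀ l < l0, g (l + 1) ≤ a :=
    ⟨Nat.find hex, Nat.find_spec hex, fun l hl => not_lt.1 (Nat.find_min hex hl)⟩
  have hg0 : g l0 ≤ a := by
    rcases Nat.eq_zero_or_pos l0 with h | h
    · rw [h]; exact ha
    · obtain ⟨l, rfl⟩ : ∃ l, l0 = l + 1 := ⟨l0 - 1, by omega⟩
      exact hmin0 l (Nat.lt_succ_self l)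
  have hl0K : l0 < K := by
    by_contra hcon
    push Not at hcon
    have := hmono hcon
    linarith
  by_cases hcase : a + η ≤ g (l0 + 1)
  · refine ⟨l0, hl0K, ?_⟩
    rw [max_eq_left hg0]
    have : a + η ≤ min b (g (l0 + 1)) := le_min (by linarith) hcase
    linarith
  · push Not at hcase
    have hex1 : ∃ l, l0 + 1 ≤ l ∧ g (l0 + 1) < g (l + 1) := by
      have hK1 : l0 + 1 < K := by
        by_contra hcon
        push Not at hcon
        have := hmono hcon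
        linarith
      refine ⟨K - 1, by omega, ?_⟩
      have : K - 1 + 1 = K := by omega
      rw [this]
      linarith
    obtain ⟨l1, ⟨hl1, hl1'⟩, hmin1⟩ : ∃ l1, (l0 + 1 ≤ l1 ∧ g (l0 + 1) < g (l1 + 1)) ∧
        ∀ l < l1, ¬ (l0 + 1 ≤ l ∧ g (l0 + 1) < g (l + 1)) :=
      ⟨Nat.find hex1, Nat.find_spec hex1, fun l hl => Nat.find_min hex1 hl⟩
    have hgl1 : g l1 = g (l0 + 1) := by
      rcases Nat.eq_or_lt_of_le hl1 with h | h
      · rw [h]
      · obtain ⟨l, rfl⟩ : ∃ l, l1 = l + 1 := ⟨l1 - 1, by omega⟩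
        have h1 := hmin1 l (Nat.lt_succ_self l)
        have h2 : l0 + 1 ≤ l := by omega
        have h3 : g (l + 1) ≤ g (l0 + 1) := by
          by_contra hcon
          exact h1 ⟨h2, not_le.1 hcon⟩
        exact le_antisymm h3 (hmono (by omega))
    have hl1K : l1 < K := by
      by_contra hcon
      push Not at hcon
      have := hmono hcon
      linarith
    refine ⟨l1, hl1K, ?_⟩
    rcases hstep l1 with h | h
    · linarith
    · have h1 : a + 2 * η ≤ min b (g (l1 + 1)) := le_min hab (by linarith)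
      have h2 : max a (g l1) ≤ a + η := max_le (by linarith) (by linarith)
      linarith

end SUBST
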