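import Pool.Agent.Work.SUBST.KepsA
import Pool.Agent.Work.SUBST.C2Defs

/-!
# A block of maximal growth without breaks
-/

set_option autoImplicit false

namespace SUBST

namespace KE

variable {A : Type} {S : ASys A}

theorem prefix_succ (hS : S.Good) (n : ℕ) : S.it n [S.a] <+: S.it (n + 1) [S.a] := by
  obtain ⟨u, -, hσ⟩ := hS.start
  have h : S.ap [S.a] = [S.a] ++ u := by
    unfold ASys.ap
    rw [List.flatMap_singleton, hσ]
    rfl
  rw [it_succ, h, it_append]
  exact List.prefix_append _ _

theorem prefix_le (hS : S.Good) {m n : ℕ} (h : m ≤ n) : S.it m [S.a] <+: S.it n [S.a] := by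
  induction n, h using Nat.le_induction with
  | base => exact List.prefix_rfl
  | succ n _ ih => exact ih.trans (prefix_succ hS n)

theorem X_eq (hS : S.Good) {n k : ℕ} (h : k < (S.it n [S.a]).length) :
    S.X k = (S.it n [S.a]).getD k S.a := by
  unfold ASys.X
  have h1 : k < (S.it (k + 1) [S.a]).length := by
    have := start_length hS (k + 1)
    omega
  rw [List.getD_eq_getElem _ _ h1, List.getD_eq_getElem _ _ h]
  rcases le_total (k + 1) n with hl | hl
  · exact (prefix_le hS hl).getElem h1
  · exact ((prefix_le hS hl).getElem h).symm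

theorem pre_length (k : ℕ) : (S.pre k).length = k := by
  unfold ASys.pre
  rw [List.length_map, List.length_range]

/-- the iterates of the start letter are prefixes of `X` -/
theorem pre_eq (hS : S.Good) {n : ℕ} {u v : List A} (h : S.it n [S.a] = u ++ v) :
    S.pre u.length = u := by
  refine List.ext_getElem (pre_length _) fun i h1 h2 => ?_
  have h3 : i < (S.it n [S.a]).length := by
    rw [h, List.length_append]
    omega
  have h4 : (S.pre u.length)[i] = S.X i := by
    unfold ASys.pre
    rw [List.getElem_map, List.getElem_range]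
  rw [h4, X_eq hS h3, List.getD_eq_getElem _ _ h3]
  simp only [h]
  rw [List.getElem_append_left h2]

theorem X_of (hS : S.Good) {n : ℕ} {u v : List A} {c : A} (h : S.it n [S.a] = u ++ c :: v) :
    S.X u.length = c := by
  have h3 : u.length < (S.it n [S.a]).length := by
    rw [h, List.length_append, List.length_cons]
    omega
  rw [X_eq hS h3, List.getD_eq_getElem _ _ h3]
  simp only [h]
  rw [List.getElem_append_right le_rfl]
  simp

theorem pre_succ (hS : S.Good) {n : ℕ} {u v : List A} {c : A} (h : S.it n [S.a] = u ++ c :: v) :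
    S.pre (u.length + 1) = u ++ [c] := by
  have := pre_eq hS (n := n) (u := u ++ [c]) (v := v) (by rw [h]; simp)
  rwa [List.length_append] at this

/-- ratio limits of words -/
theorem lim_word {α : ℝ} {lam : A → ℝ} (hL : S.Limits α lam) (w : List A) :
    Filter.Tendsto (fun n => (S.len n w : ℝ) / S.len n [S.a]) Filter.atTop
      (nhds (w.map lam).sum) := by
  induction w with
  | nil =>
    refine tendsto_const_nhds.congr fun n => ?_
    have : S.len n [] = 0 := by
      have h := len_append (S := S) n [] []
      rw [List.append_nil] at h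
      omega
    rw [this]
    simp
  | cons c w ih =>
    rw [List.map_cons, List.sum_cons]
    refine ((hL.2.2.2.2 c).add ih).congr fun n => ?_
    rw [show c :: w = [c] ++ w from rfl, len_append, ← add_div]
    push_cast
    rfl

/-- the sum of the ratio limits of `σ^i (c)` -/
theorem lam_it (hS : S.Good) {α : ℝ} {lam : A → ℝ} (hL : S.Limits α lam) (c : A) (i : ℕ) :
    ((S.it i [c]).map lam).sum = lam c * α ^ i := by
  have h1 := lim_word hL (S.it i [c])
  have h2 := ((hL.2.2.2.2 c).comp (Filter.tendsto_add_atTop_nat i)).mul (ratio_pow hS hL i)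
  refine tendsto_nhds_unique h1 (h2.congr fun n => ?_)
  have h3 : (S.len (n + i) [S.a] : ℝ) ≠ 0 := by
    have := start_len hS (n + i)
    exact_mod_cast (by omega : S.len (n + i) [S.a] ≠ 0)
  simp only [Function.comp]
  rw [len_it]
  field_simp

theorem tendsto_len (hS : S.Good) {α : ℝ} {lam : A → ℝ} (hL : S.Limits α lam) {w : List A}
    (hw : 0 < (w.map lam).sum) : Filter.Tendsto (fun n => S.len n w) Filter.atTop Filter.atTop := by
  rw [← tendsto_natCast_atTop_iff (R := ℝ)]
  have h1 : Filter.Tendsto (fun n => (S.len n [S.a] : ℝ)) Filter.atTop Filter.atTop := by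
    refine Filter.tendsto_atTop_mono (fun n => ?_) tendsto_natCast_atTop_atTop
    have := start_len hS n
    exact_mod_cast (by omega : n ≤ S.len n [S.a])
  refine (((lim_word hL w).pos_mul_atTop hw h1)).congr fun n => ?_
  have h3 : (S.len n [S.a] : ℝ) ≠ 0 := by
    have := start_len hS n
    exact_mod_cast (by omega : S.len n [S.a] ≠ 0)
  field_simp

/-- the last letter of maximal growth of a word -/
theorem last_max {lam : A → ℝ} (hl : ∀ c, 0 ≤ lam c) (w : List A) (hw : 0 < (w.map lam).sum) :
    ∃ (u v : List A) (c : A), w = u ++ c :: v ∧ 0 < lam c ∧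
      (w.map lam).sum = (u.map lam).sum + lam c := by
  induction w using List.reverseRecOn with
  | nil => simp at hw
  | append_singleton w c ih =>
    rw [List.map_append, List.sum_append] at hw ⊢
    simp only [List.map_cons, List.map_nil, List.sum_cons, List.sum_nil, add_zero] at hw ⊢
    rcases (hl c).lt_or_eq with h | h
    · exact ⟨w, [], c, rfl, h, rfl⟩
    · rw [← h, add_zero] at hw
      obtain ⟨u, v, d, h1, h2, h3⟩ := ih hw
      refine ⟨u, v ++ [c], d, ?_, h2, ?_⟩
      · rw [h1]
        simp
      · rw [← h, add_zero, h3]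

end KE

open KE

/-- **Joint `FREE`.**  A letter of maximal growth with a bounded period gives a block of maximal
growth without breaks at all large levels. -/
theorem KE.free_block {A : Type} [Finite A] {S : ASys A} (hS : S.Good) {x : ℕ → ℕ}
    (hx : S.IsWord x) {α : ℝ} {lam : A → ℝ} (hL : S.Limits α lam) (hα : 1 < α) {e : A}
    (he : 0 < lam e) {q m : ℕ} (hp : ∀ n, m ≤ n → HasPer (S.W n [e]) q) :
    ∃ j, 0 < lam (S.X j) ∧ ∃ n1, ∀ n, n1 ≤ n → ∀ y, S.pos n j ≤ y → y < S.pos n (j + 1) →
      y ∉ brk x q := by
  obtain ⟨L, hLm⟩ : ∃ L : ℝ, ∀ c, lam c ≤ L := by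
    obtain ⟨L, hL⟩ := (Set.finite_range lam).bddAbove
    exact ⟨L, fun c => hL (Set.mem_range_self c)⟩
  obtain ⟨i, hi⟩ : ∃ i : ℕ, L < lam e * α ^ i := by
    obtain ⟨i, hi⟩ := pow_unbounded_of_one_lt (L / lam e) hα
    refine ⟨i, ?_⟩
    rw [div_lt_iff₀ he] at hi
    linarith
  have hs := lam_it hS hL e i
  have h0 : 0 < ((S.it i [e]).map lam).sum := by
    rw [hs]
    exact mul_pos he (pow_pos (by linarith) _)
  obtain ⟨u', v', c, h1, h2, h3⟩ := last_max hL.2.1 _ h0
  have hu' : 0 < (u'.map lam).sum := by
    have := hLm c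
    rw [hs] at h3
    linarith
  obtain ⟨n0, hn0⟩ := hS.reach e
  obtain ⟨u, v, huv⟩ := List.append_of_mem hn0
  have hit : S.it (i + n0) [S.a] = (S.it i u ++ u') ++ c :: (v' ++ S.it i v) := by
    rw [it_add, huv, show u ++ e :: v = u ++ ([e] ++ v) from rfl, it_append, it_append, h1]
    simp
  refine ⟨(S.it i u ++ u').length, ?_, ?_⟩
  · rw [X_of hS hit]
    exact h2
  · obtain ⟨n1, hn1⟩ := Filter.eventually_atTop.1
      ((tendsto_len hS hL hu').eventually_ge_atTop q)
    refine ⟨max n1 m, fun n hn y hy1 hy2 hy => hy.2 ?_⟩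
    have hq' := hn1 n ((le_max_left _ _).trans hn)
    have e1 : S.pos n (S.it i u ++ u').length = S.len n (S.it i u) + S.len n u' := by
      unfold ASys.pos
      rw [pre_eq hS hit, len_append]
    have e2 : S.pos n ((S.it i u ++ u').length + 1) =
        S.len n (S.it i u) + S.len n u' + S.len n [c] := by
      unfold ASys.pos
      rw [pre_succ hS hit, len_append, len_append]
    rw [e1] at hy1
    rw [e2] at hy2
    have e3 : S.len (n + i) [e] = S.len n u' + S.len n [c] + S.len n v' := by
      rw [← len_it, h1, show u' ++ c :: v' = u' ++ ([c] ++ v') from rfl, len_append, len_append]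
      omega
    rw [len_it] at hy1 hy2
    obtain ⟨t, rfl⟩ : ∃ t, y = S.len (n + i) u + q + t :=
      ⟨y - (S.len (n + i) u + q), by omega⟩
    have ht : t + q < S.len (n + i) [e] := by omega
    have k1 := hp (n + i) (((le_max_right _ _).trans hn).trans (Nat.le_add_right _ _)) t ht
    rw [word_block hx huv ht, word_block hx huv (show t < S.len (n + i) [e] by omega)] at k1
    rw [show S.len (n + i) u + q + t = S.len (n + i) u + (t + q) by ring, ← k1]
    congr 1
    omega

end SUBST
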