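import Mathlib

/-!
# Growth match: two sequences with ratios tending to limits greater than 1 and finitely many
limits of quotients grow in step along arithmetic progressions
-/

set_option autoImplicit false

namespace SUBST

open Filter Topology

namespace GM

theorem steps_bound {b : ℕ → ℝ} {B η : ℝ} {m₂ : ℕ} (h : ∀ m ≥ m₂, |b (m + 1) - b m - B| ≤ η)
    (m : ℕ) (hm : m₂ ≤ m) (N : ℕ) : |b (m + N) - b m - N * B| ≤ N * η := by
  induction N with
  | zero => simp
  | succ N ih =>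
    have h1 := h (m + N) (by omega)
    have h2 : b (m + (N + 1)) - b m - ((N + 1 : ℕ) : ℝ) * B =
        (b (m + N + 1) - b (m + N) - B) + (b (m + N) - b m - N * B) := by
      push_cast
      rw [show m + (N + 1) = m + N + 1 by ring]
      ring
    rw [h2]
    refine (abs_add_le _ _).trans ?_
    push_cast
    nlinarith [h1, ih]

theorem eventually_step {b : ℕ → ℝ} {B : ℝ} (hb : Tendsto (fun n => b (n + 1) - b n) atTop (𝓝 B))
    {η : ℝ} (hη : 0 < η) : ∃ m₂ : ℕ, ∀ m ≥ m₂, |b (m + 1) - b m - B| ≤ η := by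
  obtain ⟨m₂, h⟩ := Metric.tendsto_atTop.1 hb η hη
  refine ⟨m₂, fun m hm => ?_⟩
  have := h m hm
  rw [Real.dist_eq] at this
  exact this.le

theorem large {b : ℕ → ℝ} {B : ℝ} (hB : 0 < B)
    (hb : Tendsto (fun n => b (n + 1) - b n) atTop (𝓝 B)) (x : ℝ) (m₁ : ℕ) :
    ∃ m ≥ m₁, ∀ k ≥ m, x ≤ b k := by
  obtain ⟨m₂, h⟩ := eventually_step hb (half_pos hB)
  set m₃ := max m₁ m₂ with hm₃
  obtain ⟨j, hj⟩ := exists_nat_ge ((x - b m₃) / (B / 2))
  refine ⟨m₃ + j, by omega, fun k hk => ?_⟩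
  obtain ⟨i, rfl⟩ := Nat.exists_eq_add_of_le hk
  have h1 := steps_bound h m₃ (le_max_right _ _) (j + i)
  rw [← add_assoc] at h1
  have h2 := (abs_le.1 h1).1
  rw [div_le_iff₀ (half_pos hB)] at hj
  push_cast at h2
  have h3 : (0 : ℝ) ≤ (i : ℝ) * (B / 2) := by positivity
  nlinarith

theorem nearest {a b : ℕ → ℝ} {A B : ℝ} (hA : 0 < A) (hB : 0 < B)
    (ha : Tendsto (fun n => a (n + 1) - a n) atTop (𝓝 A))
    (hb : Tendsto (fun n => b (n + 1) - b n) atTop (𝓝 B)) (m₁ : ℕ) :
    ∃ n₁ : ℕ, ∀ n ≥ n₁, ∃ m ≥ m₁, |a n - b m| ≤ B + 1 := by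
  obtain ⟨m₂, h⟩ := eventually_step hb (one_pos)
  set m₃ := max m₁ m₂ with hm₃
  obtain ⟨n₁, -, hn₁⟩ := large hA ha (b m₃) 0
  refine ⟨n₁, fun n hn => ?_⟩
  have h1 := hn₁ n hn
  obtain ⟨k, hk, hk'⟩ := large hB hb (a n) m₃
  classical
  have hex : ∃ k, a n ≤ b (m₃ + k) := ⟨k - m₃, by
    rw [Nat.add_sub_cancel' hk]; exact hk' k le_rfl⟩
  have hs := Nat.find_spec hex
  have hm := fun {j} => Nat.find_min (m := j) hex
  set j := Nat.find hex with hj
  refine ⟨m₃ + j, by omega, ?_⟩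
  rcases Nat.eq_zero_or_pos j with h0 | h0
  · rw [h0] at hs ⊢
    rw [add_zero] at hs ⊢
    rw [abs_of_nonpos (by linarith)]
    linarith
  · have h2 := hm (j := j - 1) (by omega)
    push Not at h2
    have h3 := h (m₃ + (j - 1)) (by omega)
    rw [show m₃ + (j - 1) + 1 = m₃ + j by omega] at h3
    have h4 := (abs_le.1 h3).2
    rw [abs_le]
    constructor <;> linarith

end GM

open GM

/-- Growth match, logarithmic form. -/
theorem growth_match_log {a b : ℕ → ℝ} {A B : ℝ} (hA : 0 < A) (hB : 0 < B)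
    (ha : Tendsto (fun n => a (n + 1) - a n) atTop (𝓝 A))
    (hb : Tendsto (fun n => b (n + 1) - b n) atTop (𝓝 B))
    (hF : ∀ K : ℝ, ∃ F : Finset ℝ, ∀ ε > 0, ∃ n₁ : ℕ, ∀ n ≥ n₁, ∀ m ≥ n₁, |a n - b m| ≤ K →
      ∃ f ∈ F, |a n - b m - f| < ε) :
    ∃ (M N n₀ m₀ : ℕ) (r : ℝ), 1 ≤ M ∧ 1 ≤ N ∧
      Tendsto (fun t => a (n₀ + M * t) - b (m₀ + N * t)) atTop (𝓝 r) := by
  classical
  obtain ⟨F, hF⟩ := hF (B + 2)
  -- distinct elements of `F` are separated
  obtain ⟨δ, hδ, hδ1, hsep⟩ : ∃ δ : ℝ, 0 < δ ∧ 3 * δ ≤ 1 ∧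
      ∀ f ∈ F, ∀ f' ∈ F, |f - f'| < 3 * δ → f = f' := by
    set S := (F ×ˢ F).filter fun p => p.1 ≠ p.2 with hS
    rcases S.eq_empty_or_nonempty with h0 | h0
    · refine ⟨1 / 3, by norm_num, by norm_num, fun f hf f' hf' _ => ?_⟩
      by_contra h
      have : (f, f') ∈ S := by
        rw [hS, Finset.mem_filter, Finset.mem_product]
        exact ⟨⟨hf, hf'⟩, h⟩
      rw [h0] at this
      simp at this
    · obtain ⟨p, hp, hmin⟩ := Finset.exists_min_image S (fun p => |p.1 - p.2|) h0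
      have hp0 : 0 < |p.1 - p.2| := by
        rw [hS, Finset.mem_filter] at hp
        exact abs_pos.2 (sub_ne_zero.2 hp.2)
      refine ⟨min (1 / 3) (|p.1 - p.2| / 3), by positivity, ?_, fun f hf f' hf' h => ?_⟩
      · have := min_le_left (1 / 3) (|p.1 - p.2| / 3)
        linarith
      · by_contra hne
        have hmem : (f, f') ∈ S := by
          rw [hS, Finset.mem_filter, Finset.mem_product]
          exact ⟨⟨hf, hf'⟩, hne⟩
        have h1 := hmin _ hmem
        have h2 := min_le_right (1 / 3) (|p.1 - p.2| / 3)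
        simp only at h1
        linarith
  -- the exact relation
  obtain ⟨M, N, hM, hN, hMN⟩ : ∃ M N : ℕ, 1 ≤ M ∧ 1 ≤ N ∧ (M : ℝ) * A = N * B := by
    set I := F.card with hI
    obtain ⟨Nm, hNm⟩ := exists_nat_ge ((2 * (I * A) + 2) / B)
    set S := (Finset.Icc 1 I) ×ˢ (Finset.Icc 1 Nm) with hS
    by_contra hcon
    push Not at hcon
    -- approximate relations
    have key : ∀ ε > 0, ∃ p ∈ S, |(p.1 : ℝ) * A - p.2 * B| ≤ ε := by
      intro ε hε
      set η : ℝ := min (min (ε / (4 * (I + 1))) (ε / (4 * (Nm + 1)))) (min (A / 4) (B / 4))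
        with hη
      have hηp : 0 < η := by
        rw [hη]
        refine lt_min (lt_min ?_ ?_) (lt_min ?_ ?_) <;> positivity
      have hη1 : η ≤ ε / (4 * (I + 1)) := (min_le_left _ _).trans (min_le_left _ _)
      have hη2 : η ≤ ε / (4 * (Nm + 1)) := (min_le_left _ _).trans (min_le_right _ _)
      have hη3 : η ≤ A / 4 := (min_le_right _ _).trans (min_le_left _ _)
      have hη4 : η ≤ B / 4 := (min_le_right _ _).trans (min_le_right _ _)
      have hI1 : (I : ℝ) * η ≤ ε / 4 := by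
        rw [le_div_iff₀ (by positivity)] at hη1
        nlinarith
      have hN1 : (Nm : ℝ) * η ≤ ε / 4 := by
        rw [le_div_iff₀ (by positivity)] at hη2
        nlinarith
      set ε' : ℝ := min (ε / 4) (min (A / 8) (1 / 4)) with hε'
      have hε'p : 0 < ε' := by
        rw [hε']
        refine lt_min ?_ (lt_min ?_ ?_) <;> positivity
      have he1 : ε' ≤ ε / 4 := min_le_left _ _
      have he2 : ε' ≤ A / 8 := (min_le_right _ _).trans (min_le_left _ _)
      have he3 : ε' ≤ 1 / 4 := (min_le_right _ _).trans (min_le_right _ _)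
      obtain ⟨n₁, hn₁⟩ := hF ε' hε'p
      obtain ⟨n₂, hn₂⟩ := eventually_step ha hηp
      obtain ⟨n₃, hn₃⟩ := eventually_step hb hηp
      obtain ⟨n₄, hn₄⟩ := nearest hA hB ha hb (max n₁ n₃)
      set n := n₁ + n₂ + n₄ with hn
      choose! m hm1 hm2 using fun k (hk : n₄ ≤ k) => hn₄ k hk
      have hf : ∀ i : ℕ, ∃ f ∈ F, |a (n + i) - b (m (n + i)) - f| < ε' := by
        intro i
        have h1 := hm1 (n + i) (by omega)
        have h2 := hm2 (n + i) (by omega)
        exact hn₁ _ (by omega) _ (le_trans (le_max_left _ _) h1) (by linarith)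
      choose g hg1 hg2 using hf
      obtain ⟨i, hi, j, hj, hij, hgij⟩ : ∃ i ∈ Finset.range (I + 1), ∃ j ∈ Finset.range (I + 1),
          i < j ∧ g i = g j := by
        obtain ⟨i, hi, j, hj, hne, h⟩ := Finset.exists_ne_map_eq_of_card_lt_of_maps_to
          (s := Finset.range (I + 1)) (t := F) (f := g) (by simp [hI]) (fun i _ => hg1 i)
        rcases lt_or_gt_of_ne hne with h1 | h1
        · exact ⟨i, hi, j, hj, h1, h⟩
        · exact ⟨j, hj, i, hi, h1, h.symm⟩
      rw [Finset.mem_range] at hi hj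
      obtain ⟨M, rfl⟩ := Nat.exists_eq_add_of_lt hij
      have hMI : M + 1 ≤ I := by omega
      have ha1 := steps_bound hn₂ (n + i) (by omega) (M + 1)
      have hMη : ((M + 1 : ℕ) : ℝ) * η ≤ I * η := by
        have : ((M + 1 : ℕ) : ℝ) ≤ I := by exact_mod_cast hMI
        nlinarith
      have e1 := abs_lt.1 (hg2 i)
      have e2 := abs_lt.1 (hg2 (i + M + 1))
      rw [hgij] at e1
      rw [show n + i + (M + 1) = n + (i + M + 1) by ring] at ha1
      have e3 := abs_le.1 ha1
      set m1 := m (n + i) with hm1'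
      set m2 := m (n + (i + M + 1)) with hm2'
      have hk1 : n₃ ≤ m1 := le_trans (le_max_right _ _) (hm1 (n + i) (by omega))
      have hk2 : n₃ ≤ m2 := le_trans (le_max_right _ _) (hm1 (n + (i + M + 1)) (by omega))
      have hM1 : (1 : ℝ) ≤ ((M + 1 : ℕ) : ℝ) := by
        push_cast
        have : (0 : ℝ) ≤ M := Nat.cast_nonneg M
        linarith
      have hMA : A ≤ ((M + 1 : ℕ) : ℝ) * A := by nlinarith
      have hMη2 : ((M + 1 : ℕ) : ℝ) * η ≤ ((M + 1 : ℕ) : ℝ) * A / 4 := by nlinarith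
      have hlt : m1 < m2 := by
        by_contra hle
        push Not at hle
        obtain ⟨d, hd⟩ := Nat.exists_eq_add_of_le hle
        have h5 := steps_bound hn₃ m2 hk2 d
        rw [← hd] at h5
        have h6 := abs_le.1 h5
        have h7 : (0 : ℝ) ≤ d := Nat.cast_nonneg d
        have h8 : (d : ℝ) * η ≤ d * (B / 4) := by nlinarith
        have h9 : (0 : ℝ) ≤ d * B := by positivity
        nlinarith
      obtain ⟨N, hNN⟩ := Nat.exists_eq_add_of_lt hlt
      have h5 := steps_bound hn₃ m1 hk1 (N + 1)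
      rw [← add_assoc, ← hNN] at h5
      have h6 := abs_le.1 h5
      have h7 : (0 : ℝ) ≤ ((N + 1 : ℕ) : ℝ) := Nat.cast_nonneg _
      have hNle : ((N + 1 : ℕ) : ℝ) ≤ Nm := by
        have h8 : ((N + 1 : ℕ) : ℝ) * η ≤ ((N + 1 : ℕ) : ℝ) * (B / 4) := by nlinarith
        have h9 : ((M + 1 : ℕ) : ℝ) * A ≤ I * A := by
          have : ((M + 1 : ℕ) : ℝ) ≤ I := by exact_mod_cast hMI
          nlinarith
        have h10 : ((N + 1 : ℕ) : ℝ) * B ≤ 2 * (I * A) + 2 := by nlinarith
        rw [div_le_iff₀ hB] at hNm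
        have h11 : ((N + 1 : ℕ) : ℝ) * B ≤ Nm * B := h10.trans hNm
        exact le_of_mul_le_mul_right h11 hB
      have hNη : ((N + 1 : ℕ) : ℝ) * η ≤ Nm * η := by nlinarith
      refine ⟨(M + 1, N + 1), ?_, ?_⟩
      · rw [hS, Finset.mem_product, Finset.mem_Icc, Finset.mem_Icc]
        exact ⟨⟨by omega, hMI⟩, ⟨by omega, by exact_mod_cast hNle⟩⟩
      · rw [abs_le]
        constructor <;> linarith
    have hSne : S.Nonempty := by
      obtain ⟨p, hp, -⟩ := key 1 one_pos
      exact ⟨p, hp⟩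
    obtain ⟨p, hp, hmin⟩ := Finset.exists_min_image S (fun p => |(p.1 : ℝ) * A - p.2 * B|) hSne
    have hp' := hp
    rw [hS, Finset.mem_product, Finset.mem_Icc, Finset.mem_Icc] at hp'
    have hpos : 0 < |(p.1 : ℝ) * A - p.2 * B| :=
      abs_pos.2 (sub_ne_zero.2 (hcon p.1 p.2 hp'.1.1 hp'.2.1))
    obtain ⟨q, hq, hq'⟩ := key _ (half_pos hpos)
    have := hmin q hq
    linarith
  -- the bounded sequence of differences
  set η : ℝ := δ / (2 * (M + N)) with hη
  have hMNp : (0 : ℝ) < M + N := by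
    have h1 : (1 : ℝ) ≤ M := by exact_mod_cast hM
    have h2 : (1 : ℝ) ≤ N := by exact_mod_cast hN
    linarith
  have hηp : 0 < η := by positivity
  obtain ⟨n₁, hn₁⟩ := hF δ hδ
  obtain ⟨n₂, hn₂⟩ := eventually_step ha hηp
  obtain ⟨n₃, hn₃⟩ := eventually_step hb hηp
  obtain ⟨n₄, hn₄⟩ := nearest hA hB ha hb (max n₁ n₃)
  set n₀ := n₁ + n₂ + n₄ with hn₀
  obtain ⟨m₀, hm₀, hr0⟩ := hn₄ n₀ (by omega)
  have hm1 : n₁ ≤ m₀ := le_trans (le_max_left _ _) hm₀
  have hm3 : n₃ ≤ m₀ := le_trans (le_max_right _ _) hm₀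
  set r : ℕ → ℝ := fun t => a (n₀ + M * t) - b (m₀ + N * t) with hr
  have hstep : ∀ t, |r (t + 1) - r t| ≤ δ / 2 := by
    intro t
    have h1 := abs_le.1 (steps_bound hn₂ (n₀ + M * t) (by omega) M)
    have h2 := abs_le.1 (steps_bound hn₃ (m₀ + N * t) (by omega) N)
    have h3 : (M : ℝ) * η + N * η = δ / 2 := by
      rw [hη]
      field_simp
    simp only [hr]
    rw [show n₀ + M * (t + 1) = n₀ + M * t + M by ring,
      show m₀ + N * (t + 1) = m₀ + N * t + N by ring, abs_le]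
    constructor <;> linarith
  obtain ⟨f, hf, hf0⟩ := hn₁ n₀ (by omega) m₀ hm1 (by linarith)
  have hr0' : |r 0| ≤ B + 1 := by
    simpa [hr] using hr0
  have hf0' : |r 0 - f| < δ := by
    simpa [hr] using hf0
  have hfB : |f| ≤ B + 1 + δ := by
    have h1 := abs_le.1 hr0'
    have h2 := abs_lt.1 hf0'
    rw [abs_le]
    constructor <;> linarith
  have hnear : ∀ t, |r t - f| < δ := by
    intro t
    induction t with
    | zero => exact hf0'
    | succ t ih =>
      have h1 := abs_le.1 (hstep t)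
      have h2 := abs_lt.1 ih
      have h3 := abs_le.1 hfB
      have h4 : |r (t + 1)| ≤ B + 2 := by
        rw [abs_le]
        constructor <;> linarith
      obtain ⟨f', hf', hlt⟩ := hn₁ (n₀ + M * (t + 1)) (by
        have := Nat.zero_le (M * (t + 1)); omega) (m₀ + N * (t + 1)) (by
        have := Nat.zero_le (N * (t + 1)); omega) h4
      have h5 := abs_lt.1 hlt
      have h6 : f = f' := hsep f hf f' hf' (by
        rw [abs_lt]
        have h7 : r (t + 1) = a (n₀ + M * (t + 1)) - b (m₀ + N * (t + 1)) := rfl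
        constructor <;> linarith)
      rw [h6]
      exact hlt
  refine ⟨M, N, n₀, m₀, f, hM, hN, ?_⟩
  rw [Metric.tendsto_atTop]
  intro ε hε
  obtain ⟨n₅, hn₅⟩ := hF (min ε δ) (lt_min hε hδ)
  refine ⟨n₅, fun t ht => ?_⟩
  have h2 := abs_lt.1 (hnear t)
  have h3 := abs_le.1 hfB
  have h4 : |r t| ≤ B + 2 := by
    rw [abs_le]
    constructor <;> linarith
  have ht1 : t ≤ M * t := Nat.le_mul_of_pos_left t hM
  have ht2 : t ≤ N * t := Nat.le_mul_of_pos_left t hN
  obtain ⟨f', hf', hlt⟩ := hn₅ (n₀ + M * t) (by omega) (m₀ + N * t) (by omega) h4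
  have h5 := abs_lt.1 hlt
  have h8 := min_le_right ε δ
  have h6 : f = f' := hsep f hf f' hf' (by
    rw [abs_lt]
    have h7 : r t = a (n₀ + M * t) - b (m₀ + N * t) := rfl
    constructor <;> linarith)
  rw [Real.dist_eq, h6]
  exact lt_of_lt_of_le hlt (min_le_left _ _)

/-- **Growth match.** Two positive sequences whose ratios tend to limits greater than 1 and whose
quotients, as long as they stay bounded, have only finitely many limit points, grow in step along
two arithmetic progressions. -/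
theorem growth_match {s s' : ℕ → ℝ} {α β : ℝ} (hα : 1 < α) (hβ : 1 < β)
    (hs : ∀ n, 0 < s n) (hs' : ∀ n, 0 < s' n)
    (h1 : Tendsto (fun n => s (n + 1) / s n) atTop (𝓝 α))
    (h2 : Tendsto (fun n => s' (n + 1) / s' n) atTop (𝓝 β))
    (hF : ∀ C : ℝ, ∃ F : Finset ℝ, ∀ ε > 0, ∃ n₁ : ℕ, ∀ n ≥ n₁, ∀ m ≥ n₁,
      s n ≤ C * s' m → s' m ≤ C * s n → ∃ f ∈ F, |s n / s' m - f| < ε) :
    ∃ (M N n₀ m₀ : ℕ) (ω : ℝ), 1 ≤ M ∧ 1 ≤ N ∧ 0 < ω ∧
      Tendsto (fun t => s (n₀ + M * t) / s' (m₀ + N * t)) atTop (𝓝 ω) := by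
  classical
  have hlog : ∀ {u : ℕ → ℝ} {γ : ℝ}, 1 < γ → (∀ n, 0 < u n) →
      Tendsto (fun n => u (n + 1) / u n) atTop (𝓝 γ) →
      Tendsto (fun n => Real.log (u (n + 1)) - Real.log (u n)) atTop (𝓝 (Real.log γ)) := by
    intro u γ hγ hu h
    have h3 := h.log (by linarith)
    refine h3.congr fun n => ?_
    rw [Real.log_div (hu _).ne' (hu _).ne']
  obtain ⟨M, N, n₀, m₀, r, hM, hN, hr⟩ := growth_match_log (Real.log_pos hα) (Real.log_pos hβ)
    (hlog hα hs h1) (hlog hβ hs' h2) (by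
      intro K
      obtain ⟨F, hF⟩ := hF (Real.exp K)
      -- the logarithms of the elements of `F`
      refine ⟨F.image Real.log, fun ε hε => ?_⟩
      -- quotients are at least `exp (-K)`
      set c : ℝ := Real.exp (-K) with hc
      have hcp : 0 < c := Real.exp_pos _
      obtain ⟨n₁, hn₁⟩ := hF (min (c / 2) (c / 2 * ε / 2)) (by positivity)
      refine ⟨n₁, fun n hn m hm hK => ?_⟩
      have hq : 0 < s n / s' m := div_pos (hs n) (hs' m)
      have hlogq : Real.log (s n / s' m) = Real.log (s n) - Real.log (s' m) :=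
        Real.log_div (hs n).ne' (hs' m).ne'
      have hK' := abs_le.1 hK
      have hup : s n / s' m ≤ Real.exp K := by
        rw [← Real.exp_log hq, hlogq]
        exact Real.exp_le_exp.2 hK'.2
      have hlo : c ≤ s n / s' m := by
        rw [← Real.exp_log hq, hlogq]
        exact Real.exp_le_exp.2 (by linarith [hK'.1])
      have e1 : s n ≤ Real.exp K * s' m := by
        rwa [div_le_iff₀ (hs' m)] at hup
      have e2 : s' m ≤ Real.exp K * s n := by
        rw [hc, Real.exp_neg, inv_eq_one_div, div_le_div_iff₀ (Real.exp_pos K) (hs' m)] at hlo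
        linarith
      obtain ⟨f, hf, hlt⟩ := hn₁ n hn m hm e1 e2
      have h5 := abs_lt.1 hlt
      have h6 := min_le_left (c / 2) (c / 2 * ε / 2)
      have h7 := min_le_right (c / 2) (c / 2 * ε / 2)
      have hfc : c / 2 ≤ f := by linarith
      have hf0 : 0 < f := by linarith
      refine ⟨Real.log f, Finset.mem_image_of_mem _ hf, ?_⟩
      rw [← hlogq]
      -- `|log q - log f| ≤ |q - f| / min q f`
      have hd1 : Real.log (s n / s' m) - Real.log f ≤ (s n / s' m - f) / f := by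
        rw [← Real.log_div hq.ne' hf0.ne']
        have := Real.log_le_sub_one_of_pos (div_pos hq hf0)
        have e3 : s n / s' m / f - 1 = (s n / s' m - f) / f := by
          rw [sub_div, div_self hf0.ne']
        linarith
      have hd2 : Real.log f - Real.log (s n / s' m) ≤ (f - s n / s' m) / (s n / s' m) := by
        rw [← Real.log_div hf0.ne' hq.ne']
        have := Real.log_le_sub_one_of_pos (div_pos hf0 hq)
        have e3 : f / (s n / s' m) - 1 = (f - s n / s' m) / (s n / s' m) := by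
          rw [sub_div, div_self hq.ne']
        linarith
      have hb1 : (s n / s' m - f) / f < ε := by
        rw [div_lt_iff₀ hf0]
        nlinarith
      have hb2 : (f - s n / s' m) / (s n / s' m) < ε := by
        rw [div_lt_iff₀ hq]
        nlinarith
      rw [abs_lt]
      constructor <;> linarith)
  refine ⟨M, N, n₀, m₀, Real.exp r, hM, hN, Real.exp_pos r, ?_⟩
  refine ((Real.continuous_exp.tendsto r).comp hr).congr fun t => ?_
  simp only [Function.comp]
  rw [← Real.log_div (hs _).ne' (hs' _).ne', Real.exp_log (div_pos (hs _) (hs' _))]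

end SUBST
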