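import Pool.Agent.Work.SUBST.SpDefs
import Pool.Agent.Work.SUBST.C2Defs

/-!
# The joints of the mathematical part (problem 24c0d2)

Every joint is a `Prop`; its owner proves it as a theorem. `Assembly.lean` proves
`Core` from the joints.
-/

set_option autoImplicit false

open Filter

namespace SUBST

/-- Three occurrences of the letter `e` in the word `w`. -/
def Three {A : Type} (w : List A) (e : A) : Prop :=
  ∃ u1 u2 u3 u4 : List A, w = u1 ++ e :: u2 ++ e :: u3 ++ e :: u4

/-- Case I: a letter of maximal growth all of whose blocks have one period. -/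
def CaseIData {A : Type} (S : ASys A) (lam : A → ℝ) : Prop :=
  ∃ (e : A) (q m : ℕ), 0 < lam e ∧ 1 ≤ q ∧ ∀ n, m ≤ n → HasPer (S.W n [e]) q

/-- Theorem 3 of note 3940 (owner: helper70). -/
def JPoly : Prop := ∀ (A : Type) [Finite A] (S : ASys A) (x : ℕ → ℕ), S.Good → S.IsWord x →
  S.PolyS → ¬ UPw x → ∃ f, Sparse x f

/-- Lemmas 1 and 2 of note 3940 (owners: helper28, helper42). -/
def JSparse : Prop := ∀ (A : Type) [Finite A] (S : ASys A) (x : ℕ → ℕ) (f : List ℕ), S.Good →
  S.IsWord x → ¬ UPw x → Sparse x f → S.RegEnum {t | seg x t f.length = f}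

/-- Gap theorem (note 3961; owner: helper10). -/
def JGap : Prop := ∀ (A : Type) [Finite A] (S : ASys A) (e : A), S.Good → Three (S.σ e) e →
  (∃ q m : ℕ, 1 ≤ q ∧ ∀ n, m ≤ n → HasPer (S.W n [e]) q) ∨
  (∃ k0 : ℕ, ∀ n, k0 ≤ n → ∀ q, 1 ≤ q → HasPer (S.W n [e]) q → S.len (n - k0) [e] < 2 * q)

/-- The case distinction (owner: helper41, from `JGap`). -/
def JSplit : Prop := ∀ (A : Type) [Finite A] (S : ASys A) (α : ℝ) (lam : A → ℝ),
  S.Good → S.Limits α lam → 1 < α → ∃ p : ℕ, 1 ≤ p ∧ ((S.pow p).GapII lam ∨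
    CaseIData (S.pow p) lam)

/-- Case I (owner: helper72). -/
def JCaseI : Prop := ∀ (A B : Type) [Finite A] [Finite B] (S : ASys A) (T : ASys B) (x : ℕ → ℕ)
  (α β : ℝ) (lam : A → ℝ) (mu : B → ℝ), S.Good → T.Good → S.IsWord x → T.IsWord x →
  S.Limits α lam → T.Limits β mu → 1 < α → 1 < β → ¬ UPw x → CaseIData S lam →
  ∃ e : ℕ → ℕ, S.RegSeq e ∧ T.RegSeq e

/-- Separation of offsets in case II (owner: helper95). -/
def JSep : Prop := ∀ (A B : Type) [Finite A] [Finite B] (S : ASys A) (T : ASys B) (x : ℕ → ℕ)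
  (α β : ℝ) (lam : A → ℝ) (mu : B → ℝ), S.Good → T.Good → S.IsWord x → T.IsWord x →
  S.Limits α lam → T.Limits β mu → 1 < α → 1 < β → S.GapII lam → SepProp S T lam mu

/-- Finitely many limit ratios in case II (owner: helper95). -/
def JRatio : Prop := ∀ (A B : Type) [Finite A] [Finite B] (S : ASys A) (T : ASys B) (x : ℕ → ℕ)
  (α β : ℝ) (lam : A → ℝ) (mu : B → ℝ), S.Good → T.Good → S.IsWord x → T.IsWord x →
  S.Limits α lam → T.Limits β mu → 1 < α → 1 < β → ¬ UPw x → S.GapII lam →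
  SepProp S T lam mu → RatioProp S T

/-- The chain in case II (owner: helper92). -/
def JChain : Prop := ∀ (A B : Type) [Finite A] [Finite B] (S : ASys A) (T : ASys B) (x : ℕ → ℕ)
  (α β : ℝ) (lam : A → ℝ) (mu : B → ℝ), S.Good → T.Good → S.IsWord x → T.IsWord x →
  S.Limits α lam → T.Limits β mu → 1 < α → 1 < β → ¬ UPw x → S.GapII lam →
  SepProp S T lam mu → ChainProp S T

/-- Regular sequences under power, shift, arithmetic progressions; certificate (owner:
helper97). -/
def JReg : Prop := ∀ (A : Type) [Finite A] (S : ASys A) (e : ℕ → ℕ), S.Good →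
  (∀ p, 1 ≤ p → (S.pow p).RegSeq e → S.RegSeq e) ∧
  (∀ r, (S.shift r).RegSeq e → S.RegSeq e) ∧
  (∀ i k, 1 ≤ k → S.RegSeq e → S.RegSeq (fun t => e (i + k * t)))

/-- Two representations of one regular sequence give a certificate (owner: helper97). -/
def JCert : Prop := ∀ (A B : Type) [Finite A] [Finite B] (S : ASys A) (T : ASys B) (x : ℕ → ℕ)
  (e : ℕ → ℕ), S.Good → T.Good → S.IsWord x → T.IsWord x → S.RegSeq e → T.RegSeq e → ACert S T

end SUBST
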