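import Pool.Agent.Work.SUBST.Abs

/-!
# Regular sequences with explicit level step, first elements after a cut (definitions)
-/

set_option autoImplicit false

namespace SUBST

namespace ASys

variable {A : Type}

/-- `RegSeq` with the level step made explicit. -/
def RegM (S : ASys A) (M : ℕ) (e : ℕ → ℕ) : Prop :=
  ∃ (P z w : List A) (d : ℤ), S.LevOK M P z w ∧
    ∀ t, (e t : ℤ) = ((S.lev M w t P).flatMap S.h).length + d

theorem RegM.regSeq {S : ASys A} {M : ℕ} {e : ℕ → ℕ} (h : S.RegM M e) : S.RegSeq e := by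
  obtain ⟨P, z, w, d, h1, h2⟩ := h
  exact ⟨M, P, z, w, d, h1, h2⟩

end ASys

/-- Joint FB (owner: helper44): for `k ≥ 1` the first element of `K` at or after the `k`-th cut is
regular with level step `p`, when the level rises by `p` per step. -/
def ASys.FB {A : Type} (S : ASys A) (K : Set ℕ) : Prop := ∃ p, 1 ≤ p ∧ ∃ n0, ∀ k, 1 ≤ k →
  ∀ n, n0 ≤ n → S.RegM p (fun t => sInf {y | y ∈ K ∧ S.pos (n + p * t) k ≤ y})

end SUBST
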