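import Pool.Agent.Work.SUBST.Api
import Pool.Agent.Work.SUBST.RegM
import Pool.Agent.Work.SUBST.Free
import Pool.Agent.Work.SUBST.Joints
import Pool.Agent.Work.SUBST.GrowthMatch

/-!
# Case I of exponential against exponential: the first element of `K` after a cut

`K` is an infinite set (the breaks of a period). If the first element of `K` after each cut is a
regular sequence in both systems, and one system has a block of positive relative length which
never meets `K`, then there is a common regular sequence.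
-/

set_option autoImplicit false

open Filter Topology

namespace SUBST

namespace CI

open ASys

variable {A B : Type}

/-- The first element of `K` at or after `m`. -/
noncomputable def fstIn (K : Set ℕ) (m : ℕ) : ℕ := sInf {y | y ∈ K ∧ m ≤ y}

theorem fstIn_spec {K : Set ℕ} (hK : K.Infinite) (m : ℕ) : fstIn K m ∈ K ∧ m ≤ fstIn K m := by
  have h : ({y | y ∈ K ∧ m ≤ y}).Nonempty := by
    obtain ⟨y, hy, hm⟩ := hK.exists_gt m
    exact ⟨y, hy, hm.le⟩
  exact Nat.sInf_mem h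

theorem fstIn_le {K : Set ℕ} {m y : ℕ} (hy : y ∈ K) (hm : m ≤ y) : fstIn K m ≤ y :=
  Nat.sInf_le ⟨hy, hm⟩

theorem fstIn_eq {K : Set ℕ} {m m' : ℕ} (h : m ≤ m') (hf : ∀ y, m ≤ y → y < m' → y ∉ K) :
    fstIn K m = fstIn K m' := by
  unfold fstIn
  congr 1
  ext y
  constructor
  · rintro ⟨h1, h2⟩
    exact ⟨h1, not_lt.1 fun h3 => hf y h2 h3 h1⟩
  · rintro ⟨h1, h2⟩
    exact ⟨h1, h.trans h2⟩

/-! ### the length of a level sequence -/

theorem lev_zero (S : ASys A) (M : ℕ) (w P : List A) : S.lev M w 0 P = P := rfl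

theorem lev_succ (S : ASys A) (M : ℕ) (w : List A) (t : ℕ) (P : List A) :
    S.lev M w (t + 1) P = S.it M (S.lev M w t P) ++ w := by
  simp [lev, Function.iterate_succ_apply']

theorem len_lev (S : ASys A) (M : ℕ) (w P : List A) (t j : ℕ) :
    S.len j (S.lev M w t P) = S.len (j + M * t) P + ∑ i ∈ Finset.range t, S.len (j + M * i) w := by
  induction t generalizing j with
  | zero => simp [lev_zero]
  | succ t ih =>
    rw [lev_succ, len_append, len_it, ih, Finset.sum_range_succ', Nat.mul_zero, Nat.add_zero,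
      show j + M * (t + 1) = j + M + M * t by ring]
    have : ∀ i, j + M + M * i = j + M * (i + 1) := fun i => by ring
    simp only [this]
    ring_nf

/-! ### a scalar recursion -/

theorem tendsto_of_contr {y a b : ℕ → ℝ} {a0 b0 : ℝ} (h0 : 0 ≤ a0) (h1 : a0 < 1)
    (ha : Tendsto a atTop (𝓝 a0)) (hb : Tendsto b atTop (𝓝 b0))
    (hy : ∀ t, y (t + 1) = a t * y t + b t) : Tendsto y atTop (𝓝 (b0 / (1 - a0))) := by
  set y0 := b0 / (1 - a0) with hy0
  have h1a : 0 < 1 - a0 := by linarith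
  have hfix : y0 = a0 * y0 + b0 := by
    rw [hy0]; field_simp; ring
  set θ := (1 + a0) / 2 with hθ
  have hθ1 : θ < 1 := by rw [hθ]; linarith
  have hθ0 : 0 ≤ θ := by rw [hθ]; linarith
  have haθ : a0 < θ := by rw [hθ]; linarith
  set δ : ℕ → ℝ := fun t => |(a t - a0) * y0 + (b t - b0)| with hδ
  have hδ0 : Tendsto δ atTop (𝓝 0) := by
    have e1 : Tendsto (fun t => (a t - a0) * y0 + (b t - b0)) atTop
        (𝓝 ((a0 - a0) * y0 + (b0 - b0))) :=
      ((ha.sub_const a0).mul_const y0).add (hb.sub_const b0)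
    have e2 := e1.abs
    simpa [hδ] using e2
  rw [Metric.tendsto_atTop]
  intro ε hε
  have hε' : 0 < ε / 2 * (1 - θ) := mul_pos (half_pos hε) (by linarith)
  have ev : ∀ᶠ t in atTop, a t < θ ∧ -θ < a t ∧ δ t < ε / 2 * (1 - θ) := by
    refine (ha.eventually (gt_mem_nhds haθ)).and ((ha.eventually (lt_mem_nhds ?_)).and
      (hδ0.eventually (gt_mem_nhds hε')))
    rw [hθ]; linarith
  obtain ⟨t0, ht0⟩ := eventually_atTop.1 ev
  have key : ∀ s, |y (t0 + s) - y0| ≤ ε / 2 + θ ^ s * |y t0 - y0| := by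
    intro s
    induction s with
    | zero => simp only [Nat.add_zero, pow_zero, one_mul]; linarith [half_pos hε]
    | succ s ih =>
      have h := ht0 (t0 + s) (by omega)
      have e1 : y (t0 + (s + 1)) - y0 = a (t0 + s) * (y (t0 + s) - y0) +
          ((a (t0 + s) - a0) * y0 + (b (t0 + s) - b0)) := by
        rw [← Nat.add_assoc, hy (t0 + s)]
        linear_combination (-1 : ℝ) * hfix
      rw [e1]
      refine (abs_add_le _ _).trans ?_
      rw [abs_mul]
      have h2 : |a (t0 + s)| ≤ θ := abs_le.2 ⟨h.2.1.le, h.1.le⟩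
      have h3 : |a (t0 + s)| * |y (t0 + s) - y0| ≤ θ * (ε / 2 + θ ^ s * |y t0 - y0|) :=
        mul_le_mul h2 ih (abs_nonneg _) hθ0
      have h4 : |(a (t0 + s) - a0) * y0 + (b (t0 + s) - b0)| < ε / 2 * (1 - θ) := h.2.2
      have h5 : θ ^ (s + 1) = θ * θ ^ s := by ring
      rw [h5]
      nlinarith
  have hpow : Tendsto (fun s : ℕ => θ ^ s * |y t0 - y0|) atTop (𝓝 0) := by
    have := (tendsto_pow_atTop_nhds_zero_of_lt_one hθ0 hθ1).mul_const (|y t0 - y0|)
    simpa using this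
  obtain ⟨s0, hs0⟩ := eventually_atTop.1 (hpow.eventually (gt_mem_nhds (half_pos hε)))
  refine ⟨t0 + s0, fun t ht => ?_⟩
  obtain ⟨s, rfl⟩ := Nat.exists_eq_add_of_le (show t0 ≤ t by omega)
  rw [Real.dist_eq]
  have := key s
  have h6 := hs0 s (by omega)
  linarith

/-! ### limits -/

section limits

variable {S : ASys A} {α : ℝ} {lam : A → ℝ}

/-- Limit position of the `k`-th block. -/
def lpos (S : ASys A) (lam : A → ℝ) (k : ℕ) : ℝ := ((S.pre k).map lam).sum

theorem lpos_succ (S : ASys A) (lam : A → ℝ) (k : ℕ) :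
    lpos S lam (k + 1) = lpos S lam k + lam (S.X k) := by
  simp [lpos, pre_succ]

theorem sR_pos (hS : S.Good) (n : ℕ) : (0 : ℝ) < S.len n [S.a] := by
  exact_mod_cast hS.len_pos n S.a

theorem tendsto_len (hL : S.Limits α lam) (w : List A) :
    Tendsto (fun n => (S.len n w : ℝ) / S.len n [S.a]) atTop (𝓝 ((w.map lam).sum)) := by
  induction w with
  | nil => simp
  | cons c w ih =>
    have h1 := (hL.2.2.2.2 c).add ih
    simp only [List.map_cons, List.sum_cons]
    refine h1.congr fun n => ?_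
    rw [S.len_cons n c w]
    push_cast
    ring

theorem tendsto_pos (hL : S.Limits α lam) (k : ℕ) :
    Tendsto (fun n => (S.pos n k : ℝ) / S.len n [S.a]) atTop (𝓝 (lpos S lam k)) :=
  tendsto_len hL (S.pre k)

theorem tendsto_ratio (hS : S.Good) (hL : S.Limits α lam) (j : ℕ) :
    Tendsto (fun n => (S.len (n + j) [S.a] : ℝ) / S.len n [S.a]) atTop (𝓝 (α ^ j)) := by
  induction j with
  | zero =>
    refine (tendsto_const_nhds (x := (1 : ℝ))).congr fun n => ?_
    rw [Nat.add_zero, div_self (sR_pos hS n).ne']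
  | succ j ih =>
    have h1 : Tendsto (fun n => (S.len (n + j + 1) [S.a] : ℝ) / S.len (n + j) [S.a]) atTop
        (𝓝 α) := hL.2.2.2.1.comp (tendsto_add_atTop_nat j)
    have h2 := h1.mul ih
    rw [pow_succ, mul_comm (α ^ j) α]
    refine h2.congr fun n => ?_
    have := (sR_pos hS (n + j)).ne'
    rw [show n + (j + 1) = n + j + 1 by ring]
    field_simp

theorem tendsto_ratio_inv (hS : S.Good) (hL : S.Limits α lam) (hα : 0 < α) (j : ℕ) :
    Tendsto (fun n => (S.len (n - j) [S.a] : ℝ) / S.len n [S.a]) atTop (𝓝 ((α ^ j)⁻¹)) := by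
  have h1 := (tendsto_ratio hS hL j).inv₀ (pow_pos hα j).ne'
  have h2 : Tendsto (fun n : ℕ => n - j) atTop atTop := tendsto_sub_atTop_nat j
  refine (h1.comp h2).congr' ?_
  filter_upwards [eventually_ge_atTop j] with n hn
  simp only [Function.comp_apply, Nat.sub_add_cancel hn, inv_div]

theorem lpos_up (hS : S.Good) (hL : S.Limits α lam) (m : ℕ) : lpos S lam (S.up m 1) = α ^ m := by
  have h1 := tendsto_pos hL (S.up m 1)
  have h2 := tendsto_ratio hS hL m
  refine tendsto_nhds_unique h1 (h2.congr fun n => ?_)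
  rw [hS.pos_up, S.pos_succ, S.pos_zero, hS.X_zero, Nat.zero_add]

theorem exists_lpos_gt (hS : S.Good) (hL : S.Limits α lam) (hα : 1 < α) (C : ℝ) :
    ∃ k, C < lpos S lam k := by
  obtain ⟨m, hm⟩ := pow_unbounded_of_one_lt C hα
  exact ⟨S.up m 1, by rw [lpos_up hS hL]; exact hm⟩

theorem tendsto_sum (hS : S.Good) (hL : S.Limits α lam) (hα : 1 < α) (M : ℕ) (hM : 1 ≤ M)
    (w : List A) : Tendsto (fun t => (∑ i ∈ Finset.range t, (S.len (M * i) w : ℝ)) /
      S.len (M * t) [S.a]) atTop (𝓝 ((w.map lam).sum / (α ^ M - 1))) := by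
  have hγ : 1 < α ^ M := one_lt_pow₀ hα (by omega)
  have hMt : Tendsto (fun t : ℕ => M * t) atTop atTop :=
    tendsto_id.const_mul_atTop' (by omega)
  have ha : Tendsto (fun t => (S.len (M * t) [S.a] : ℝ) / S.len (M * (t + 1)) [S.a]) atTop
      (𝓝 ((α ^ M)⁻¹)) := by
    refine (((tendsto_ratio hS hL M).inv₀ (by positivity)).comp hMt).congr fun t => ?_
    simp only [Function.comp_apply, inv_div]
    rw [show M * (t + 1) = M * t + M by ring]
  have hb : Tendsto (fun t => (S.len (M * t) w : ℝ) / S.len (M * (t + 1)) [S.a]) atTop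
      (𝓝 ((w.map lam).sum * (α ^ M)⁻¹)) := by
    refine (((tendsto_len hL w).comp hMt).mul ha).congr fun t => ?_
    have := (sR_pos hS (M * t)).ne'
    simp only [Function.comp_apply]
    field_simp
  have h := tendsto_of_contr (y := fun t => (∑ i ∈ Finset.range t, (S.len (M * i) w : ℝ)) /
      S.len (M * t) [S.a]) (by positivity) (inv_lt_one_of_one_lt₀ hγ) ha hb (fun t => by
    have h1 := (sR_pos hS (M * t)).ne'
    have h2 := (sR_pos hS (M * (t + 1))).ne'
    rw [Finset.sum_range_succ]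
    field_simp)
  convert h using 2
  have h3 : α ^ M ≠ 0 := by positivity
  have h4 : α ^ M - 1 ≠ 0 := by linarith
  have h5 : (1 : ℝ) - (α ^ M)⁻¹ ≠ 0 := by
    have := inv_lt_one_of_one_lt₀ hγ
    linarith
  rw [div_eq_div_iff h4 h5]
  field_simp

theorem tendsto_inv_len (hS : S.Good) :
    Tendsto (fun n => (1 : ℝ) / S.len n [S.a]) atTop (𝓝 0) := by
  refine squeeze_zero' (Eventually.of_forall fun n => by positivity) ?_
    (tendsto_one_div_atTop_nhds_zero_nat (𝕜 := ℝ))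
  filter_upwards [eventually_ge_atTop 1] with n hn
  have h1 : (n : ℝ) ≤ S.len n [S.a] := by exact_mod_cast (hS.lt_len_a n).le
  have h2 : (0 : ℝ) < n := by exact_mod_cast hn
  exact one_div_le_one_div_of_le h2 h1

/-- A regular sequence has a limit relative to the growth. -/
theorem regM_tendsto (hS : S.Good) (hL : S.Limits α lam) (hα : 1 < α) {M : ℕ} {e : ℕ → ℕ}
    (he : S.RegM M e) : ∃ ζ : ℝ,
      Tendsto (fun t => (e t : ℝ) / S.len (M * t) [S.a]) atTop (𝓝 ζ) := by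
  obtain ⟨P, z, w, d, ⟨hM, _⟩, he⟩ := he
  have hMt : Tendsto (fun t : ℕ => M * t) atTop atTop :=
    tendsto_id.const_mul_atTop' (by omega)
  have h1 := (tendsto_len hL P).comp hMt
  have h2 := tendsto_sum hS hL hα M hM w
  have h3 := ((tendsto_inv_len hS).comp hMt).const_mul (d : ℝ)
  refine ⟨_, ((h1.add h2).add h3).congr fun t => ?_⟩
  have h4 : (e t : ℝ) = (S.len (M * t) P : ℝ) + (∑ i ∈ Finset.range t, (S.len (M * i) w : ℝ)) +
      d := by
    have h5 : (e t : ℤ) = (S.len 0 (S.lev M w t P) : ℕ) + d := he t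
    rw [len_lev] at h5
    have h6 : (e t : ℝ) = (((S.len (0 + M * t) P +
        ∑ i ∈ Finset.range t, S.len (0 + M * i) w : ℕ) : ℤ) : ℝ) + d := by
      rw [← Int.cast_add, ← h5]; simp
    rw [h6]
    push_cast
    simp only [Nat.zero_add]
  simp only [Function.comp_apply]
  rw [h4]
  ring

/-- The first elements after a cut have limits along arithmetic progressions of levels. -/
theorem fb_tendsto (hS : S.Good) (hL : S.Limits α lam) (hα : 1 < α) {K : Set ℕ} {p : ℕ}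
    (hp : 1 ≤ p) {n k : ℕ} (h : S.RegM p (fun t => sInf {y | y ∈ K ∧ S.pos (n + p * t) k ≤ y})) :
    ∃ ζ : ℝ, Tendsto (fun t => (fstIn K (S.pos (n + p * t) k) : ℝ) / S.len (n + p * t) [S.a])
      atTop (𝓝 ζ) := by
  obtain ⟨ζ, hζ⟩ := regM_tendsto hS hL hα h
  have hpt : Tendsto (fun t : ℕ => p * t) atTop atTop := tendsto_id.const_mul_atTop' (by omega)
  have h1 : Tendsto (fun t => (S.len (p * t) [S.a] : ℝ) / S.len (n + p * t) [S.a]) atTop
      (𝓝 ((α ^ n)⁻¹)) := by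
    refine (((tendsto_ratio hS hL n).inv₀ (by positivity)).comp hpt).congr fun t => ?_
    simp only [Function.comp_apply, inv_div]
    rw [show n + p * t = p * t + n by ring]
  refine ⟨_, (hζ.mul h1).congr fun t => ?_⟩
  have := (sR_pos hS (p * t)).ne'
  unfold fstIn
  field_simp

end limits

/-! ### multiples of regular sequences -/

theorem lev_add (S : ASys A) (M : ℕ) (w P : List A) (s t : ℕ) :
    S.lev M w (s + t) P = S.lev M w s (S.lev M w t P) := by
  simp [lev, Function.iterate_add_apply]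

theorem lev_eq_it_append (S : ASys A) (M : ℕ) (w P : List A) (t : ℕ) :
    S.lev M w t P = S.it (M * t) P ++ S.lev M w t [] := by
  induction t with
  | zero => simp [lev_zero]
  | succ t ih =>
    rw [lev_succ, ih, it_append, ← it_add, lev_succ, List.append_assoc,
      show M + M * t = M * (t + 1) by ring]

theorem regM_mul {S : ASys A} {M : ℕ} {e : ℕ → ℕ} (h : S.RegM M e) {k : ℕ} (hk : 1 ≤ k) :
    S.RegM (M * k) (fun t => e (k * t)) := by
  obtain ⟨P, z, w, d, ⟨hM, hP, hz, hPz, hw⟩, he⟩ := h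
  have key : ∀ t, S.lev (M * k) (S.lev M w k []) t P = S.lev M w (k * t) P := by
    intro t
    induction t with
    | zero => simp [lev_zero]
    | succ t ih =>
      rw [lev_succ, ih, ← lev_eq_it_append, ← lev_add, show k + k * t = k * (t + 1) by ring]
  refine ⟨P, z, S.lev M w k [], d, ⟨by nlinarith, hP, hz, hPz, ?_⟩, fun t => ?_⟩
  · have : ∀ j, (S.lev M w j [] ++ z) <+: S.it (M * j) z := by
      intro j
      induction j with
      | zero => simp [lev_zero]
      | succ j ih =>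
        rw [lev_succ, List.append_assoc, show M * (j + 1) = M + M * j by ring, it_add]
        refine List.IsPrefix.trans ?_ (S.it_prefix ih M)
        rw [it_append]
        exact (List.prefix_append_right_inj _).2 hw
    exact this k
  · rw [key]
    exact he (k * t)

/-! ### closeness to a finite set along residue classes -/

theorem close_of_classes {f : ℕ → ℝ} {p n0 : ℕ} (hp : 1 ≤ p)
    (h : ∀ n, n0 ≤ n → ∃ ζ : ℝ, Tendsto (fun t => f (n + p * t)) atTop (𝓝 ζ)) :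
    ∃ Z : Finset ℝ, ∀ ε > 0, ∀ᶠ n in atTop, ∃ ζ ∈ Z, |f n - ζ| < ε := by
  classical
  choose! g hg using h
  refine ⟨(Finset.range p).image (fun r => g (n0 + r)), fun ε hε => ?_⟩
  have h1 : ∀ r ∈ Finset.range p, ∃ T, ∀ t, T ≤ t → |f (n0 + r + p * t) - g (n0 + r)| < ε := by
    intro r _
    obtain ⟨T, hT⟩ := (Metric.tendsto_atTop.1 (hg (n0 + r) (by omega))) ε hε
    exact ⟨T, fun t ht => by simpa [Real.dist_eq] using hT t ht⟩
  choose! T hT using h1
  set T0 := (Finset.range p).sup T with hT0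
  filter_upwards [eventually_ge_atTop (n0 + p * (T0 + 1))] with n hn
  refine ⟨g (n0 + (n - n0) % p), ?_, ?_⟩
  · rw [Finset.mem_image]
    exact ⟨(n - n0) % p, Finset.mem_range.2 (Nat.mod_lt _ (by omega)), rfl⟩
  · have e1 : n = n0 + (n - n0) % p + p * ((n - n0) / p) := by
      have := Nat.mod_add_div (n - n0) p
      have h3 : n0 ≤ n := le_trans (Nat.le_add_right _ _) hn
      omega
    have h2 := hT ((n - n0) % p) (Finset.mem_range.2 (Nat.mod_lt _ (by omega)))
      ((n - n0) / p) (by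
        have h4 : T ((n - n0) % p) ≤ T0 :=
          Finset.le_sup (f := T) (Finset.mem_range.2 (Nat.mod_lt _ (by omega)))
        have h5 : T0 + 1 ≤ (n - n0) / p := by
          rw [Nat.le_div_iff_mul_le (by omega)]
          have : (T0 + 1) * p = p * (T0 + 1) := Nat.mul_comm _ _
          omega
        omega)
    rwa [← e1] at h2

theorem common_delta {ι : Type*} (F : Finset ι) (Q : ι → ℝ → Prop)
    (hmono : ∀ i δ δ', 0 < δ' → δ' ≤ δ → Q i δ → Q i δ')
    (h : ∀ i ∈ F, ∃ δ > 0, Q i δ) : ∃ δ > 0, ∀ i ∈ F, Q i δ := by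
  classical
  induction F using Finset.induction_on with
  | empty => exact ⟨1, one_pos, by simp⟩
  | insert a F ha ih =>
    obtain ⟨δ1, h1, h2⟩ := ih fun i hi => h i (Finset.mem_insert_of_mem hi)
    obtain ⟨δ2, h3, h4⟩ := h a (Finset.mem_insert_self _ _)
    refine ⟨min δ1 δ2, lt_min h1 h3, fun i hi => ?_⟩
    rcases Finset.mem_insert.1 hi with rfl | hi
    · exact hmono _ _ _ (lt_min h1 h3) (min_le_right _ _) h4
    · exact hmono _ _ _ (lt_min h1 h3) (min_le_left _ _) (h2 i hi)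

/-! ### synchronisation -/

theorem lpos_nonneg {S : ASys A} {α : ℝ} {lam : A → ℝ} (hL : S.Limits α lam) (k : ℕ) :
    0 ≤ lpos S lam k := by
  induction k with
  | zero => simp [lpos]
  | succ k ih => rw [lpos_succ]; exact add_nonneg ih (hL.2.1 _)

theorem eventually_le_of_lt {S : ASys A} (hS : S.Good) {f : ℕ → ℝ} {a b : ℝ} (hab : a < b)
    (h : Tendsto (fun n => f n / S.len n [S.a]) atTop (𝓝 a)) :
    ∀ᶠ n in atTop, f n ≤ b * S.len n [S.a] := by
  filter_upwards [h.eventually (gt_mem_nhds hab)] with n hn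
  exact ((div_lt_iff₀ (sR_pos hS n)).1 hn).le

theorem eventually_ge_of_gt {S : ASys A} (hS : S.Good) {f : ℕ → ℝ} {a b : ℝ} (hab : b < a)
    (h : Tendsto (fun n => f n / S.len n [S.a]) atTop (𝓝 a)) :
    ∀ᶠ n in atTop, b * S.len n [S.a] ≤ f n := by
  filter_upwards [h.eventually (lt_mem_nhds hab)] with n hn
  exact ((lt_div_iff₀ (sR_pos hS n)).1 hn).le

theorem sync [Finite B] {S : ASys A} {T : ASys B} (hS : S.Good) (hT : T.Good) {α β : ℝ}
    {lam : A → ℝ} {mu : B → ℝ} (hLS : S.Limits α lam) (hLT : T.Limits β mu)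
    (hβ : 1 < β) {K : Set ℕ} {j n1 : ℕ} (hj : 1 ≤ j)
    (hc : 0 < lam (S.X j))
    (hfree : ∀ n, n1 ≤ n → ∀ y, S.pos n j ≤ y → y < S.pos n (j + 1) → y ∉ K)
    {C : ℝ} (hC : 0 < C) : ∃ q i0 N1 : ℕ, q ≤ N1 ∧ ∀ n m, N1 ≤ n → N1 ≤ m →
      (S.len n [S.a] : ℝ) ≤ C * T.len m [T.a] → (T.len m [T.a] : ℝ) ≤ C * S.len n [S.a] →
      ∃ i, 1 ≤ i ∧ i ≤ i0 ∧ fstIn K (S.pos n j) = fstIn K (T.pos (m - q) i) ∧
        (T.pos (m - q) i : ℝ) ≤ S.pos n j + lam (S.X j) / 4 * S.len n [S.a] := by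
  set c0 := lam (S.X j) with hc0
  obtain ⟨Mu, hMu⟩ : ∃ Mu : ℝ, ∀ e, mu e ≤ Mu := by
    obtain ⟨Mu, h⟩ := (Set.finite_range mu).bddAbove
    exact ⟨Mu, fun e => h ⟨e, rfl⟩⟩
  have hMu1 : 1 ≤ Mu := by
    have := hMu T.a
    rwa [hLT.2.2.1] at this
  have hβ0 : 0 < β := by linarith
  obtain ⟨q, hq⟩ := pow_unbounded_of_one_lt (8 * (Mu + 1) * C / c0) hβ
  have hβq : 0 < β ^ q := pow_pos hβ0 q
  have hq' : (Mu + 1) * (2 * (β ^ q)⁻¹) * C ≤ c0 / 4 := by
    rw [div_lt_iff₀ hc] at hq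
    have : (Mu + 1) * (2 * (β ^ q)⁻¹) * C = (2 * (Mu + 1) * C) / β ^ q := by
      field_simp
    rw [this, div_le_iff₀ hβq]
    nlinarith
  set D := (lpos S lam j + 1) * C * (2 * β ^ q) with hD
  have hl0 := lpos_nonneg hLS j
  obtain ⟨i0, hi0⟩ := exists_lpos_gt hT hLT hβ D
  have hsub : Tendsto (fun m : ℕ => m - q) atTop atTop := tendsto_sub_atTop_nat q
  have ev1 : ∀ᶠ m in atTop, ∀ e, (T.len m [e] : ℝ) ≤ (Mu + 1) * T.len m [T.a] := by
    rw [eventually_all]
    intro e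
    exact eventually_le_of_lt hT (lt_of_le_of_lt (hMu e) (by linarith)) (hLT.2.2.2.2 e)
  have ev2 : ∀ᶠ m in atTop, (T.len (m - q) [T.a] : ℝ) ≤ 2 * (β ^ q)⁻¹ * T.len m [T.a] :=
    eventually_le_of_lt hT (by have := inv_pos.2 hβq; linarith)
      (tendsto_ratio_inv hT hLT hβ0 q)
  have ev3 : ∀ᶠ m in atTop, (β ^ q)⁻¹ / 2 * T.len m [T.a] ≤ (T.len (m - q) [T.a] : ℝ) :=
    eventually_ge_of_gt hT (by have := inv_pos.2 hβq; linarith)
      (tendsto_ratio_inv hT hLT hβ0 q)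
  have ev4 : ∀ᶠ n in atTop, (S.pos n j : ℝ) ≤ (lpos S lam j + 1) * S.len n [S.a] :=
    eventually_le_of_lt hS (by linarith) (tendsto_pos hLS j)
  have ev5 : ∀ᶠ m in atTop, D * T.len m [T.a] ≤ (T.pos m i0 : ℝ) :=
    eventually_ge_of_gt hT hi0 (tendsto_pos hLT i0)
  have ev6 : ∀ᶠ n in atTop, c0 / 2 * S.len n [S.a] ≤ (S.len n [S.X j] : ℝ) :=
    eventually_ge_of_gt hS (by linarith) (hLS.2.2.2.2 (S.X j))
  obtain ⟨Na, hNa⟩ := eventually_atTop.1 (ev4.and ev6)
  obtain ⟨Nb, hNb⟩ := eventually_atTop.1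
    ((hsub.eventually (ev1.and ev5)).and (ev2.and ev3))
  refine ⟨q, i0, max (max Na Nb) (max n1 q), by omega, fun n m hn hm h1 h2 => ?_⟩
  obtain ⟨e4, e6⟩ := hNa n (by omega)
  obtain ⟨⟨e1, e5⟩, e2, e3⟩ := hNb m (by omega)
  have hs := sR_pos hS n
  have hs' := sR_pos hT m
  have hs'' := sR_pos hT (m - q)
  have e3' : (T.len m [T.a] : ℝ) ≤ 2 * β ^ q * T.len (m - q) [T.a] := by
    have : β ^ q * ((β ^ q)⁻¹ / 2 * T.len m [T.a]) ≤ β ^ q * T.len (m - q) [T.a] :=
      mul_le_mul_of_nonneg_left e3 hβq.le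
    have h3 : β ^ q * ((β ^ q)⁻¹ / 2 * T.len m [T.a]) = T.len m [T.a] / 2 := by
      field_simp
    rw [h3] at this
    linarith
  have hbig : (S.pos n j : ℝ) ≤ T.pos (m - q) i0 := by
    refine le_trans ?_ e5
    calc (S.pos n j : ℝ) ≤ (lpos S lam j + 1) * S.len n [S.a] := e4
      _ ≤ (lpos S lam j + 1) * (C * T.len m [T.a]) :=
        mul_le_mul_of_nonneg_left h1 (by linarith)
      _ ≤ (lpos S lam j + 1) * (C * (2 * β ^ q * T.len (m - q) [T.a])) :=
        mul_le_mul_of_nonneg_left (mul_le_mul_of_nonneg_left e3' hC.le) (by linarith)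
      _ = D * T.len (m - q) [T.a] := by rw [hD]; ring
  have hbig' : S.pos n j ≤ T.pos (m - q) i0 := by exact_mod_cast hbig
  classical
  have hex : ∃ i, S.pos n j ≤ T.pos (m - q) i := ⟨i0, hbig'⟩
  obtain ⟨i, hi, hmin⟩ : ∃ i, S.pos n j ≤ T.pos (m - q) i ∧
      ∀ i' < i, T.pos (m - q) i' < S.pos n j :=
    ⟨Nat.find hex, Nat.find_spec hex, fun i' h => not_le.1 (Nat.find_min hex h)⟩
  have hi0' : i ≤ i0 := by
    by_contra hcon
    exact absurd (hmin i0 (by omega)) (by omega)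
  have hjpos := hS.le_pos n j
  cases i with
  | zero => simp at hi; omega
  | succ i =>
    have h3 := hmin i (by omega)
    have h4 : (T.pos (m - q) (i + 1) : ℝ) ≤ S.pos n j + c0 / 4 * S.len n [S.a] := by
      rw [T.pos_succ]
      push_cast
      have h5 : (T.pos (m - q) i : ℝ) ≤ S.pos n j := by exact_mod_cast h3.le
      have h6 : (T.len (m - q) [T.X i] : ℝ) ≤ c0 / 4 * S.len n [S.a] := by
        calc (T.len (m - q) [T.X i] : ℝ) ≤ (Mu + 1) * T.len (m - q) [T.a] := e1 _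
          _ ≤ (Mu + 1) * (2 * (β ^ q)⁻¹ * T.len m [T.a]) :=
            mul_le_mul_of_nonneg_left e2 (by linarith)
          _ ≤ (Mu + 1) * (2 * (β ^ q)⁻¹ * (C * S.len n [S.a])) :=
            mul_le_mul_of_nonneg_left (mul_le_mul_of_nonneg_left h2 (by positivity))
              (by linarith)
          _ = (Mu + 1) * (2 * (β ^ q)⁻¹) * C * S.len n [S.a] := by ring
          _ ≤ c0 / 4 * S.len n [S.a] := mul_le_mul_of_nonneg_right hq' hs.le
      linarith
    refine ⟨i + 1, by omega, hi0', fstIn_eq hi fun y hy1 hy2 => ?_, h4⟩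
    refine hfree n (by omega) y hy1 (lt_of_lt_of_le hy2 ?_)
    have h7 : (T.pos (m - q) (i + 1) : ℝ) ≤ S.pos n (j + 1) := by
      refine h4.trans ?_
      rw [S.pos_succ]
      push_cast
      nlinarith
    exact_mod_cast h7

theorem fst_lower {S : ASys A} (hS : S.Good) {α : ℝ} {lam : A → ℝ}
    (hLS : S.Limits α lam) {K : Set ℕ} (hK : K.Infinite) {j n1 : ℕ}
    (hc : 0 < lam (S.X j))
    (hfree : ∀ n, n1 ≤ n → ∀ y, S.pos n j ≤ y → y < S.pos n (j + 1) → y ∉ K) :
    (∀ n, n1 ≤ n → S.pos n (j + 1) ≤ fstIn K (S.pos n j)) ∧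
    ∀ᶠ n in atTop, lam (S.X j) / 2 ≤ (fstIn K (S.pos n j) : ℝ) / S.len n [S.a] := by
  have h1 : ∀ n, n1 ≤ n → S.pos n (j + 1) ≤ fstIn K (S.pos n j) := by
    intro n hn
    by_contra hcon
    obtain ⟨h2, h3⟩ := fstIn_spec hK (S.pos n j)
    exact hfree n hn _ h3 (not_le.1 hcon) h2
  refine ⟨h1, ?_⟩
  have h2 : ∀ᶠ n in atTop, lam (S.X j) / 2 * S.len n [S.a] ≤ (S.len n [S.X j] : ℝ) :=
    eventually_ge_of_gt hS (by linarith) (hLS.2.2.2.2 (S.X j))
  filter_upwards [h2, eventually_ge_atTop n1] with n hn hn1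
  rw [le_div_iff₀ (sR_pos hS n)]
  refine hn.trans ?_
  have h3 := h1 n hn1
  rw [S.pos_succ] at h3
  exact_mod_cast (Nat.le_add_left _ _).trans h3

theorem ratio_caseI [Finite B] {S : ASys A} {T : ASys B} (hS : S.Good) (hT : T.Good) {α β : ℝ}
    {lam : A → ℝ} {mu : B → ℝ} (hLS : S.Limits α lam) (hLT : T.Limits β mu) (hα : 1 < α)
    (hβ : 1 < β) {K : Set ℕ} (hK : K.Infinite) (hFS : S.FB K) (hFT : T.FB K) {j n1 : ℕ}
    (hj : 1 ≤ j) (hc : 0 < lam (S.X j))
    (hfree : ∀ n, n1 ≤ n → ∀ y, S.pos n j ≤ y → y < S.pos n (j + 1) → y ∉ K) :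
    RatioProp S T := by
  classical
  intro C
  by_cases hC : 0 < C
  swap
  · refine ⟨∅, fun ε _ => ⟨0, fun n _ m _ h1 _ => ?_⟩⟩
    exfalso
    have := sR_pos hS n
    have h3 := sR_pos hT m
    have h4 : C * (T.len m [T.a] : ℝ) ≤ 0 := mul_nonpos_of_nonpos_of_nonneg (not_lt.1 hC) h3.le
    linarith
  obtain ⟨q, i0, N1, hqN, hsync⟩ := sync (K := K) hS hT hLS hLT hβ hj hc hfree hC
  obtain ⟨pS, hpS, nS, hFS⟩ := hFS
  obtain ⟨pT, hpT, nT, hFT⟩ := hFT
  obtain ⟨ZS, hZS⟩ := close_of_classes (f := fun n => (fstIn K (S.pos n j) : ℝ) / S.len n [S.a])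
    hpS (n0 := nS) fun n hn => fb_tendsto hS hLS hα hpS (hFS j hj n hn)
  have hT' : ∀ i, 1 ≤ i → ∃ Z : Finset ℝ, ∀ ε > 0, ∀ᶠ n in atTop,
      ∃ ζ ∈ Z, |(fstIn K (T.pos n i) : ℝ) / T.len n [T.a] - ζ| < ε := fun i hi =>
    close_of_classes (f := fun n => (fstIn K (T.pos n i) : ℝ) / T.len n [T.a])
      hpT (n0 := nT) fun n hn => fb_tendsto hT hLT hβ hpT (hFT i hi n hn)
  choose! ZT hZT using hT'
  set c0 := lam (S.X j) with hc0
  set κ := (β ^ q)⁻¹ with hκ
  set Z1 := ZS.filter (fun ζ => c0 / 4 ≤ ζ) with hZ1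
  set Z2 := (Finset.range (i0 + 1)).biUnion ZT with hZ2
  refine ⟨(Z1 ×ˢ Z2).image (fun z => z.2 * κ / z.1), fun ε hε => ?_⟩
  obtain ⟨δ, hδ0, hδ⟩ := common_delta (Z1 ×ˢ Z2)
    (fun z δ => ∀ a b c : ℝ, |a - z.1| < δ → |b - z.2| < δ → |c - κ| < δ →
      |b * c / a - z.2 * κ / z.1| < ε)
    (fun z δ δ' _ hle h a b c h1 h2 h3 => h a b c (h1.trans_le hle) (h2.trans_le hle)
      (h3.trans_le hle))
    (fun z hz => by
      have hz1 : 0 < z.1 := by
        have := (Finset.mem_filter.1 (Finset.mem_product.1 hz).1).2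
        linarith
      have hcont : ContinuousAt (fun w : ℝ × ℝ × ℝ => w.2.1 * w.2.2 / w.1) (z.1, z.2, κ) := by
        refine ContinuousAt.div ?_ ?_ hz1.ne'
        · exact (continuous_snd.fst.mul continuous_snd.snd).continuousAt
        · exact continuous_fst.continuousAt
      obtain ⟨δ, hδ, h⟩ := Metric.continuousAt_iff.1 hcont ε hε
      refine ⟨δ, hδ, fun a b c h1 h2 h3 => ?_⟩
      have h4 := @h (a, b, c) (by
        simp only [Prod.dist_eq, Real.dist_eq]
        exact max_lt h1 (max_lt h2 h3))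
      simpa [Real.dist_eq] using h4)
  have hδ' : 0 < min δ (c0 / 4) := lt_min hδ0 (by linarith)
  have hsub : Tendsto (fun m : ℕ => m - q) atTop atTop := tendsto_sub_atTop_nat q
  have evT : ∀ᶠ m in atTop, ∀ i ∈ Finset.Icc 1 i0, ∃ ζ ∈ ZT i,
      |(fstIn K (T.pos (m - q) i) : ℝ) / T.len (m - q) [T.a] - ζ| < δ := by
    rw [Filter.eventually_all_finset]
    intro i hi
    exact hsub.eventually (hZT i (Finset.mem_Icc.1 hi).1 δ hδ0)
  have evκ : ∀ᶠ m in atTop, |(T.len (m - q) [T.a] : ℝ) / T.len m [T.a] - κ| < δ := by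
    have := tendsto_ratio_inv hT hLT (by linarith) q
    have h2 := Metric.tendsto_atTop.1 this δ hδ0
    obtain ⟨N, hN⟩ := h2
    filter_upwards [eventually_ge_atTop N] with m hm
    simpa [Real.dist_eq] using hN m hm
  obtain ⟨hlow1, hlow⟩ := fst_lower hS hLS hK hc hfree
  obtain ⟨Na, hNa⟩ := eventually_atTop.1 ((hZS _ hδ').and hlow)
  obtain ⟨Nb, hNb⟩ := eventually_atTop.1 (evT.and evκ)
  refine ⟨max (max Na Nb) N1, fun n hn m hm h1 h2 => ?_⟩
  obtain ⟨i, hi1, hi0, hzz, _⟩ := hsync n m (by omega) (by omega) h1 h2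
  obtain ⟨⟨ζ, hζ, hζ'⟩, hl⟩ := hNa n (by omega)
  obtain ⟨e1, e2⟩ := hNb m (by omega)
  obtain ⟨ζ2, hζ2, hζ2'⟩ := e1 i (Finset.mem_Icc.2 ⟨hi1, hi0⟩)
  have hs := sR_pos hS n
  have hs' := sR_pos hT m
  have hs'' := sR_pos hT (m - q)
  have hζ4 : c0 / 4 ≤ ζ := by
    have h5 := (abs_lt.1 (lt_of_lt_of_le hζ' (min_le_right _ _))).2
    linarith
  have hmem : (ζ, ζ2) ∈ Z1 ×ˢ Z2 := by
    rw [Finset.mem_product]
    exact ⟨Finset.mem_filter.2 ⟨hζ, hζ4⟩,
      Finset.mem_biUnion.2 ⟨i, Finset.mem_range.2 (by omega), hζ2⟩⟩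
  refine ⟨ζ2 * κ / ζ, Finset.mem_image.2 ⟨(ζ, ζ2), hmem, rfl⟩, ?_⟩
  have h6 := hδ (ζ, ζ2) hmem _ _ _ (lt_of_lt_of_le hζ' (min_le_left _ _)) hζ2' e2
  have hz0 : (0 : ℝ) < fstIn K (S.pos n j) := by
    by_contra hcon
    have h7 : (fstIn K (S.pos n j) : ℝ) / S.len n [S.a] ≤ 0 :=
      div_nonpos_of_nonpos_of_nonneg (not_lt.1 hcon) hs.le
    linarith
  have h8 : (S.len n [S.a] : ℝ) / T.len m [T.a] =
      (fstIn K (T.pos (m - q) i) : ℝ) / T.len (m - q) [T.a] *
      ((T.len (m - q) [T.a] : ℝ) / T.len m [T.a]) /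
      ((fstIn K (S.pos n j) : ℝ) / S.len n [S.a]) := by
    rw [← hzz]
    field_simp
  rw [h8]
  exact h6

theorem caseI_core [Finite B] {S : ASys A} {T : ASys B} (hS : S.Good) (hT : T.Good) {α β : ℝ}
    {lam : A → ℝ} {mu : B → ℝ} (hLS : S.Limits α lam) (hLT : T.Limits β mu) (hα : 1 < α)
    (hβ : 1 < β) {K : Set ℕ} (hK : K.Infinite) (hFS : S.FB K) (hFT : T.FB K) {j n1 : ℕ}
    (hc : 0 < lam (S.X j))
    (hfree : ∀ n, n1 ≤ n → ∀ y, S.pos n j ≤ y → y < S.pos n (j + 1) → y ∉ K) :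
    ∃ e : ℕ → ℕ, S.RegSeq e ∧ T.RegSeq e := by
  classical
  have hj : 1 ≤ j := by
    by_contra hcon
    have hj0 : j = 0 := by omega
    obtain ⟨y, hy, -⟩ := hK.exists_gt 0
    refine hfree (max n1 y) (le_max_left _ _) y (by rw [hj0]; simp) ?_ hy
    rw [hj0, S.pos_succ, S.pos_zero, hS.X_zero]
    have := hS.lt_len_a (max n1 y)
    omega
  have hR := ratio_caseI hS hT hLS hLT hα hβ hK hFS hFT hj hc hfree
  obtain ⟨M, N, n₀, m₀, om, hM, hN, hom, hlim⟩ := growth_match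
    (s := fun n => (S.len n [S.a] : ℝ)) (s' := fun n => (T.len n [T.a] : ℝ)) hα hβ
    (sR_pos hS) (sR_pos hT) hLS.2.2.2.1 hLT.2.2.2.1 hR
  set C := max (2 * om) (2 / om) with hC
  have hC0 : 0 < C := lt_of_lt_of_le (by linarith) (le_max_left _ _)
  obtain ⟨q, i0, N1, hqN, hsync⟩ := sync (K := K) hS hT hLS hLT hβ hj hc hfree hC0
  obtain ⟨pS, hpS, nS, hFS⟩ := hFS
  obtain ⟨pT, hpT, nT, hFT⟩ := hFT
  set c0 := lam (S.X j) with hc0
  set P := pS * pT with hP
  have hP1 : 1 ≤ P := Nat.mul_pos hpS hpT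
  have hβ0 : 0 < β := by linarith
  have hβq : 0 < β ^ q := pow_pos hβ0 q
  -- levels
  set nn : ℕ → ℕ := fun u => n₀ + M * (P * u) with hnn
  set mm : ℕ → ℕ := fun u => m₀ + N * (P * u) - q with hmm
  have hPu : Tendsto (fun u : ℕ => P * u) atTop atTop := tendsto_id.const_mul_atTop' (by omega)
  have hnle : ∀ u, u ≤ n₀ + M * (P * u) := fun u => by
    have h1 : 1 * u ≤ P * u := Nat.mul_le_mul_right u hP1
    have h2 : 1 * (P * u) ≤ M * (P * u) := Nat.mul_le_mul_right _ hM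
    omega
  have hmle : ∀ u, u ≤ m₀ + N * (P * u) := fun u => by
    have h1 : 1 * u ≤ P * u := Nat.mul_le_mul_right u hP1
    have h2 : 1 * (P * u) ≤ N * (P * u) := Nat.mul_le_mul_right _ hN
    omega
  have hnntop : Tendsto nn atTop atTop := tendsto_atTop_mono hnle tendsto_id
  have hmm0top : Tendsto (fun u => m₀ + N * (P * u)) atTop atTop :=
    tendsto_atTop_mono hmle tendsto_id
  have hmmtop : Tendsto mm atTop atTop := (tendsto_sub_atTop_nat q).comp hmm0top
  have hlimP : Tendsto (fun u => (S.len (nn u) [S.a] : ℝ) / T.len (m₀ + N * (P * u)) [T.a]) atTop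
      (𝓝 om) := hlim.comp hPu
  -- comparability
  have hev : ∀ᶠ u in atTop, (S.len (nn u) [S.a] : ℝ) ≤ C * T.len (m₀ + N * (P * u)) [T.a] ∧
      (T.len (m₀ + N * (P * u)) [T.a] : ℝ) ≤ C * S.len (nn u) [S.a] := by
    filter_upwards [hlimP.eventually (gt_mem_nhds (show om < 2 * om by linarith)),
      hlimP.eventually (lt_mem_nhds (show om / 2 < om by linarith))] with u h1 h2
    have hs := sR_pos hS (nn u)
    have hs' := sR_pos hT (m₀ + N * (P * u))
    rw [div_lt_iff₀ hs'] at h1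
    rw [lt_div_iff₀ hs'] at h2
    constructor
    · refine h1.le.trans (mul_le_mul_of_nonneg_right (le_max_left _ _) hs'.le)
    · have h3 : (T.len (m₀ + N * (P * u)) [T.a] : ℝ) ≤ 2 / om * S.len (nn u) [S.a] := by
        rw [div_mul_eq_mul_div, le_div_iff₀ hom]
        linarith
      exact h3.trans (mul_le_mul_of_nonneg_right (le_max_right _ _) hs.le)
  -- the relation
  set R : ℕ → ℕ → Prop := fun i u =>
    fstIn K (S.pos (nn u) j) = fstIn K (T.pos (mm u) i) ∧
      (T.pos (mm u) i : ℝ) ≤ S.pos (nn u) j + c0 / 4 * S.len (nn u) [S.a] with hRdef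
  have hRex : ∀ᶠ u in atTop, ∃ i ∈ Finset.Icc 1 i0, R i u := by
    filter_upwards [hev, eventually_ge_atTop N1] with u hu huN
    obtain ⟨i, h1, h2, h3, h4⟩ := hsync (nn u) (m₀ + N * (P * u))
      (huN.trans (hnle u)) (huN.trans (hmle u)) hu.1 hu.2
    exact ⟨i, Finset.mem_Icc.2 ⟨h1, h2⟩, h3, h4⟩
  obtain ⟨i, hi, hfr⟩ : ∃ i ∈ Finset.Icc 1 i0, ∃ᶠ u in atTop, R i u := by
    by_contra hcon
    push Not at hcon
    have h1 : ∀ᶠ u in atTop, ∀ i ∈ Finset.Icc 1 i0, ¬ R i u := by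
      rw [Filter.eventually_all_finset]
      intro i hi
      exact hcon i hi
    obtain ⟨u, h2, i, hi, h3⟩ := (h1.and hRex).exists
    exact h2 i hi h3
  have hi1 : 1 ≤ i := (Finset.mem_Icc.1 hi).1
  -- a start
  obtain ⟨u0, hu0⟩ : ∃ u0, ∀ u, u0 ≤ u → nS ≤ nn u ∧ nT ≤ mm u ∧ q ≤ m₀ + N * (P * u) := by
    obtain ⟨u0, h⟩ := eventually_atTop.1 ((hnntop.eventually_ge_atTop nS).and
      ((hmmtop.eventually_ge_atTop nT).and (hmm0top.eventually_ge_atTop q)))
    exact ⟨u0, h⟩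
  have hnn_add : ∀ v u, nn (v + u) = nn v + pS * (M * pT * u) := by
    intro v u
    simp only [hnn, hP]
    ring
  have hmm_add : ∀ v, u0 ≤ v → ∀ u, mm (v + u) = mm v + pT * (N * pS * u) := by
    intro v hv u
    have h1 := (hu0 v hv).2.2
    simp only [hmm]
    have h2 : N * (P * (v + u)) = N * (P * v) + pT * (N * pS * u) := by
      simp only [hP]; ring
    rw [h2]
    omega
  have hMp : 1 ≤ M * pT := Nat.mul_pos hM hpT
  have hNp : 1 ≤ N * pS := Nat.mul_pos hN hpS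
  -- limits
  obtain ⟨ζ, hζ⟩ : ∃ ζ : ℝ, Tendsto (fun u => (fstIn K (S.pos (nn u) j) : ℝ) /
      S.len (nn u) [S.a]) atTop (𝓝 ζ) := by
    obtain ⟨ζ, h⟩ := fb_tendsto hS hLS hα hpS (hFS j hj (nn u0) (hu0 u0 le_rfl).1)
    refine ⟨ζ, ?_⟩
    rw [← tendsto_add_atTop_iff_nat u0]
    have h2 := h.comp (tendsto_id.const_mul_atTop' (show 0 < M * pT by omega) :
      Tendsto (fun u : ℕ => M * pT * u) atTop atTop)
    refine h2.congr fun u => ?_
    simp only [Function.comp_apply]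
    rw [Nat.add_comm u u0, hnn_add]
  obtain ⟨ζ', hζ'⟩ : ∃ ζ' : ℝ, Tendsto (fun u => (fstIn K (T.pos (mm u) i) : ℝ) /
      T.len (mm u) [T.a]) atTop (𝓝 ζ') := by
    obtain ⟨ζ, h⟩ := fb_tendsto hT hLT hβ hpT (hFT i hi1 (mm u0) (hu0 u0 le_rfl).2.1)
    refine ⟨ζ, ?_⟩
    rw [← tendsto_add_atTop_iff_nat u0]
    have h2 := h.comp (tendsto_id.const_mul_atTop' (show 0 < N * pS by omega) :
      Tendsto (fun u : ℕ => N * pS * u) atTop atTop)
    refine h2.congr fun u => ?_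
    simp only [Function.comp_apply]
    rw [Nat.add_comm u u0, hmm_add u0 le_rfl]
  set Ω := om * β ^ q with hΩ
  have hΩ0 : 0 < Ω := mul_pos hom hβq
  have hρ : Tendsto (fun u => (S.len (nn u) [S.a] : ℝ) / T.len (mm u) [T.a]) atTop (𝓝 Ω) := by
    have h1 := ((tendsto_ratio_inv hT hLT hβ0 q).inv₀ (inv_pos.2 hβq).ne').comp hmm0top
    rw [inv_inv] at h1
    refine (hlimP.mul h1).congr fun u => ?_
    have := (sR_pos hT (m₀ + N * (P * u))).ne'
    simp only [Function.comp_apply, inv_div, hmm]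
    field_simp
  have hρi : ∀ f : ℕ → ℝ, ∀ a : ℝ, Tendsto (fun u => f u / T.len (mm u) [T.a]) atTop (𝓝 a) →
      Tendsto (fun u => f u / S.len (nn u) [S.a]) atTop (𝓝 (a / Ω)) := by
    intro f a h
    refine (h.div hρ hΩ0.ne').congr fun u => ?_
    have h1 := (sR_pos hT (mm u)).ne'
    have h2 := (sR_pos hS (nn u)).ne'
    simp only [Pi.div_apply]
    field_simp
  have hz' := hρi _ _ hζ'
  have hpT' := hρi _ _ ((tendsto_pos hLT i).comp hmmtop)
  have hpS' := (tendsto_pos hLS j).comp hnntop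
  have hpS1 := (tendsto_pos hLS (j + 1)).comp hnntop
  have hζeq : ζ = ζ' / Ω := by
    refine tendsto_nhds_unique_of_frequently_eq hζ hz' (hfr.mono fun u hu => ?_)
    rw [hu.1]
  have hle1 : lpos T mu i / Ω ≤ lpos S lam j + c0 / 4 := by
    refine le_of_tendsto_of_tendsto_of_frequently hpT' (hpS'.add_const (c0 / 4))
      (hfr.mono fun u hu => ?_)
    have hs := sR_pos hS (nn u)
    simp only [Function.comp_apply]
    rw [div_add' _ _ _ hs.ne', div_le_div_iff_of_pos_right hs]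
    exact hu.2
  obtain ⟨hlow, -⟩ := fst_lower hS hLS hK hc hfree
  have hζge : lpos S lam j + c0 ≤ ζ := by
    rw [← lpos_succ]
    refine le_of_tendsto_of_tendsto hpS1 hζ ?_
    filter_upwards [hnntop.eventually_ge_atTop n1] with u hu
    have hs := sR_pos hS (nn u)
    simp only [Function.comp_apply]
    rw [div_le_div_iff_of_pos_right hs]
    exact_mod_cast hlow _ hu
  have ev1 : ∀ᶠ u in atTop, T.pos (mm u) i ≤ fstIn K (S.pos (nn u) j) := by
    have h1 : lpos T mu i / Ω < ζ := by linarith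
    filter_upwards [hpT'.eventually_lt hζ h1] with u hu
    have hs := sR_pos hS (nn u)
    rw [div_lt_div_iff_of_pos_right hs] at hu
    exact_mod_cast hu.le
  have ev2 : ∀ᶠ u in atTop, S.pos (nn u) j ≤ fstIn K (T.pos (mm u) i) := by
    have h1 : lpos S lam j < ζ' / Ω := by rw [← hζeq]; linarith
    filter_upwards [hpS'.eventually_lt hz' h1] with u hu
    have hs := sR_pos hS (nn u)
    simp only [Function.comp_apply] at hu
    rw [div_lt_div_iff_of_pos_right hs] at hu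
    exact_mod_cast hu.le
  obtain ⟨u1, hu1⟩ := eventually_atTop.1 (ev1.and (ev2.and (eventually_ge_atTop u0)))
  have hu01 : u0 ≤ u1 := (hu1 u1 le_rfl).2.2
  have heq : ∀ u, u1 ≤ u → fstIn K (S.pos (nn u) j) = fstIn K (T.pos (mm u) i) := by
    intro u hu
    obtain ⟨h1, h2, -⟩ := hu1 u hu
    exact le_antisymm (fstIn_le (fstIn_spec hK _).1 h2) (fstIn_le (fstIn_spec hK _).1 h1)
  refine ⟨fun u => fstIn K (S.pos (nn (u1 + u)) j), ?_, ?_⟩
  · have h1 := (regM_mul (hFS j hj (nn u1) (hu0 u1 hu01).1) hMp).regSeq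
    have h2 : (fun u => fstIn K (S.pos (nn (u1 + u)) j)) = (fun t =>
        sInf {y | y ∈ K ∧ S.pos (nn u1 + pS * (M * pT * t)) j ≤ y}) := by
      funext u
      rw [hnn_add]
      rfl
    rw [h2]
    exact h1
  · have h1 := (regM_mul (hFT i hi1 (mm u1) (hu0 u1 hu01).2.1) hNp).regSeq
    have h2 : (fun u => fstIn K (S.pos (nn (u1 + u)) j)) = (fun t =>
        sInf {y | y ∈ K ∧ T.pos (mm u1 + pT * (N * pS * t)) i ≤ y}) := by
      funext u
      rw [heq _ (by omega), hmm_add u1 hu01]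
      rfl
    rw [h2]
    exact h1

/-- Case I, from the first-break joint of both systems. -/
theorem jcaseI (hfb : ∀ (A : Type) [Finite A] (S : ASys A) (x : ℕ → ℕ) (q : ℕ), S.Good →
    S.IsWord x → 1 ≤ q → (brk x q).Infinite → S.FB (brk x q)) : JCaseI := by
  intro A B _ _ S T x α β lam mu hS hT hx hx' hLS hLT hα hβ hu hI
  obtain ⟨e, q, m, he, hq, hp⟩ := hI
  have hK := brk_infinite hq hu
  obtain ⟨j, hj, n1, hf⟩ := KE.free_block hS hx hLS hα he hp
  exact caseI_core hS hT hLS hLT hα hβ hK (hfb A S x q hS hx hq hK) (hfb B T x q hT hx' hq hK)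
    hj hf

end CI

end SUBST
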