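import Pool.Agent.Work.SUBST.LimApi

/-!
# Case II of the exponential block: the chain of overlapping blocks (joint D8)
-/

set_option autoImplicit false

open Filter Topology

namespace SUBST

namespace Ch

open ASys

section one

variable {A : Type} {S : ASys A}

theorem exists_word (hS : S.Good) {m k k' : ℕ} (h1 : S.up m k ≤ k') (h2 : k' < S.up m (k + 1)) :
    ∃ w, S.pre k' = S.it m (S.pre k) ++ w ∧ (w ++ [S.X k']) <+: S.it m [S.X k] := by
  obtain ⟨i, rfl⟩ := Nat.exists_eq_add_of_le h1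
  rw [up_succ] at h2
  have hi : i < (S.it m [S.X k]).length := by omega
  refine ⟨(S.it m [S.X k]).take i, hS.pre_up_add m k i hi.le, ?_⟩
  rw [hS.X_up_add m k i hi, List.take_append_getElem hi]
  exact List.take_prefix _ _

theorem lev_succ' (M : ℕ) (w P : List A) (s : ℕ) :
    S.lev M w (s + 1) P = S.it M (S.lev M w s P) ++ w := by
  simp only [lev]
  rw [Function.iterate_succ_apply']

theorem lev_zero (M : ℕ) (w P : List A) : S.lev M w 0 P = P := rfl

theorem it_lev (M n : ℕ) (w P : List A) (s : ℕ) :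
    S.it n (S.lev M w s P) = S.lev M (S.it n w) s (S.it n P) := by
  induction s with
  | zero => rfl
  | succ s ih => rw [lev_succ', it_append, it_comm, ih, lev_succ']

theorem len_lev (M n : ℕ) (w P : List A) (s : ℕ) :
    S.len n (S.lev M w (s + 1) P) = S.len (n + M) (S.lev M w s P) + S.len n w := by
  rw [lev_succ', len_append, len_it]

theorem regSeq_of (hS : S.Good) {m k k' n : ℕ} (hm : 1 ≤ m) (hk : 1 ≤ k)
    (hX : S.X k' = S.X k) {w : List A}
    (hw2 : (w ++ [S.X k']) <+: S.it m [S.X k]) (e : ℕ → ℕ) (d : ℤ)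
    (he : ∀ s, (e s : ℤ) = S.len n (S.lev m w s (S.pre k)) + d) : S.RegSeq e := by
  refine ⟨m, S.it n (S.pre k), S.it n [S.X k], S.it n w, d,
    ⟨hm, hS.it_ne_nil n ?_, hS.it_ne_nil n (by simp), ?_, ?_⟩, fun s => ?_⟩
  · intro h
    have := congrArg List.length h
    rw [length_pre] at this
    simp at this
    omega
  · refine ⟨n + (k + 1), ?_⟩
    rw [← it_append, ← pre_succ, it_add]
    exact S.it_prefix (hS.pre_prefix_it' _) n
  · rw [← it_append, it_comm]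
    rw [hX] at hw2
    exact S.it_prefix hw2 n
  · rw [he, ← it_lev]
    rfl

theorem exists_min [Finite A] (lam : A → ℝ) : ∃ η : ℝ, 0 < η ∧ ∀ c, 0 < lam c → η ≤ lam c := by
  classical
  have := Fintype.ofFinite A
  rcases (Finset.univ.filter fun c => 0 < lam c).eq_empty_or_nonempty with h | h
  · refine ⟨1, one_pos, fun c hc => ?_⟩
    have : c ∈ (Finset.univ.filter fun c => 0 < lam c) := by simp [hc]
    rw [h] at this
    simp at this
  · obtain ⟨d, hd, hmin⟩ := Finset.exists_min_image _ lam h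
    refine ⟨lam d, by simpa using hd, fun c hc => hmin c (by simp [hc])⟩

theorem exists_max [Finite A] (lam : A → ℝ) : ∃ Λ : ℝ, 0 < Λ ∧ ∀ c, lam c ≤ Λ := by
  classical
  have := Fintype.ofFinite A
  obtain ⟨C, hC⟩ := (Set.finite_range lam).bddAbove
  exact ⟨max C 1, lt_max_of_lt_right one_pos,
    fun c => (hC ⟨c, rfl⟩).trans (le_max_left _ _)⟩

/-- Tiles of one system, scaled by `θ`, from index `j0` on. -/
theorem tile_pl {α : ℝ} {lam : A → ℝ} (hS : S.Good) (hL : S.Limits α lam) (hα : 1 < α) {θ η : ℝ}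
    (hθ : 0 < θ) (hη : 0 < η) (hmin : ∀ c, 0 < lam c → 2 * η ≤ θ * lam c) (j0 : ℕ) {a b : ℝ}
    (ha : θ * S.pl lam j0 ≤ a) (hab : a + 2 * η ≤ b) :
    ∃ l, j0 ≤ l ∧ η ≤ min b (θ * S.pl lam (l + 1)) - max a (θ * S.pl lam l) := by
  obtain ⟨K0, hK0⟩ := ((hL.tendsto_pl_atTop hS hα).eventually_ge_atTop (b / θ)).exists
  have hmono := pl_mono (S := S) hL.nonneg
  have hK : b ≤ θ * S.pl lam (j0 + K0) := by
    have h1 : b / θ ≤ S.pl lam (j0 + K0) := hK0.trans (hmono (by omega))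
    rw [div_le_iff₀ hθ] at h1
    linarith
  obtain ⟨l, -, hl⟩ := tile (fun l => θ * S.pl lam (j0 + l)) η hη
    (fun i j hij => mul_le_mul_of_nonneg_left (hmono (by omega)) hθ.le)
    (fun l => by
      rw [show j0 + (l + 1) = j0 + l + 1 by ring, pl_succ]
      rcases (hL.nonneg (S.X (j0 + l))).eq_or_lt with h | h
      · left; rw [← h]; ring
      · right
        have := hmin _ h
        linarith [mul_add θ (S.pl lam (j0 + l)) (lam (S.X (j0 + l)))]) K0 a b (by simpa using ha)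
    hab hK
  exact ⟨j0 + l, by omega, hl⟩

end one

section two

variable {A B : Type} {S : ASys A} {T : ASys B}

/-- `q` is a pair of descendants of `p`, `M * R` and `N * R` generations later. -/
def Desc (S : ASys A) (T : ASys B) (M N R : ℕ) (p q : ℕ × ℕ) : Prop :=
  S.up (M * R) p.1 ≤ q.1 ∧ q.1 < S.up (M * R) (p.1 + 1) ∧
    T.up (N * R) p.2 ≤ q.2 ∧ q.2 < T.up (N * R) (p.2 + 1)

theorem up_aux (hS : S.Good) {m m' k k' k'' : ℕ} (h1 : S.up m k ≤ k')
    (h2 : k' < S.up m (k + 1)) (h3 : S.up m' k' ≤ k'') (h4 : k'' < S.up m' (k' + 1)) :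
    S.up (m + m') k ≤ k'' ∧ k'' < S.up (m + m') (k + 1) := by
  rw [Nat.add_comm m m', ← hS.up_up, ← hS.up_up]
  exact ⟨((hS.up_strictMono m').monotone h1).trans h3,
    lt_of_lt_of_le h4 ((hS.up_strictMono m').monotone h2)⟩

theorem Desc.trans (hS : S.Good) (hT : T.Good) {M N R R' : ℕ} {p q r : ℕ × ℕ}
    (h : Desc S T M N R p q) (h' : Desc S T M N R' q r) : Desc S T M N (R + R') p r := by
  obtain ⟨a1, a2, a3, a4⟩ := h
  obtain ⟨b1, b2, b3, b4⟩ := h'
  have e1 := up_aux hS a1 a2 b1 b2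
  have e2 := up_aux hT a3 a4 b3 b4
  rw [← Nat.mul_add] at e1 e2
  exact ⟨e1.1, e1.2, e2.1, e2.2⟩

theorem pow_eq (hS : S.Good) (hT : T.Good) {α β : ℝ} {lam : A → ℝ} {mu : B → ℝ}
    (hL : S.Limits α lam) (hL' : T.Limits β mu) {M N n₀ m₀ : ℕ} {θ : ℝ}
    (h : LevSeq S T (fun t => n₀ + M * t) (fun t => m₀ + N * t) θ) : α ^ M = β ^ N := by
  have h1 := (hL.tendsto_ratio hS M).comp h.n_top
  have h2 := (hL'.tendsto_ratio hT N).comp h.m_top
  have h3 : Tendsto (fun t => (T.len (m₀ + N * (t + 1)) [T.a] : ℝ) /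
      S.len (n₀ + M * (t + 1)) [S.a]) atTop (𝓝 θ) := h.ratio.comp (tendsto_add_atTop_nat 1)
  have h4 := h3.mul h1
  have h5 := h2.mul h.ratio
  have h6 : θ * α ^ M = β ^ N * θ := by
    refine tendsto_nhds_unique h4 (h5.congr fun t => ?_)
    simp only [Function.comp]
    rw [show m₀ + N * (t + 1) = m₀ + N * t + N by ring,
      show n₀ + M * (t + 1) = n₀ + M * t + M by ring]
    have p1 := (hS.len_a_pos (n₀ + M * t)).ne'
    have p2 := (hS.len_a_pos (n₀ + M * t + M)).ne'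
    have p3 := (hT.len_a_pos (m₀ + N * t)).ne'
    field_simp
  have h7 := h.pos
  have h8 : θ * α ^ M = θ * β ^ N := by rw [h6]; ring
  exact mul_left_cancel₀ h7.ne' h8

/-- A good pair has a good pair of descendants. -/
theorem next (hS : S.Good) (hT : T.Good) {α β : ℝ} {lam : A → ℝ} {mu : B → ℝ}
    (hL : S.Limits α lam) (hL' : T.Limits β mu) (hα : 1 < α) (hβ : 1 < β) {θ η Λ : ℝ} (hθ : 0 < θ)
    (hη : 0 < η) (hΛ : 0 < Λ) (hmax : ∀ c, lam c ≤ Λ) (hminS : ∀ c, 0 < lam c → 2 * η ≤ lam c)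
    (hminT : ∀ c, 0 < mu c → 2 * η ≤ θ * mu c) {M N R : ℕ} (hpow : α ^ (M * R) = β ^ (N * R))
    (hR : 3 * Λ ≤ α ^ (M * R) * η) {p : ℕ × ℕ} (hp : η ≤ Ov S T lam mu θ p.1 p.2) :
    ∃ q : ℕ × ℕ, η ≤ Ov S T lam mu θ q.1 q.2 ∧ Desc S T M N R p q := by
  obtain ⟨k, l⟩ := p
  simp only [Ov] at hp
  set G : ℝ := α ^ (M * R) with hG
  have hG0 : 0 < G := by positivity
  set lo : ℝ := max (S.pl lam k) (θ * T.pl mu l) with hlo
  set hi : ℝ := min (S.pl lam (k + 1)) (θ * T.pl mu (l + 1)) with hhi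
  have hmonoS := pl_mono (S := S) hL.nonneg
  have hmonoT := pl_mono (S := T) hL'.nonneg
  have hlo1 : S.pl lam k ≤ lo := le_max_left _ _
  have hlo2 : θ * T.pl mu l ≤ lo := le_max_right _ _
  have hhi1 : hi ≤ S.pl lam (k + 1) := min_le_left _ _
  have hhi2 : hi ≤ θ * T.pl mu (l + 1) := min_le_right _ _
  have hlo0 : 0 ≤ lo := (pl_nonneg (S := S) hL.nonneg k).trans hlo1
  have hGhl : 3 * Λ ≤ G * (hi - lo) := hR.trans (mul_le_mul_of_nonneg_left hp hG0.le)
  have hy0 : 0 ≤ G * (lo + hi) / 2 := by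
    have : 0 ≤ lo + hi := by linarith
    positivity
  obtain ⟨k1, hk1, hk1', hpos⟩ := hL.exists_block_pl hS hα hy0
  set y : ℝ := G * (lo + hi) / 2 with hy
  have hylo : G * lo + 3 * Λ / 2 ≤ y := by rw [hy]; linarith [mul_sub G hi lo, mul_add G lo hi]
  have hyhi : y + 3 * Λ / 2 ≤ G * hi := by rw [hy]; linarith [mul_sub G hi lo, mul_add G lo hi]
  have hs := S.pl_succ lam k1
  have hlam := hmax (S.X k1)
  have e1 : G * S.pl lam k ≤ G * lo := mul_le_mul_of_nonneg_left hlo1 hG0.le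
  have e2 : G * (θ * T.pl mu l) ≤ G * lo := mul_le_mul_of_nonneg_left hlo2 hG0.le
  have e3 : G * hi ≤ G * S.pl lam (k + 1) := mul_le_mul_of_nonneg_left hhi1 hG0.le
  have e4 : G * hi ≤ G * (θ * T.pl mu (l + 1)) := mul_le_mul_of_nonneg_left hhi2 hG0.le
  have u1 := hL.pl_up hS (M * R) k
  have u2 := hL.pl_up hS (M * R) (k + 1)
  have u3 := hL'.pl_up hT (N * R) l
  have u4 := hL'.pl_up hT (N * R) (l + 1)
  rw [← hpow] at u3 u4
  rw [← hG] at u1 u2
  obtain ⟨l1, -, hl1⟩ := tile_pl hT hL' hβ hθ hη hminT 0 (a := S.pl lam k1)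
    (b := S.pl lam (k1 + 1)) (by
      rw [pl_zero, mul_zero]; exact pl_nonneg hL.nonneg _) (by
      have := hminS _ hpos
      linarith)
  have hA : ∀ i j : ℕ, i ≤ j → θ * T.pl mu i ≤ θ * T.pl mu j := fun i j hij =>
    mul_le_mul_of_nonneg_left (hmonoT hij) hθ.le
  have m1 := min_le_left (S.pl lam (k1 + 1)) (θ * T.pl mu (l1 + 1))
  have m2 := min_le_right (S.pl lam (k1 + 1)) (θ * T.pl mu (l1 + 1))
  have m3 := le_max_left (S.pl lam k1) (θ * T.pl mu l1)
  have m4 := le_max_right (S.pl lam k1) (θ * T.pl mu l1)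
  refine ⟨(k1, l1), hl1, ?_, ?_, ?_, ?_⟩
  · by_contra hcon
    push Not at hcon
    have h1 := hmonoS (show k1 + 1 ≤ S.up (M * R) k from hcon)
    linarith
  · by_contra hcon
    push Not at hcon
    have h1 := hmonoS hcon
    simp only at h1
    linarith
  · by_contra hcon
    push Not at hcon
    have h1 := hA _ _ (show l1 + 1 ≤ T.up (N * R) l from hcon)
    rw [u3] at h1
    have h2 : θ * (G * T.pl mu l) = G * (θ * T.pl mu l) := by ring
    linarith
  · by_contra hcon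
    push Not at hcon
    have h1 := hA _ _ hcon
    simp only at h1
    rw [u4] at h1
    have h2 : θ * (G * T.pl mu (l + 1)) = G * (θ * T.pl mu (l + 1)) := by ring
    linarith

/-- The first good pair. -/
theorem first (hS : S.Good) (hT : T.Good) {α β : ℝ} {lam : A → ℝ} {mu : B → ℝ}
    (hL : S.Limits α lam) (hL' : T.Limits β mu) (hα : 1 < α) (hβ : 1 < β) {θ η Λ : ℝ} (hθ : 0 < θ)
    (hη : 0 < η) (hmax : ∀ c, lam c ≤ Λ) (hminS : ∀ c, 0 < lam c → 2 * η ≤ lam c)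
    (hminT : ∀ c, 0 < mu c → 2 * η ≤ θ * mu c) :
    ∃ q : ℕ × ℕ, 1 ≤ q.1 ∧ 1 ≤ q.2 ∧ η ≤ Ov S T lam mu θ q.1 q.2 := by
  have hΛ0 : 0 ≤ Λ := (hL.nonneg S.a).trans (hmax S.a)
  obtain ⟨k, hk1, hk2, hpos⟩ := hL.exists_block_pl hS hα (y := Λ + θ + 1) (by linarith)
  have hs := S.pl_succ lam k
  have hlam := hmax (S.X k)
  have hk : 1 ≤ k := by
    by_contra hcon
    have : k = 0 := by omega
    subst this
    rw [pl_zero] at hs
    linarith
  obtain ⟨l, hl, hl1⟩ := tile_pl hT hL' hβ hθ hη hminT 1 (a := S.pl lam k)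
    (b := S.pl lam (k + 1)) (by rw [hL'.pl_one hT]; linarith) (by
      have := hminS _ hpos
      linarith)
  exact ⟨(k, l), hk, hl, hl1⟩

/-- Equal offsets are repeated along the chain. -/
theorem repeat_len {M N n₀ m₀ R t₀ : ℕ} {P w : List A} {Q w' : List B}
    (h : ∀ t, t₀ ≤ t → (S.len (n₀ + M * t) P : ℤ) - T.len (m₀ + N * t) Q =
      S.len (n₀ + M * t) (S.it (M * R) P ++ w) - T.len (m₀ + N * t) (T.it (N * R) Q ++ w'))
    (s : ℕ) : ∀ t, t₀ ≤ t →
      (S.len (n₀ + M * t) (S.lev (M * R) w s P) : ℤ) - T.len (m₀ + N * t) (T.lev (N * R) w' s Q) =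
      (S.len (n₀ + M * t) P : ℤ) - T.len (m₀ + N * t) Q := by
  induction s with
  | zero => intro t _; rfl
  | succ s ih =>
    intro t ht
    have h1 := ih (t + R) (by omega)
    rw [len_lev, len_lev, h t ht, len_append, len_append, len_it, len_it]
    rw [show n₀ + M * (t + R) = n₀ + M * t + M * R by ring,
      show m₀ + N * (t + R) = m₀ + N * t + N * R by ring] at h1
    push_cast
    linarith

end two

end Ch

open Ch ASys in
/-- **The chain** (joint D8). -/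
theorem chain {A B : Type} [Finite A] [Finite B] {S : ASys A} {T : ASys B} (hS : S.Good)
    (hT : T.Good) {α β : ℝ} {lam : A → ℝ} {mu : B → ℝ} (hL : S.Limits α lam)
    (hL' : T.Limits β mu) (hα : 1 < α) (hβ : 1 < β) (hsep : SepProp S T lam mu) :
    ChainProp S T := by
  intro M N n₀ m₀ θ hM hN hseq
  have hθ := hseq.pos
  have hpow := pow_eq hS hT hL hL' hseq
  obtain ⟨η1, hη1, hmin1⟩ := exists_min lam
  obtain ⟨η2, hη2, hmin2⟩ := exists_min mu
  obtain ⟨Λ, hΛ, hmax⟩ := exists_max lam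
  obtain ⟨Λ', hΛ', hmax'⟩ := exists_max mu
  set η : ℝ := min (η1 / 2) (θ * η2 / 2) with hη
  have hηp : 0 < η := by rw [hη]; exact lt_min (by positivity) (by positivity)
  have hminS : ∀ c, 0 < lam c → 2 * η ≤ lam c := fun c hc => by
    have h1 := hmin1 c hc
    have h2 : η ≤ η1 / 2 := min_le_left _ _
    linarith
  have hminT : ∀ c, 0 < mu c → 2 * η ≤ θ * mu c := fun c hc => by
    have h1 := mul_le_mul_of_nonneg_left (hmin2 c hc) hθ.le
    have h2 : η ≤ θ * η2 / 2 := min_le_right _ _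
    linarith
  -- the number of generations
  have hαM : 1 < α ^ M := one_lt_pow₀ hα (by omega)
  obtain ⟨r0, hr0⟩ := pow_unbounded_of_one_lt (3 * Λ / η) hαM
  have hr01 : 1 ≤ r0 + 1 := by omega
  have hR : 3 * Λ ≤ α ^ (M * (r0 + 1)) * η := by
    rw [pow_mul, pow_succ]
    rw [div_lt_iff₀ hηp] at hr0
    have h1 : (α ^ M) ^ r0 * η ≤ (α ^ M) ^ r0 * α ^ M * η := by
      have h2 : 0 < (α ^ M) ^ r0 := by positivity
      nlinarith [mul_pos h2 hηp]
    linarith
  have hpow' : α ^ (M * (r0 + 1)) = β ^ (N * (r0 + 1)) := by rw [pow_mul, pow_mul, hpow]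
  -- the chain
  obtain ⟨p0, hp01, hp02, hp0⟩ := first hS hT hL hL' hα hβ hθ hηp hmax hminS hminT
  have hnext : ∀ p : {p : ℕ × ℕ // η ≤ Ov S T lam mu θ p.1 p.2},
      ∃ q : {p : ℕ × ℕ // η ≤ Ov S T lam mu θ p.1 p.2}, Desc S T M N (r0 + 1) p.1 q.1 := by
    rintro ⟨p, hp⟩
    obtain ⟨q, hq, hd⟩ := next hS hT hL hL' hα hβ hθ hηp hΛ hmax hminS hminT hpow' hR hp
    exact ⟨⟨q, hq⟩, hd⟩
  choose f hf using hnext
  set c : ℕ → {p : ℕ × ℕ // η ≤ Ov S T lam mu θ p.1 p.2} := fun i => f^[i] ⟨p0, hp0⟩ with hc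
  have hcs : ∀ i, Desc S T M N (r0 + 1) (c i).1 (c (i + 1)).1 := fun i => by
    simp only [hc]
    rw [Function.iterate_succ_apply']
    exact hf _
  have hcd : ∀ i d, Desc S T M N ((r0 + 1) * (d + 1)) (c i).1 (c (i + (d + 1))).1 := by
    intro i d
    induction d with
    | zero => simpa using hcs i
    | succ d ih =>
      have := ih.trans hS hT (hcs (i + (d + 1)))
      rw [show (r0 + 1) * (d + 1) + (r0 + 1) = (r0 + 1) * (d + 1 + 1) by ring] at this
      exact this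
  have hc1 : ∀ i, 1 ≤ (c i).1.1 ∧ 1 ≤ (c i).1.2 := by
    intro i
    induction i with
    | zero => exact ⟨hp01, hp02⟩
    | succ i ih =>
      obtain ⟨a1, -, a3, -⟩ := hcs i
      exact ⟨(ih.1.trans (hS.le_up _ _)).trans a1, (ih.2.trans (hT.le_up _ _)).trans a3⟩
  -- pigeonhole
  obtain ⟨ε, hε, hsep⟩ := hsep η hηp
  have hoff : ∀ i, -Λ ≤ Off S T lam mu θ (c i).1.1 (c i).1.2 ∧
      Off S T lam mu θ (c i).1.1 (c i).1.2 ≤ θ * Λ' := by
    intro i
    have h := (c i).2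
    simp only [Ov] at h
    simp only [Off]
    have s1 := S.pl_succ lam (c i).1.1
    have s2 : θ * T.pl mu ((c i).1.2 + 1) = θ * T.pl mu (c i).1.2 + θ * mu (T.X (c i).1.2) := by
      rw [T.pl_succ mu (c i).1.2, mul_add]
    have b1 := hmax (S.X (c i).1.1)
    have b2 := mul_le_mul_of_nonneg_left (hmax' (T.X (c i).1.2)) hθ.le
    have m1 := min_le_left (S.pl lam ((c i).1.1 + 1)) (θ * T.pl mu ((c i).1.2 + 1))
    have m2 := min_le_right (S.pl lam ((c i).1.1 + 1)) (θ * T.pl mu ((c i).1.2 + 1))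
    have m3 := le_max_left (S.pl lam (c i).1.1) (θ * T.pl mu (c i).1.2)
    have m4 := le_max_right (S.pl lam (c i).1.1) (θ * T.pl mu (c i).1.2)
    constructor <;> linarith
  let cls : ℕ → A × B × (Set.Icc ⌊-Λ / ε⌋ ⌊θ * Λ' / ε⌋ : Set ℤ) := fun i =>
    (S.X (c i).1.1, T.X (c i).1.2, ⟨⌊Off S T lam mu θ (c i).1.1 (c i).1.2 / ε⌋,
      Int.floor_mono (div_le_div_of_nonneg_right (hoff i).1 hε.le),
      Int.floor_mono (div_le_div_of_nonneg_right (hoff i).2 hε.le)⟩)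
  obtain ⟨i, j, hij, hcls⟩ : ∃ i j : ℕ, i < j ∧ cls i = cls j := by
    obtain ⟨i, j, hne, h⟩ := Finite.exists_ne_map_eq_of_infinite cls
    rcases lt_or_gt_of_ne hne with h1 | h1
    · exact ⟨i, j, h1, h⟩
    · exact ⟨j, i, h1, h.symm⟩
  obtain ⟨d, rfl⟩ := Nat.exists_eq_add_of_lt hij
  rw [show i + d + 1 = i + (d + 1) by ring] at hcls
  simp only [cls, Prod.mk.injEq, Subtype.mk.injEq] at hcls
  obtain ⟨hX, hY, hfl⟩ := hcls
  have hlt := Int.abs_sub_lt_one_of_floor_eq_floor hfl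
  rw [← sub_div, abs_div, abs_of_pos hε, div_lt_one hε] at hlt
  have hev := hsep _ _ θ hseq _ _ _ _ hX hY (c i).2 hlt
  obtain ⟨t₀, ht₀⟩ := eventually_atTop.1 hev
  obtain ⟨d1, d2, d3, d4⟩ := hcd i d
  obtain ⟨w, hw, hw'⟩ := exists_word hS d1 d2
  obtain ⟨v, hv, hv'⟩ := exists_word hT d3 d4
  have hrep := repeat_len (S := S) (T := T) (M := M) (N := N) (n₀ := n₀) (m₀ := m₀)
    (R := (r0 + 1) * (d + 1)) (t₀ := t₀) (P := S.pre (c i).1.1) (w := w) (Q := T.pre (c i).1.2)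
    (w' := v) (fun t ht => by
      rw [← hw, ← hv]
      exact ht₀ t ht)
  refine ⟨fun s => S.len (n₀ + M * t₀) (S.lev (M * ((r0 + 1) * (d + 1))) w s (S.pre (c i).1.1)),
    ?_, ?_⟩
  · exact regSeq_of hS (Nat.mul_pos hM (by positivity)) (hc1 i).1 hX.symm hw' _ 0
      (fun s => (add_zero _).symm)
  · refine regSeq_of hT (n := m₀ + N * t₀) (Nat.mul_pos hN (by positivity)) (hc1 i).2 hY.symm hv' _
      ((S.len (n₀ + M * t₀) (S.pre (c i).1.1) : ℤ) - T.len (m₀ + N * t₀) (T.pre (c i).1.2))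
      (fun s => ?_)
    have := hrep s t₀ le_rfl
    linarith

end SUBST
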