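import Pool.Agent.Work.SUBST.RegM

/-!
# Finite readers on abstract systems: stable systems, labels, first and last hits
(problem 24c0d2, tools shared by the sparse case and by the case of long periodic blocks)
-/

set_option autoImplicit false

namespace SUBST

namespace Aut

/-! ### Basic facts on iterates -/

section basics

variable {A : Type} (S : ASys A)

theorem ap_nil : S.ap [] = [] := rfl

theorem ap_append (u v : List A) : S.ap (u ++ v) = S.ap u ++ S.ap v := by
  simp [ASys.ap]

theorem ap_singleton (c : A) : S.ap [c] = S.σ c := by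
  simp [ASys.ap]

theorem it_zero (w : List A) : S.it 0 w = w := rfl

theorem it_succ (n : ℕ) (w : List A) : S.it (n + 1) w = S.it n (S.ap w) := rfl

theorem it_succ' (n : ℕ) (w : List A) : S.it (n + 1) w = S.ap (S.it n w) := by
  rw [ASys.it, Function.iterate_succ_apply']; rfl

theorem it_add (m n : ℕ) (w : List A) : S.it (m + n) w = S.it m (S.it n w) := by
  rw [ASys.it, Function.iterate_add_apply]; rfl

theorem it_nil (n : ℕ) : S.it n [] = [] := by
  induction n with
  | zero => rfl
  | succ n ih => rw [it_succ, ap_nil, ih]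

theorem it_append (n : ℕ) (u v : List A) : S.it n (u ++ v) = S.it n u ++ S.it n v := by
  induction n generalizing u v with
  | zero => rfl
  | succ n ih => rw [it_succ, ap_append, ih, ← it_succ, ← it_succ]

theorem W_nil (n : ℕ) : S.W n [] = [] := by
  rw [ASys.W, it_nil]; rfl

theorem W_append (n : ℕ) (u v : List A) : S.W n (u ++ v) = S.W n u ++ S.W n v := by
  rw [ASys.W, it_append, List.flatMap_append]; rfl

theorem W_cons (n : ℕ) (c : A) (v : List A) : S.W n (c :: v) = S.W n [c] ++ S.W n v := by
  rw [← W_append]; rfl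

theorem W_zero (w : List A) : S.W 0 w = w.flatMap S.h := rfl

theorem W_succ (n : ℕ) (w : List A) : S.W (n + 1) w = S.W n (S.ap w) := rfl

theorem W_it (m n : ℕ) (w : List A) : S.W m (S.it n w) = S.W (m + n) w := by
  rw [ASys.W, ASys.W, it_add]

theorem len_append (n : ℕ) (u v : List A) : S.len n (u ++ v) = S.len n u + S.len n v := by
  rw [ASys.len, W_append, List.length_append]; rfl

theorem len_succ (n : ℕ) (w : List A) : S.len (n + 1) w = S.len n (S.ap w) := rfl

theorem len_nil (n : ℕ) : S.len n [] = 0 := by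
  rw [ASys.len, W_nil]; rfl

theorem pow_ap (p : ℕ) (w : List A) : (S.pow p).ap w = S.it p w := by
  induction w with
  | nil => rw [it_nil]; rfl
  | cons c w ih =>
    have h1 : (S.pow p).ap (c :: w) = (S.pow p).ap [c] ++ (S.pow p).ap w := ap_append _ [c] w
    have h2 : (S.pow p).ap [c] = S.it p [c] := ap_singleton _ c
    rw [h1, h2, ih, ← it_append]; rfl

theorem pow_it (p n : ℕ) (w : List A) : (S.pow p).it n w = S.it (p * n) w := by
  induction n generalizing w with
  | zero => rfl
  | succ n ih => rw [it_succ, ih, pow_ap, ← it_add, Nat.mul_succ]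

theorem pow_W (p n : ℕ) (w : List A) : (S.pow p).W n w = S.W (p * n) w := by
  rw [ASys.W, ASys.W, pow_it]; rfl

theorem shift_it (r n : ℕ) (w : List A) : (S.shift r).it n w = S.it n w := rfl

theorem shift_W (r n : ℕ) (w : List A) : (S.shift r).W n w = S.W (r + n) w := by
  rw [← W_it]
  rw [ASys.W, shift_it]
  generalize S.it n w = v
  induction v with
  | nil => rw [W_nil]; rfl
  | cons c v ih =>
    rw [List.flatMap_cons, ih, W_cons S r c v]; rfl

end basics

/-! ### Readers -/

/-- A deterministic reader of words over `ℕ` with marked transitions (hits). -/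
structure Reader (Q : Type) where
  /-- transition function -/
  δ : Q → ℕ → Q
  /-- marked transitions -/
  hit : Q → ℕ → Prop

namespace Reader

variable {Q : Type} (R : Reader Q)

/-- State after reading `w` from `q`. -/
def run (q : Q) (w : List ℕ) : Q := w.foldl R.δ q

/-- Place `i` of `w` is a hit when `w` is read from `q`. -/
def HitAt : Q → List ℕ → ℕ → Prop
  | _, [], _ => False
  | q, b :: _, 0 => R.hit q b
  | q, b :: w, i + 1 => HitAt (R.δ q b) w i

/-- Reading `w` from `q` gives a hit. -/
def Pr (q : Q) (w : List ℕ) : Prop := ∃ i, R.HitAt q w i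

theorem run_nil (q : Q) : R.run q [] = q := rfl

theorem run_append (q : Q) (u v : List ℕ) : R.run q (u ++ v) = R.run (R.run q u) v := by
  rw [run, List.foldl_append]; rfl

theorem run_cons (q : Q) (b : ℕ) (w : List ℕ) : R.run q (b :: w) = R.run (R.δ q b) w := rfl

theorem hitAt_nil (q : Q) (i : ℕ) : ¬ R.HitAt q [] i := by
  cases i <;> exact fun h => h

theorem hitAt_lt : ∀ {q : Q} {w : List ℕ} {i : ℕ}, R.HitAt q w i → i < w.length
  | _, [], _, h => absurd h (R.hitAt_nil _ _)
  | _, _ :: _, 0, _ => Nat.succ_pos _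
  | _, _ :: w, _ + 1, h => Nat.succ_lt_succ (hitAt_lt (w := w) h)

theorem hitAt_append : ∀ (q : Q) (u v : List ℕ) (i : ℕ),
    R.HitAt q (u ++ v) i ↔
      R.HitAt q u i ∨ (u.length ≤ i ∧ R.HitAt (R.run q u) v (i - u.length))
  | q, [], v, i => by
    simp [run_nil, R.hitAt_nil]
  | q, b :: u, v, 0 => by
    simp [HitAt]
  | q, b :: u, v, i + 1 => by
    have := hitAt_append (R.δ q b) u v i
    simp only [List.cons_append, HitAt, List.length_cons, Nat.add_le_add_iff_right,
      Nat.reduceSubDiff, run_cons]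
    simpa using this

theorem pr_append (q : Q) (u v : List ℕ) :
    R.Pr q (u ++ v) ↔ R.Pr q u ∨ R.Pr (R.run q u) v := by
  constructor
  · rintro ⟨i, hi⟩
    rcases (R.hitAt_append q u v i).1 hi with h | ⟨-, h⟩
    · exact Or.inl ⟨i, h⟩
    · exact Or.inr ⟨_, h⟩
  · rintro (⟨i, hi⟩ | ⟨i, hi⟩)
    · exact ⟨i, (R.hitAt_append q u v i).2 (Or.inl hi)⟩
    · refine ⟨u.length + i, (R.hitAt_append q u v _).2 (Or.inr ⟨by omega, ?_⟩)⟩
      simpa using hi

theorem not_pr_nil (q : Q) : ¬ R.Pr q [] := by
  rintro ⟨i, hi⟩; exact R.hitAt_nil _ _ hi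

open Classical in
/-- First hit (junk value `0` if there is none). -/
noncomputable def fh (q : Q) (w : List ℕ) : ℕ := sInf {i | R.HitAt q w i}

open Classical in
/-- Last hit (junk value `0` if there is none). -/
noncomputable def lh (q : Q) (w : List ℕ) : ℕ := sSup {i | R.HitAt q w i}

theorem fh_spec {q : Q} {w : List ℕ} (h : R.Pr q w) : R.HitAt q w (R.fh q w) :=
  Nat.sInf_mem h

theorem fh_le {q : Q} {w : List ℕ} {i : ℕ} (h : R.HitAt q w i) : R.fh q w ≤ i :=
  Nat.sInf_le h

theorem bdd (q : Q) (w : List ℕ) : BddAbove {i | R.HitAt q w i} :=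
  ⟨w.length, fun _ hi => (R.hitAt_lt hi).le⟩

theorem lh_spec {q : Q} {w : List ℕ} (h : R.Pr q w) : R.HitAt q w (R.lh q w) :=
  Nat.sSup_mem h (R.bdd q w)

theorem le_lh {q : Q} {w : List ℕ} {i : ℕ} (h : R.HitAt q w i) : i ≤ R.lh q w :=
  le_csSup (R.bdd q w) h

theorem fh_eq {q : Q} {w : List ℕ} {i : ℕ} (h : R.HitAt q w i)
    (h' : ∀ j, R.HitAt q w j → i ≤ j) : R.fh q w = i :=
  le_antisymm (R.fh_le h) (h' _ (R.fh_spec ⟨i, h⟩))

theorem lh_eq {q : Q} {w : List ℕ} {i : ℕ} (h : R.HitAt q w i)
    (h' : ∀ j, R.HitAt q w j → j ≤ i) : R.lh q w = i :=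
  le_antisymm (h' _ (R.lh_spec ⟨i, h⟩)) (R.le_lh h)

theorem fh_append_left {q : Q} {u : List ℕ} (v : List ℕ) (h : R.Pr q u) :
    R.fh q (u ++ v) = R.fh q u := by
  refine R.fh_eq ((R.hitAt_append _ _ _ _).2 (Or.inl (R.fh_spec h))) ?_
  intro j hj
  rcases (R.hitAt_append _ _ _ _).1 hj with h1 | ⟨h1, -⟩
  · exact R.fh_le h1
  · exact (R.hitAt_lt (R.fh_spec h)).le.trans h1

theorem fh_append_right {q : Q} {u v : List ℕ} (h : ¬ R.Pr q u) (h' : R.Pr (R.run q u) v) :
    R.fh q (u ++ v) = u.length + R.fh (R.run q u) v := by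
  refine R.fh_eq ((R.hitAt_append _ _ _ _).2 (Or.inr ⟨by omega, ?_⟩)) ?_
  · simpa using R.fh_spec h'
  intro j hj
  rcases (R.hitAt_append _ _ _ _).1 hj with h1 | ⟨h1, h2⟩
  · exact absurd ⟨j, h1⟩ h
  · have := R.fh_le h2
    omega

theorem lh_append_right {q : Q} (u : List ℕ) {v : List ℕ} (h : R.Pr (R.run q u) v) :
    R.lh q (u ++ v) = u.length + R.lh (R.run q u) v := by
  refine R.lh_eq ((R.hitAt_append _ _ _ _).2 (Or.inr ⟨by omega, ?_⟩)) ?_
  · simpa using R.lh_spec h
  intro j hj
  rcases (R.hitAt_append _ _ _ _).1 hj with h1 | ⟨h1, h2⟩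
  · have := R.hitAt_lt h1
    omega
  · have := R.le_lh h2
    omega

theorem lh_append_left {q : Q} {u v : List ℕ} (h : R.Pr q u) (h' : ¬ R.Pr (R.run q u) v) :
    R.lh q (u ++ v) = R.lh q u := by
  refine R.lh_eq ((R.hitAt_append _ _ _ _).2 (Or.inl (R.lh_spec h))) ?_
  intro j hj
  rcases (R.hitAt_append _ _ _ _).1 hj with h1 | ⟨-, h2⟩
  · exact R.le_lh h1
  · exact absurd ⟨_, h2⟩ h'

theorem fh_le_lh {q : Q} {w : List ℕ} (h : R.Pr q w) : R.fh q w ≤ R.lh q w :=
  R.fh_le (R.lh_spec h)

end Reader

/-! ### Stable systems -/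

/-- The action of every block on the states, and its productivity, do not depend on the level. -/
def Stable {A Q : Type} (S : ASys A) (R : Reader Q) : Prop :=
  ∀ n c q, R.run q (S.W n [c]) = R.run q (S.W 0 [c]) ∧
    (R.Pr q (S.W n [c]) ↔ R.Pr q (S.W 0 [c]))

section stable

variable {A Q : Type} {S : ASys A} {R : Reader Q}

theorem Stable.pow (h : Stable S R) (p : ℕ) : Stable (S.pow p) R := by
  intro n c q
  rw [pow_W, pow_W, Nat.mul_zero]
  exact h _ c q

theorem Stable.shift (h : Stable S R) (r : ℕ) : Stable (S.shift r) R := by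
  intro n c q
  rw [shift_W, shift_W, Nat.add_zero]
  exact ⟨(h _ c q).1.trans (h _ c q).1.symm, (h _ c q).2.trans (h _ c q).2.symm⟩

/-- The joint action of a word of length-`n`-level letters. -/
theorem Stable.run (h : Stable S R) (n : ℕ) (w : List A) (q : Q) :
    R.run q (S.W n w) = R.run q (S.W 0 w) := by
  induction w generalizing q with
  | nil => rw [W_nil, W_nil]
  | cons c w ih =>
    rw [W_cons S n c w, W_cons S 0 c w, R.run_append, R.run_append, ih, (h n c q).1]

theorem Stable.pr (h : Stable S R) (n : ℕ) (w : List A) (q : Q) :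
    R.Pr q (S.W n w) ↔ R.Pr q (S.W 0 w) := by
  induction w generalizing q with
  | nil => rw [W_nil, W_nil]
  | cons c w ih =>
    rw [W_cons S n c w, W_cons S 0 c w, R.pr_append, R.pr_append, ih, (h n c q).1, (h n c q).2]

/-- Every system becomes stable after a power, from every late level on. -/
theorem exists_stable [Finite A] [Finite Q] (S : ASys A) (R : Reader Q) :
    ∃ p i, 1 ≤ p ∧ ∀ n, i ≤ n → Stable ((S.shift n).pow p) R := by
  classical
  set V : ℕ → A → Q → Q × Prop := fun n c q => (R.run q (S.W n [c]), R.Pr q (S.W n [c])) with hV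
  -- the vector at level `n + 1` is a function of the vector at level `n`
  have hrun : ∀ n m, V n = V m → ∀ (w : List A) q, R.run q (S.W n w) = R.run q (S.W m w) ∧
      (R.Pr q (S.W n w) ↔ R.Pr q (S.W m w)) := by
    intro n m hnm w
    induction w with
    | nil => intro q; rw [W_nil, W_nil]; exact ⟨rfl, Iff.rfl⟩
    | cons c w ih =>
      intro q
      have h1 := congrFun (congrFun hnm c) q
      simp only [hV, Prod.mk.injEq] at h1
      rw [W_cons S n c w, W_cons S m c w, R.run_append, R.run_append, R.pr_append, R.pr_append,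
        h1.1, h1.2]
      exact ⟨(ih _).1, or_congr Iff.rfl (ih _).2⟩
  have hstep : ∀ n m, V n = V m → V (n + 1) = V (m + 1) := by
    intro n m hnm
    funext c q
    have h1 := hrun n m hnm (S.ap [c]) q
    simp only [hV, Prod.mk.injEq, W_succ]
    exact ⟨h1.1, propext h1.2⟩
  have hadd : ∀ n m k, V n = V m → V (n + k) = V (m + k) := by
    intro n m k hnm
    induction k with
    | zero => exact hnm
    | succ k ih => exact hstep _ _ ih
  obtain ⟨i, j, hij, hVij⟩ := Finite.exists_ne_map_eq_of_infinite V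
  wlog hlt : i < j generalizing i j
  · exact this j i hij.symm hVij.symm (lt_of_le_of_ne (not_lt.1 hlt) hij.symm)
  obtain ⟨d, rfl⟩ := Nat.exists_eq_add_of_lt hlt
  set p := d + 1 with hp
  have hper : ∀ n k, i ≤ n → V (n + p * k) = V n := by
    intro n k hn
    induction k with
    | zero => rw [Nat.mul_zero, Nat.add_zero]
    | succ k ih =>
      obtain ⟨e, rfl⟩ := Nat.exists_eq_add_of_le hn
      rw [← ih]
      have := hadd _ _ (e + p * k) hVij
      rw [← Nat.add_assoc] at this
      rw [this]
      congr 1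
      rw [hp]; ring
  refine ⟨p, i, by omega, ?_⟩
  intro n hn m c q
  have h2 := congrFun (congrFun (hper n m hn) c) q
  simp only [hV, Prod.mk.injEq] at h2
  rw [pow_W, pow_W, shift_W, shift_W, Nat.mul_zero, Nat.add_zero]
  exact ⟨h2.1, iff_of_eq h2.2⟩

end stable

/-! ### Chains of children and level sequences -/

section chain

variable {A : Type} (S : ASys A) {K : Type} (F : K → K) (wd : K → List A) (lt : K → A)

/-- Words before the `k`-th descendant of a chain. -/
def wdn : ℕ → K → List A
  | 0, _ => []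
  | k + 1, c => S.it k (wd c) ++ wdn k (F c)

theorem wdn_add (j k : ℕ) (c : K) :
    wdn S F wd (j + k) c = S.it k (wdn S F wd j c) ++ wdn S F wd k (F^[j] c) := by
  induction j generalizing c with
  | zero => rw [Nat.zero_add, wdn, it_nil]; rfl
  | succ j ih =>
    rw [Nat.add_right_comm, wdn, ih, wdn, it_append, ← it_add, Nat.add_comm k j,
      List.append_assoc]
    rfl

/-- The `k`-th word of the level sequence of the chain of `c`, started at `P`. -/
def chP (P : List A) (c : K) (k : ℕ) : List A := S.it k P ++ wdn S F wd k c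

theorem chP_zero (P : List A) (c : K) : chP S F wd P c 0 = P := by
  rw [chP, wdn, it_zero, List.append_nil]

theorem chP_add (P : List A) (c : K) (j k : ℕ) :
    chP S F wd P c (j + k) = S.it k (chP S F wd P c j) ++ wdn S F wd k (F^[j] c) := by
  rw [chP, chP, wdn_add, it_append, ← it_add, Nat.add_comm k j, List.append_assoc]

theorem prefix_it {u v : List A} (n : ℕ) (h : u <+: v) : S.it n u <+: S.it n v := by
  obtain ⟨w, rfl⟩ := h
  rw [it_append]
  exact List.prefix_append _ _

theorem it_ne_nil (hne : ∀ c, S.σ c ≠ []) (n : ℕ) {w : List A} (hw : w ≠ []) :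
    S.it n w ≠ [] := by
  induction n generalizing w with
  | zero => exact hw
  | succ n ih =>
    rw [it_succ]
    refine ih ?_
    obtain ⟨c, w, rfl⟩ := List.exists_cons_of_ne_nil hw
    intro h
    rw [show c :: w = [c] ++ w from rfl, ap_append, ap_singleton] at h
    exact hne c (List.append_eq_nil_iff.1 h).1

variable {S F wd lt} {good : K → Prop} (hgood : ∀ c, good c → good (F c))
  (hpre : ∀ c, good c → (wd c ++ [lt (F c)]) <+: S.σ (lt c))

include hgood in
theorem good_iterate (n : ℕ) {c : K} (hc : good c) : good (F^[n] c) := by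
  induction n generalizing c with
  | zero => exact hc
  | succ n ih => exact ih (hgood c hc)

include hgood hpre in
theorem wdn_prefix (k : ℕ) {c : K} (hc : good c) :
    (wdn S F wd k c ++ [lt (F^[k] c)]) <+: S.it k [lt c] := by
  induction k generalizing c with
  | zero => exact List.prefix_refl _
  | succ k ih =>
    rw [it_succ, ap_singleton]
    refine List.IsPrefix.trans ?_ (prefix_it S k (hpre c hc))
    rw [it_append, wdn, List.append_assoc]
    exact (List.prefix_append_right_inj _).2 (ih (hgood c hc))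

include hgood hpre in
theorem chP_prefix {P : List A} {c : K} (hc : good c)
    (hP : ∃ m, (P ++ [lt c]) <+: S.it m [S.a]) (k : ℕ) :
    ∃ m, (chP S F wd P c k ++ [lt (F^[k] c)]) <+: S.it m [S.a] := by
  obtain ⟨m, hm⟩ := hP
  refine ⟨k + m, ?_⟩
  rw [it_add]
  refine List.IsPrefix.trans ?_ (prefix_it S k hm)
  rw [it_append, chP, List.append_assoc]
  exact (List.prefix_append_right_inj _).2 (wdn_prefix hgood hpre k hc)

theorem chP_ne_nil (hne : ∀ c, S.σ c ≠ []) {P : List A} (hP : P ≠ []) (c : K) (k : ℕ) :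
    chP S F wd P c k ≠ [] := by
  rw [chP]
  intro h
  exact it_ne_nil S hne k hP (List.append_eq_nil_iff.1 h).1

/-- Maps of a finite type into itself: uniform eventual periodicity of the iterates. -/
theorem exists_iterate_period (K : Type) [Finite K] :
    ∃ p n0, 1 ≤ p ∧ ∀ F : K → K, ∀ n, n0 ≤ n → ∀ t, F^[n + p * t] = F^[n] := by
  obtain ⟨i, j, hij, hF⟩ :=
    Finite.exists_ne_map_eq_of_infinite (fun (n : ℕ) (F : K → K) => F^[n])
  wlog hlt : i < j generalizing i j
  · exact this j i hij.symm hF.symm (lt_of_le_of_ne (not_lt.1 hlt) hij.symm)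
  obtain ⟨d, rfl⟩ := Nat.exists_eq_add_of_lt hlt
  refine ⟨d + 1, i, by omega, ?_⟩
  intro F n hn t
  have hF' : F^[i] = F^[i + d + 1] := congrFun hF F
  obtain ⟨e, rfl⟩ := Nat.exists_eq_add_of_le hn
  induction t with
  | zero => rw [Nat.mul_zero, Nat.add_zero]
  | succ t ih =>
    have h1 : i + e + (d + 1) * (t + 1) = (e + (d + 1) * t) + (i + d + 1) := by ring
    have h2 : i + e + (d + 1) * t = (e + (d + 1) * t) + i := by ring
    rw [h1, Function.iterate_add, ← hF', ← Function.iterate_add, ← h2, ih]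

include hgood hpre in
/-- The lengths along a chain form regular sequences on residue classes. -/
theorem chain_regM (hne : ∀ c, S.σ c ≠ []) {p n0 : ℕ} (hp : 1 ≤ p)
    (hper : ∀ n, n0 ≤ n → ∀ t, F^[n + p * t] = F^[n]) (P : List A) (c : K) (g : K → ℕ)
    (hc : good c) (hP : P ≠ []) (hm : ∃ m, (P ++ [lt c]) <+: S.it m [S.a]) (n : ℕ)
    (hn : n0 ≤ n) :
    S.RegM p (fun t => S.len 0 (chP S F wd P c (n + p * t)) + g (F^[n + p * t] c)) := by
  refine ⟨chP S F wd P c n, [lt (F^[n] c)], wdn S F wd p (F^[n] c), (g (F^[n] c) : ℤ),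
    ⟨hp, chP_ne_nil hne hP c n, by simp, chP_prefix hgood hpre hc hm n, ?_⟩, ?_⟩
  · have h1 := wdn_prefix hgood hpre p (good_iterate hgood n hc)
    rw [← Function.iterate_add_apply] at h1
    have h2 := congrFun (hper n hn 1) c
    rw [Nat.mul_one, Nat.add_comm] at h2
    rw [h2] at h1
    exact h1
  · intro t
    have h1 : ∀ t, S.lev p (wdn S F wd p (F^[n] c)) t (chP S F wd P c n) =
        chP S F wd P c (n + p * t) := by
      intro t
      induction t with
      | zero => rfl
      | succ t ih =>
        rw [ASys.lev, Function.iterate_succ_apply']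
        rw [ASys.lev] at ih
        rw [ih, Nat.mul_succ, ← Nat.add_assoc, chP_add S F wd P c (n + p * t) p, hper n hn t]
    have h2 : g (F^[n + p * t] c) = g (F^[n] c) := by rw [hper n hn t]
    rw [h1]
    show ((S.len 0 (chP S F wd P c (n + p * t)) + g (F^[n + p * t] c) : ℕ) : ℤ) = _
    rw [h2, Nat.cast_add]
    rfl

/-- The value along a chain. -/
theorem chain_val {val : ℕ → K → ℕ}
    (hval : ∀ n c, good c → val (n + 1) c = S.len n (wd c) + val n (F c))
    (hgood : ∀ c, good c → good (F c)) (n : ℕ) (P : List A) {c : K} (hc : good c) :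
    S.len n P + val n c = S.len 0 (chP S F wd P c n) + val 0 (F^[n] c) := by
  induction n generalizing P c with
  | zero => rw [chP_zero]; rfl
  | succ n ih =>
    have h1 : chP S F wd P c (n + 1) = chP S F wd (S.ap P ++ wd c) (F c) n := by
      rw [chP, chP, wdn, it_append, ← it_succ, List.append_assoc]
    rw [h1, Function.iterate_succ_apply, ← ih (S.ap P ++ wd c) (hgood c hc), hval n c hc,
      len_succ, len_append]
    ring

end chain

end Aut

end SUBST
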