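import Pool.Agent.Work.SUBST.Abs

/-!
# Isolated breaks of a period: infinitely many

`brk x q` is the set of the breaks of the period `q` of the sequence `x`, `Kset x q ε` the set of
the breaks `t` without a break in `[(1 - ε) t, t)`.
-/

set_option autoImplicit false

namespace SUBST

/-- the breaks of the period `q` -/
def brk (x : ℕ → ℕ) (q : ℕ) : Set ℕ := {t | q ≤ t ∧ x t ≠ x (t - q)}

/-- the breaks `t` without a break in `[(1 - ε) t, t)` -/
def Kset (x : ℕ → ℕ) (q : ℕ) (ε : ℝ) : Set ℕ :=
  {t | t ∈ brk x q ∧ ∀ t' ∈ brk x q, (1 - ε) * t ≤ t' → ¬ t' < t}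

theorem brk_infinite {x : ℕ → ℕ} {q : ℕ} (hq : 1 ≤ q) (hx : ¬ UPw x) : (brk x q).Infinite := by
  intro hf
  obtain ⟨N, hN⟩ := hf.bddAbove
  refine hx ⟨N + 1, q, hq, fun k hk => ?_⟩
  by_contra hne
  have : k + q ∈ brk x q := ⟨by omega, by rw [Nat.add_sub_cancel]; exact hne⟩
  have := hN this
  omega

/-- late long windows without a break give infinitely many isolated breaks -/
theorem Kset_infinite {x : ℕ → ℕ} {q : ℕ} {ε δ : ℝ} (hb : (brk x q).Infinite) (h : ε < δ)
    (hw : ∀ N : ℕ, ∃ a b : ℕ, N ≤ b ∧ δ * b ≤ (b : ℝ) - a ∧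
      ∀ t, a + q ≤ t → t < b → x t = x (t - q)) (hε : ε < 1) : (Kset x q ε).Infinite := by
  rw [Set.infinite_iff_exists_gt]
  intro N
  obtain ⟨n1, hn1⟩ := exists_nat_gt ((q : ℝ) / (δ - ε))
  obtain ⟨a, b, h1, h2, h3⟩ := hw (max (N + 1) n1)
  have hN : N + 1 ≤ b := (le_max_left _ _).trans h1
  have hb1 : (n1 : ℝ) ≤ b := by exact_mod_cast (le_max_right _ _).trans h1
  have hqb : (q : ℝ) < (δ - ε) * b := by
    rw [div_lt_iff₀ (by linarith)] at hn1
    nlinarith
  obtain ⟨t0, ht0, hta⟩ := hb.exists_gt (a + q)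
  classical
  have hex : ∃ t, t ∈ brk x q ∧ a + q ≤ t := ⟨t0, ht0, hta.le⟩
  obtain ⟨ht, hat⟩ := Nat.find_spec hex
  set t := Nat.find hex with hdef
  have hbt : b ≤ t := by
    by_contra hlt
    push Not at hlt
    exact ht.2 (h3 t hat hlt)
  refine ⟨t, ⟨ht, fun t' ht' hle hlt => ?_⟩, by omega⟩
  have hbt' : (b : ℝ) ≤ t := by exact_mod_cast hbt
  have h4 : (a : ℝ) + q ≤ t' := by nlinarith
  have h5 : a + q ≤ t' := by exact_mod_cast h4
  exact Nat.find_min hex hlt ⟨ht', h5⟩

namespace KE

variable {A : Type} {S : ASys A}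

theorem ap_append (u v : List A) : S.ap (u ++ v) = S.ap u ++ S.ap v := by
  unfold ASys.ap
  exact List.flatMap_append

theorem it_succ (n : ℕ) (w : List A) : S.it (n + 1) w = S.it n (S.ap w) := rfl

theorem it_succ' (n : ℕ) (w : List A) : S.it (n + 1) w = S.ap (S.it n w) :=
  Function.iterate_succ_apply' _ _ _

theorem it_append (n : ℕ) (u v : List A) : S.it n (u ++ v) = S.it n u ++ S.it n v := by
  induction n with
  | zero => rfl
  | succ n ih => rw [it_succ', it_succ', it_succ', ih, ap_append]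

theorem it_add (m n : ℕ) (w : List A) : S.it (m + n) w = S.it m (S.it n w) :=
  Function.iterate_add_apply _ _ _ _

theorem W_append (n : ℕ) (u v : List A) : S.W n (u ++ v) = S.W n u ++ S.W n v := by
  unfold ASys.W
  rw [it_append, List.flatMap_append]

theorem W_it (m n : ℕ) (w : List A) : S.W m (S.it n w) = S.W (m + n) w := by
  unfold ASys.W
  rw [it_add]

theorem len_append (n : ℕ) (u v : List A) : S.len n (u ++ v) = S.len n u + S.len n v := by
  unfold ASys.len
  rw [W_append, List.length_append]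

theorem len_it (m n : ℕ) (w : List A) : S.len m (S.it n w) = S.len (m + n) w := by
  unfold ASys.len
  rw [W_it]

theorem it_ne (hS : S.Good) (n : ℕ) {w : List A} (hw : w ≠ []) : S.it n w ≠ [] := by
  induction n with
  | zero => exact hw
  | succ n ih =>
    rw [it_succ']
    obtain ⟨c, l, h⟩ := List.exists_cons_of_ne_nil ih
    rw [h]
    unfold ASys.ap
    rw [List.flatMap_cons]
    intro h0
    exact hS.ne c (List.append_eq_nil_iff.1 h0).1

theorem length_le_h (hS : S.Good) (w : List A) : w.length ≤ (w.flatMap S.h).length := by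
  induction w with
  | nil => exact Nat.zero_le _
  | cons c w ih =>
    rw [List.flatMap_cons, List.length_append, List.length_cons]
    have := List.length_pos_iff.2 (hS.hne c)
    omega

theorem start_length (hS : S.Good) (n : ℕ) : n + 1 ≤ (S.it n [S.a]).length := by
  obtain ⟨u, hu, hσ⟩ := hS.start
  induction n with
  | zero => exact le_rfl
  | succ n ih =>
    have h : S.ap [S.a] = [S.a] ++ u := by
      unfold ASys.ap
      rw [List.flatMap_singleton, hσ]
      rfl
    rw [it_succ, h, it_append, List.length_append]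
    have := List.length_pos_iff.2 (it_ne hS n hu)
    omega

theorem start_len (hS : S.Good) (n : ℕ) : n + 1 ≤ S.len n [S.a] :=
  (start_length hS n).trans (length_le_h hS _)

/-- the ratio `s (n + j) / s n` tends to `α ^ j` -/
theorem ratio_pow (hS : S.Good) {α : ℝ} {lam : A → ℝ} (hL : S.Limits α lam) (j : ℕ) :
    Filter.Tendsto (fun n => (S.len (n + j) [S.a] : ℝ) / S.len n [S.a]) Filter.atTop
      (nhds (α ^ j)) := by
  have hpos : ∀ n, (0 : ℝ) < S.len n [S.a] := fun n => by
    have := start_len hS n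
    exact_mod_cast (by omega : 0 < S.len n [S.a])
  induction j with
  | zero =>
    simp only [add_zero, pow_zero]
    refine tendsto_const_nhds.congr fun n => ?_
    rw [div_self (hpos n).ne']
  | succ j ih =>
    have h1 := (hL.2.2.2.1.comp (Filter.tendsto_add_atTop_nat j)).mul ih
    rw [pow_succ, mul_comm]
    refine h1.congr fun n => ?_
    simp only [Function.comp]
    rw [show n + (j + 1) = n + j + 1 by ring]
    have h2 := (hpos (n + j)).ne'
    have h3 := (hpos n).ne'
    field_simp

/-- a block of the word -/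
theorem word_block {x : ℕ → ℕ} (hx : S.IsWord x) {n m : ℕ} {u v : List A} {c : A}
    (h : S.it m [S.a] = u ++ c :: v) {i : ℕ} (hi : i < S.len n [c]) :
    (S.W n [c]).getD i 0 = x (S.len n u + i) := by
  have h1 : S.W (n + m) [S.a] = S.W n u ++ (S.W n [c] ++ S.W n v) := by
    rw [← W_it, h, show u ++ c :: v = u ++ ([c] ++ v) from rfl, W_append, W_append]
  have h2 := hx (n + m)
  have h3 : S.len n u + i < S.len (n + m) [S.a] := by
    unfold ASys.len at hi ⊢
    rw [h1, List.length_append, List.length_append]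
    omega
  have h4 : (S.W (n + m) [S.a])[S.len n u + i]? = some (x (S.len n u + i)) := by
    rw [h2, List.getElem?_map, List.getElem?_range h3]
    rfl
  rw [h1, List.getElem?_append_right (by unfold ASys.len; omega),
    List.getElem?_append_left (by unfold ASys.len at *; omega)] at h4
  rw [List.getD_eq_getElem?_getD, show (S.W n [c])[i]? = some (x (S.len n u + i)) by
    rw [← h4]
    congr 1
    unfold ASys.len
    omega]
  rfl

end KE

open KE

/-- **`J10 (a)`.**  A letter of maximal growth with a bounded period gives infinitely many isolated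
breaks. -/
theorem KE.Kset_infinite {A : Type} {S : ASys A} (hS : S.Good) {x : ℕ → ℕ} (hx : S.IsWord x)
    (hu : ¬ UPw x) {α : ℝ} {lam : A → ℝ} (hL : S.Limits α lam) {c : A} (hc : 0 < lam c) {q m : ℕ}
    (hq : 1 ≤ q) (hp : ∀ n, m ≤ n → ∀ i, i + q < (S.W n [c]).length →
      (S.W n [c]).getD (i + q) 0 = (S.W n [c]).getD i 0) :
    ∃ ε0 : ℝ, 0 < ε0 ∧ ∀ ε, ε < ε0 → (Kset x q ε).Infinite := by
  obtain ⟨n0, hn0⟩ := hS.reach c
  obtain ⟨u, v, huv⟩ := List.append_of_mem hn0
  have hα : (0 : ℝ) < α ^ n0 + 1 := by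
    have : (0 : ℝ) ≤ α ^ n0 := pow_nonneg (by linarith [hL.1]) _
    linarith
  set δ : ℝ := min (lam c / 2 / (α ^ n0 + 1)) 1 with hδ
  have hδ0 : 0 < δ := lt_min (by positivity) one_pos
  refine ⟨δ, hδ0, fun ε hε => ?_⟩
  refine SUBST.Kset_infinite (brk_infinite hq hu) hε (fun N => ?_) (hε.trans_le (min_le_right _ _))
  have e1 : ∀ᶠ n in Filter.atTop, lam c / 2 < (S.len n [c] : ℝ) / S.len n [S.a] :=
    (hL.2.2.2.2 c).eventually_const_lt (by linarith)
  have e2 : ∀ᶠ n in Filter.atTop, (S.len (n + n0) [S.a] : ℝ) / S.len n [S.a] < α ^ n0 + 1 :=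
    (ratio_pow hS hL n0).eventually_lt_const (by linarith)
  have e3 : ∀ᶠ n : ℕ in Filter.atTop, (N : ℝ) / (lam c / 2) ≤ n :=
    tendsto_natCast_atTop_atTop.eventually_ge_atTop _
  obtain ⟨n, h1, h2, h3, h4⟩ := (e1.and (e2.and (e3.and (Filter.eventually_ge_atTop m)))).exists
  have hs : (0 : ℝ) < S.len n [S.a] := by
    have := start_len hS n
    exact_mod_cast (by omega : 0 < S.len n [S.a])
  rw [lt_div_iff₀ hs] at h1
  rw [div_lt_iff₀ hs] at h2
  have htot : S.len n u + S.len n [c] ≤ S.len (n + n0) [S.a] := by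
    rw [← len_it, huv, show u ++ c :: v = u ++ ([c] ++ v) from rfl, len_append, len_append]
    omega
  have htot' : (S.len n u : ℝ) + S.len n [c] ≤ S.len (n + n0) [S.a] := by exact_mod_cast htot
  refine ⟨S.len n u, S.len n u + S.len n [c], ?_, ?_, ?_⟩
  · have h5 : (n : ℝ) ≤ S.len n [S.a] := by
      have := start_len hS n
      exact_mod_cast (by omega : n ≤ S.len n [S.a])
    have h6 : (N : ℝ) ≤ lam c / 2 * n := by
      rw [div_le_iff₀ (by positivity)] at h3
      linarith
    have h7 : (N : ℝ) ≤ S.len n [c] := by nlinarith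
    have h8 : N ≤ S.len n [c] := by exact_mod_cast h7
    omega
  · push_cast
    rw [add_sub_cancel_left]
    have h5 : δ * ((S.len n u : ℝ) + S.len n [c]) ≤
        lam c / 2 / (α ^ n0 + 1) * ((α ^ n0 + 1) * S.len n [S.a]) :=
      mul_le_mul (min_le_left _ _) (htot'.trans h2.le) (by positivity) (by positivity)
    have h6 : lam c / 2 / (α ^ n0 + 1) * ((α ^ n0 + 1) * S.len n [S.a]) =
        lam c / 2 * S.len n [S.a] := by
      field_simp
    rw [h6] at h5
    exact h5.trans h1.le
  · intro t ht ht'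
    obtain ⟨i, rfl⟩ : ∃ i, t = S.len n u + q + i := ⟨t - (S.len n u + q), by omega⟩
    have hi : i + q < (S.W n [c]).length := by
      change _ < S.len n [c]
      omega
    have k1 := hp n h4 i hi
    rw [word_block hx huv hi, word_block hx huv (show i < S.len n [c] by
      change i < (S.W n [c]).length
      omega)] at k1
    rw [show S.len n u + q + i = S.len n u + (i + q) by ring, k1]
    congr 1
    omega

end SUBST
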