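import Pool.Agent.Work.SUBST.Defs

/-!
# Substitutive words: the ultimately periodic certificate is recursively enumerable
-/

set_option autoImplicit false

namespace SUBST

namespace UP

/-! ### words -/

theorem app_append (σ : List (List ℕ)) (w w' : List ℕ) : app σ (w ++ w') = app σ w ++ app σ w' :=
  List.flatMap_append

theorem it_append (σ : List (List ℕ)) (n : ℕ) : ∀ w w' : List ℕ,
    it σ n (w ++ w') = it σ n w ++ it σ n w' := by
  induction n with
  | zero => intro w w'; rfl
  | succ n ih =>
    intro w w'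
    change it σ n (app σ (w ++ w')) = it σ n (app σ w) ++ it σ n (app σ w')
    rw [app_append, ih]

theorem it_nil (σ : List (List ℕ)) (n : ℕ) : it σ n [] = [] := by
  induction n with
  | zero => rfl
  | succ n ih => exact ih

theorem it_succ (σ : List (List ℕ)) (n : ℕ) (c : ℕ) : it σ (n + 1) [c] = it σ n (σ.getD c []) := by
  change it σ n (app σ [c]) = _
  unfold app
  rw [List.flatMap_singleton]

theorem cod_append (τ w w' : List ℕ) : cod τ (w ++ w') = cod τ w ++ cod τ w' := List.map_append

theorem getD_cod (τ w : List ℕ) {k : ℕ} (h : k < w.length) :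
    (cod τ w).getD k 0 = τ.getD (w.getD k 0) 0 := by
  unfold cod
  rw [List.getD_eq_getElem _ _ (by rwa [List.length_map]), List.getElem_map,
    List.getD_eq_getElem _ _ h]

/-! ### states -/

/-- number of states; also the failure state -/
def P (u v : List ℕ) : ℕ := u.length + v.length

def nx (u v : List ℕ) (q : ℕ) : ℕ := if q + 1 < P u v then q + 1 else u.length

def stp (u v : List ℕ) (q b : ℕ) : ℕ := if q < P u v ∧ upw u v q = b then nx u v q else P u v

def run (u v : List ℕ) (q : ℕ) (w : List ℕ) : ℕ := w.foldl (stp u v) q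

def can (u v : List ℕ) (k : ℕ) : ℕ :=
  if k < u.length then k else u.length + (k - u.length) % v.length

variable {u v : List ℕ}

theorem can_lt (hv : v ≠ []) (k : ℕ) : can u v k < P u v := by
  have h0 : 0 < v.length := List.length_pos_iff.2 hv
  unfold can P
  split_ifs with h
  · omega
  · have := Nat.mod_lt (k - u.length) h0
    omega

theorem upw_can (k : ℕ) : upw u v (can u v k) = upw u v k := by
  unfold upw can
  split_ifs with h1 h2
  · rfl
  · omega
  · rw [Nat.add_sub_cancel_left, Nat.mod_mod]

theorem nx_can (hv : v ≠ []) (k : ℕ) : nx u v (can u v k) = can u v (k + 1) := by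
  have h0 : 0 < v.length := List.length_pos_iff.2 hv
  unfold nx can P
  by_cases h1 : k < u.length
  · rw [if_pos h1]
    by_cases h2 : k + 1 < u.length
    · rw [if_pos (by omega), if_pos h2]
    · have h3 : k + 1 = u.length := by omega
      rw [if_pos (by omega), if_neg h2, h3]
      simp
  · rw [if_neg h1, if_neg (show ¬ k + 1 < u.length by omega)]
    have h4 : k + 1 - u.length = (k - u.length) + 1 := by omega
    rw [h4, Nat.add_mod]
    have h5 := Nat.mod_lt (k - u.length) h0
    by_cases h6 : (k - u.length) % v.length + 1 < v.length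
    · rw [if_pos (by omega)]
      rcases Nat.lt_or_ge 1 v.length with h7 | h7
      · rw [Nat.mod_eq_of_lt h7, Nat.mod_eq_of_lt h6]
        omega
      · omega
    · rw [if_neg (by omega)]
      have h8 : (k - u.length) % v.length + 1 = v.length := by omega
      rcases Nat.lt_or_ge 1 v.length with h7 | h7
      · rw [Nat.mod_eq_of_lt h7, h8, Nat.mod_self, add_zero]
      · have h9 : v.length = 1 := by omega
        rw [h9]
        simp [Nat.mod_one]

theorem can_zero : can u v 0 = 0 := by
  unfold can
  split_ifs with h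
  · rfl
  · have : u.length = 0 := by omega
    rw [this]
    simp

theorem run_append (q : ℕ) (w w' : List ℕ) : run u v q (w ++ w') = run u v (run u v q w) w' :=
  List.foldl_append

theorem run_fail (w : List ℕ) : run u v (P u v) w = P u v := by
  induction w with
  | nil => rfl
  | cons b w ih =>
    have h : stp u v (P u v) b = P u v := if_neg fun h => absurd h.1 (lt_irrefl _)
    change run u v (stp u v (P u v) b) w = _
    rw [h, ih]

theorem stp_le {q b : ℕ} : stp u v q b ≤ P u v := by
  unfold stp nx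
  split_ifs with h1 h2
  · omega
  · unfold P
    omega
  · exact le_rfl

theorem run_le {q : ℕ} (h : q ≤ P u v) (w : List ℕ) : run u v q w ≤ P u v := by
  induction w generalizing q with
  | nil => exact h
  | cons b w ih => exact ih stp_le

theorem run_can (hv : v ≠ []) (w : List ℕ) (k : ℕ) :
    run u v (can u v k) w < P u v ↔ ∀ i < w.length, w.getD i 0 = upw u v (k + i) := by
  induction w generalizing k with
  | nil =>
    constructor
    · intro _ i hi
      exact absurd hi (by simp)
    · intro _
      exact can_lt hv k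
  | cons b w ih =>
    have e : run u v (can u v k) (b :: w) = run u v (stp u v (can u v k) b) w := rfl
    rw [e]
    by_cases hb : upw u v k = b
    · have h1 : stp u v (can u v k) b = can u v (k + 1) := by
        unfold stp
        rw [if_pos ⟨can_lt hv k, by rw [upw_can]; exact hb⟩, nx_can hv]
      rw [h1, ih]
      constructor
      · intro h i hi
        rcases i with _ | i
        · exact hb.symm
        · have := h i (by simpa using hi)
          rw [show k + (i + 1) = k + 1 + i by omega]
          exact this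
      · intro h i hi
        have := h (i + 1) (by simpa using hi)
        rw [show k + (i + 1) = k + 1 + i by omega] at this
        exact this
    · have h1 : stp u v (can u v k) b = P u v := by
        unfold stp
        rw [if_neg fun h => hb (by rw [← upw_can]; exact h.2)]
      rw [h1, run_fail]
      constructor
      · intro h
        exact absurd h (lt_irrefl _)
      · intro h
        exact absurd (h 0 (by simp)).symm hb

/-! ### transformations -/

/-- transformation of the states by the word of level `n` of the letter `c` -/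
def F (S : Sys) (u v : List ℕ) (n c q : ℕ) : ℕ := run u v q (cod S.2.1 (it S.1 n [c]))

theorem F_le {S : Sys} {n c q : ℕ} (h : q ≤ P u v) : F S u v n c q ≤ P u v := run_le h _

theorem run_it (S : Sys) (n q : ℕ) (w : List ℕ) :
    run u v q (cod S.2.1 (it S.1 n w)) = w.foldl (fun q x => F S u v n x q) q := by
  induction w generalizing q with
  | nil =>
    rw [it_nil]
    rfl
  | cons x w ih =>
    have h : x :: w = [x] ++ w := rfl
    rw [h, it_append, cod_append, run_append, ih]
    rfl

theorem F_succ (S : Sys) (n c q : ℕ) :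
    F S u v (n + 1) c q = (S.1.getD c []).foldl (fun q x => F S u v n x q) q := by
  unfold F
  rw [it_succ]
  exact run_it S n q _

/-- equality of the transformations of two levels -/
def E (S : Sys) (u v : List ℕ) (L n m : ℕ) : Prop :=
  ∀ c < L, ∀ q < P u v + 1, F S u v n c q = F S u v m c q

theorem E_succ {S : Sys} {L n m : ℕ} (hL : ∀ l ∈ S.1, ∀ x ∈ l, x < L) (h : E S u v L n m) :
    E S u v L (n + 1) (m + 1) := by
  intro c _ q hq
  rw [F_succ, F_succ]
  have hl : ∀ x ∈ S.1.getD c [], x < L := by
    intro x hx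
    by_cases hc : c < S.1.length
    · rw [List.getD_eq_getElem _ _ hc] at hx
      exact hL _ (List.getElem_mem hc) x hx
    · rw [List.getD_eq_default _ _ (by omega)] at hx
      exact absurd hx (by simp)
  generalize S.1.getD c [] = w at hl
  induction w generalizing q with
  | nil => rfl
  | cons x w ih =>
    rw [List.foldl_cons, List.foldl_cons, h x (hl x List.mem_cons_self) q hq]
    exact ih _ (Nat.lt_succ_of_le (F_le (by omega))) fun y hy => hl y (List.mem_cons_of_mem _ hy)

theorem E_add {S : Sys} {L n m : ℕ} (hL : ∀ l ∈ S.1, ∀ x ∈ l, x < L) (h : E S u v L n m) (k : ℕ) :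
    E S u v L (n + k) (m + k) := by
  induction k with
  | zero => exact h
  | succ k ih => exact E_succ hL ih

theorem E_period {S : Sys} {L n1 n2 : ℕ} (hL : ∀ l ∈ S.1, ∀ x ∈ l, x < L) (h : E S u v L n1 n2)
    (h12 : n1 < n2) (n : ℕ) : ∃ n' < n2, E S u v L n n' := by
  induction n using Nat.strong_induction_on with
  | _ n ih =>
    rcases Nat.lt_or_ge n n2 with h1 | h1
    · exact ⟨n, h1, fun _ _ _ _ => rfl⟩
    · obtain ⟨k, rfl⟩ := Nat.exists_eq_add_of_le h1
      obtain ⟨n', a1, a2⟩ := ih (n1 + k) (by omega)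
      exact ⟨n', a1, fun c hc q hq => ((E_add hL h k) c hc q hq).symm.trans (a2 c hc q hq)⟩

theorem isUp_iff (hv : v ≠ []) (S : Sys) : IsUp S u v ↔ ∀ n, F S u v n S.2.2 0 < P u v := by
  unfold IsUp
  refine forall_congr' fun n => ?_
  have h := run_can (u := u) hv (cod S.2.1 (it S.1 n [S.2.2])) 0
  rw [can_zero] at h
  unfold F
  rw [h]
  have e : (cod S.2.1 (it S.1 n [S.2.2])).length = (it S.1 n [S.2.2]).length :=
    List.length_map _
  rw [e]
  constructor
  · intro h i hi
    rw [getD_cod _ _ hi, zero_add]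
    exact h i hi
  · intro h i hi
    have := h i hi
    rwa [getD_cod _ _ hi, zero_add] at this

/-- the table of a level -/
def Tab (S : Sys) (u v : List ℕ) (L n : ℕ) : List (List ℕ) :=
  (List.range L).map fun c => (List.range (P u v + 1)).map fun q => F S u v n c q

theorem E_of_Tab {S : Sys} {L n m : ℕ} (h : Tab S u v L n = Tab S u v L m) : E S u v L n m := by
  intro c hc q hq
  unfold Tab at h
  have h1 := List.map_inj_left.1 h c (List.mem_range.2 hc)
  exact List.map_inj_left.1 h1 q (List.mem_range.2 hq)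

theorem Tab_of_E {S : Sys} {L n m : ℕ} (h : E S u v L n m) : Tab S u v L n = Tab S u v L m := by
  unfold Tab
  refine List.map_congr_left fun c hc => List.map_congr_left fun q hq => ?_
  exact h c (List.mem_range.1 hc) q (List.mem_range.1 hq)

/-- the checks -/
def Chk (S : Sys) (u v : List ℕ) (L n1 n2 : ℕ) : Prop :=
  n1 < n2 ∧ (∀ l ∈ S.1, ∀ x ∈ l, x < L) ∧ S.2.2 < L ∧ Tab S u v L n1 = Tab S u v L n2 ∧
    ∀ n < n2, F S u v n S.2.2 0 < P u v

theorem exists_bound (S : Sys) : ∃ L, (∀ l ∈ S.1, ∀ x ∈ l, x < L) ∧ S.2.2 < L := by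
  refine ⟨S.1.flatten.sum + S.2.2 + 1, fun l hl x hx => ?_, by omega⟩
  have h1 : x ≤ S.1.flatten.sum := List.le_sum_of_mem (List.mem_flatten.2 ⟨l, hl, hx⟩)
  omega

theorem isUp_iff_chk (hv : v ≠ []) (S : Sys) : IsUp S u v ↔ ∃ L n1 n2, Chk S u v L n1 n2 := by
  rw [isUp_iff hv]
  constructor
  · intro h
    obtain ⟨L, hL, ha⟩ := exists_bound S
    let g : ℕ → (Fin L → Fin (P u v + 1) → Fin (P u v + 1)) := fun n c q =>
      ⟨F S u v n c q, Nat.lt_succ_of_le (F_le (Nat.le_of_lt_succ q.2))⟩
    obtain ⟨n, m, hne, hg⟩ := Finite.exists_ne_map_eq_of_infinite g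
    have hE : E S u v L n m := by
      intro c hc q hq
      have := congrFun (congrFun hg ⟨c, hc⟩) ⟨q, hq⟩
      exact congrArg Fin.val this
    rcases lt_or_gt_of_ne hne with h1 | h1
    · exact ⟨L, n, m, h1, hL, ha, Tab_of_E hE, fun k _ => h k⟩
    · exact ⟨L, m, n, h1, hL, ha, (Tab_of_E hE).symm, fun k _ => h k⟩
  · rintro ⟨L, n1, n2, h12, hL, ha, hT, hF⟩ n
    obtain ⟨n', a1, a2⟩ := E_period hL (E_of_Tab hT) h12 n
    rw [a2 _ ha 0 (by omega)]
    exact hF n' a1

theorem upcert_iff (S T : Sys) : UPCert S T ↔ ∃ c : (List ℕ × List ℕ) × (ℕ × ℕ × ℕ) × (ℕ × ℕ × ℕ),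
    c.1.2 ≠ [] ∧ Chk S c.1.1 c.1.2 c.2.1.1 c.2.1.2.1 c.2.1.2.2 ∧
      Chk T c.1.1 c.1.2 c.2.2.1 c.2.2.2.1 c.2.2.2.2 := by
  unfold UPCert
  constructor
  · rintro ⟨u, v, hv, h1, h2⟩
    obtain ⟨L, n1, n2, a⟩ := (isUp_iff_chk hv S).1 h1
    obtain ⟨L', n1', n2', a'⟩ := (isUp_iff_chk hv T).1 h2
    exact ⟨((u, v), (L, n1, n2), (L', n1', n2')), hv, a, a'⟩
  · rintro ⟨⟨⟨u, v⟩, ⟨L, n1, n2⟩, ⟨L', n1', n2'⟩⟩, hv, a, a'⟩
    exact ⟨u, v, hv, (isUp_iff_chk hv S).2 ⟨L, n1, n2, a⟩, (isUp_iff_chk hv T).2 ⟨L', n1', n2', a'⟩⟩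

/-! ### computability -/

open Primrec

theorem primrec_app : Primrec₂ app :=
  Primrec.list_flatMap snd ((Primrec.list_getD ([] : List ℕ)).comp (fst.comp fst) snd).to₂

theorem primrec_it {α : Type*} [Primcodable α] {f : α → List (List ℕ)} {g : α → ℕ}
    {h : α → List ℕ} (hf : Primrec f) (hg : Primrec g) (hh : Primrec h) :
    Primrec fun a => it (f a) (g a) (h a) :=
  Primrec.nat_iterate hg hh (primrec_app.comp (hf.comp fst) snd).to₂

theorem primrec_cod {α : Type*} [Primcodable α] {f g : α → List ℕ} (hf : Primrec f)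
    (hg : Primrec g) : Primrec fun a => cod (f a) (g a) :=
  Primrec.list_map hg ((Primrec.list_getD 0).comp (hf.comp fst) snd).to₂

theorem primrec_P {α : Type*} [Primcodable α] {u v : α → List ℕ} (hu : Primrec u)
    (hv : Primrec v) : Primrec fun a => P (u a) (v a) :=
  Primrec.nat_add.comp (Primrec.list_length.comp hu) (Primrec.list_length.comp hv)

theorem primrec_upw {α : Type*} [Primcodable α] {u v : α → List ℕ} {k : α → ℕ} (hu : Primrec u)
    (hv : Primrec v) (hk : Primrec k) : Primrec fun a => upw (u a) (v a) (k a) := by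
  unfold upw
  refine Primrec.ite (Primrec.nat_lt.comp hk (Primrec.list_length.comp hu))
    ((Primrec.list_getD 0).comp hu hk) ((Primrec.list_getD 0).comp hv ?_)
  exact Primrec.nat_mod.comp (Primrec.nat_sub.comp hk (Primrec.list_length.comp hu))
    (Primrec.list_length.comp hv)

theorem primrec_stp {α : Type*} [Primcodable α] {u v : α → List ℕ} {q b : α → ℕ} (hu : Primrec u)
    (hv : Primrec v) (hq : Primrec q) (hb : Primrec b) :
    Primrec fun a => stp (u a) (v a) (q a) (b a) := by
  unfold stp nx
  refine Primrec.ite (PrimrecPred.and (Primrec.nat_lt.comp hq (primrec_P hu hv))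
    (Primrec.eq.comp (primrec_upw hu hv hq) hb)) (Primrec.ite ?_ ?_ ?_) (primrec_P hu hv)
  · exact Primrec.nat_lt.comp (Primrec.succ.comp hq) (primrec_P hu hv)
  · exact Primrec.succ.comp hq
  · exact Primrec.list_length.comp hu

theorem primrec_run {α : Type*} [Primcodable α] {u v w : α → List ℕ} {q : α → ℕ}
    (hu : Primrec u) (hv : Primrec v) (hw : Primrec w) (hq : Primrec q) :
    Primrec fun a => run (u a) (v a) (q a) (w a) := by
  unfold run
  exact Primrec.list_foldl hw hq (primrec_stp (hu.comp fst) (hv.comp fst)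
    (fst.comp snd) (snd.comp snd)).to₂

theorem primrec_F {α : Type*} [Primcodable α] {S : α → Sys} {u v : α → List ℕ} {n c q : α → ℕ}
    (hS : Primrec S) (hu : Primrec u) (hv : Primrec v) (hn : Primrec n) (hc : Primrec c)
    (hq : Primrec q) : Primrec fun a => F (S a) (u a) (v a) (n a) (c a) (q a) := by
  unfold F
  refine primrec_run hu hv (primrec_cod (fst.comp (snd.comp hS)) (primrec_it (fst.comp hS) hn
    ?_)) hq
  exact Primrec.list_cons.comp hc (Primrec.const [])

theorem primrec_Tab {α : Type*} [Primcodable α] {S : α → Sys} {u v : α → List ℕ} {L n : α → ℕ}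
    (hS : Primrec S) (hu : Primrec u) (hv : Primrec v) (hL : Primrec L) (hn : Primrec n) :
    Primrec fun a => Tab (S a) (u a) (v a) (L a) (n a) := by
  unfold Tab
  have h : Primrec₂ fun (a : α) (c : ℕ) =>
      (List.range (P (u a) (v a) + 1)).map fun q => F (S a) (u a) (v a) (n a) c q := by
    have h1 : Primrec fun b : α × ℕ => List.range (P (u b.1) (v b.1) + 1) :=
      Primrec.list_range.comp (Primrec.succ.comp (primrec_P (hu.comp fst) (hv.comp fst)))
    exact (Primrec.list_map h1 (primrec_F (hS.comp (fst.comp fst)) (hu.comp (fst.comp fst))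
      (hv.comp (fst.comp fst)) (hn.comp (fst.comp fst)) (snd.comp fst) snd).to₂).to₂
  exact Primrec.list_map (Primrec.list_range.comp hL) h

theorem primrecPred_Chk {α : Type*} [Primcodable α] {S : α → Sys} {u v : α → List ℕ}
    {L n1 n2 : α → ℕ} (hS : Primrec S) (hu : Primrec u) (hv : Primrec v) (hL : Primrec L)
    (h1 : Primrec n1) (h2 : Primrec n2) :
    PrimrecPred fun a => Chk (S a) (u a) (v a) (L a) (n1 a) (n2 a) := by
  unfold Chk
  refine PrimrecPred.and (Primrec.nat_lt.comp h1 h2) (PrimrecPred.and ?_ (PrimrecPred.and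
    (Primrec.nat_lt.comp (snd.comp (snd.comp hS)) hL) (PrimrecPred.and
    (Primrec.eq.comp (primrec_Tab hS hu hv hL h1) (primrec_Tab hS hu hv hL h2)) ?_)))
  · have r : PrimrecRel fun (l : List ℕ) (b : ℕ) => ∀ x ∈ l, x < b :=
      PrimrecRel.forall_mem_list Primrec.nat_lt
    have r2 : PrimrecRel fun (s : List (List ℕ)) (b : ℕ) => ∀ l ∈ s, ∀ x ∈ l, x < b :=
      PrimrecRel.forall_mem_list r
    exact r2.comp (fst.comp hS) hL
  · have r : PrimrecRel fun (n : ℕ) (a : α) => F (S a) (u a) (v a) n (S a).2.2 0 < P (u a) (v a) :=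
      Primrec.nat_lt.comp (primrec_F (hS.comp snd) (hu.comp snd) (hv.comp snd) fst
        (snd.comp (snd.comp (hS.comp snd))) (Primrec.const 0)) (primrec_P (hu.comp snd)
        (hv.comp snd))
    have r2 : PrimrecRel fun (l : List ℕ) (a : α) => ∀ n ∈ l,
        F (S a) (u a) (v a) n (S a).2.2 0 < P (u a) (v a) := PrimrecRel.forall_mem_list r
    refine (r2.comp (Primrec.list_range.comp h2) Primrec.id).of_eq fun a => ?_
    simp only [List.mem_range, id_eq]

/-- search for a certificate -/
theorem re_exists {α γ : Type*} [Primcodable α] [Primcodable γ] {R : α → γ → Prop}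
    (hR : PrimrecRel R) : REPred fun a => ∃ c, R a c := by
  classical
  have h1 : Primrec₂ fun (a : α) (n : ℕ) =>
      ((Encodable.decode (α := γ) n).map fun c => decide (R a c)).getD false := by
    refine (Primrec.option_getD.comp (Primrec.option_map (Primrec.decode.comp snd)
      (hR.decide.comp (fst.comp fst) snd).to₂) (Primrec.const false)).to₂
  have h2 : Partrec fun a : α => Nat.rfind fun n => Part.some
      (((Encodable.decode (α := γ) n).map fun c => decide (R a c)).getD false) :=
    Partrec.rfind (Primrec₂.to_comp h1).partrec₂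
  refine (Partrec.dom_re h2).of_eq fun a => Nat.rfind_dom.trans ?_
  constructor
  · rintro ⟨n, hn, -⟩
    rw [Part.mem_some_iff] at hn
    rcases hd : (Encodable.decode (α := γ) n) with _ | c
    · rw [hd] at hn
      exact absurd hn (by simp)
    · rw [hd] at hn
      exact ⟨c, by simpa using hn.symm⟩
  · rintro ⟨c, hc⟩
    refine ⟨Encodable.encode c, ?_, fun _ => trivial⟩
    rw [Part.mem_some_iff, Encodable.encodek]
    simpa using hc

end UP

theorem re_upcert : REPred (fun p : SUBST.Sys × SUBST.Sys => SUBST.UPCert p.1 p.2) := by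
  refine REPred.of_eq (p := fun p : Sys × Sys =>
    ∃ c : (List ℕ × List ℕ) × (ℕ × ℕ × ℕ) × (ℕ × ℕ × ℕ),
    c.1.2 ≠ [] ∧ UP.Chk p.1 c.1.1 c.1.2 c.2.1.1 c.2.1.2.1 c.2.1.2.2 ∧
      UP.Chk p.2 c.1.1 c.1.2 c.2.2.1 c.2.2.2.1 c.2.2.2.2) (UP.re_exists ?_)
    fun p => (UP.upcert_iff p.1 p.2).symm
  open Primrec in
  refine PrimrecPred.and (PrimrecPred.not (Primrec.eq.comp (snd.comp (fst.comp snd))
    (Primrec.const []))) (PrimrecPred.and
    (UP.primrecPred_Chk (fst.comp fst) (fst.comp (fst.comp snd)) (snd.comp (fst.comp snd))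
      (fst.comp (fst.comp (snd.comp snd))) (fst.comp (snd.comp (fst.comp (snd.comp snd))))
      (snd.comp (snd.comp (fst.comp (snd.comp snd)))))
    (UP.primrecPred_Chk (snd.comp fst) (fst.comp (fst.comp snd)) (snd.comp (fst.comp snd))
      (fst.comp (snd.comp (snd.comp snd))) (fst.comp (snd.comp (snd.comp (snd.comp snd))))
      (snd.comp (snd.comp (snd.comp (snd.comp snd))))))

theorem eqW_of_upcert {S T : Sys} (h : UPCert S T) : EqW S T := by
  obtain ⟨u, v, -, h1, h2⟩ := h
  intro n m k hk hk'
  rw [h1 n k hk, h2 m k hk']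

end SUBST
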