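import Pool.Agent.Work.SUBST.UP

/-!
# Substitutive words: the failure of the promise is recursively enumerable
-/

set_option autoImplicit false

namespace SUBST

namespace UP

theorem it_succ' (σ : List (List ℕ)) (n : ℕ) (w : List ℕ) : it σ (n + 1) w = app σ (it σ n w) :=
  Function.iterate_succ_apply' _ _ _

theorem prol_iff (l : List ℕ) (a : ℕ) : (∃ u : List ℕ, u ≠ [] ∧ l = a :: u) ↔
    l.head? = some a ∧ 1 < l.length := by
  rcases l with _ | ⟨b, l⟩
  · simp
  · simp only [List.cons.injEq, List.head?_cons, Option.some.injEq, List.length_cons]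
    constructor
    · rintro ⟨u, hu, rfl, rfl⟩
      exact ⟨rfl, by have := List.length_pos_iff.2 hu; omega⟩
    · rintro ⟨rfl, h⟩
      exact ⟨l, List.length_pos_iff.1 (by omega), rfl, rfl⟩

/-- the checks -/
def NV (S : Sys) (n : ℕ) : Prop :=
  ¬ S.2.2 < S.1.length ∨ (¬ ∀ l ∈ S.1, ∀ x ∈ l, x < S.1.length) ∨
    (¬ ((S.1.getD S.2.2 []).head? = some S.2.2 ∧ 1 < (S.1.getD S.2.2 []).length)) ∨
      it S.1 (n + 1) [S.2.2] = it S.1 n [S.2.2]

theorem not_valid_iff (S : Sys) : ¬ Valid S ↔ ∃ n, NV S n := by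
  constructor
  · intro h
    by_cases h1 : S.2.2 < S.1.length
    swap
    · exact ⟨0, Or.inl h1⟩
    by_cases h2 : ∀ l ∈ S.1, ∀ x ∈ l, x < S.1.length
    swap
    · exact ⟨0, Or.inr (Or.inl h2)⟩
    by_cases h3 : ∃ u : List ℕ, u ≠ [] ∧ S.1.getD S.2.2 [] = S.2.2 :: u
    swap
    · refine ⟨0, Or.inr (Or.inr (Or.inl ?_))⟩
      rwa [← prol_iff]
    by_contra hc
    refine h ⟨h1, h2, h3, ?_⟩
    obtain ⟨u, hu, he⟩ := h3
    have h4 : ∀ n, it S.1 (n + 1) [S.2.2] = it S.1 n [S.2.2] ++ it S.1 n u := by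
      intro n
      rw [it_succ, he, show S.2.2 :: u = [S.2.2] ++ u from rfl, it_append]
    have h5 : ∀ n, (it S.1 n [S.2.2]).length < (it S.1 (n + 1) [S.2.2]).length := by
      intro n
      rw [h4, List.length_append]
      rcases Nat.eq_zero_or_pos (it S.1 n u).length with h6 | h6
      · exfalso
        refine hc ⟨n, Or.inr (Or.inr (Or.inr ?_))⟩
        rw [h4, List.length_eq_zero_iff.1 h6, List.append_nil]
      · omega
    have h6 : ∀ n, n < (it S.1 n [S.2.2]).length := by
      intro n
      induction n with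
      | zero => exact Nat.zero_lt_one
      | succ n ih => exact Nat.lt_of_le_of_lt ih (h5 n)
    exact fun N => ⟨N, h6 N⟩
  · rintro ⟨n, hn⟩ ⟨h1, h2, h3, h4⟩
    rw [prol_iff] at h3
    rcases hn with h | h | h | h
    · exact h h1
    · exact h h2
    · exact h h3
    · have h5 : ∀ k, it S.1 (n + k) [S.2.2] = it S.1 n [S.2.2] := by
        intro k
        induction k with
        | zero => rfl
        | succ k ih =>
          rw [← add_assoc, it_succ', ih, ← it_succ']
          exact h
      have h6 : ∀ m, (it S.1 m [S.2.2]).length ≤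
          (Finset.range (n + 1)).sup fun i => (it S.1 i [S.2.2]).length := by
        intro m
        rcases Nat.lt_or_ge m n with h7 | h7
        · exact Finset.le_sup (f := fun i => (it S.1 i [S.2.2]).length)
            (Finset.mem_range.2 (by omega))
        · obtain ⟨k, rfl⟩ := Nat.exists_eq_add_of_le h7
          rw [h5]
          exact Finset.le_sup (f := fun i => (it S.1 i [S.2.2]).length)
            (Finset.mem_range.2 (by omega))
      obtain ⟨m, hm⟩ := h4 ((Finset.range (n + 1)).sup fun i => (it S.1 i [S.2.2]).length)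
      exact absurd (h6 m) (not_le.2 hm)

open Primrec in
theorem primrecRel_NV : PrimrecRel NV := by
  have hσ : Primrec fun p : Sys × ℕ => p.1.1 := fst.comp fst
  have ha : Primrec fun p : Sys × ℕ => p.1.2.2 := snd.comp (snd.comp fst)
  have hl : Primrec fun p : Sys × ℕ => p.1.1.length := Primrec.list_length.comp hσ
  have hg : Primrec fun p : Sys × ℕ => p.1.1.getD p.1.2.2 [] :=
    (Primrec.list_getD ([] : List ℕ)).comp hσ ha
  have r : PrimrecRel fun (l : List ℕ) (b : ℕ) => ∀ x ∈ l, x < b :=
    PrimrecRel.forall_mem_list Primrec.nat_lt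
  have r2 : PrimrecRel fun (s : List (List ℕ)) (b : ℕ) => ∀ l ∈ s, ∀ x ∈ l, x < b :=
    PrimrecRel.forall_mem_list r
  have hw : Primrec fun p : Sys × ℕ => [p.1.2.2] := Primrec.list_cons.comp ha (Primrec.const [])
  refine PrimrecPred.or (Primrec.nat_lt.comp ha hl).not (PrimrecPred.or (r2.comp hσ hl).not
    (PrimrecPred.or (PrimrecPred.and ?_ ?_).not ?_))
  · exact Primrec.eq.comp (Primrec.list_head?.comp hg) (Primrec.option_some.comp ha)
  · exact Primrec.nat_lt.comp (Primrec.const 1) (Primrec.list_length.comp hg)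
  · exact Primrec.eq.comp (primrec_it hσ (Primrec.succ.comp snd) hw) (primrec_it hσ snd hw)

end UP

theorem re_not_valid : REPred (fun p : SUBST.Sys => ¬ SUBST.Valid p) :=
  (UP.re_exists UP.primrecRel_NV).of_eq fun S => (UP.not_valid_iff S).symm

end SUBST
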