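import Pool.Agent.Work.SUBST.LevRe
import Pool.Agent.Work.SUBST.UP
import Pool.Agent.Work.SUBST.Valid

/-!
# Assembly: completeness of the certificates gives decidability
-/

set_option autoImplicit false

namespace SUBST

/-- Inequality is recursively enumerable. -/
theorem sf_not_eqW : SF fun p : Sys × Sys => ¬ EqW p.1 p.2 := by
  have hp1 : Primrec fun x : (Sys × Sys) × (ℕ × ℕ × ℕ) => x.1.1 := Primrec.fst.comp Primrec.fst
  have hp2 : Primrec fun x : (Sys × Sys) × (ℕ × ℕ × ℕ) => x.1.2 := Primrec.snd.comp Primrec.fst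
  have hn : Primrec fun x : (Sys × Sys) × (ℕ × ℕ × ℕ) => x.2.1 := Primrec.fst.comp Primrec.snd
  have hm : Primrec fun x : (Sys × Sys) × (ℕ × ℕ × ℕ) => x.2.2.1 :=
    Primrec.fst.comp (Primrec.snd.comp Primrec.snd)
  have hk : Primrec fun x : (Sys × Sys) × (ℕ × ℕ × ℕ) => x.2.2.2 :=
    Primrec.snd.comp (Primrec.snd.comp Primrec.snd)
  have hw1 : Primrec fun x : (Sys × Sys) × (ℕ × ℕ × ℕ) => it x.1.1.1 x.2.1 [x.1.1.2.2] :=
    prim_it (Primrec.fst.comp hp1) hn (prim_single (Primrec.snd.comp (Primrec.snd.comp hp1)))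
  have hw2 : Primrec fun x : (Sys × Sys) × (ℕ × ℕ × ℕ) => it x.1.2.1 x.2.2.1 [x.1.2.2.2] :=
    prim_it (Primrec.fst.comp hp2) hm (prim_single (Primrec.snd.comp (Primrec.snd.comp hp2)))
  have h1 : PrimrecPred fun x : (Sys × Sys) × (ℕ × ℕ × ℕ) =>
      x.2.2.2 < (it x.1.1.1 x.2.1 [x.1.1.2.2]).length ∧
      x.2.2.2 < (it x.1.2.1 x.2.2.1 [x.1.2.2.2]).length ∧
      ¬ (x.1.1.2.1.getD ((it x.1.1.1 x.2.1 [x.1.1.2.2]).getD x.2.2.2 0) 0 =
        x.1.2.2.1.getD ((it x.1.2.1 x.2.2.1 [x.1.2.2.2]).getD x.2.2.2 0) 0) := by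
    refine PrimrecPred.and (Primrec.nat_lt.comp hk (Primrec.list_length.comp hw1)) ?_
    refine PrimrecPred.and (Primrec.nat_lt.comp hk (Primrec.list_length.comp hw2)) ?_
    refine PrimrecPred.not (Primrec.eq.comp ?_ ?_)
    · exact (Primrec.list_getD 0).comp (Primrec.fst.comp (Primrec.snd.comp hp1))
        ((Primrec.list_getD 0).comp hw1 hk)
    · exact (Primrec.list_getD 0).comp (Primrec.fst.comp (Primrec.snd.comp hp2))
        ((Primrec.list_getD 0).comp hw2 hk)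
  have h2 := SF.ex (p := fun (p : Sys × Sys) (c : ℕ × ℕ × ℕ) =>
      c.2.2 < (it p.1.1 c.1 [p.1.2.2]).length ∧
      c.2.2 < (it p.2.1 c.2.1 [p.2.2.2]).length ∧
      ¬ (p.1.2.1.getD ((it p.1.1 c.1 [p.1.2.2]).getD c.2.2 0) 0 =
        p.2.2.1.getD ((it p.2.1 c.2.1 [p.2.2.2]).getD c.2.2 0) 0)) (SF.of_primrec h1)
  refine h2.of_eq fun p => ?_
  constructor
  · rintro ⟨⟨n, m, k⟩, h3, h4, h5⟩ h6
    exact h5 (h6 n m k h3 h4)
  · intro h
    rw [EqW] at h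
    push Not at h
    obtain ⟨n, m, k, h3, h4, h5⟩ := h
    exact ⟨(n, m, k), h3, h4, h5⟩

/-- The decision procedure, from completeness of the certificates. -/
theorem decider (hC : Complete) : ∃ f : Sys × Sys → Bool, Computable f ∧
    ∀ S T : Sys, Valid S → Valid T → (f (S, T) = true ↔ EqW S T) := by
  have hA : SF fun p : Sys × Sys => UPCert p.1 p.2 ∨ LevelCert p.1 p.2 :=
    (sf_of_re re_upcert).or sf_levelCert
  have hB : SF fun p : Sys × Sys => ¬ EqW p.1 p.2 ∨ (¬ Valid p.1 ∨ ¬ Valid p.2) :=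
    sf_not_eqW.or (((sf_of_re re_not_valid).comp Computable.fst).or
      ((sf_of_re re_not_valid).comp Computable.snd))
  have hAB : ∀ p : Sys × Sys, (UPCert p.1 p.2 ∨ LevelCert p.1 p.2) ∨
      (¬ EqW p.1 p.2 ∨ (¬ Valid p.1 ∨ ¬ Valid p.2)) := by
    intro p
    by_cases h1 : Valid p.1
    · by_cases h2 : Valid p.2
      · by_cases h3 : EqW p.1 p.2
        · exact Or.inl (hC _ _ h1 h2 h3)
        · exact Or.inr (Or.inl h3)
      · exact Or.inr (Or.inr (Or.inr h2))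
    · exact Or.inr (Or.inr (Or.inl h1))
  obtain ⟨f, hf, h1, h2⟩ := exists_decider hA hB hAB
  refine ⟨f, hf, fun S T hS hT => ⟨fun h => ?_, fun h => ?_⟩⟩
  · rcases h1 _ h with h3 | h3
    · exact eqW_of_upcert h3
    · exact eqW_of_levelCert hS hT h3
  · refine h2 _ ?_
    rintro (h3 | h3 | h3)
    · exact h3 h
    · exact h3 hS
    · exact h3 hT

/-- The frozen statement, from completeness of the certificates. -/
theorem final (hC : Complete) :
    ∃ f : (List (List ℕ) × List ℕ × ℕ) × (List (List ℕ) × List ℕ × ℕ) → Bool,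
      Computable f ∧
      ∀ (σ₁ : List (List ℕ)) (τ₁ : List ℕ) (a₁ : ℕ)
        (σ₂ : List (List ℕ)) (τ₂ : List ℕ) (a₂ : ℕ),
        (a₁ < σ₁.length ∧ (∀ l ∈ σ₁, ∀ x ∈ l, x < σ₁.length) ∧
          (∃ u : List ℕ, u ≠ [] ∧ σ₁.getD a₁ [] = a₁ :: u) ∧
          (∀ N : ℕ, ∃ n : ℕ,
            N < ((fun w : List ℕ => w.flatMap (fun x => σ₁.getD x []))^[n] [a₁]).length)) →
        (a₂ < σ₂.length ∧ (∀ l ∈ σ₂, ∀ x ∈ l, x < σ₂.length) ∧
          (∃ u : List ℕ, u ≠ [] ∧ σ₂.getD a₂ [] = a₂ :: u) ∧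
          (∀ N : ℕ, ∃ n : ℕ,
            N < ((fun w : List ℕ => w.flatMap (fun x => σ₂.getD x []))^[n] [a₂]).length)) →
        (f ((σ₁, τ₁, a₁), (σ₂, τ₂, a₂)) = true ↔
          ∀ n m k : ℕ,
            k < ((fun w : List ℕ => w.flatMap (fun x => σ₁.getD x []))^[n] [a₁]).length →
            k < ((fun w : List ℕ => w.flatMap (fun x => σ₂.getD x []))^[m] [a₂]).length →
            τ₁.getD (((fun w : List ℕ => w.flatMap (fun x => σ₁.getD x []))^[n] [a₁]).getD k 0) 0 =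
              τ₂.getD (((fun w : List ℕ => w.flatMap (fun x => σ₂.getD x []))^[m] [a₂]).getD k 0) 0) := by
  obtain ⟨f, hf, h⟩ := decider hC
  refine ⟨f, hf, ?_⟩
  intro σ₁ τ₁ a₁ σ₂ τ₂ a₂ h1 h2
  exact h (σ₁, τ₁, a₁) (σ₂, τ₂, a₂) h1 h2

end SUBST
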