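import Pool.Agent.Work.SUBST.Red2
import Pool.Agent.Work.SUBST.Final

/-!
# Transport of the abstract certificate along powers and shifts; the final assembly from `Core`
-/

set_option autoImplicit false

namespace SUBST

variable {A B : Type}

lemma ACert.symm {S : ASys A} {T : ASys B} (h : ACert S T) : ACert T S := by
  obtain ⟨M, N, P, z, w, Q, z', w', r, s, h1, h2, h3⟩ := h
  exact ⟨N, M, Q, z', w', P, z, w, s, r, h2, h1, fun t => (h3 t).symm⟩

namespace R2

lemma it_pow (S : ASys A) (p n : ℕ) (w : List A) : (S.pow p).it n w = S.it (p * n) w := by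
  have h1 : ∀ w : List A, (S.pow p).ap w = S.it p w := by
    intro w
    induction w with
    | nil =>
      have h2 : ∀ k, S.it k [] = [] := by
        intro k
        induction k with
        | zero => rfl
        | succ k ih => rw [it_succ, ih]; rfl
      rw [h2]; rfl
    | cons c w ih =>
      have e : c :: w = [c] ++ w := rfl
      rw [e, ap_append, it_append, ih]
      congr 1
      rw [ASys.ap, List.flatMap_cons, List.flatMap_nil, List.append_nil]
      rfl
  induction n with
  | zero => rfl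
  | succ n ih => rw [it_succ, h1, ih, ← it_add, Nat.mul_succ, Nat.add_comm]

lemma lev_pow (S : ASys A) (p M : ℕ) (w : List A) (t : ℕ) (P : List A) :
    (S.pow p).lev M w t P = S.lev (p * M) w t P := by
  rw [ASys.lev, ASys.lev]
  congr 1
  ext Z
  rw [it_pow]

lemma levOK_pow {S : ASys A} {p M : ℕ} (hp : 1 ≤ p) {P z w : List A}
    (h : (S.pow p).LevOK M P z w) : S.LevOK (p * M) P z w := by
  obtain ⟨h1, h2, h3, ⟨n, h4⟩, h5⟩ := h
  refine ⟨Nat.mul_pos hp h1, h2, h3, ⟨p * n, ?_⟩, ?_⟩
  · rw [← it_pow]; exact h4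
  · rw [← it_pow]; exact h5

end R2

/-- Certificates pass from a power back to the system. -/
theorem ACert.of_pow_left {S : ASys A} {T : ASys B} {p : ℕ} (hp : 1 ≤ p)
    (h : ACert (S.pow p) T) : ACert S T := by
  obtain ⟨M, N, P, z, w, Q, z', w', r, s, h1, h2, h3⟩ := h
  refine ⟨p * M, N, P, z, w, Q, z', w', r, s, R2.levOK_pow hp h1, h2, fun t => ?_⟩
  rw [← R2.lev_pow]
  exact h3 t

theorem ACert.of_pow {S : ASys A} {T : ASys B} {p q : ℕ} (hp : 1 ≤ p) (hq : 1 ≤ q)
    (h : ACert (S.pow p) (T.pow q)) : ACert S T :=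
  (ACert.of_pow_left hq (ACert.of_pow_left hp h).symm).symm

namespace R2

lemma it_nil' (S : ASys A) (k : ℕ) : S.it k [] = [] := by
  induction k with
  | zero => rfl
  | succ k ih => rw [it_succ, ih]; rfl

lemma flatMap_shift (S : ASys A) (r : ℕ) (w : List A) :
    w.flatMap (S.shift r).h = (S.it r w).flatMap S.h := by
  induction w with
  | nil => rw [it_nil']; rfl
  | cons c w ih =>
    have e : c :: w = [c] ++ w := rfl
    rw [e, List.flatMap_append, ih, it_append, List.flatMap_append]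
    congr 1
    rw [List.flatMap_cons, List.flatMap_nil, List.append_nil]
    rfl

lemma it_shift (S : ASys A) (r n : ℕ) (w : List A) : (S.shift r).it n w = S.it n w := rfl

lemma lev_shift (S : ASys A) (r M : ℕ) (w : List A) (t : ℕ) (P : List A) :
    S.lev M (S.it r w) t (S.it r P) = S.it r ((S.shift r).lev M w t P) := by
  induction t with
  | zero => rfl
  | succ t ih =>
    have h1 : (S.shift r).lev M w (t + 1) P = S.it M ((S.shift r).lev M w t P) ++ w := by
      rw [ASys.lev, ASys.lev, Function.iterate_succ_apply']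
      rfl
    have h2 : S.lev M (S.it r w) (t + 1) (S.it r P) =
        S.it M (S.lev M (S.it r w) t (S.it r P)) ++ S.it r w := by
      rw [ASys.lev, ASys.lev, Function.iterate_succ_apply']
    rw [h1, h2, ih, it_append, ← it_add, ← it_add, Nat.add_comm]

lemma it_prefix' (S : ASys A) (n : ℕ) {u v : List A} (h : u <+: v) : S.it n u <+: S.it n v := by
  obtain ⟨w, rfl⟩ := h
  rw [it_append]
  exact List.prefix_append _ _

lemma it_ne_nil {S : ASys A} (hS : ∀ c, S.σ c ≠ []) (n : ℕ) {w : List A} (hw : w ≠ []) :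
    S.it n w ≠ [] := by
  induction n with
  | zero => exact hw
  | succ n ih =>
    rw [it_succ]
    obtain ⟨c, w', hcw⟩ := List.exists_cons_of_ne_nil ih
    rw [hcw, ASys.ap, List.flatMap_cons]
    intro h
    exact hS c (List.append_eq_nil_iff.1 h).1

lemma levOK_shift {S : ASys A} (hS : ∀ c, S.σ c ≠ []) {r M : ℕ} {P z w : List A}
    (h : (S.shift r).LevOK M P z w) : S.LevOK M (S.it r P) (S.it r z) (S.it r w) := by
  obtain ⟨h1, h2, h3, ⟨n, h4⟩, h5⟩ := h
  refine ⟨h1, it_ne_nil hS r h2, it_ne_nil hS r h3, ⟨r + n, ?_⟩, ?_⟩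
  · rw [← it_append, it_add]
    exact it_prefix' S r h4
  · rw [← it_append, ← it_add, Nat.add_comm, it_add]
    exact it_prefix' S r h5

end R2

/-- Certificates pass from a shift back to the system. -/
theorem ACert.of_shift_left {S : ASys A} {T : ASys B} (hS : S.Good) {r : ℕ}
    (h : ACert (S.shift r) T) : ACert S T := by
  obtain ⟨M, N, P, z, w, Q, z', w', r', s, h1, h2, h3⟩ := h
  refine ⟨M, N, S.it r P, S.it r z, S.it r w, Q, z', w', r', s, R2.levOK_shift hS.ne h1, h2,
    fun t => ?_⟩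
  rw [R2.lev_shift, ← R2.flatMap_shift]
  exact h3 t

theorem ACert.of_shift {S : ASys A} {T : ASys B} (hS : S.Good) (hT : T.Good) {r r' : ℕ}
    (h : ACert (S.shift r) (T.shift r')) : ACert S T :=
  (ACert.of_shift_left hT (ACert.of_shift_left hS h).symm).symm

/-- The frozen statement, from the core joint. -/
theorem final_of_core (hC : Core) :
    ∃ f : (List (List ℕ) × List ℕ × ℕ) × (List (List ℕ) × List ℕ × ℕ) → Bool,
      Computable f ∧
      ∀ (σ₁ : List (List ℕ)) (τ₁ : List ℕ) (a₁ : ℕ)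
        (σ₂ : List (List ℕ)) (τ₂ : List ℕ) (a₂ : ℕ),
        (a₁ < σ₁.length ∧ (∀ l ∈ σ₁, ∀ x ∈ l, x < σ₁.length) ∧
          (∃ u : List ℕ, u ≠ [] ∧ σ₁.getD a₁ [] = a₁ :: u) ∧
          (∀ N : ℕ, ∃ n : ℕ,
            N < ((fun w : List ℕ => w.flatMap (fun x => σ₁.getD x []))^[n] [a₁]).length)) →
        (a₂ < σ₂.length ∧ (∀ l ∈ σ₂, ∀ x ∈ l, x < σ₂.length) ∧
          (∃ u : List ℕ, u ≠ [] ∧ σ₂.getD a₂ [] = a₂ :: u) ∧
          (∀ N : ℕ, ∃ n : ℕ,
            N < ((fun w : List ℕ => w.flatMap (fun x => σ₂.getD x []))^[n] [a₂]).length)) →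
        (f ((σ₁, τ₁, a₁), (σ₂, τ₂, a₂)) = true ↔
          ∀ n m k : ℕ,
            k < ((fun w : List ℕ => w.flatMap (fun x => σ₁.getD x []))^[n] [a₁]).length →
            k < ((fun w : List ℕ => w.flatMap (fun x => σ₂.getD x []))^[m] [a₂]).length →
            τ₁.getD (((fun w : List ℕ => w.flatMap (fun x => σ₁.getD x []))^[n] [a₁]).getD k 0) 0 =
              τ₂.getD (((fun w : List ℕ => w.flatMap (fun x => σ₂.getD x []))^[m] [a₂]).getD k 0) 0) :=
  final (R2.complete_of_core hC)

end SUBST
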