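import Pool.Agent.Work.SUBST.Api
import Pool.Agent.Work.SUBST.Aut
import Pool.Agent.Work.SUBST.KepsA
import Pool.Agent.Work.SUBST.Transport

/-!
# The first break after a cut is a regular sequence (problem 24c0d2, joint FB)
-/

set_option autoImplicit false

namespace SUBST

/-! ### `RegM` goes back along powers and shifts -/

theorem ASys.RegM.of_pow {A : Type} {S : ASys A} {p M : ℕ} (hp : 1 ≤ p) {e : ℕ → ℕ}
    (h : (S.pow p).RegM M e) : S.RegM (p * M) e := by
  obtain ⟨P, z, w, d, h1, h2⟩ := h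
  refine ⟨P, z, w, d, R2.levOK_pow hp h1, fun t => ?_⟩
  rw [h2 t, R2.lev_pow]
  rfl

theorem ASys.RegM.of_shift {A : Type} {S : ASys A} (hne : ∀ c, S.σ c ≠ []) {r M : ℕ} {e : ℕ → ℕ}
    (h : (S.shift r).RegM M e) : S.RegM M e := by
  obtain ⟨P, z, w, d, h1, h2⟩ := h
  refine ⟨S.it r P, S.it r z, S.it r w, d, R2.levOK_shift hne h1, fun t => ?_⟩
  rw [h2 t, R2.lev_shift, R2.flatMap_shift]

namespace Aut

/-! ### Good systems: powers and shifts -/

section moves

variable {A : Type} {S : ASys A}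

theorem good_pow (hS : S.Good) {p : ℕ} (hp : 1 ≤ p) : (S.pow p).Good := by
  refine ⟨fun c => ?_, hS.hne, ?_, fun c => ?_⟩
  · exact hS.it_ne_nil p (by simp)
  · obtain ⟨v, hv⟩ := hS.it_prefix_le (Nat.zero_le p)
    refine ⟨v, ?_, hv.symm⟩
    rintro rfl
    have h1 := hS.lt_it_length p
    rw [← hv] at h1
    simp at h1
    omega
  · obtain ⟨n, hn⟩ := hS.reach c
    refine ⟨n, ?_⟩
    rw [pow_it]
    exact (hS.it_prefix_le (Nat.le_mul_of_pos_left n hp)).subset hn

theorem good_shift (hS : S.Good) (r : ℕ) : (S.shift r).Good := by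
  refine ⟨hS.ne, fun c => ?_, hS.start, hS.reach⟩
  exact hS.W_ne_nil r (by simp)

theorem isWord_pow {x : ℕ → ℕ} (hx : S.IsWord x) (p : ℕ) : (S.pow p).IsWord x := by
  intro n
  have h := hx (p * n)
  rw [ASys.len, pow_W]
  exact h

theorem isWord_shift {x : ℕ → ℕ} (hx : S.IsWord x) (r : ℕ) : (S.shift r).IsWord x := by
  intro n
  have h := hx (r + n)
  rw [ASys.len, shift_W]
  exact h

theorem pre_pow (hS : S.Good) {p : ℕ} (hp : 1 ≤ p) (k : ℕ) : (S.pow p).pre k = S.pre k := by
  have h1 := (good_pow hS hp).pre_prefix_it' k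
  rw [pow_it] at h1
  have h2 := hS.eq_pre_of_prefix h1
  rwa [ASys.length_pre] at h2

theorem pre_shift (r k : ℕ) : (S.shift r).pre k = S.pre k := rfl

theorem pos_shift_pow (hS : S.Good) {p : ℕ} (hp : 1 ≤ p) (r n k : ℕ) :
    ((S.shift r).pow p).pos n k = S.pos (r + p * n) k := by
  rw [ASys.pos, ASys.len, pre_pow (good_shift hS r) hp, pow_W, shift_W]
  rfl

end moves

/-! ### Hits of a sequence -/

namespace Reader

variable {Q : Type} (R : Reader Q) (q0 : Q) (x : ℕ → ℕ)

/-- The hits of the sequence `x` read from `q0`. -/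
def hitX (t : ℕ) : Prop := R.hit (R.run q0 ((List.range t).map x)) (x t)

theorem hitAt_map_range (N i : ℕ) :
    R.HitAt q0 ((List.range N).map x) i ↔ i < N ∧ R.hitX q0 x i := by
  induction N with
  | zero =>
    simp only [List.range_zero, List.map_nil, Nat.not_lt_zero, false_and, iff_false]
    exact R.hitAt_nil _ _
  | succ N ih =>
    rw [List.range_succ, List.map_append, R.hitAt_append, ih]
    simp only [List.map_cons, List.map_nil, List.length_map, List.length_range]
    constructor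
    · rintro (⟨h1, h2⟩ | ⟨h1, h2⟩)
      · exact ⟨by omega, h2⟩
      · have h3 := R.hitAt_lt h2
        simp only [List.length_cons, List.length_nil] at h3
        have h4 : i = N := by omega
        subst h4
        rw [Nat.sub_self] at h2
        exact ⟨by omega, h2⟩
    · rintro ⟨h1, h2⟩
      rcases Nat.lt_or_ge i N with h3 | h3
      · exact Or.inl ⟨h3, h2⟩
      · have h4 : i = N := by omega
        subst h4
        refine Or.inr ⟨le_rfl, ?_⟩
        rw [Nat.sub_self]
        exact h2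

/-- First hit at or after `y`. -/
noncomputable def nxt (y : ℕ) : ℕ := sInf {t | y ≤ t ∧ R.hitX q0 x t}

end Reader

section first

variable {A Q : Type} {S : ASys A} {R : Reader Q}

/-- The first productive letter of a word. -/
theorem exists_first_productive (w : List A) (q : Q) (h : R.Pr q (S.W 0 w)) :
    ∃ u d v, w = u ++ d :: v ∧ ¬ R.Pr q (S.W 0 u) ∧ R.Pr (R.run q (S.W 0 u)) (S.W 0 [d]) := by
  induction w generalizing q with
  | nil => exact absurd h (R.not_pr_nil q)
  | cons c w ih =>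
    by_cases hc : R.Pr q (S.W 0 [c])
    · exact ⟨[], c, w, rfl, R.not_pr_nil q, hc⟩
    · rw [W_cons S 0 c w, R.pr_append] at h
      obtain ⟨u, d, v, hw, h1, h2⟩ := ih _ (h.resolve_left hc)
      refine ⟨c :: u, d, v, by rw [hw]; rfl, ?_, ?_⟩
      · rw [W_cons S 0 c u, R.pr_append]
        exact not_or.2 ⟨hc, h1⟩
      · rw [W_cons S 0 c u, R.run_append]
        exact h2

/-- Productive pairs (letter, state). -/
def Good2 (S : ASys A) (R : Reader Q) (k : A × Q) : Prop := R.Pr k.2 (S.W 0 [k.1])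

/-- The chain of first productive children. -/
theorem exists_first_chain (hst : Stable S R) :
    ∃ (F : A × Q → A × Q) (wd : A × Q → List A), (∀ k, Good2 S R k → Good2 S R (F k)) ∧
      (∀ k, Good2 S R k → (wd k ++ [(F k).1]) <+: S.σ k.1) ∧
      (∀ n k, Good2 S R k → R.fh k.2 (S.W (n + 1) [k.1]) =
        S.len n (wd k) + R.fh (F k).2 (S.W n [(F k).1])) := by
  classical
  have h1 : ∀ k : A × Q, ∃ (p : List A × A × List A), Good2 S R k →
      S.σ k.1 = p.1 ++ p.2.1 :: p.2.2 ∧ ¬ R.Pr k.2 (S.W 0 p.1) ∧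
        R.Pr (R.run k.2 (S.W 0 p.1)) (S.W 0 [p.2.1]) := by
    intro k
    by_cases hk : Good2 S R k
    · have h2 : R.Pr k.2 (S.W 0 (S.σ k.1)) := by
        have h3 := (hst 1 k.1 k.2).2.2 hk
        rw [show S.W 1 [k.1] = S.W 0 (S.σ k.1) by
          rw [show (1 : ℕ) = 0 + 1 from rfl, W_succ, ap_singleton]] at h3
        exact h3
      obtain ⟨u, d, v, h4⟩ := exists_first_productive _ _ h2
      exact ⟨⟨u, d, v⟩, fun _ => h4⟩
    · exact ⟨⟨[], k.1, []⟩, fun h => absurd h hk⟩
  choose p hp using h1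
  refine ⟨fun k => ((p k).2.1, R.run k.2 (S.W 0 (p k).1)), fun k => (p k).1, ?_, ?_, ?_⟩
  · intro k hk
    exact (hp k hk).2.2
  · intro k hk
    refine ⟨(p k).2.2, ?_⟩
    rw [(hp k hk).1, List.append_assoc]
    rfl
  · intro n k hk
    obtain ⟨h2, h3, h4⟩ := hp k hk
    rw [W_succ, ap_singleton, h2, W_append, R.fh_append_right, hst.run n, W_cons S n (p k).2.1,
      R.fh_append_left]
    · rfl
    · rw [(hst n _ _).2]
      exact h4
    · rw [hst.pr n]
      exact h3
    · rw [hst.run n, W_cons S n (p k).2.1, R.pr_append]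
      left
      rw [(hst n _ _).2]
      exact h4

end first

section main

variable {A Q : Type} {S : ASys A} {R : Reader Q} {q0 : Q} {x : ℕ → ℕ}

/-- The state before the `k`-th block. -/
noncomputable def stt (S : ASys A) (R : Reader Q) (q0 : Q) (k : ℕ) : Q :=
  R.run q0 (S.W 0 (S.pre k))

theorem stt_eq (hst : Stable S R) (n k : ℕ) : R.run q0 (S.W n (S.pre k)) = stt S R q0 k :=
  hst.run n _ _

/-- Hits inside a block. -/
theorem hitX_block (hS : S.Good) (hx : S.IsWord x) (hst : Stable S R) (n k t : ℕ)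
    (h1 : S.pos n k ≤ t) (h2 : t < S.pos n (k + 1)) :
    R.hitX q0 x t ↔ R.HitAt (stt S R q0 k) (S.W n [S.X k]) (t - S.pos n k) := by
  have h3 := R.hitAt_map_range q0 x (S.pos n (k + 1)) t
  rw [← hS.W_pre hx, S.pre_succ, W_append, R.hitAt_append, stt_eq hst] at h3
  constructor
  · intro h4
    rcases h3.2 ⟨h2, h4⟩ with h5 | h5
    · exact absurd (R.hitAt_lt h5) (not_lt.2 h1)
    · exact h5.2
  · intro h4
    exact (h3.1 (Or.inr ⟨h1, h4⟩)).2

/-- The first hit after a cut lies in the same block at every level. -/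
theorem nxt_pos (hS : S.Good) (hx : S.IsWord x) (hst : Stable S R)
    (hinf : {t | R.hitX q0 x t}.Infinite) (j : ℕ) :
    ∃ k, j ≤ k ∧ Good2 S R (S.X k, stt S R q0 k) ∧
      ∀ n, R.nxt q0 x (S.pos n j) = S.pos n k + R.fh (stt S R q0 k) (S.W n [S.X k]) ∧
        S.pos n k ≤ R.nxt q0 x (S.pos n j) ∧ R.nxt q0 x (S.pos n j) < S.pos n (k + 1) := by
  classical
  -- the block of a hit is productive
  have key : ∀ n t, S.pos n j ≤ t → R.hitX q0 x t → ∃ k, j ≤ k ∧ S.pos n k ≤ t ∧
      t < S.pos n (k + 1) ∧ R.HitAt (stt S R q0 k) (S.W n [S.X k]) (t - S.pos n k) ∧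
      Good2 S R (S.X k, stt S R q0 k) := by
    intro n t h1 h2
    obtain ⟨k, h3, h4⟩ := hS.exists_block n t
    have h5 := (hitX_block hS hx hst n k t h3 h4).1 h2
    refine ⟨k, ?_, h3, h4, h5, ?_⟩
    · by_contra hlt
      have : S.pos n (k + 1) ≤ S.pos n j := S.pos_mono n (by omega)
      omega
    · exact (hst n _ _).2.1 ⟨_, h5⟩
  have hex : ∃ k, j ≤ k ∧ Good2 S R (S.X k, stt S R q0 k) := by
    obtain ⟨t, ht, hlt⟩ := hinf.exists_gt (S.pos 0 j)
    obtain ⟨k, h1, -, -, -, h2⟩ := key 0 t hlt.le ht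
    exact ⟨k, h1, h2⟩
  set k := Nat.find hex with hk
  obtain ⟨hjk, hgk⟩ := Nat.find_spec hex
  rw [← hk] at hjk hgk
  refine ⟨k, hjk, hgk, fun n => ?_⟩
  have hPr : R.Pr (stt S R q0 k) (S.W n [S.X k]) := (hst n _ _).2.2 hgk
  have hfh := R.fh_spec hPr
  have hlt := R.hitAt_lt hfh
  have hsucc : S.pos n (k + 1) = S.pos n k + (S.W n [S.X k]).length := S.pos_succ n k
  have hmem : S.pos n j ≤ S.pos n k + R.fh (stt S R q0 k) (S.W n [S.X k]) ∧
      R.hitX q0 x (S.pos n k + R.fh (stt S R q0 k) (S.W n [S.X k])) := by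
    refine ⟨(S.pos_mono n hjk).trans (Nat.le_add_right _ _), ?_⟩
    rw [hitX_block hS hx hst n k _ (Nat.le_add_right _ _) (by omega), Nat.add_sub_cancel_left]
    exact hfh
  have heq : R.nxt q0 x (S.pos n j) = S.pos n k + R.fh (stt S R q0 k) (S.W n [S.X k]) := by
    apply le_antisymm
    · exact Nat.sInf_le hmem
    · have h1 : R.nxt q0 x (S.pos n j) ∈ {t | S.pos n j ≤ t ∧ R.hitX q0 x t} :=
        Nat.sInf_mem ⟨_, hmem⟩
      obtain ⟨k', h2, h3, h4, h5, h6⟩ := key n _ h1.1 h1.2
      have h7 : k ≤ k' := Nat.find_min' hex ⟨h2, h6⟩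
      rcases Nat.lt_or_ge k k' with h8 | h8
      · have h9 : S.pos n (k + 1) ≤ S.pos n k' := S.pos_mono n h8
        omega
      · have h9 : k' = k := by omega
        rw [h9] at h5 h3
        have := R.fh_le h5
        omega
  refine ⟨heq, ?_, ?_⟩
  · rw [heq]; omega
  · rw [heq]; omega

/-- The first hit after a cut, along the levels of a stable system. -/
theorem regM_nxt_stable [Finite A] [Finite Q] (hS : S.Good) (hx : S.IsWord x)
    (hst : Stable S R) (hinf : {t | R.hitX q0 x t}.Infinite) {p n0 : ℕ} (hp : 1 ≤ p)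
    (hper : ∀ F : A × Q → A × Q, ∀ n, n0 ≤ n → ∀ t, F^[n + p * t] = F^[n]) (j : ℕ) (hj : 1 ≤ j)
    (n : ℕ) (hn : n0 ≤ n) :
    S.RegM p (fun t => R.nxt q0 x (S.pos (n + p * t) j)) := by
  obtain ⟨k, hjk, hgk, hk⟩ := nxt_pos hS hx hst hinf j
  obtain ⟨F, wd, hF1, hF2, hF3⟩ := exists_first_chain hst
  have hk1 : S.pre k ≠ [] := by
    intro h
    have := S.length_pre k
    rw [h] at this
    simp at this
    omega
  have h1 := chain_regM (S := S) (F := F) (wd := wd) (lt := Prod.fst) (good := Good2 S R)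
    hF1 hF2 hS.ne hp (hper F) (S.pre k) (S.X k, stt S R q0 k)
    (fun c => R.fh c.2 (S.W 0 [c.1])) hgk hk1
    ⟨k + 1, by
      have := hS.pre_prefix_it' (k + 1)
      rwa [S.pre_succ] at this⟩ n hn
  have h2 : (fun t => R.nxt q0 x (S.pos (n + p * t) j)) = (fun t =>
      S.len 0 (chP S F wd (S.pre k) (S.X k, stt S R q0 k) (n + p * t)) +
        (fun c : A × Q => R.fh c.2 (S.W 0 [c.1])) (F^[n + p * t] (S.X k, stt S R q0 k))) := by
    funext t
    rw [(hk _).1]
    exact chain_val (S := S) (F := F) (wd := wd) (good := Good2 S R)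
      (val := fun n c => R.fh c.2 (S.W n [c.1])) hF3 hF1 _ (S.pre k) hgk
  rw [h2]
  exact h1

/-- The first hit after a cut, for every good system. -/
theorem regM_nxt [Finite A] [Finite Q] (hS : S.Good) (hx : S.IsWord x)
    (hinf : {t | R.hitX q0 x t}.Infinite) :
    ∃ p, 1 ≤ p ∧ ∃ n0, ∀ j, 1 ≤ j → ∀ n, n0 ≤ n →
      S.RegM p (fun t => R.nxt q0 x (S.pos (n + p * t) j)) := by
  obtain ⟨p1, i, hp1, hst⟩ := exists_stable S R
  obtain ⟨p2, n2, hp2, hper⟩ := exists_iterate_period (A × Q)
  refine ⟨p1 * p2, Nat.mul_pos hp1 hp2, i + p1 * n2, ?_⟩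
  intro j hj n hn
  obtain ⟨n', hn', rfl⟩ : ∃ n', i ≤ n' ∧ n = n' + p1 * n2 :=
    ⟨n - p1 * n2, by omega, by omega⟩
  have h1 := regM_nxt_stable (S := (S.shift n').pow p1) (good_pow (good_shift hS n') hp1)
    (isWord_pow (isWord_shift hx n') p1) (hst n' hn') hinf hp2 hper j hj n2 le_rfl
  have h2 := ASys.RegM.of_shift hS.ne (ASys.RegM.of_pow hp1 h1)
  refine (congrArg (S.RegM (p1 * p2)) ?_).mp h2
  funext t
  rw [pos_shift_pow hS hp1]
  congr 2
  ring

end main

/-! ### The reader of the breaks of a period -/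

section breaks

/-- The states: the last `q` letters (newest first), letters below `B + 1`. -/
abbrev BQ (B q : ℕ) : Type := {l : List (Fin (B + 1)) // l.length ≤ q}

instance (B q : ℕ) : Finite (BQ B q) := List.finite_length_le (Fin (B + 1)) q

/-- The letter `b` as an element of `Fin (B + 1)`. -/
def toF (B b : ℕ) : Fin (B + 1) := Fin.ofNat (B + 1) b

/-- The reader of the breaks of the period `q`. -/
def breakReader (B q : ℕ) : Reader (BQ B q) where
  δ l b := ⟨(toF B b :: l.1).take q, List.length_take_le _ _⟩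
  hit l b := l.1.length = q ∧ l.1.getLast? ≠ some (toF B b)

theorem breakReader_run (B q : ℕ) (w : List ℕ) :
    ((breakReader B q).run ⟨[], Nat.zero_le _⟩ w).1 = ((w.map (toF B)).reverse).take q := by
  induction w using List.reverseRecOn with
  | nil => rw [(breakReader B q).run_nil]; simp
  | append_singleton w b ih =>
    rw [(breakReader B q).run_append]
    show (toF B b :: ((breakReader B q).run ⟨[], Nat.zero_le _⟩ w).1).take q = _
    rw [ih, List.map_append, List.reverse_append]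
    show (toF B b :: ((w.map (toF B)).reverse).take q).take q =
      (toF B b :: (w.map (toF B)).reverse).take q
    cases q with
    | zero => rfl
    | succ q =>
      rw [List.take_succ_cons, List.take_succ_cons, List.take_take]
      congr 2
      omega

theorem hitX_breakReader {B q : ℕ} (hq : 1 ≤ q) {x : ℕ → ℕ} (hB : ∀ t, x t ≤ B) (t : ℕ) :
    (breakReader B q).hitX ⟨[], Nat.zero_le _⟩ x t ↔ t ∈ brk x q := by
  have hinj : ∀ a b, a ≤ B → b ≤ B → (toF B a = toF B b ↔ a = b) := by
    intro a b ha hb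
    rw [toF, toF, Fin.ext_iff]
    show a % (B + 1) = b % (B + 1) ↔ a = b
    rw [Nat.mod_eq_of_lt (by omega), Nat.mod_eq_of_lt (by omega)]
  show (_ ∧ _) ↔ (_ ∧ _)
  rw [breakReader_run, List.length_take, List.length_reverse, List.length_map, List.length_map,
    List.length_range]
  constructor
  · rintro ⟨h1, h2⟩
    have hqt : q ≤ t := by omega
    refine ⟨hqt, fun h3 => h2 ?_⟩
    rw [List.getLast?_eq_getElem?, List.length_take, List.length_reverse, List.length_map,
      List.length_map, List.length_range, Nat.min_eq_left hqt,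
      List.getElem?_take_of_lt (by omega), List.getElem?_reverse (by simp; omega)]
    simp only [List.length_map, List.length_range, List.getElem?_map]
    rw [List.getElem?_range (by omega)]
    simp only [Option.map_some, Option.some.injEq]
    rw [show t - 1 - (q - 1) = t - q by omega, ← h3]
  · rintro ⟨hqt, h3⟩
    refine ⟨by omega, fun h2 => h3 ?_⟩
    rw [List.getLast?_eq_getElem?, List.length_take, List.length_reverse, List.length_map,
      List.length_map, List.length_range, Nat.min_eq_left hqt,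
      List.getElem?_take_of_lt (by omega), List.getElem?_reverse (by simp; omega)] at h2
    simp only [List.length_map, List.length_range, List.getElem?_map] at h2
    rw [List.getElem?_range (by omega)] at h2
    simp only [Option.map_some, Option.some.injEq] at h2
    rw [show t - 1 - (q - 1) = t - q by omega, hinj _ _ (hB _) (hB _)] at h2
    exact h2.symm

/-- The letters of the word of a good system over a finite alphabet are bounded. -/
theorem exists_bound {A : Type} [Finite A] {S : ASys A} (hS : S.Good) {x : ℕ → ℕ}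
    (hx : S.IsWord x) : ∃ B, ∀ t, x t ≤ B := by
  classical
  cases nonempty_fintype A
  refine ⟨∑ c : A, (S.h c).sum, fun t => ?_⟩
  obtain ⟨k, h1, h2⟩ := hS.exists_block 0 t
  obtain ⟨j, rfl⟩ := Nat.exists_eq_add_of_le h1
  have h3 : j < (S.W 0 [S.X k]).length := by
    have : S.pos 0 (k + 1) = S.pos 0 k + (S.W 0 [S.X k]).length := S.pos_succ 0 k
    omega
  rw [hS.x_pos_add hx 0 k j h3]
  have h4 : (S.W 0 [S.X k])[j] ∈ S.h (S.X k) := by
    have h5 : S.W 0 [S.X k] = S.h (S.X k) := by
      rw [W_zero]; simp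
    rw [← h5]
    exact List.getElem_mem h3
  exact (List.le_sum_of_mem h4).trans
    (Finset.single_le_sum (f := fun c : A => (S.h c).sum) (fun _ _ => Nat.zero_le _)
      (Finset.mem_univ (S.X k)))

/-- JOINT FB: the first break after a cut is a regular sequence along the levels. -/
theorem firstBreak {A : Type} [Finite A] {S : ASys A} (hS : S.Good) {x : ℕ → ℕ}
    (hx : S.IsWord x) {q : ℕ} (hq : 1 ≤ q) (hinf : (brk x q).Infinite) :
    ∃ p, 1 ≤ p ∧ ∃ n0, ∀ k, 1 ≤ k → ∀ n, n0 ≤ n →
      S.RegM p (fun t => sInf {y | y ∈ brk x q ∧ S.pos (n + p * t) k ≤ y}) := by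
  obtain ⟨B, hB⟩ := exists_bound hS hx
  have hset : {t | (breakReader B q).hitX ⟨[], Nat.zero_le _⟩ x t} = brk x q := by
    ext t
    exact hitX_breakReader hq hB t
  obtain ⟨p, hp, n0, h⟩ := regM_nxt (R := breakReader B q) (q0 := ⟨[], Nat.zero_le _⟩) hS hx
    (by rw [hset]; exact hinf)
  refine ⟨p, hp, n0, fun k hk n hn => ?_⟩
  refine (congrArg (S.RegM p) ?_).mp (h k hk n hn)
  funext t
  rw [Reader.nxt]
  congr 1
  ext y
  show (S.pos (n + p * t) k ≤ y ∧ (breakReader B q).hitX ⟨[], Nat.zero_le _⟩ x y) ↔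
    (y ∈ brk x q ∧ S.pos (n + p * t) k ≤ y)
  rw [hitX_breakReader hq hB, and_comm]

end breaks

end Aut

/-- JOINT FB in the form used by `CaseI.lean`. -/
theorem fb {A : Type} [Finite A] {S : ASys A} {x : ℕ → ℕ} {q : ℕ} (hG : S.Good)
    (hx : S.IsWord x) (hq : 1 ≤ q) (hinf : (brk x q).Infinite) : S.FB (brk x q) :=
  Aut.firstBreak hG hx hq hinf

end SUBST
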