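import Pool.Agent.Work.SUBST.Api
import Pool.Agent.Work.SUBST.C2Defs

/-!
# Limit weights of words and limit positions
-/

set_option autoImplicit false

namespace SUBST

open Filter Topology

namespace ASys

variable {A : Type} (S : ASys A)

section lw

variable (lam : A → ℝ)

@[simp] theorem lw_nil : lw lam [] = 0 := rfl

@[simp] theorem lw_cons (c : A) (w : List A) : lw lam (c :: w) = lam c + lw lam w := by simp [lw]

@[simp] theorem lw_append (v w : List A) : lw lam (v ++ w) = lw lam v + lw lam w := by simp [lw]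

theorem lw_single (c : A) : lw lam [c] = lam c := by simp [lw]

variable {lam}

theorem lw_nonneg (h : ∀ c, 0 ≤ lam c) (w : List A) : 0 ≤ lw lam w := by
  induction w with
  | nil => simp
  | cons c w ih => rw [lw_cons]; have := h c; linarith

theorem lw_le_of_prefix (h : ∀ c, 0 ≤ lam c) {v w : List A} (hp : v <+: w) :
    lw lam v ≤ lw lam w := by
  obtain ⟨t, rfl⟩ := hp
  rw [lw_append]
  have := lw_nonneg h t
  linarith

theorem le_lw_of_mem (h : ∀ c, 0 ≤ lam c) {c : A} {w : List A} (hc : c ∈ w) :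
    lam c ≤ lw lam w := by
  induction w with
  | nil => simp at hc
  | cons d w ih =>
    rw [lw_cons]
    rcases List.mem_cons.1 hc with rfl | hc
    · have := lw_nonneg h w; linarith
    · have := ih hc; have := h d; linarith

theorem exists_pos_of_lw_pos (_h : ∀ c, 0 ≤ lam c) {w : List A} (hw : 0 < lw lam w) :
    ∃ c ∈ w, 0 < lam c := by
  by_contra hne
  push Not at hne
  have : ∀ v : List A, (∀ c ∈ v, lam c ≤ 0) → lw lam v ≤ 0 := by
    intro v
    induction v with
    | nil => intro _; simp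
    | cons c v ih =>
      intro hv
      rw [lw_cons]
      have h1 := hv c (by simp)
      have h2 := ih fun d hd => hv d (by simp [hd])
      linarith
  linarith [this w hne]

theorem lw_le_mul (C : ℝ) (hC : ∀ c, lam c ≤ C) (w : List A) : lw lam w ≤ w.length * C := by
  induction w with
  | nil => simp
  | cons c w ih =>
    rw [lw_cons, List.length_cons]
    push_cast
    have := hC c
    linarith

end lw

variable (lam : A → ℝ)

@[simp] theorem pl_zero : S.pl lam 0 = 0 := by simp [pl]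

theorem pl_succ (k : ℕ) : S.pl lam (k + 1) = S.pl lam k + lam (S.X k) := by
  rw [pl, pl, pre_succ, lw_append, lw_single]

variable {lam S}

theorem pl_mono (h : ∀ c, 0 ≤ lam c) : Monotone (S.pl lam) :=
  monotone_nat_of_le_succ fun k => by
    rw [pl_succ]; have := h (S.X k); linarith

theorem pl_nonneg (h : ∀ c, 0 ≤ lam c) (k : ℕ) : 0 ≤ S.pl lam k := lw_nonneg h _

/-- The length of the start block as a real number. -/
theorem Good.len_a_pos (hS : S.Good) (n : ℕ) : (0 : ℝ) < S.len n [S.a] := by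
  exact_mod_cast hS.len_pos n S.a

theorem Good.tendsto_len_a (hS : S.Good) : Tendsto (fun n => (S.len n [S.a] : ℝ)) atTop atTop :=
  tendsto_natCast_atTop_atTop.comp hS.len_a_mono.tendsto_atTop

theorem Limits.nonneg {α : ℝ} (hL : S.Limits α lam) (c : A) : 0 ≤ lam c := hL.2.1 c

theorem Limits.one_le {α : ℝ} (hL : S.Limits α lam) : 1 ≤ α := hL.1

theorem Limits.lam_a {α : ℝ} (hL : S.Limits α lam) : lam S.a = 1 := hL.2.2.1

theorem Limits.ratio {α : ℝ} (hL : S.Limits α lam) :
    Tendsto (fun n => (S.len (n + 1) [S.a] : ℝ) / S.len n [S.a]) atTop (𝓝 α) := hL.2.2.2.1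

/-- Lengths of words. -/
theorem Limits.tendsto_len {α : ℝ} (hL : S.Limits α lam) (w : List A) :
    Tendsto (fun n => (S.len n w : ℝ) / S.len n [S.a]) atTop (𝓝 (lw lam w)) := by
  induction w with
  | nil => simp
  | cons c w ih =>
    rw [lw_cons]
    have h := (hL.2.2.2.2 c).add ih
    refine h.congr fun n => ?_
    rw [S.len_cons n c w]
    push_cast
    ring

theorem Limits.tendsto_pos {α : ℝ} (hL : S.Limits α lam) (k : ℕ) :
    Tendsto (fun n => (S.pos n k : ℝ) / S.len n [S.a]) atTop (𝓝 (S.pl lam k)) :=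
  hL.tendsto_len _

theorem Limits.tendsto_ratio (hS : S.Good) {α : ℝ} (hL : S.Limits α lam) (j : ℕ) :
    Tendsto (fun n => (S.len (n + j) [S.a] : ℝ) / S.len n [S.a]) atTop (𝓝 (α ^ j)) := by
  induction j with
  | zero =>
    simp only [Nat.add_zero, pow_zero]
    refine tendsto_const_nhds.congr fun n => ?_
    rw [div_self (hS.len_a_pos n).ne']
  | succ j ih =>
    have h1 : Tendsto (fun n => (S.len (n + j + 1) [S.a] : ℝ) / S.len (n + j) [S.a]) atTop
        (𝓝 α) := hL.ratio.comp (tendsto_add_atTop_nat j)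
    rw [pow_succ]
    refine (ih.mul h1).congr fun n => ?_
    have h2 := (hS.len_a_pos (n + j)).ne'
    have h3 := (hS.len_a_pos n).ne'
    rw [← Nat.add_assoc]
    field_simp

theorem Limits.lw_it (hS : S.Good) {α : ℝ} (hL : S.Limits α lam) (j : ℕ) (w : List A) :
    lw lam (S.it j w) = α ^ j * lw lam w := by
  have h1 := hL.tendsto_len (S.it j w)
  have h2 : Tendsto (fun n => (S.len (n + j) w : ℝ) / S.len (n + j) [S.a]) atTop
      (𝓝 (lw lam w)) := (hL.tendsto_len w).comp (tendsto_add_atTop_nat j)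
  have h3 := (hL.tendsto_ratio hS j).mul h2
  refine tendsto_nhds_unique h1 (h3.congr fun n => ?_)
  have h4 := (hS.len_a_pos (n + j)).ne'
  have h5 := (hS.len_a_pos n).ne'
  rw [len_it]
  field_simp

theorem Limits.pl_up (hS : S.Good) {α : ℝ} (hL : S.Limits α lam) (j k : ℕ) :
    S.pl lam (S.up j k) = α ^ j * S.pl lam k := by
  rw [pl, hS.pre_up, hL.lw_it hS, pl]

theorem Limits.pl_up_add (hS : S.Good) {α : ℝ} (hL : S.Limits α lam) (j k i : ℕ)
    (hi : i ≤ (S.it j [S.X k]).length) :
    S.pl lam (S.up j k + i) = α ^ j * S.pl lam k + lw lam ((S.it j [S.X k]).take i) := by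
  rw [pl, hS.pre_up_add j k i hi, lw_append, hL.lw_it hS, pl]

theorem Limits.pl_one (hS : S.Good) {α : ℝ} (hL : S.Limits α lam) : S.pl lam 1 = 1 := by
  have h := S.pl_succ lam 0
  rw [hS.X_zero, hL.lam_a, pl_zero, zero_add] at h
  simpa using h

theorem Limits.tendsto_pl_atTop (hS : S.Good) {α : ℝ} (hL : S.Limits α lam) (hα : 1 < α) :
    Tendsto (S.pl lam) atTop atTop := by
  refine tendsto_atTop_atTop_of_monotone (pl_mono hL.nonneg) fun b => ?_
  obtain ⟨j, hj⟩ := pow_unbounded_of_one_lt b hα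
  refine ⟨S.up j 1, ?_⟩
  rw [hL.pl_up hS, hL.pl_one hS, mul_one]
  exact hj.le

/-- Every real number `y ≥ 0` lies in a limit block; its letter has positive weight. -/
theorem Limits.exists_block_pl (hS : S.Good) {α : ℝ} (hL : S.Limits α lam) (hα : 1 < α)
    {y : ℝ} (hy : 0 ≤ y) :
    ∃ k, S.pl lam k ≤ y ∧ y < S.pl lam (k + 1) ∧ 0 < lam (S.X k) := by
  have h : ∃ k, y < S.pl lam k := by
    obtain ⟨k, hk⟩ := ((hL.tendsto_pl_atTop hS hα).eventually_gt_atTop y).exists
    exact ⟨k, hk⟩
  classical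
  obtain ⟨hk1, hk2⟩ : y < S.pl lam (Nat.find h) ∧ ∀ j < Nat.find h, ¬ y < S.pl lam j :=
    ⟨Nat.find_spec h, fun j hj => Nat.find_min h hj⟩
  cases hf : Nat.find h with
  | zero => rw [hf, pl_zero] at hk1; linarith
  | succ k =>
    rw [hf] at hk1 hk2
    have h1 := hk2 k (by omega)
    have h2 := S.pl_succ lam k
    refine ⟨k, not_lt.1 h1, hk1, ?_⟩
    linarith [not_lt.1 h1]

theorem Limits.len_le_letter (hS : S.Good) {α : ℝ} (hL : S.Limits α lam) (c : A) :
    ∃ C : ℝ, 0 < C ∧ ∀ n, (S.len n [c] : ℝ) ≤ C * S.len n [S.a] := by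
  obtain ⟨C, hC⟩ := (hL.2.2.2.2 c).bddAbove_range
  refine ⟨|C| + 1, by positivity, fun n => ?_⟩
  have h1 : (S.len n [c] : ℝ) / S.len n [S.a] ≤ C := hC ⟨n, rfl⟩
  have h2 := hS.len_a_pos n
  rw [div_le_iff₀ h2] at h1
  have h3 : C ≤ |C| + 1 := by have := le_abs_self C; linarith
  exact h1.trans (mul_le_mul_of_nonneg_right h3 h2.le)

theorem Limits.len_le [Finite A] (hS : S.Good) {α : ℝ} (hL : S.Limits α lam) :
    ∃ C : ℝ, 0 < C ∧ ∀ n c, (S.len n [c] : ℝ) ≤ C * S.len n [S.a] := by
  have := Fintype.ofFinite A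
  choose C hC0 hC using fun c => hL.len_le_letter hS c
  refine ⟨∑ c, C c + 1, ?_, fun n c => ?_⟩
  · have : 0 ≤ ∑ c, C c := Finset.sum_nonneg fun c _ => (hC0 c).le
    linarith
  · have h1 : C c ≤ ∑ d, C d := Finset.single_le_sum (fun d _ => (hC0 d).le) (Finset.mem_univ c)
    refine (hC c n).trans (mul_le_mul_of_nonneg_right (by linarith) (hS.len_a_pos n).le)

/-- A letter of positive weight has descendants of positive weight. -/
theorem Limits.exists_mem_it (hS : S.Good) {α : ℝ} (hL : S.Limits α lam) {c : A}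
    (hc : 0 < lam c) (j : ℕ) : ∃ d ∈ S.it j [c], 0 < lam d := by
  apply exists_pos_of_lw_pos hL.nonneg
  rw [hL.lw_it hS, lw_single]
  have := hL.one_le
  positivity

/-- An ancestor of a letter of positive weight has positive weight. -/
theorem Limits.pos_of_mem_it (hS : S.Good) {α : ℝ} (hL : S.Limits α lam) {c d : A} {j : ℕ}
    (hd : d ∈ S.it j [c]) (h : 0 < lam d) : 0 < lam c := by
  have h1 := le_lw_of_mem hL.nonneg hd
  rw [hL.lw_it hS, lw_single] at h1
  have h2 : 0 < α ^ j * lam c := by linarith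
  have h3 := hL.one_le
  exact pos_of_mul_pos_right h2 (by positivity)

/-- Ratios of lengths of blocks are eventually close to their limits. -/
theorem Limits.eventually_len (hS : S.Good) {α : ℝ} (hL : S.Limits α lam) (w : List A) {ε : ℝ}
    (hε : 0 < ε) : ∀ᶠ n in atTop, |(S.len n w : ℝ) - lw lam w * S.len n [S.a]| ≤
      ε * S.len n [S.a] := by
  have h := (hL.tendsto_len w).eventually (Metric.ball_mem_nhds _ hε)
  filter_upwards [h] with n hn
  rw [Real.dist_eq] at hn
  have h2 := hS.len_a_pos n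
  have h3 : (S.len n w : ℝ) - lw lam w * S.len n [S.a]
      = ((S.len n w : ℝ) / S.len n [S.a] - lw lam w) * S.len n [S.a] := by
    field_simp
  rw [h3, abs_mul, abs_of_pos h2]
  exact mul_le_mul_of_nonneg_right hn.le h2.le

end ASys

end SUBST
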