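import Pool.Agent.Work.SUBST.Gap
import Pool.Agent.Work.SUBST.LimApi

/-!
# The gap dichotomy for abstract exponential systems (joint J9)
-/

set_option autoImplicit false

namespace SUBST

namespace Gap

open Filter Topology

theorem per_iff_getD {w : List ℕ} {q : ℕ} :
    Per q w ↔ ∀ i, i + q < w.length → w.getD (i + q) 0 = w.getD i 0 := by
  constructor
  · intro h i hi
    rw [List.getD_eq_getElem?_getD, List.getD_eq_getElem?_getD, h i hi]
  · intro h i hi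
    have h1 := h i hi
    have h2 : i < w.length := by omega
    rw [List.getD_eq_getElem _ _ hi, List.getD_eq_getElem _ _ h2] at h1
    rw [List.getElem?_eq_getElem hi, List.getElem?_eq_getElem h2, h1]

variable {A : Type} {S : ASys A}

theorem W_infix {v w : List A} (h : v <:+: w) (n : ℕ) : S.W n v <:+: S.W n w :=
  blk_infix S.σ S.h h n

theorem it_infix {v w : List A} (h : v <:+: w) (n : ℕ) : S.it n v <:+: S.it n w :=
  itw_infix S.σ h n

theorem singleton_infix {c : A} {w : List A} (h : c ∈ w) : [c] <:+: w := by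
  obtain ⟨a, b, hab⟩ := List.append_of_mem h
  exact ⟨a, b, by simp [hab]⟩

theorem W_infix_of_mem {c d : A} {j : ℕ} (h : d ∈ S.it j [c]) (n : ℕ) :
    S.W n [d] <:+: S.W (n + j) [c] := by
  rw [S.W_add]
  exact W_infix (singleton_infix h) n

theorem mem_it_loop {e : A} (he : e ∈ S.σ e) (n : ℕ) : e ∈ S.it n [e] := mem_itw he n

theorem W_infix_loop {e : A} (he : e ∈ S.σ e) {m n : ℕ} (h : m ≤ n) :
    S.W m [e] <:+: S.W n [e] := by
  obtain ⟨j, rfl⟩ := Nat.exists_eq_add_of_le h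
  exact W_infix_of_mem (mem_it_loop he j) m

theorem len_mono_loop {e : A} (he : e ∈ S.σ e) {m n : ℕ} (h : m ≤ n) :
    S.len m [e] ≤ S.len n [e] := (W_infix_loop he h).length_le

/-- the gap theorem for the abstract systems -/
theorem gap_sys [Finite A] {T : ASys A} (hσ : ∀ c, T.σ c ≠ []) (hh : ∀ c, T.h c ≠ []) {e : A}
    {x0 x1 x2 x3 : List A} (he : T.σ e = x0 ++ [e] ++ x1 ++ [e] ++ x2 ++ [e] ++ x3) :
    (∃ q, 1 ≤ q ∧ ∃ m, ∀ n, m ≤ n → Per q (T.W n [e])) ∨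
    (∃ k0, ∀ n, k0 ≤ n → ∀ q, 1 ≤ q → Per q (T.W n [e]) → T.len (n - k0) [e] < 2 * q) :=
  gap hσ hh he

theorem pow_it (p n : ℕ) (w : List A) : (S.pow p).it n w = S.it (p * n) w := by
  induction n generalizing w with
  | zero => rfl
  | succ n ih =>
    rw [(S.pow p).it_succ, ih, Nat.mul_succ, S.it_add]
    congr 1
    exact (S.it_flatMap p w).symm

theorem T_W (r p n : ℕ) (w : List A) : ((S.shift r).pow p).W n w = S.W (r + p * n) w := by
  show (((S.shift r).pow p).it n w).flatMap (S.shift r).h = _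
  rw [pow_it]
  have h1 : (S.shift r).it (p * n) w = S.it (p * n) w := rfl
  rw [h1, S.W_add, S.W_flatMap r (S.it (p * n) w)]
  rfl

/-- Steps for one core letter: bounded period at all levels, or no small period. -/
theorem core_dich [Finite A] (hS : S.Good) {e : A} (hloop : e ∈ S.σ e) {p : ℕ} (hp : 1 ≤ p)
    {x0 x1 x2 x3 : List A} (he : S.it p [e] = x0 ++ [e] ++ x1 ++ [e] ++ x2 ++ [e] ++ x3) :
    (∃ q, 1 ≤ q ∧ ∀ n, Per q (S.W n [e])) ∨
    (∃ D, ∀ n, D ≤ n → ∀ q, 1 ≤ q → Per q (S.W n [e]) → S.len (n - D) [e] < 2 * q) := by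
  classical
  have hr : ∀ r : ℕ, (∃ q, 1 ≤ q ∧ ∃ m, ∀ n, m ≤ n → Per q (S.W (r + p * n) [e])) ∨
      (∃ k0, ∀ n, k0 ≤ n → ∀ q, 1 ≤ q → Per q (S.W (r + p * n) [e]) →
        S.len (r + p * (n - k0)) [e] < 2 * q) := by
    intro r
    have h1 : ∀ c, ((S.shift r).pow p).σ c ≠ [] := fun c => hS.it_ne_nil p (by simp)
    have h2 : ∀ c, ((S.shift r).pow p).h c ≠ [] := fun c => hS.W_ne_nil r (by simp)
    have h3 : ((S.shift r).pow p).σ e = x0 ++ [e] ++ x1 ++ [e] ++ x2 ++ [e] ++ x3 := he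
    rcases gap_sys h1 h2 h3 with ⟨q, hq, m, hm⟩ | ⟨k0, hk0⟩
    · left
      refine ⟨q, hq, m, fun n hn => ?_⟩
      rw [← T_W]
      exact hm n hn
    · right
      refine ⟨k0, fun n hn q hq hP => ?_⟩
      rw [← T_W] at hP
      have := hk0 n hn q hq hP
      rwa [ASys.len, T_W] at this
  by_cases hI : ∃ r, ∃ q, 1 ≤ q ∧ ∃ m, ∀ n, m ≤ n → Per q (S.W (r + p * n) [e])
  · obtain ⟨r, q, hq, m, hm⟩ := hI
    left
    refine ⟨q, hq, fun n => ?_⟩
    refine (hm (max m n) (le_max_left _ _)).factor (W_infix_loop hloop ?_)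
    have : 1 * n ≤ p * max m n := Nat.mul_le_mul hp (le_max_right _ _)
    omega
  · right
    have hII : ∀ r, ∃ k0, ∀ n, k0 ≤ n → ∀ q, 1 ≤ q → Per q (S.W (r + p * n) [e]) →
        S.len (r + p * (n - k0)) [e] < 2 * q :=
      fun r => (hr r).resolve_left fun h => hI ⟨r, h⟩
    choose k hk using hII
    set K := (Finset.range p).sup k with hK
    refine ⟨p * K + p, fun n hn q hq hP => ?_⟩
    set r := n % p with hrdef
    have hrp : r < p := Nat.mod_lt _ hp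
    have hkr : k r ≤ K := Finset.le_sup (Finset.mem_range.2 hrp)
    have hn' : n = r + p * (n / p) := (Nat.mod_add_div n p).symm
    have h1 : K ≤ n / p := by
      have : p * K < p * (n / p + 1) := by rw [Nat.mul_succ]; omega
      exact Nat.lt_succ_iff.1 (Nat.lt_of_mul_lt_mul_left this)
    rw [hn'] at hP
    have h2 := hk r (n / p) (hkr.trans h1) q hq hP
    refine lt_of_le_of_lt (len_mono_loop hloop ?_) h2
    have h3 : p * (n / p - K) ≤ p * (n / p - k r) := Nat.mul_le_mul_left _ (by omega)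
    rw [Nat.mul_sub] at h3
    omega

/-- Top letters reachable from `c`. -/
def Rch (S : ASys A) (lam : A → ℝ) (c : A) : Set A := {d | 0 < lam d ∧ ∃ n, d ∈ S.it n [c]}

theorem Rch_trans {lam : A → ℝ} {c d : A} {n : ℕ} (h : d ∈ S.it n [c]) :
    Rch S lam d ⊆ Rch S lam c := by
  rintro b ⟨hb, m, hm⟩
  exact ⟨hb, m + n, S.mem_it_of_mem h hm⟩

/-- A core letter below every letter of maximal growth. -/
theorem exists_core [Finite A] (hS : S.Good) {α : ℝ} {lam : A → ℝ} (hL : S.Limits α lam)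
    (hα : 1 < α) (hloop : ∀ c n, 1 ≤ n → c ∈ S.it n [c] → c ∈ S.σ c) {c : A} (hc : 0 < lam c) :
    ∃ e j, e ∈ S.it j [c] ∧ 0 < lam e ∧ e ∈ S.σ e ∧ ∃ p, 1 ≤ p ∧ ∃ x0 x1 x2 x3 : List A,
      S.it p [e] = x0 ++ [e] ++ x1 ++ [e] ++ x2 ++ [e] ++ x3 := by
  classical
  have hc0 : c ∈ Rch S lam c := ⟨hc, 0, by simp⟩
  obtain ⟨f, hf, hfmin⟩ := Set.exists_min_image (Rch S lam c) (fun d => (Rch S lam d).ncard)
    (Set.toFinite _) ⟨c, hc0⟩
  obtain ⟨hlf, jf, hjf⟩ := hf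
  have key : ∀ b ∈ Rch S lam f, ∃ n, f ∈ S.it n [b] := by
    rintro b ⟨hb, m, hm⟩
    have hsub : Rch S lam b ⊆ Rch S lam f := Rch_trans hm
    have hbc : b ∈ Rch S lam c := ⟨hb, m + jf, S.mem_it_of_mem hjf hm⟩
    have h1 := hfmin b hbc
    have h2 : Rch S lam b = Rch S lam f :=
      Set.eq_of_subset_of_ncard_le hsub h1 (Set.toFinite _)
    have h3 : f ∈ Rch S lam f := ⟨hlf, 0, by simp⟩
    rw [← h2] at h3
    exact h3.2
  -- `f` is recurrent
  have hfσ : f ∈ S.σ f := by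
    obtain ⟨b, hb, hlb⟩ := hL.exists_mem_it hS hlf 1
    obtain ⟨n, hn⟩ := key b ⟨hlb, 1, hb⟩
    exact hloop f (n + 1) (by omega) (S.mem_it_of_mem hb hn)
  obtain ⟨x, y, hxy⟩ := List.append_of_mem hfσ
  have hσ1 : S.it 1 [f] = x ++ [f] ++ y := by
    rw [S.it_one, S.ap_single, hxy]; simp
  -- another letter of maximal growth
  obtain ⟨b, hbxy, hlb⟩ : ∃ b, (b ∈ x ∨ b ∈ y) ∧ 0 < lam b := by
    have h1 := hL.lw_it hS 1 [f]
    rw [hσ1, ASys.lw_append, ASys.lw_append, ASys.lw_single, pow_one] at h1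
    have h2 : 0 < lw lam x ∨ 0 < lw lam y := by
      by_contra hcon
      push Not at hcon
      nlinarith [hcon.1, hcon.2]
    rcases h2 with h2 | h2
    · obtain ⟨b, hb, hlb⟩ := ASys.exists_pos_of_lw_pos hL.nonneg h2
      exact ⟨b, Or.inl hb, hlb⟩
    · obtain ⟨b, hb, hlb⟩ := ASys.exists_pos_of_lw_pos hL.nonneg h2
      exact ⟨b, Or.inr hb, hlb⟩
  have hb1 : b ∈ S.it 1 [f] := by
    rw [hσ1]
    rcases hbxy with h | h <;> simp [h]
  obtain ⟨j, hj⟩ := key b ⟨hlb, 1, hb1⟩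
  have hfj : f ∈ S.it j [f] := mem_it_loop hfσ j
  obtain ⟨s, t, hst⟩ := List.append_of_mem hfj
  -- two occurrences
  obtain ⟨u, v, w, huvw⟩ : ∃ u v w, S.it (j + 1) [f] = u ++ [f] ++ v ++ [f] ++ w := by
    have h0 : S.it (j + 1) [f] = S.it j x ++ (s ++ [f] ++ t) ++ S.it j y := by
      rw [S.it_add, hσ1, S.it_append, S.it_append, hst]; simp
    rcases hbxy with h | h
    · have hfx : f ∈ S.it j x := by
        have := S.mem_it_of_mem (m := 0) (w := x) (by simpa using h) hj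
        simpa using this
      obtain ⟨s', t', h'⟩ := List.append_of_mem hfx
      refine ⟨s', t' ++ s, t ++ S.it j y, ?_⟩
      rw [h0, h']
      simp [List.append_assoc]
    · have hfy : f ∈ S.it j y := by
        have := S.mem_it_of_mem (m := 0) (w := y) (by simpa using h) hj
        simpa using this
      obtain ⟨s', t', h'⟩ := List.append_of_mem hfy
      refine ⟨S.it j x ++ s, t ++ s', t', ?_⟩
      rw [h0, h']
      simp [List.append_assoc]
  set P := j + 1 with hP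
  refine ⟨f, jf, hjf, hlf, hfσ, P + P, by omega, S.it P u ++ u, v, w ++ S.it P v ++ u,
    v ++ [f] ++ w ++ S.it P w, ?_⟩
  rw [S.it_add, huvw]
  simp only [S.it_append]
  rw [huvw]
  simp [List.append_assoc]

/-- **Joint J9** (gap dichotomy). -/
theorem gap_or [Finite A] (hS : S.Good) {α : ℝ} {lam : A → ℝ} (hL : S.Limits α lam)
    (hα : 1 < α) (hloop : ∀ c n, 1 ≤ n → c ∈ S.it n [c] → c ∈ S.σ c) :
    (∃ c, 0 < lam c ∧ ∃ q, 1 ≤ q ∧ ∀ n, Per q (S.W n [c])) ∨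
    (∃ ε : ℝ, 0 < ε ∧ ∃ n1 : ℕ, ∀ n, n1 ≤ n → ∀ c, 0 < lam c → ∀ q : ℕ, 1 ≤ q →
      Per q (S.W n [c]) → ε * S.len n [c] ≤ q) := by
  classical
  by_cases hI : ∃ c, 0 < lam c ∧ ∃ q, 1 ≤ q ∧ ∀ n, Per q (S.W n [c])
  · exact Or.inl hI
  right
  obtain ⟨C, hC0, hC⟩ := hL.len_le hS
  have hone : ∀ c : A, ∃ (ε : ℝ) (n1 : ℕ), 0 < ε ∧ ∀ n, n1 ≤ n → 0 < lam c → ∀ q : ℕ, 1 ≤ q →
      Per q (S.W n [c]) → ε * S.len n [c] ≤ q := by
    intro c
    by_cases hc : 0 < lam c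
    swap
    · exact ⟨1, 0, one_pos, fun n _ h => absurd h hc⟩
    obtain ⟨e, j, hej, hle, heσ, p, hp, x0, x1, x2, x3, hx⟩ := exists_core hS hL hα hloop hc
    rcases core_dich hS heσ hp hx with ⟨q, hq, hper⟩ | ⟨D, hD⟩
    · exact absurd ⟨e, hle, q, hq, hper⟩ hI
    -- asymptotics
    set J := D + j with hJ
    have hα0 : (0 : ℝ) < α ^ J + 1 := by positivity
    have e1 : ∀ᶠ n in atTop, lam e / 2 < (S.len n [e] : ℝ) / S.len n [S.a] :=
      (hL.2.2.2.2 e).eventually_const_lt (by linarith)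
    have e2 : ∀ᶠ n in atTop, (S.len (n + J) [S.a] : ℝ) / S.len n [S.a] < α ^ J + 1 :=
      (hL.tendsto_ratio hS J).eventually_lt_const (by linarith)
    obtain ⟨n0, hn0⟩ := eventually_atTop.1 (e1.and e2)
    refine ⟨lam e / 2 / (2 * C * (α ^ J + 1)), n0 + J, by positivity, ?_⟩
    intro n hn _ q hq hP
    have h1 : Per q (S.W (n - j) [e]) := by
      refine hP.factor ?_
      have := W_infix_of_mem (S := S) hej (n - j)
      rwa [Nat.sub_add_cancel (by omega)] at this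
    have h2 := hD (n - j) (by omega) q hq h1
    have h3 : n - j - D = n - J := by omega
    rw [h3] at h2
    obtain ⟨h4, h5⟩ := hn0 (n - J) (by omega)
    rw [Nat.sub_add_cancel (by omega)] at h5
    have hs := hS.len_a_pos (n - J)
    rw [lt_div_iff₀ hs] at h4
    rw [div_lt_iff₀ hs] at h5
    have h6 := hC n c
    have h2' : (S.len (n - J) [e] : ℝ) < 2 * q := by exact_mod_cast h2
    have h7 : (S.len n [c] : ℝ) ≤ C * ((α ^ J + 1) * S.len (n - J) [S.a]) :=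
      h6.trans (mul_le_mul_of_nonneg_left h5.le hC0.le)
    have h8 : lam e / 2 * (S.len n [c] : ℝ) ≤ q * (2 * C * (α ^ J + 1)) := by
      calc lam e / 2 * (S.len n [c] : ℝ)
          ≤ lam e / 2 * (C * ((α ^ J + 1) * S.len (n - J) [S.a])) :=
            mul_le_mul_of_nonneg_left h7 (by positivity)
        _ = C * (α ^ J + 1) * (lam e / 2 * S.len (n - J) [S.a]) := by ring
        _ ≤ C * (α ^ J + 1) * (2 * q) :=
            mul_le_mul_of_nonneg_left (h4.le.trans h2'.le) (by positivity)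
        _ = q * (2 * C * (α ^ J + 1)) := by ring
    rw [div_mul_eq_mul_div, div_le_iff₀ (by positivity)]
    exact h8
  choose ε n1 hε0 hε using hone
  have : Nonempty A := ⟨S.a⟩
  obtain ⟨c0, hc0⟩ := Finite.exists_min ε
  obtain ⟨c1, hc1⟩ := Finite.exists_max n1
  refine ⟨ε c0, hε0 c0, n1 c1, fun n hn c hc q hq hP => ?_⟩
  refine le_trans ?_ (hε c n ((hc1 c).trans hn) hc q hq hP)
  exact mul_le_mul_of_nonneg_right (hc0 c) (Nat.cast_nonneg _)

end Gap

open Gap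

/-- **Joint J9** (gap dichotomy), unfolded form: case I (a letter of maximal growth with a bounded
period) or case II (no small periods). -/
theorem ASys.gapJ {A : Type} [Finite A] {S : ASys A} (hS : S.Good) {α : ℝ} {lam : A → ℝ}
    (hL : S.Limits α lam) (hα : 1 < α) (hloop : ∀ c n, 1 ≤ n → c ∈ S.it n [c] → c ∈ S.σ c) :
    (∃ c, 0 < lam c ∧ ∃ q, 1 ≤ q ∧ ∀ n, ∀ i, i + q < (S.W n [c]).length →
      (S.W n [c]).getD (i + q) 0 = (S.W n [c]).getD i 0) ∨
    (∃ ε : ℝ, 0 < ε ∧ ∃ n1 : ℕ, ∀ n, n1 ≤ n → ∀ c, 0 < lam c → ∀ q : ℕ, 1 ≤ q →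
      (∀ i, i + q < (S.W n [c]).length → (S.W n [c]).getD i 0 = (S.W n [c]).getD (i + q) 0) →
      ε * S.len n [c] ≤ q) := by
  rcases gap_or hS hL hα hloop with ⟨c, hc, q, hq, h⟩ | ⟨ε, hε, n1, h⟩
  · exact Or.inl ⟨c, hc, q, hq, fun n => per_iff_getD.1 (h n)⟩
  · refine Or.inr ⟨ε, hε, n1, fun n hn c hc q hq hP => h n hn c hc q hq ?_⟩
    exact per_iff_getD.2 fun i hi => (hP i hi).symm

/-- Loop normalisation: after a power (and all multiples of it) every recurrent letter occurs in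
its image. -/
theorem ASys.exists_loops {A : Type} [Finite A] (S : ASys A) : ∃ p, 1 ≤ p ∧ ∀ k, 1 ≤ k →
    ∀ c n, 1 ≤ n → c ∈ (S.pow (p * k)).it n [c] → c ∈ (S.pow (p * k)).σ c := by
  classical
  have := Fintype.ofFinite A
  have h : ∀ c : A, ∃ N, 1 ≤ N ∧ ((∃ n, 1 ≤ n ∧ c ∈ S.it n [c]) → c ∈ S.it N [c]) := by
    intro c
    by_cases h : ∃ n, 1 ≤ n ∧ c ∈ S.it n [c]
    · obtain ⟨n, h1, h2⟩ := h
      exact ⟨n, h1, fun _ => h2⟩
    · exact ⟨1, le_rfl, fun h' => absurd h' h⟩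
  choose N hN1 hN using h
  refine ⟨∏ c, N c, Finset.one_le_prod' fun c _ => hN1 c, fun k hk c n hn hc => ?_⟩
  have hprod : 1 ≤ ∏ c, N c := Finset.one_le_prod' fun c _ => hN1 c
  rw [Gap.pow_it] at hc
  have h1 : c ∈ S.it (N c) [c] := hN c ⟨_, Nat.mul_pos (Nat.mul_pos hprod hk) hn, hc⟩
  have h2 : ∀ i, c ∈ S.it (N c * i) [c] := by
    intro i
    induction i with
    | zero => simp
    | succ i ih =>
      rw [Nat.mul_succ]
      exact S.mem_it_of_mem h1 ih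
  have h3 : N c ∣ (∏ c, N c) * k := (Finset.dvd_prod_of_mem N (Finset.mem_univ c)).mul_right k
  obtain ⟨i, hi⟩ := h3
  show c ∈ S.it ((∏ c, N c) * k) [c]
  rw [hi]
  exact h2 i

end SUBST
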