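import Pool.Agent.Work.SUBST.Poly2

/-!
# Polynomial growth, part 3: a sparse factor exists
-/

set_option autoImplicit false

namespace SUBST

namespace Sp

variable {A : Type} [DecidableEq A]

/-! ### lengths of the levels -/

/-- bounded levels are eventually periodic -/
theorem levels_tend [Finite A] {S : ASys A} (h : PS S) {c : A} (hb : bet S c ≠ [])
    (hu : ¬ UPw (ray S c)) (K : ℕ) : ∃ n0, ∀ n, n0 ≤ n → K ≤ (S.W n (bet S c)).length := by
  have hmono : Monotone fun n => (S.it n (bet S c)).length :=
    monotone_nat_of_le_succ fun n => length_it_le h.ne n _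
  by_contra hc
  push Not at hc
  -- the lengths of the iterates are bounded by `K`
  have hlt : ∀ n, (S.it n (bet S c)).length < K := by
    intro n
    obtain ⟨m, h1, h2⟩ := hc n
    exact lt_of_le_of_lt ((hmono h1).trans (length_W_ge h.hne m _)) h2
  -- two equal iterates
  have hfin : {l : List A | l.length < K}.Finite := List.finite_length_lt A K
  obtain ⟨n, m, hne, he⟩ : ∃ n m, n ≠ m ∧ S.it n (bet S c) = S.it m (bet S c) := by
    by_contra hno
    push Not at hno
    have hinj : Function.Injective fun n => S.it n (bet S c) := fun a b hab => by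
      by_contra hab'
      exact hno a b hab' hab
    exact Set.infinite_range_of_injective hinj (hfin.subset (by
      rintro _ ⟨n, rfl⟩
      exact hlt n))
  wlog hnm : n < m generalizing n m
  · exact this m n hne.symm he.symm (by omega)
  refine hu (level_up' (T := ray S c) (s := fun n => (PR S c n).length)
    (L := fun n => S.W n (bet S c)) rfl (fun n => ?_) (fun n => seg_level h hb n)
    (fun n => List.length_pos_iff.1 (W_pos h hb n)) ⟨n, m - n, by omega, fun k hk => ?_⟩)
  · change (PR S c n ++ S.W n (bet S c)).length = _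
    rw [List.length_append]
  · obtain ⟨j, rfl⟩ := Nat.exists_eq_add_of_le hk
    change S.W (n + j + (m - n)) (bet S c) = S.W (n + j) (bet S c)
    rw [show n + j + (m - n) = j + m by omega, show n + j = j + n by omega, W_add, W_add, he]

theorem ray_bounded [Finite A] {S : ASys A} (h : PS S) {c : A} (hb : bet S c ≠ []) :
    ∃ B, ∀ i, ray S c i < B := by
  have h1 : ∃ B, ∀ b : A, ∀ x ∈ S.h b, x < B := by
    have hfin : (Set.range S.h).Finite := Set.finite_range _
    have h2 : (⋃ l ∈ Set.range S.h, {x | x ∈ l}).Finite :=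
      hfin.biUnion fun l _ => List.finite_toSet l
    obtain ⟨B, hB⟩ := h2.bddAbove
    refine ⟨B + 1, fun b x hx => Nat.lt_succ_of_le (hB ?_)⟩
    exact Set.mem_biUnion (Set.mem_range_self b) hx
  obtain ⟨B, hB⟩ := h1
  refine ⟨B, fun i => ?_⟩
  have hi : i < (PR S c (i + 1)).length := lt_of_lt_of_le (Nat.lt_succ_self i) (PR_len h hb _)
  rw [ray_eq h hb hi]
  have h3 : ∀ n, ∀ x ∈ PR S c n, x < B := by
    intro n
    induction n with
    | zero => intro x hx; exact absurd hx (by simp [PR])
    | succ n ih =>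
      intro x hx
      rcases List.mem_append.1 hx with hx | hx
      · exact ih x hx
      · unfold ASys.W at hx
        obtain ⟨b, _, hb2⟩ := List.mem_flatMap.1 hx
        exact hB b x hb2
  exact h3 _ _ (List.getElem_mem hi)

/-! ### the relation between rays -/

/-- every initial piece of the first ray occurs infinitely often in the second one -/
def Lt (S : ASys A) (t t' : Bool × A) : Prop :=
  ∀ k, IOc (rayt S t') (sgn (xor t'.1 t.1) (seg (rayt S t) 0 k))

theorem Lt.trans {S : ASys A} {t1 t2 t3 : Bool × A} (h1 : Lt S t1 t2) (h2 : Lt S t2 t3) :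
    Lt S t1 t3 := by
  intro k
  obtain ⟨i, -, hi⟩ := h1 k 0
  rw [length_sgn, length_seg] at hi
  have h3 : sgn (xor t2.1 t1.1) (seg (rayt S t1) 0 k) <:+: seg (rayt S t2) 0 (i + k) := by
    rw [seg_add, zero_add, hi]
    exact (List.suffix_append _ _).isInfix
  have h4 := IOc_infix (h2 (i + k)) (sgn_infix (e := xor t3.1 t2.1) h3)
  rw [sgn_sgn] at h4
  have e : xor (xor t3.1 t2.1) (xor t2.1 t1.1) = xor t3.1 t1.1 := by
    rcases t1.1 <;> rcases t2.1 <;> rcases t3.1 <;> rfl
  rwa [e] at h4

theorem Lt.up {S : ASys A} {t1 t2 : Bool × A} (h1 : Lt S t1 t2) (h2 : UPw (rayt S t2)) :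
    UPw (rayt S t1) := by
  obtain ⟨p, hp, hf⟩ := windows_of_UPw h2
  refine ⟨0, p, hp, fun k _ => ?_⟩
  have h3 := hf _ (h1 (k + p + 1))
  rw [length_sgn, length_seg] at h3
  have hg : ∀ j, j < k + p + 1 → (seg (rayt S t1) 0 (k + p + 1)).getD j 0 = rayt S t1 j := by
    intro j hj
    rw [List.getD_eq_getElem _ _ (by rwa [length_seg])]
    simp [seg]
  rcases hx : xor t2.1 t1.1 with _ | _
  · rw [hx] at h3
    have := h3 k (by omega)
    rw [sgn_false, hg k (by omega), hg (k + p) (by omega)] at this
    exact this.symm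
  · rw [hx] at h3
    have := h3 0 (by omega)
    rw [sgn_true] at this
    have hr : ∀ j, j < k + p + 1 → (seg (rayt S t1) 0 (k + p + 1)).reverse.getD j 0 =
        rayt S t1 (k + p - j) := by
      intro j hj
      rw [List.getD_eq_getElem _ _ (by rw [List.length_reverse, length_seg]; exact hj),
        List.getElem_reverse]
      simp only [length_seg]
      have e : k + p + 1 - 1 - j = k + p - j := by omega
      simp [seg, e]
    rw [hr 0 (by omega), hr (0 + p) (by omega)] at this
    rw [show k + p - 0 = k + p by omega, show k + p - (0 + p) = k by omega] at this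
    exact this

/-- the claim for one letter -/
def Clm (S : ASys A) (c : A) : Prop :=
  c ∈ S.σ c → bet S c ≠ [] → ¬ UPw (ray S c) →
    ∃ f, f ≠ [] ∧ IOc (ray S c) f ∧ ∃ C, ∀ n, cnt f (S.W n (bet S c)) ≤ C

theorem claim_step [Finite A] {S : ASys A} (h : PS S) {c : A}
    (ih : ∀ d, Blw S d c → Clm S d ∧ Clm (rev S) d) : Clm S c := by
  intro hc hb hu
  by_contra hno
  have hno' : ∀ f, f ≠ [] → IOc (ray S c) f → ∀ C, ∃ n, C < cnt f (S.W n (bet S c)) := by
    intro f h1 h2 C
    by_contra h3
    push Not at h3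
    exact hno ⟨f, h1, h2, C, h3⟩
  have hblw : ∀ t, TT S c t → Blw S t.2 c := by
    rintro ⟨e, d⟩ ⟨-, -, b, h1, h2⟩
    have h3 := blw_bet h hc h1
    exact ⟨h3.1.trans h2, fun h4 => h3.2 (h2.trans h4)⟩
  -- successors
  have hsucc : ∀ t, TT S c t → ∃ t', TT S c t' ∧ Lt S t t' := by
    intro t ht
    have h1 : ∀ k : ℕ, ∃ t', TT S c t' ∧
        IOc (rayt S t') (sgn (xor t'.1 t.1) (seg (rayt S t) 0 (k + 1))) := by
      intro k
      have h2 : sgn t.1 (seg (rayt S t) 0 (k + 1)) ≠ [] := by
        apply sgn_ne_nil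
        intro h3
        have := congrArg List.length h3
        rw [length_seg] at this
        simp at this
      obtain ⟨t', a1, a2⟩ := exists_ray h h2 (hno' _ h2 (io_above h hb ht (k + 1)))
      rw [sgn_sgn] at a2
      exact ⟨t', a1, a2⟩
    choose g g1 g2 using h1
    obtain ⟨t', ht'⟩ := Finite.exists_infinite_fiber g
    have hinf : (g ⁻¹' {t'}).Infinite := Set.infinite_coe_iff.1 ht'
    obtain ⟨k0, hk0⟩ := hinf.nonempty
    refine ⟨t', by rw [← (show g k0 = t' from hk0)]; exact g1 k0, fun k => ?_⟩
    obtain ⟨m, hm, hlt⟩ := hinf.exists_gt k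
    have h4 := g2 m
    rw [show g m = t' from hm] at h4
    refine IOc_infix h4 (sgn_infix ?_)
    exact (seg_prefix _ _ (by omega)).isInfix
  by_cases hall : ∀ t, TT S c t → UPw (rayt S t)
  · -- all rays ultimately periodic
    have hper : ∀ t, ∃ p, 1 ≤ p ∧ (TT S c t → ∀ f, IOc (rayt S t) f → ∀ j, j + p < f.length →
        f.getD j 0 = f.getD (j + p) 0) := by
      intro t
      by_cases ht : TT S c t
      · obtain ⟨p, h1, h2⟩ := windows_of_UPw (hall t ht)
        exact ⟨p, h1, fun _ => h2⟩
      · exact ⟨1, le_rfl, fun h => absurd h ht⟩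
    choose p p1 p2 using hper
    have hfin : (Set.univ : Set (Bool × A)).Finite := Set.finite_univ
    set Q := ∏ t ∈ hfin.toFinset, p t with hQ
    have hQ1 : 1 ≤ Q := Finset.one_le_prod'' (fun t => p1 t)
    obtain ⟨B, hB⟩ := ray_bounded h hb
    refine hu (UPw_of_windows' ⟨B, hB⟩ hQ1 fun f hf hlen => ?_)
    have hf0 : f ≠ [] := by
      rintro rfl
      simp at hlen
    obtain ⟨t, a1, a2⟩ := exists_ray h hf0 (hno' f hf0 hf)
    obtain ⟨r, hr⟩ : p t ∣ Q := Finset.dvd_prod_of_mem _ (by simp)
    have h3 := p2 t a1 _ a2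
    rw [length_sgn, hlen] at h3
    have h4 : ∀ i, i ≤ r → (sgn t.1 f).getD 0 0 = (sgn t.1 f).getD (p t * i) 0 := by
      intro i
      induction i with
      | zero => intro _; rw [mul_zero]
      | succ i ih2 =>
        intro hi
        rw [ih2 (by omega)]
        have h5 : p t * (i + 1) ≤ p t * r := Nat.mul_le_mul_left _ hi
        have h6 := h3 (p t * i) (by rw [hr]; rw [mul_add, mul_one] at h5; omega)
        rw [h6, mul_add, mul_one]
    have h5 := h4 r le_rfl
    rw [← hr] at h5
    rcases hx : t.1 with _ | _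
    · rw [hx] at h5
      exact h5
    · rw [hx, sgn_true] at h5
      rw [List.getD_eq_getElem _ _ (by rw [List.length_reverse]; omega),
        List.getD_eq_getElem _ _ (by rw [List.length_reverse]; omega), List.getElem_reverse,
        List.getElem_reverse] at h5
      rw [List.getD_eq_getElem _ _ (by omega), List.getD_eq_getElem _ _ (by omega)]
      have e1 : f.length - 1 - 0 = Q := by omega
      have e2 : f.length - 1 - Q = 0 := by omega
      simp only [e1, e2] at h5
      exact h5.symm
  · -- a ray which is not ultimately periodic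
    push Not at hall
    obtain ⟨t0, ht0, hu0⟩ := hall
    have hsucc' : ∀ t : {t // TT S c t ∧ ¬ UPw (rayt S t)},
        ∃ t' : {t // TT S c t ∧ ¬ UPw (rayt S t)}, Lt S t.1 t'.1 := by
      rintro ⟨t, ht, htu⟩
      obtain ⟨t', a1, a2⟩ := hsucc t ht
      exact ⟨⟨t', a1, fun h1 => htu (a2.up h1)⟩, a2⟩
    choose s hs using hsucc'
    -- iterate
    obtain ⟨i, j, hne, hij⟩ := Finite.exists_ne_map_eq_of_infinite
      fun n : ℕ => s^[n] ⟨t0, ht0, hu0⟩
    wlog hlt : i < j generalizing i j
    · exact this j i hne.symm hij.symm (by omega)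
    set y := s^[i] ⟨t0, ht0, hu0⟩ with hy
    have hit : ∀ n, Lt S y.1 (s^[n + 1] y).1 := by
      intro n
      induction n with
      | zero => exact hs y
      | succ n ih3 =>
        have h1 := hs (s^[n + 1] y)
        rw [← Function.iterate_succ_apply' s (n + 1) y] at h1
        exact ih3.trans h1
    have hyy : Lt S y.1 y.1 := by
      have h1 := hit (j - i - 1)
      rw [hy, ← Function.iterate_add_apply, show j - i - 1 + 1 + i = j by omega] at h1
      have h2 : s^[j] ⟨t0, ht0, hu0⟩ = s^[i] ⟨t0, ht0, hu0⟩ := hij.symm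
      rw [h2] at h1
      exact h1
    obtain ⟨⟨e, d⟩, hty, huy⟩ := y
    have hI : Clm (Sy e S) d := by
      have := ih d (hblw _ hty)
      cases e
      · exact this.1
      · exact this.2
    have hdd : d ∈ (Sy e S).σ d := (sig_sy e).2 hty.1
    have hbd : bet (Sy e S) d ≠ [] := hty.2.1
    obtain ⟨f, f0, f1, C, f2⟩ := hI hdd hbd huy
    have hPSe := h.sy e
    obtain ⟨K, hK⟩ := exists_lt_cnt f1 f0 (2 * C + f.length)
    obtain ⟨N, hN⟩ := level_bound (T := ray (Sy e S) d) (s := fun n => (PR (Sy e S) d n).length)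
      (L := fun n => (Sy e S).W n (bet (Sy e S) d)) rfl (fun n => by
        change (PR (Sy e S) d n ++ (Sy e S).W n (bet (Sy e S) d)).length = _
        rw [List.length_append]) (fun n => seg_level hPSe hbd n)
      (levels_tend hPSe hbd huy) f2 K
    obtain ⟨i', hi1, hi2⟩ := hyy K N
    have e0 : xor e e = false := by cases e <;> rfl
    simp only [e0, sgn_false, length_seg] at hi2
    have h5 := hN i' hi1
    have h6 : seg (ray (Sy e S) d) i' K = seg (ray (Sy e S) d) 0 K := hi2
    rw [h6] at h5
    omega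

theorem claim [Finite A] {S : ASys A} (h : PS S) (c : A) : Clm S c := by
  have key : ∀ c, Clm S c ∧ Clm (rev S) c := by
    intro c
    induction c using (blw_wf S).induction with
    | _ c ih =>
    refine ⟨claim_step h ih, claim_step h.rev fun d hd => ?_⟩
    have := ih d (blw_rev.1 hd)
    rw [rev_rev]
    exact this.symm
  exact (key c).1

end Sp

end SUBST
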