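import Pool.Agent.Work.SUBST.Api
import Pool.Agent.Work.SUBST.Poly3

/-!
# Polynomial growth: a sparse factor exists
-/

set_option autoImplicit false

namespace SUBST

namespace Sp

variable {A : Type}

theorem pow_ap (S : ASys A) (p : ℕ) (w : List A) : (S.pow p).ap w = S.it p w :=
  (S.it_flatMap p w).symm

theorem pow_it (S : ASys A) (p n : ℕ) (w : List A) : (S.pow p).it n w = S.it (p * n) w := by
  induction n generalizing w with
  | zero => rfl
  | succ n ih => rw [it_s, ih, pow_ap, ← it_add, mul_add, mul_one]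

theorem pow_W (S : ASys A) (p n : ℕ) (w : List A) : (S.pow p).W n w = S.W (p * n) w := by
  unfold ASys.W
  rw [pow_it]
  rfl

theorem mem_it_mul {S : ASys A} {c : A} {r : ℕ} (h : c ∈ S.it r [c]) (k : ℕ) :
    c ∈ S.it (r * k) [c] := by
  induction k with
  | zero => simp [it_zero]
  | succ k ih =>
    rw [mul_add, mul_one]
    exact mem_it_trans h ih

/-- a power in which all recurrent letters reproduce themselves at once -/
theorem exists_pow [Fintype A] (S : ASys A) : ∃ p, 1 ≤ p ∧
    ∀ c, (∃ n, 1 ≤ n ∧ c ∈ S.it n [c]) → c ∈ S.it p [c] := by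
  have h1 : ∀ c, ∃ r, 1 ≤ r ∧ ((∃ n, 1 ≤ n ∧ c ∈ S.it n [c]) → c ∈ S.it r [c]) := by
    intro c
    by_cases h : ∃ n, 1 ≤ n ∧ c ∈ S.it n [c]
    · obtain ⟨n, h2, h3⟩ := h
      exact ⟨n, h2, fun _ => h3⟩
    · exact ⟨1, le_rfl, fun h2 => absurd h2 h⟩
  choose r r1 r2 using h1
  refine ⟨∏ c, r c, Finset.one_le_prod'' (fun c => r1 c), fun c hc => ?_⟩
  obtain ⟨k, hk⟩ : r c ∣ ∏ c, r c := Finset.dvd_prod_of_mem _ (Finset.mem_univ c)
  rw [hk]
  exact mem_it_mul (r2 c hc) k

theorem PS_pow {S : ASys A} (hG : S.Good) (hP : S.PolyS) {p : ℕ} (hp : 1 ≤ p)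
    (h : ∀ c, (∃ n, 1 ≤ n ∧ c ∈ S.it n [c]) → c ∈ S.it p [c]) : PS (S.pow p) where
  ne c := hG.it_ne_nil p (List.cons_ne_nil c [])
  hne c := hG.hne c
  poly c n u v w := by
    rw [pow_it]
    exact hP c (p * n) u v w
  self c hc := by
    obtain ⟨n, h1, h2⟩ := hc
    rw [pow_it] at h2
    exact h c ⟨p * n, Nat.mul_pos hp h1, h2⟩

variable [DecidableEq A]

theorem bet_start {S : ASys A} (h : PS S) {u : List A} (hu : S.σ S.a = S.a :: u) :
    bet S S.a = u ∧ bet (rev S) S.a = [] := by
  refine ⟨bet_eq (u := []) hu (by simp), ?_⟩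
  have h1 := (not_mem_of_poly h.poly (u := []) (v := u) hu).2
  refine bet_eq (u := u.reverse) ?_ (by simpa using h1)
  change (S.σ S.a).reverse = _
  rw [hu]
  simp

end Sp

open Sp

/-- A system of polynomial growth whose word is not ultimately periodic has a sparse factor. -/
theorem poly_sparse {A : Type} [Fintype A] [DecidableEq A] {S : ASys A} {x : ℕ → ℕ}
    (hG : S.Good) (hx : S.IsWord x) (hP : S.PolyS) (hu : ¬ UPw x) : ∃ f, Sparse x f := by
  obtain ⟨p, hp, hself⟩ := exists_pow S
  have h := PS_pow hG hP hp hself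
  set S' := S.pow p with hS'
  -- the start letter
  obtain ⟨u, hu1, hu2⟩ : ∃ u, u ≠ [] ∧ S'.σ S.a = S.a :: u := by
    obtain ⟨u, hu⟩ := hG.it_prefix_le (Nat.zero_le p)
    rw [ASys.it_zero] at hu
    refine ⟨u, ?_, ?_⟩
    · rintro rfl
      have h1 := hG.lt_it_length p
      rw [← hu] at h1
      simp only [List.append_nil, List.length_singleton] at h1
      omega
    · change S.it p [S.a] = _
      rw [← hu]
      rfl
  obtain ⟨hb1, hb2⟩ := bet_start h (S := S') hu2
  change bet S' S.a = u at hb1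
  change bet (rev S') S.a = [] at hb2
  have hb : bet S' S.a ≠ [] := by rw [hb1]; exact hu1
  have ha : S.a ∈ S'.σ S.a := by rw [hu2]; exact List.mem_cons_self
  have hPR : ∀ n, PR (rev S') S.a n = [] := by
    intro n
    induction n with
    | zero => rfl
    | succ n ih =>
      change PR (rev S') S.a n ++ (rev S').W n (bet (rev S') S.a) = []
      rw [ih, hb2, W_nil]
      rfl
  -- the ray is a tail of the word
  set L := (S.h S.a).length with hL
  have hW : ∀ n, S.h S.a ++ PR S' S.a n = seg x 0 (L + (PR S' S.a n).length) := by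
    intro n
    have h1 := W_eq h ha n
    rw [hPR, pow_W, hx] at h1
    have h2 : S.len (p * n) [S.a] = L + (PR S' S.a n).length := by
      have := congrArg List.length h1
      simpa [hS', ASys.pow] using this
    rw [h2] at h1
    have h3 : seg x 0 (L + (PR S' S.a n).length) =
        (List.range (L + (PR S' S.a n).length)).map x := by
      unfold seg
      simp
    rw [h3, h1]
    rfl
  have hray : ∀ i, ray S' S.a i = x (L + i) := by
    intro i
    have h1 : i < (PR S' S.a (i + 1)).length :=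
      lt_of_lt_of_le (Nat.lt_succ_self i) (PR_len h hb _)
    rw [ray_eq h hb h1]
    have h2 := hW (i + 1)
    rw [seg_add, zero_add] at h2
    have h3 := (List.append_inj h2 (by rw [length_seg])).2
    have h4 : (PR S' S.a (i + 1))[i] =
        (seg x L (PR S' S.a (i + 1)).length)[i]'(by rwa [length_seg]) := by
      congr 1
    rw [h4]
    simp [seg]
  have hu' : ¬ UPw (ray S' S.a) := by
    rintro ⟨N, q, hq, hper⟩
    refine hu ⟨L + N, q, hq, fun k hk => ?_⟩
    obtain ⟨j, rfl⟩ := Nat.exists_eq_add_of_le (show L ≤ k by omega)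
    rw [add_assoc, ← hray, ← hray]
    exact hper j (by omega)
  obtain ⟨f, f0, f1, C, f2⟩ := claim h S.a ha hb hu'
  have hlev := level_bound (T := ray S' S.a) (s := fun n => (PR S' S.a n).length)
    (L := fun n => S'.W n (bet S' S.a)) rfl (fun n => by
      change (PR S' S.a n ++ S'.W n (bet S' S.a)).length = _
      rw [List.length_append]) (fun n => seg_level h hb n) (levels_tend h hb hu') f2
  have hseg : ∀ i K, seg (ray S' S.a) i K = seg x (L + i) K := by
    intro i K
    unfold seg
    refine List.map_congr_left fun j _ => ?_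
    rw [hray, add_assoc]
  refine ⟨f, f0, fun N => ?_, 2 * C + f.length, fun K => ?_⟩
  · obtain ⟨i, h1, h2⟩ := f1 N
    exact ⟨L + i, by omega, by rw [← hseg]; exact h2⟩
  · obtain ⟨N, hN⟩ := hlev K
    refine ⟨L + N, fun i hi => ?_⟩
    obtain ⟨j, rfl⟩ := Nat.exists_eq_add_of_le (show L ≤ i by omega)
    rw [← hseg]
    exact hN j (by omega)

end SUBST
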