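import Pool.Agent.Work.SUBST.Sep

/-!
# Finitely many limit ratios (case II)
-/

set_option autoImplicit false

open Filter Topology

namespace SUBST

variable {A B : Type} {S : ASys A} {T : ASys B} {α β : ℝ} {lam : A → ℝ} {mu : B → ℝ}

/-- Letters of maximal growth occur arbitrarily far. -/
theorem exists_max_ge (hS : S.Good) (hLS : S.Limits α lam) (hα : 1 < α) (N : ℕ) :
    ∃ k, N ≤ k ∧ 0 < lam (S.X k) := by
  obtain ⟨k, h1, h2, h3⟩ := hLS.exists_block_pl hS hα (y := S.pl lam N)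
    (ASys.pl_nonneg hLS.nonneg N)
  refine ⟨k, ?_, h3⟩
  by_contra hcon
  push Not at hcon
  have := ASys.pl_mono (S := S) hLS.nonneg (show k + 1 ≤ N from hcon)
  linarith

/-- A tile of `S` overlaps some tile of `T`. -/
theorem exists_overlap (_hT : T.Good) (hLS : S.Limits α lam) (hLT : T.Limits β mu)
    {η θ κ κ' : ℝ} (hη : 0 < η) (hθ : 0 < θ) (hκ : ∀ c, 0 < lam c → κ ≤ lam c)
    (hκ' : ∀ c, 0 < mu c → κ' ≤ mu c) (h1 : 2 * η ≤ κ) (h2 : 2 * η ≤ θ * κ') (K k : ℕ)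
    (hk : 0 < lam (S.X k)) (hK : S.pl lam (k + 1) ≤ θ * T.pl mu K) :
    ∃ l, l < K ∧ η ≤ Ov S T lam mu θ k l := by
  have hmono : Monotone fun l => θ * T.pl mu l := fun a b hab =>
    mul_le_mul_of_nonneg_left (ASys.pl_mono (S := T) hLT.nonneg hab) hθ.le
  refine tile (fun l => θ * T.pl mu l) η hη hmono (fun l => ?_) K (S.pl lam k)
    (S.pl lam (k + 1)) ?_ ?_ hK
  · rcases (hLT.nonneg (T.X l)).eq_or_lt with h | h
    · left
      show θ * T.pl mu (l + 1) = θ * T.pl mu l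
      rw [T.pl_succ, ← h, add_zero]
    · right
      show θ * T.pl mu l + 2 * η ≤ θ * T.pl mu (l + 1)
      rw [T.pl_succ, mul_add]
      have := mul_le_mul_of_nonneg_left (hκ' _ h) hθ.le
      linarith
  · show θ * T.pl mu 0 ≤ S.pl lam k
    rw [T.pl_zero, mul_zero]
    exact ASys.pl_nonneg hLS.nonneg k
  · rw [S.pl_succ]
    have := hκ _ hk
    linarith

/-- Bounds for the offset of an overlapping pair. -/
theorem off_bounds {η θ Λ Λ' : ℝ} (hη : 0 < η) (hΛ : ∀ c, lam c ≤ Λ) (hθ : 0 < θ)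
    (hΛ' : ∀ c, mu c ≤ Λ') {k l : ℕ} (h : η ≤ Ov S T lam mu θ k l) :
    -Λ ≤ Off S T lam mu θ k l ∧ Off S T lam mu θ k l ≤ θ * Λ' := by
  have h0 : η ≤ min (S.pl lam (k + 1)) (θ * T.pl mu (l + 1)) - max (S.pl lam k) (θ * T.pl mu l) := h
  have h1 := min_le_left (S.pl lam (k + 1)) (θ * T.pl mu (l + 1))
  have h2 := min_le_right (S.pl lam (k + 1)) (θ * T.pl mu (l + 1))
  have h3 := le_max_left (S.pl lam k) (θ * T.pl mu l)
  have h4 := le_max_right (S.pl lam k) (θ * T.pl mu l)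
  have h5 := hΛ (S.X k)
  have h6 := mul_le_mul_of_nonneg_left (hΛ' (T.X l)) hθ.le
  have e1 := S.pl_succ lam k
  have e2 : θ * T.pl mu (l + 1) = θ * T.pl mu l + θ * mu (T.X l) := by rw [T.pl_succ, mul_add]
  unfold Off
  constructor <;> linarith

/-- The limit ratios in `[1/C, C]` form a finite set. -/
theorem ratio_mem [Finite A] [Finite B] (hS : S.Good) (hT : T.Good) (hLS : S.Limits α lam)
    (hLT : T.Limits β mu) (hα : 1 < α) (hβ : 1 < β) (hsep : SepProp S T lam mu) (C : ℝ)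
    (hC : 1 ≤ C) : ∃ F : Finset ℝ, ∀ (nn mm : ℕ → ℕ) (θ : ℝ), LevSeq S T nn mm θ → 1 / C ≤ θ →
      θ ≤ C → 1 / θ ∈ F := by
  classical
  have := Fintype.ofFinite A
  have := Fintype.ofFinite B
  obtain ⟨Λ, κ, hΛ, hκ, hΛ1, hκ1⟩ := lam_bounds lam
  obtain ⟨Λ', κ', hΛ', hκ', hΛ1', hκ1'⟩ := lam_bounds mu
  have hC0 : 0 < C := by linarith
  set η := min κ (κ' / C) / 2 with hη
  have hη0 : 0 < η := by positivity
  have hη1 : 2 * η ≤ κ := by
    have := min_le_left κ (κ' / C); rw [hη]; linarith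
  have hη2 : 2 * η ≤ κ' / C := by
    have := min_le_right κ (κ' / C); rw [hη]; linarith
  obtain ⟨ε, hε, hsepε⟩ := hsep η hη0
  -- cells
  set cells : Finset (A × B × ℤ) :=
    Finset.univ ×ˢ (Finset.univ ×ˢ Finset.Icc ⌊-Λ / ε⌋ ⌊C * Λ' / ε⌋) with hcells
  have hinf : {k : ℕ | 0 < lam (S.X k)}.Infinite := by
    rw [Set.infinite_iff_exists_gt]
    intro N
    obtain ⟨k, hk, hk'⟩ := exists_max_ge hS hLS hα (N + 1)
    exact ⟨k, hk', by omega⟩
  obtain ⟨I, hI, hIc⟩ := hinf.exists_subset_card_eq (cells.card + 1)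
  obtain ⟨K, hK⟩ : ∃ K, ∀ k ∈ I, C * S.pl lam (k + 1) ≤ T.pl mu K := by
    obtain ⟨K, hK⟩ := ((hLT.tendsto_pl_atTop hT hβ).eventually_ge_atTop
      (C * S.pl lam (I.sup id + 1))).exists
    refine ⟨K, fun k hk => le_trans ?_ hK⟩
    have h1 : k ≤ I.sup id := Finset.le_sup (f := id) hk
    exact mul_le_mul_of_nonneg_left (ASys.pl_mono (S := S) hLS.nonneg (by omega)) hC0.le
  refine ⟨(I ×ˢ (I ×ˢ (Finset.range K ×ˢ Finset.range K))).image
    (fun p => (T.pl mu p.2.2.2 - T.pl mu p.2.2.1) / (S.pl lam p.2.1 - S.pl lam p.1)), ?_⟩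
  intro nn mm θ hseq hθ1 hθ2
  have hθ := hseq.pos
  have hex : ∀ k : ℕ, ∃ l, k ∈ I → l < K ∧ η ≤ Ov S T lam mu θ k l := by
    intro k
    by_cases hk : k ∈ I
    · obtain ⟨l, hl⟩ := exists_overlap (S := S) (T := T) hT hLS hLT hη0 hθ hκ1 hκ1' hη1
        (by
          calc 2 * η ≤ κ' / C := hη2
            _ = 1 / C * κ' := by ring
            _ ≤ θ * κ' := mul_le_mul_of_nonneg_right hθ1 hκ'.le) K k (hI hk) (by
          have h1 := hK k hk
          have h2 : 0 ≤ T.pl mu K := ASys.pl_nonneg hLT.nonneg K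
          have h3 : S.pl lam (k + 1) ≤ 1 / C * T.pl mu K := by
            rw [one_div, ← div_eq_inv_mul, le_div_iff₀ hC0]; linarith
          exact h3.trans (mul_le_mul_of_nonneg_right hθ1 h2))
      exact ⟨l, fun _ => hl⟩
    · exact ⟨0, fun h => absurd h hk⟩
  choose L hL using hex
  set f : ℕ → A × B × ℤ := fun k => (S.X k, T.X (L k), ⌊Off S T lam mu θ k (L k) / ε⌋) with hf
  have hmaps : ∀ k ∈ I, f k ∈ cells := by
    intro k hk
    have h1 := off_bounds (S := S) (T := T) hη0 hΛ1 hθ hΛ1' (hL k hk).2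
    simp only [hcells, hf, Finset.mem_product, Finset.mem_univ, true_and, Finset.mem_Icc]
    constructor
    · exact Int.floor_le_floor (div_le_div_of_nonneg_right h1.1 hε.le)
    · refine Int.floor_le_floor (div_le_div_of_nonneg_right (h1.2.trans ?_) hε.le)
      exact mul_le_mul_of_nonneg_right hθ2 hΛ'.le
  obtain ⟨k, hk, k', hk', hne, heq⟩ := Finset.exists_ne_map_eq_of_card_lt_of_maps_to
    (by rw [hIc]; exact Nat.lt_succ_self _) hmaps
  simp only [hf, Prod.mk.injEq] at heq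
  obtain ⟨e1, e2, e3⟩ := heq
  have hclose : |Off S T lam mu θ k (L k) - Off S T lam mu θ k' (L k')| < ε := by
    have := Int.abs_sub_lt_one_of_floor_eq_floor e3
    rw [← sub_div, abs_div, abs_of_pos hε, div_lt_one hε] at this
    exact this
  have hev := hsepε nn mm θ hseq k k' (L k) (L k') e1 e2 (hL k hk).2 hclose
  -- pass to the limit
  have hlim1 : Tendsto (fun j => (S.pos (nn j) k : ℝ) / S.len (nn j) [S.a] -
      (T.pos (mm j) (L k) : ℝ) / S.len (nn j) [S.a]) atTop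
      (𝓝 (S.pl lam k - θ * T.pl mu (L k))) := (hseq.tS hLS k).sub (hseq.tT hT hLT (L k))
  have hlim2 : Tendsto (fun j => (S.pos (nn j) k' : ℝ) / S.len (nn j) [S.a] -
      (T.pos (mm j) (L k') : ℝ) / S.len (nn j) [S.a]) atTop
      (𝓝 (S.pl lam k' - θ * T.pl mu (L k'))) := (hseq.tS hLS k').sub (hseq.tT hT hLT (L k'))
  have hEq : S.pl lam k - θ * T.pl mu (L k) = S.pl lam k' - θ * T.pl mu (L k') := by
    refine tendsto_nhds_unique hlim1 (hlim2.congr' ?_)
    filter_upwards [hev] with j hj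
    have hj' : (S.pos (nn j) k : ℝ) - T.pos (mm j) (L k) = S.pos (nn j) k' - T.pos (mm j) (L k') := by
      exact_mod_cast hj
    rw [← sub_div, ← sub_div, hj']
  have hneq : S.pl lam k' - S.pl lam k ≠ 0 := by
    have hlt : ∀ i j, i < j → 0 < lam (S.X i) → S.pl lam i < S.pl lam j := by
      intro i j hij hi
      have h1 := ASys.pl_mono (S := S) hLS.nonneg (show i + 1 ≤ j from hij)
      rw [S.pl_succ] at h1
      linarith
    rcases Nat.lt_or_gt_of_ne hne with h | h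
    · have := hlt _ _ h (hI hk)
      exact (sub_pos.2 this).ne'
    · have := hlt _ _ h (hI hk')
      exact (sub_neg.2 this).ne
  refine Finset.mem_image.2 ⟨(k, k', L k, L k'), ?_, ?_⟩
  · simp only [Finset.mem_product, Finset.mem_range]
    exact ⟨hk, hk', (hL k hk).1, (hL k' hk').1⟩
  · show (T.pl mu (L k') - T.pl mu (L k)) / (S.pl lam k' - S.pl lam k) = 1 / θ
    rw [div_eq_div_iff hneq hθ.ne']
    linarith

/-- **D4**: the hypothesis of `growth_match`. -/
theorem ratioFin [Finite A] [Finite B] (hS : S.Good) (hT : T.Good) (hLS : S.Limits α lam)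
    (hLT : T.Limits β mu) (hα : 1 < α) (hβ : 1 < β) (hsep : SepProp S T lam mu) :
    RatioProp S T := by
  intro C0
  set C := max C0 1 with hCdef
  have hC : 1 ≤ C := le_max_right _ _
  have hC0 : 0 < C := by linarith
  obtain ⟨F, hF⟩ := ratio_mem hS hT hLS hLT hα hβ hsep C hC
  refine ⟨F, fun ε hε => ?_⟩
  by_contra hcon
  push Not at hcon
  choose nn hnn mm hmm h1 h2 h3 using hcon
  have hs : ∀ j, (0 : ℝ) < S.len (nn j) [S.a] := fun j => hS.len_a_pos _
  have hs' : ∀ j, (0 : ℝ) < T.len (mm j) [T.a] := fun j => hT.len_a_pos _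
  have hmem : ∀ j, (T.len (mm j) [T.a] : ℝ) / S.len (nn j) [S.a] ∈ Set.Icc (1 / C) C := by
    intro j
    have g1 : (S.len (nn j) [S.a] : ℝ) ≤ C * T.len (mm j) [T.a] :=
      (h1 j).trans (mul_le_mul_of_nonneg_right (le_max_left _ _) (hs' j).le)
    have g2 : (T.len (mm j) [T.a] : ℝ) ≤ C * S.len (nn j) [S.a] :=
      (h2 j).trans (mul_le_mul_of_nonneg_right (le_max_left _ _) (hs j).le)
    constructor
    · rw [div_le_div_iff₀ hC0 (hs j)]; linarith
    · rw [div_le_iff₀ (hs j)]; exact g2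
  obtain ⟨θ, hθ, φ, hφ, hlim⟩ := isCompact_Icc.tendsto_subseq hmem
  have hθ0 : 0 < θ := lt_of_lt_of_le (by positivity) hθ.1
  have hnt : Tendsto nn atTop atTop := tendsto_atTop_mono hnn tendsto_id
  have hmt : Tendsto mm atTop atTop := tendsto_atTop_mono hmm tendsto_id
  have hseq : LevSeq S T (nn ∘ φ) (mm ∘ φ) θ :=
    ⟨hθ0, hnt.comp hφ.tendsto_atTop, hmt.comp hφ.tendsto_atTop, hlim⟩
  have hin := hF _ _ θ hseq hθ.1 hθ.2
  have hlim2 : Tendsto (fun j => (S.len (nn (φ j)) [S.a] : ℝ) / T.len (mm (φ j)) [T.a]) atTop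
      (𝓝 (1 / θ)) := by
    have := hlim.inv₀ hθ0.ne'
    rw [one_div]
    refine this.congr fun j => ?_
    simp only [Function.comp, inv_div]
  obtain ⟨j, hj⟩ := (hlim2.eventually (Metric.ball_mem_nhds _ hε)).exists
  have := h3 (φ j) _ hin
  rw [Real.dist_eq] at hj
  linarith

end SUBST
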