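import Pool.Agent.Work.SUBST.Abs

/-!
# Regular sequences of positions (joint J1)

* `ASys.RegSeq.ap` : closure under arithmetic progressions,
* `ASys.RegSeq.of_pow`, `ASys.RegSeq.of_shift` : from a power / a shift back to the system,
* `ASys.RegSeq.of_chain` : a chain of prefixes driven by a finite automaton gives regular sequences,
* `acert_of_regSeq` : a common regular sequence of two systems of the same word gives a
  certificate.
-/

set_option autoImplicit false

namespace SUBST

namespace RS

variable {A : Type}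

theorem it_zero (S : ASys A) (w : List A) : S.it 0 w = w := rfl

theorem it_succ (S : ASys A) (n : ℕ) (w : List A) : S.it (n + 1) w = S.it n (S.ap w) := rfl

theorem it_succ' (S : ASys A) (n : ℕ) (w : List A) : S.it (n + 1) w = S.ap (S.it n w) :=
  Function.iterate_succ_apply' _ _ _

theorem it_one (S : ASys A) (w : List A) : S.it 1 w = S.ap w := rfl

theorem ap_append (S : ASys A) (u v : List A) : S.ap (u ++ v) = S.ap u ++ S.ap v := by
  simp [ASys.ap]

theorem it_append (S : ASys A) (n : ℕ) (u v : List A) :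
    S.it n (u ++ v) = S.it n u ++ S.it n v := by
  induction n generalizing u v with
  | zero => rfl
  | succ n ih => rw [it_succ, it_succ, it_succ, ap_append, ih]

theorem it_nil (S : ASys A) (n : ℕ) : S.it n [] = [] := by
  induction n with
  | zero => rfl
  | succ n ih => rw [it_succ, show S.ap [] = [] from rfl, ih]

theorem it_add (S : ASys A) (m n : ℕ) (w : List A) : S.it (m + n) w = S.it m (S.it n w) :=
  Function.iterate_add_apply _ _ _ _

theorem it_prefix (S : ASys A) (n : ℕ) {u v : List A} (h : u <+: v) : S.it n u <+: S.it n v := by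
  obtain ⟨r, rfl⟩ := h
  rw [it_append]
  exact List.prefix_append _ _

/-- An iterate is the concatenation of the iterates of the letters. -/
theorem it_eq_flatMap (S : ASys A) (n : ℕ) (w : List A) :
    S.it n w = w.flatMap (fun c => S.it n [c]) := by
  induction w with
  | nil => rw [it_nil]; rfl
  | cons c w ih =>
    rw [show c :: w = [c] ++ w from rfl, it_append, ih]
    simp

theorem pow_ap (S : ASys A) (p : ℕ) (w : List A) : (S.pow p).ap w = S.it p w :=
  (it_eq_flatMap S p w).symm

theorem pow_it (S : ASys A) (p n : ℕ) (w : List A) : (S.pow p).it n w = S.it (p * n) w := by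
  induction n generalizing w with
  | zero => rfl
  | succ n ih => rw [it_succ, pow_ap, ih, ← it_add, Nat.mul_succ]

theorem shift_it (S : ASys A) (r n : ℕ) (w : List A) : (S.shift r).it n w = S.it n w := rfl

theorem W_eq_flatMap (S : ASys A) (n : ℕ) (w : List A) :
    S.W n w = w.flatMap (fun c => S.W n [c]) := by
  unfold ASys.W
  rw [it_eq_flatMap, List.flatMap_assoc]

theorem W_append (S : ASys A) (n : ℕ) (u v : List A) : S.W n (u ++ v) = S.W n u ++ S.W n v := by
  unfold ASys.W
  rw [it_append, List.flatMap_append]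

theorem length_le_ap {S : ASys A} (hS : S.Good) (w : List A) : w.length ≤ (S.ap w).length := by
  induction w with
  | nil => simp
  | cons c w ih =>
    rw [show c :: w = [c] ++ w from rfl, ap_append, List.length_append, List.length_append]
    have h1 : 1 ≤ (S.ap [c]).length := by
      have := hS.ne c
      have h2 : S.ap [c] = S.σ c := by simp [ASys.ap]
      rw [h2]
      exact List.length_pos_iff.mpr this
    simp only [List.length_singleton]
    omega

theorem length_le_it {S : ASys A} (hS : S.Good) (n : ℕ) (w : List A) :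
    w.length ≤ (S.it n w).length := by
  induction n generalizing w with
  | zero => exact le_rfl
  | succ n ih => exact (length_le_ap hS w).trans (ih _)

theorem it_ne_nil {S : ASys A} (hS : S.Good) (n : ℕ) {w : List A} (hw : w ≠ []) :
    S.it n w ≠ [] := by
  intro h
  have := length_le_it hS n w
  rw [h] at this
  exact hw (List.length_eq_zero_iff.mp (by simpa using this))

theorem length_le_h {S : ASys A} (hS : S.Good) (w : List A) :
    w.length ≤ (w.flatMap S.h).length := by
  induction w with
  | nil => simp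
  | cons c w ih =>
    have := List.length_pos_iff.mpr (hS.hne c)
    rw [List.flatMap_cons, List.length_append, List.length_cons]
    omega

theorem it_start_succ {S : ASys A} (hS : S.Good) (n : ℕ) :
    S.it n [S.a] <+: S.it (n + 1) [S.a] := by
  obtain ⟨u, -, hu⟩ := hS.start
  have : S.ap [S.a] = [S.a] ++ u := by simp [ASys.ap, hu]
  rw [it_succ, this, it_append]
  exact List.prefix_append _ _

theorem it_start_mono {S : ASys A} (hS : S.Good) {m n : ℕ} (h : m ≤ n) :
    S.it m [S.a] <+: S.it n [S.a] := by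
  induction n, h using Nat.le_induction with
  | base => exact List.prefix_rfl
  | succ n _ ih => exact ih.trans (it_start_succ hS n)

theorem lt_length_start {S : ASys A} (hS : S.Good) (n : ℕ) : n < (S.it n [S.a]).length := by
  induction n with
  | zero => simp [it_zero]
  | succ n ih =>
    obtain ⟨u, hu0, hu⟩ := hS.start
    have : S.ap [S.a] = [S.a] ++ u := by simp [ASys.ap, hu]
    rw [it_succ, this, it_append, List.length_append]
    have h1 := length_le_it hS n u
    have h2 := List.length_pos_iff.mpr hu0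
    omega

/-- `P` is a prefix of the fixed point. -/
def Pfx (S : ASys A) (P : List A) : Prop := ∃ n, P <+: S.it n [S.a]

theorem Pfx.of_prefix {S : ASys A} {P Q : List A} (h : Pfx S Q) (hP : P <+: Q) : Pfx S P := by
  obtain ⟨n, hn⟩ := h
  exact ⟨n, hP.trans hn⟩

theorem Pfx.it {S : ASys A} {P : List A} (h : Pfx S P) (m : ℕ) : Pfx S (S.it m P) := by
  obtain ⟨n, hn⟩ := h
  refine ⟨m + n, ?_⟩
  rw [it_add]
  exact it_prefix S m hn

theorem Pfx.comparable {S : ASys A} (hS : S.Good) {P Q : List A} (hP : Pfx S P) (hQ : Pfx S Q)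
    (h : P.length ≤ Q.length) : P <+: Q := by
  obtain ⟨n, hn⟩ := hP
  obtain ⟨m, hm⟩ := hQ
  have h1 := hn.trans (it_start_mono hS (le_max_left n m))
  have h2 := hm.trans (it_start_mono hS (le_max_right n m))
  exact List.prefix_of_prefix_length_le h1 h2 h

theorem Pfx.extend {S : ASys A} (hS : S.Good) {P : List A} (hP : Pfx S P) (l : ℕ) :
    ∃ C : List A, C.length = l ∧ Pfx S (P ++ C) := by
  set n := P.length + l with hn
  have h1 := lt_length_start hS n
  have h2 : Pfx S (S.it n [S.a]) := ⟨n, List.prefix_rfl⟩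
  obtain ⟨R, hR⟩ := Pfx.comparable hS hP h2 (by omega)
  refine ⟨R.take l, ?_, ?_⟩
  · rw [List.length_take]
    have := congrArg List.length hR
    rw [List.length_append] at this
    omega
  · refine Pfx.of_prefix h2 ?_
    rw [← hR]
    exact (List.prefix_append_right_inj _).mpr (List.take_prefix _ _)

/-- The output of a prefix of the fixed point is a prefix of `x`. -/
theorem Pfx.word {S : ASys A} {x : ℕ → ℕ} (hx : S.IsWord x) {P : List A} (hP : Pfx S P) :
    P.flatMap S.h = (List.range (P.flatMap S.h).length).map x := by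
  obtain ⟨n, R, hR⟩ := hP
  have h1 := hx n
  have h2 : S.W n [S.a] = P.flatMap S.h ++ R.flatMap S.h := by
    unfold ASys.W
    rw [← hR, List.flatMap_append]
  have h3 : P.flatMap S.h = (S.W n [S.a]).take (P.flatMap S.h).length := by
    rw [h2, List.take_left]
  have h4 : (P.flatMap S.h).length ≤ S.len n [S.a] := by
    unfold ASys.len
    rw [h2, List.length_append]
    omega
  conv_lhs => rw [h3, h1, ← List.map_take, List.take_range, min_eq_left h4]

/-- The tail of a level step. -/
theorem lev_zero (S : ASys A) (M : ℕ) (w P : List A) : S.lev M w 0 P = P := rfl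

theorem lev_succ (S : ASys A) (M : ℕ) (w : List A) (t : ℕ) (P : List A) :
    S.lev M w (t + 1) P = S.it M (S.lev M w t P) ++ w :=
  Function.iterate_succ_apply' _ _ _

theorem lev_add (S : ASys A) (M : ℕ) (w : List A) (s t : ℕ) (P : List A) :
    S.lev M w (s + t) P = S.lev M w s (S.lev M w t P) :=
  Function.iterate_add_apply _ _ _ _

/-- The composition of `k` level steps is a level step of `σ^(k M)`. -/
theorem lev_eq (S : ASys A) (M : ℕ) (w : List A) (k : ℕ) (P : List A) :
    S.lev M w k P = S.it (k * M) P ++ S.lev M w k [] := by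
  induction k with
  | zero => simp [lev_zero, it_zero]
  | succ k ih =>
    rw [lev_succ, ih, lev_succ, it_append, ← it_add, List.append_assoc]
    congr 2
    ring

theorem lev_mul (S : ASys A) (M : ℕ) (w : List A) (k t : ℕ) (P : List A) :
    S.lev M w (k * t) P = S.lev (k * M) (S.lev M w k []) t P := by
  induction t with
  | zero => rfl
  | succ t ih =>
    rw [Nat.mul_succ, Nat.add_comm, lev_add, ih, lev_succ, ← lev_eq]

theorem lev_ctx (S : ASys A) {M : ℕ} {w z : List A} (h : (w ++ z) <+: S.it M z) (k : ℕ) :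
    (S.lev M w k [] ++ z) <+: S.it (k * M) z := by
  induction k with
  | zero => simp [lev_zero, it_zero]
  | succ k ih =>
    rw [lev_succ, List.append_assoc]
    refine ((List.prefix_append_right_inj _).mpr h).trans ?_
    rw [← it_append]
    refine (it_prefix S M ih).trans ?_
    rw [← it_add]
    have : M + k * M = (k + 1) * M := by ring
    rw [this]

/-- All `P_t z` are prefixes of the fixed point. -/
theorem lev_pfx (S : ASys A) {M : ℕ} {P z w : List A} (hP : Pfx S (P ++ z))
    (h : (w ++ z) <+: S.it M z) (t : ℕ) : Pfx S (S.lev M w t P ++ z) := by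
  induction t with
  | zero => exact hP
  | succ t ih =>
    refine Pfx.of_prefix (ih.it M) ?_
    rw [lev_succ, it_append, List.append_assoc]
    exact (List.prefix_append_right_inj _).mpr h

theorem lev_ne_nil {S : ASys A} (hS : S.Good) {M : ℕ} {P w : List A} (hP : P ≠ []) (t : ℕ) :
    S.lev M w t P ≠ [] := by
  induction t with
  | zero => exact hP
  | succ t ih =>
    rw [lev_succ]
    intro h
    exact it_ne_nil hS M ih (List.append_eq_nil_iff.mp h).1

end RS

namespace ASys

open RS

variable {A : Type} {S : ASys A}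

/-- The data of a level sequence, restricted to the arithmetic progression `i + k t`. -/
theorem LevOK.ap (hS : S.Good) {M : ℕ} {P z w : List A} (h : S.LevOK M P z w) (i : ℕ) {k : ℕ}
    (hk : 1 ≤ k) : S.LevOK (k * M) (S.lev M w i P) z (S.lev M w k []) := by
  obtain ⟨h1, h2, h3, h4, h5⟩ := h
  exact ⟨Nat.mul_pos hk h1, lev_ne_nil hS h2 i, h3, lev_pfx S h4 h5 i, lev_ctx S h5 k⟩

theorem RegSeq.congr {e e' : ℕ → ℕ} (h : S.RegSeq e) (he : ∀ t, e' t = e t) : S.RegSeq e' := by
  have : e' = e := funext he
  rwa [this]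

/-- Closure under arithmetic progressions. -/
theorem RegSeq.ap (hS : S.Good) {e : ℕ → ℕ} (h : S.RegSeq e) (i : ℕ) {k : ℕ} (hk : 1 ≤ k) :
    S.RegSeq (fun t => e (i + k * t)) := by
  obtain ⟨M, P, z, w, d, hL, he⟩ := h
  refine ⟨k * M, S.lev M w i P, z, S.lev M w k [], d, hL.ap hS i hk, fun t => ?_⟩
  show ((e (i + k * t) : ℕ) : ℤ) = _
  rw [he, Nat.add_comm, lev_add, lev_mul]

/-- Adding a constant. -/
theorem RegSeq.add_const {e e' : ℕ → ℕ} (h : S.RegSeq e) (d : ℤ)
    (he : ∀ t, (e' t : ℤ) = e t + d) : S.RegSeq e' := by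
  obtain ⟨M, P, z, w, d', hL, hd⟩ := h
  refine ⟨M, P, z, w, d' + d, hL, fun t => ?_⟩
  rw [he, hd]
  ring

theorem lev_pow (p M : ℕ) (w : List A) (t : ℕ) (P : List A) :
    (S.pow p).lev M w t P = S.lev (p * M) w t P := by
  induction t with
  | zero => rfl
  | succ t ih => rw [lev_succ, lev_succ, ih, pow_it]

/-- From a power back to the system. -/
theorem RegSeq.of_pow {p : ℕ} (hp : 1 ≤ p) {e : ℕ → ℕ} (h : (S.pow p).RegSeq e) :
    S.RegSeq e := by
  obtain ⟨M, P, z, w, d, ⟨h1, h2, h3, ⟨n, h4⟩, h5⟩, hd⟩ := h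
  refine ⟨p * M, P, z, w, d, ⟨Nat.mul_pos hp h1, h2, h3, ⟨p * n, ?_⟩, ?_⟩, fun t => ?_⟩
  · rw [pow_it] at h4
    exact h4
  · rw [pow_it] at h5
    exact h5
  · rw [hd, lev_pow]
    rfl

theorem shift_out (r : ℕ) (w : List A) : w.flatMap (S.shift r).h = (S.it r w).flatMap S.h :=
  (W_eq_flatMap S r w).symm

theorem lev_it (r M : ℕ) (w : List A) (t : ℕ) (P : List A) :
    S.it r (S.lev M w t P) = S.lev M (S.it r w) t (S.it r P) := by
  induction t with
  | zero => rfl
  | succ t ih => rw [lev_succ, lev_succ, ← ih, it_append, ← it_add, ← it_add, Nat.add_comm]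

/-- From a shift back to the system. -/
theorem RegSeq.of_shift (hS : S.Good) {r : ℕ} {e : ℕ → ℕ} (h : (S.shift r).RegSeq e) :
    S.RegSeq e := by
  obtain ⟨M, P, z, w, d, ⟨h1, h2, h3, h4, h5⟩, hd⟩ := h
  refine ⟨M, S.it r P, S.it r z, S.it r w, d,
    ⟨h1, it_ne_nil hS r h2, it_ne_nil hS r h3, ?_, ?_⟩, fun t => ?_⟩
  · rw [← it_append]
    exact Pfx.it (S := S) h4 r
  · have h6 : (w ++ z) <+: S.it M z := h5
    rw [← it_append, ← it_add, Nat.add_comm M r, it_add]
    exact it_prefix S r h6
  · rw [hd]
    have : (S.shift r).lev M w t P = S.lev M w t P := rfl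
    rw [this, shift_out, lev_it]

/-- The converse for a power: a regular sequence of `S` is one of `σ^p` along a progression. -/
theorem RegSeq.to_pow (hS : S.Good) {p : ℕ} (hp : 1 ≤ p) {e : ℕ → ℕ} (h : S.RegSeq e) :
    (S.pow p).RegSeq (fun t => e (p * t)) := by
  obtain ⟨M, P, z, w, d, hL, he⟩ := h.ap hS 0 hp
  obtain ⟨M', P', z', w', d', ⟨h1, h2, h3, ⟨n, h4⟩, h5⟩, he'⟩ := h
  refine ⟨M', P', z', S.lev M' w' p [], d', ⟨h1, h2, h3, ⟨n, ?_⟩, ?_⟩, fun t => ?_⟩
  · rw [pow_it]
    exact h4.trans (it_start_mono hS (Nat.le_mul_of_pos_left n hp))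
  · rw [pow_it]
    exact lev_ctx S h5 p
  · show ((e (p * t) : ℕ) : ℤ) = _
    rw [he', lev_mul, lev_pow]
    rfl

/-- The word collected by `k` steps of a chain from time `i`. -/
def chainW (S : ASys A) (m : ℕ) (w : ℕ → List A) (i : ℕ) : ℕ → List A
  | 0 => []
  | k + 1 => S.it m (chainW S m w i k) ++ w (i + k)

theorem chainW_congr (S : ASys A) (m : ℕ) {w : ℕ → List A} {i j : ℕ} (k : ℕ)
    (h : ∀ l, l < k → w (i + l) = w (j + l)) : chainW S m w i k = chainW S m w j k := by
  induction k with
  | zero => rfl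
  | succ k ih =>
    show S.it m (chainW S m w i k) ++ w (i + k) = S.it m (chainW S m w j k) ++ w (j + k)
    rw [ih (fun l hl => h l (hl.trans (Nat.lt_succ_self k))), h k (Nat.lt_succ_self k)]

theorem chain_eq {m : ℕ} {w : ℕ → List A} {P : ℕ → List A}
    (hP : ∀ t, P (t + 1) = S.it m (P t) ++ w t) (i k : ℕ) :
    P (i + k) = S.it (k * m) (P i) ++ chainW S m w i k := by
  induction k with
  | zero => simp [it_zero, chainW]
  | succ k ih =>
    rw [← Nat.add_assoc, hP, ih, it_append, ← it_add, List.append_assoc]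
    show _ = _ ++ (S.it m (chainW S m w i k) ++ w (i + k))
    congr 2
    ring

theorem chain_ctx {m : ℕ} {w z : ℕ → List A}
    (hw : ∀ t, (w t ++ z (t + 1)) <+: S.it m (z t)) (i k : ℕ) :
    (chainW S m w i k ++ z (i + k)) <+: S.it (k * m) (z i) := by
  induction k with
  | zero => simp [it_zero, chainW]
  | succ k ih =>
    show ((S.it m (chainW S m w i k) ++ w (i + k)) ++ z (i + k + 1)) <+: _
    rw [List.append_assoc]
    refine ((List.prefix_append_right_inj _).mpr (hw (i + k))).trans ?_
    rw [← it_append]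
    refine (it_prefix S m ih).trans ?_
    rw [← it_add]
    have : m + k * m = (k + 1) * m := by ring
    rw [this]

theorem chain_pfx {m : ℕ} {w z : ℕ → List A} {P : ℕ → List A}
    (hP : ∀ t, P (t + 1) = S.it m (P t) ++ w t)
    (hw : ∀ t, (w t ++ z (t + 1)) <+: S.it m (z t)) (h0 : Pfx S (P 0 ++ z 0)) (t : ℕ) :
    Pfx S (P t ++ z t) := by
  induction t with
  | zero => exact h0
  | succ t ih =>
    refine Pfx.of_prefix (ih.it m) ?_
    rw [hP, it_append, List.append_assoc]
    exact (List.prefix_append_right_inj _).mpr (hw t)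

theorem chain_ne_nil (hS : S.Good) {m : ℕ} {w : ℕ → List A} {P : ℕ → List A}
    (hP : ∀ t, P (t + 1) = S.it m (P t) ++ w t) (h0 : P 0 ≠ []) (t : ℕ) : P t ≠ [] := by
  induction t with
  | zero => exact h0
  | succ t ih =>
    rw [hP]
    intro h
    exact it_ne_nil hS m ih (List.append_eq_nil_iff.mp h).1

/-- **Chain lemma.** Prefixes `P_(t+1) = σ^m(P_t) w_t` with right contexts `z_t`, where
`(w_t, z_t, d_t)` is a function of the state `s_t` of a deterministic automaton with finitely many
states: the sequence `|h(P_t)| + d_t` is regular along the progressions of some difference `κ`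
from some time on. -/
theorem RegSeq.of_chain (hS : S.Good) {St : Type} [Finite St] (f : St → St) (s : ℕ → St)
    (hs : ∀ t, s (t + 1) = f (s t)) (z w : St → List A) {m : ℕ} (hm : 1 ≤ m)
    (hz : ∀ t, z (s t) ≠ []) (hw : ∀ t, (w (s t) ++ z (s (t + 1))) <+: S.it m (z (s t)))
    (P : ℕ → List A) (hP0 : P 0 ≠ []) (h0 : Pfx S (P 0 ++ z (s 0)))
    (hP : ∀ t, P (t + 1) = S.it m (P t) ++ w (s t)) (d : St → ℤ) (e : ℕ → ℕ)
    (he : ∀ t, (e t : ℤ) = ((P t).flatMap S.h).length + d (s t)) :
    ∃ κ t0 : ℕ, 1 ≤ κ ∧ ∀ i, t0 ≤ i → S.RegSeq (fun t => e (i + κ * t)) := by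
  obtain ⟨i0, j0, hij, hsij⟩ : ∃ i j : ℕ, i < j ∧ s i = s j := by
    obtain ⟨i, j, hne, h⟩ := Finite.exists_ne_map_eq_of_infinite s
    rcases lt_or_gt_of_ne hne with h1 | h1
    · exact ⟨i, j, h1, h⟩
    · exact ⟨j, i, h1, h.symm⟩
  set κ := j0 - i0 with hκ
  have hper : ∀ t, i0 ≤ t → s (t + κ) = s t := by
    intro t ht
    induction t, ht using Nat.le_induction with
    | base => rw [hsij]; congr 1; omega
    | succ t _ ih =>
      have : t + 1 + κ = (t + κ) + 1 := by omega
      rw [this, hs, ih, hs]
  have hper2 : ∀ t, i0 ≤ t → ∀ q, s (t + κ * q) = s t := by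
    intro t ht q
    induction q with
    | zero => rfl
    | succ q ih =>
      have : t + κ * (q + 1) = (t + κ * q) + κ := by ring
      rw [this, hper _ (by omega), ih]
  refine ⟨κ, i0, by omega, fun i hi => ?_⟩
  have key : ∀ t, P (i + κ * t) = S.lev (κ * m) (chainW S m (fun t => w (s t)) i κ) t (P i) := by
    intro t
    induction t with
    | zero => rfl
    | succ t ih =>
      have h1 : i + κ * (t + 1) = (i + κ * t) + κ := by ring
      rw [h1, chain_eq (S := S) (w := fun t => w (s t)) hP, lev_succ, ih]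
      congr 1
      refine chainW_congr S m κ fun l _ => ?_
      show w (s (i + κ * t + l)) = w (s (i + l))
      have h2 : i + κ * t + l = (i + l) + κ * t := by ring
      rw [h2, hper2 _ (by omega)]
  refine ⟨κ * m, P i, z (s i), chainW S m (fun t => w (s t)) i κ, d (s i),
    ⟨Nat.mul_pos (by omega) hm, chain_ne_nil hS (w := fun t => w (s t)) hP hP0 i, hz i,
      chain_pfx (w := fun t => w (s t)) (z := fun t => z (s t)) hP hw h0 i, ?_⟩, fun t => ?_⟩
  · have h3 := chain_ctx (S := S) (w := fun t => w (s t)) (z := fun t => z (s t)) hw i κ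
    have h4 : s (i + κ) = s i := hper i hi
    simp only [h4] at h3
    exact h3
  · show ((e (i + κ * t) : ℕ) : ℤ) = _
    rw [he, key, hper2 i hi]

end ASys

/-- Certificates are symmetric. -/
theorem RS.acert_symm {A B : Type} {S : ASys A} {T : ASys B} (h : ACert S T) : ACert T S := by
  obtain ⟨M, N, P, z, w, Q, z', w', r, s, h1, h2, h3⟩ := h
  exact ⟨N, M, Q, z', w', P, z, w, s, r, h2, h1, fun t => (h3 t).symm⟩

open RS in
/-- Half of the joint J1: `|h(P_t)| = |h'(Q_t)| + D` for all `t`. -/
theorem acert_of_levels {A B : Type} [Finite B] {S : ASys A} {T : ASys B} {x : ℕ → ℕ}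
    (hS : S.Good) (hT : T.Good) (hx : S.IsWord x) (hy : T.IsWord x) {M N : ℕ} {P z w : List A}
    {Q z' w' : List B} (hL : S.LevOK M P z w) (hR : T.LevOK N Q z' w') (D : ℕ)
    (hD : ∀ t, ((S.lev M w t P).flatMap S.h).length = ((T.lev N w' t Q).flatMap T.h).length + D) :
    ACert S T := by
  obtain ⟨g1, g2, g3, g4, g5⟩ := hR
  -- the right contexts of length `l`
  set l := z'.length + D with hl
  have hpf : ∀ t, Pfx T (T.lev N w' t Q ++ z') := fun t => lev_pfx T g4 g5 t
  have hctx : ∀ t, ∃ C : List B, C.length = l ∧ Pfx T (T.lev N w' t Q ++ C) := fun t =>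
    Pfx.extend hT ((hpf t).of_prefix (List.prefix_append _ _)) l
  choose C hC1 hC2 using hctx
  have hzC : ∀ t, z' <+: C t := by
    intro t
    have h1 : (T.lev N w' t Q ++ z') <+: (T.lev N w' t Q ++ C t) := by
      refine Pfx.comparable hT (hpf t) (hC2 t) ?_
      rw [List.length_append, List.length_append, hC1]
      omega
    exact (List.prefix_append_right_inj _).mp h1
  -- the contexts evolve deterministically
  have hstep : ∀ t, C (t + 1) = ((T.it N (C t)).drop w'.length).take l := by
    intro t
    obtain ⟨R, hR⟩ := hzC t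
    obtain ⟨R', hR'⟩ := g5
    have h1 : T.it N (C t) = w' ++ (z' ++ R' ++ T.it N R) := by
      rw [← hR, it_append, ← hR']
      simp [List.append_assoc]
    have h2 : Pfx T (T.lev N w' (t + 1) Q ++ (z' ++ R' ++ T.it N R)) := by
      have := (hC2 t).it N
      rw [it_append, h1, ← List.append_assoc] at this
      rw [lev_succ]
      exact this
    have h3 : l ≤ (z' ++ R' ++ T.it N R).length := by
      have h4 := length_le_it hT N R
      have h5 := congrArg List.length hR
      rw [List.length_append, hC1] at h5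
      simp only [List.length_append]
      omega
    have h4 : C (t + 1) <+: (z' ++ R' ++ T.it N R) := by
      have : (T.lev N w' (t + 1) Q ++ C (t + 1)) <+:
          (T.lev N w' (t + 1) Q ++ (z' ++ R' ++ T.it N R)) := by
        refine Pfx.comparable hT (hC2 (t + 1)) h2 ?_
        rw [List.length_append, List.length_append, hC1]
        omega
      exact (List.prefix_append_right_inj _).mp this
    rw [h1, List.drop_left]
    rw [List.prefix_iff_eq_take, hC1] at h4
    exact h4
  -- pigeonhole
  have hfin : Finite {v : List B // v.length = l} :=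
    (List.finite_length_eq B l).to_subtype
  obtain ⟨i0, j0, hij, hCij⟩ : ∃ i j : ℕ, i < j ∧ C i = C j := by
    obtain ⟨i, j, hne, h⟩ := Finite.exists_ne_map_eq_of_infinite
      (fun t : ℕ => (⟨C t, hC1 t⟩ : {v : List B // v.length = l}))
    have h' : C i = C j := congrArg Subtype.val h
    rcases lt_or_gt_of_ne hne with h1 | h1
    · exact ⟨i, j, h1, h'⟩
    · exact ⟨j, i, h1, h'.symm⟩
  set κ := j0 - i0 with hκ
  have hκ1 : 1 ≤ κ := by omega
  have hper : ∀ t, i0 ≤ t → C (t + κ) = C t := by
    intro t ht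
    induction t, ht using Nat.le_induction with
    | base => rw [hCij]; congr 1; omega
    | succ t _ ih =>
      have : t + 1 + κ = (t + κ) + 1 := by omega
      rw [this, hstep, ih, ← hstep]
  have hper2 : ∀ q, C (i0 + κ * q) = C i0 := by
    intro q
    induction q with
    | zero => rfl
    | succ q ih =>
      have : i0 + κ * (q + 1) = (i0 + κ * q) + κ := by ring
      rw [this, hper _ (by omega), ih]
  refine ⟨κ * M, κ * N, S.lev M w i0 P, z, S.lev M w κ [], T.lev N w' i0 Q, z',
    T.lev N w' κ [], [], ((C i0).flatMap T.h).take D, hL.ap hS i0 hκ1,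
    ASys.LevOK.ap hT ⟨g1, g2, g3, g4, g5⟩ i0 hκ1, fun t => ?_⟩
  have e1 : S.lev (κ * M) (S.lev M w κ []) t (S.lev M w i0 P) = S.lev M w (i0 + κ * t) P := by
    rw [Nat.add_comm i0, lev_add, lev_mul]
  have e2 : T.lev (κ * N) (T.lev N w' κ []) t (T.lev N w' i0 Q) = T.lev N w' (i0 + κ * t) Q := by
    rw [Nat.add_comm i0, lev_add, lev_mul]
  rw [e1, e2, List.append_nil]
  have hp1 : Pfx S (S.lev M w (i0 + κ * t) P) :=
    (lev_pfx S hL.2.2.2.1 hL.2.2.2.2 _).of_prefix (List.prefix_append _ _)
  have hp2 : Pfx T (T.lev N w' (i0 + κ * t) Q ++ C (i0 + κ * t)) := hC2 _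
  have w1 := hp1.word hx
  have w2 := hp2.word hy
  rw [hper2] at w2
  set m0 := ((T.lev N w' (i0 + κ * t) Q).flatMap T.h).length with hm0
  rw [w1, hD]
  have h5 : D ≤ ((C i0).flatMap T.h).length := by
    have h6 := length_le_h hT (C i0)
    rw [hC1] at h6
    omega
  have h7 : (T.lev N w' (i0 + κ * t) Q).flatMap T.h ++ ((C i0).flatMap T.h).take D =
      ((T.lev N w' (i0 + κ * t) Q ++ C i0).flatMap T.h).take (m0 + D) := by
    have a1 : List.take (m0 + D) ((T.lev N w' (i0 + κ * t) Q).flatMap T.h) =
        (T.lev N w' (i0 + κ * t) Q).flatMap T.h := List.take_of_length_le (by omega)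
    have a2 : m0 + D - ((T.lev N w' (i0 + κ * t) Q).flatMap T.h).length = D := by omega
    rw [List.flatMap_append, List.take_append, a1, a2]
  rw [h7, w2, ← List.map_take, List.take_range]
  congr 2
  rw [List.flatMap_append, List.length_append, ← hm0]
  omega

/-- **Joint J1.** A common regular sequence of two systems of the same word gives a
certificate. -/
theorem acert_of_regSeq {A B : Type} [Finite A] [Finite B] {S : ASys A} {T : ASys B} {x : ℕ → ℕ}
    (hS : S.Good) (hT : T.Good) (hx : S.IsWord x) (hy : T.IsWord x) {e : ℕ → ℕ}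
    (h1 : S.RegSeq e) (h2 : T.RegSeq e) : ACert S T := by
  obtain ⟨M, P, z, w, d, hL, he⟩ := h1
  obtain ⟨N, Q, z', w', d', hR, he'⟩ := h2
  rcases le_total d d' with h | h
  · refine acert_of_levels hS hT hx hy hL hR (d' - d).toNat fun t => ?_
    have a1 := he t
    have a2 := he' t
    omega
  · refine RS.acert_symm (acert_of_levels hT hS hy hx hR hL (d - d').toNat fun t => ?_)
    have a1 := he t
    have a2 := he' t
    omega

/-- Two sets enumerated regularly: a common infinite set `K` gives a certificate. -/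
theorem acert_of_regEnum {A B : Type} [Finite A] [Finite B] {S : ASys A} {T : ASys B} {x : ℕ → ℕ}
    (hS : S.Good) (hT : T.Good) (hx : S.IsWord x) (hy : T.IsWord x) {K : Set ℕ}
    (h1 : S.RegEnum K) (h2 : T.RegEnum K) : ACert S T := by
  obtain ⟨-, κ, i0, hκ, hi⟩ := h1
  obtain ⟨-, κ', i0', hκ', hi'⟩ := h2
  have r1 := (hi (i0 + i0') (by omega)).ap hS 0 hκ'
  have r2 := (hi' (i0 + i0') (by omega)).ap hT 0 hκ
  refine acert_of_regSeq hS hT hx hy r1 (r2.congr fun t => ?_)
  congr 1
  ring

end SUBST
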