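import Pool.Agent.Work.SUBST.C2Defs
import Pool.Agent.Work.SUBST.LimApi

/-!
# Separation of offsets (case II)
-/

set_option autoImplicit false

open Filter Topology

namespace SUBST


section

variable {A B : Type} {S : ASys A} {T : ASys B} {α β : ℝ} {lam : A → ℝ} {mu : B → ℝ}

theorem LevSeq.tS {nn mm : ℕ → ℕ} {θ : ℝ} (h : LevSeq S T nn mm θ) (hL : S.Limits α lam) (k : ℕ) :
    Tendsto (fun j => (S.pos (nn j) k : ℝ) / S.len (nn j) [S.a]) atTop (𝓝 (S.pl lam k)) :=
  (hL.tendsto_pos k).comp h.n_top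

theorem LevSeq.tT {nn mm : ℕ → ℕ} {θ : ℝ} (hT : T.Good) (h : LevSeq S T nn mm θ)
    (hL : T.Limits β mu) (l : ℕ) :
    Tendsto (fun j => (T.pos (mm j) l : ℝ) / S.len (nn j) [S.a]) atTop (𝓝 (θ * T.pl mu l)) := by
  have h1 := h.ratio.mul ((hL.tendsto_pos l).comp h.m_top)
  refine h1.congr fun j => ?_
  have : (T.len (mm j) [T.a] : ℝ) ≠ 0 := by
    have := hT.len_pos (mm j) T.a
    positivity
  simp only [Function.comp]
  field_simp

theorem ratio_back (hS : S.Good) (hL : S.Limits α lam) (hα : 0 < α) (j0 : ℕ) :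
    Tendsto (fun n => (S.len (n - j0) [S.a] : ℝ) / S.len n [S.a]) atTop (𝓝 (1 / α ^ j0)) := by
  have h1 := ((hL.tendsto_ratio hS j0).comp (tendsto_sub_atTop_nat j0)).inv₀ (pow_pos hα j0).ne'
  rw [one_div]
  refine h1.congr' ?_
  filter_upwards [eventually_ge_atTop j0] with n hn
  simp only [Function.comp]
  rw [inv_div, Nat.sub_add_cancel hn]

theorem LevSeq.tSb {nn mm : ℕ → ℕ} {θ : ℝ} (hS : S.Good) (h : LevSeq S T nn mm θ)
    (hL : S.Limits α lam) (hα : 0 < α) (j0 k : ℕ) :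
    Tendsto (fun j => (S.pos (nn j - j0) k : ℝ) / S.len (nn j) [S.a]) atTop
      (𝓝 (S.pl lam k / α ^ j0)) := by
  have h1 := (((hL.tendsto_pos k).comp (tendsto_sub_atTop_nat j0)).comp h.n_top).mul
    ((ratio_back hS hL hα j0).comp h.n_top)
  rw [← div_eq_mul_one_div] at h1
  refine h1.congr fun j => ?_
  have : (S.len (nn j - j0) [S.a] : ℝ) ≠ 0 := by
    have := hS.len_pos (nn j - j0) S.a
    positivity
  simp only [Function.comp]
  field_simp

/-- Bounds for the limit weights. -/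
theorem lam_bounds [Finite A] (lam : A → ℝ) : ∃ Λ κ : ℝ, 0 < Λ ∧ 0 < κ ∧ (∀ c, lam c ≤ Λ) ∧
    ∀ c, 0 < lam c → κ ≤ lam c := by
  classical
  have := Fintype.ofFinite A
  refine ⟨∑ c, |lam c| + 1, ∏ c, (if 0 < lam c then min 1 (lam c) else 1), by positivity,
    Finset.prod_pos fun c _ => by split_ifs <;> positivity, fun c => ?_, fun c hc => ?_⟩
  · have := Finset.single_le_sum (f := fun c => |lam c|) (fun _ _ => abs_nonneg _)
      (Finset.mem_univ c)
    have h2 := le_abs_self (lam c)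
    beta_reduce at this
    linarith
  · rw [← Finset.mul_prod_erase _ _ (Finset.mem_univ c), if_pos hc]
    have h1 : ∏ x ∈ Finset.univ.erase c, (if 0 < lam x then min 1 (lam x) else 1) ≤ 1 :=
      Finset.prod_le_one (fun x _ => by split_ifs <;> positivity)
        (fun x _ => by split_ifs <;> simp)
    have h2 : (0 : ℝ) ≤ min 1 (lam c) := by positivity
    calc min 1 (lam c) * _ ≤ min 1 (lam c) * 1 := mul_le_mul_of_nonneg_left h1 h2
      _ ≤ lam c := by rw [mul_one]; exact min_le_right _ _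

/-- Two different offsets of the same pair of letters give a period. -/
theorem per_of_offsets (hS : S.Good) (hT : T.Good) {x : ℕ → ℕ} (hx : S.IsWord x)
    (hy : T.IsWord x) {n n' m k k' l l' k1 : ℕ} (hX : S.X k = S.X k') (hY : T.X l = T.X l')
    (h1 : S.pos n k ≤ S.pos n' k1) (h2 : S.pos n' (k1 + 1) ≤ S.pos n (k + 1))
    (h3 : T.pos m l ≤ S.pos n' k1) (h4 : S.pos n' (k1 + 1) ≤ T.pos m (l + 1)) (q : ℕ)
    (hq : ((S.pos n k : ℤ) - T.pos m l) - (S.pos n k' - T.pos m l') = q ∨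
      ((S.pos n k : ℤ) - T.pos m l) - (S.pos n k' - T.pos m l') = -(q : ℤ)) :
    HasPer (S.W n' [S.X k1]) q := by
  have hSk := S.pos_succ n k
  have hTl := T.pos_succ m l
  have hk1 := S.pos_succ n' k1
  -- the main claim
  have key : ∀ p p' : ℕ, S.pos n' k1 ≤ p → p < S.pos n' (k1 + 1) → S.pos n k ≤ p' →
      p' < S.pos n (k + 1) →
      ((p' : ℤ) - p = ((S.pos n k : ℤ) - T.pos m l) - (S.pos n k' - T.pos m l')) → x p = x p' := by
    intro p p' hp1 hp2 hp3 hp4 hd
    obtain ⟨j, hj⟩ := Nat.exists_eq_add_of_le (h3.trans hp1)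
    obtain ⟨r, hr⟩ := Nat.exists_eq_add_of_le hp3
    have hj2 : j < T.len m [T.X l] := by omega
    have hr2 : r < S.len n [S.X k] := by omega
    have e1 : x p = x (T.pos m l' + j) := by rw [hj]; exact hT.x_eq_of_X_eq hy hY hj2
    have e2 : x p' = x (S.pos n k' + r) := by rw [hr]; exact hS.x_eq_of_X_eq hx hX hr2
    have e3 : T.pos m l' + j = S.pos n k' + r := by omega
    rw [e1, e2, e3]
  intro i hi
  have hi' : i + q < S.len n' [S.X k1] := hi
  rw [← hS.x_getD hx n' k1 i (by omega), ← hS.x_getD hx n' k1 (i + q) hi']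
  rcases hq with hq | hq
  · exact key _ _ (by omega) (by omega) (by omega) (by omega) (by rw [hq]; push_cast; ring)
  · exact (key _ _ (by omega) (by omega) (by omega) (by omega) (by rw [hq]; push_cast; ring)).symm


/-- **Separation of offsets.** -/
theorem sep [Finite A] (hS : S.Good) (hT : T.Good) {x : ℕ → ℕ} (hx : S.IsWord x)
    (hy : T.IsWord x) (hLS : S.Limits α lam) (hLT : T.Limits β mu) (hα : 1 < α)
    (hII : S.GapII lam) : SepProp S T lam mu := by
  intro η hη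
  obtain ⟨ε₁, hε₁, n₁, hgap⟩ := hII
  obtain ⟨Λ, κ, hΛ, hκ, hΛ', hκ'⟩ := lam_bounds lam
  have hα0 : 0 < α := by linarith
  obtain ⟨j0, hj0⟩ : ∃ j0 : ℕ, 8 * Λ / η < α ^ j0 := pow_unbounded_of_one_lt _ hα
  have hαj : 0 < α ^ j0 := pow_pos hα0 j0
  refine ⟨ε₁ * (κ / α ^ j0) / 2, by positivity, ?_⟩
  intro nn mm θ hseq k k' l l' hX hY hov hoff
  set s : ℕ → ℝ := fun j => (S.len (nn j) [S.a] : ℝ) with hs
  have hspos : ∀ j, 0 < s j := fun j => by
    have := hS.len_pos (nn j) S.a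
    simp only [hs]; positivity
  -- the overlap interval and its middle tile
  set a := max (S.pl lam k) (θ * T.pl mu l) with ha
  set b := min (S.pl lam (k + 1)) (θ * T.pl mu (l + 1)) with hb
  have hab : a + η ≤ b := by
    have : η ≤ b - a := hov
    linarith
  have hpl0 : 0 ≤ S.pl lam k := ASys.pl_nonneg hLS.nonneg k
  have ha0 : 0 ≤ a := hpl0.trans (le_max_left _ _)
  obtain ⟨k1, hk1, hk1', hk1p⟩ := hLS.exists_block_pl hS hα (y := α ^ j0 * ((a + b) / 2)) (by
    have : 0 ≤ b := by linarith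
    positivity)
  have hΛη : Λ < η / 8 * α ^ j0 := by
    rw [div_lt_iff₀ hη] at hj0
    nlinarith
  have e1 : S.pl lam (k1 + 1) = S.pl lam k1 + lam (S.X k1) := S.pl_succ lam k1
  have e2 : α ^ j0 * a < S.pl lam k1 := by
    have h1 := hΛ' (S.X k1)
    have h2 : α ^ j0 * ((a + b) / 2) ≥ α ^ j0 * (a + η / 2) :=
      mul_le_mul_of_nonneg_left (by linarith) hαj.le
    nlinarith
  have e3 : S.pl lam (k1 + 1) < α ^ j0 * b := by
    have h1 := hΛ' (S.X k1)
    have h2 : α ^ j0 * ((a + b) / 2) ≤ α ^ j0 * (b - η / 2) :=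
      mul_le_mul_of_nonneg_left (by linarith) hαj.le
    nlinarith
  -- the tile lies in block `k`
  have f1 : S.up j0 k ≤ k1 := by
    by_contra hcon
    push Not at hcon
    have h1 := ASys.pl_mono (S := S) hLS.nonneg hcon.le
    rw [hLS.pl_up hS] at h1
    have h2 : α ^ j0 * S.pl lam k ≤ α ^ j0 * a := mul_le_mul_of_nonneg_left (le_max_left _ _) hαj.le
    linarith
  have f2 : k1 + 1 ≤ S.up j0 (k + 1) := by
    by_contra hcon
    push Not at hcon
    have h1 := ASys.pl_mono (S := S) hLS.nonneg hcon.le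
    rw [hLS.pl_up hS] at h1
    have h2 : α ^ j0 * b ≤ α ^ j0 * S.pl lam (k + 1) :=
      mul_le_mul_of_nonneg_left (min_le_left _ _) hαj.le
    linarith
  -- limits
  have t1 := hseq.tT hT hLT l
  have t2 := hseq.tT hT hLT (l + 1)
  have t3 := hseq.tSb hS hLS hα0 j0 k1
  have t4 := hseq.tSb hS hLS hα0 j0 (k1 + 1)
  have g1 : ∀ᶠ j in atTop, (T.pos (mm j) l : ℝ) / s j < (S.pos (nn j - j0) k1 : ℝ) / s j := by
    refine t1.eventually_lt t3 ?_
    rw [lt_div_iff₀ hαj, mul_comm]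
    exact lt_of_le_of_lt (mul_le_mul_of_nonneg_left (le_max_right _ _) hαj.le) e2
  have g2 : ∀ᶠ j in atTop, (S.pos (nn j - j0) (k1 + 1) : ℝ) / s j < (T.pos (mm j) (l + 1) : ℝ) / s j := by
    refine t4.eventually_lt t2 ?_
    rw [div_lt_iff₀ hαj, mul_comm]
    exact lt_of_lt_of_le e3 (mul_le_mul_of_nonneg_left (min_le_right _ _) hαj.le)
  have tD : Tendsto (fun j => |(((S.pos (nn j) k : ℝ) / s j - (T.pos (mm j) l : ℝ) / s j) -
      ((S.pos (nn j) k' : ℝ) / s j - (T.pos (mm j) l' : ℝ) / s j))|) atTop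
      (𝓝 |Off S T lam mu θ k l - Off S T lam mu θ k' l'|) := by
    have := (((hseq.tS hLS k).sub t1).sub ((hseq.tS hLS k').sub (hseq.tT hT hLT l'))).abs
    simpa only [Off] using this
  have tl : Tendsto (fun j => ε₁ * ((S.pos (nn j - j0) (k1 + 1) : ℝ) / s j -
      (S.pos (nn j - j0) k1 : ℝ) / s j)) atTop (𝓝 (ε₁ * (S.pl lam (k1 + 1) / α ^ j0 -
        S.pl lam k1 / α ^ j0))) := (t4.sub t3).const_mul ε₁
  have g3 : ∀ᶠ j in atTop, |(((S.pos (nn j) k : ℝ) / s j - (T.pos (mm j) l : ℝ) / s j) -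
      ((S.pos (nn j) k' : ℝ) / s j - (T.pos (mm j) l' : ℝ) / s j))| <
      ε₁ * ((S.pos (nn j - j0) (k1 + 1) : ℝ) / s j - (S.pos (nn j - j0) k1 : ℝ) / s j) := by
    refine tD.eventually_lt tl ?_
    have h1 : κ / α ^ j0 ≤ S.pl lam (k1 + 1) / α ^ j0 - S.pl lam k1 / α ^ j0 := by
      rw [← sub_div, e1]
      have := hκ' _ hk1p
      exact div_le_div_of_nonneg_right (by linarith) hαj.le
    have h2 : 0 < κ / α ^ j0 := by positivity
    calc _ < ε₁ * (κ / α ^ j0) / 2 := hoff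
      _ < ε₁ * (κ / α ^ j0) := by
        have : 0 < ε₁ * (κ / α ^ j0) := by positivity
        linarith
      _ ≤ _ := mul_le_mul_of_nonneg_left h1 hε₁.le
  filter_upwards [g1, g2, g3, hseq.n_top.eventually_ge_atTop (n₁ + j0)] with j g1 g2 g3 g4
  have hsj := hspos j
  rw [div_lt_div_iff_of_pos_right hsj] at g1 g2
  by_contra hne
  set D : ℤ := ((S.pos (nn j) k : ℤ) - T.pos (mm j) l) - (S.pos (nn j) k' - T.pos (mm j) l')
    with hD
  have hD0 : D ≠ 0 := sub_ne_zero.2 hne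
  have hper := per_of_offsets hS hT hx hy (n := nn j) (n' := nn j - j0) (m := mm j) (k1 := k1)
    hX hY (by
      have := hS.pos_up (nn j - j0) j0 k
      rw [Nat.sub_add_cancel (by omega)] at this
      rw [← this]
      exact S.pos_mono _ f1) (by
      have := hS.pos_up (nn j - j0) j0 (k + 1)
      rw [Nat.sub_add_cancel (by omega)] at this
      rw [← this]
      exact S.pos_mono _ f2) (by exact_mod_cast g1.le) (by exact_mod_cast g2.le) D.natAbs (by
      rw [← hD]
      omega)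
  have h5 := hgap (nn j - j0) (by omega) _ hk1p D.natAbs (by omega) hper
  have h6 : (S.len (nn j - j0) [S.X k1] : ℝ) = (S.pos (nn j - j0) (k1 + 1) : ℝ) -
      S.pos (nn j - j0) k1 := by
    rw [S.pos_succ]; push_cast; ring
  have h7 : ((D.natAbs : ℕ) : ℝ) = |((S.pos (nn j) k : ℝ) - T.pos (mm j) l) -
      (S.pos (nn j) k' - T.pos (mm j) l')| := by
    rw [Nat.cast_natAbs, hD]; push_cast; rfl
  rw [h6, h7] at h5
  rw [← sub_div, ← sub_div, ← sub_div, ← sub_div, abs_div, abs_of_pos hsj, mul_div_assoc',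
    div_lt_div_iff_of_pos_right hsj] at g3
  linarith

end

end SUBST
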