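import Pool.Agent.Work.SUBST.SprC

/-!
# J7, part 4: sparse factors give regular enumerations
-/

set_option autoImplicit false

namespace SUBST
namespace Spr

variable {A : Type}

theorem isWord_seg {S : ASys A} {x : ℕ → ℕ} (hx : S.IsWord x) (n : ℕ) :
    S.W n [S.a] = seg x 0 (S.W n [S.a]).length := by
  conv_lhs => rw [hx n]
  simp [seg, ASys.len]

/-- Outputs of prefixes are prefixes of `x`. -/
theorem pre_seg {S : ASys A} {x : ℕ → ℕ} (hx : S.IsWord x) {P R : List A} {n : ℕ}
    (h : S.it n [S.a] = P ++ R) (j : ℕ) : S.W j P = seg x 0 (S.W j P).length := by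
  have h1 := isWord_seg hx (j + n)
  rw [← W_it, h, W_append] at h1
  exact (seg_of_append h1.symm).1

theorem pre_seg_take {S : ASys A} {x : ℕ → ℕ} (hx : S.IsWord x) {P R : List A} {b : A} {n : ℕ}
    (h : S.it n [S.a] = P ++ b :: R) {o : ℕ} (ho : o ≤ (S.h b).length) :
    seg x 0 ((S.W 0 P).length + o) = S.W 0 P ++ (S.h b).take o := by
  have h0 : S.it n [S.a] = (P ++ [b]) ++ R := by rw [h]; simp
  have h1 := pre_seg hx h0 0
  have h2 : S.W 0 (P ++ [b]) = S.W 0 P ++ S.h b := by
    rw [W_append]; congr 1; simp [W_zero]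
  rw [h2] at h1
  have h3 : S.W 0 P ++ S.h b = (S.W 0 P ++ (S.h b).take o) ++ (S.h b).drop o := by
    rw [List.append_assoc, List.take_append_drop]
  have h4 : (S.W 0 P ++ S.h b).length = ((S.W 0 P).length + o) + ((S.h b).length - o) := by
    rw [List.length_append]; omega
  rw [h4, seg_add', h3] at h1
  have h5 := List.append_inj h1 (by
    rw [length_seg', List.length_append, List.length_take, Nat.min_eq_left ho])
  exact h5.1.symm

/-- Blocks of a word. -/
theorem find_block (h : A → List ℕ) (w : List A) (o : ℕ) (h1 : 1 ≤ o)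
    (h2 : o ≤ (w.flatMap h).length) :
    ∃ v b v', w = v ++ b :: v' ∧ (v.flatMap h).length < o ∧
      o ≤ (v.flatMap h).length + (h b).length := by
  induction w generalizing o with
  | nil => simp at h2; omega
  | cons c w ih =>
    by_cases hc : o ≤ (h c).length
    · exact ⟨[], c, w, rfl, by simp; omega, by simpa using hc⟩
    · rw [List.flatMap_cons, List.length_append] at h2
      obtain ⟨v, b, v', e, h3, h4⟩ := ih (o - (h c).length) (by omega) (by omega)
      refine ⟨c :: v, b, v', by rw [e]; rfl, ?_, ?_⟩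
      · rw [List.flatMap_cons, List.length_append]; omega
      · rw [List.flatMap_cons, List.length_append]; omega

section Main

variable {S : ASys A} {x : ℕ → ℕ} {f : List ℕ} {T : A → Q f → Q f} {Pr : A × Q f → Bool}
  {u : List A}

/-- The state at the beginning of every level. -/
def q1 (S : ASys A) (f : List ℕ) (T : A → Q f → Q f) : Q f := T S.a (st f [])

theorem Tw_start (H : Nrm S f T Pr) (i : ℕ) : Tw T (st f []) (S.it i [S.a]) = q1 S f T := by
  rw [H.Tw_it]; rfl

/-- Occurrences in the output of a prefix. -/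
theorem hits_pre (hf : f ≠ []) (hx : S.IsWord x) {P R : List A} {n : ℕ}
    (h : S.it n [S.a] = P ++ R) (j : ℕ) :
    hits f (st f []) (S.W j P) = Nat.count (Occ x f) ((S.W j P).length + 1 - f.length) := by
  rw [pre_seg hx h j, hits_seg hf, length_seg']

/-- Blocks of letters which occur in infinitely many levels have few occurrences. -/
theorem inf_bound (hG : S.Good) (hx : S.IsWord x) (hf : f ≠ []) (H : Nrm S f T Pr)
    (hu : S.σ S.a = S.a :: u) (hu0 : u ≠ []) {C : ℕ}
    (hC : ∀ L, ∃ N, ∀ i, N ≤ i → Nat.count (Occ x f) (i + L) ≤ Nat.count (Occ x f) i + C)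
    (c : A × Q f) (hc : ∀ N, ∃ i, N ≤ i ∧ c ∈ lab T (q1 S f T) (S.it i u)) (j : ℕ) :
    hits f c.2 (S.W j [c.1]) ≤ C := by
  obtain ⟨N, hN⟩ := hC (S.W j [c.1]).length
  obtain ⟨i, hi, hm⟩ := hc (N + f.length)
  obtain ⟨v', v'', hv⟩ := List.append_of_mem hm
  obtain ⟨v₁, v₂, e, -, h5, -⟩ := lab_split T hv
  have h6 : S.it (i + 1) [S.a] = (S.it i [S.a] ++ v₁) ++ ([c.1] ++ v₂) := by
    rw [it_start S hu, e]; simp
  have h7 : S.it (i + 1) [S.a] = ((S.it i [S.a] ++ v₁) ++ [c.1]) ++ v₂ := by
    rw [h6]; simp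
  have h8 := hits_pre hf hx h6 j
  have h9 := hits_pre hf hx h7 j
  rw [W_append, hits_append, h8, H.run_W, Tw_append, Tw_start H, h5, List.length_append] at h9
  have h10 : i + 1 ≤ (S.W j (S.it i [S.a] ++ v₁)).length := by
    refine le_trans ?_ (le_length_W S hG j _)
    rw [List.length_append]
    have := length_start S hG hu hu0 i
    omega
  have h11 := hN ((S.W j (S.it i [S.a] ++ v₁)).length + 1 - f.length) (by omega)
  have e2 : (S.W j (S.it i [S.a] ++ v₁)).length + (S.W j [c.1]).length + 1 - f.length =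
      (S.W j (S.it i [S.a] ++ v₁)).length + 1 - f.length + (S.W j [c.1]).length := by omega
  rw [e2] at h9
  omega

theorem pc_le (H : Nrm S f T Pr) {C : ℕ} (j : ℕ) (q : Q f) (w : List A)
    (h : ∀ c ∈ lab T q w, hits f c.2 (S.W j [c.1]) ≤ C) :
    (lab T q (S.it j w)).countP Pr ≤ w.length * C := by
  have h1 := H.pc_le_hits 0 q (S.it j w)
  rw [W_it, Nat.zero_add, H.hits_W] at h1
  refine h1.trans ?_
  have h2 := List.sum_le_card_nsmul ((lab T q w).map fun c => hits f c.2 (S.W j [c.1])) C (by
    intro y hy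
    obtain ⟨c, hc, rfl⟩ := List.mem_map.1 hy
    exact h c hc)
  rw [List.length_map, lab_length, smul_eq_mul] at h2
  exact h2

theorem pc_mono_it (H : Nrm S f T Pr) (q : Q f) (w : List A) {i j : ℕ} (hij : i ≤ j) :
    (lab T q (S.it i w)).countP Pr ≤ (lab T q (S.it j w)).countP Pr := by
  induction j, hij using Nat.le_induction with
  | base => exact le_rfl
  | succ j _ ih =>
    refine ih.trans ?_
    have e : S.it (j + 1) w = S.ap (S.it j w) := by
      rw [Nat.add_comm, it_add, it_one]
    rw [e]
    exact H.pc_mono q _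

/-- The number of productive letters of a level is bounded. -/
theorem pc_bound [Finite A] (hG : S.Good) (hx : S.IsWord x) (hf : f ≠ []) (H : Nrm S f T Pr)
    (hu : S.σ S.a = S.a :: u) (hu0 : u ≠ []) {C : ℕ}
    (hC : ∀ L, ∃ N, ∀ i, N ≤ i → Nat.count (Occ x f) (i + L) ≤ Nat.count (Occ x f) i + C) :
    ∃ B, ∀ i, (lab T (q1 S f T) (S.it i u)).countP Pr ≤ B := by
  classical
  have : Fintype (A × Q f) := Fintype.ofFinite _
  have h1 : ∀ c : A × Q f, ∃ N, (∃ i, N ≤ i ∧ c ∈ lab T (q1 S f T) (S.it i u)) →
      ∀ N, ∃ i, N ≤ i ∧ c ∈ lab T (q1 S f T) (S.it i u) := by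
    intro c
    by_cases hc : ∀ N, ∃ i, N ≤ i ∧ c ∈ lab T (q1 S f T) (S.it i u)
    · exact ⟨0, fun _ => hc⟩
    · push Not at hc
      obtain ⟨N, hN⟩ := hc
      exact ⟨N, fun ⟨i, hi, hm⟩ => absurd hm (hN i hi)⟩
  choose N hN using h1
  set i0 := Finset.univ.sup N with hi0
  refine ⟨(S.it i0 u).length * C, fun i => ?_⟩
  have h2 : (lab T (q1 S f T) (S.it (i0 + i) u)).countP Pr ≤ (S.it i0 u).length * C := by
    rw [Nat.add_comm, it_add]
    refine pc_le H i _ _ fun c hc => ?_
    exact inf_bound hG hx hf H hu hu0 hC c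
      (hN c ⟨i0, Finset.le_sup (f := N) (Finset.mem_univ c), hc⟩) i
  exact (pc_mono_it H _ _ (Nat.le_add_left i i0)).trans h2

/-- From some level on, productive letters have unique productive children. -/
theorem exists_ok [Finite A] (hG : S.Good) (hx : S.IsWord x) (hf : f ≠ []) (H : Nrm S f T Pr)
    (hu : S.σ S.a = S.a :: u) (hu0 : u ≠ []) {C : ℕ}
    (hC : ∀ L, ∃ N, ∀ i, N ≤ i → Nat.count (Occ x f) (i + L) ≤ Nat.count (Occ x f) i + C) :
    ∃ i1, Nrm.Ok S f T Pr (q1 S f T) (S.it i1 u) := by
  classical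
  have hB := pc_bound hG hx hf H hu hu0 hC
  have h1 : ∃ i1, ∀ i, (lab T (q1 S f T) (S.it i u)).countP Pr ≤
      (lab T (q1 S f T) (S.it i1 u)).countP Pr := by
    by_contra hc
    push Not at hc
    have h2 := Nat.find_spec hB
    set B := Nat.find hB with hBd
    have h3 : ∀ i, (lab T (q1 S f T) (S.it i u)).countP Pr + 1 ≤ B := by
      intro i
      obtain ⟨j, hj⟩ := hc i
      have := h2 j
      omega
    have h4 : B ≤ B - 1 := Nat.find_min' hB (fun i => by have := h3 i; omega)
    have := h3 0
    omega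
  obtain ⟨i1, h1⟩ := h1
  refine ⟨i1, fun j b hb hp => ?_⟩
  rw [← it_add] at hb
  refine H.uniq_child _ _ ?_ b hb hp
  have e : S.ap (S.it (j + i1) u) = S.it (1 + (j + i1)) u := by
    conv_rhs => rw [it_add, it_one]
  rw [e]
  have h2 := h1 (1 + (j + i1))
  have h3 := pc_mono_it H (q1 S f T) u (show i1 ≤ j + i1 by omega)
  have h4 := pc_mono_it H (q1 S f T) u (show j + i1 ≤ 1 + (j + i1) by omega)
  omega

end Main

section Final

variable {S : ASys A} {x : ℕ → ℕ} {f : List ℕ} {T : A → Q f → Q f} {Pr : A × Q f → Bool}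
  {u : List A}

/-- The number of occurrences completed in the first levels. -/
def G (S : ASys A) (f : List ℕ) (n : ℕ) : ℕ := hits f (st f []) (S.W n [S.a])

/-- The number of occurrences at productive letters. -/
def wt (S : ASys A) (f : List ℕ) (l : List (A × Q f)) : ℕ :=
  (l.map fun c => hits f c.2 (S.W 0 [c.1])).sum

theorem G_eq (hf : f ≠ []) (hx : S.IsWord x) (n : ℕ) :
    G S f n = Nat.count (Occ x f) ((S.W n [S.a]).length + 1 - f.length) := by
  have : S.it 0 [S.a] = [S.a] ++ [] := rfl
  exact hits_pre hf hx this n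

/-- Occurrences completed in the output of `it n [a] ++ v`. -/
theorem hits_level (H : Nrm S f T Pr) (n : ℕ) (v : List A) :
    hits f (st f []) (S.W 0 (S.it n [S.a] ++ v)) =
      G S f n + wt S f ((lab T (q1 S f T) v).filter Pr) := by
  rw [W_append, hits_append, H.run_W, Tw_start H, W_it, Nat.zero_add, H.hits_filter 0]
  rfl

theorem G_succ (H : Nrm S f T Pr) (hu : S.σ S.a = S.a :: u) (n : ℕ) :
    G S f (n + 1) = G S f n + wt S f ((lab T (q1 S f T) (S.it n u)).filter Pr) := by
  rw [← hits_level H, ← it_start S hu, W_it, Nat.zero_add]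
  rfl

theorem map_self {α : Type} {g : α → α} {l : List α} (h : ∀ b ∈ l, g b = b) : l.map g = l := by
  conv_rhs => rw [← List.map_id l]
  exact List.map_congr_left h

/-- The heart: the enumeration of the occurrences is regular. -/
theorem nrm_regEnum [Finite A] (hG : S.Good) (hx : S.IsWord x) (H : Nrm S f T Pr)
    (hs : Sparse x f) : S.RegEnum {i | seg x i f.length = f} := by
  classical
  have hf : f ≠ [] := hs.1
  have hm : 0 < f.length := List.length_pos_iff.2 hf
  have hinf : {i | Occ x f i}.Infinite := occ_infinite hs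
  obtain ⟨u, hu0, hu⟩ := hG.start
  obtain ⟨C, hC⟩ := sparse_count hs
  obtain ⟨i1, hok⟩ := exists_ok hG hx hf H hu hu0 hC
  obtain ⟨M, hM, hid⟩ := exists_idem (Nrm.phi S f T Pr)
  -- productive letters of far levels are fixed
  have hoki : ∀ i, i1 ≤ i → Nrm.Ok S f T Pr (q1 S f T) (S.it i u) := by
    intro i hi
    have := hok.it (i - i1)
    rwa [← it_add, Nat.sub_add_cancel hi] at this
  have hfix : ∀ i, i1 + M ≤ i → ∀ b ∈ (lab T (q1 S f T) (S.it i u)).filter Pr,
      (Nrm.phi S f T Pr)^[M] b = b := by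
    intro i hi b hb
    have h1 : S.it i u = S.it M (S.it (i - M) u) := by rw [← it_add]; congr 1; omega
    rw [h1, H.filter_it (hoki (i - M) (by omega)) M, List.mem_map] at hb
    obtain ⟨d, -, rfl⟩ := hb
    exact hid d
  have hper : ∀ i, i1 + M ≤ i → (lab T (q1 S f T) (S.it (i + M) u)).filter Pr =
      (lab T (q1 S f T) (S.it i u)).filter Pr := by
    intro i hi
    have h1 : S.it (i + M) u = S.it M (S.it i u) := by rw [← it_add]; congr 1; omega
    rw [h1, H.filter_it (hoki i (by omega)) M]
    exact map_self (hfix i hi)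
  -- the counts grow by a constant
  have hGmono : Monotone (G S f) := by
    refine monotone_nat_of_le_succ fun n => ?_
    rw [G_succ H hu]
    exact Nat.le_add_right _ _
  set i2 := i1 + M with hi2
  obtain ⟨κ, hκ⟩ : ∃ κ, G S f (i2 + M) = G S f i2 + κ :=
    ⟨G S f (i2 + M) - G S f i2, by have := hGmono (Nat.le_add_right i2 M); omega⟩
  have hG1 : ∀ i, i2 ≤ i → G S f (i + M) = G S f i + κ := by
    intro i hi
    induction i, hi using Nat.le_induction with
    | base => exact hκ
    | succ i hi ih =>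
      have e : i + 1 + M = (i + M) + 1 := by omega
      rw [e, G_succ H hu, G_succ H hu i, hper i hi, ih]
      omega
  have hG2 : ∀ i t, i2 ≤ i → G S f (i + M * t) = G S f i + κ * t := by
    intro i t hi
    induction t with
    | zero => simp
    | succ t ih =>
      have e : i + M * (t + 1) = (i + M * t) + M := by rw [Nat.mul_succ]; omega
      rw [e, hG1 _ (by omega), ih, Nat.mul_succ]
      omega
  have hlen : ∀ n, n + 1 ≤ (S.W n [S.a]).length := by
    intro n
    have h1 := length_start S hG hu hu0 n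
    have h2 := le_length_W S hG 0 (S.it n [S.a])
    rw [W_it, Nat.zero_add] at h2
    omega
  have hκ1 : 1 ≤ κ := by
    by_contra hc
    have h0 : κ = 0 := by omega
    have h1 : ∀ n, Nat.count (Occ x f) n ≤ G S f i2 := by
      intro n
      have h2 := hG2 i2 (n + f.length) le_rfl
      rw [h0, Nat.zero_mul, Nat.add_zero, G_eq hf hx] at h2
      rw [← h2]
      refine Nat.count_monotone _ ?_
      have h3 := hlen (i2 + M * (n + f.length))
      have h4 : n + f.length ≤ M * (n + f.length) := Nat.le_mul_of_pos_left _ hM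
      omega
    have h2 := h1 (Nat.nth (Occ x f) (G S f i2 + 1))
    rw [Nat.count_nth_of_infinite hinf] at h2
    omega
  refine ⟨hinf, κ, G S f i2, hκ1, fun i hi => ?_⟩
  -- the occurrence number `i`
  have hcnt : Nat.count (Occ x f) (Nat.nth (Occ x f) i) = i := Nat.count_nth_of_infinite hinf i
  have hocc : Occ x f (Nat.nth (Occ x f) i) := Nat.nth_mem_of_infinite hinf i
  set e := Nat.nth (Occ x f) i with he
  have hcnt1 : Nat.count (Occ x f) (e + 1) = i + 1 := by
    rw [Nat.count_succ, if_pos hocc, hcnt]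
  set k := e + f.length with hk
  have hk1 : (S.W i2 [S.a]).length < k := by
    by_contra hc
    have h1 : e + 1 ≤ (S.W i2 [S.a]).length + 1 - f.length := by omega
    have h2 := Nat.count_monotone (Occ x f) h1
    rw [hcnt1, ← G_eq hf hx] at h2
    omega
  -- the level
  obtain ⟨l, hl, hl1, hl2⟩ : ∃ l, i2 ≤ l ∧ (S.W l [S.a]).length < k ∧
      k ≤ (S.W (l + 1) [S.a]).length := by
    have hex : ∃ n, k ≤ (S.W (i2 + n + 1) [S.a]).length :=
      ⟨k, by have := hlen (i2 + k + 1); omega⟩
    refine ⟨i2 + Nat.find hex, by omega, ?_, Nat.find_spec hex⟩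
    rcases Nat.eq_zero_or_pos (Nat.find hex) with h0 | h0
    · rw [h0]; exact hk1
    · have h1 := Nat.find_min hex (m := Nat.find hex - 1) (by omega)
      have h2 : i2 + (Nat.find hex - 1) + 1 = i2 + Nat.find hex := by omega
      rw [h2] at h1
      omega
  have hWl : (S.W (l + 1) [S.a]).length =
      (S.W l [S.a]).length + ((S.it l u).flatMap S.h).length := by
    have h1 : S.W (l + 1) [S.a] = S.W 0 (S.it (l + 1) [S.a]) := by rw [W_it, Nat.zero_add]
    rw [h1, it_start S hu, W_append, W_it, Nat.zero_add, List.length_append]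
    rfl
  obtain ⟨v, b, v', hv, hv1, hv2⟩ := find_block S.h (S.it l u) (k - (S.W l [S.a]).length)
    (by omega) (by omega)
  set q := Tw T (q1 S f T) v with hq
  set P0 := S.it l [S.a] ++ v with hP0
  have hP0l : (S.W 0 P0).length = (S.W l [S.a]).length + (v.flatMap S.h).length := by
    rw [hP0, W_append, W_it, Nat.zero_add, List.length_append]
    rfl
  obtain ⟨o, ho⟩ : ∃ o, k = (S.W 0 P0).length + (o + 1) := ⟨k - (S.W 0 P0).length - 1, by omega⟩
  have ho2 : o + 1 ≤ (S.h b).length := by omega
  -- counting up to a place in the block of `b`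
  have hplace : ∀ (P R : List A) (n o' : ℕ), S.it n [S.a] = P ++ b :: R → Tw T (st f []) P = q →
      o' ≤ (S.h b).length → Nat.count (Occ x f) ((S.W 0 P).length + o' + 1 - f.length) =
        hits f (st f []) (S.W 0 P) + hits f q ((S.h b).take o') := by
    intro P R n o' h1 h2 h3
    rw [← hits_seg hf, pre_seg_take hx h1 h3, hits_append, H.run_W, h2]
  have hP0q : Tw T (st f []) P0 = q := by
    rw [hP0, Tw_append, Tw_start H]
  have hP0it : S.it (l + 1) [S.a] = P0 ++ b :: v' := by
    rw [it_start S hu, hv, hP0, List.append_assoc]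
  have hc1 := hplace P0 v' (l + 1) (o + 1) hP0it hP0q ho2
  have hc0 := hplace P0 v' (l + 1) o hP0it hP0q (by omega)
  have he1 : (S.W 0 P0).length + (o + 1) + 1 - f.length = e + 1 := by omega
  have he0 : (S.W 0 P0).length + o + 1 - f.length = e := by omega
  rw [he1, hcnt1] at hc1
  rw [he0, hcnt] at hc0
  -- `b` is productive
  have hpb : Pr (b, q) = true := by
    rw [← H.prod 0]
    have h1 : S.W 0 [b] = (S.h b).take (o + 1) ++ (S.h b).drop (o + 1) := by
      rw [List.take_append_drop]; simp [W_zero]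
    rw [h1, hits_append]
    omega
  have hmem : (b, q) ∈ (lab T (q1 S f T) (S.it l u)).filter Pr := by
    rw [List.mem_filter]
    refine ⟨?_, hpb⟩
    rw [hv, lab_append]
    refine List.mem_append_right _ ?_
    rw [lab]
    exact List.mem_cons_self
  have hfb : (Nrm.phi S f T Pr)^[M] (b, q) = (b, q) := hfix l hl _ hmem
  have hokb : Nrm.Ok S f T Pr q [b] := by
    have h1 := hoki l (by omega)
    rw [hv] at h1
    have h2 := Nrm.Ok.right H h1
    exact Nrm.Ok.left (v := v') (by simpa using h2)
  -- the decomposition of `σ^M(b)`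
  have hMb : (lab T q (S.it M [b])).filter Pr = [(b, q)] := by
    rw [H.filter_it hokb M]
    have : lab T q [b] = [(b, q)] := rfl
    rw [this, List.filter_cons_of_pos hpb, List.filter_nil, List.map_cons, hfb, List.map_nil]
  have hmb : (b, q) ∈ lab T q (S.it M [b]) := by
    have : (b, q) ∈ (lab T q (S.it M [b])).filter Pr := by rw [hMb]; exact List.mem_cons_self
    exact (List.mem_filter.1 this).1
  obtain ⟨y, y', hy⟩ := List.append_of_mem hmb
  obtain ⟨w, w', hw, hwy, hwq, -⟩ := lab_split T hy
  have hyf : y.filter Pr = [] := by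
    rw [hy, List.filter_append, List.filter_cons_of_pos hpb] at hMb
    have h1 := congrArg List.length hMb
    simp only [List.length_append, List.length_cons, List.length_nil] at h1
    exact List.length_eq_zero_iff.1 (by omega)
  -- the level sequence
  have hlev : ∀ t, ∃ vt vt', S.lev M w t P0 = S.it (l + M * t) [S.a] ++ vt ∧
      S.it (l + M * t) u = vt ++ b :: vt' ∧ Tw T (q1 S f T) vt = q ∧
      (lab T (q1 S f T) vt).filter Pr = (lab T (q1 S f T) v).filter Pr := by
    intro t
    induction t with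
    | zero => exact ⟨v, v', rfl, hv, rfl, rfl⟩
    | succ t ih =>
      obtain ⟨vt, vt', h1, h2, h3, h4⟩ := ih
      have e1 : l + M * (t + 1) = M + (l + M * t) := by rw [Nat.mul_succ]; omega
      refine ⟨S.it M vt ++ w, w' ++ S.it M vt', ?_, ?_, ?_, ?_⟩
      · have h5 : S.lev M w (t + 1) P0 = S.it M (S.lev M w t P0) ++ w := by
          simp [ASys.lev, Function.iterate_succ_apply']
        rw [h5, h1, it_append, ← it_add, e1, List.append_assoc]
      · have h5 : b :: vt' = [b] ++ vt' := rfl
        rw [e1, it_add, h2, h5, it_append, it_append, hw]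
        simp
      · rw [Tw_append, H.Tw_it, h3, hwq]
      · rw [lab_append, H.Tw_it, h3, hwy, List.filter_append, hyf, List.append_nil]
        have h5 : Nrm.Ok S f T Pr (q1 S f T) vt := by
          have := hoki (l + M * t) (by omega)
          rw [h2] at this
          exact this.left
        rw [H.filter_it h5 M, ← h4]
        refine map_self fun c hc => hfix (l + M * t) (by omega) c ?_
        rw [h2, lab_append, List.filter_append]
        exact List.mem_append_left _ hc
  refine ⟨M, P0, [b], w, (o : ℤ) + 1 - f.length, ⟨hM, ?_, by simp, ⟨l + 1, v', ?_⟩, ⟨w', ?_⟩⟩,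
    fun t => ?_⟩
  · rw [hP0]
    have h1 := length_start S hG hu hu0 l
    intro h2
    have := congrArg List.length h2
    rw [List.length_append] at this
    simp only [List.length_nil] at this
    omega
  · rw [hP0it]; simp
  · rw [hw]; simp
  · obtain ⟨vt, vt', h1, h2, h3, h4⟩ := hlev t
    have h5 : S.it (l + M * t + 1) [S.a] = S.lev M w t P0 ++ b :: vt' := by
      rw [it_start S hu, h1, h2, List.append_assoc]
    have h6 : Tw T (st f []) (S.lev M w t P0) = q := by
      rw [h1, Tw_append, Tw_start H, h3]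
    have h7 := hplace _ _ _ (o + 1) h5 h6 ho2
    have h8 := hplace _ _ _ o h5 h6 (by omega)
    have h9 : hits f (st f []) (S.W 0 (S.lev M w t P0)) =
        hits f (st f []) (S.W 0 P0) + κ * t := by
      rw [h1, hits_level H, h4, hP0, hits_level H, hG2 l t (by omega)]
      omega
    rw [h9] at h7 h8
    have h10 : Nat.count (Occ x f) ((S.W 0 (S.lev M w t P0)).length + (o + 1) + 1 - f.length) =
        i + κ * t + 1 := by omega
    have h11 : Nat.count (Occ x f) ((S.W 0 (S.lev M w t P0)).length + o + 1 - f.length) =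
        i + κ * t := by omega
    have h12 : 1 ≤ (S.W 0 (S.lev M w t P0)).length + (o + 1) + 1 - f.length := by
      by_contra hc
      have h0 : (S.W 0 (S.lev M w t P0)).length + (o + 1) + 1 - f.length = 0 := by omega
      rw [h0, Nat.count_zero] at h10
      omega
    have h13 : (S.W 0 (S.lev M w t P0)).length + (o + 1) + 1 - f.length =
        ((S.W 0 (S.lev M w t P0)).length + o + 1 - f.length) + 1 := by omega
    have h14 : Occ x f ((S.W 0 (S.lev M w t P0)).length + o + 1 - f.length) := by
      rw [h13, Nat.count_succ] at h10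
      by_contra hc
      rw [if_neg hc] at h10
      omega
    have h15 := Nat.nth_count h14
    rw [h11] at h15
    change ((Nat.nth (Occ x f) (i + κ * t) : ℕ) : ℤ) = _
    rw [h15]
    have h17 : ((S.lev M w t P0).flatMap S.h).length = (S.W 0 (S.lev M w t P0)).length := rfl
    rw [h17]
    omega

/-- Regular sequences of the shifted power are regular. -/
theorem regSeq_sp {S : ASys A} (hG : S.Good) {r p : ℕ} (hp : 1 ≤ p) {e : ℕ → ℕ}
    (h : (sp S r p).RegSeq e) : S.RegSeq e := by
  obtain ⟨M, P, z, w, d, ⟨hM, hP, hz, ⟨n, R, hn⟩, ⟨R', hR'⟩⟩, he⟩ := h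
  have hne : ∀ v : List A, v ≠ [] → S.it r v ≠ [] := by
    intro v hv h0
    have h1 := le_length_it S hG.ne r v
    rw [h0, List.length_nil] at h1
    exact hv (List.length_eq_zero_iff.1 (by omega))
  refine ⟨p * M, S.it r P, S.it r z, S.it r w, d, ⟨Nat.mul_pos hp hM, hne P hP, hne z hz,
    ⟨r + p * n, S.it r R, ?_⟩, ⟨S.it r R', ?_⟩⟩, fun t => ?_⟩
  · have ha : (sp S r p).a = S.a := rfl
    rw [ha, sp_it] at hn
    rw [it_add, ← hn, it_append, it_append]
  · rw [sp_it] at hR'
    rw [← it_add, Nat.add_comm, it_add, ← hR', it_append, it_append]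
  · rw [he t]
    have h1 : ∀ t, S.lev (p * M) (S.it r w) t (S.it r P) = S.it r ((sp S r p).lev M w t P) := by
      intro t
      induction t with
      | zero => rfl
      | succ t ih =>
        have h2 : ∀ (S' : ASys A) (M' : ℕ) (w' P' : List A), S'.lev M' w' (t + 1) P' =
            S'.it M' (S'.lev M' w' t P') ++ w' := by
          intro S' M' w' P'
          simp [ASys.lev, Function.iterate_succ_apply']
        rw [h2, h2, ih, it_append, sp_it, ← it_add, ← it_add, Nat.add_comm]
    have h2 : ((sp S r p).lev M w t P).flatMap (sp S r p).h =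
        (S.lev (p * M) (S.it r w) t (S.it r P)).flatMap S.h := by
      rw [h1]
      have h3 : ((sp S r p).lev M w t P).flatMap (sp S r p).h =
          ((sp S r p).lev M w t P).flatMap fun c => S.W r [c] := rfl
      rw [h3, ← W_flatMap]
      rfl
    rw [h2]

theorem good_sp {S : ASys A} (hG : S.Good) {r p : ℕ} (hp : 1 ≤ p) : (sp S r p).Good := by
  obtain ⟨u, hu0, hu⟩ := hG.start
  refine ⟨fun c h0 => ?_, fun c h0 => ?_, ?_, fun c => ?_⟩
  · have h1 := le_length_it S hG.ne p [c]
    have h2 : S.it p [c] = [] := h0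
    rw [h2] at h1
    simp at h1
  · have h1 := le_length_W S hG r [c]
    have h2 : S.W r [c] = [] := h0
    rw [h2] at h1
    simp at h1
  · have h1 : ∀ n, ∃ R, S.it n [S.a] = S.a :: R := by
      intro n
      induction n with
      | zero => exact ⟨[], rfl⟩
      | succ n ih =>
        obtain ⟨R, hR⟩ := ih
        exact ⟨R ++ S.it n u, by rw [it_start S hu, hR]; rfl⟩
    obtain ⟨R, hR⟩ := h1 p
    refine ⟨R, ?_, hR⟩
    rintro rfl
    have := length_start S hG hu hu0 p
    rw [hR] at this
    simp only [List.length_cons, List.length_nil] at this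
    omega
  · obtain ⟨n, hn⟩ := hG.reach c
    refine ⟨n, ?_⟩
    have h1 : ∀ m, n ≤ m → c ∈ S.it m [S.a] := by
      intro m hm
      induction m, hm using Nat.le_induction with
      | base => exact hn
      | succ m _ ih => rw [it_start S hu]; exact List.mem_append_left _ ih
    have ha : (sp S r p).a = S.a := rfl
    rw [ha, sp_it]
    exact h1 _ (Nat.le_mul_of_pos_left _ hp)

theorem isWord_sp {S : ASys A} {x : ℕ → ℕ} (hx : S.IsWord x) (r p : ℕ) :
    (sp S r p).IsWord x := by
  intro n
  have ha : (sp S r p).a = S.a := rfl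
  rw [ASys.len, ha, sp_W]
  exact hx _

/-- J7: the occurrences of a sparse factor have a regular enumeration in every system. -/
theorem J7 [Finite A] {S : ASys A} {x : ℕ → ℕ} {f : List ℕ} (hG : S.Good) (hx : S.IsWord x)
    (hs : Sparse x f) : S.RegEnum {i | seg x i f.length = f} := by
  obtain ⟨r, p, hp, T, Pr, H⟩ := exists_nrm S f
  obtain ⟨h1, κ, i0, hκ, h2⟩ := nrm_regEnum (good_sp hG hp) (isWord_sp hx r p) H hs
  exact ⟨h1, κ, i0, hκ, fun i hi => regSeq_sp hG hp (h2 i hi)⟩

end Final

end Spr
end SUBST
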