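import Pool.Agent.Work.SUBST.Assembly
import Pool.Agent.Work.SUBST.RegSeq
import Pool.Agent.Work.SUBST.Gap2
import Pool.Agent.Work.SUBST.Sep
import Pool.Agent.Work.SUBST.RatioFin
import Pool.Agent.Work.SUBST.Chain
import Pool.Agent.Work.SUBST.SprD
import Pool.Agent.Work.SUBST.Poly
import Pool.Agent.Work.SUBST.CaseI
import Pool.Agent.Work.SUBST.FirstBreak

/-!
# The proved joints, in the form of `Joints.lean`
-/

set_option autoImplicit false

namespace SUBST

theorem jReg : JReg := by
  intro A _ S e hS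
  exact ⟨fun p hp h => ASys.RegSeq.of_pow hp h, fun r h => ASys.RegSeq.of_shift hS h,
    fun i k hk h => ASys.RegSeq.ap hS h i hk⟩

theorem jCert : JCert := by
  intro A B _ _ S T x e hS hT hx hy h1 h2
  exact acert_of_regSeq hS hT hx hy h1 h2

theorem jSep : JSep := by
  intro A B _ _ S T x α β lam mu hS hT hx hy hL hM hα hβ hG
  exact sep hS hT hx hy hL hM hα hG

theorem jRatio : JRatio := by
  intro A B _ _ S T x α β lam mu hS hT hx hy hL hM hα hβ hu hG hsep
  exact ratioFin hS hT hL hM hα hβ hsep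

theorem jChain : JChain := by
  intro A B _ _ S T x α β lam mu hS hT hx hy hL hM hα hβ hu hG hsep
  exact chain hS hT hL hM hα hβ hsep

theorem jSplit : JSplit := by
  intro A _ S α lam hS hL hα
  obtain ⟨p, hp, h⟩ := ASys.exists_loops S
  have h1 := h 1 le_rfl
  rw [mul_one] at h1
  refine ⟨p, hp, ?_⟩
  have hα1 : 1 < α ^ p := one_lt_pow₀ hα (by omega)
  rcases ASys.gapJ (Asm.good_pow hS hp) (Asm.limits_pow hS hL hp) hα1 h1 with
    ⟨c, hc, q, hq, h2⟩ | ⟨ε, hε, n1, h2⟩
  · exact Or.inr ⟨c, q, 0, hc, hq, fun n _ i hi => (h2 n i hi).symm⟩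
  · exact Or.inl ⟨ε, hε, n1, fun n hn c hc q hq hP => h2 n hn c hc q hq hP⟩

theorem jSparse : JSparse := by
  intro A _ S x f hS hx hu hf
  exact Spr.J7 hS hx hf

theorem jPoly : JPoly := by
  intro A _ S x hS hx hP hu
  classical
  have := Fintype.ofFinite A
  exact poly_sparse hS hx hP hu

theorem jCaseI : JCaseI :=
  CI.jcaseI fun _ _ _ _ _ hS hx hq hinf => fb hS hx hq hinf

/-- **The mathematics joint.** -/
theorem core : Core :=
  core_of_joints jReg jCert jPoly jSparse jSplit jCaseI jSep jRatio jChain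

end SUBST
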