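import Mathlib

/-!
# Abstract non-erasing systems: the definitions shared by all joints (problem 24c0d2)
-/

set_option autoImplicit false

namespace SUBST

/-- An abstract system: a morphism `σ` on the letter type `A`, a morphism `h` to words over `ℕ`
and a start letter. -/
structure ASys (A : Type) where
  /-- the morphism -/
  σ : A → List A
  /-- the output morphism -/
  h : A → List ℕ
  /-- the start letter -/
  a : A

namespace ASys

variable {A : Type} (S : ASys A)

/-- The morphism on words. -/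
def ap (w : List A) : List A := w.flatMap S.σ

/-- Iterates on words. -/
def it (n : ℕ) (w : List A) : List A := S.ap^[n] w

/-- The output of the `n`-th iterate. -/
def W (n : ℕ) (w : List A) : List ℕ := (S.it n w).flatMap S.h

/-- Non-erasing, prolongable on `a`, every letter is reachable. -/
structure Good : Prop where
  ne : ∀ c, S.σ c ≠ []
  hne : ∀ c, S.h c ≠ []
  start : ∃ u : List A, u ≠ [] ∧ S.σ S.a = S.a :: u
  reach : ∀ c, ∃ n, c ∈ S.it n [S.a]

/-- The power `σ^p`. -/
def pow (p : ℕ) : ASys A := ⟨fun c => S.it p [c], S.h, S.a⟩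

/-- The shift `h σ^r`. -/
def shift (r : ℕ) : ASys A := ⟨S.σ, fun c => S.W r [c], S.a⟩

/-- The fixed point `X` of `σ` (a sequence of letters). -/
def X (k : ℕ) : A := (S.it (k + 1) [S.a]).getD k S.a

/-- The prefix of `X` of length `k`. -/
def pre (k : ℕ) : List A := (List.range k).map S.X

/-- Length of a block at level `n`. -/
def len (n : ℕ) (w : List A) : ℕ := (S.W n w).length

/-- Left end of the `k`-th block at level `n`. -/
def pos (n k : ℕ) : ℕ := S.len n (S.pre k)

/-- `x` is the word of `S`. -/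
def IsWord (x : ℕ → ℕ) : Prop := ∀ n, S.W n [S.a] = (List.range (S.len n [S.a])).map x

/-- The level sequence `P_0 = P`, `P_(t+1) = σ^M(P_t) w`. -/
def lev (M : ℕ) (w : List A) (t : ℕ) (P : List A) : List A := (fun Z => S.it M Z ++ w)^[t] P

/-- Data of a level sequence: `P_t z` is a prefix of `X` for all `t`. -/
def LevOK (M : ℕ) (P z w : List A) : Prop :=
  1 ≤ M ∧ P ≠ [] ∧ z ≠ [] ∧ (∃ n, (P ++ z) <+: S.it n [S.a]) ∧ (w ++ z) <+: S.it M z

/-- `e` is, up to a constant, the sequence of lengths of the outputs of a level sequence. -/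
def RegSeq (e : ℕ → ℕ) : Prop :=
  ∃ (M : ℕ) (P z w : List A) (d : ℤ), S.LevOK M P z w ∧
    ∀ t, (e t : ℤ) = ((S.lev M w t P).flatMap S.h).length + d

/-- The increasing enumeration of the set `K` is, on arithmetic progressions, made of regular
sequences. -/
def RegEnum (K : Set ℕ) : Prop :=
  K.Infinite ∧ ∃ κ i0 : ℕ, 1 ≤ κ ∧
    ∀ i, i0 ≤ i → S.RegSeq (fun t => Nat.nth (fun y => y ∈ K) (i + κ * t))

/-- Ratio limits: `s(n+1)/s(n) → α`, `len n [c]/s(n) → lam c`. -/
def Limits (α : ℝ) (lam : A → ℝ) : Prop :=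
  1 ≤ α ∧ (∀ c, 0 ≤ lam c) ∧ lam S.a = 1 ∧
  Filter.Tendsto (fun n => (S.len (n + 1) [S.a] : ℝ) / S.len n [S.a]) Filter.atTop (nhds α) ∧
  ∀ c, Filter.Tendsto (fun n => (S.len n [c] : ℝ) / S.len n [S.a]) Filter.atTop (nhds (lam c))

/-- No letter occurs twice in one of its own iterates: polynomial growth. -/
def PolyS : Prop := ∀ c n, ∀ u v w : List A, S.it n [c] ≠ u ++ c :: v ++ c :: w

end ASys

/-- `x` is ultimately periodic. -/
def UPw (x : ℕ → ℕ) : Prop := ∃ N p : ℕ, 1 ≤ p ∧ ∀ k, N ≤ k → x (k + p) = x k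

/-- Abstract certificate of equality. -/
def ACert {A B : Type} (S : ASys A) (T : ASys B) : Prop :=
  ∃ (M N : ℕ) (P z w : List A) (Q z' w' : List B) (r s : List ℕ),
    S.LevOK M P z w ∧ T.LevOK N Q z' w' ∧
    ∀ t, (S.lev M w t P).flatMap S.h ++ r = (T.lev N w' t Q).flatMap T.h ++ s

/-- The mathematics joint: systems with the same word, not ultimately periodic, have a
certificate. -/
def Core : Prop := ∀ (A B : Type) [Fintype A] [Fintype B] [DecidableEq A] [DecidableEq B]
    (S : ASys A) (T : ASys B) (x : ℕ → ℕ), S.Good → T.Good → S.IsWord x → T.IsWord x →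
    ¬ UPw x → ACert S T

end SUBST
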