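import Pool.Agent.Work.SUBST.Abs

/-!
# Basic API for abstract systems
-/

set_option autoImplicit false

namespace SUBST

namespace ASys

variable {A : Type} (S : ASys A)

/-! ### words -/

@[simp] theorem ap_nil : S.ap [] = [] := rfl

@[simp] theorem ap_append (v w : List A) : S.ap (v ++ w) = S.ap v ++ S.ap w := by
  simp [ap]

@[simp] theorem ap_cons (c : A) (w : List A) : S.ap (c :: w) = S.σ c ++ S.ap w := by
  simp [ap]

theorem ap_single (c : A) : S.ap [c] = S.σ c := by simp [ap]

@[simp] theorem it_zero (w : List A) : S.it 0 w = w := rfl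

theorem it_one (w : List A) : S.it 1 w = S.ap w := rfl

theorem it_succ (n : ℕ) (w : List A) : S.it (n + 1) w = S.it n (S.ap w) := by
  simp [it, Function.iterate_succ_apply]

theorem it_succ' (n : ℕ) (w : List A) : S.it (n + 1) w = S.ap (S.it n w) := by
  simp [it, Function.iterate_succ_apply']

theorem it_add (m n : ℕ) (w : List A) : S.it (m + n) w = S.it m (S.it n w) := by
  simp [it, Function.iterate_add_apply]

@[simp] theorem it_nil (n : ℕ) : S.it n [] = [] := by
  induction n with
  | zero => rfl
  | succ n ih => rw [it_succ, ap_nil, ih]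

@[simp] theorem it_append (n : ℕ) (v w : List A) : S.it n (v ++ w) = S.it n v ++ S.it n w := by
  induction n generalizing v w with
  | zero => rfl
  | succ n ih => rw [it_succ, it_succ, it_succ, ap_append, ih]

theorem it_cons (n : ℕ) (c : A) (w : List A) : S.it n (c :: w) = S.it n [c] ++ S.it n w := by
  rw [← it_append]; rfl

theorem it_comm (m n : ℕ) (w : List A) : S.it m (S.it n w) = S.it n (S.it m w) := by
  rw [← it_add, ← it_add, Nat.add_comm]

theorem it_flatMap (n : ℕ) (w : List A) : S.it n w = w.flatMap (fun c => S.it n [c]) := by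
  induction w with
  | nil => simp
  | cons c w ih => rw [it_cons, ih, List.flatMap_cons]

theorem W_zero (w : List A) : S.W 0 w = w.flatMap S.h := rfl

@[simp] theorem W_nil (n : ℕ) : S.W n [] = [] := by simp [W]

@[simp] theorem W_append (n : ℕ) (v w : List A) : S.W n (v ++ w) = S.W n v ++ S.W n w := by
  simp [W]

theorem W_cons (n : ℕ) (c : A) (w : List A) : S.W n (c :: w) = S.W n [c] ++ S.W n w := by
  rw [← W_append]; rfl

theorem W_flatMap (n : ℕ) (w : List A) : S.W n w = w.flatMap (fun c => S.W n [c]) := by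
  induction w with
  | nil => simp
  | cons c w ih => rw [W_cons, ih, List.flatMap_cons]

theorem W_succ (n : ℕ) (w : List A) : S.W (n + 1) w = S.W n (S.ap w) := by
  rw [W, W, it_succ]

theorem W_add (m n : ℕ) (w : List A) : S.W (m + n) w = S.W m (S.it n w) := by
  rw [W, W, it_add]

theorem W_it (n m : ℕ) (w : List A) : S.W n (S.it m w) = S.W (n + m) w := (S.W_add n m w).symm

@[simp] theorem len_nil (n : ℕ) : S.len n [] = 0 := by simp [len]

@[simp] theorem len_append (n : ℕ) (v w : List A) : S.len n (v ++ w) = S.len n v + S.len n w := by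
  simp [len]

theorem len_cons (n : ℕ) (c : A) (w : List A) : S.len n (c :: w) = S.len n [c] + S.len n w := by
  rw [← len_append]; rfl

theorem len_succ (n : ℕ) (w : List A) : S.len (n + 1) w = S.len n (S.ap w) := by
  rw [len, len, W_succ]

theorem len_add (m n : ℕ) (w : List A) : S.len (m + n) w = S.len m (S.it n w) := by
  rw [len, len, W_add]

theorem len_it (n m : ℕ) (w : List A) : S.len n (S.it m w) = S.len (n + m) w :=
  (S.len_add n m w).symm

theorem len_eq_sum (n : ℕ) (w : List A) : S.len n w = (w.map fun c => S.len n [c]).sum := by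
  induction w with
  | nil => simp
  | cons c w ih => rw [len_cons, ih, List.map_cons, List.sum_cons]

theorem W_prefix {v w : List A} (h : v <+: w) (n : ℕ) : S.W n v <+: S.W n w := by
  obtain ⟨t, rfl⟩ := h
  rw [W_append]
  exact List.prefix_append _ _

theorem it_prefix {v w : List A} (h : v <+: w) (n : ℕ) : S.it n v <+: S.it n w := by
  obtain ⟨t, rfl⟩ := h
  rw [it_append]
  exact List.prefix_append _ _

theorem len_le_of_prefix {v w : List A} (h : v <+: w) (n : ℕ) : S.len n v ≤ S.len n w :=
  (S.W_prefix h n).length_le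

theorem mem_it_of_mem {c d : A} {m n : ℕ} {w : List A} (hd : d ∈ S.it m w)
    (hc : c ∈ S.it n [d]) : c ∈ S.it (n + m) w := by
  rw [it_add, it_flatMap]
  exact List.mem_flatMap.2 ⟨d, hd, hc⟩

/-! ### good systems -/

variable {S}

namespace Good

theorem length_le_ap (hS : S.Good) (w : List A) : w.length ≤ (S.ap w).length := by
  induction w with
  | nil => simp
  | cons c w ih =>
    have := List.length_pos_iff.2 (hS.ne c)
    simp only [List.length_cons, ap_cons, List.length_append]
    omega

theorem length_le_it (hS : S.Good) (n : ℕ) (w : List A) : w.length ≤ (S.it n w).length := by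
  induction n with
  | zero => rfl
  | succ n ih => rw [it_succ']; exact ih.trans (hS.length_le_ap _)

theorem length_it_mono (hS : S.Good) (w : List A) : Monotone fun n => (S.it n w).length :=
  monotone_nat_of_le_succ fun n => by
    show (S.it n w).length ≤ (S.it (n + 1) w).length
    rw [it_succ']; exact hS.length_le_ap _

theorem ap_ne_nil (hS : S.Good) {w : List A} (hw : w ≠ []) : S.ap w ≠ [] := by
  have h1 := hS.length_le_ap w
  have h2 := List.length_pos_iff.2 hw
  exact List.length_pos_iff.1 (by omega)

theorem it_ne_nil (hS : S.Good) (n : ℕ) {w : List A} (hw : w ≠ []) : S.it n w ≠ [] := by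
  have h1 := hS.length_le_it n w
  have h2 := List.length_pos_iff.2 hw
  exact List.length_pos_iff.1 (by omega)

theorem length_le_h (hS : S.Good) (w : List A) : w.length ≤ (w.flatMap S.h).length := by
  induction w with
  | nil => simp
  | cons c w ih =>
    have := List.length_pos_iff.2 (hS.hne c)
    simp only [List.length_cons, List.flatMap_cons, List.length_append]
    omega

theorem it_length_le_len (hS : S.Good) (n : ℕ) (w : List A) : (S.it n w).length ≤ S.len n w :=
  hS.length_le_h _

theorem length_le_len (hS : S.Good) (n : ℕ) (w : List A) : w.length ≤ S.len n w :=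
  (hS.length_le_it n w).trans (hS.it_length_le_len n w)

theorem len_pos (hS : S.Good) (n : ℕ) (c : A) : 0 < S.len n [c] :=
  lt_of_lt_of_le (by simp) (hS.length_le_len n [c])

theorem len_pos' (hS : S.Good) (n : ℕ) {w : List A} (hw : w ≠ []) : 0 < S.len n w :=
  lt_of_lt_of_le (List.length_pos_iff.2 hw) (hS.length_le_len n w)

theorem W_ne_nil (hS : S.Good) (n : ℕ) {w : List A} (hw : w ≠ []) : S.W n w ≠ [] :=
  List.length_pos_iff.1 (hS.len_pos' n hw)

/-! ### the fixed point -/

theorem it_prefix_succ (hS : S.Good) (n : ℕ) : S.it n [S.a] <+: S.it (n + 1) [S.a] := by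
  obtain ⟨u, _, hu⟩ := hS.start
  rw [it_succ, ap_single, hu, S.it_cons n S.a u]
  exact List.prefix_append _ _

theorem it_prefix_le (hS : S.Good) {m n : ℕ} (h : m ≤ n) : S.it m [S.a] <+: S.it n [S.a] := by
  induction n, h using Nat.le_induction with
  | base => exact List.prefix_refl _
  | succ n _ ih => exact ih.trans (hS.it_prefix_succ n)

theorem it_length_lt (hS : S.Good) (n : ℕ) :
    (S.it n [S.a]).length < (S.it (n + 1) [S.a]).length := by
  obtain ⟨u, hu0, hu⟩ := hS.start
  rw [it_succ, ap_single, hu, S.it_cons n S.a u, List.length_append]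
  have := List.length_pos_iff.2 (hS.it_ne_nil n hu0)
  omega

theorem lt_it_length (hS : S.Good) (n : ℕ) : n < (S.it n [S.a]).length := by
  induction n with
  | zero => simp
  | succ n ih => have := hS.it_length_lt n; omega

theorem len_a_lt (hS : S.Good) (n : ℕ) : S.len n [S.a] < S.len (n + 1) [S.a] := by
  obtain ⟨u, hu0, hu⟩ := hS.start
  rw [len_succ, ap_single, hu, S.len_cons n S.a u]
  have := hS.len_pos' n hu0
  omega

theorem len_a_mono (hS : S.Good) : StrictMono fun n => S.len n [S.a] :=
  strictMono_nat_of_lt_succ hS.len_a_lt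

theorem lt_len_a (hS : S.Good) (n : ℕ) : n < S.len n [S.a] :=
  lt_of_lt_of_le (hS.lt_it_length n) (hS.it_length_le_len n _)

theorem getD_it (hS : S.Good) {n k : ℕ} (hk : k < (S.it n [S.a]).length) :
    (S.it n [S.a]).getD k S.a = S.X k := by
  have key : ∀ m n : ℕ, m ≤ n → k < (S.it m [S.a]).length →
      (S.it n [S.a]).getD k S.a = (S.it m [S.a]).getD k S.a := by
    intro m n hmn hk
    obtain ⟨t, ht⟩ := hS.it_prefix_le hmn
    rw [← ht, List.getD_append _ _ _ _ hk]
  have hk1 : k < (S.it (k + 1) [S.a]).length := by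
    have := hS.lt_it_length (k + 1); omega
  unfold X
  rcases le_total n (k + 1) with h | h
  · exact (key _ _ h hk).symm
  · exact key _ _ h hk1

theorem X_zero (hS : S.Good) : S.X 0 = S.a := by
  rw [← hS.getD_it (n := 0) (k := 0) (by simp)]
  simp

end Good

/-! ### prefixes -/

variable (S)

@[simp] theorem length_pre (k : ℕ) : (S.pre k).length = k := by simp [pre]

@[simp] theorem pre_zero : S.pre 0 = [] := rfl

theorem pre_succ (k : ℕ) : S.pre (k + 1) = S.pre k ++ [S.X k] := by
  simp [pre, List.range_succ]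

theorem pre_add (k j : ℕ) : S.pre (k + j) = S.pre k ++ (List.range j).map (fun i => S.X (k + i)) := by
  simp [pre, List.range_add, Function.comp_def]

theorem pre_prefix {j k : ℕ} (h : j ≤ k) : S.pre j <+: S.pre k := by
  obtain ⟨d, rfl⟩ := Nat.exists_eq_add_of_le h
  rw [pre_add]
  exact List.prefix_append _ _

theorem getElem_pre {k i : ℕ} (h : i < (S.pre k).length) : (S.pre k)[i] = S.X i := by
  simp [pre]

theorem eq_pre_of_prefix_pre {v : List A} {k : ℕ} (h : v <+: S.pre k) : v = S.pre v.length := by
  have h2 : v.length ≤ k := by simpa using h.length_le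
  exact (List.prefix_of_prefix_length_le h (S.pre_prefix h2) (by simp)).eq_of_length (by simp)

variable {S}

namespace Good

theorem it_eq_pre (hS : S.Good) (n : ℕ) : S.it n [S.a] = S.pre (S.it n [S.a]).length := by
  apply List.ext_getElem (by simp)
  intro i h1 h2
  rw [getElem_pre, ← hS.getD_it h1, List.getD_eq_getElem _ _ h1]

theorem pre_prefix_it (hS : S.Good) {n k : ℕ} (hk : k ≤ (S.it n [S.a]).length) :
    S.pre k <+: S.it n [S.a] := by
  rw [hS.it_eq_pre n]
  exact S.pre_prefix hk

theorem pre_prefix_it' (hS : S.Good) (k : ℕ) : S.pre k <+: S.it k [S.a] :=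
  hS.pre_prefix_it (hS.lt_it_length k).le

theorem eq_pre_of_prefix (hS : S.Good) {v : List A} {n : ℕ} (h : v <+: S.it n [S.a]) :
    v = S.pre v.length := by
  rw [hS.it_eq_pre n] at h
  exact S.eq_pre_of_prefix_pre h

/-- Being a prefix of some iterate is being a prefix `pre k`. -/
theorem exists_prefix_iff (hS : S.Good) (v : List A) :
    (∃ n, v <+: S.it n [S.a]) ↔ v = S.pre v.length := by
  constructor
  · rintro ⟨n, h⟩
    exact hS.eq_pre_of_prefix h
  · intro h
    rw [h]
    exact ⟨v.length, hS.pre_prefix_it' _⟩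

/-- The image of a prefix of `X` is a prefix of `X`. -/
theorem it_pre (hS : S.Good) (m k : ℕ) : S.it m (S.pre k) = S.pre (S.it m (S.pre k)).length := by
  apply hS.eq_pre_of_prefix (n := m + k)
  rw [it_add]
  exact S.it_prefix (hS.pre_prefix_it' k) m

theorem ap_pre (hS : S.Good) (k : ℕ) : S.ap (S.pre k) = S.pre (S.ap (S.pre k)).length :=
  hS.it_pre 1 k

end Good

variable (S)

/-- Number of letters of `σ^m (X[0,k))`. -/
def up (m k : ℕ) : ℕ := (S.it m (S.pre k)).length

@[simp] theorem up_zero_right (m : ℕ) : S.up m 0 = 0 := by simp [up]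

@[simp] theorem up_zero_left (k : ℕ) : S.up 0 k = k := by simp [up]

theorem up_succ (m k : ℕ) : S.up m (k + 1) = S.up m k + (S.it m [S.X k]).length := by
  rw [up, up, pre_succ, it_append, List.length_append]

theorem up_mono (m : ℕ) : Monotone (S.up m) :=
  monotone_nat_of_le_succ fun k => by rw [up_succ]; omega

@[simp] theorem pos_zero (n : ℕ) : S.pos n 0 = 0 := by simp [pos]

theorem pos_succ (n k : ℕ) : S.pos n (k + 1) = S.pos n k + S.len n [S.X k] := by
  rw [pos, pos, pre_succ, len_append]

theorem pos_mono (n : ℕ) : Monotone (S.pos n) :=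
  monotone_nat_of_le_succ fun k => by rw [pos_succ]; omega

variable {S}

namespace Good

theorem pre_up (hS : S.Good) (m k : ℕ) : S.pre (S.up m k) = S.it m (S.pre k) :=
  (hS.it_pre m k).symm

theorem up_strictMono (hS : S.Good) (m : ℕ) : StrictMono (S.up m) :=
  strictMono_nat_of_lt_succ fun k => by
    rw [up_succ]
    have := hS.length_le_it m [S.X k]
    simp only [List.length_singleton] at this
    omega

theorem up_up (hS : S.Good) (m n k : ℕ) : S.up m (S.up n k) = S.up (m + n) k := by
  rw [up, hS.pre_up, ← it_add, up]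

theorem le_up (hS : S.Good) (m k : ℕ) : k ≤ S.up m k := by
  have := hS.length_le_it m (S.pre k)
  rw [length_pre] at this
  exact this

/-- The letters of `σ^m (X_k)` inside `X`. -/
theorem X_up_add (hS : S.Good) (m k i : ℕ) (hi : i < (S.it m [S.X k]).length) :
    S.X (S.up m k + i) = (S.it m [S.X k])[i] := by
  have h1 : S.pre (S.up m (k + 1)) = S.it m (S.pre k) ++ S.it m [S.X k] := by
    rw [hS.pre_up, pre_succ, it_append]
  have h2 : S.up m k + i < (S.pre (S.up m (k + 1))).length := by
    rw [length_pre, up_succ]; omega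
  rw [← S.getElem_pre h2]
  have h3 : (S.it m (S.pre k)).length = S.up m k := rfl
  simp only [h1]
  rw [List.getElem_append_right (by omega)]
  simp [h3]

/-- The prefix of `X` in front of the `i`-th child of `X_k`. -/
theorem pre_up_add (hS : S.Good) (m k i : ℕ) (hi : i ≤ (S.it m [S.X k]).length) :
    S.pre (S.up m k + i) = S.it m (S.pre k) ++ (S.it m [S.X k]).take i := by
  have h1 : S.pre (S.up m k + i) <+: S.pre (S.up m (k + 1)) := S.pre_prefix (by rw [up_succ]; omega)
  have h2 : S.pre (S.up m (k + 1)) = S.it m (S.pre k) ++ S.it m [S.X k] := by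
    rw [hS.pre_up, pre_succ, it_append]
  have h3 : (S.it m (S.pre k) ++ (S.it m [S.X k]).take i) <+: S.pre (S.up m (k + 1)) := by
    rw [h2]
    exact List.prefix_append_right_inj _ |>.2 (List.take_prefix _ _)
  refine (List.prefix_of_prefix_length_le h1 h3 ?_).eq_of_length ?_
  · simp only [length_pre, List.length_append, List.length_take]
    have : (S.it m (S.pre k)).length = S.up m k := rfl
    omega
  · simp only [length_pre, List.length_append, List.length_take]
    have : (S.it m (S.pre k)).length = S.up m k := rfl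
    omega

theorem pos_strictMono (hS : S.Good) (n : ℕ) : StrictMono (S.pos n) :=
  strictMono_nat_of_lt_succ fun k => by
    rw [pos_succ]
    have := hS.len_pos n (S.X k)
    omega

theorem le_pos (hS : S.Good) (n k : ℕ) : k ≤ S.pos n k := by
  have := hS.length_le_len n (S.pre k)
  rwa [length_pre] at this

/-- Positions at level `n + m` are positions at level `n`. -/
theorem pos_up (hS : S.Good) (n m k : ℕ) : S.pos n (S.up m k) = S.pos (n + m) k := by
  rw [pos, hS.pre_up, ← len_add, pos]

theorem pos_up_add (hS : S.Good) (n m k i : ℕ) (hi : i ≤ (S.it m [S.X k]).length) :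
    S.pos n (S.up m k + i) = S.pos (n + m) k + S.len n ((S.it m [S.X k]).take i) := by
  rw [pos, hS.pre_up_add m k i hi, len_append, ← len_add, pos]

/-- Every position lies in a block. -/
theorem exists_block (hS : S.Good) (n p : ℕ) : ∃ k, S.pos n k ≤ p ∧ p < S.pos n (k + 1) := by
  have h : ∃ k, p < S.pos n k := ⟨p + 1, lt_of_lt_of_le (by omega) (hS.le_pos n (p + 1))⟩
  classical
  obtain ⟨hk1, hk2⟩ : p < S.pos n (Nat.find h) ∧ ∀ m < Nat.find h, ¬ p < S.pos n m :=
    ⟨Nat.find_spec h, fun m hm => Nat.find_min h hm⟩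
  cases hf : Nat.find h with
  | zero => rw [hf] at hk1; simp at hk1
  | succ k =>
    rw [hf] at hk1 hk2
    exact ⟨k, not_lt.1 (hk2 k (by omega)), hk1⟩

theorem block_unique (_hS : S.Good) {n p k l : ℕ} (h1 : S.pos n k ≤ p) (h2 : p < S.pos n (k + 1))
    (h3 : S.pos n l ≤ p) (h4 : p < S.pos n (l + 1)) : k = l := by
  by_contra hne
  rcases Nat.lt_or_gt_of_ne hne with h | h
  · have := S.pos_mono n (show k + 1 ≤ l from h); omega
  · have := S.pos_mono n (show l + 1 ≤ k from h); omega

/-- Every index `k` is a child of an index at the level `m` above. -/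
theorem exists_parent (hS : S.Good) (m k : ℕ) : ∃ j i, k = S.up m j + i ∧
    i < (S.it m [S.X j]).length := by
  have h : ∃ j, k < S.up m j := ⟨k + 1, lt_of_lt_of_le (by omega) (hS.le_up m (k + 1))⟩
  classical
  obtain ⟨hk1, hk2⟩ : k < S.up m (Nat.find h) ∧ ∀ j < Nat.find h, ¬ k < S.up m j :=
    ⟨Nat.find_spec h, fun j hj => Nat.find_min h hj⟩
  cases hf : Nat.find h with
  | zero => rw [hf] at hk1; simp at hk1
  | succ j =>
    rw [hf] at hk1 hk2
    have := hk2 j (by omega)
    rw [up_succ] at hk1
    exact ⟨j, k - S.up m j, by omega, by omega⟩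

/-- Every letter occurs in `X`. -/
theorem exists_X_eq (hS : S.Good) (c : A) : ∃ k, S.X k = c := by
  obtain ⟨n, hn⟩ := hS.reach c
  rw [hS.it_eq_pre n] at hn
  simp only [pre, List.mem_map, List.mem_range] at hn
  obtain ⟨k, _, hk⟩ := hn
  exact ⟨k, hk⟩

end Good

/-! ### the word -/

theorem Good.W_pre (hS : S.Good) {x : ℕ → ℕ} (hx : S.IsWord x) (n k : ℕ) :
    S.W n (S.pre k) = (List.range (S.pos n k)).map x := by
  have h1 : S.W n (S.pre k) <+: S.W (n + k) [S.a] := by
    rw [W_add]
    exact S.W_prefix (hS.pre_prefix_it' k) n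
  rw [hx] at h1
  have h2 : (List.range (S.pos n k)).map x <+:
      (List.range (S.len (n + k) [S.a])).map x := by
    have h3 : S.pos n k ≤ S.len (n + k) [S.a] := by
      have := h1.length_le
      simpa [pos, len] using this
    obtain ⟨d, hd⟩ := Nat.exists_eq_add_of_le h3
    rw [hd, List.range_add, List.map_append]
    exact List.prefix_append _ _
  exact (List.prefix_of_prefix_length_le h1 h2 (by simp [pos, len])).eq_of_length
    (by simp [pos, len])

/-- Reading the word inside a block. -/
theorem Good.x_pos_add (hS : S.Good) {x : ℕ → ℕ} (hx : S.IsWord x) (n k j : ℕ)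
    (hj : j < (S.W n [S.X k]).length) : x (S.pos n k + j) = (S.W n [S.X k])[j] := by
  have h1 : S.W n (S.pre (k + 1)) = S.W n (S.pre k) ++ S.W n [S.X k] := by
    rw [pre_succ, W_append]
  have h2 := hS.W_pre hx n (k + 1)
  rw [h1] at h2
  have h3 : (S.W n (S.pre k)).length = S.pos n k := rfl
  have h4 : S.pos n (k + 1) = S.pos n k + (S.W n [S.X k]).length := S.pos_succ n k
  have h5 : S.pos n k + j < (S.W n (S.pre k) ++ S.W n [S.X k]).length := by
    rw [List.length_append]; omega
  have h6 : (S.W n (S.pre k) ++ S.W n [S.X k])[S.pos n k + j] = (S.W n [S.X k])[j] := by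
    rw [List.getElem_append_right (by omega)]
    simp [h3]
  rw [← h6]
  simp only [h2, List.getElem_map, List.getElem_range]

theorem Good.x_getD (hS : S.Good) {x : ℕ → ℕ} (hx : S.IsWord x) (n k j : ℕ)
    (hj : j < S.len n [S.X k]) : x (S.pos n k + j) = (S.W n [S.X k]).getD j 0 := by
  rw [hS.x_pos_add hx n k j hj, List.getD_eq_getElem _ _ hj]

/-- Equal letters give equal blocks. -/
theorem Good.x_eq_of_X_eq (hS : S.Good) {x : ℕ → ℕ} (hx : S.IsWord x) {n k k' : ℕ}
    (h : S.X k = S.X k') {j : ℕ} (hj : j < S.len n [S.X k]) :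
    x (S.pos n k + j) = x (S.pos n k' + j) := by
  rw [hS.x_getD hx n k j hj, hS.x_getD hx n k' j (h ▸ hj), h]

/-- The word of a good system exists. -/
theorem Good.exists_isWord (hS : S.Good) : ∃ x, S.IsWord x := by
  refine ⟨fun k => (S.W (k + 1) [S.a]).getD k 0, fun n => ?_⟩
  apply List.ext_getElem (by simp [len])
  intro i h1 h2
  have key : ∀ m n : ℕ, m ≤ n → i < (S.W m [S.a]).length →
      (S.W n [S.a]).getD i 0 = (S.W m [S.a]).getD i 0 := by
    intro m n hmn hk
    obtain ⟨t, ht⟩ := S.W_prefix (hS.it_prefix_le hmn) 0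
    have e : ∀ j, S.W 0 (S.it j [S.a]) = S.W j [S.a] := fun j => by
      rw [← W_add, Nat.zero_add]
    rw [e, e] at ht
    rw [← ht, List.getD_append _ _ _ _ hk]
  have hk1 : i < (S.W (i + 1) [S.a]).length := by
    have := hS.lt_len_a (i + 1)
    simp only [len] at this
    omega
  simp only [List.getElem_map, List.getElem_range]
  rw [← List.getD_eq_getElem _ 0 h1]
  rcases le_total n (i + 1) with h | h
  · exact (key _ _ h h1).symm
  · exact key _ _ h hk1

theorem IsWord.unique (hS : S.Good) {x y : ℕ → ℕ} (hx : S.IsWord x) (hy : S.IsWord y) : x = y := by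
  funext k
  have h := (hx (k + 1)).symm.trans (hy (k + 1))
  have h1 : k < S.len (k + 1) [S.a] := by have := hS.lt_len_a (k + 1); omega
  have h2 := congrArg (fun l => l[k]?) h
  simpa [h1] using h2

end ASys

end SUBST
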