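import Pool.Agent.Work.SUBST.Ratio
import Pool.Agent.Work.SUBST.Abs

/-!
# Ratio limits of abstract systems
-/

set_option autoImplicit false

namespace SUBST

open Filter Topology

namespace LimAux

variable {A : Type} (S : ASys A)

theorem ap_append (u v : List A) : S.ap (u ++ v) = S.ap u ++ S.ap v := by
  simp [ASys.ap]

theorem it_append (n : ℕ) (u v : List A) : S.it n (u ++ v) = S.it n u ++ S.it n v := by
  unfold ASys.it
  induction n generalizing u v with
  | zero => rfl
  | succ n ih => rw [Function.iterate_succ_apply, Function.iterate_succ_apply,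
      Function.iterate_succ_apply, ap_append, ih]

theorem it_nil (n : ℕ) : S.it n [] = [] := by
  unfold ASys.it
  induction n with
  | zero => rfl
  | succ n ih => rw [Function.iterate_succ_apply]; simpa [ASys.ap] using ih

theorem it_add (m n : ℕ) (u : List A) : S.it (m + n) u = S.it m (S.it n u) := by
  unfold ASys.it; rw [Function.iterate_add_apply]

theorem it_succ_singleton (n : ℕ) (c : A) : S.it (n + 1) [c] = S.it n (S.σ c) := by
  unfold ASys.it; rw [Function.iterate_succ_apply]; simp [ASys.ap]

theorem it_flatMap (n : ℕ) (u : List A) : S.it n u = u.flatMap (fun c => S.it n [c]) := by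
  induction u with
  | nil => simp [it_nil]
  | cons c u ih =>
    rw [show c :: u = [c] ++ u from rfl, it_append, ih]; simp

theorem len_nil (n : ℕ) : S.len n [] = 0 := by simp [ASys.len, ASys.W, it_nil]

theorem len_append (n : ℕ) (u v : List A) : S.len n (u ++ v) = S.len n u + S.len n v := by
  simp [ASys.len, ASys.W, it_append]

theorem len_cons (n : ℕ) (c : A) (v : List A) : S.len n (c :: v) = S.len n [c] + S.len n v := by
  rw [show c :: v = [c] ++ v from rfl, len_append]

theorem len_succ_singleton (n : ℕ) (c : A) : S.len (n + 1) [c] = S.len n (S.σ c) := by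
  simp [ASys.len, ASys.W, it_succ_singleton]

theorem len_add (m n : ℕ) (u : List A) : S.len (m + n) u = S.len m (S.it n u) := by
  simp [ASys.len, ASys.W, it_add]

theorem len_count [Fintype A] [DecidableEq A] (n : ℕ) (u : List A) :
    S.len n u = ∑ b, u.count b * S.len n [b] := by
  induction u with
  | nil => simp [len_nil]
  | cons c u ih =>
    rw [len_cons, ih]
    have h1 : ∀ b, (c :: u).count b * S.len n [b] =
        (if c = b then S.len n [b] else 0) + u.count b * S.len n [b] := by
      intro b
      rw [List.count_cons]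
      by_cases h : c = b
      · simp [h]; ring
      · simp [h]
    simp_rw [h1, Finset.sum_add_distrib]
    simp

theorem it_pow (q n : ℕ) (u : List A) : (S.pow q).it n u = S.it (q * n) u := by
  have h1 : ∀ u : List A, (S.pow q).ap u = S.it q u := by
    intro u
    rw [it_flatMap S q u]
    rfl
  induction n generalizing u with
  | zero => rfl
  | succ n ih =>
    have h2 : (S.pow q).it (n + 1) u = (S.pow q).it n ((S.pow q).ap u) := by
      unfold ASys.it; rw [Function.iterate_succ_apply]
    rw [h2, ih, h1, ← it_add, Nat.mul_succ]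

theorem W_pow (q n : ℕ) (u : List A) : (S.pow q).W n u = S.W (q * n) u := by
  unfold ASys.W
  rw [it_pow]; rfl

theorem len_pow (q n : ℕ) (u : List A) : (S.pow q).len n u = S.len (q * n) u := by
  unfold ASys.len; rw [W_pow]

theorem it_shift (r n : ℕ) (u : List A) : (S.shift r).it n u = S.it n u := rfl

theorem W_shift (r n : ℕ) (u : List A) : (S.shift r).W n u = S.W (r + n) u := by
  unfold ASys.W
  rw [it_shift, it_add, it_flatMap S r]
  rw [List.flatMap_assoc]
  rfl

theorem len_shift (r n : ℕ) (u : List A) : (S.shift r).len n u = S.len (r + n) u := by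
  unfold ASys.len; rw [W_shift]

variable {S}

theorem len_pos (hS : S.Good) (n : ℕ) (c : A) : 1 ≤ S.len n [c] := by
  induction n generalizing c with
  | zero =>
    have := hS.hne c
    simp only [ASys.len, ASys.W, ASys.it, Function.iterate_zero, id]
    simp
    exact List.length_pos_iff.2 this
  | succ n ih =>
    rw [len_succ_singleton]
    obtain ⟨b, u, hu⟩ := List.exists_cons_of_ne_nil (hS.ne c)
    rw [hu, len_cons]
    exact (ih b).trans (Nat.le_add_right _ _)

theorem len_ge_length (hS : S.Good) (n : ℕ) (u : List A) : u.length ≤ S.len n u := by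
  induction u with
  | nil => simp
  | cons c u ih =>
    rw [len_cons, List.length_cons]
    have := len_pos hS n c
    omega

/-- The occurrence table. -/
def tab [DecidableEq A] (S : ASys A) (c b : A) : ℕ := (S.σ c).count b

theorem reach_tab [DecidableEq A] (n : ℕ) (c b : A) (h : b ∈ S.it n [c]) :
    Relation.ReflTransGen (fun x y => 0 < tab S x y) c b := by
  induction n generalizing c with
  | zero =>
    have : b = c := by simpa [ASys.it] using h
    subst this
    exact Relation.ReflTransGen.refl
  | succ n ih =>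
    rw [it_succ_singleton, it_flatMap, List.mem_flatMap] at h
    obtain ⟨d, hd, hb⟩ := h
    exact Relation.ReflTransGen.head (List.count_pos_iff.2 hd) (ih d hb)

end LimAux

open LimAux

/-- Two occurrences of a letter in one of its iterates: exponential growth. -/
theorem exp_of_two {A : Type} (S : ASys A) (hS : S.Good) (c : A) (n : ℕ) (u v w : List A)
    (h : S.it n [c] = u ++ c :: v ++ c :: w) (j : ℕ) : 2 ^ j ≤ S.len (n * j) [c] := by
  induction j with
  | zero => simpa using len_pos hS 0 c
  | succ j ih =>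
    rw [Nat.mul_succ, len_add, h]
    have h1 : S.len (n * j) (u ++ c :: v ++ c :: w) =
        S.len (n * j) u + S.len (n * j) [c] + S.len (n * j) v + S.len (n * j) [c] +
          S.len (n * j) w := by
      rw [len_append, len_append, len_cons S _ c v, len_cons S _ c w]
      ring
    rw [h1, pow_succ]
    omega

theorem no_poly_bound (K : ℝ) (d n m : ℕ)
    (h : ∀ j : ℕ, (2 : ℝ) ^ j ≤ K * (((n * j + m : ℕ) : ℝ) + 1) ^ d) : False := by
  have hK : 0 < K := by
    have h0 := h 0
    by_contra hcon
    push Not at hcon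
    have : K * (((n * 0 + m : ℕ) : ℝ) + 1) ^ d ≤ 0 :=
      mul_nonpos_of_nonpos_of_nonneg hcon (by positivity)
    norm_num at h0
    norm_num at this
    linarith
  have h1 := (tendsto_pow_const_div_const_pow_of_one_lt d (r := (2 : ℝ)) (by norm_num)).comp
    (tendsto_add_atTop_nat 1)
  have h2 : Tendsto (fun j : ℕ => (2 * K * ((n : ℝ) + m + 1) ^ d) *
      ((((j + 1 : ℕ) : ℝ)) ^ d / 2 ^ (j + 1))) atTop (𝓝 0) := by
    simpa using h1.const_mul (2 * K * ((n : ℝ) + m + 1) ^ d)
  have h3 : (1 : ℝ) ≤ 0 := by
    refine ge_of_tendsto h2 (Eventually.of_forall fun j => ?_)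
    have h4 := h j
    have h5 : (((n * j + m : ℕ) : ℝ) + 1) ≤ ((n : ℝ) + m + 1) * ((j + 1 : ℕ) : ℝ) := by
      have : (n * j + m + 1 : ℕ) ≤ (n + m + 1) * (j + 1) := by nlinarith
      exact_mod_cast this
    have h6 : (((n * j + m : ℕ) : ℝ) + 1) ^ d ≤ (((n : ℝ) + m + 1) * ((j + 1 : ℕ) : ℝ)) ^ d :=
      pow_le_pow_left₀ (by positivity) h5 d
    have h7 : (2 : ℝ) ^ j ≤ K * (((n : ℝ) + m + 1) * ((j + 1 : ℕ) : ℝ)) ^ d :=
      h4.trans (mul_le_mul_of_nonneg_left h6 hK.le)
    rw [mul_div_assoc', le_div_iff₀ (by positivity), one_mul, pow_succ]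
    rw [mul_pow] at h7
    linarith
  linarith

/-- **Ratio limits for abstract systems.** -/
theorem ASys.exists_limits {A : Type} [Fintype A] [DecidableEq A] (S : ASys A) (hS : S.Good) :
    ∃ p, 1 ≤ p ∧ ∀ k, 1 ≤ k → ∀ r, ∃ (α : ℝ) (lam : A → ℝ),
      ((S.shift r).pow (p * k)).Limits α lam ∧ (α = 1 → S.PolyS) := by
  obtain ⟨u, hu, hau⟩ := hS.start
  have haa : 0 < tab S S.a S.a := by
    unfold tab; rw [hau]; simp
  have hM : ∀ c, ∃ b, 0 < tab S c b := by
    intro c
    obtain ⟨b, v, hv⟩ := List.exists_cons_of_ne_nil (hS.ne c)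
    exact ⟨b, by unfold tab; rw [hv]; simp⟩
  have hreach : ∀ c, Relation.ReflTransGen (fun x y => 0 < tab S x y) S.a c := by
    intro c
    obtain ⟨n, hn⟩ := hS.reach c
    exact reach_tab n S.a c hn
  obtain ⟨p, hp, hlim⟩ := ratio_limits (tab S) hM S.a haa hreach
  refine ⟨p, hp, fun k hk r => ?_⟩
  obtain ⟨α, lam, h1, h2, h3, h4, h5, h6⟩ := hlim k hk (fun n c => S.len (r + n) [c])
    (fun c => len_pos hS _ c) (fun n c => by
      have : S.len (r + (n + 1)) [c] = S.len (r + n + 1) [c] := rfl
      rw [this, len_succ_singleton, len_count]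
      rfl)
  have hlen : ∀ n (v : List A), ((S.shift r).pow (p * k)).len n v = S.len (r + p * k * n) v := by
    intro n v
    rw [len_pow, len_shift]
  have hpos : ∀ n, (0 : ℝ) < (S.len (r + p * k * n) [S.a] : ℝ) := fun n => by
    exact_mod_cast len_pos hS _ _
  refine ⟨α, lam, ⟨h1, h2, ?_, ?_, ?_⟩, ?_⟩
  · have h7 : Tendsto (fun n : ℕ => (S.len (r + p * k * n) [S.a] : ℝ) /
        (S.len (r + p * k * n) [S.a] : ℝ)) atTop (𝓝 1) := by
      refine tendsto_const_nhds.congr fun n => ?_
      rw [div_self (hpos n).ne']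
    exact tendsto_nhds_unique (h4 S.a) h7
  · refine h3.congr fun n => ?_
    simp only [hlen]
    rfl
  · intro c
    refine (h4 c).congr fun n => ?_
    simp only [hlen]
    rfl
  · intro hα c n u' v w hc
    obtain ⟨K, d, hK⟩ := h5 hα
    obtain ⟨m, hm⟩ := hS.reach c
    have hmono : ∀ i j, S.len i [S.a] ≤ S.len (i + j) [S.a] := by
      intro i j
      induction j with
      | zero => exact le_rfl
      | succ j ih =>
        refine ih.trans ?_
        have : S.len (i + (j + 1)) [S.a] = S.len (i + j + 1) [S.a] := rfl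
        rw [this, len_succ_singleton, hau, len_cons S _ S.a u]
        exact Nat.le_add_right _ _
    apply no_poly_bound K d n m
    intro j
    have e1 : 2 ^ j ≤ S.len (n * j) [c] := exp_of_two S hS c n u' v w hc j
    have e2 : S.len (n * j) [c] ≤ S.len (n * j + m) [S.a] := by
      rw [len_add]
      obtain ⟨s, t, hst⟩ := List.append_of_mem hm
      rw [hst, len_append, len_cons S _ c t]
      omega
    have e3 : n * j + m ≤ r + p * k * (n * j + m) := by
      have : 1 * (n * j + m) ≤ p * k * (n * j + m) :=
        Nat.mul_le_mul_right _ (Nat.mul_pos hp hk)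
      omega
    obtain ⟨t, ht⟩ := Nat.exists_eq_add_of_le e3
    have e4 : S.len (n * j + m) [S.a] ≤ S.len (r + p * k * (n * j + m)) [S.a] := by
      rw [ht]; exact hmono _ _
    have e5 : (2 : ℝ) ^ j ≤ (S.len (r + p * k * (n * j + m)) [S.a] : ℝ) := by
      exact_mod_cast e1.trans (e2.trans e4)
    exact e5.trans (hK (n * j + m))

/-- Either polynomial growth, or ratio limits with `α > 1` after a power (and all its multiples and
all shifts). -/
theorem ASys.poly_or_limits {A : Type} [Fintype A] [DecidableEq A] (S : ASys A) (hS : S.Good) :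
    S.PolyS ∨ ∃ p, 1 ≤ p ∧ ∀ k, 1 ≤ k → ∀ r, ∃ (α : ℝ) (lam : A → ℝ), 1 < α ∧
      ((S.shift r).pow (p * k)).Limits α lam := by
  by_cases hP : S.PolyS
  · exact Or.inl hP
  · right
    obtain ⟨p, hp, h⟩ := S.exists_limits hS
    refine ⟨p, hp, fun k hk r => ?_⟩
    obtain ⟨α, lam, h1, h2⟩ := h k hk r
    exact ⟨α, lam, lt_of_le_of_ne h1.1 (fun h3 => hP (h2 h3.symm)), h1⟩

end SUBST
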