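import Pool.Agent.Work.SUBST.Joints
import Pool.Agent.Work.SUBST.Limits
import Pool.Agent.Work.SUBST.Api
import Pool.Agent.Work.SUBST.GrowthMatch
import Pool.Agent.Work.SUBST.Transport

/-!
# Assembly: `Core` from the joints
-/

set_option autoImplicit false

open Filter Topology

namespace SUBST

namespace Asm

variable {A : Type} {S : ASys A}

theorem good_shift (hS : S.Good) (r : ℕ) : (S.shift r).Good where
  ne := hS.ne
  hne c := hS.W_ne_nil r (by simp)
  start := hS.start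
  reach c := by
    obtain ⟨n, hn⟩ := hS.reach c
    exact ⟨n, hn⟩

theorem good_pow (hS : S.Good) {p : ℕ} (hp : 1 ≤ p) : (S.pow p).Good where
  ne c := hS.it_ne_nil p (by simp)
  hne := hS.hne
  start := by
    have h1 : S.it 0 [S.a] <+: S.it p [S.a] := hS.it_prefix_le (Nat.zero_le p)
    obtain ⟨u, hu⟩ := h1
    refine ⟨u, ?_, ?_⟩
    · rintro rfl
      have h2 := hS.lt_it_length p
      rw [← hu] at h2
      simp at h2
      omega
    · change S.it p [S.a] = _
      rw [← hu]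
      rfl
  reach c := by
    obtain ⟨n, hn⟩ := hS.reach c
    refine ⟨n, ?_⟩
    rw [LimAux.it_pow]
    have h1 : n ≤ p * n := Nat.le_mul_of_pos_left n hp
    exact (hS.it_prefix_le h1).subset hn

theorem isWord_pow {x : ℕ → ℕ} (hx : S.IsWord x) (p : ℕ) : (S.pow p).IsWord x := by
  intro n
  have h := hx (p * n)
  rw [LimAux.W_pow, LimAux.len_pow]
  exact h

theorem isWord_shift {x : ℕ → ℕ} (hx : S.IsWord x) (r : ℕ) : (S.shift r).IsWord x := by
  intro n
  have h := hx (r + n)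
  rw [LimAux.W_shift, LimAux.len_shift]
  exact h

theorem tendsto_ratio (hS : S.Good) {α : ℝ} {lam : A → ℝ} (hL : S.Limits α lam) (j : ℕ) :
    Tendsto (fun n => (S.len (n + j) [S.a] : ℝ) / S.len n [S.a]) atTop (𝓝 (α ^ j)) := by
  induction j with
  | zero =>
    have : (fun n => (S.len (n + 0) [S.a] : ℝ) / S.len n [S.a]) = fun _ => (1 : ℝ) := by
      funext n
      have h : (0 : ℝ) < S.len n [S.a] := by exact_mod_cast hS.len_pos n S.a
      simp only [Nat.add_zero]
      exact div_self h.ne'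
    rw [this]
    simp
  | succ j ih =>
    have h1 := hL.2.2.2.1
    have h2 : Tendsto (fun n => (S.len (n + j + 1) [S.a] : ℝ) / S.len (n + j) [S.a]) atTop
        (𝓝 α) := h1.comp (tendsto_add_atTop_nat j)
    have h3 := h2.mul ih
    rw [pow_succ, mul_comm (α ^ j) α]
    refine h3.congr fun n => ?_
    have h : (0 : ℝ) < S.len (n + j) [S.a] := by exact_mod_cast hS.len_pos (n + j) S.a
    have h' : (0 : ℝ) < S.len n [S.a] := by exact_mod_cast hS.len_pos n S.a
    rw [div_mul_div_comm, mul_comm ((S.len (n + j) [S.a] : ℝ)), ← div_mul_div_comm,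
      div_self h.ne', mul_one]
    rfl

theorem tendsto_mul_atTop {p : ℕ} (hp : 1 ≤ p) : Tendsto (fun n : ℕ => p * n) atTop atTop :=
  tendsto_atTop_mono (fun n => Nat.le_mul_of_pos_left n hp) tendsto_id

theorem limits_pow (hS : S.Good) {α : ℝ} {lam : A → ℝ} (hL : S.Limits α lam) {p : ℕ}
    (hp : 1 ≤ p) : (S.pow p).Limits (α ^ p) lam := by
  refine ⟨one_le_pow₀ hL.1, hL.2.1, hL.2.2.1, ?_, fun c => ?_⟩
  · have h := (tendsto_ratio hS hL p).comp (tendsto_mul_atTop hp)
    refine h.congr fun n => ?_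
    simp only [LimAux.len_pow, Function.comp]
    rfl
  · have h := (hL.2.2.2.2 c).comp (tendsto_mul_atTop hp)
    refine h.congr fun n => ?_
    simp only [LimAux.len_pow, Function.comp]
    rfl

end Asm

/-- Two systems of the same word which both enumerate the set `K` regularly have a common regular
sequence. -/
theorem common_of_regEnum (hR : JReg) {A B : Type} [Finite A] [Finite B] {S : ASys A} {T : ASys B}
    (hS : S.Good) (hT : T.Good) {K : Set ℕ} (h1 : S.RegEnum K) (h2 : T.RegEnum K) :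
    ∃ e : ℕ → ℕ, S.RegSeq e ∧ T.RegSeq e := by
  obtain ⟨-, κ, i0, hκ, hi⟩ := h1
  obtain ⟨-, κ', i0', hκ', hi'⟩ := h2
  refine ⟨fun t => Nat.nth (fun y => y ∈ K) (i0 + i0' + κ * κ' * t), ?_, ?_⟩
  · have h := (hR A S _ hS).2.2 0 κ' hκ' (hi (i0 + i0') (Nat.le_add_right _ _))
    simpa [mul_assoc] using h
  · have h := (hR B T _ hT).2.2 0 κ hκ (hi' (i0 + i0') (Nat.le_add_left _ _))
    have e1 : ∀ t, κ * κ' * t = κ' * (κ * t) := fun t => by ring
    simpa [e1] using h

/-- **Assembly of the mathematics.** -/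
theorem core_of_joints (hR : JReg) (hC : JCert) (hPoly : JPoly) (hSp : JSparse) (hSplit : JSplit)
    (hI : JCaseI) (hSep : JSep) (hRat : JRatio) (hCh : JChain) : Core := by
  intro A B _ _ _ _ S T x hS hT hx hy hu
  suffices h : ∃ e : ℕ → ℕ, S.RegSeq e ∧ T.RegSeq e by
    obtain ⟨e, h1, h2⟩ := h
    exact hC A B S T x e hS hT hx hy h1 h2
  by_cases hP : S.PolyS ∨ T.PolyS
  · have hf : ∃ f, Sparse x f := by
      rcases hP with h | h
      · exact hPoly A S x hS hx h hu
      · exact hPoly B T x hT hy h hu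
    obtain ⟨f, hf⟩ := hf
    exact common_of_regEnum hR hS hT (hSp A S x f hS hx hu hf) (hSp B T x f hT hy hu hf)
  · push Not at hP
    obtain ⟨hPS, hPT⟩ := hP
    obtain ⟨p, hp, h⟩ := ASys.exists_limits S hS
    obtain ⟨α, lam, hL, hα⟩ := h 1 le_rfl 0
    obtain ⟨q, hq, h'⟩ := ASys.exists_limits T hT
    obtain ⟨β, mu, hM, hβ⟩ := h' 1 le_rfl 0
    have hα1 : 1 < α := lt_of_le_of_ne hL.1 fun h => hPS (hα h.symm)
    have hβ1 : 1 < β := lt_of_le_of_ne hM.1 fun h => hPT (hβ h.symm)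
    have hS0 := Asm.good_shift hS 0
    have hT0 := Asm.good_shift hT 0
    have hp1 : 1 ≤ p * 1 := by omega
    have hq1 : 1 ≤ q * 1 := by omega
    have hS1 := Asm.good_pow hS0 hp1
    have hT1 := Asm.good_pow hT0 hq1
    have hx1 := Asm.isWord_pow (Asm.isWord_shift hx 0) (p * 1)
    have hy1 := Asm.isWord_pow (Asm.isWord_shift hy 0) (q * 1)
    have backS : ∀ e, ((S.shift 0).pow (p * 1)).RegSeq e → S.RegSeq e := fun e he =>
      (hR A S e hS).2.1 0 ((hR A (S.shift 0) e hS0).1 _ hp1 he)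
    have backT : ∀ e, ((T.shift 0).pow (q * 1)).RegSeq e → T.RegSeq e := fun e he =>
      (hR B T e hT).2.1 0 ((hR B (T.shift 0) e hT0).1 _ hq1 he)
    generalize (S.shift 0).pow (p * 1) = S1 at *
    generalize (T.shift 0).pow (q * 1) = T1 at *
    suffices h : ∃ e : ℕ → ℕ, S1.RegSeq e ∧ T1.RegSeq e by
      obtain ⟨e, h1, h2⟩ := h
      exact ⟨e, backS e h1, backT e h2⟩
    obtain ⟨k, hk, hcase⟩ := hSplit A S1 α lam hS1 hL hα1
    have hS2 := Asm.good_pow hS1 hk
    have hx2 := Asm.isWord_pow hx1 k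
    have hL2 := Asm.limits_pow hS1 hL hk
    have hα2 : 1 < α ^ k := one_lt_pow₀ hα1 (by omega)
    have back2 : ∀ e, (S1.pow k).RegSeq e → S1.RegSeq e := fun e he =>
      (hR A S1 e hS1).1 _ hk he
    generalize S1.pow k = S2 at *
    suffices h : ∃ e : ℕ → ℕ, S2.RegSeq e ∧ T1.RegSeq e by
      obtain ⟨e, h1, h2⟩ := h
      exact ⟨e, back2 e h1, h2⟩
    rcases hcase with hG | hD
    · have hsep := hSep A B S2 T1 x _ β lam mu hS2 hT1 hx2 hy1 hL2 hM hα2 hβ1 hG
      have hrat := hRat A B S2 T1 x _ β lam mu hS2 hT1 hx2 hy1 hL2 hM hα2 hβ1 hu hG hsep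
      have hpos : ∀ n, (0 : ℝ) < S2.len n [S2.a] := fun n => by
        exact_mod_cast hS2.len_pos n S2.a
      have hpos' : ∀ n, (0 : ℝ) < T1.len n [T1.a] := fun n => by
        exact_mod_cast hT1.len_pos n T1.a
      obtain ⟨M, N, n0, m0, ω, hM1, hN1, hω, hlim⟩ := growth_match
        (s := fun n => (S2.len n [S2.a] : ℝ)) (s' := fun n => (T1.len n [T1.a] : ℝ))
        hα2 hβ1 hpos hpos' hL2.2.2.2.1 hM.2.2.2.1 hrat
      have hlev : LevSeq S2 T1 (fun t => n0 + M * t) (fun t => m0 + N * t) ω⁻¹ := by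
        refine ⟨inv_pos.2 hω, ?_, ?_, ?_⟩
        · exact tendsto_atTop_mono (fun t => Nat.le_add_left _ _) (Asm.tendsto_mul_atTop hM1)
        · exact tendsto_atTop_mono (fun t => Nat.le_add_left _ _) (Asm.tendsto_mul_atTop hN1)
        · refine (hlim.inv₀ hω.ne').congr fun t => ?_
          rw [inv_div]
      exact hCh A B S2 T1 x _ β lam mu hS2 hT1 hx2 hy1 hL2 hM hα2 hβ1 hu hG hsep M N n0 m0 _
        hM1 hN1 hlev
    · exact hI A B S2 T1 x _ β lam mu hS2 hT1 hx2 hy1 hL2 hM hα2 hβ1 hu hD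

end SUBST
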