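import Mathlib

/-!
# Kronecker substitution: one evaluation decides equality of polynomials with natural coefficients
-/

set_option autoImplicit false

open Finset

namespace SUBST

/-- Base `B` digits are unique (polynomial form). -/
lemma poly_digits {B : ℕ} (n : ℕ) : ∀ p q : Polynomial ℕ, (∀ n, p.coeff n < B) →
    (∀ n, q.coeff n < B) → p.eval B = q.eval B → p.coeff n = q.coeff n := by
  have key : ∀ p : Polynomial ℕ, (∀ n, p.coeff n < B) →
      p.coeff 0 = p.eval B % B ∧ p.divX.eval B = p.eval B / B := by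
    intro p hp
    have hB : 0 < B := lt_of_le_of_lt (Nat.zero_le _) (hp 0)
    have h1 : p.eval B = p.divX.eval B * B + p.coeff 0 := by
      conv_lhs => rw [← Polynomial.divX_mul_X_add p]
      simp
    constructor
    · rw [h1, Nat.mul_add_mod', Nat.mod_eq_of_lt (hp 0)]
    · rw [h1, mul_comm, Nat.mul_add_div hB, Nat.div_eq_of_lt (hp 0), add_zero]
  induction n with
  | zero =>
    intro p q hp hq h
    rw [(key p hp).1, (key q hq).1, h]
  | succ n ih =>
    intro p q hp hq h
    rw [← Polynomial.coeff_divX, ← Polynomial.coeff_divX]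
    refine ih _ _ (fun m => ?_) (fun m => ?_) ?_
    · rw [Polynomial.coeff_divX]; exact hp _
    · rw [Polynomial.coeff_divX]; exact hq _
    · rw [(key p hp).2, (key q hq).2, h]

/-- Base `B` digits are unique. -/
lemma digits_unique {B : ℕ} (f g : ℕ →₀ ℕ) (hf : ∀ n, f n < B) (hg : ∀ n, g n < B)
    (h : f.sum (fun n a => a * B ^ n) = g.sum (fun n a => a * B ^ n)) : f = g := by
  have hpoly : ∀ f : ℕ →₀ ℕ, ∃ p : Polynomial ℕ, (∀ n, p.coeff n = f n) ∧
      p.eval B = f.sum (fun n a => a * B ^ n) := by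
    intro f
    refine ⟨∑ n ∈ f.support, Polynomial.monomial n (f n), ?_, ?_⟩
    · intro n
      rw [Polynomial.finset_sum_coeff]
      simp only [Polynomial.coeff_monomial]
      rw [Finset.sum_ite_eq']
      split_ifs with hn
      · rfl
      · exact (Finsupp.notMem_support_iff.1 hn).symm
    · rw [Polynomial.eval_finset_sum, Finsupp.sum]
      exact Finset.sum_congr rfl fun n _ => by rw [Polynomial.eval_monomial]
  obtain ⟨p, hp, hp2⟩ := hpoly f
  obtain ⟨q, hq, hq2⟩ := hpoly g
  ext n
  rw [← hp, ← hq]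
  refine poly_digits n p q (fun m => by rw [hp]; exact hf m) (fun m => by rw [hq]; exact hg m) ?_
  rw [hp2, hq2, h]

/-- The exponent of a monomial at the Kronecker point. -/
def kexp (B : ℕ) (m : ℕ →₀ ℕ) : ℕ := m.sum (fun j a => a * B ^ j)

lemma eval_kron (B : ℕ) (p : MvPolynomial ℕ ℕ) :
    MvPolynomial.eval (fun j => B ^ (B ^ j)) p = ∑ m ∈ p.support, p.coeff m * B ^ (kexp B m) := by
  rw [MvPolynomial.eval_eq]
  refine Finset.sum_congr rfl fun m _ => ?_
  congr 1
  rw [kexp, Finsupp.sum, ← Finset.prod_pow_eq_pow_sum]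
  refine Finset.prod_congr rfl fun j _ => ?_
  rw [← pow_mul, mul_comm]

lemma small_of_mem {B : ℕ} {p : MvPolynomial ℕ ℕ} (hB : MvPolynomial.eval (fun _ => 2) p < B)
    {m : ℕ →₀ ℕ} (hm : m ∈ p.support) (j : ℕ) : m j < B := by
  rw [MvPolynomial.eval_eq] at hB
  have h1 : p.coeff m * ∏ i ∈ m.support, 2 ^ m i ≤ ∑ d ∈ p.support,
      p.coeff d * ∏ i ∈ d.support, (2 : ℕ) ^ d i :=
    Finset.single_le_sum (f := fun d => p.coeff d * ∏ i ∈ d.support, (2 : ℕ) ^ d i)
      (fun _ _ => Nat.zero_le _) hm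
  have h2 : 1 ≤ p.coeff m := Nat.one_le_iff_ne_zero.2 (MvPolynomial.mem_support_iff.1 hm)
  have h3 : m j < ∏ i ∈ m.support, 2 ^ m i := by
    by_cases hj : j ∈ m.support
    · calc m j < 2 ^ m j := Nat.lt_two_pow_self
        _ ≤ ∏ i ∈ m.support, 2 ^ m i :=
          Finset.single_le_prod' (f := fun i => 2 ^ m i) (fun _ _ => Nat.one_le_two_pow) hj
    · rw [Finsupp.notMem_support_iff.1 hj]
      exact Finset.prod_pos fun i _ => by positivity
  calc m j < ∏ i ∈ m.support, 2 ^ m i := h3
    _ ≤ p.coeff m * ∏ i ∈ m.support, 2 ^ m i := Nat.le_mul_of_pos_left _ h2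
    _ < B := lt_of_le_of_lt h1 hB

lemma coeff_sum_lt {B : ℕ} {p : MvPolynomial ℕ ℕ} (hB : MvPolynomial.eval (fun _ => 2) p < B) :
    ∑ m ∈ p.support, p.coeff m < B := by
  rw [MvPolynomial.eval_eq] at hB
  refine lt_of_le_of_lt (Finset.sum_le_sum fun m _ => ?_) hB
  exact Nat.le_mul_of_pos_right _ (Finset.prod_pos fun i _ => by positivity)

lemma kexp_inj {B : ℕ} {m m' : ℕ →₀ ℕ} (h : ∀ j, m j < B) (h' : ∀ j, m' j < B)
    (he : kexp B m = kexp B m') : m = m' := digits_unique m m' h h' he

/-- The value of a polynomial with natural coefficients at the Kronecker point determines it. -/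
theorem kronecker {B : ℕ} {p q : MvPolynomial ℕ ℕ} (hp : MvPolynomial.eval (fun _ => 2) p < B)
    (hq : MvPolynomial.eval (fun _ => 2) q < B)
    (h : MvPolynomial.eval (fun j => B ^ (B ^ j)) p = MvPolynomial.eval (fun j => B ^ (B ^ j)) q) :
    p = q := by
  classical
  set F : MvPolynomial ℕ ℕ → ℕ →₀ ℕ := fun p =>
    ∑ m ∈ p.support, Finsupp.single (kexp B m) (p.coeff m) with hF
  have hFapp : ∀ (p : MvPolynomial ℕ ℕ) (n : ℕ),
      F p n = ∑ m ∈ p.support, if kexp B m = n then p.coeff m else 0 := by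
    intro p n
    rw [hF]
    simp only [Finsupp.finset_sum_apply, Finsupp.single_apply]
  have hFlt : ∀ p : MvPolynomial ℕ ℕ, MvPolynomial.eval (fun _ => 2) p < B → ∀ n, F p n < B := by
    intro p hp n
    rw [hFapp]
    refine lt_of_le_of_lt (Finset.sum_le_sum fun m _ => ?_) (coeff_sum_lt hp)
    split_ifs
    · exact le_rfl
    · exact Nat.zero_le _
  have hFsum : ∀ p : MvPolynomial ℕ ℕ, (F p).sum (fun n a => a * B ^ n) =
      ∑ m ∈ p.support, p.coeff m * B ^ (kexp B m) := by
    intro p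
    rw [hF]
    simp only
    rw [← Finsupp.sum_finset_sum_index (h := fun n a => a * B ^ n) (fun n => by simp)
      (fun n a b => by ring)]
    refine Finset.sum_congr rfl fun m _ => ?_
    rw [Finsupp.sum_single_index (by simp)]
  have hFF : F p = F q := by
    refine digits_unique _ _ (hFlt p hp) (hFlt q hq) ?_
    rw [hFsum, hFsum, ← eval_kron, ← eval_kron, h]
  have hcoef : ∀ p : MvPolynomial ℕ ℕ, MvPolynomial.eval (fun _ => 2) p < B →
      ∀ m : ℕ →₀ ℕ, (∀ j, m j < B) → F p (kexp B m) = p.coeff m := by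
    intro p hp m hm
    rw [hFapp]
    have h1 : ∀ m' ∈ p.support, (if kexp B m' = kexp B m then p.coeff m' else 0) =
        if m' = m then p.coeff m' else 0 := by
      intro m' hm'
      by_cases h2 : m' = m
      · rw [h2]; simp
      · rw [if_neg h2, if_neg]
        intro h3
        exact h2 (kexp_inj (small_of_mem hp hm') hm h3)
    rw [Finset.sum_congr rfl h1, Finset.sum_ite_eq']
    split_ifs with h4
    · rfl
    · exact (MvPolynomial.notMem_support_iff.1 h4).symm
  ext m
  by_cases hm : ∀ j, m j < B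
  · rw [← hcoef p hp m hm, ← hcoef q hq m hm, hFF]
  · have h1 : m ∉ p.support := fun h2 => hm (small_of_mem hp h2)
    have h2 : m ∉ q.support := fun h2 => hm (small_of_mem hq h2)
    rw [MvPolynomial.notMem_support_iff.1 h1, MvPolynomial.notMem_support_iff.1 h2]

end SUBST
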