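import Pool.Agent.Work.SUBST.Vec
import Pool.Agent.Work.SUBST.Kron

/-!
# The certificate of equality of two sequences of words
-/

set_option autoImplicit false

namespace SUBST

/-- A signed term: level, component, sign, monomial. -/
abbrev Term := ℕ × Bool × Bool × List ℕ

/-- Component of a vector. -/
def pick {R : Type*} (e : Bool) (v : R × R) : R := bif e then v.2 else v.1

section generic

variable {R S : Type*} [CommSemiring R] [CommSemiring S]

/-- Value of a monomial. -/
def mono (x : ℕ → R) (m : List ℕ) : R := m.foldr (fun j a => x j * a) 1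

/-- Start words. -/
def zz (z z' : List ℕ) (f : Bool) : List ℕ := bif f then z' else z

/-- Value of a term. -/
def tval (x : ℕ → R) (σ : List (List ℕ)) (z z' : List ℕ) (f : Bool) (t : Term) : R :=
  mono x t.2.2.2 * pick t.2.1 (V x (it σ t.1 (zz z z' (xor f t.2.2.1))))

/-- One side of the identity. -/
def side (x : ℕ → R) (σ : List (List ℕ)) (z z' : List ℕ) (k : ℕ) (e : Bool) (T : List Term)
    (f : Bool) : R :=
  T.foldr (fun t a => tval x σ z z' f t + a) (pick e (V x (it σ (k + 1) (zz z z' f))))

lemma pick_map (φ : R →+* S) (e : Bool) (v : R × R) :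
    pick e (φ v.1, φ v.2) = φ (pick e v) := by
  cases e <;> rfl

lemma mono_map (φ : R →+* S) (x : ℕ → R) (m : List ℕ) :
    mono (fun j => φ (x j)) m = φ (mono x m) := by
  induction m with
  | nil => simp [mono]
  | cons j m ih =>
    simp only [mono, List.foldr_cons, map_mul] at ih ⊢
    rw [ih]

lemma tval_map (φ : R →+* S) (x : ℕ → R) (σ : List (List ℕ)) (z z' : List ℕ) (f : Bool)
    (t : Term) : tval (fun j => φ (x j)) σ z z' f t = φ (tval x σ z z' f t) := by
  rw [tval, tval, mono_map, V_map, pick_map, map_mul]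

lemma side_map (φ : R →+* S) (x : ℕ → R) (σ : List (List ℕ)) (z z' : List ℕ) (k : ℕ)
    (e : Bool) (T : List Term) (f : Bool) :
    side (fun j => φ (x j)) σ z z' k e T f = φ (side x σ z z' k e T f) := by
  induction T with
  | nil =>
    simp only [side, List.foldr_nil]
    rw [V_map, pick_map]
  | cons t T ih =>
    simp only [side, List.foldr_cons, map_add] at ih ⊢
    rw [tval_map, ih]

/-- If the two words agree at all levels of the terms, the two sides have equal sums. -/
lemma side_cancel (x : ℕ → R) (σ : List (List ℕ)) (z z' : List ℕ) (k : ℕ) (e : Bool)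
    (T : List Term) (hT : ∀ t ∈ T, t.1 ≤ k)
    (h : ∀ i ≤ k, V x (it σ i z) = V x (it σ i z')) :
    ∃ s : R, ∀ f, side x σ z z' k e T f = s + pick e (V x (it σ (k + 1) (zz z z' f))) := by
  induction T with
  | nil => exact ⟨0, fun f => by simp [side]⟩
  | cons t T ih =>
    obtain ⟨s, hs⟩ := ih fun t' ht' => hT t' (List.mem_cons_of_mem _ ht')
    have ht := h t.1 (hT t List.mem_cons_self)
    refine ⟨mono x t.2.2.2 * pick t.2.1 (V x (it σ t.1 z)) + s, fun f => ?_⟩
    have h1 : tval x σ z z' f t = mono x t.2.2.2 * pick t.2.1 (V x (it σ t.1 z)) := by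
      rw [tval]
      congr 2
      cases hx : (xor f t.2.2.1)
      · rfl
      · exact ht.symm
    have h2 : side x σ z z' k e (t :: T) f = tval x σ z z' f t + side x σ z z' k e T f := rfl
    rw [h2, h1, hs, add_assoc]

end generic

/-- The point with two parameters. -/
def kpt (q b : ℕ) (j : ℕ) : ℕ := q ^ (b ^ j)

/-- The check of one identity. -/
def ChkE (σ : List (List ℕ)) (z z' : List ℕ) (k B : ℕ) (e : Bool) (T : List Term) : Prop :=
  (∀ t ∈ T, t.1 ≤ k) ∧ side (kpt 2 1) σ z z' k e T false < B ∧
    side (kpt 2 1) σ z z' k e T true < B ∧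
    side (kpt B B) σ z z' k e T false = side (kpt B B) σ z z' k e T true

/-- The check of the certificate `(k, B, T0, T1)`. -/
def Chk (σ : List (List ℕ)) (z z' : List ℕ) (o : List (List ℕ)) (k B : ℕ) (T0 T1 : List Term) :
    Prop :=
  (∀ i < k + 1, app o (it σ i z) = app o (it σ i z')) ∧ ChkE σ z z' k B false T0 ∧
    ChkE σ z z' k B true T1

/-- The identity holds at every point. -/
lemma chkE_identity {σ : List (List ℕ)} {z z' : List ℕ} {k B : ℕ} {e : Bool} {T : List Term}
    (h : ChkE σ z z' k B e T) (x : ℕ → ℕ) :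
    side x σ z z' k e T false = side x σ z z' k e T true := by
  obtain ⟨-, h1, h2, h3⟩ := h
  have hev : ∀ (y : ℕ → ℕ) (f : Bool), MvPolynomial.eval y
      (side (fun j => (MvPolynomial.X j : MvPolynomial ℕ ℕ)) σ z z' k e T f) =
      side y σ z z' k e T f := by
    intro y f
    rw [← side_map (MvPolynomial.eval y) (fun j => (MvPolynomial.X j : MvPolynomial ℕ ℕ))]
    congr 1
    ext j
    exact MvPolynomial.eval_X j
  have hk2 : (kpt 2 1) = fun _ => 2 := by
    ext j
    simp [kpt]
  have key : side (fun j => (MvPolynomial.X j : MvPolynomial ℕ ℕ)) σ z z' k e T false =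
      side (fun j => (MvPolynomial.X j : MvPolynomial ℕ ℕ)) σ z z' k e T true := by
    refine kronecker (B := B) ?_ ?_ ?_
    · rw [hev, ← hk2]; exact h1
    · rw [hev, ← hk2]; exact h2
    · rw [hev, hev]; exact h3
  rw [← hev x false, ← hev x true, key]

/-- Soundness. -/
theorem seqEq_of_chk {σ : List (List ℕ)} {z z' : List ℕ} {o : List (List ℕ)} {k B : ℕ}
    {T0 T1 : List Term} (h : Chk σ z z' o k B T0 T1) : SeqEq σ z z' o := by
  obtain ⟨h0, hE0, hE1⟩ := h
  have star : ∀ x : ℕ → ℕ, (∀ i ≤ k, V x (it σ i z) = V x (it σ i z')) →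
      V x (it σ (k + 1) z) = V x (it σ (k + 1) z') := by
    intro x hx
    have h1 : ∀ (e : Bool) (T : List Term), ChkE σ z z' k B e T →
        pick e (V x (it σ (k + 1) z)) = pick e (V x (it σ (k + 1) z')) := by
      intro e T hT
      obtain ⟨s, hs⟩ := side_cancel x σ z z' k e T hT.1 hx
      have h2 := chkE_identity hT x
      rw [hs, hs] at h2
      exact Nat.add_left_cancel h2
    exact Prod.ext (h1 false T0 hE0) (h1 true T1 hE1)
  have key : ∀ n, V (sub o pt) (it σ n z) = V (sub o pt) (it σ n z') := by
    intro n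
    induction n using Nat.strong_induction_on with
    | _ n ih =>
      by_cases hn : n < k + 1
      · rw [V_out, V_out, h0 n hn]
      · obtain ⟨m, rfl⟩ : ∃ m, n = k + 1 + m := ⟨n - (k + 1), by omega⟩
        have h3 := star ((sub σ)^[m] (sub o pt)) (by
          intro i hi
          rw [V_sub_iterate, V_sub_iterate]
          exact ih (i + m) (by omega))
        rw [V_sub_iterate, V_sub_iterate] at h3
        exact h3
  intro t
  have h4 := key t
  rw [V_out, V_out] at h4
  exact V_pt_injective h4

/-! ### Completeness -/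

/-- Bound for all letters. -/
lemma exists_bound (σ : List (List ℕ)) (z : List ℕ) : ∃ L, ∀ n, ∀ c ∈ it σ n z, c < L := by
  obtain ⟨L, hL⟩ : ∃ L, (∀ c ∈ z, c < L) ∧ ∀ l ∈ σ, ∀ c ∈ l, c < L := by
    refine ⟨z.sum + (σ.map List.sum).sum + 1, ?_, ?_⟩
    · intro c hc
      have := List.single_le_sum (l := z) (fun _ _ => Nat.zero_le _) c hc
      omega
    · intro l hl c hc
      have h1 := List.single_le_sum (l := l) (fun _ _ => Nat.zero_le _) c hc
      have h2 := List.single_le_sum (l := σ.map List.sum) (fun _ _ => Nat.zero_le _) l.sum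
        (List.mem_map_of_mem hl)
      omega
  refine ⟨L, fun n => ?_⟩
  induction n with
  | zero => exact hL.1
  | succ n ih =>
    intro c hc
    rw [it_succ, app, List.mem_flatMap] at hc
    obtain ⟨d, hd, hc⟩ := hc
    by_cases hd2 : d < σ.length
    · rw [List.getD_eq_getElem _ _ hd2] at hc
      exact hL.2 _ (List.getElem_mem hd2) c hc
    · rw [List.getD_eq_default _ _ (by omega)] at hc
      exact absurd hc List.not_mem_nil

section enc

variable {m : ℕ}

/-- The variables. -/
noncomputable def var (m : ℕ) (j : ℕ) : MvPolynomial (Fin m) ℤ :=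
  if h : j < m then MvPolynomial.X ⟨j, h⟩ else 0

/-- Value of a list of monomials. -/
noncomputable def lval {R : Type*} [CommSemiring R] (x : ℕ → R) (L : List (List ℕ)) : R :=
  (L.map (mono x)).sum

lemma exists_enc (p : MvPolynomial (Fin m) ℤ) : ∃ L L' : List (List ℕ),
    (∀ l ∈ L ++ L', ∀ j ∈ l, j < m) ∧ p = lval (var m) L - lval (var m) L' := by
  induction p using MvPolynomial.induction_on with
  | C a =>
    have hrep : ∀ n : ℕ, lval (var m) (List.replicate n []) =
        (MvPolynomial.C (n : ℤ) : MvPolynomial (Fin m) ℤ) := by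
      intro n
      rw [lval, List.map_replicate, List.sum_replicate]
      simp [mono]
    have hmem : ∀ n n' : ℕ, ∀ l ∈ List.replicate n ([] : List ℕ) ++ List.replicate n' [],
        ∀ j ∈ l, j < m := by
      intro n n' l hl j hj
      rw [List.mem_append, List.mem_replicate, List.mem_replicate] at hl
      rcases hl with ⟨-, rfl⟩ | ⟨-, rfl⟩ <;> exact absurd hj List.not_mem_nil
    rcases Int.eq_nat_or_neg a with ⟨n, rfl | rfl⟩
    · refine ⟨List.replicate n [], List.replicate 0 [], hmem _ _, ?_⟩
      rw [hrep, hrep]; simp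
    · refine ⟨List.replicate 0 [], List.replicate n [], hmem _ _, ?_⟩
      rw [hrep, hrep]; simp
  | add p q hp hq =>
    obtain ⟨L, L', h1, h2⟩ := hp
    obtain ⟨K, K', h3, h4⟩ := hq
    refine ⟨L ++ K, L' ++ K', ?_, ?_⟩
    · intro l hl
      simp only [List.mem_append] at hl h1 h3
      rcases hl with (hl | hl) | (hl | hl)
      · exact h1 l (Or.inl hl)
      · exact h3 l (Or.inl hl)
      · exact h1 l (Or.inr hl)
      · exact h3 l (Or.inr hl)
    · rw [h2, h4]
      simp only [lval, List.map_append, List.sum_append]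
      ring
  | mul_X p i hp =>
    obtain ⟨L, L', h1, h2⟩ := hp
    have hmul : ∀ L : List (List ℕ), lval (var m) (L.map (fun l => (i : ℕ) :: l)) =
        lval (var m) L * MvPolynomial.X i := by
      intro L
      induction L with
      | nil => simp [lval]
      | cons l L ih =>
        rw [lval, lval, List.map_cons, List.map_cons, List.sum_cons, List.map_cons, List.sum_cons]
        rw [lval, lval] at ih
        rw [ih]
        have h5 : mono (var m) ((i : ℕ) :: l) = var m i * mono (var m) l := rfl
        have h6 : var m (i : ℕ) = (MvPolynomial.X i : MvPolynomial (Fin m) ℤ) := by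
          rw [var, dif_pos i.2]
        rw [h5, h6]
        ring
    refine ⟨L.map (fun l => (i : ℕ) :: l), L'.map (fun l => (i : ℕ) :: l), ?_, ?_⟩
    · intro l hl j hj
      rw [List.mem_append, List.mem_map, List.mem_map] at hl
      rcases hl with ⟨l', hl', rfl⟩ | ⟨l', hl', rfl⟩
      · rcases List.mem_cons.1 hj with rfl | hj
        · exact i.2
        · exact h1 l' (List.mem_append_left _ hl') j hj
      · rcases List.mem_cons.1 hj with rfl | hj
        · exact i.2
        · exact h1 l' (List.mem_append_right _ hl') j hj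
    · rw [hmul, hmul, h2]
      ring

end enc

end SUBST
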