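import Pool.Agent.Work.SUBST.Cert

/-!
# Existence of the certificate: the ideal chain stabilises
-/

set_option autoImplicit false

namespace SUBST

section generic

variable {R : Type*} [CommSemiring R]

lemma side_eq (x : ℕ → R) (σ : List (List ℕ)) (z z' : List ℕ) (k : ℕ) (e : Bool)
    (T : List Term) (f : Bool) :
    side x σ z z' k e T f = (T.map (tval x σ z z' f)).sum +
      pick e (V x (it σ (k + 1) (zz z z' f))) := by
  induction T with
  | nil => simp [side]
  | cons t T ih =>
    have h1 : side x σ z z' k e (t :: T) f = tval x σ z z' f t + side x σ z z' k e T f := rfl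
    rw [h1, ih, List.map_cons, List.sum_cons, add_assoc]

lemma mono_congr {x y : ℕ → R} {m : ℕ} (h : ∀ j < m, x j = y j) {l : List ℕ}
    (hl : ∀ j ∈ l, j < m) : mono x l = mono y l := by
  induction l with
  | nil => rfl
  | cons j l ih =>
    have h1 : mono x (j :: l) = x j * mono x l := rfl
    have h2 : mono y (j :: l) = y j * mono y l := rfl
    rw [h1, h2, h j (hl j List.mem_cons_self), ih fun i hi => hl i (List.mem_cons_of_mem _ hi)]

lemma side_congr {x y : ℕ → R} {L : ℕ} (h : ∀ j < 4 * L, x j = y j) {σ : List (List ℕ)}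
    {z z' : List ℕ} (hz : ∀ n, ∀ c ∈ it σ n z, c < L) (hz' : ∀ n, ∀ c ∈ it σ n z', c < L)
    {T : List Term} (hT : ∀ t ∈ T, ∀ j ∈ t.2.2.2, j < 4 * L) (k : ℕ) (e f : Bool) :
    side x σ z z' k e T f = side y σ z z' k e T f := by
  have hzz : ∀ g n, ∀ c ∈ it σ n (zz z z' g), c < L := by
    intro g
    cases g
    · exact hz
    · exact hz'
  rw [side_eq, side_eq]
  have h1 : ∀ t ∈ T, tval x σ z z' f t = tval y σ z z' f t := by
    intro t ht
    rw [tval, tval, mono_congr h (hT t ht), V, V, act_congr h (hzz _ _)]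
  rw [List.map_congr_left h1, V, V, act_congr h (hzz _ _)]

end generic

/-- The difference of the two words at level `i`. -/
noncomputable def D (m : ℕ) (σ : List (List ℕ)) (z z' : List ℕ) (i : ℕ) (e : Bool) :
    MvPolynomial (Fin m) ℤ :=
  pick e (V (var m) (it σ i z)) - pick e (V (var m) (it σ i z'))

lemma exists_terms {m : ℕ} (σ : List (List ℕ)) (z z' : List ℕ) (k : ℕ)
    (c : Fin (k + 1) × Bool → MvPolynomial (Fin m) ℤ) (s : Finset (Fin (k + 1) × Bool)) :
    ∃ T : List Term, (∀ t ∈ T, t.1 ≤ k) ∧ (∀ t ∈ T, ∀ j ∈ t.2.2.2, j < m) ∧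
      (T.map (tval (var m) σ z z' true)).sum =
        (T.map (tval (var m) σ z z' false)).sum + ∑ p ∈ s, c p * D m σ z z' p.1 p.2 := by
  classical
  induction s using Finset.induction_on with
  | empty => exact ⟨[], by simp, by simp, by simp⟩
  | insert p s hp ih =>
    obtain ⟨T, h1, h2, h3⟩ := ih
    obtain ⟨L, L', h4, h5⟩ := exists_enc (c p)
    have hL : ∀ L : List (List ℕ), ((L.map (fun l => ((p.1 : ℕ), p.2, true, l))).map
        (tval (var m) σ z z' true)).sum = ((L.map (fun l => ((p.1 : ℕ), p.2, true, l))).map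
        (tval (var m) σ z z' false)).sum + lval (var m) L * D m σ z z' p.1 p.2 := by
      intro L
      induction L with
      | nil => simp [lval]
      | cons l L ihL =>
        have e1 : tval (var m) σ z z' true ((p.1 : ℕ), p.2, true, l) =
            mono (var m) l * pick p.2 (V (var m) (it σ p.1 z)) := rfl
        have e2 : tval (var m) σ z z' false ((p.1 : ℕ), p.2, true, l) =
            mono (var m) l * pick p.2 (V (var m) (it σ p.1 z')) := rfl
        have e3 : lval (var m) (l :: L) = mono (var m) l + lval (var m) L := by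
          simp [lval]
        simp only [List.map_cons, List.sum_cons]
        rw [ihL, e1, e2, e3, D]
        ring
    have hL' : ∀ L : List (List ℕ), ((L.map (fun l => ((p.1 : ℕ), p.2, false, l))).map
        (tval (var m) σ z z' true)).sum = ((L.map (fun l => ((p.1 : ℕ), p.2, false, l))).map
        (tval (var m) σ z z' false)).sum - lval (var m) L * D m σ z z' p.1 p.2 := by
      intro L
      induction L with
      | nil => simp [lval]
      | cons l L ihL =>
        have e1 : tval (var m) σ z z' true ((p.1 : ℕ), p.2, false, l) =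
            mono (var m) l * pick p.2 (V (var m) (it σ p.1 z')) := rfl
        have e2 : tval (var m) σ z z' false ((p.1 : ℕ), p.2, false, l) =
            mono (var m) l * pick p.2 (V (var m) (it σ p.1 z)) := rfl
        have e3 : lval (var m) (l :: L) = mono (var m) l + lval (var m) L := by
          simp [lval]
        simp only [List.map_cons, List.sum_cons]
        rw [ihL, e1, e2, e3, D]
        ring
    refine ⟨(L.map (fun l => ((p.1 : ℕ), p.2, true, l))) ++
      ((L'.map (fun l => ((p.1 : ℕ), p.2, false, l))) ++ T), ?_, ?_, ?_⟩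
    · intro t ht
      rw [List.mem_append, List.mem_append, List.mem_map, List.mem_map] at ht
      rcases ht with ⟨l, -, rfl⟩ | ⟨l, -, rfl⟩ | ht
      · exact Nat.lt_succ_iff.1 p.1.2
      · exact Nat.lt_succ_iff.1 p.1.2
      · exact h1 t ht
    · intro t ht
      rw [List.mem_append, List.mem_append, List.mem_map, List.mem_map] at ht
      rcases ht with ⟨l, hl, rfl⟩ | ⟨l, hl, rfl⟩ | ht
      · exact h4 l (List.mem_append_left _ hl)
      · exact h4 l (List.mem_append_right _ hl)
      · exact h2 t ht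
    · rw [Finset.sum_insert hp, List.map_append, List.map_append, List.sum_append,
        List.sum_append, List.map_append, List.map_append, List.sum_append, List.sum_append,
        hL, hL', h3, h5]
      ring

/-- Existence of the identity. -/
lemma exists_identity (σ : List (List ℕ)) (z z' : List ℕ) : ∃ k : ℕ, ∀ e : Bool,
    ∃ T : List Term, (∀ t ∈ T, t.1 ≤ k) ∧ ∀ y : ℕ → ℕ,
      side y σ z z' k e T false = side y σ z z' k e T true := by
  classical
  obtain ⟨L1, hL1⟩ := exists_bound σ z
  obtain ⟨L2, hL2⟩ := exists_bound σ z'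
  set L := max L1 L2 with hL
  have hz : ∀ n, ∀ c ∈ it σ n z, c < L := fun n c hc => lt_of_lt_of_le (hL1 n c hc) (le_max_left _ _)
  have hz' : ∀ n, ∀ c ∈ it σ n z', c < L :=
    fun n c hc => lt_of_lt_of_le (hL2 n c hc) (le_max_right _ _)
  set m := 4 * L with hm
  have hmono : Monotone (fun k : ℕ => Ideal.span (Set.range
      (fun p : Fin (k + 1) × Bool => D m σ z z' p.1 p.2))) := by
    intro k l hkl
    refine Ideal.span_mono ?_
    rintro _ ⟨p, rfl⟩
    exact ⟨(⟨p.1, by have := p.1.2; omega⟩, p.2), rfl⟩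
  obtain ⟨k, hk⟩ := (monotone_stabilizes_iff_noetherian (R := MvPolynomial (Fin m) ℤ)
    (M := MvPolynomial (Fin m) ℤ)).2 inferInstance ⟨_, hmono⟩
  refine ⟨k, fun e => ?_⟩
  have hmem : D m σ z z' (k + 1) e ∈ Ideal.span (Set.range
      (fun p : Fin (k + 1) × Bool => D m σ z z' p.1 p.2)) := by
    have h1 := hk (k + 1) (Nat.le_succ k)
    have h2 : D m σ z z' (k + 1) e ∈ Ideal.span (Set.range
        (fun p : Fin (k + 1 + 1) × Bool => D m σ z z' p.1 p.2)) :=
      Ideal.subset_span ⟨(⟨k + 1, by omega⟩, e), rfl⟩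
    have h3 : Ideal.span (Set.range (fun p : Fin (k + 1) × Bool => D m σ z z' p.1 p.2)) =
        Ideal.span (Set.range (fun p : Fin (k + 1 + 1) × Bool => D m σ z z' p.1 p.2)) := h1
    rw [h3]
    exact h2
  obtain ⟨c, hc⟩ := Ideal.mem_span_range_iff_exists_fun.1 hmem
  obtain ⟨T, h1, h2, h3⟩ := exists_terms σ z z' k c Finset.univ
  refine ⟨T, h1, fun y => ?_⟩
  have h4 : side (var m) σ z z' k e T false = side (var m) σ z z' k e T true := by
    rw [side_eq, side_eq, h3, hc, D]
    simp only [zz, cond_false, cond_true]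
    ring
  set φ : MvPolynomial (Fin m) ℤ →+* ℤ :=
    MvPolynomial.eval (fun i : Fin m => ((y i : ℕ) : ℤ)) with hφ
  have h5 : ∀ f, (((side y σ z z' k e T f : ℕ)) : ℤ) = φ (side (var m) σ z z' k e T f) := by
    intro f
    rw [← side_map φ]
    have h6 := side_map (Nat.castRingHom ℤ) y σ z z' k e T f
    have h7 : ((side y σ z z' k e T f : ℕ) : ℤ) = Nat.castRingHom ℤ (side y σ z z' k e T f) := rfl
    rw [h7, ← h6]
    refine side_congr (L := L) ?_ hz hz' h2 k e f
    intro j hj
    have h8 : var m j = (MvPolynomial.X ⟨j, hj⟩ : MvPolynomial (Fin m) ℤ) := dif_pos hj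
    rw [h8, hφ]
    simp
  have h6 : ((side y σ z z' k e T false : ℕ) : ℤ) = ((side y σ z z' k e T true : ℕ) : ℤ) := by
    rw [h5, h5, h4]
  exact_mod_cast h6

/-- Completeness. -/
theorem exists_chk {σ : List (List ℕ)} {z z' : List ℕ} {o : List (List ℕ)}
    (h : SeqEq σ z z' o) : ∃ (k B : ℕ) (T0 T1 : List Term), Chk σ z z' o k B T0 T1 := by
  obtain ⟨k, hk⟩ := exists_identity σ z z'
  obtain ⟨T0, h1, h2⟩ := hk false
  obtain ⟨T1, h3, h4⟩ := hk true
  refine ⟨k, side (kpt 2 1) σ z z' k false T0 false + side (kpt 2 1) σ z z' k false T0 true +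
    side (kpt 2 1) σ z z' k true T1 false + side (kpt 2 1) σ z z' k true T1 true + 1, T0, T1,
    fun i _ => h i, ⟨h1, by omega, by omega, h2 _⟩, ⟨h3, by omega, by omega, h4 _⟩⟩

end SUBST
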