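import Mathlib

/-!
# Substitutive words: definitions and joints (problem 24c0d2)

Letters are natural numbers; a morphism is a table `σ : List (List ℕ)` (letter `c` goes to
`σ.getD c []`), a coding is a table `τ : List ℕ`.
-/

set_option autoImplicit false

namespace SUBST

/-- The image of a word under a morphism. -/
def app (σ : List (List ℕ)) (w : List ℕ) : List ℕ := w.flatMap (fun x => σ.getD x [])

/-- Iterates of a morphism on a word. -/
def it (σ : List (List ℕ)) (n : ℕ) (w : List ℕ) : List ℕ := (app σ)^[n] w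

/-- The image of a word under a coding. -/
def cod (τ : List ℕ) (w : List ℕ) : List ℕ := w.map (fun x => τ.getD x 0)

/-- A system: morphism, coding, start letter. -/
abbrev Sys := List (List ℕ) × List ℕ × ℕ

/-- The promise of the problem. -/
def Valid (S : Sys) : Prop :=
  S.2.2 < S.1.length ∧ (∀ l ∈ S.1, ∀ x ∈ l, x < S.1.length) ∧
    (∃ u : List ℕ, u ≠ [] ∧ S.1.getD S.2.2 [] = S.2.2 :: u) ∧
    (∀ N : ℕ, ∃ n : ℕ, N < (it S.1 n [S.2.2]).length)

/-- Equality of the two words. -/
def EqW (S T : Sys) : Prop :=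
  ∀ n m k : ℕ, k < (it S.1 n [S.2.2]).length → k < (it T.1 m [T.2.2]).length →
    S.2.1.getD ((it S.1 n [S.2.2]).getD k 0) 0 = T.2.1.getD ((it T.1 m [T.2.2]).getD k 0) 0

/-- Level sequences: `P_0 = P`, `P_(t+1) = σ^M(P_t) w`. -/
def lev (σ : List (List ℕ)) (M : ℕ) (w : List ℕ) (t : ℕ) (P : List ℕ) : List ℕ :=
  (fun Z => it σ M Z ++ w)^[t] P

/-- The data of a level sequence of prefixes of the word of `S`: `P_t C` is a prefix for all `t`. -/
def LevOK (S : Sys) (M : ℕ) (P C w : List ℕ) (n0 : ℕ) : Prop :=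
  1 ≤ M ∧ P ≠ [] ∧ (P ++ C) <+: it S.1 n0 [S.2.2] ∧ (w ++ C) <+: it S.1 M C

/-- Certificate of equality: two level sequences with bounded offset. -/
def LevelCert (S T : Sys) : Prop :=
  ∃ (M N n0 : ℕ) (P C w Q D w' r s : List ℕ), LevOK S M P C w n0 ∧ LevOK T N Q D w' n0 ∧
    ∀ t, cod S.2.1 (lev S.1 M w t P) ++ r = cod T.2.1 (lev T.1 N w' t Q) ++ s

/-- The ultimately periodic word `u v v v ...`. -/
def upw (u v : List ℕ) (k : ℕ) : ℕ :=
  if k < u.length then u.getD k 0 else v.getD ((k - u.length) % v.length) 0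

/-- The word of `S` is `u v v v ...`. -/
def IsUp (S : Sys) (u v : List ℕ) : Prop :=
  ∀ n k : ℕ, k < (it S.1 n [S.2.2]).length →
    S.2.1.getD ((it S.1 n [S.2.2]).getD k 0) 0 = upw u v k

/-- Certificate of equality in the ultimately periodic case. -/
def UPCert (S T : Sys) : Prop := ∃ u v : List ℕ, v ≠ [] ∧ IsUp S u v ∧ IsUp T u v

/-- Equality of two sequences of words generated by one morphism. -/
def SeqEq (σ : List (List ℕ)) (z z' : List ℕ) (o : List (List ℕ)) : Prop :=
  ∀ t, app o (it σ t z) = app o (it σ t z')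

/-- The joint with the mathematics. -/
def Complete : Prop := ∀ S T : Sys, Valid S → Valid T → EqW S T → UPCert S T ∨ LevelCert S T

end SUBST
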