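import Pool.Agent.Work.SUBST.CertC

/-!
# Compactness of word equations (Ehrenfeucht property) over a finite alphabet
-/

set_option autoImplicit false

namespace SUBST

section

variable {D : Type} [Finite D]

/-- Every system of word equations `g u = g v` over a finite alphabet is equivalent to one of its
finite subsystems. -/
theorem compactness (E : Set (List D × List D)) :
    ∃ F : Finset (List D × List D), (↑F : Set (List D × List D)) ⊆ E ∧
      ∀ g : D → List ℕ, (∀ p ∈ F, p.1.flatMap g = p.2.flatMap g) →
        ∀ p ∈ E, p.1.flatMap g = p.2.flatMap g := by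
  classical
  obtain ⟨n, ⟨e⟩⟩ := Finite.exists_equiv_fin D
  set m := 4 * n with hm
  set emb : D → ℕ := fun d => (e d : ℕ) with hemb
  have hlt : ∀ w : List D, ∀ c ∈ w.map emb, c < n := by
    intro w c hc
    obtain ⟨d, -, rfl⟩ := List.mem_map.1 hc
    exact (e d).2
  set P : (List D × List D) → Bool → MvPolynomial (Fin m) ℤ := fun p b =>
    pick b (V (var m) (p.1.map emb)) - pick b (V (var m) (p.2.map emb)) with hP
  set S : Set (MvPolynomial (Fin m) ℤ) := {q | ∃ p ∈ E, ∃ b, P p b = q} with hS
  have hfg : (Submodule.span (MvPolynomial (Fin m) ℤ) S).FG := IsNoetherian.noetherian _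
  obtain ⟨s', hs', hspan⟩ := Submodule.fg_span_iff_fg_span_finset_subset S |>.1 hfg
  have hch : ∀ q : MvPolynomial (Fin m) ℤ, ∃ p : List D × List D,
      q ∈ s' → p ∈ E ∧ ∃ b, P p b = q := by
    intro q
    by_cases hq : q ∈ s'
    · obtain ⟨p, hp, hb⟩ := hs' hq
      exact ⟨p, fun _ => ⟨hp, hb⟩⟩
    · exact ⟨([], []), fun h => absurd h hq⟩
  choose c hc using hch
  refine ⟨s'.image c, ?_, ?_⟩
  · intro p hp
    rw [Finset.mem_coe, Finset.mem_image] at hp
    obtain ⟨q, hq, rfl⟩ := hp
    exact (hc q hq).1
  · intro g hg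
    set o : List (List ℕ) := List.ofFn (fun i : Fin n => g (e.symm i)) with ho
    have happ : ∀ w : List D, app o (w.map emb) = w.flatMap g := by
      intro w
      rw [app, List.flatMap_map]
      refine List.flatMap_congr fun d _ => ?_
      have h1 : emb d < o.length := by
        rw [ho, List.length_ofFn]; exact (e d).2
      rw [List.getD_eq_getElem _ _ h1]
      simp [ho, hemb]
    set y : ℕ → ℕ := sub o pt with hy
    set φ : MvPolynomial (Fin m) ℤ →+* ℤ :=
      MvPolynomial.eval (fun i : Fin m => ((y i : ℕ) : ℤ)) with hφ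
    have hval : ∀ (w : List D) (b : Bool), φ (pick b (V (var m) (w.map emb))) =
        ((pick b (V pt (w.flatMap g)) : ℕ) : ℤ) := by
      intro w b
      rw [← happ w, ← V_out]
      have h1 : ((pick b (V (sub o pt) (w.map emb)) : ℕ) : ℤ) =
          pick b (V (fun j => ((y j : ℕ) : ℤ)) (w.map emb)) := by
        have h2 := V_map (Nat.castRingHom ℤ) y (w.map emb)
        have h3 : (fun j => (Nat.castRingHom ℤ) (y j)) = fun j => ((y j : ℕ) : ℤ) := rfl
        rw [h3] at h2
        rw [h2, pick_map]
        rfl
      rw [h1, ← pick_map, ← V_map]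
      have h4 : V (fun j => φ (var m j)) (w.map emb) =
          V (fun j => ((y j : ℕ) : ℤ)) (w.map emb) := by
        refine act_congr (L := n) ?_ (hlt w) _
        intro j hj
        have h5 : var m j = (MvPolynomial.X ⟨j, hj⟩ : MvPolynomial (Fin m) ℤ) := dif_pos hj
        rw [h5, hφ]
        simp
      rw [h4]
    have hker : ∀ p : List D × List D, (∀ b, φ (P p b) = 0) ↔
        p.1.flatMap g = p.2.flatMap g := by
      intro p
      constructor
      · intro h
        apply V_pt_injective
        have h1 : ∀ b, pick b (V pt (p.1.flatMap g)) = pick b (V pt (p.2.flatMap g)) := by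
          intro b
          have h2 := h b
          rw [hP] at h2
          simp only [map_sub] at h2
          rw [hval, hval] at h2
          have h3 : ((pick b (V pt (p.1.flatMap g)) : ℕ) : ℤ) =
            ((pick b (V pt (p.2.flatMap g)) : ℕ) : ℤ) := by linarith
          exact_mod_cast h3
        exact Prod.ext (h1 false) (h1 true)
      · intro h b
        rw [hP]
        simp only [map_sub]
        rw [hval, hval, h, sub_self]
    have hall : ∀ q ∈ Submodule.span (MvPolynomial (Fin m) ℤ) S, φ q = 0 := by
      rw [hspan]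
      intro q hq
      have h1 : Submodule.span (MvPolynomial (Fin m) ℤ) (s' : Set (MvPolynomial (Fin m) ℤ)) ≤
          (RingHom.ker φ : Ideal (MvPolynomial (Fin m) ℤ)) := by
        rw [Submodule.span_le]
        intro q' hq'
        obtain ⟨h2, b, h3⟩ := hc q' hq'
        have h4 := hg (c q') (Finset.mem_image_of_mem c hq')
        have h5 := (hker (c q')).2 h4 b
        rw [h3] at h5
        exact h5
      exact h1 hq
    intro p hp
    refine (hker p).1 fun b => ?_
    exact hall _ (Submodule.subset_span ⟨p, hp, b, rfl⟩)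

/-- Stabilisation of the equality of two sequences of words. -/
theorem stabilise (σ : D → List D) (U V : List D) : ∃ N : ℕ, ∀ (g : D → List ℕ),
    (∀ i ≤ N, ((fun w : List D => w.flatMap σ)^[i] U).flatMap g =
      ((fun w : List D => w.flatMap σ)^[i] V).flatMap g) →
    ∀ i, ((fun w : List D => w.flatMap σ)^[i] U).flatMap g =
      ((fun w : List D => w.flatMap σ)^[i] V).flatMap g := by
  classical
  obtain ⟨F, hF, h⟩ := compactness (Set.range fun i : ℕ =>
    ((fun w : List D => w.flatMap σ)^[i] U, (fun w : List D => w.flatMap σ)^[i] V))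
  have hch : ∀ p : List D × List D, ∃ i : ℕ, p ∈ F →
      ((fun w : List D => w.flatMap σ)^[i] U, (fun w : List D => w.flatMap σ)^[i] V) = p := by
    intro p
    by_cases hp : p ∈ F
    · obtain ⟨i, hi⟩ := hF hp
      exact ⟨i, fun _ => hi⟩
    · exact ⟨0, fun h => absurd h hp⟩
  choose c hc using hch
  refine ⟨F.sup c, fun g hg i => ?_⟩
  refine h g (fun p hp => ?_) _ ⟨i, rfl⟩
  rw [← hc p hp]
  exact hg _ (Finset.le_sup (f := c) hp)

end

end SUBST
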