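import Pool.Agent.Work.SUBST.Ehr

/-!
# The gap theorem (case I / case II) by compactness (note 3961)

`σ : A → List A` is a morphism, `h : A → List ℕ` is nonerasing, the letter `e` occurs at least three
times in `σ e`. Either the blocks `h (σ^n e)` have a common period for all large `n`, or for some
`k0` all periods `q` of `h (σ^n e)` satisfy `|h (σ^(n-k0) e)| < 2 q`.
-/

set_option autoImplicit false

namespace SUBST.Gap

/-! ## Periods of words -/

section words

variable {α : Type}

/-- `q` is a period of the word `w`. -/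
def Per (q : ℕ) (w : List α) : Prop := ∀ i, i + q < w.length → w[i + q]? = w[i]?

theorem Per.factor {q : ℕ} {w v : List α} (hw : Per q w) (hv : v <:+: w) : Per q v := by
  obtain ⟨a, b, rfl⟩ := hv
  intro i hi
  have h1 := hw (a.length + i) (by simp; omega)
  have e1 : (a ++ v ++ b)[a.length + i + q]? = v[i + q]? := by
    rw [List.append_assoc, List.getElem?_append_right (by omega),
      List.getElem?_append_left (by omega)]
    congr 1; omega
  have e2 : (a ++ v ++ b)[a.length + i]? = v[i]? := by
    rw [List.append_assoc, List.getElem?_append_right (by omega),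
      List.getElem?_append_left (by omega)]
    congr 1; omega
  rw [← e1, h1, e2]

theorem Per.sub {p q : ℕ} {w : List α} (hp : Per p w) (hq : Per q w) (hpq : p ≤ q)
    (hl : p + q ≤ w.length) : Per (q - p) w := by
  intro i hi
  by_cases h1 : i + q < w.length
  · have a1 := hq i h1
    have a2 := hp (i + (q - p)) (by omega)
    have a3 : i + (q - p) + p = i + q := by omega
    rw [a3] at a2
    rw [← a2, a1]
  · have a1 := hp (i - p) (by omega)
    have a2 := hq (i - p) (by omega)
    have a3 : i - p + p = i := by omega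
    have a4 : i - p + q = i + (q - p) := by omega
    rw [a3] at a1
    rw [a4] at a2
    rw [a2, a1]

/-- Fine and Wilf (weak form). -/
theorem Per.gcd {w : List α} : ∀ (s p q : ℕ), p + q = s → Per p w → Per q w →
    p + q ≤ w.length → Per (Nat.gcd p q) w := by
  intro s
  induction s using Nat.strong_induction_on with
  | _ s ih =>
    intro p q hs hp hq hl
    rcases Nat.eq_zero_or_pos p with h0 | h0
    · subst h0; simpa using hq
    rcases Nat.eq_zero_or_pos q with h1 | h1
    · subst h1; simpa using hp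
    rcases le_total p q with h | h
    · have := ih (p + (q - p)) (by omega) p (q - p) rfl hp (hp.sub hq h hl) (by omega)
      rwa [Nat.gcd_sub_self_right h] at this
    · have := ih ((p - q) + q) (by omega) (p - q) q rfl (hq.sub hp h (by omega)) hq (by omega)
      rwa [Nat.gcd_sub_self_left h] at this

theorem Per.mul {q : ℕ} {w : List α} (hw : Per q w) (k : ℕ) :
    ∀ i, i + k * q < w.length → w[i + k * q]? = w[i]? := by
  induction k with
  | zero => intro i _; simp
  | succ k ih =>
    intro i hi
    have e1 : i + (k + 1) * q = (i + k * q) + q := by ring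
    rw [e1] at hi ⊢
    rw [hw _ hi, ih i (by omega)]

theorem Per.modEq {q : ℕ} {w : List α} (hw : Per q w) {i j : ℕ} (hi : i < w.length)
    (hj : j < w.length) (hij : i % q = j % q) : w[i]? = w[j]? := by
  have key : ∀ k, k < w.length → w[k]? = w[k % q]? := by
    intro k hk
    have := hw.mul (k / q) (k % q) (by rw [mul_comm, Nat.mod_add_div]; exact hk)
    rw [mul_comm, Nat.mod_add_div] at this
    exact this
  rw [key i hi, key j hj, hij]

/-- a `g`-periodic word with a window of length `≥ g + g'` of period `g'` has period `g'` -/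
theorem Per.extend {g g' : ℕ} {a v b : List α} (hg : 1 ≤ g) (hU : Per g (a ++ v ++ b))
    (hv : Per g' v) (hl : g + g' ≤ v.length) : Per g' (a ++ v ++ b) := by
  intro i hi
  set U := a ++ v ++ b with hUdef
  have hUl : U.length = a.length + v.length + b.length := by simp [hUdef]; omega
  have hwin : ∀ t, t < v.length → U[a.length + t]? = v[t]? := by
    intro t ht
    rw [hUdef, List.append_assoc, List.getElem?_append_right (by omega),
      List.getElem?_append_left (by omega)]
    congr 1; omega
  -- t with a.length + t ≡ i mod g, t < g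
  obtain ⟨t, ht, htm⟩ : ∃ t, t < g ∧ (a.length + t) % g = i % g := by
    refine ⟨(i + (g - a.length % g)) % g, Nat.mod_lt _ hg, ?_⟩
    have h1 : a.length % g < g := Nat.mod_lt _ hg
    rw [Nat.add_mod_mod]
    have h2 : a.length + (i + (g - a.length % g)) = i + g * (a.length / g + 1) := by
      have := Nat.mod_add_div a.length g
      have h3 : g * (a.length / g + 1) = g * (a.length / g) + g := by ring
      omega
    rw [h2, Nat.add_mul_mod_self_left]
  have e1 : U[i]? = v[t]? := by
    rw [← hwin t (by omega)]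
    exact hU.modEq (by omega) (by omega) htm.symm
  have e2 : U[i + g']? = v[t + g']? := by
    rw [← hwin (t + g') (by omega)]
    refine hU.modEq (by omega) (by omega) ?_
    rw [Nat.add_mod i, ← htm, ← Nat.add_mod, Nat.add_assoc]
  rw [e1, e2]
  exact hv t (by omega)

/-- `z` is a power of the word `u` -/
def Pw (u z : List α) : Prop := u.length ∣ z.length ∧ ∀ i, i < z.length → z[i]? = u[i % u.length]?

theorem Pw.append {u y z : List α} (hy : Pw u y) (hz : Pw u z) : Pw u (y ++ z) := by
  refine ⟨by rw [List.length_append]; exact dvd_add hy.1 hz.1, ?_⟩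
  intro i hi
  rw [List.length_append] at hi
  by_cases h : i < y.length
  · rw [List.getElem?_append_left h, hy.2 i h]
  · rw [List.getElem?_append_right (by omega), hz.2 _ (by omega)]
    obtain ⟨k, hk⟩ := hy.1
    have : i = (i - y.length) + u.length * k := by omega
    conv_rhs => rw [this, Nat.add_mul_mod_self_left]

theorem Pw.comm {u y z : List α} (hy : Pw u y) (hz : Pw u z) : y ++ z = z ++ y := by
  apply List.ext_getElem?
  intro i
  by_cases h : i < (y ++ z).length
  · rw [(hy.append hz).2 i h, (hz.append hy).2 i (by simp at h ⊢; omega)]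
  · rw [List.getElem?_eq_none (by omega), List.getElem?_eq_none (by simp at h ⊢; omega)]

theorem per_of_comm {z ρ : List α} (h : z ++ ρ = ρ ++ z) : Per ρ.length z := by
  intro i hi
  have e1 : (z ++ ρ)[i + ρ.length]? = z[i + ρ.length]? := List.getElem?_append_left hi
  have e2 : (ρ ++ z)[i + ρ.length]? = z[i]? := by
    rw [List.getElem?_append_right (by omega)]
    congr 1; omega
  rw [← e1, h, e2]

end words

/-! ## Blocks -/

section blocks

variable {A : Type}

/-- The morphism `σ` on words, iterated. -/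
def itw (σ : A → List A) (n : ℕ) (w : List A) : List A := (fun v => v.flatMap σ)^[n] w

/-- The level `n` block of a word. -/
def blk (σ : A → List A) (h : A → List ℕ) (n : ℕ) (w : List A) : List ℕ :=
  (itw σ n w).flatMap h

variable (σ : A → List A) (h : A → List ℕ)

theorem itw_nil (n : ℕ) : itw σ n [] = [] := by
  induction n with
  | zero => rfl
  | succ n ih => rw [itw, Function.iterate_succ_apply]; exact ih

theorem itw_append (n : ℕ) (v w : List A) : itw σ n (v ++ w) = itw σ n v ++ itw σ n w := by
  induction n generalizing v w with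
  | zero => rfl
  | succ n ih =>
    simp only [itw, Function.iterate_succ_apply] at ih ⊢
    rw [List.flatMap_append]
    exact ih _ _

theorem itw_add (m n : ℕ) (w : List A) : itw σ (m + n) w = itw σ m (itw σ n w) := by
  simp only [itw, Function.iterate_add_apply]

theorem itw_one (w : List A) : itw σ 1 w = w.flatMap σ := rfl

theorem blk_append (n : ℕ) (v w : List A) : blk σ h n (v ++ w) = blk σ h n v ++ blk σ h n w := by
  rw [blk, itw_append, List.flatMap_append]; rfl

theorem blk_nil (n : ℕ) : blk σ h n [] = [] := by rw [blk, itw_nil]; rfl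

theorem blk_add (m n : ℕ) (w : List A) : blk σ h (m + n) w = blk σ h m (itw σ n w) := by
  rw [blk, itw_add]; rfl

theorem itw_eq_flatMap (n : ℕ) (w : List A) : itw σ n w = w.flatMap (fun c => itw σ n [c]) := by
  induction w with
  | nil => rw [itw_nil]; rfl
  | cons c w ih =>
    rw [List.flatMap_cons, ← ih]
    exact itw_append σ n [c] w

theorem blk_eq_flatMap (n : ℕ) (w : List A) :
    blk σ h n w = w.flatMap (fun c => blk σ h n [c]) := by
  induction w with
  | nil => rw [blk_nil]; rfl
  | cons c w ih =>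
    rw [List.flatMap_cons, ← ih]
    exact blk_append σ h n [c] w

theorem itw_infix {v w : List A} (hv : v <:+: w) (n : ℕ) : itw σ n v <:+: itw σ n w := by
  obtain ⟨a, b, rfl⟩ := hv
  rw [itw_append, itw_append]
  exact ⟨_, _, rfl⟩

theorem blk_infix {v w : List A} (hv : v <:+: w) (n : ℕ) : blk σ h n v <:+: blk σ h n w := by
  obtain ⟨a, b, rfl⟩ := hv
  rw [blk_append, blk_append]
  exact ⟨_, _, rfl⟩

variable {σ h}

theorem itw_ne_nil (hσ : ∀ c, σ c ≠ []) (n : ℕ) {w : List A} (hw : w ≠ []) : itw σ n w ≠ [] := by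
  induction n generalizing w with
  | zero => exact hw
  | succ n ih =>
    rw [itw_add, itw_one]
    refine ih ?_
    obtain ⟨c, w', rfl⟩ := List.exists_cons_of_ne_nil hw
    rw [List.flatMap_cons]
    simp [hσ c]

theorem blk_ne_nil (hσ : ∀ c, σ c ≠ []) (hh : ∀ c, h c ≠ []) (n : ℕ) {w : List A}
    (hw : w ≠ []) : blk σ h n w ≠ [] := by
  obtain ⟨c, w', hc⟩ := List.exists_cons_of_ne_nil (itw_ne_nil hσ n hw)
  rw [blk, hc, List.flatMap_cons]
  simp [hh c]

/-! ## Return words -/

/-- `r` is a return word of `e` in `σ^k e`. -/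
def RW (σ : A → List A) (e : A) (k : ℕ) (r : List A) : Prop :=
  ∃ p, r = e :: p ∧ e ∉ p ∧ (r ++ [e]) <:+: itw σ k [e]

theorem RW.mono {e : A} (he : e ∈ σ e) {k k' : ℕ} (hk : k ≤ k') {r : List A} (hr : RW σ e k r) :
    RW σ e k' r := by
  obtain ⟨p, h1, h2, h3⟩ := hr
  refine ⟨p, h1, h2, h3.trans ?_⟩
  obtain ⟨d, rfl⟩ := Nat.exists_eq_add_of_le hk
  rw [itw_add]
  refine itw_infix σ ?_ k
  clear h3 hk h1 h2
  induction d with
  | zero => exact List.infix_refl _
  | succ d ih =>
    rw [itw_add, itw_one]
    refine ih.trans (itw_infix σ ?_ d)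
    obtain ⟨a, b, hab⟩ := List.append_of_mem he
    exact ⟨a, b, by simp [hab]⟩

/-- Lemma C. -/
theorem lemmaC [Finite A] {e : A} (he : e ∈ σ e) (r0 : List A) :
    ∃ k0, ∀ g : A → List ℕ,
      (∀ r, RW σ e k0 r → (r ++ r0).flatMap g = (r0 ++ r).flatMap g) →
      ∀ k r, RW σ e k r → (r ++ r0).flatMap g = (r0 ++ r).flatMap g := by
  classical
  obtain ⟨F, hF, hc⟩ := compactness (D := A)
    {p | ∃ k r, RW σ e k r ∧ p = (r ++ r0, r0 ++ r)}
  have hF' : ∀ p : List A × List A, ∃ k, p ∈ F → ∃ r, RW σ e k r ∧ p = (r ++ r0, r0 ++ r) := by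
    intro p
    by_cases hp : p ∈ F
    · obtain ⟨k, r, h1, h2⟩ := hF hp
      exact ⟨k, fun _ => ⟨r, h1, h2⟩⟩
    · exact ⟨0, fun h => absurd h hp⟩
  choose kk hkk using hF'
  refine ⟨F.sup kk, fun g hg k r hr => ?_⟩
  refine hc g ?_ (r ++ r0, r0 ++ r) ⟨k, r, hr, rfl⟩
  intro p hp
  obtain ⟨r', h1, h2⟩ := hkk p hp
  rw [h2]
  exact hg r' (h1.mono he (Finset.le_sup hp))

/-- A word `e t` with `e t e` a factor of `σ^k e` is a product of return words. -/
theorem comm_of_return {e : A} {k : ℕ} {g : A → List ℕ} {ρ : List ℕ}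
    (hg : ∀ r, RW σ e k r → r.flatMap g ++ ρ = ρ ++ r.flatMap g) :
    ∀ (L : ℕ) (t : List A), t.length ≤ L → ((e :: t) ++ [e]) <:+: itw σ k [e] →
      (e :: t).flatMap g ++ ρ = ρ ++ (e :: t).flatMap g := by
  classical
  intro L
  induction L with
  | zero =>
    intro t ht hinf
    have : t = [] := List.eq_nil_of_length_eq_zero (by omega)
    subst this
    exact hg _ ⟨[], rfl, by simp, hinf⟩
  | succ L ih =>
    intro t ht hinf
    by_cases he : e ∈ t
    · obtain ⟨p, t', hp, hpt⟩ := List.eq_append_cons_of_mem he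
      subst hp
      have h1 : ((e :: p) ++ [e]) <:+: itw σ k [e] := by
        refine List.IsInfix.trans ⟨[], t' ++ [e], ?_⟩ hinf
        simp
      have h2 : ((e :: t') ++ [e]) <:+: itw σ k [e] := by
        refine List.IsInfix.trans ⟨e :: p, [], ?_⟩ hinf
        simp
      have c1 := hg _ ⟨p, rfl, hpt, h1⟩
      have c2 := ih t' (by simp at ht; omega) h2
      have e1 : (e :: (p ++ e :: t')).flatMap g = (e :: p).flatMap g ++ (e :: t').flatMap g := by
        rw [← List.flatMap_append]; rfl
      rw [e1, List.append_assoc, c2, ← List.append_assoc, c1, List.append_assoc]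
    · exact hg _ ⟨t, rfl, he, hinf⟩

theorem mem_itw {e : A} (he : e ∈ σ e) (j : ℕ) : e ∈ itw σ j [e] := by
  induction j with
  | zero => exact List.mem_singleton.2 rfl
  | succ j ih =>
    have h1 : [e] <:+: (σ e) := by
      obtain ⟨a, b, hab⟩ := List.append_of_mem he
      exact ⟨a, b, by simp [hab]⟩
    have h2 := itw_infix σ h1 j
    have h3 : itw σ (j + 1) [e] = itw σ j (σ e) := by
      rw [itw_add, itw_one]; simp
    rw [h3]
    exact h2.subset ih

/-- Steps (1) and (2): if the least period `g` of `U = W_m (σ^k0 e)` satisfies `2 g ≤ |W_m(e)|`,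
then the blocks of all return words of `σ^k0 e` are powers of the first `g` letters of `W_m(e)`. -/
theorem pw_of_return {e : A} {m k0 g : ℕ} (hg : 1 ≤ g)
    (hU : Per g (blk σ h m (itw σ k0 [e])))
    (hmin : ∀ d, 1 ≤ d → d < g → ¬ Per d (blk σ h m (itw σ k0 [e])))
    (h2 : 2 * g ≤ (blk σ h m [e]).length) {r : List A} (hr : RW σ e k0 r) :
    Pw ((blk σ h m [e]).take g) (blk σ h m r) := by
  obtain ⟨p, rfl, -, a, b, hab⟩ := hr
  set W := blk σ h m [e] with hW
  set α := blk σ h m a with hα
  set β := blk σ h m b with hβ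
  set π := blk σ h m p with hπ
  have hr : blk σ h m (e :: p) = W ++ π := blk_append σ h m [e] p
  have hUe : blk σ h m (itw σ k0 [e]) = α ++ (W ++ π) ++ W ++ β := by
    rw [← hab, blk_append, blk_append, blk_append, hr]
    simp [List.append_assoc, hW, hα, hβ]
  set U := blk σ h m (itw σ k0 [e]) with hUdef
  have hlen : U.length = α.length + (W.length + π.length) + W.length + β.length := by
    rw [hUe]; simp only [List.length_append]
  -- positions
  have P1 : ∀ t, t < W.length + π.length → U[α.length + t]? = (W ++ π)[t]? := by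
    intro t ht
    rw [hUe, List.append_assoc, List.append_assoc, List.getElem?_append_right (by omega),
      List.getElem?_append_left (by simp only [List.length_append]; omega)]
    congr 1; omega
  have P1' : ∀ t, t < W.length → U[α.length + t]? = W[t]? := by
    intro t ht
    rw [P1 t (by omega), List.getElem?_append_left ht]
  have P2 : ∀ t, t < W.length → U[α.length + (W.length + π.length) + t]? = W[t]? := by
    intro t ht
    have e1 : α ++ (W ++ π) ++ W ++ β = (α ++ (W ++ π)) ++ (W ++ β) := by
      simp [List.append_assoc]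
    rw [hUe, e1, List.getElem?_append_right (by simp only [List.length_append]; omega),
      List.getElem?_append_left (by simp only [List.length_append]; omega)]
    congr 1; simp only [List.length_append]; omega
  have hulen : (W.take g).length = g := by rw [List.length_take]; omega
  have hdiv : g ∣ W.length + π.length := by
    rw [Nat.dvd_iff_mod_eq_zero]
    by_contra hd
    set d := (W.length + π.length) % g with hddef
    have hdlt : d < g := Nat.mod_lt _ hg
    have hWd : Per d W := by
      intro t ht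
      rw [← P1' (t + d) (by omega), ← P2 t (by omega)]
      refine hU.modEq (by omega) (by omega) ?_
      have e1 : α.length + (W.length + π.length) + t =
          (α.length + (t + d)) + g * ((W.length + π.length) / g) := by
        have := Nat.mod_add_div (W.length + π.length) g
        omega
      rw [e1, Nat.add_mul_mod_self_left]
    have e2 : U = α ++ W ++ (π ++ W ++ β) := by
      rw [hUe]; simp [List.append_assoc]
    refine hmin d (by omega) hdlt ?_
    rw [e2] at hU ⊢
    exact Per.extend hg hU hWd (by omega)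
  rw [hr]
  refine ⟨by rw [hulen, List.length_append]; exact hdiv, ?_⟩
  intro i hi
  rw [List.length_append] at hi
  rw [hulen, ← P1 i hi]
  have himod : i % g < g := Nat.mod_lt _ hg
  rw [List.getElem?_take_of_lt himod, ← P1' (i % g) (by omega)]
  refine hU.modEq (by omega) (by omega) ?_
  rw [Nat.add_mod, Nat.add_mod α.length (i % g), Nat.mod_mod]

/-- **Gap theorem.** -/
theorem gap [Finite A] (hσ : ∀ c, σ c ≠ []) (hh : ∀ c, h c ≠ []) {e : A} {x0 x1 x2 x3 : List A}
    (he : σ e = x0 ++ [e] ++ x1 ++ [e] ++ x2 ++ [e] ++ x3) :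
    (∃ q, 1 ≤ q ∧ ∃ m, ∀ n, m ≤ n → Per q (blk σ h n [e])) ∨
    (∃ k0, ∀ n, k0 ≤ n → ∀ q, 1 ≤ q → Per q (blk σ h n [e]) →
      (blk σ h (n - k0) [e]).length < 2 * q) := by
  classical
  have hmem : e ∈ σ e := by rw [he]; simp
  -- a return word at level 1
  obtain ⟨r0, hr0⟩ : ∃ r0, RW σ e 1 r0 := by
    have h1 : (e :: x1 ++ [e]) <:+: itw σ 1 [e] := by
      refine ⟨x0, x2 ++ [e] ++ x3, ?_⟩
      rw [itw_one]
      simp [he]
    by_cases hx : e ∈ x1
    · obtain ⟨p, t', hp, hpt⟩ := List.eq_append_cons_of_mem hx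
      refine ⟨e :: p, p, rfl, hpt, List.IsInfix.trans ⟨[], t' ++ [e], ?_⟩ h1⟩
      simp [hp]
    · exact ⟨e :: x1, x1, rfl, hx, h1⟩
  obtain ⟨k1, hk1⟩ := lemmaC (σ := σ) hmem r0
  set k0 := max k1 1 with hk0
  by_cases hII : ∀ n, k0 ≤ n → ∀ q, 1 ≤ q → Per q (blk σ h n [e]) →
      (blk σ h (n - k0) [e]).length < 2 * q
  · exact Or.inr ⟨k0, hII⟩
  left
  push Not at hII
  obtain ⟨n, hn, q, hq1, hqP, hq2⟩ := hII
  set m := n - k0 with hm
  have hnm : n = m + k0 := by omega
  have hUe : blk σ h n [e] = blk σ h m (itw σ k0 [e]) := by rw [hnm, blk_add]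
  rw [hUe] at hqP
  have hex : ∃ g, 1 ≤ g ∧ Per g (blk σ h m (itw σ k0 [e])) := ⟨q, hq1, hqP⟩
  set g := Nat.find hex with hgdef
  obtain ⟨hg1, hgP⟩ := Nat.find_spec hex
  have hgq : g ≤ q := Nat.find_min' hex ⟨hq1, hqP⟩
  have hmin : ∀ d, 1 ≤ d → d < g → ¬ Per d (blk σ h m (itw σ k0 [e])) :=
    fun d h1 h2 h3 => Nat.find_min hex h2 ⟨h1, h3⟩
  have hpw : ∀ r, RW σ e k0 r → Pw ((blk σ h m [e]).take g) (blk σ h m r) :=
    fun r hr => pw_of_return hg1 hgP hmin (by omega) hr
  set ρ := blk σ h m r0 with hρ
  have hρne : ρ ≠ [] := by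
    obtain ⟨p, rfl, -⟩ := hr0
    exact blk_ne_nil hσ hh m (by simp)
  set G : A → List ℕ := fun c => blk σ h m [c] with hG
  have hGw : ∀ w : List A, w.flatMap G = blk σ h m w := fun w => (blk_eq_flatMap σ h m w).symm
  have hcomm : ∀ k r, RW σ e k r → r.flatMap G ++ ρ = ρ ++ r.flatMap G := by
    intro k r hr
    have := hk1 G (fun r hr => by
      rw [List.flatMap_append, List.flatMap_append, hGw, hGw]
      exact (hpw r (hr.mono hmem (le_max_left _ _))).comm
        (hpw r0 (hr0.mono hmem (le_max_right _ _)))) k r hr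
    rwa [List.flatMap_append, List.flatMap_append, hGw r0] at this
  refine ⟨ρ.length, List.length_pos_of_ne_nil hρne, m, fun n' hn' => ?_⟩
  obtain ⟨j, rfl⟩ := Nat.exists_eq_add_of_le hn'
  rw [blk_add]
  obtain ⟨a, b, hab⟩ := List.append_of_mem (mem_itw hmem j)
  set t := b ++ itw σ j x1 ++ itw σ j [e] ++ itw σ j x2 ++ a with ht
  have hinf : ((e :: t) ++ [e]) <:+: itw σ (j + 1) [e] := by
    refine ⟨itw σ j x0 ++ a, b ++ itw σ j x3, ?_⟩
    have e1 : itw σ (j + 1) [e] = itw σ j (σ e) := by
      rw [itw_add, itw_one]; simp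
    rw [e1, he]
    simp only [itw_append]
    rw [ht]
    have e2 : itw σ j [e] = a ++ [e] ++ b := by rw [hab]; simp
    conv_rhs => rw [show itw σ j x0 ++ itw σ j [e] ++ itw σ j x1 ++ itw σ j [e] ++ itw σ j x2 ++
      itw σ j [e] ++ itw σ j x3 = itw σ j x0 ++ (a ++ [e] ++ b) ++ itw σ j x1 ++ itw σ j [e] ++
      itw σ j x2 ++ (a ++ [e] ++ b) ++ itw σ j x3 by rw [← e2]]
    simp [List.append_assoc]
  have hc := comm_of_return (hcomm (j + 1)) t.length t le_rfl hinf
  rw [hGw] at hc
  refine (per_of_comm hc).factor (blk_infix σ h ?_ m)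
  exact ⟨e :: b ++ itw σ j x1, itw σ j x2 ++ a, by simp [ht, List.append_assoc]⟩

end blocks

end SUBST.Gap
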