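import Pool.Agent.Work.SUBST.GrowthB

/-!
# Growth of the lengths `|h σ^n(c)|`: exact asymptotics after a power
-/

set_option autoImplicit false

namespace SUBST

open Filter Topology

section growth

variable {ι : Type*} [Fintype ι] [DecidableEq ι]

/-- From the spectral form to the asymptotics. -/
theorem asymp_of_poly (u : ℕ → ℝ) (hu : ∀ n, 1 ≤ u n) (R : ℝ) (hR : 0 < R) (Q : Polynomial ℂ)
    (hQ : Tendsto (fun n : ℕ => (u n : ℂ) / (R : ℂ) ^ n - Q.eval (n : ℂ)) atTop (𝓝 0))
    (hn : ¬ Tendsto (fun n : ℕ => u n / R ^ n) atTop (𝓝 0)) :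
    ∃ (C : ℝ) (d : ℕ), 0 < C ∧ 1 ≤ R ∧
      Tendsto (fun n : ℕ => u n / ((n : ℝ) ^ d * R ^ n)) atTop (𝓝 C) := by
  -- the real polynomial
  set P : Polynomial ℝ := ∑ j ∈ Finset.range (Q.natDegree + 1),
    Polynomial.C ((Q.coeff j).re) * Polynomial.X ^ j with hP
  have hPe : ∀ n : ℕ, (Q.eval (n : ℂ)).re = P.eval (n : ℝ) := by
    intro n
    rw [Polynomial.eval_eq_sum_range, hP, Polynomial.eval_finsetSum, Complex.re_sum]
    refine Finset.sum_congr rfl fun j _ => ?_
    rw [Polynomial.eval_mul, Polynomial.eval_C, Polynomial.eval_pow, Polynomial.eval_X]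
    have : ((n : ℂ)) ^ j = (((n : ℝ) ^ j : ℝ) : ℂ) := by push_cast; rfl
    rw [this, Complex.re_mul_ofReal]
  have h1 : Tendsto (fun n : ℕ => u n / R ^ n - P.eval (n : ℝ)) atTop (𝓝 0) := by
    have h4 := (Complex.continuous_re.tendsto 0).comp hQ
    refine (h4.congr fun n => ?_)
    simp only [Function.comp_apply, Complex.sub_re]
    rw [hPe, ← Complex.ofReal_pow, ← Complex.ofReal_div, Complex.ofReal_re]
  have hP0 : P ≠ 0 := by
    intro h0
    apply hn
    rw [h0] at h1
    simpa using h1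
  have h2 : Tendsto (fun n : ℕ => P.eval (n : ℝ) / (n : ℝ) ^ P.natDegree) atTop
      (𝓝 P.leadingCoeff) := by
    have h3 := P.isEquivalent_atTop_lead.comp_tendsto (tendsto_natCast_atTop_atTop (R := ℝ))
    have h4 : ∀ᶠ n : ℕ in atTop, (n : ℝ) ^ P.natDegree ≠ 0 := by
      filter_upwards [eventually_gt_atTop 0] with n hn
      have : (0 : ℝ) < n := by exact_mod_cast hn
      positivity
    have h5 : Asymptotics.IsEquivalent atTop
        (fun n : ℕ => P.eval (n : ℝ) / (n : ℝ) ^ P.natDegree)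
        (fun n : ℕ => P.leadingCoeff * (n : ℝ) ^ P.natDegree / (n : ℝ) ^ P.natDegree) :=
      Asymptotics.IsEquivalent.div h3 Asymptotics.IsEquivalent.refl
    have h6 : Tendsto (fun n : ℕ => P.leadingCoeff * (n : ℝ) ^ P.natDegree / (n : ℝ) ^ P.natDegree)
        atTop (𝓝 P.leadingCoeff) := by
      refine tendsto_const_nhds.congr' ?_
      filter_upwards [h4] with n hn
      rw [mul_div_cancel_right₀ _ hn]
    exact h5.symm.tendsto_nhds h6
  have h3 : Tendsto (fun n : ℕ => (u n / R ^ n - P.eval (n : ℝ)) / (n : ℝ) ^ P.natDegree) atTop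
      (𝓝 0) := by
    rw [tendsto_zero_iff_norm_tendsto_zero] at h1 ⊢
    refine squeeze_zero' (Eventually.of_forall fun n => norm_nonneg _) ?_ h1
    filter_upwards [eventually_ge_atTop 1] with n hn
    rw [norm_div]
    have : (1 : ℝ) ≤ ‖(n : ℝ) ^ P.natDegree‖ := by
      rw [Real.norm_of_nonneg (by positivity)]
      exact one_le_pow₀ (by exact_mod_cast hn)
    exact div_le_self (norm_nonneg _) this
  have h4 : Tendsto (fun n : ℕ => u n / ((n : ℝ) ^ P.natDegree * R ^ n)) atTop
      (𝓝 P.leadingCoeff) := by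
    have := h3.add h2
    rw [zero_add] at this
    refine this.congr fun n => ?_
    rw [← add_div, sub_add_cancel, div_div, mul_comm (R ^ n)]
  have h5 : 0 ≤ P.leadingCoeff := by
    refine ge_of_tendsto h4 (Eventually.of_forall fun n => ?_)
    have := hu n
    positivity
  have h6 : 0 < P.leadingCoeff :=
    lt_of_le_of_ne h5 (Ne.symm (Polynomial.leadingCoeff_ne_zero.2 hP0))
  refine ⟨P.leadingCoeff, P.natDegree, h6, ?_, h4⟩
  -- R ≥ 1
  by_contra hR1
  push Not at hR1
  have h7 := tendsto_pow_const_mul_const_pow_of_abs_lt_one P.natDegree (r := R)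
    (by rw [abs_of_pos hR]; exact hR1)
  have h8 := h4.mul h7
  rw [mul_zero] at h8
  have h9 : Tendsto u atTop (𝓝 0) := by
    refine h8.congr' ?_
    filter_upwards [eventually_gt_atTop 0] with n hn
    have : (0 : ℝ) < n := by exact_mod_cast hn
    field_simp
  have := ge_of_tendsto h9 (Eventually.of_forall hu)
  linarith

/-- Asymptotics when every recurrent index has a loop. -/
theorem growth_loop (N : ι → ι → ℕ) (hN : ∀ c, ∃ b, 0 < N c b)
    (hloop : ∀ i, Relation.TransGen (fun a b => 0 < N a b) i i → 0 < N i i)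
    (w : ℕ → ι → ℕ) (hw0 : ∀ c, 1 ≤ w 0 c) (hw : ∀ n c, w (n + 1) c = ∑ b, N c b * w n b) (c : ι) :
    ∃ (C ρ : ℝ) (d : ℕ), 0 < C ∧ 1 ≤ ρ ∧
      Tendsto (fun n : ℕ => (w n c : ℝ) / ((n : ℝ) ^ d * ρ ^ n)) atTop (𝓝 C) := by
  classical
  set rel : ι → ι → Prop := fun a b => 0 < N a b with hrel
  have hw1 : ∀ n c, 1 ≤ w n c := by
    intro n
    induction n with
    | zero => exact hw0
    | succ n ih =>
      intro c
      rw [hw]
      obtain ⟨b, hb⟩ := hN c
      calc 1 = 1 * 1 := rfl
        _ ≤ N c b * w n b := Nat.mul_le_mul hb (ih b)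
        _ ≤ _ := Finset.single_le_sum (f := fun b => N c b * w n b) (fun _ _ => Nat.zero_le _)
          (Finset.mem_univ b)
  set B : ι → ι → ℝ := fun i j => if Relation.ReflTransGen rel c i then (N i j : ℝ) else 0 with hBdef
  have hB : ∀ i j, 0 ≤ B i j := by
    intro i j; simp only [hBdef]; split_ifs <;> positivity
  have hBpos : ∀ i j, 0 < B i j → Relation.ReflTransGen rel c i ∧ rel i j := by
    intro i j h
    by_cases hi : Relation.ReflTransGen rel c i
    · refine ⟨hi, ?_⟩
      simp only [hBdef, if_pos hi] at h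
      exact_mod_cast h
    · simp [hBdef, hi] at h
  have hBloop : ∀ i, Relation.TransGen (fun a b => 0 < B a b) i i → 0 < B i i := by
    intro i hi
    have h1 : Relation.TransGen rel i i := Relation.TransGen.mono (fun a b h => (hBpos a b h).2) i i hi
    have h2 : Relation.ReflTransGen rel c i := by
      obtain ⟨j, hj, _⟩ := Relation.TransGen.head'_iff.1 hi
      exact (hBpos i j hj).1
    have h3 := hloop i h1
    simp only [hBdef, if_pos h2]
    exact_mod_cast h3
  set w0 : ι → ℝ := fun i => (w 0 i : ℝ) with hw0def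
  have hgw : ∀ n : ℕ, ∀ i, Relation.ReflTransGen rel c i → (opR B ^ n) w0 i = (w n i : ℝ) := by
    intro n
    induction n with
    | zero => intro i _; simp [hw0def]
    | succ n ih =>
      intro i hi
      rw [opR_succ, hw]
      push_cast
      refine Finset.sum_congr rfl fun j _ => ?_
      simp only [hBdef, if_pos hi]
      rcases Nat.eq_zero_or_pos (N i j) with h | h
      · simp [h]
      · rw [ih j (hi.tail h)]
  have hcc : Relation.ReflTransGen rel c c := Relation.ReflTransGen.refl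
  -- the spectral radius
  have hfin : Set.Finite {μ | (opC B).HasEigenvalue μ} := Module.End.finite_hasEigenvalue _
  have : Nonempty ι := ⟨c⟩
  have : Nontrivial (ι → ℂ) := inferInstance
  obtain ⟨μ0, hμ0⟩ := Module.End.exists_eigenvalue (opC B)
  obtain ⟨μ1, hμ1, hmax⟩ := hfin.exists_maximalFor (fun μ => ‖μ‖) _ ⟨μ0, hμ0⟩
  set R : ℝ := ‖μ1‖ with hRdef
  have hmax' : ∀ μ, (opC B).HasEigenvalue μ → ‖μ‖ ≤ R := by
    intro μ hμ
    rcases le_total ‖μ‖ R with h | h
    · exact h
    · exact hmax hμ h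
  have key : ∀ r : ℝ, 0 < r → (∀ μ, (opC B).HasEigenvalue μ → ‖μ‖ < r) → 1 < r := by
    intro r hr h
    have h2 := spectral_small (opC B) (LinearMap.proj c) r h (fun j => (w0 j : ℂ))
    have h3 : Tendsto (fun n : ℕ => (w n c : ℝ) / r ^ n) atTop (𝓝 0) := by
      have h4 := (Complex.continuous_re.tendsto 0).comp h2
      refine (h4.congr fun n => ?_)
      simp only [Function.comp_apply, LinearMap.proj_apply]
      rw [opC_ofReal, hgw n c hcc]
      rw [← Complex.ofReal_pow, ← Complex.ofReal_div, Complex.ofReal_re]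
    by_contra hr1
    push Not at hr1
    have h4 : (1 : ℝ) ≤ 0 := by
      refine ge_of_tendsto h3 (Eventually.of_forall fun n => ?_)
      rw [le_div_iff₀ (pow_pos hr n), one_mul]
      have h5 : r ^ n ≤ 1 := pow_le_one₀ hr.le hr1
      have h6 : (1 : ℝ) ≤ (w n c : ℝ) := by exact_mod_cast hw1 n c
      linarith
    linarith
  have hRpos : 0 < R := by
    rcases (norm_nonneg μ1).eq_or_lt with h | h
    · exfalso
      have := key (1 / 2) (by norm_num) (fun μ hμ => by
        have := hmax' μ hμ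
        rw [hRdef, ← h] at this
        linarith)
      norm_num at this
    · exact h
  have hper : ∀ μ, (opC B).HasEigenvalue μ → ‖μ‖ < R ∨ μ = (R : ℂ) := by
    intro μ hμ
    rcases (hmax' μ hμ).lt_or_eq with h | h
    · exact Or.inl h
    · exact Or.inr (peripheral B hB hBloop R hRpos hmax' μ hμ h)
  obtain ⟨Q, hQ⟩ := spectral_poly (opC B) (LinearMap.proj c) R hRpos hper (fun j => (w0 j : ℂ))
  have hQ' : Tendsto (fun n : ℕ => (((w n c : ℝ)) : ℂ) / (R : ℂ) ^ n - Q.eval (n : ℂ)) atTop (𝓝 0) := by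
    refine hQ.congr fun n => ?_
    simp only [LinearMap.proj_apply]
    rw [opC_ofReal, hgw n c hcc]
  have hnot : ¬ Tendsto (fun n : ℕ => (w n c : ℝ) / R ^ n) atTop (𝓝 0) := by
    intro hcon
    -- every reachable index is small
    have hreach : ∀ i, Relation.ReflTransGen rel c i → ∃ k : ℕ, ∀ n, w n i ≤ w (n + k) c := by
      intro i hi
      induction hi with
      | refl => exact ⟨0, fun n => le_rfl⟩
      | tail _ hab ih =>
        obtain ⟨k, hk⟩ := ih
        rename_i b e _
        refine ⟨k + 1, fun n => ?_⟩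
        have h1 : w n e ≤ w (n + 1) b := by
          rw [hw]
          calc w n e = 1 * w n e := (one_mul _).symm
            _ ≤ N b e * w n e := Nat.mul_le_mul_right _ hab
            _ ≤ _ := Finset.single_le_sum (f := fun l => N b l * w n l) (fun _ _ => Nat.zero_le _)
              (Finset.mem_univ e)
        have h2 := hk (n + 1)
        calc w n e ≤ w (n + 1) b := h1
          _ ≤ w (n + 1 + k) c := h2
          _ = w (n + (k + 1)) c := by congr 1; omega
    have hsmall : ∀ i, Relation.ReflTransGen rel c i →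
        Tendsto (fun n : ℕ => (w n i : ℝ) / R ^ n) atTop (𝓝 0) := by
      intro i hi
      obtain ⟨k, hk⟩ := hreach i hi
      have h1 : Tendsto (fun n : ℕ => (w (n + k) c : ℝ) / R ^ (n + k) * R ^ k) atTop (𝓝 0) := by
        have := ((tendsto_add_atTop_iff_nat k).2 hcon).mul_const (R ^ k)
        simpa using this
      refine squeeze_zero (fun n => by positivity) (fun n => ?_) h1
      have h2 : (w n i : ℝ) ≤ (w (n + k) c : ℝ) := by exact_mod_cast hk n
      have h3 : (w (n + k) c : ℝ) / R ^ (n + k) * R ^ k = (w (n + k) c : ℝ) / R ^ n := by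
        rw [pow_add]; field_simp
      rw [h3]
      gcongr
    obtain ⟨v, hv⟩ := hμ1.exists_hasEigenvector
    apply hv.2
    have hve : opC B v = μ1 • v := Module.End.mem_eigenspace_iff.1 hv.1
    have hμ1' : μ1 ≠ 0 := norm_pos_iff.1 hRpos
    funext i
    by_cases hi : Relation.ReflTransGen rel c i
    · have hpow : ∀ n : ℕ, (opC B ^ n) v = μ1 ^ n • v := by
        intro n
        induction n with
        | zero => simp
        | succ n ih =>
          rw [pow_succ', Module.End.mul_apply, ih, map_smul, hve, smul_smul, pow_succ]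
      set K : ℝ := ∑ j, ‖v j‖ with hK
      have hK0 : 0 ≤ K := Finset.sum_nonneg fun j _ => norm_nonneg _
      have hdom : ∀ n : ℕ, ‖v i‖ ≤ K * ((w n i : ℝ) / R ^ n) := by
        intro n
        have h1 : ‖(opC B ^ n) v i‖ = R ^ n * ‖v i‖ := by
          rw [hpow n]; simp [hRdef]
        have h2 := norm_opC_le B hB v n i
        have h3 : (opR B ^ n) (fun j => ‖v j‖) i ≤ (opR B ^ n) (K • w0) i := by
          apply opR_mono B hB
          intro j
          simp only [Pi.smul_apply, smul_eq_mul, hw0def]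
          have h4 : ‖v j‖ ≤ K := Finset.single_le_sum (f := fun j => ‖v j‖)
            (fun _ _ => norm_nonneg _) (Finset.mem_univ j)
          have h5 : (1 : ℝ) ≤ (w 0 j : ℝ) := by exact_mod_cast hw0 j
          nlinarith
        rw [map_smul, Pi.smul_apply, smul_eq_mul, hgw n i hi] at h3
        rw [h1] at h2
        have h6 : R ^ n * ‖v i‖ ≤ K * (w n i : ℝ) := h2.trans h3
        rw [← mul_div_assoc, le_div_iff₀ (pow_pos hRpos n), mul_comm]
        exact h6
      have h7 : Tendsto (fun n : ℕ => K * ((w n i : ℝ) / R ^ n)) atTop (𝓝 0) := by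
        simpa using (hsmall i hi).const_mul K
      have h8 : ‖v i‖ ≤ 0 := ge_of_tendsto h7 (Eventually.of_forall hdom)
      simpa using h8
    · have h1 : opC B v i = 0 := by
        rw [opC_apply]
        refine Finset.sum_eq_zero fun j _ => ?_
        simp [hBdef, hi]
      rw [hve] at h1
      simp only [Pi.smul_apply, smul_eq_mul, mul_eq_zero] at h1
      exact h1.resolve_left hμ1'
  obtain ⟨C, d, hC, hR1, hlim⟩ := asymp_of_poly (fun n => (w n c : ℝ))
    (fun n => by exact_mod_cast hw1 n c) R hRpos Q hQ' hnot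
  exact ⟨C, R, d, hC, hR1, hlim⟩

theorem pow_step (M : ι → ι → ℕ) (w : ℕ → ι → ℕ)
    (hw : ∀ n c, w (n + 1) c = ∑ b, M c b * w n b) (k n : ℕ) (c : ι) :
    w (n + k) c = ∑ b, ((Matrix.of M) ^ k) c b * w n b := by
  induction k generalizing c with
  | zero => simp [Matrix.one_apply]
  | succ k ih =>
    have h1 : w (n + (k + 1)) c = ∑ l, M c l * w (n + k) l := hw (n + k) c
    rw [h1, pow_succ']
    simp only [Matrix.mul_apply, Matrix.of_apply, Finset.sum_mul]
    rw [Finset.sum_comm]
    refine Finset.sum_congr rfl fun l _ => ?_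
    rw [ih l, Finset.mul_sum]
    exact Finset.sum_congr rfl fun b _ => by ring

theorem pow_row (M : ι → ι → ℕ) (hM : ∀ c, ∃ b, 0 < M c b) (k : ℕ) (c : ι) :
    ∃ b, 0 < ((Matrix.of M) ^ k) c b := by
  induction k generalizing c with
  | zero => exact ⟨c, by simp⟩
  | succ k ih =>
    obtain ⟨l, hl⟩ := hM c
    obtain ⟨b, hb⟩ := ih l
    refine ⟨b, ?_⟩
    rw [pow_succ', Matrix.mul_apply]
    exact Finset.sum_pos' (fun _ _ => Nat.zero_le _) ⟨l, Finset.mem_univ _, Nat.mul_pos hl hb⟩

theorem trans_of_pow (M : ι → ι → ℕ) (k : ℕ) (a b : ι)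
    (h : 0 < ((Matrix.of M) ^ (k + 1)) a b) : Relation.TransGen (fun a b => 0 < M a b) a b := by
  induction k generalizing a with
  | zero => exact Relation.TransGen.single (by simpa using h)
  | succ k ih =>
    rw [pow_succ', Matrix.mul_apply] at h
    obtain ⟨l, _, hl⟩ := Finset.exists_ne_zero_of_sum_ne_zero h.ne'
    have h1 : 0 < M a l := Nat.pos_of_ne_zero fun h0 => hl (by simp [h0])
    have h2 : 0 < ((Matrix.of M) ^ (k + 1)) l b := Nat.pos_of_ne_zero fun h0 => hl (by simp [h0])
    exact Relation.TransGen.head h1 (ih l h2)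

theorem pow_of_trans (M : ι → ι → ℕ) (a b : ι)
    (h : Relation.TransGen (fun a b => 0 < M a b) a b) :
    ∃ k, 1 ≤ k ∧ 0 < ((Matrix.of M) ^ k) a b := by
  induction h with
  | single h => exact ⟨1, le_rfl, by simpa using h⟩
  | tail _ hbc ih =>
    obtain ⟨k, hk, hk'⟩ := ih
    refine ⟨k + 1, by omega, ?_⟩
    rw [pow_succ, Matrix.mul_apply]
    exact Finset.sum_pos' (fun _ _ => Nat.zero_le _) ⟨_, Finset.mem_univ _, Nat.mul_pos hk' hbc⟩

theorem pow_mul_pos (M : ι → ι → ℕ) (k m : ℕ) (a : ι) (h : 0 < ((Matrix.of M) ^ k) a a) :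
    0 < ((Matrix.of M) ^ (k * m)) a a := by
  induction m with
  | zero => simp
  | succ m ih =>
    rw [Nat.mul_succ, pow_add, Matrix.mul_apply]
    exact Finset.sum_pos' (fun _ _ => Nat.zero_le _) ⟨a, Finset.mem_univ _, Nat.mul_pos ih h⟩

/-- A power after which every recurrent index has a loop. -/
theorem exists_loop_power (M : ι → ι → ℕ) : ∃ p, 1 ≤ p ∧ ∀ i, ∀ k, 1 ≤ k →
    Relation.TransGen (fun a b => 0 < ((Matrix.of M) ^ (p * k)) a b) i i →
    0 < ((Matrix.of M) ^ (p * k)) i i := by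
  classical
  have h1 : ∀ i : ι, ∃ k, 1 ≤ k ∧ (Relation.TransGen (fun a b => 0 < M a b) i i →
      0 < ((Matrix.of M) ^ k) i i) := by
    intro i
    by_cases h : Relation.TransGen (fun a b => 0 < M a b) i i
    · obtain ⟨k, hk, hk'⟩ := pow_of_trans M i i h
      exact ⟨k, hk, fun _ => hk'⟩
    · exact ⟨1, le_rfl, fun h' => absurd h' h⟩
  choose kk hk1 hk2 using h1
  refine ⟨∏ i, kk i, Finset.one_le_prod' fun i _ => hk1 i, fun i k hk h => ?_⟩
  have hp : 1 ≤ (∏ i, kk i) * k := Nat.mul_pos (Finset.one_le_prod' fun i _ => hk1 i) hk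
  have h2 : Relation.TransGen (fun a b => 0 < M a b) i i := by
    have h3 : ∀ a b, 0 < ((Matrix.of M) ^ ((∏ i, kk i) * k)) a b →
        Relation.TransGen (fun a b => 0 < M a b) a b := by
      intro a b hab
      obtain ⟨q, hq⟩ := Nat.exists_eq_add_of_le hp
      rw [hq, add_comm] at hab
      exact trans_of_pow M q a b hab
    have h4 : Relation.TransGen (Relation.TransGen (fun a b => 0 < M a b)) i i :=
      Relation.TransGen.mono h3 i i h
    have h5 : ∀ x y, Relation.TransGen (Relation.TransGen (fun a b => 0 < M a b)) x y →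
        Relation.TransGen (fun a b => 0 < M a b) x y := by
      intro x y hxy
      induction hxy with
      | single h => exact h
      | tail _ h ih => exact ih.trans h
    exact h5 i i h4
  obtain ⟨m, hm⟩ : kk i ∣ (∏ i, kk i) * k :=
    (Finset.dvd_prod_of_mem kk (Finset.mem_univ i)).mul_right k
  rw [hm]
  exact pow_mul_pos M (kk i) m i (hk2 i h2)

/-- **Growth**: exact asymptotics of all entries after a power (and all its multiples). -/
theorem growth_mul (M : ι → ι → ℕ) (hM : ∀ c, ∃ b, 0 < M c b) :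
    ∃ p, 1 ≤ p ∧ ∀ k, 1 ≤ k → ∀ w : ℕ → ι → ℕ, (∀ c, 1 ≤ w 0 c) →
      (∀ n c, w (n + 1) c = ∑ b, M c b * w n b) → ∀ c, ∃ (C ρ : ℝ) (d : ℕ), 0 < C ∧ 1 ≤ ρ ∧
        Tendsto (fun n : ℕ => (w (p * k * n) c : ℝ) / ((n : ℝ) ^ d * ρ ^ n)) atTop (𝓝 C) := by
  classical
  obtain ⟨p, hp, hloop⟩ := exists_loop_power M
  refine ⟨p, hp, fun k hk w hw0 hw c => ?_⟩
  refine growth_loop (fun a b => ((Matrix.of M) ^ (p * k)) a b) (pow_row M hM (p * k))
    (fun i hi => hloop i k hk hi) (fun n => w (p * k * n)) (fun c => by simpa using hw0 c) ?_ c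
  intro n c
  have := pow_step M w hw (p * k) (p * k * n) c
  rwa [← Nat.mul_succ] at this

/-- **Growth**: exact asymptotics of all entries after a power. -/
theorem growth (M : ι → ι → ℕ) (hM : ∀ c, ∃ b, 0 < M c b) :
    ∃ p, 1 ≤ p ∧ ∀ w : ℕ → ι → ℕ, (∀ c, 1 ≤ w 0 c) →
      (∀ n c, w (n + 1) c = ∑ b, M c b * w n b) → ∀ c, ∃ (C ρ : ℝ) (d : ℕ), 0 < C ∧ 1 ≤ ρ ∧
        Tendsto (fun n : ℕ => (w (p * n) c : ℝ) / ((n : ℝ) ^ d * ρ ^ n)) atTop (𝓝 C) := by
  obtain ⟨p, hp, h⟩ := growth_mul M hM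
  refine ⟨p, hp, fun w hw0 hw c => ?_⟩
  have := h 1 le_rfl w hw0 hw c
  simpa using this

end growth

end SUBST
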