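import Mathlib

/-!
# Growth of powers of an endomorphism: spectral part
-/

set_option autoImplicit false

namespace SUBST

open Filter Topology

section spectral

variable {V : Type*} [AddCommGroup V] [Module ℂ V]

/-- Powers of an endomorphism on a generalised eigenvector. -/
theorem pow_apply_gen (f : Module.End ℂ V) (μ : ℂ) (k : ℕ) (v : V)
    (hv : ((f - μ • (1 : Module.End ℂ V)) ^ k) v = 0) (n : ℕ) :
    (f ^ n) v = ∑ j ∈ Finset.range k,
      ((n.choose j : ℂ) * μ ^ (n - j)) • (((f - μ • (1 : Module.End ℂ V)) ^ j) v) := by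
  set g := f - μ • (1 : Module.End ℂ V) with hg
  have hf : f = g + μ • (1 : Module.End ℂ V) := by rw [hg]; abel
  have hc : Commute g (μ • (1 : Module.End ℂ V)) :=
    (Commute.one_right g).smul_right μ
  have hz : ∀ m, k ≤ m → (g ^ m) v = 0 := by
    intro m hm
    obtain ⟨r, rfl⟩ := Nat.exists_eq_add_of_le' hm
    rw [pow_add, Module.End.mul_apply, hv, map_zero]
  have h1 : (f ^ n) v = ∑ j ∈ Finset.range (n + 1),
      ((n.choose j : ℂ) * μ ^ (n - j)) • ((g ^ j) v) := by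
    conv_lhs => rw [hf, hc.add_pow]
    rw [LinearMap.sum_apply]
    refine Finset.sum_congr rfl fun j _ => ?_
    have e1 : (μ • (1 : Module.End ℂ V)) ^ (n - j) = μ ^ (n - j) • (1 : Module.End ℂ V) := by
      rw [smul_pow, one_pow]
    have e2 : ((n.choose j : ℕ) : Module.End ℂ V) = (n.choose j : ℂ) • (1 : Module.End ℂ V) := by
      ext x
      simp [Nat.cast_smul_eq_nsmul]
    rw [e1, e2]
    simp only [mul_smul_comm, mul_one, LinearMap.smul_apply]
    rw [smul_smul]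
  rw [h1]
  rcases le_total (n + 1) k with h | h
  · refine Finset.sum_subset (Finset.range_mono h) ?_
    intro j _ hj
    have : n < j := by simpa using hj
    rw [Nat.choose_eq_zero_of_lt this]
    simp
  · refine (Finset.sum_subset (Finset.range_mono h) ?_).symm
    intro j _ hj
    have : k ≤ j := by simpa using hj
    rw [hz j this, smul_zero]

theorem tendsto_choose_pow (μ : ℂ) (R : ℝ) (hR : ‖μ‖ < R) (j : ℕ) :
    Tendsto (fun n : ℕ => (n.choose j : ℂ) * μ ^ (n - j) / (R : ℂ) ^ n) atTop (𝓝 0) := by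
  have hR0 : 0 < R := lt_of_le_of_lt (norm_nonneg _) hR
  obtain ⟨r, hr1, hr2⟩ := exists_between hR
  have hr0 : 0 < r := lt_of_le_of_lt (norm_nonneg _) hr1
  rw [tendsto_zero_iff_norm_tendsto_zero]
  have hlim : Tendsto (fun n : ℕ => ((n : ℝ) ^ j * (r / R) ^ n) * (r ^ j)⁻¹) atTop (𝓝 0) := by
    have := tendsto_pow_const_mul_const_pow_of_abs_lt_one j (r := r / R)
      (by rw [abs_of_pos (div_pos hr0 hR0), div_lt_one hR0]; exact hr2)
    simpa using this.mul_const ((r ^ j)⁻¹)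
  refine squeeze_zero (fun n => norm_nonneg _) ?_ hlim
  intro n
  rcases lt_or_ge n j with h | h
  · rw [Nat.choose_eq_zero_of_lt h]
    simp
    positivity
  · have e1 : r ^ n = r ^ (n - j) * r ^ j := by rw [← pow_add]; congr 1; omega
    have e2 : (n.choose j : ℝ) ≤ (n : ℝ) ^ j := by exact_mod_cast Nat.choose_le_pow n j
    have e3 : ‖μ‖ ^ (n - j) ≤ r ^ (n - j) := pow_le_pow_left₀ (norm_nonneg _) hr1.le _
    have e4 : ‖(n.choose j : ℂ) * μ ^ (n - j) / (R : ℂ) ^ n‖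
        = (n.choose j : ℝ) * ‖μ‖ ^ (n - j) / R ^ n := by
      simp [abs_of_pos hR0]
    rw [e4, div_pow, e1]
    have e5 : (n : ℝ) ^ j * (r ^ (n - j) * r ^ j / R ^ n) * (r ^ j)⁻¹
        = (n : ℝ) ^ j * r ^ (n - j) / R ^ n := by
      field_simp
    rw [e5]
    gcongr

theorem gen_small (f : Module.End ℂ V) (φ : V →ₗ[ℂ] ℂ) (μ : ℂ) (R : ℝ) (hR : ‖μ‖ < R) (v : V)
    (hv : v ∈ f.maxGenEigenspace μ) :
    Tendsto (fun n : ℕ => φ ((f ^ n) v) / (R : ℂ) ^ n) atTop (𝓝 0) := by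
  obtain ⟨k, hk⟩ := (Module.End.mem_maxGenEigenspace f μ v).1 hv
  have h1 : (fun n : ℕ => φ ((f ^ n) v) / (R : ℂ) ^ n) = fun n : ℕ =>
      ∑ j ∈ Finset.range k, ((n.choose j : ℂ) * μ ^ (n - j) / (R : ℂ) ^ n) *
        φ (((f - μ • (1 : Module.End ℂ V)) ^ j) v) := by
    funext n
    rw [pow_apply_gen f μ k v hk n, map_sum, Finset.sum_div]
    refine Finset.sum_congr rfl fun j _ => ?_
    rw [map_smul, smul_eq_mul]
    ring
  rw [h1]
  have : (0 : ℂ) = ∑ j ∈ Finset.range k, (0 : ℂ) * φ (((f - μ • (1 : Module.End ℂ V)) ^ j) v) := by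
    simp
  rw [this]
  exact tendsto_finsetSum _ fun j _ => (tendsto_choose_pow μ R hR j).mul_const _

theorem gen_eq (f : Module.End ℂ V) (φ : V →ₗ[ℂ] ℂ) (R : ℝ) (hR : 0 < R) (v : V)
    (hv : v ∈ f.maxGenEigenspace (R : ℂ)) :
    ∃ Q : Polynomial ℂ, ∀ n : ℕ, φ ((f ^ n) v) / (R : ℂ) ^ n = Q.eval (n : ℂ) := by
  obtain ⟨k, hk⟩ := (Module.End.mem_maxGenEigenspace f (R : ℂ) v).1 hv
  have hR' : (R : ℂ) ≠ 0 := by exact_mod_cast hR.ne'
  refine ⟨∑ j ∈ Finset.range k, Polynomial.C (φ (((f - (R : ℂ) • (1 : Module.End ℂ V)) ^ j) v) *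
    ((R : ℂ) ^ j)⁻¹ * ((j.factorial : ℂ))⁻¹) * descPochhammer ℂ j, fun n => ?_⟩
  rw [pow_apply_gen f (R : ℂ) k v hk n, map_sum, Finset.sum_div, Polynomial.eval_finsetSum]
  refine Finset.sum_congr rfl fun j _ => ?_
  rw [map_smul, smul_eq_mul, Polynomial.eval_mul, Polynomial.eval_C, descPochhammer_eval_eq_descFactorial,
    Nat.descFactorial_eq_factorial_mul_choose]
  have hj : (j.factorial : ℂ) ≠ 0 := by exact_mod_cast j.factorial_ne_zero
  rcases lt_or_ge n j with h | h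
  · rw [Nat.choose_eq_zero_of_lt h]
    simp
  · have e1 : (R : ℂ) ^ n = (R : ℂ) ^ (n - j) * (R : ℂ) ^ j := by
      rw [← pow_add]; congr 1; omega
    rw [e1]
    push_cast
    field_simp

/-- All eigenvalues smaller than `R`: the powers are `o(R^n)`. -/
theorem spectral_small [FiniteDimensional ℂ V] (f : Module.End ℂ V) (φ : V →ₗ[ℂ] ℂ) (R : ℝ)
    (h : ∀ μ, f.HasEigenvalue μ → ‖μ‖ < R) (v : V) :
    Tendsto (fun n : ℕ => φ ((f ^ n) v) / (R : ℂ) ^ n) atTop (𝓝 0) := by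
  have hv : v ∈ ⨆ μ : ℂ, f.maxGenEigenspace μ := by
    rw [Module.End.iSup_maxGenEigenspace_eq_top]; trivial
  refine Submodule.iSup_induction (fun μ : ℂ => f.maxGenEigenspace μ)
    (motive := fun v => Tendsto (fun n : ℕ => φ ((f ^ n) v) / (R : ℂ) ^ n) atTop (𝓝 0)) hv ?_ ?_ ?_
  · intro μ x hx
    by_cases hx0 : x = 0
    · subst hx0; simp
    · have hμ : f.HasEigenvalue μ := by
        have : f.HasUnifEigenvalue μ ⊤ := by
          intro hbot
          rw [Module.End.maxGenEigenspace, hbot] at hx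
          exact hx0 (by simpa using hx)
        exact this.lt zero_lt_one
      exact gen_small f φ μ R (h μ hμ) x hx
  · simp
  · intro x y hx hy
    have := hx.add hy
    simpa [add_div] using this

/-- All eigenvalues smaller than `R` or equal to `R`: the powers are `(Q(n) + o(1)) R^n`. -/
theorem spectral_poly [FiniteDimensional ℂ V] (f : Module.End ℂ V) (φ : V →ₗ[ℂ] ℂ) (R : ℝ)
    (hR : 0 < R) (h : ∀ μ, f.HasEigenvalue μ → ‖μ‖ < R ∨ μ = (R : ℂ)) (v : V) :
    ∃ Q : Polynomial ℂ,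
      Tendsto (fun n : ℕ => φ ((f ^ n) v) / (R : ℂ) ^ n - Q.eval (n : ℂ)) atTop (𝓝 0) := by
  have hv : v ∈ ⨆ μ : ℂ, f.maxGenEigenspace μ := by
    rw [Module.End.iSup_maxGenEigenspace_eq_top]; trivial
  refine Submodule.iSup_induction (fun μ : ℂ => f.maxGenEigenspace μ)
    (motive := fun v => ∃ Q : Polynomial ℂ,
      Tendsto (fun n : ℕ => φ ((f ^ n) v) / (R : ℂ) ^ n - Q.eval (n : ℂ)) atTop (𝓝 0)) hv ?_ ?_ ?_
  · intro μ x hx
    by_cases hx0 : x = 0
    · subst hx0; exact ⟨0, by simp⟩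
    · have hμ : f.HasEigenvalue μ := by
        have : f.HasUnifEigenvalue μ ⊤ := by
          intro hbot
          rw [Module.End.maxGenEigenspace, hbot] at hx
          exact hx0 (by simpa using hx)
        exact this.lt zero_lt_one
      rcases h μ hμ with h1 | h1
      · refine ⟨0, ?_⟩
        simpa using gen_small f φ μ R h1 x hx
      · subst h1
        obtain ⟨Q, hQ⟩ := gen_eq f φ R hR x hx
        refine ⟨Q, ?_⟩
        simp [hQ]
  · exact ⟨0, by simp⟩
  · rintro x y ⟨Q, hQ⟩ ⟨Q', hQ'⟩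
    refine ⟨Q + Q', ?_⟩
    have := hQ.add hQ'
    rw [add_zero] at this
    refine this.congr fun n => ?_
    rw [map_add, map_add, Polynomial.eval_add]
    ring

end spectral

end SUBST
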