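import Pool.Agent.Work.SUBST.GrowthA

/-!
# Growth: nonnegative matrices, eigenvalues of maximal modulus
-/

set_option autoImplicit false

namespace SUBST

open Filter Topology

section nonneg

variable {ι : Type*} [Fintype ι] [DecidableEq ι]

/-- The real operator of a real table. -/
noncomputable def opR (B : ι → ι → ℝ) : Module.End ℝ (ι → ℝ) := Matrix.toLin' (Matrix.of B)

/-- The complex operator of a real table. -/
noncomputable def opC (B : ι → ι → ℝ) : Module.End ℂ (ι → ℂ) :=
  Matrix.toLin' (Matrix.of fun i j => (B i j : ℂ))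

theorem opR_apply (B : ι → ι → ℝ) (x : ι → ℝ) (i : ι) : opR B x i = ∑ j, B i j * x j := by
  simp [opR, Matrix.mulVec, dotProduct]

theorem opC_apply (B : ι → ι → ℝ) (x : ι → ℂ) (i : ι) :
    opC B x i = ∑ j, (B i j : ℂ) * x j := by
  simp [opC, Matrix.mulVec, dotProduct]

theorem opR_succ (B : ι → ι → ℝ) (n : ℕ) (x : ι → ℝ) (i : ι) :
    (opR B ^ (n + 1)) x i = ∑ j, B i j * (opR B ^ n) x j := by
  rw [pow_succ', Module.End.mul_apply, opR_apply]

theorem opC_succ (B : ι → ι → ℝ) (n : ℕ) (x : ι → ℂ) (i : ι) :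
    (opC B ^ (n + 1)) x i = ∑ j, (B i j : ℂ) * (opC B ^ n) x j := by
  rw [pow_succ', Module.End.mul_apply, opC_apply]

theorem opC_ofReal (B : ι → ι → ℝ) (n : ℕ) (x : ι → ℝ) (i : ι) :
    (opC B ^ n) (fun j => (x j : ℂ)) i = (((opR B ^ n) x i : ℝ) : ℂ) := by
  induction n generalizing i with
  | zero => simp
  | succ n ih =>
    rw [opC_succ, opR_succ]
    push_cast
    exact Finset.sum_congr rfl fun j _ => by rw [ih j]

theorem opR_mono (B : ι → ι → ℝ) (hB : ∀ i j, 0 ≤ B i j) {x y : ι → ℝ} (h : ∀ i, x i ≤ y i)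
    (n : ℕ) (i : ι) : (opR B ^ n) x i ≤ (opR B ^ n) y i := by
  induction n generalizing i with
  | zero => simpa using h i
  | succ n ih =>
    rw [opR_succ, opR_succ]
    exact Finset.sum_le_sum fun j _ => mul_le_mul_of_nonneg_left (ih j) (hB i j)

theorem opR_nonneg (B : ι → ι → ℝ) (hB : ∀ i j, 0 ≤ B i j) {x : ι → ℝ} (h : ∀ i, 0 ≤ x i)
    (n : ℕ) (i : ι) : 0 ≤ (opR B ^ n) x i := by
  have := opR_mono B hB (x := 0) (y := x) h n i
  simpa using this

theorem norm_opC_le (B : ι → ι → ℝ) (hB : ∀ i j, 0 ≤ B i j) (v : ι → ℂ) (n : ℕ) (i : ι) :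
    ‖(opC B ^ n) v i‖ ≤ (opR B ^ n) (fun j => ‖v j‖) i := by
  induction n generalizing i with
  | zero => simp
  | succ n ih =>
    rw [opC_succ, opR_succ]
    refine (norm_sum_le _ _).trans (Finset.sum_le_sum fun j _ => ?_)
    rw [norm_mul, Complex.norm_real, Real.norm_of_nonneg (hB i j)]
    exact mul_le_mul_of_nonneg_left (ih j) (hB i j)

/-- A subinvariant vector with factor larger than all eigenvalue moduli vanishes. -/
theorem sub_zero (B : ι → ι → ℝ) (hB : ∀ i j, 0 ≤ B i j) (r : ℝ) (hr : 0 < r)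
    (h : ∀ μ, (opC B).HasEigenvalue μ → ‖μ‖ < r) (y : ι → ℝ)
    (hy : ∀ i, r * y i ≤ opR B y i) (i : ι) : y i ≤ 0 := by
  have h1 : ∀ n : ℕ, ∀ i, r ^ n * y i ≤ (opR B ^ n) y i := by
    intro n
    induction n with
    | zero => intro i; simp
    | succ n ih =>
      intro i
      rw [opR_succ]
      calc r ^ (n + 1) * y i = r ^ n * (r * y i) := by ring
        _ ≤ r ^ n * opR B y i := mul_le_mul_of_nonneg_left (hy i) (pow_nonneg hr.le n)
        _ = ∑ j, B i j * (r ^ n * y j) := by
          rw [opR_apply, Finset.mul_sum]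
          exact Finset.sum_congr rfl fun j _ => by ring
        _ ≤ ∑ j, B i j * (opR B ^ n) y j :=
          Finset.sum_le_sum fun j _ => mul_le_mul_of_nonneg_left (ih j) (hB i j)
  have h2 := spectral_small (opC B) (LinearMap.proj i) r h (fun j => (y j : ℂ))
  have h3 : Tendsto (fun n : ℕ => (opR B ^ n) y i / r ^ n) atTop (𝓝 0) := by
    have h4 := (Complex.continuous_re.tendsto 0).comp h2
    refine (h4.congr fun n => ?_)
    simp only [Function.comp_apply, LinearMap.proj_apply]
    rw [opC_ofReal]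
    rw [← Complex.ofReal_pow, ← Complex.ofReal_div, Complex.ofReal_re]
  refine ge_of_tendsto h3 (Eventually.of_forall fun n => ?_)
  rw [le_div_iff₀ (pow_pos hr n), mul_comm]
  exact h1 n i

theorem eq_of_norm_sub {μ : ℂ} {R b : ℝ} (hb : 0 < b) (h1 : ‖μ‖ = R) (h2 : ‖μ - b‖ ≤ R - b) :
    μ = (R : ℂ) := by
  have hR : 0 ≤ R := h1 ▸ norm_nonneg μ
  have e1 : μ.re ^ 2 + μ.im ^ 2 = R ^ 2 := by
    rw [← h1, ← Complex.normSq_eq_norm_sq, Complex.normSq_apply]; ring
  have e2 : (μ.re - b) ^ 2 + μ.im ^ 2 ≤ (R - b) ^ 2 := by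
    have : ‖μ - b‖ ^ 2 = (μ.re - b) ^ 2 + μ.im ^ 2 := by
      rw [← Complex.normSq_eq_norm_sq, Complex.normSq_apply]
      simp
      ring
    rw [← this]
    exact pow_le_pow_left₀ (norm_nonneg _) h2 2
  have e3 : R ≤ μ.re := by nlinarith
  have e4 : μ.im ^ 2 ≤ 0 := by nlinarith
  have e5 : μ.im = 0 := by nlinarith [sq_nonneg μ.im]
  have e6 : μ.re = R := by nlinarith
  apply Complex.ext
  · simpa using e6
  · simpa using e5

/-- Eigenvalues of maximal modulus are positive when every recurrent index has a loop. -/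
theorem peripheral (B : ι → ι → ℝ) (hB : ∀ i j, 0 ≤ B i j)
    (hloop : ∀ i, Relation.TransGen (fun a b => 0 < B a b) i i → 0 < B i i)
    (R : ℝ) (hR : 0 < R) (hmax : ∀ μ, (opC B).HasEigenvalue μ → ‖μ‖ ≤ R)
    (μ : ℂ) (hμ : (opC B).HasEigenvalue μ) (hμR : ‖μ‖ = R) : μ = (R : ℂ) := by
  classical
  obtain ⟨v, hv⟩ := hμ.exists_hasEigenvector
  have hv0 : v ≠ 0 := hv.2
  have hve : opC B v = μ • v := Module.End.mem_eigenspace_iff.1 hv.1
  have hvi : ∀ i, ∑ j, (B i j : ℂ) * v j = μ * v i := by
    intro i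
    rw [← opC_apply, hve]; rfl
  -- the index with the smallest closure
  set rel : ι → ι → Prop := fun a b => 0 < B a b with hrel
  set cl : ι → Finset ι := fun i => Finset.univ.filter fun j => Relation.ReflTransGen rel i j with hcl
  have hne : (Finset.univ.filter fun i => v i ≠ 0).Nonempty := by
    by_contra hcon
    rw [Finset.not_nonempty_iff_eq_empty, Finset.filter_eq_empty_iff] at hcon
    exact hv0 (funext fun i => by simpa using hcon (Finset.mem_univ i))
  obtain ⟨i0, hi0, hmin⟩ := Finset.exists_min_image _ (fun i => (cl i).card) hne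
  have hvi0 : v i0 ≠ 0 := (Finset.mem_filter.1 hi0).2
  have hP : ∀ j, Relation.ReflTransGen rel i0 j → v j ≠ 0 → Relation.ReflTransGen rel j i0 := by
    intro j hj hvj
    have hsub : cl j ⊆ cl i0 := by
      intro k hk
      have hk' := (Finset.mem_filter.1 hk).2
      exact Finset.mem_filter.2 ⟨Finset.mem_univ _, hj.trans hk'⟩
    have hle := hmin j (Finset.mem_filter.2 ⟨Finset.mem_univ _, hvj⟩)
    have heq := Finset.eq_of_subset_of_card_le hsub hle
    have : i0 ∈ cl j := by
      rw [heq]
      exact Finset.mem_filter.2 ⟨Finset.mem_univ _, Relation.ReflTransGen.refl⟩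
    exact (Finset.mem_filter.1 this).2
  -- the vector z
  set z : ι → ℝ := fun j => if Relation.ReflTransGen rel i0 j then ‖v j‖ else 0 with hz
  have hz0 : ∀ i, 0 ≤ z i := by
    intro i; simp only [hz]; split_ifs <;> simp
  have hzi0 : z i0 = ‖v i0‖ := by simp [hz, Relation.ReflTransGen.refl]
  have hBz : ∀ i, Relation.ReflTransGen rel i0 i → ∑ j, B i j * z j = ∑ j, B i j * ‖v j‖ := by
    intro i hi
    refine Finset.sum_congr rfl fun j _ => ?_
    rcases (hB i j).eq_or_lt with h | h
    · rw [← h]; simp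
    · have : Relation.ReflTransGen rel i0 j := hi.tail h
      simp [hz, this]
  have hsubinv : ∀ i, R * z i ≤ opR B z i := by
    intro i
    rw [opR_apply]
    by_cases hi : Relation.ReflTransGen rel i0 i
    · rw [hBz i hi]
      have : z i = ‖v i‖ := by simp [hz, hi]
      rw [this, ← hμR, ← norm_mul, ← hvi i]
      refine (norm_sum_le _ _).trans (Finset.sum_le_sum fun j _ => ?_)
      rw [norm_mul, Complex.norm_real, Real.norm_of_nonneg (hB i j)]
    · have : z i = 0 := by simp [hz, hi]
      rw [this, mul_zero]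
      exact Finset.sum_nonneg fun j _ => mul_nonneg (hB i j) (hz0 j)
  -- equality at i0
  have heq : opR B z i0 = R * z i0 := by
    by_contra hneq
    have hlt : R * z i0 < opR B z i0 := lt_of_le_of_ne (hsubinv i0) (Ne.symm hneq)
    set d : ι → ℝ := opR B z - R • z with hd
    have hd0 : ∀ i, 0 ≤ d i := by
      intro i
      have := hsubinv i
      simp only [hd, Pi.sub_apply, Pi.smul_apply, smul_eq_mul]
      linarith
    have hdi0 : 0 < d i0 := by
      simp only [hd, Pi.sub_apply, Pi.smul_apply, smul_eq_mul]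
      linarith
    have hex : ∀ j, Relation.ReflTransGen rel j i0 → ∃ k : ℕ, 0 < (opR B ^ k) d j := by
      intro j hj
      induction hj using Relation.ReflTransGen.head_induction_on with
      | refl => exact ⟨0, by simpa using hdi0⟩
      | head hab _ ih =>
        obtain ⟨k, hk⟩ := ih
        refine ⟨k + 1, ?_⟩
        rw [opR_succ]
        refine Finset.sum_pos' (fun l _ => mul_nonneg (hB _ l) (opR_nonneg B hB hd0 k l)) ?_
        exact ⟨_, Finset.mem_univ _, mul_pos hab hk⟩
    have hsupp : ∀ k : ℕ, ∀ j, 0 < (opR B ^ k) z j → Relation.ReflTransGen rel j i0 := by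
      intro k
      induction k with
      | zero =>
        intro j hj
        have hj' : 0 < z j := by simpa using hj
        by_cases hr : Relation.ReflTransGen rel i0 j
        · have : z j = ‖v j‖ := by simp [hz, hr]
          exact hP j hr (by rw [this] at hj'; exact norm_pos_iff.1 hj')
        · simp [hz, hr] at hj'
      | succ k ih =>
        intro j hj
        rw [opR_succ] at hj
        obtain ⟨l, _, hl⟩ := Finset.exists_lt_of_sum_lt (s := Finset.univ) (f := fun _ => (0 : ℝ))
          (g := fun l => B j l * (opR B ^ k) z l) (by simpa using hj)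
        have h1 : 0 < B j l := by
          rcases (hB j l).eq_or_lt with h | h
          · rw [← h] at hl; simp at hl
          · exact h
        have h2 : 0 < (opR B ^ k) z l := by
          by_contra hcon
          push Not at hcon
          have := mul_nonpos_of_nonneg_of_nonpos (hB j l) hcon
          linarith
        exact Relation.ReflTransGen.head h1 (ih l h2)
    choose! kk hkk using hex
    set m : ℕ := Finset.univ.sup kk with hm
    set y : ι → ℝ := ∑ k ∈ Finset.range (m + 1), (opR B ^ k) z with hy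
    have hyi : ∀ i, y i = ∑ k ∈ Finset.range (m + 1), (opR B ^ k) z i := by
      intro i; rw [hy, Finset.sum_apply]
    have hy0 : ∀ i, 0 ≤ y i := by
      intro i; rw [hyi]; exact Finset.sum_nonneg fun k _ => opR_nonneg B hB hz0 k i
    have hdiff : opR B y - R • y = ∑ k ∈ Finset.range (m + 1), (opR B ^ k) d := by
      rw [hy, map_sum, Finset.smul_sum, ← Finset.sum_sub_distrib]
      refine Finset.sum_congr rfl fun k _ => ?_
      rw [hd, map_sub, map_smul]
      congr 1
      rw [← Module.End.mul_apply, ← Module.End.mul_apply, ← pow_succ, ← pow_succ']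
    have hpos : ∀ i, Relation.ReflTransGen rel i i0 → R * y i < opR B y i := by
      intro i hi
      have h1 : 0 < (opR B y - R • y) i := by
        rw [hdiff, Finset.sum_apply]
        refine Finset.sum_pos' (fun k _ => opR_nonneg B hB hd0 k i) ⟨kk i, ?_, hkk i hi⟩
        rw [Finset.mem_range, Nat.lt_succ_iff]
        exact Finset.le_sup (f := kk) (Finset.mem_univ i)
      simp only [Pi.sub_apply, Pi.smul_apply, smul_eq_mul] at h1
      linarith
    have hyz : ∀ i, ¬ Relation.ReflTransGen rel i i0 → y i = 0 := by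
      intro i hi
      rw [hyi]
      refine Finset.sum_eq_zero fun k _ => ?_
      by_contra hcon
      exact hi (hsupp k i (lt_of_le_of_ne (opR_nonneg B hB hz0 k i) (Ne.symm hcon)))
    have hyi0 : 0 < y i0 := by
      rw [hyi]
      refine Finset.sum_pos' (fun k _ => opR_nonneg B hB hz0 k i0) ⟨0, by simp, ?_⟩
      simp only [pow_zero, Module.End.one_apply]
      rw [hzi0]; exact norm_pos_iff.2 hvi0
    -- choose r > R
    have hexr : ∃ r, R < r ∧ ∀ i, r * y i ≤ opR B y i := by
      have h1 : ∀ i : ι, ∃ r, R < r ∧ r * y i ≤ opR B y i := by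
        intro i
        by_cases hi : Relation.ReflTransGen rel i i0
        · rcases (hy0 i).eq_or_lt with h | h
          · refine ⟨R + 1, by linarith, ?_⟩
            have := hpos i hi
            rw [← h] at this ⊢
            linarith
          · refine ⟨opR B y i / y i, ?_, ?_⟩
            · rw [lt_div_iff₀ h]; exact hpos i hi
            · rw [div_mul_cancel₀ _ h.ne']
        · refine ⟨R + 1, by linarith, ?_⟩
          rw [hyz i hi, mul_zero]
          rw [opR_apply]
          exact Finset.sum_nonneg fun j _ => mul_nonneg (hB i j) (hy0 j)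
      choose rr hrr1 hrr2 using h1
      have hnon : (Finset.univ : Finset ι).Nonempty := ⟨i0, Finset.mem_univ _⟩
      refine ⟨Finset.univ.inf' hnon rr, ?_, ?_⟩
      · rw [Finset.lt_inf'_iff]; exact fun i _ => hrr1 i
      · intro i
        refine le_trans ?_ (hrr2 i)
        exact mul_le_mul_of_nonneg_right (Finset.inf'_le _ (Finset.mem_univ i)) (hy0 i)
    obtain ⟨r, hr1, hr2⟩ := hexr
    have := sub_zero B hB r (hR.trans hr1) (fun ν hν => (hmax ν hν).trans_lt hr1) y hr2 i0
    linarith
  -- the loop at i0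
  have hRpos : 0 < R * z i0 := by
    rw [hzi0]; exact mul_pos hR (norm_pos_iff.2 hvi0)
  have hloop0 : 0 < B i0 i0 := by
    apply hloop
    rw [← heq, opR_apply] at hRpos
    obtain ⟨l, _, hl⟩ := Finset.exists_lt_of_sum_lt (s := Finset.univ) (f := fun _ => (0 : ℝ))
      (g := fun l => B i0 l * z l) (by simpa using hRpos)
    have h1 : 0 < B i0 l := by
      rcases (hB i0 l).eq_or_lt with h | h
      · rw [← h] at hl; simp at hl
      · exact h
    have hrl : Relation.ReflTransGen rel i0 l := Relation.ReflTransGen.single h1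
    have h2 : v l ≠ 0 := by
      intro hcon
      simp [hz, hrl, hcon] at hl
    exact Relation.TransGen.head' h1 (hP l hrl h2)
  -- conclusion
  set b : ℝ := B i0 i0 with hb
  have e1 : ‖(μ - b) * v i0‖ ≤ (R - b) * ‖v i0‖ := by
    have h1 : (μ - b) * v i0 = ∑ j ∈ Finset.univ.erase i0, (B i0 j : ℂ) * v j := by
      rw [sub_mul, ← hvi i0, ← Finset.add_sum_erase _ _ (Finset.mem_univ i0)]
      simp [hb]
    have h2 : (R - b) * ‖v i0‖ = ∑ j ∈ Finset.univ.erase i0, B i0 j * ‖v j‖ := by
      rw [sub_mul, ← hzi0, ← heq, opR_apply, hBz i0 Relation.ReflTransGen.refl,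
        ← Finset.add_sum_erase _ _ (Finset.mem_univ i0), hzi0]
      simp [hb]
    rw [h1, h2]
    refine (norm_sum_le _ _).trans (Finset.sum_le_sum fun j _ => ?_)
    rw [norm_mul, Complex.norm_real, Real.norm_of_nonneg (hB i0 j)]
  have e2 : ‖μ - b‖ ≤ R - b := by
    rw [norm_mul] at e1
    exact le_of_mul_le_mul_right e1 (norm_pos_iff.2 hvi0)
  exact eq_of_norm_sub hloop0 hμR e2

end nonneg

end SUBST
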