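import Pool.Agent.Work.SUBST.Abs

/-!
# Sparse factors: definitions
-/

set_option autoImplicit false

namespace SUBST

/-- The window of length `n` at `i`. -/
def seg (T : ℕ → ℕ) (i n : ℕ) : List ℕ := (List.range n).map fun j => T (i + j)

/-- The word `f` occurs infinitely often in `T`. -/
def IOc (T : ℕ → ℕ) (f : List ℕ) : Prop := ∀ N, ∃ i, N ≤ i ∧ seg T i f.length = f

/-- Number of occurrences of `f` in a word. -/
def cnt (f : List ℕ) : List ℕ → ℕ
  | [] => 0
  | b :: w => (if f <+: b :: w then 1 else 0) + cnt f w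

/-- Sparse factor: infinitely many occurrences, at most `C` in every far window of any length. -/
def Sparse (x : ℕ → ℕ) (f : List ℕ) : Prop :=
  f ≠ [] ∧ IOc x f ∧ ∃ C, ∀ K, ∃ N, ∀ i, N ≤ i → cnt f (seg x i K) ≤ C

end SUBST
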