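import Pool.Agent.Work.SUBST.Api
import Pool.Agent.Work.SUBST.SpDefs

/-!
# Sparse factors have boundedly many occurrences per level
-/

set_option autoImplicit false

namespace SUBST

namespace J7

/-- Occurrences in a concatenation. -/
lemma cnt_append_le (f u v : List ℕ) :
    cnt f (u ++ v) ≤ cnt f u + min u.length f.length + cnt f v := by
  induction u with
  | nil => simp [cnt]
  | cons b u ih =>
    rw [List.cons_append, cnt, cnt]
    by_cases h : f.length ≤ (b :: u).length
    · have h1 : (if f <+: b :: (u ++ v) then 1 else 0) ≤ (if f <+: b :: u then 1 else 0) := by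
        split_ifs with h2 h3
        · exact le_refl _
        · refine absurd (List.prefix_of_prefix_length_le h2 ?_ h) h3
          exact ⟨v, rfl⟩
        · exact Nat.zero_le _
        · exact le_refl _
      have h2 : min u.length f.length ≤ min (b :: u).length f.length := by
        simp only [List.length_cons]; omega
      omega
    · have h1 : (if f <+: b :: (u ++ v) then 1 else 0) ≤ 1 := by split_ifs <;> omega
      have h2 : min (b :: u).length f.length = min u.length f.length + 1 := by
        simp only [List.length_cons] at h ⊢; omega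
      omega

lemma cnt_append_le' (f u v : List ℕ) : cnt f (u ++ v) ≤ cnt f u + f.length + cnt f v := by
  have := cnt_append_le f u v
  omega

lemma cnt_le_append_left (f u v : List ℕ) : cnt f u ≤ cnt f (u ++ v) := by
  induction u with
  | nil => exact Nat.zero_le _
  | cons b u ih =>
    rw [List.cons_append, cnt, cnt]
    have h1 : (if f <+: b :: u then 1 else 0) ≤ (if f <+: b :: (u ++ v) then 1 else 0) := by
      split_ifs with h2 h3
      · exact le_refl _
      · exact absurd (h2.trans ⟨v, rfl⟩) h3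
      · exact Nat.zero_le _
      · exact le_refl _
    omega

lemma cnt_le_append_right (f u v : List ℕ) : cnt f v ≤ cnt f (u ++ v) := by
  induction u with
  | nil => exact le_refl _
  | cons b u ih =>
    rw [List.cons_append, cnt]
    omega

lemma cnt_le_of_infix {f u v : List ℕ} (h : u <:+: v) : cnt f u ≤ cnt f v := by
  obtain ⟨s, t, rfl⟩ := h
  rw [List.append_assoc]
  exact (cnt_le_append_left f u t).trans (cnt_le_append_right f s _)

lemma cnt_flatMap_le {A : Type} (f : List ℕ) (g : A → List ℕ) (C : ℕ) (w : List A)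
    (hC : ∀ c ∈ w, cnt f (g c) ≤ C) : cnt f (w.flatMap g) ≤ w.length * (C + f.length) := by
  induction w with
  | nil => simp [cnt]
  | cons c w ih =>
    rw [List.flatMap_cons]
    have h1 := cnt_append_le' f (g c) (w.flatMap g)
    have h2 := hC c List.mem_cons_self
    have h3 := ih fun d hd => hC d (List.mem_cons_of_mem _ hd)
    rw [List.length_cons, Nat.succ_mul]
    omega

variable {A : Type} {S : ASys A}

/-- A letter occurring infinitely often in `X`. -/
def Rec (S : ASys A) (c : A) : Prop := ∀ N, ∃ k, N ≤ k ∧ S.X k = c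

/-- The blocks of `x`. -/
lemma seg_block (hS : S.Good) {x : ℕ → ℕ} (hx : S.IsWord x) (n k : ℕ) :
    seg x (S.pos n k) (S.len n [S.X k]) = S.W n [S.X k] := by
  apply List.ext_getElem
  · simp [seg, ASys.len]
  · intro j h1 h2
    have h3 := hS.x_pos_add hx n k j h2
    simp only [seg, List.getElem_map, List.getElem_range]
    exact h3

/-- Boundedly many occurrences in the blocks of a recurrent letter. -/
theorem cnt_rec_le (hS : S.Good) {x : ℕ → ℕ} (hx : S.IsWord x) {f : List ℕ} {C : ℕ}
    (hf : ∀ K, ∃ N, ∀ i, N ≤ i → cnt f (seg x i K) ≤ C) {c : A} (hc : Rec S c) (n : ℕ) :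
    cnt f (S.W n [c]) ≤ C := by
  obtain ⟨N, hN⟩ := hf (S.len n [c])
  obtain ⟨k, hk, hkc⟩ := hc N
  have h1 := hN (S.pos n k) (hk.trans (hS.le_pos n k))
  have h2 := seg_block hS hx n k
  rw [hkc] at h2
  rwa [h2] at h1

/-- From some place on all letters are recurrent. -/
lemma exists_rec [Finite A] (S : ASys A) : ∃ k0, ∀ k, k0 ≤ k → Rec S (S.X k) := by
  classical
  have h : ∀ c : A, ∃ N, ¬ Rec S c → ∀ k, N ≤ k → S.X k ≠ c := by
    intro c
    by_cases hc : Rec S c
    · exact ⟨0, fun h => absurd hc h⟩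
    · rw [Rec] at hc
      push Not at hc
      obtain ⟨N, hN⟩ := hc
      exact ⟨N, fun _ => hN⟩
  choose g hg using h
  obtain ⟨B, hB⟩ := (Set.finite_range g).bddAbove
  refine ⟨B, fun k hk => ?_⟩
  by_contra hr
  exact hg (S.X k) hr k ((hB ⟨_, rfl⟩).trans hk) rfl

/-- The letters of `σ^j(u)` are letters of `X` far out. -/
lemma mem_it_u (hS : S.Good) {u : List A} (hu : S.σ S.a = S.a :: u) {j : ℕ} {c : A}
    (hc : c ∈ S.it j u) : ∃ k, j < k ∧ S.X k = c := by
  have h1 : S.it (j + 1) [S.a] = S.it j [S.a] ++ S.it j u := by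
    rw [S.it_succ, S.ap_single, hu, S.it_cons j S.a u]
  obtain ⟨i, hi, hic⟩ := List.getElem_of_mem hc
  refine ⟨(S.it j [S.a]).length + i, ?_, ?_⟩
  · have := hS.lt_it_length j
    omega
  · have h2 : (S.it j [S.a]).length + i < (S.it (j + 1) [S.a]).length := by
      rw [h1, List.length_append]; omega
    rw [← hS.getD_it h2, List.getD_eq_getElem _ _ h2]
    simp only [h1]
    rw [List.getElem_append_right (by omega)]
    simpa using hic

/-- From some level on all letters of `σ^j(u)` are recurrent. -/
lemma exists_rec_u [Finite A] (hS : S.Good) {u : List A} (hu : S.σ S.a = S.a :: u) :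
    ∃ j0, ∀ j, j0 ≤ j → ∀ c ∈ S.it j u, Rec S c := by
  obtain ⟨k0, hk0⟩ := exists_rec S
  refine ⟨k0, fun j hj c hc => ?_⟩
  obtain ⟨k, hk, rfl⟩ := mem_it_u hS hu hc
  exact hk0 k (by omega)

/-- J7a: a sparse factor has boundedly many occurrences in every level. -/
theorem J7a [Finite A] (hS : S.Good) {x : ℕ → ℕ} (hx : S.IsWord x) {f : List ℕ}
    (hf : Sparse x f) {u : List A} (hu : S.σ S.a = S.a :: u) :
    ∃ C, (∀ n, cnt f (S.W n u) ≤ C) ∧ ∀ c, Rec S c → ∀ n, cnt f (S.W n [c]) ≤ C := by
  obtain ⟨-, -, C, hC⟩ := hf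
  obtain ⟨j0, hj0⟩ := exists_rec_u hS hu
  obtain ⟨B, hB⟩ : ∃ B, ∀ n < j0, cnt f (S.W n u) ≤ B := by
    refine ⟨(Finset.range j0).sup fun n => cnt f (S.W n u), fun n hn => ?_⟩
    exact Finset.le_sup (f := fun n => cnt f (S.W n u)) (Finset.mem_range.2 hn)
  refine ⟨max C (max B ((S.it j0 u).length * (C + f.length))), fun n => ?_, fun c hc n => ?_⟩
  · by_cases hn : n < j0
    · exact (hB n hn).trans ((le_max_left _ _).trans (le_max_right _ _))
    · obtain ⟨m, rfl⟩ : ∃ m, n = m + j0 := ⟨n - j0, by omega⟩
      rw [S.W_add, S.W_flatMap]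
      refine (cnt_flatMap_le f (fun c => S.W m [c]) C _ fun c hc => ?_).trans
        ((le_max_right _ _).trans (le_max_right _ _))
      exact cnt_rec_le hS hx hC (hj0 j0 le_rfl c hc) m
  · exact (cnt_rec_le hS hx hC hc n).trans (le_max_left _ _)

end J7

end SUBST
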