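import Pool.Agent.Work.SUBST.Vec

/-!
# Level sequences: soundness of the certificate
-/

set_option autoImplicit false

namespace SUBST

lemma app_append (σ : List (List ℕ)) (u v : List ℕ) : app σ (u ++ v) = app σ u ++ app σ v := by
  simp [app, List.flatMap_append]

lemma it_append (σ : List (List ℕ)) (n : ℕ) (u v : List ℕ) :
    it σ n (u ++ v) = it σ n u ++ it σ n v := by
  induction n with
  | zero => rfl
  | succ n ih => rw [it_succ, it_succ, it_succ, ih, app_append]

lemma it_nil (σ : List (List ℕ)) (n : ℕ) : it σ n [] = [] := by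
  induction n with
  | zero => rfl
  | succ n ih => rw [it_succ, ih]; rfl

lemma it_add (σ : List (List ℕ)) (m n : ℕ) (w : List ℕ) :
    it σ (m + n) w = it σ m (it σ n w) := by
  rw [it, it, it, Function.iterate_add_apply]

lemma it_flatMap (σ : List (List ℕ)) (n : ℕ) (w : List ℕ) :
    it σ n w = w.flatMap (fun c => it σ n [c]) := by
  induction w with
  | nil => rw [it_nil]; rfl
  | cons c w ih =>
    have h : c :: w = [c] ++ w := rfl
    rw [h, it_append, List.flatMap_append, ih]
    simp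

lemma it_prefix {σ : List (List ℕ)} {u v : List ℕ} (n : ℕ) (h : u <+: v) :
    it σ n u <+: it σ n v := by
  obtain ⟨w, rfl⟩ := h
  rw [it_append]
  exact List.prefix_append _ _

lemma getD_of_prefix {u v : List ℕ} (h : u <+: v) {k : ℕ} (hk : k < u.length) (d : ℕ) :
    v.getD k d = u.getD k d := by
  obtain ⟨w, rfl⟩ := h
  rw [List.getD_append _ _ _ _ hk]

lemma cod_length (τ : List ℕ) (w : List ℕ) : (cod τ w).length = w.length := by
  simp [cod]

lemma cod_append (τ : List ℕ) (u v : List ℕ) : cod τ (u ++ v) = cod τ u ++ cod τ v := by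
  simp [cod]

lemma cod_getD (τ : List ℕ) {w : List ℕ} {k : ℕ} (hk : k < w.length) :
    (cod τ w).getD k 0 = τ.getD (w.getD k 0) 0 := by
  have hk' : k < (cod τ w).length := by rw [cod_length]; exact hk
  rw [List.getD_eq_getElem _ _ hk', List.getD_eq_getElem _ _ hk]
  simp [cod]

/-- The system starts well. -/
def Prolong (S : Sys) : Prop := ∃ u : List ℕ, S.1.getD S.2.2 [] = S.2.2 :: u

lemma Valid.prolong {S : Sys} (h : Valid S) : Prolong S := by
  obtain ⟨-, -, ⟨u, -, hu⟩, -⟩ := h
  exact ⟨u, hu⟩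

lemma it_one_prefix {S : Sys} (h : Prolong S) : [S.2.2] <+: it S.1 1 [S.2.2] := by
  obtain ⟨u, hu⟩ := h
  have h1 : it S.1 1 [S.2.2] = S.2.2 :: u := by
    have : it S.1 1 [S.2.2] = app S.1 [S.2.2] := rfl
    rw [this, app, List.flatMap_cons, List.flatMap_nil, List.append_nil, hu]
  rw [h1]
  exact ⟨u, rfl⟩

lemma it_prefix_succ {S : Sys} (h : Prolong S) (n : ℕ) :
    it S.1 n [S.2.2] <+: it S.1 (n + 1) [S.2.2] := by
  rw [it_add]
  exact it_prefix n (it_one_prefix h)

lemma it_prefix_of_le {S : Sys} (h : Prolong S) {n m : ℕ} (hnm : n ≤ m) :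
    it S.1 n [S.2.2] <+: it S.1 m [S.2.2] := by
  induction m, hnm using Nat.le_induction with
  | base => exact List.prefix_refl _
  | succ m _ ih => exact ih.trans (it_prefix_succ h m)

lemma it_getD_eq {S : Sys} (h : Prolong S) {n m k : ℕ} (hn : k < (it S.1 n [S.2.2]).length)
    (hm : k < (it S.1 m [S.2.2]).length) :
    (it S.1 n [S.2.2]).getD k 0 = (it S.1 m [S.2.2]).getD k 0 := by
  rw [← getD_of_prefix (it_prefix_of_le h (le_max_left n m)) hn,
    ← getD_of_prefix (it_prefix_of_le h (le_max_right n m)) hm]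

lemma lev_succ (σ : List (List ℕ)) (M : ℕ) (w : List ℕ) (t : ℕ) (P : List ℕ) :
    lev σ M w (t + 1) P = it σ M (lev σ M w t P) ++ w := by
  rw [lev, lev, Function.iterate_succ_apply']

lemma lev_prefix {S : Sys} {M : ℕ} {P C w : List ℕ} {n0 : ℕ} (h : LevOK S M P C w n0) (t : ℕ) :
    (lev S.1 M w t P ++ C) <+: it S.1 (M * t + n0) [S.2.2] := by
  obtain ⟨-, -, h1, h2⟩ := h
  induction t with
  | zero => simpa [lev] using h1
  | succ t ih =>
    rw [lev_succ, show M * (t + 1) + n0 = M + (M * t + n0) by ring, it_add]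
    refine List.IsPrefix.trans ?_ (it_prefix M ih)
    rw [it_append, List.append_assoc]
    exact (List.prefix_append_right_inj _).2 h2

lemma start_prefix_lev {S : Sys} {M : ℕ} {P C w : List ℕ} {n0 : ℕ} (hS : Prolong S)
    (h : LevOK S M P C w n0) (t : ℕ) :
    it S.1 (M * t) [S.2.2] <+: lev S.1 M w t P := by
  obtain ⟨-, hP, h1, -⟩ := h
  induction t with
  | zero =>
    have h2 : [S.2.2] <+: it S.1 n0 [S.2.2] := it_prefix_of_le hS (Nat.zero_le n0)
    have h3 : P <+: it S.1 n0 [S.2.2] := (List.prefix_append _ _).trans h1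
    have h4 : [S.2.2] <+: P := by
      refine List.prefix_of_prefix_length_le h2 h3 ?_
      have := List.length_pos_iff.2 hP
      simp only [List.length_singleton]
      omega
    simpa [lev, it] using h4
  | succ t ih =>
    rw [lev_succ, show M * (t + 1) = M + M * t by ring, it_add]
    exact (it_prefix M ih).trans (List.prefix_append _ _)

lemma lev_long {S : Sys} {M : ℕ} {P C w : List ℕ} {n0 : ℕ} (hS : Valid S)
    (h : LevOK S M P C w n0) (k : ℕ) : ∃ t0, ∀ t ≥ t0, k < (lev S.1 M w t P).length := by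
  obtain ⟨n, hn⟩ := hS.2.2.2 k
  refine ⟨n, fun t ht => ?_⟩
  have h1 : n ≤ M * t := by
    have := h.1
    nlinarith
  have h2 := (it_prefix_of_le hS.prolong h1).length_le
  have h3 := (start_prefix_lev hS.prolong h t).length_le
  omega

theorem eqW_of_levelCert {S T : Sys} (hS : Valid S) (hT : Valid T) (h : LevelCert S T) :
    EqW S T := by
  obtain ⟨M, N, n0, P, C, w, Q, D, w', r, s, h1, h2, h3⟩ := h
  intro n m k hk hk'
  obtain ⟨t1, ht1⟩ := lev_long hS h1 k
  obtain ⟨t2, ht2⟩ := lev_long hT h2 k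
  set t := max t1 t2 with ht
  have hl1 := ht1 t (le_max_left _ _)
  have hl2 := ht2 t (le_max_right _ _)
  have hp1 : lev S.1 M w t P <+: it S.1 (M * t + n0) [S.2.2] :=
    (List.prefix_append _ _).trans (lev_prefix h1 t)
  have hp2 : lev T.1 N w' t Q <+: it T.1 (N * t + n0) [T.2.2] :=
    (List.prefix_append _ _).trans (lev_prefix h2 t)
  have e1 : (it S.1 n [S.2.2]).getD k 0 = (lev S.1 M w t P).getD k 0 := by
    rw [it_getD_eq hS.prolong hk (lt_of_lt_of_le hl1 hp1.length_le), getD_of_prefix hp1 hl1]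
  have e2 : (it T.1 m [T.2.2]).getD k 0 = (lev T.1 N w' t Q).getD k 0 := by
    rw [it_getD_eq hT.prolong hk' (lt_of_lt_of_le hl2 hp2.length_le), getD_of_prefix hp2 hl2]
  rw [e1, e2, ← cod_getD _ hl1, ← cod_getD _ hl2]
  have h4 : (cod S.2.1 (lev S.1 M w t P) ++ r).getD k 0 =
      (cod T.2.1 (lev T.1 N w' t Q) ++ s).getD k 0 := by rw [h3 t]
  rw [List.getD_append _ _ _ _ (by rw [cod_length]; exact hl1),
    List.getD_append _ _ _ _ (by rw [cod_length]; exact hl2)] at h4
  exact h4

end SUBST
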