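import Pool.Agent.Work.SUBST.Re
import Pool.Agent.Work.SUBST.CertC

/-!
# Equality of two sequences of words is recursively enumerable
-/

set_option autoImplicit false

namespace SUBST

section

variable {α : Type} [Primcodable α]

theorem prim_kpt {q b j : α → ℕ} (hq : Primrec q) (hb : Primrec b) (hj : Primrec j) :
    Primrec fun a => kpt (q a) (b a) (j a) :=
  prim_pow.comp hq (prim_pow.comp hb hj)

theorem prim_step {q b c : α → ℕ} {v : α → ℕ × ℕ} (hq : Primrec q) (hb : Primrec b)
    (hc : Primrec c) (hv : Primrec v) : Primrec fun a => step (kpt (q a) (b a)) (c a) (v a) := by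
  have h4 : ∀ i : ℕ, Primrec fun a => kpt (q a) (b a) (4 * c a + i) := fun i =>
    prim_kpt hq hb (Primrec.nat_add.comp (Primrec.nat_mul.comp (Primrec.const 4) hc)
      (Primrec.const i))
  have h1 : Primrec fun a => (v a).1 := Primrec.fst.comp hv
  have h2 : Primrec fun a => (v a).2 := Primrec.snd.comp hv
  refine Primrec.pair ?_ ?_
  · exact Primrec.nat_add.comp (Primrec.nat_mul.comp (h4 0) h1) (Primrec.nat_mul.comp (h4 1) h2)
  · exact Primrec.nat_add.comp (Primrec.nat_mul.comp (h4 2) h1) (Primrec.nat_mul.comp (h4 3) h2)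

theorem prim_V {q b : α → ℕ} {w : α → List ℕ} (hq : Primrec q) (hb : Primrec b)
    (hw : Primrec w) : Primrec fun a => V (kpt (q a) (b a)) (w a) := by
  refine Primrec.list_foldr (h := fun a x => step (kpt (q a) (b a)) x.1 x.2) hw
    (Primrec.const ((1 : ℕ), (1 : ℕ))) ?_
  exact prim_step (hq.comp Primrec.fst) (hb.comp Primrec.fst)
    (Primrec.fst.comp Primrec.snd) (Primrec.snd.comp Primrec.snd)

theorem prim_mono {q b : α → ℕ} {w : α → List ℕ} (hq : Primrec q) (hb : Primrec b)
    (hw : Primrec w) : Primrec fun a => mono (kpt (q a) (b a)) (w a) := by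
  refine Primrec.list_foldr (h := fun a x => kpt (q a) (b a) x.1 * x.2) hw
    (Primrec.const (1 : ℕ)) ?_
  exact Primrec.nat_mul.comp (prim_kpt (hq.comp Primrec.fst) (hb.comp Primrec.fst)
    (Primrec.fst.comp Primrec.snd)) (Primrec.snd.comp Primrec.snd)

theorem prim_pick {e : α → Bool} {v : α → ℕ × ℕ} (he : Primrec e) (hv : Primrec v) :
    Primrec fun a => pick (e a) (v a) :=
  Primrec.cond he (Primrec.snd.comp hv) (Primrec.fst.comp hv)

theorem prim_zz {e : α → Bool} {z z' : α → List ℕ} (he : Primrec e) (hz : Primrec z)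
    (hz' : Primrec z') : Primrec fun a => zz (z a) (z' a) (e a) :=
  Primrec.cond he hz' hz

theorem prim_tval {q b : α → ℕ} {s : α → List (List ℕ)} {z z' : α → List ℕ} {f : α → Bool}
    {t : α → Term} (hq : Primrec q) (hb : Primrec b) (hs : Primrec s) (hz : Primrec z)
    (hz' : Primrec z') (hf : Primrec f) (ht : Primrec t) :
    Primrec fun a => tval (kpt (q a) (b a)) (s a) (z a) (z' a) (f a) (t a) := by
  have h1 : Primrec fun a => (t a).2.2.2 :=
    Primrec.snd.comp (Primrec.snd.comp (Primrec.snd.comp ht))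
  have h2 : Primrec fun a => (t a).2.1 := Primrec.fst.comp (Primrec.snd.comp ht)
  have h3 : Primrec fun a => (t a).2.2.1 :=
    Primrec.fst.comp (Primrec.snd.comp (Primrec.snd.comp ht))
  have h4 : Primrec fun a => (t a).1 := Primrec.fst.comp ht
  have h5 : Primrec fun a => xor (f a) (t a).2.2.1 := (Primrec.dom_bool₂ xor).comp hf h3
  exact Primrec.nat_mul.comp (prim_mono hq hb h1)
    (prim_pick h2 (prim_V hq hb (prim_it hs h4 (prim_zz h5 hz hz'))))

theorem prim_side {q b : α → ℕ} {s : α → List (List ℕ)} {z z' : α → List ℕ} {k : α → ℕ}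
    {e : α → Bool} {T : α → List Term} {f : α → Bool}
    (hq : Primrec q) (hb : Primrec b) (hs : Primrec s) (hz : Primrec z)
    (hz' : Primrec z') (hk : Primrec k) (he : Primrec e) (hT : Primrec T) (hf : Primrec f) :
    Primrec fun a => side (kpt (q a) (b a)) (s a) (z a) (z' a) (k a) (e a) (T a) (f a) := by
  refine Primrec.list_foldr
    (h := fun a x => tval (kpt (q a) (b a)) (s a) (z a) (z' a) (f a) x.1 + x.2) hT
    (prim_pick he (prim_V hq hb (prim_it hs (Primrec.succ.comp hk) (prim_zz hf hz hz')))) ?_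
  refine Primrec.nat_add.comp (prim_tval (hq.comp Primrec.fst) (hb.comp Primrec.fst)
    (hs.comp Primrec.fst) (hz.comp Primrec.fst) (hz'.comp Primrec.fst) (hf.comp Primrec.fst)
    (Primrec.fst.comp Primrec.snd)) (Primrec.snd.comp Primrec.snd)

theorem prim_chkE {s : α → List (List ℕ)} {z z' : α → List ℕ} {k B : α → ℕ}
    {e : α → Bool} {T : α → List Term} (hs : Primrec s) (hz : Primrec z)
    (hz' : Primrec z') (hk : Primrec k) (hB : Primrec B) (he : Primrec e) (hT : Primrec T) :
    PrimrecPred fun a => ChkE (s a) (z a) (z' a) (k a) (B a) (e a) (T a) := by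
  have h1 : PrimrecPred fun a => ∀ t ∈ T a, t.1 ≤ k a := by
    have h2 : PrimrecRel fun (t : Term) (k : ℕ) => t.1 ≤ k :=
      Primrec.nat_le.comp (Primrec.fst.comp Primrec.fst) Primrec.snd
    exact h2.forall_mem_list.comp hT hk
  have h3 : ∀ f : Bool, PrimrecPred fun a =>
      side (kpt 2 1) (s a) (z a) (z' a) (k a) (e a) (T a) f < B a := fun f =>
    Primrec.nat_lt.comp (prim_side (Primrec.const 2) (Primrec.const 1) hs hz hz' hk he hT
      (Primrec.const f)) hB
  have h4 : PrimrecPred fun a =>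
      side (kpt (B a) (B a)) (s a) (z a) (z' a) (k a) (e a) (T a) false =
      side (kpt (B a) (B a)) (s a) (z a) (z' a) (k a) (e a) (T a) true :=
    Primrec.eq.comp (prim_side hB hB hs hz hz' hk he hT (Primrec.const false))
      (prim_side hB hB hs hz hz' hk he hT (Primrec.const true))
  exact h1.and ((h3 false).and ((h3 true).and h4))

theorem prim_chk {s : α → List (List ℕ)} {z z' : α → List ℕ} {o : α → List (List ℕ)}
    {k B : α → ℕ} {T0 T1 : α → List Term} (hs : Primrec s) (hz : Primrec z)
    (hz' : Primrec z') (ho : Primrec o) (hk : Primrec k) (hB : Primrec B)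
    (hT0 : Primrec T0) (hT1 : Primrec T1) :
    PrimrecPred fun a => Chk (s a) (z a) (z' a) (o a) (k a) (B a) (T0 a) (T1 a) := by
  have h1 : PrimrecPred fun a => ∀ i < k a + 1,
      app (o a) (it (s a) i (z a)) = app (o a) (it (s a) i (z' a)) := by
    have h2 : PrimrecRel fun (i : ℕ) (x : List (List ℕ) × List ℕ × List ℕ × List (List ℕ)) =>
        app x.2.2.2 (it x.1 i x.2.1) = app x.2.2.2 (it x.1 i x.2.2.1) := by
      have e1 : Primrec fun p : ℕ × (List (List ℕ) × List ℕ × List ℕ × List (List ℕ)) =>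
          p.2.1 := Primrec.fst.comp Primrec.snd
      have e2 : Primrec fun p : ℕ × (List (List ℕ) × List ℕ × List ℕ × List (List ℕ)) =>
          p.2.2.1 := Primrec.fst.comp (Primrec.snd.comp Primrec.snd)
      have e3 : Primrec fun p : ℕ × (List (List ℕ) × List ℕ × List ℕ × List (List ℕ)) =>
          p.2.2.2.1 := Primrec.fst.comp (Primrec.snd.comp (Primrec.snd.comp Primrec.snd))
      have e4 : Primrec fun p : ℕ × (List (List ℕ) × List ℕ × List ℕ × List (List ℕ)) =>
          p.2.2.2.2 := Primrec.snd.comp (Primrec.snd.comp (Primrec.snd.comp Primrec.snd))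
      exact Primrec.eq.comp (prim_app e4 (prim_it e1 Primrec.fst e2))
        (prim_app e4 (prim_it e1 Primrec.fst e3))
    have h3 := h2.forall_mem_list.comp (Primrec.list_range.comp (Primrec.succ.comp hk))
      (hs.pair (hz.pair (hz'.pair ho)))
    refine h3.of_eq fun a => ?_
    simp only [List.mem_range]
  exact h1.and ((prim_chkE hs hz hz' hk hB (Primrec.const false) hT0).and
    (prim_chkE hs hz hz' hk hB (Primrec.const true) hT1))

/-- Equality of two sequences of words is recursively enumerable. -/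
theorem sf_seqEq {s : α → List (List ℕ)} {z z' : α → List ℕ} {o : α → List (List ℕ)}
    (hs : Primrec s) (hz : Primrec z) (hz' : Primrec z') (ho : Primrec o) :
    SF fun a => SeqEq (s a) (z a) (z' a) (o a) := by
  have h1 : PrimrecPred fun x : α × (ℕ × ℕ × List Term × List Term) =>
      Chk (s x.1) (z x.1) (z' x.1) (o x.1) x.2.1 x.2.2.1 x.2.2.2.1 x.2.2.2.2 :=
    prim_chk (hs.comp Primrec.fst) (hz.comp Primrec.fst) (hz'.comp Primrec.fst)
      (ho.comp Primrec.fst) (Primrec.fst.comp Primrec.snd)
      (Primrec.fst.comp (Primrec.snd.comp Primrec.snd))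
      (Primrec.fst.comp (Primrec.snd.comp (Primrec.snd.comp Primrec.snd)))
      (Primrec.snd.comp (Primrec.snd.comp (Primrec.snd.comp Primrec.snd)))
  have h2 := SF.ex (p := fun (a : α) (c : ℕ × ℕ × List Term × List Term) =>
    Chk (s a) (z a) (z' a) (o a) c.1 c.2.1 c.2.2.1 c.2.2.2) (SF.of_primrec h1)
  refine h2.of_eq fun a => ?_
  constructor
  · rintro ⟨c, hc⟩
    exact seqEq_of_chk hc
  · intro h
    obtain ⟨k, B, T0, T1, hc⟩ := exists_chk h
    exact ⟨(k, B, T0, T1), hc⟩

end

end SUBST
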