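import Pool.Agent.Work.SUBST.Lev
import Pool.Agent.Work.SUBST.SeqRe

/-!
# The level certificate is recursively enumerable
-/

set_option autoImplicit false

namespace SUBST

/-- A table given by a function. -/
def tab (K : ℕ) (f : ℕ → List ℕ) : List (List ℕ) := (List.range K).map f

lemma tab_getD {K : ℕ} {f : ℕ → List ℕ} {c : ℕ} (hc : c < K) : (tab K f).getD c [] = f c := by
  have h : c < (tab K f).length := by simpa [tab] using hc
  rw [List.getD_eq_getElem _ _ h]
  simp [tab]

/-- The combined morphism. -/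
def hatS (σ σ' : List (List ℕ)) (M N : ℕ) (w w' : List ℕ) (K : ℕ) : List (List ℕ) :=
  tab (2 * K + 2) fun c =>
    if c < K then it σ M [c]
    else if c < 2 * K then (it σ' N [c - K]).map (fun x => x + K)
    else if c < 2 * K + 1 then w ++ [2 * K]
    else w'.map (fun x => x + K) ++ [2 * K + 1]

/-- The combined output. -/
def hatO (τ τ' : List ℕ) (r s : List ℕ) (K : ℕ) : List (List ℕ) :=
  tab (2 * K + 2) fun c =>
    if c < K then [τ.getD c 0]
    else if c < 2 * K then [τ'.getD (c - K) 0]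
    else if c < 2 * K + 1 then r
    else s

/-- First start word. -/
def hatz (P : List ℕ) (K : ℕ) : List ℕ := P ++ [2 * K]

/-- Second start word. -/
def hatz' (Q : List ℕ) (K : ℕ) : List ℕ := Q.map (fun x => x + K) ++ [2 * K + 1]

lemma app_lt {σ : List (List ℕ)} {K : ℕ} (hσ : ∀ x ∈ σ.flatten, x < K) {w : List ℕ} :
    ∀ x ∈ app σ w, x < K := by
  intro x hx
  rw [app, List.mem_flatMap] at hx
  obtain ⟨c, -, hc⟩ := hx
  by_cases h : c < σ.length
  · rw [List.getD_eq_getElem _ _ h] at hc
    exact hσ x (List.mem_flatten.2 ⟨_, List.getElem_mem h, hc⟩)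
  · rw [List.getD_eq_default _ _ (by omega)] at hc
    exact absurd hc List.not_mem_nil

lemma it_lt {σ : List (List ℕ)} {K : ℕ} (hσ : ∀ x ∈ σ.flatten, x < K) {w : List ℕ}
    (hw : ∀ x ∈ w, x < K) (n : ℕ) : ∀ x ∈ it σ n w, x < K := by
  induction n with
  | zero => exact hw
  | succ n ih => rw [it_succ]; exact app_lt hσ

lemma lev_lt {σ : List (List ℕ)} {K : ℕ} (hσ : ∀ x ∈ σ.flatten, x < K) {P w : List ℕ}
    (hP : ∀ x ∈ P, x < K) (hw : ∀ x ∈ w, x < K) (M t : ℕ) :
    ∀ x ∈ lev σ M w t P, x < K := by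
  induction t with
  | zero => exact hP
  | succ t ih =>
    rw [lev_succ]
    intro x hx
    rcases List.mem_append.1 hx with h | h
    · exact it_lt hσ ih M x h
    · exact hw x h

section sim

variable {σ σ' : List (List ℕ)} {τ τ' : List ℕ} {M N : ℕ} {P w Q w' r s : List ℕ} {K : ℕ}

lemma app_hatS_left {u : List ℕ} (hu : ∀ x ∈ u, x < K) :
    app (hatS σ σ' M N w w' K) u = it σ M u := by
  rw [it_flatMap, app]
  refine List.flatMap_congr fun c hc => ?_
  have h := hu c hc
  rw [hatS, tab_getD (by omega), if_pos h]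

lemma app_hatS_right {u : List ℕ} (hu : ∀ x ∈ u, x < K) :
    app (hatS σ σ' M N w w' K) (u.map (fun x => x + K)) =
      (it σ' N u).map (fun x => x + K) := by
  rw [it_flatMap, app, List.flatMap_map, List.map_flatMap]
  refine List.flatMap_congr fun c hc => ?_
  have h := hu c hc
  rw [hatS, tab_getD (by omega), if_neg (by omega), if_pos (by omega),
    show c + K - K = c by omega]

lemma it_hatS_left (hσ : ∀ x ∈ σ.flatten, x < K) (hP : ∀ x ∈ P, x < K)
    (hw : ∀ x ∈ w, x < K) (t : ℕ) :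
    it (hatS σ σ' M N w w' K) t (hatz P K) = lev σ M w t P ++ [2 * K] := by
  induction t with
  | zero => rfl
  | succ t ih =>
    rw [it_succ, ih, app_append, app_hatS_left (lev_lt hσ hP hw M t), lev_succ,
      List.append_assoc]
    congr 1
    rw [app, List.flatMap_cons, List.flatMap_nil, List.append_nil, hatS, tab_getD (by omega),
      if_neg (by omega), if_neg (by omega), if_pos (by omega)]

lemma it_hatS_right (hσ : ∀ x ∈ σ'.flatten, x < K) (hQ : ∀ x ∈ Q, x < K)
    (hw : ∀ x ∈ w', x < K) (t : ℕ) :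
    it (hatS σ σ' M N w w' K) t (hatz' Q K) =
      (lev σ' N w' t Q).map (fun x => x + K) ++ [2 * K + 1] := by
  induction t with
  | zero => rfl
  | succ t ih =>
    rw [it_succ, ih, app_append, app_hatS_right (lev_lt hσ hQ hw N t), lev_succ,
      List.map_append, List.append_assoc]
    congr 1
    rw [app, List.flatMap_cons, List.flatMap_nil, List.append_nil, hatS, tab_getD (by omega),
      if_neg (by omega), if_neg (by omega), if_neg (by omega)]

lemma app_hatO_left {u : List ℕ} (hu : ∀ x ∈ u, x < K) :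
    app (hatO τ τ' r s K) (u ++ [2 * K]) = cod τ u ++ r := by
  rw [app_append]
  congr 1
  · have h1 : cod τ u = u.flatMap (fun x => [τ.getD x 0]) := by
      rw [cod, List.map_eq_flatMap]
    rw [h1, app]
    refine List.flatMap_congr fun c hc => ?_
    have h := hu c hc
    rw [hatO, tab_getD (by omega), if_pos h]
  · rw [app, List.flatMap_cons, List.flatMap_nil, List.append_nil, hatO, tab_getD (by omega),
      if_neg (by omega), if_neg (by omega), if_pos (by omega)]

lemma app_hatO_right {u : List ℕ} (hu : ∀ x ∈ u, x < K) :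
    app (hatO τ τ' r s K) (u.map (fun x => x + K) ++ [2 * K + 1]) = cod τ' u ++ s := by
  rw [app_append]
  congr 1
  · have h1 : cod τ' u = u.flatMap (fun x => [τ'.getD x 0]) := by
      rw [cod, List.map_eq_flatMap]
    rw [h1, app, List.flatMap_map]
    refine List.flatMap_congr fun c hc => ?_
    have h := hu c hc
    rw [hatO, tab_getD (by omega), if_neg (by omega), if_pos (by omega),
      show c + K - K = c by omega]
  · rw [app, List.flatMap_cons, List.flatMap_nil, List.append_nil, hatO, tab_getD (by omega),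
      if_neg (by omega), if_neg (by omega), if_neg (by omega)]

lemma seqEq_hat_iff (hσ : ∀ x ∈ σ.flatten, x < K) (hP : ∀ x ∈ P, x < K)
    (hw : ∀ x ∈ w, x < K) (hσ' : ∀ x ∈ σ'.flatten, x < K) (hQ : ∀ x ∈ Q, x < K)
    (hw' : ∀ x ∈ w', x < K) :
    SeqEq (hatS σ σ' M N w w' K) (hatz P K) (hatz' Q K) (hatO τ τ' r s K) ↔
      ∀ t, cod τ (lev σ M w t P) ++ r = cod τ' (lev σ' N w' t Q) ++ s := by
  rw [SeqEq]
  refine forall_congr' fun t => ?_
  rw [it_hatS_left hσ hP hw, it_hatS_right hσ' hQ hw', app_hatO_left (lev_lt hσ hP hw M t),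
    app_hatO_right (lev_lt hσ' hQ hw' N t)]

end sim

/-- The data of a certificate. -/
abbrev LC := (ℕ × ℕ × ℕ × ℕ) × (List ℕ × List ℕ × List ℕ × List ℕ) ×
  (List ℕ × List ℕ × List ℕ × List ℕ)

/-- The encoded certificate. -/
def LCok (p : Sys × Sys) (c : LC) : Prop :=
  LevOK p.1 c.1.1 c.2.1.1 c.2.1.2.1 c.2.1.2.2.1 c.1.2.2.1 ∧
  LevOK p.2 c.1.2.1 c.2.2.1 c.2.2.2.1 c.2.2.2.2.1 c.1.2.2.1 ∧
  (∀ x ∈ p.1.1.flatten ++ (c.2.1.1 ++ c.2.1.2.2.1), x < c.1.2.2.2) ∧
  (∀ x ∈ p.2.1.flatten ++ (c.2.2.1 ++ c.2.2.2.2.1), x < c.1.2.2.2) ∧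
  SeqEq (hatS p.1.1 p.2.1 c.1.1 c.1.2.1 c.2.1.2.2.1 c.2.2.2.2.1 c.1.2.2.2)
    (hatz c.2.1.1 c.1.2.2.2) (hatz' c.2.2.1 c.1.2.2.2)
    (hatO p.1.2.1 p.2.2.1 c.2.1.2.2.2 c.2.2.2.2.2 c.1.2.2.2)

theorem levelCert_iff (p : Sys × Sys) : LevelCert p.1 p.2 ↔ ∃ c : LC, LCok p c := by
  constructor
  · rintro ⟨M, N, n0, P, C, w, Q, D, w', r, s, h1, h2, h3⟩
    obtain ⟨K, hK⟩ : ∃ K, ∀ x ∈ (p.1.1.flatten ++ (P ++ w)) ++ (p.2.1.flatten ++ (Q ++ w')),
        x < K := by
      refine ⟨((p.1.1.flatten ++ (P ++ w)) ++ (p.2.1.flatten ++ (Q ++ w'))).sum + 1, ?_⟩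
      intro x hx
      have := List.single_le_sum (fun _ _ => Nat.zero_le _) x hx
      omega
    refine ⟨((M, N, n0, K), (P, C, w, r), (Q, D, w', s)), h1, h2, ?_, ?_, ?_⟩
    · intro x hx
      exact hK x (List.mem_append_left _ hx)
    · intro x hx
      exact hK x (List.mem_append_right _ hx)
    · refine (seqEq_hat_iff ?_ ?_ ?_ ?_ ?_ ?_).2 h3
      · exact fun x hx => hK x (by simp only [List.mem_append]; tauto)
      · exact fun x hx => hK x (by simp only [List.mem_append]; tauto)
      · exact fun x hx => hK x (by simp only [List.mem_append]; tauto)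
      · exact fun x hx => hK x (by simp only [List.mem_append]; tauto)
      · exact fun x hx => hK x (by simp only [List.mem_append]; tauto)
      · exact fun x hx => hK x (by simp only [List.mem_append]; tauto)
  · rintro ⟨⟨⟨M, N, n0, K⟩, ⟨P, C, w, r⟩, ⟨Q, D, w', s⟩⟩, h1, h2, h3, h4, h5⟩
    refine ⟨M, N, n0, P, C, w, Q, D, w', r, s, h1, h2, ?_⟩
    simp only at h3 h4
    refine (seqEq_hat_iff (K := K) ?_ ?_ ?_ ?_ ?_ ?_).1 h5
    · exact fun x hx => h3 x (by simp only [List.mem_append]; tauto)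
    · exact fun x hx => h3 x (by simp only [List.mem_append]; tauto)
    · exact fun x hx => h3 x (by simp only [List.mem_append]; tauto)
    · exact fun x hx => h4 x (by simp only [List.mem_append]; tauto)
    · exact fun x hx => h4 x (by simp only [List.mem_append]; tauto)
    · exact fun x hx => h4 x (by simp only [List.mem_append]; tauto)

/-! ### Primitive recursiveness -/

section prim

variable {α : Type} [Primcodable α]

theorem prim_tab {K : α → ℕ} {f : α → ℕ → List ℕ} (hK : Primrec K) (hf : Primrec₂ f) :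
    Primrec fun a => tab (K a) (f a) :=
  Primrec.list_map (Primrec.list_range.comp hK) hf

theorem prim_shift {K : α → ℕ} {f : α → List ℕ} (hK : Primrec K) (hf : Primrec f) :
    Primrec fun a => (f a).map (fun x => x + K a) :=
  Primrec.list_map hf (Primrec.nat_add.comp Primrec.snd (hK.comp Primrec.fst))

theorem prim_single {f : α → ℕ} (hf : Primrec f) : Primrec fun a => [f a] :=
  Primrec.list_cons.comp hf (Primrec.const [])

theorem prim_hatS {s s' : α → List (List ℕ)} {M N K : α → ℕ} {w w' : α → List ℕ}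
    (hs : Primrec s) (hs' : Primrec s') (hM : Primrec M) (hN : Primrec N) (hw : Primrec w)
    (hw' : Primrec w') (hK : Primrec K) :
    Primrec fun a => hatS (s a) (s' a) (M a) (N a) (w a) (w' a) (K a) := by
  have hK2 : Primrec fun a => 2 * K a := Primrec.nat_mul.comp (Primrec.const 2) hK
  have hK3 : Primrec fun a => 2 * K a + 1 := Primrec.succ.comp hK2
  refine prim_tab (Primrec.succ.comp hK3) ?_
  have hc : Primrec fun x : α × ℕ => x.2 := Primrec.snd
  have f1 : Primrec fun x : α × ℕ => x.1 := Primrec.fst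
  refine Primrec.ite (Primrec.nat_lt.comp hc (hK.comp f1))
    (prim_it (hs.comp f1) (hM.comp f1) (prim_single hc)) ?_
  refine Primrec.ite (Primrec.nat_lt.comp hc (hK2.comp f1))
    (prim_shift (hK.comp f1) (prim_it (hs'.comp f1) (hN.comp f1)
      (prim_single (Primrec.nat_sub.comp hc (hK.comp f1))))) ?_
  refine Primrec.ite (Primrec.nat_lt.comp hc (hK3.comp f1))
    (Primrec.list_append.comp (hw.comp f1) (prim_single (hK2.comp f1))) ?_
  exact Primrec.list_append.comp (prim_shift (hK.comp f1) (hw'.comp f1))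
    (prim_single (hK3.comp f1))

theorem prim_hatO {s s' : α → List ℕ} {K : α → ℕ} {w w' : α → List ℕ}
    (hs : Primrec s) (hs' : Primrec s') (hw : Primrec w)
    (hw' : Primrec w') (hK : Primrec K) :
    Primrec fun a => hatO (s a) (s' a) (w a) (w' a) (K a) := by
  have hK2 : Primrec fun a => 2 * K a := Primrec.nat_mul.comp (Primrec.const 2) hK
  have hK3 : Primrec fun a => 2 * K a + 1 := Primrec.succ.comp hK2
  refine prim_tab (Primrec.succ.comp hK3) ?_
  have hc : Primrec fun x : α × ℕ => x.2 := Primrec.snd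
  have f1 : Primrec fun x : α × ℕ => x.1 := Primrec.fst
  refine Primrec.ite (Primrec.nat_lt.comp hc (hK.comp f1))
    (prim_single ((Primrec.list_getD 0).comp (hs.comp f1) hc)) ?_
  refine Primrec.ite (Primrec.nat_lt.comp hc (hK2.comp f1))
    (prim_single ((Primrec.list_getD 0).comp (hs'.comp f1)
      (Primrec.nat_sub.comp hc (hK.comp f1)))) ?_
  exact Primrec.ite (Primrec.nat_lt.comp hc (hK3.comp f1)) (hw.comp f1) (hw'.comp f1)

theorem prim_levOK {S : α → Sys} {M n0 : α → ℕ} {P C w : α → List ℕ} (hS : Primrec S)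
    (hM : Primrec M) (hn0 : Primrec n0) (hP : Primrec P) (hC : Primrec C) (hw : Primrec w) :
    PrimrecPred fun a => LevOK (S a) (M a) (P a) (C a) (w a) (n0 a) := by
  have hs : Primrec fun a => (S a).1 := Primrec.fst.comp hS
  have ha : Primrec fun a => (S a).2.2 := Primrec.snd.comp (Primrec.snd.comp hS)
  refine PrimrecPred.and (Primrec.nat_le.comp (Primrec.const 1) hM) ?_
  refine PrimrecPred.and (PrimrecPred.not (Primrec.eq.comp hP (Primrec.const []))) ?_
  refine PrimrecPred.and (prim_prefix (Primrec.list_append.comp hP hC)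
    (prim_it hs hn0 (prim_single ha))) ?_
  exact prim_prefix (Primrec.list_append.comp hw hC) (prim_it hs hM hC)

theorem prim_all_lt {f : α → List ℕ} {K : α → ℕ} (hf : Primrec f) (hK : Primrec K) :
    PrimrecPred fun a => ∀ x ∈ f a, x < K a := by
  have h : PrimrecRel fun (x : ℕ) (k : ℕ) => x < k := Primrec.nat_lt
  exact h.forall_mem_list.comp hf hK

end prim

theorem sf_LCok : SF fun x : (Sys × Sys) × LC => LCok x.1 x.2 := by
  have hp1 : Primrec fun x : (Sys × Sys) × LC => x.1.1 := Primrec.fst.comp Primrec.fst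
  have hp2 : Primrec fun x : (Sys × Sys) × LC => x.1.2 := Primrec.snd.comp Primrec.fst
  have a1 : Primrec fun x : (Sys × Sys) × LC => x.2.1 := Primrec.fst.comp Primrec.snd
  have a2 : Primrec fun x : (Sys × Sys) × LC => x.2.2.1 :=
    Primrec.fst.comp (Primrec.snd.comp Primrec.snd)
  have a3 : Primrec fun x : (Sys × Sys) × LC => x.2.2.2 :=
    Primrec.snd.comp (Primrec.snd.comp Primrec.snd)
  have hM : Primrec fun x : (Sys × Sys) × LC => x.2.1.1 := Primrec.fst.comp a1
  have hN : Primrec fun x : (Sys × Sys) × LC => x.2.1.2.1 :=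
    Primrec.fst.comp (Primrec.snd.comp a1)
  have hn0 : Primrec fun x : (Sys × Sys) × LC => x.2.1.2.2.1 :=
    Primrec.fst.comp (Primrec.snd.comp (Primrec.snd.comp a1))
  have hK : Primrec fun x : (Sys × Sys) × LC => x.2.1.2.2.2 :=
    Primrec.snd.comp (Primrec.snd.comp (Primrec.snd.comp a1))
  have hP : Primrec fun x : (Sys × Sys) × LC => x.2.2.1.1 := Primrec.fst.comp a2
  have hC : Primrec fun x : (Sys × Sys) × LC => x.2.2.1.2.1 :=
    Primrec.fst.comp (Primrec.snd.comp a2)
  have hw : Primrec fun x : (Sys × Sys) × LC => x.2.2.1.2.2.1 :=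
    Primrec.fst.comp (Primrec.snd.comp (Primrec.snd.comp a2))
  have hr : Primrec fun x : (Sys × Sys) × LC => x.2.2.1.2.2.2 :=
    Primrec.snd.comp (Primrec.snd.comp (Primrec.snd.comp a2))
  have hQ : Primrec fun x : (Sys × Sys) × LC => x.2.2.2.1 := Primrec.fst.comp a3
  have hD : Primrec fun x : (Sys × Sys) × LC => x.2.2.2.2.1 :=
    Primrec.fst.comp (Primrec.snd.comp a3)
  have hw' : Primrec fun x : (Sys × Sys) × LC => x.2.2.2.2.2.1 :=
    Primrec.fst.comp (Primrec.snd.comp (Primrec.snd.comp a3))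
  have hs : Primrec fun x : (Sys × Sys) × LC => x.2.2.2.2.2.2 :=
    Primrec.snd.comp (Primrec.snd.comp (Primrec.snd.comp a3))
  refine SF.and (SF.of_primrec (prim_levOK hp1 hM hn0 hP hC hw)) ?_
  refine SF.and (SF.of_primrec (prim_levOK hp2 hN hn0 hQ hD hw')) ?_
  refine SF.and (SF.of_primrec (prim_all_lt (Primrec.list_append.comp
    (Primrec.list_flatten.comp (Primrec.fst.comp hp1)) (Primrec.list_append.comp hP hw)) hK)) ?_
  refine SF.and (SF.of_primrec (prim_all_lt (Primrec.list_append.comp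
    (Primrec.list_flatten.comp (Primrec.fst.comp hp2)) (Primrec.list_append.comp hQ hw')) hK)) ?_
  refine sf_seqEq ?_ ?_ ?_ ?_
  · exact prim_hatS (Primrec.fst.comp hp1) (Primrec.fst.comp hp2) hM hN hw hw' hK
  · exact Primrec.list_append.comp hP (prim_single (Primrec.nat_mul.comp (Primrec.const 2) hK))
  · exact Primrec.list_append.comp (prim_shift hK hQ)
      (prim_single (Primrec.succ.comp (Primrec.nat_mul.comp (Primrec.const 2) hK)))
  · exact prim_hatO (Primrec.fst.comp (Primrec.snd.comp hp1))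
      (Primrec.fst.comp (Primrec.snd.comp hp2)) hr hs hK

/-- The level certificate is recursively enumerable. -/
theorem sf_levelCert : SF fun p : Sys × Sys => LevelCert p.1 p.2 :=
  (SF.ex sf_LCok).of_eq fun p => (levelCert_iff p).symm

end SUBST
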