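import Pool.Agent.Work.SUBST.SpDefs

/-!
# Polynomial growth, part 1: systems, reversal, cyclic letters, rays
-/

set_option autoImplicit false

namespace SUBST

namespace Sp

variable {A : Type}

/-! ### words -/

theorem ap_app (S : ASys A) (u v : List A) : S.ap (u ++ v) = S.ap u ++ S.ap v :=
  List.flatMap_append

theorem it_s (S : ASys A) (n : ℕ) (w : List A) : S.it (n + 1) w = S.it n (S.ap w) :=
  Function.iterate_succ_apply _ _ _

theorem it_s' (S : ASys A) (n : ℕ) (w : List A) : S.it (n + 1) w = S.ap (S.it n w) :=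
  Function.iterate_succ_apply' _ _ _

theorem it_zero (S : ASys A) (w : List A) : S.it 0 w = w := rfl

theorem it_app (S : ASys A) (n : ℕ) (u v : List A) : S.it n (u ++ v) = S.it n u ++ S.it n v := by
  induction n generalizing u v with
  | zero => rfl
  | succ n ih => rw [it_s, it_s, it_s, ap_app, ih]

theorem it_add (S : ASys A) (m n : ℕ) (w : List A) : S.it (m + n) w = S.it m (S.it n w) :=
  Function.iterate_add_apply _ _ _ _

theorem it_one (S : ASys A) (c : A) : S.it 1 [c] = S.σ c := by
  change S.ap [c] = _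
  unfold ASys.ap
  rw [List.flatMap_singleton]

theorem ap_one (S : ASys A) (c : A) : S.ap [c] = S.σ c := it_one S c

theorem it_nil (S : ASys A) (n : ℕ) : S.it n [] = [] := by
  induction n with
  | zero => rfl
  | succ n ih => rw [it_s]; exact ih

theorem W_app (S : ASys A) (n : ℕ) (u v : List A) : S.W n (u ++ v) = S.W n u ++ S.W n v := by
  unfold ASys.W
  rw [it_app, List.flatMap_append]

theorem W_nil (S : ASys A) (n : ℕ) : S.W n [] = [] := by
  unfold ASys.W
  rw [it_nil]
  rfl

theorem W_s (S : ASys A) (n : ℕ) (w : List A) : S.W (n + 1) w = S.W n (S.ap w) := by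
  unfold ASys.W
  rw [it_s]

theorem W_add (S : ASys A) (m n : ℕ) (w : List A) : S.W (m + n) w = S.W m (S.it n w) := by
  unfold ASys.W
  rw [it_add]

theorem W_zero_one (S : ASys A) (c : A) : S.W 0 [c] = S.h c := by
  change [c].flatMap S.h = _
  rw [List.flatMap_singleton]

theorem mem_it_trans {S : ASys A} {m n : ℕ} {c d e : A} (h1 : d ∈ S.it m [c]) (h2 : e ∈ S.it n [d]) :
    e ∈ S.it (n + m) [c] := by
  rw [it_add]
  obtain ⟨u, v, h⟩ := List.append_of_mem h1
  rw [h, show u ++ d :: v = u ++ ([d] ++ v) by simp, it_app, it_app]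
  simp [h2]

theorem mem_it_of_mem {S : ASys A} {n : ℕ} {w : List A} {d e : A} (h1 : d ∈ w)
    (h2 : e ∈ S.it n [d]) : e ∈ S.it n w := by
  obtain ⟨u, v, rfl⟩ := List.append_of_mem h1
  rw [show u ++ d :: v = u ++ ([d] ++ v) by simp, it_app, it_app]
  simp [h2]

/-- a letter of an iterate comes from a letter -/
theorem exists_of_mem_it {S : ASys A} {n : ℕ} {w : List A} {e : A} (h : e ∈ S.it n w) :
    ∃ d ∈ w, e ∈ S.it n [d] := by
  induction w with
  | nil =>
    rw [it_nil] at h
    exact absurd h (by simp)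
  | cons b w ih =>
    rw [show b :: w = [b] ++ w from rfl, it_app, List.mem_append] at h
    rcases h with h | h
    · exact ⟨b, List.mem_cons_self, h⟩
    · obtain ⟨d, h1, h2⟩ := ih h
      exact ⟨d, List.mem_cons_of_mem _ h1, h2⟩

/-! ### reversal -/

/-- the reversed system -/
def rev (S : ASys A) : ASys A := ⟨fun c => (S.σ c).reverse, fun c => (S.h c).reverse, S.a⟩

theorem rev_rev (S : ASys A) : rev (rev S) = S := by
  unfold rev
  simp

theorem ap_rev (S : ASys A) (w : List A) : (rev S).ap w.reverse = (S.ap w).reverse := by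
  induction w with
  | nil => rfl
  | cons b w ih =>
    rw [List.reverse_cons, ap_app, ih, show b :: w = [b] ++ w from rfl, ap_app, List.reverse_append,
      ap_one, ap_one]
    rfl

theorem it_rev (S : ASys A) (n : ℕ) (w : List A) :
    (rev S).it n w.reverse = (S.it n w).reverse := by
  induction n generalizing w with
  | zero => rfl
  | succ n ih => rw [it_s, it_s, ap_rev, ih]

theorem it_rev_one (S : ASys A) (n : ℕ) (c : A) : (rev S).it n [c] = (S.it n [c]).reverse :=
  it_rev S n [c]

theorem W_rev (S : ASys A) (n : ℕ) (w : List A) : (rev S).W n w.reverse = (S.W n w).reverse := by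
  unfold ASys.W
  rw [it_rev]
  induction S.it n w with
  | nil => rfl
  | cons b w ih =>
    rw [List.reverse_cons, List.flatMap_append, ih, List.flatMap_singleton, List.flatMap_cons,
      List.reverse_append]
    rfl

theorem mem_it_rev {S : ASys A} {n : ℕ} {c d : A} : d ∈ (rev S).it n [c] ↔ d ∈ S.it n [c] := by
  rw [it_rev_one, List.mem_reverse]

/-! ### the normal form -/

/-- non-erasing, no letter twice in its iterates, recurrent letters reproduce themselves at once -/
structure PS (S : ASys A) : Prop where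
  ne : ∀ c, S.σ c ≠ []
  hne : ∀ c, S.h c ≠ []
  poly : S.PolyS
  self : ∀ c, (∃ n, 1 ≤ n ∧ c ∈ S.it n [c]) → c ∈ S.σ c

theorem PS.rev {S : ASys A} (h : PS S) : PS (rev S) where
  ne c := by
    change (S.σ c).reverse ≠ []
    simp [h.ne c]
  hne c := by
    change (S.h c).reverse ≠ []
    simp [h.hne c]
  poly c n u v w he := by
    rw [it_rev_one] at he
    have h1 : S.it n [c] = w.reverse ++ c :: v.reverse ++ c :: u.reverse := by
      have := congrArg List.reverse he
      rw [List.reverse_reverse] at this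
      rw [this]
      simp
    exact h.poly c n _ _ _ h1
  self c hc := by
    change c ∈ (S.σ c).reverse
    rw [List.mem_reverse]
    obtain ⟨n, h1, h2⟩ := hc
    exact h.self c ⟨n, h1, mem_it_rev.1 h2⟩

/-- reachability -/
def Rch (S : ASys A) (c d : A) : Prop := ∃ n, d ∈ S.it n [c]

theorem Rch.refl (S : ASys A) (c : A) : Rch S c c := ⟨0, by simp [it_zero]⟩

theorem Rch.trans {S : ASys A} {c d e : A} (h1 : Rch S c d) (h2 : Rch S d e) : Rch S c e := by
  obtain ⟨m, h1⟩ := h1
  obtain ⟨n, h2⟩ := h2
  exact ⟨_, mem_it_trans h1 h2⟩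

theorem Rch.of_mem {S : ASys A} {c d : A} (h : d ∈ S.σ c) : Rch S c d := ⟨1, by rwa [it_one]⟩

theorem rch_rev {S : ASys A} {c d : A} : Rch (rev S) c d ↔ Rch S c d :=
  exists_congr fun _ => mem_it_rev

/-- strictly below -/
def Blw (S : ASys A) (d c : A) : Prop := Rch S c d ∧ ¬ Rch S d c

theorem blw_rev {S : ASys A} {c d : A} : Blw (rev S) c d ↔ Blw S c d := by
  unfold Blw
  rw [rch_rev, rch_rev]

theorem blw_wf [Finite A] (S : ASys A) : WellFounded (Blw S) := by
  have : IsTrans A (Blw S) := ⟨fun a b c h1 h2 => ⟨h2.1.trans h1.1, fun h => h2.2 (h1.1.trans h)⟩⟩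
  have : Std.Irrefl (Blw S) := ⟨fun a h => h.2 (Rch.refl S a)⟩
  exact Finite.wellFounded_of_trans_of_irrefl _

theorem mem_it_self {S : ASys A} {c : A} (h : c ∈ S.σ c) (n : ℕ) : c ∈ S.it n [c] := by
  induction n with
  | zero => simp [it_zero]
  | succ n ih => exact mem_it_trans (m := 1) (n := n) (by rwa [it_one]) ih

/-! ### the two sides of a recurrent letter -/

variable [DecidableEq A]

/-- what follows the letter `c` in `σ c` -/
def bet (S : ASys A) (c : A) : List A := ((S.σ c).dropWhile (· ≠ c)).tail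

theorem bet_eq {S : ASys A} {c : A} {u v : List A} (h : S.σ c = u ++ c :: v) (hu : c ∉ u) :
    bet S c = v := by
  unfold bet
  rw [h]
  have h1 : ∀ u : List A, c ∉ u → (u ++ c :: v).dropWhile (· ≠ c) = c :: v := by
    intro u
    induction u with
    | nil => intro _; simp
    | cons b u ih =>
      intro hb
      have hb1 : b ≠ c := fun h => hb (h ▸ List.mem_cons_self)
      have hb2 : c ∉ u := fun h => hb (List.mem_cons_of_mem _ h)
      rw [List.cons_append, List.dropWhile_cons, if_pos (by simpa using hb1)]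
      exact ih hb2
  rw [h1 u hu]
  rfl

theorem not_mem_of_poly {S : ASys A} (hP : S.PolyS) {c : A} {u v : List A}
    (h : S.σ c = u ++ c :: v) : c ∉ u ∧ c ∉ v := by
  constructor
  · intro hc
    obtain ⟨u1, u2, rfl⟩ := List.append_of_mem hc
    exact hP c 1 u1 u2 v (by rw [it_one, h])
  · intro hc
    obtain ⟨v1, v2, rfl⟩ := List.append_of_mem hc
    exact hP c 1 u v1 v2 (by rw [it_one, h]; simp)

/-- `σ c = (left side) c (right side)` -/
theorem sig_eq {S : ASys A} (h : PS S) {c : A} (hc : c ∈ S.σ c) :
    S.σ c = (bet (rev S) c).reverse ++ c :: bet S c := by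
  obtain ⟨u, v, he⟩ := List.append_of_mem hc
  obtain ⟨h1, h2⟩ := not_mem_of_poly h.poly he
  have e1 := bet_eq he h1
  have e2 : bet (rev S) c = u.reverse := by
    refine bet_eq (u := v.reverse) ?_ (by simpa using h2)
    change (S.σ c).reverse = _
    rw [he]
    simp
  rw [e1, e2, List.reverse_reverse]
  exact he

theorem blw_bet {S : ASys A} (h : PS S) {c : A} (hc : c ∈ S.σ c) {e : A} (he : e ∈ bet S c) :
    Blw S e c := by
  have hs := sig_eq h hc
  constructor
  · refine Rch.of_mem ?_
    rw [hs]
    simp [he]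
  · rintro ⟨m, hm⟩
    have h1 : S.it (m + 1) [c] = S.it m (bet (rev S) c).reverse ++ S.it m [c] ++
        S.it m (bet S c) := by
      rw [it_add, it_one, hs, show (bet (rev S) c).reverse ++ c :: bet S c =
        (bet (rev S) c).reverse ++ ([c] ++ bet S c) by simp, it_app, it_app, List.append_assoc]
    obtain ⟨u1, u2, e1⟩ := List.append_of_mem (mem_it_self hc m)
    obtain ⟨v1, v2, e2⟩ := List.append_of_mem (mem_it_of_mem he hm)
    refine h.poly c (m + 1) (S.it m (bet (rev S) c).reverse ++ u1) (u2 ++ v1) v2 ?_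
    rw [h1, e1, e2]
    simp

theorem blw_of_not_mem {S : ASys A} (h : PS S) {c : A} (hc : c ∉ S.σ c) {e : A} (he : e ∈ S.σ c) :
    Blw S e c := by
  refine ⟨Rch.of_mem he, ?_⟩
  rintro ⟨m, hm⟩
  refine hc (h.self c ⟨m + 1, by omega, ?_⟩)
  exact mem_it_trans (m := 1) (by rwa [it_one]) hm

/-- the right side of the iterates of `c` -/
def PR (S : ASys A) (c : A) : ℕ → List ℕ
  | 0 => []
  | n + 1 => PR S c n ++ S.W n (bet S c)

theorem PR_rev_succ (S : ASys A) (c : A) (n : ℕ) :
    (PR (rev S) c (n + 1)).reverse = S.W n (bet (rev S) c).reverse ++ (PR (rev S) c n).reverse := by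
  change (PR (rev S) c n ++ (rev S).W n (bet (rev S) c)).reverse = _
  rw [List.reverse_append]
  congr 1
  have := W_rev S n (bet (rev S) c).reverse
  rw [List.reverse_reverse] at this
  rw [this, List.reverse_reverse]

theorem W_eq {S : ASys A} (h : PS S) {c : A} (hc : c ∈ S.σ c) (n : ℕ) :
    S.W n [c] = (PR (rev S) c n).reverse ++ (S.h c ++ PR S c n) := by
  induction n with
  | zero =>
    rw [W_zero_one]
    simp [PR]
  | succ n ih =>
    rw [W_s, ap_one, sig_eq h hc, show (bet (rev S) c).reverse ++ c :: bet S c =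
        (bet (rev S) c).reverse ++ ([c] ++ bet S c) by simp, W_app, W_app, ih, PR_rev_succ]
    change _ = _ ++ (_ ++ (PR S c n ++ S.W n (bet S c)))
    simp only [List.append_assoc]

theorem PR_pre (S : ASys A) (c : A) {m n : ℕ} (h : m ≤ n) : PR S c m <+: PR S c n := by
  induction n, h using Nat.le_induction with
  | base => exact List.prefix_rfl
  | succ n _ ih => exact ih.trans (List.prefix_append _ _)

theorem it_ne_nil {S : ASys A} (h : ∀ c, S.σ c ≠ []) {w : List A} (hw : w ≠ []) (n : ℕ) :
    S.it n w ≠ [] := by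
  induction n generalizing w with
  | zero => exact hw
  | succ n ih =>
    rw [it_s]
    refine ih ?_
    obtain ⟨b, w, rfl⟩ := List.exists_cons_of_ne_nil hw
    rw [show b :: w = [b] ++ w from rfl, ap_app, ap_one]
    simp [h b]

theorem length_flatMap_ge {B : Type*} {g : A → List B} (h : ∀ c, g c ≠ []) (w : List A) :
    w.length ≤ (w.flatMap g).length := by
  induction w with
  | nil => simp
  | cons b w ih =>
    rw [List.flatMap_cons, List.length_append, List.length_cons]
    have := List.length_pos_iff.2 (h b)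
    omega

theorem length_it_le {S : ASys A} (h : ∀ c, S.σ c ≠ []) (n : ℕ) (w : List A) :
    (S.it n w).length ≤ (S.it (n + 1) w).length := by
  rw [it_s']
  exact length_flatMap_ge h _

theorem length_W_ge {S : ASys A} (h : ∀ c, S.h c ≠ []) (n : ℕ) (w : List A) :
    (S.it n w).length ≤ (S.W n w).length := length_flatMap_ge h _

theorem W_pos {S : ASys A} (h : PS S) {w : List A} (hw : w ≠ []) (n : ℕ) :
    0 < (S.W n w).length :=
  lt_of_lt_of_le (List.length_pos_iff.2 (it_ne_nil h.ne hw n)) (length_W_ge h.hne n w)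

theorem PR_len {S : ASys A} (h : PS S) {c : A} (hb : bet S c ≠ []) (n : ℕ) :
    n ≤ (PR S c n).length := by
  induction n with
  | zero => simp
  | succ n ih =>
    change _ ≤ (PR S c n ++ S.W n (bet S c)).length
    rw [List.length_append]
    have := W_pos h hb n
    omega

/-- the right infinite word of a recurrent letter -/
def ray (S : ASys A) (c : A) (i : ℕ) : ℕ := (PR S c (i + 1)).getD i 0

theorem ray_eq {S : ASys A} (h : PS S) {c : A} (hb : bet S c ≠ []) {n i : ℕ}
    (hi : i < (PR S c n).length) : ray S c i = (PR S c n)[i] := by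
  unfold ray
  have h1 : i < (PR S c (i + 1)).length := lt_of_lt_of_le (Nat.lt_succ_self i) (PR_len h hb _)
  rw [List.getD_eq_getElem _ _ h1]
  rcases le_total n (i + 1) with h2 | h2
  · exact ((PR_pre S c h2).getElem hi).symm
  · exact (PR_pre S c h2).getElem h1

theorem PR_seg {S : ASys A} (h : PS S) {c : A} (hb : bet S c ≠ []) (n : ℕ) :
    PR S c n = seg (ray S c) 0 (PR S c n).length := by
  unfold seg
  apply List.ext_getElem
  · simp
  · intro i h1 h2
    simp only [List.getElem_map, List.getElem_range, zero_add]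
    exact (ray_eq h hb h1).symm

end Sp

end SUBST
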