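import Pool.Agent.Work.SUBST.SpDefs

/-!
# Pure word lemmas for sparse factors (windows, occurrence counts)
-/

set_option autoImplicit false

namespace SUBST

namespace Sp

/-! ### (w1) windows -/

@[simp] theorem length_seg (T : ℕ → ℕ) (i n : ℕ) : (seg T i n).length = n := by
  simp [seg]

@[simp] theorem seg_zero (T : ℕ → ℕ) (i : ℕ) : seg T i 0 = [] := by simp [seg]

theorem seg_add (T : ℕ → ℕ) (i n m : ℕ) :
    seg T i (n + m) = seg T i n ++ seg T (i + n) m := by
  simp only [seg, List.range_add, List.map_append, List.map_map]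
  congr 1
  apply List.map_congr_left
  intro j _
  simp [Function.comp, Nat.add_assoc]

theorem seg_one (T : ℕ → ℕ) (i : ℕ) : seg T i 1 = [T i] := by simp [seg]

theorem seg_succ' (T : ℕ → ℕ) (i n : ℕ) : seg T i (n + 1) = T i :: seg T (i + 1) n := by
  rw [Nat.add_comm n 1, seg_add, seg_one]; rfl

theorem seg_succ (T : ℕ → ℕ) (i n : ℕ) : seg T i (n + 1) = seg T i n ++ [T (i + n)] := by
  rw [seg_add, seg_one]

theorem getElem_seg (T : ℕ → ℕ) (i n j : ℕ) (h : j < (seg T i n).length) :
    (seg T i n)[j] = T (i + j) := by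
  simp [seg]

theorem getD_seg (T : ℕ → ℕ) (i n j d : ℕ) (h : j < n) : (seg T i n).getD j d = T (i + j) := by
  rw [List.getD_eq_getElem _ _ (by simpa using h), getElem_seg]

theorem seg_prefix (T : ℕ → ℕ) (i : ℕ) {n m : ℕ} (h : n ≤ m) : seg T i n <+: seg T i m := by
  obtain ⟨k, rfl⟩ := Nat.exists_eq_add_of_le h
  rw [seg_add]
  exact List.prefix_append _ _

theorem seg_eq_iff (T : ℕ → ℕ) (i : ℕ) (f : List ℕ) :
    seg T i f.length = f ↔ ∀ j, j < f.length → T (i + j) = f.getD j 0 := by
  constructor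
  · intro h j hj
    rw [← getD_seg T i f.length j 0 hj, h]
  · intro h
    apply List.ext_getElem
    · simp
    · intro j h1 h2
      rw [getElem_seg, h j h2, List.getD_eq_getElem _ _ h2]

theorem seg_congr (T T' : ℕ → ℕ) (i i' n : ℕ) (h : ∀ j, j < n → T (i + j) = T' (i' + j)) :
    seg T i n = seg T' i' n := by
  apply List.ext_getElem
  · simp
  · intro j h1 h2
    rw [getElem_seg, getElem_seg, h j (by simpa using h1)]

theorem eq_of_seg_eq {T T' : ℕ → ℕ} {i i' n : ℕ} (h : seg T i n = seg T' i' n) {j : ℕ}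
    (hj : j < n) : T (i + j) = T' (i' + j) := by
  rw [← getD_seg T i n j 0 hj, h, getD_seg T' i' n j 0 hj]

theorem take_seg (T : ℕ → ℕ) (i : ℕ) {n k : ℕ} (h : k ≤ n) :
    (seg T i n).take k = seg T i k := by
  obtain ⟨m, rfl⟩ := Nat.exists_eq_add_of_le h
  rw [seg_add, List.take_append_of_le_length (by simp), List.take_of_length_le (by simp)]

theorem drop_seg (T : ℕ → ℕ) (i : ℕ) {n k : ℕ} (h : k ≤ n) :
    (seg T i n).drop k = seg T (i + k) (n - k) := by
  obtain ⟨m, rfl⟩ := Nat.exists_eq_add_of_le h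
  rw [seg_add, List.drop_append_of_le_length (by simp), List.drop_of_length_le (by simp)]
  simp

/-- A prefix of a window is a window. -/
theorem eq_seg_of_prefix {T : ℕ → ℕ} {i n : ℕ} {f : List ℕ} (h : f <+: seg T i n) :
    f = seg T i f.length := by
  have h1 := List.prefix_iff_eq_take.1 h
  have h2 : f.length ≤ n := by simpa using h.length_le
  rw [take_seg T i h2] at h1
  exact h1

theorem prefix_seg_iff {T : ℕ → ℕ} {i n : ℕ} {f : List ℕ} :
    f <+: seg T i n ↔ f.length ≤ n ∧ seg T i f.length = f := by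
  constructor
  · intro h
    exact ⟨by simpa using h.length_le, (eq_seg_of_prefix h).symm⟩
  · rintro ⟨h1, h2⟩
    have h3 := seg_prefix T i h1
    rwa [h2] at h3

/-- A subwindow is an infix. -/
theorem seg_infix (T : ℕ → ℕ) {i n j m : ℕ} (h1 : i ≤ j) (h2 : j + m ≤ i + n) :
    seg T j m <:+: seg T i n := by
  obtain ⟨a, rfl⟩ := Nat.exists_eq_add_of_le h1
  obtain ⟨b, hb⟩ := Nat.exists_eq_add_of_le h2
  have : n = a + (m + b) := by omega
  rw [this, seg_add, seg_add]
  exact ⟨seg T i a, seg T (i + a + m) b, by simp⟩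

/-- An infix of a window is a window. -/
theorem exists_of_infix_seg {T : ℕ → ℕ} {i n : ℕ} {f : List ℕ} (h : f <:+: seg T i n) :
    ∃ j, i ≤ j ∧ j + f.length ≤ i + n ∧ seg T j f.length = f := by
  obtain ⟨s, t, hst⟩ := h
  have hlen : s.length + f.length + t.length = n := by
    have := congrArg List.length hst
    simpa [Nat.add_assoc] using this
  refine ⟨i + s.length, by omega, by omega, ?_⟩
  have h1 : seg T i n = seg T i s.length ++ (seg T (i + s.length) f.length ++
      seg T (i + s.length + f.length) t.length) := by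
    rw [← hlen, Nat.add_assoc, seg_add, seg_add]
  rw [h1, List.append_assoc] at hst
  have h2 := (List.append_inj hst (by simp)).2
  exact (List.append_inj h2 (by simp)).1.symm

/-! ### (w2) counts -/

@[simp] theorem cnt_nil (f : List ℕ) : cnt f [] = 0 := rfl

theorem cnt_cons (f : List ℕ) (b : ℕ) (w : List ℕ) :
    cnt f (b :: w) = (if f <+: b :: w then 1 else 0) + cnt f w := rfl

theorem cnt_le_length (f w : List ℕ) : cnt f w ≤ w.length := by
  induction w with
  | nil => simp
  | cons b w ih =>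
    rw [cnt_cons, List.length_cons]
    split_ifs <;> omega

theorem cnt_append_le_min (f u v : List ℕ) :
    cnt f (u ++ v) ≤ cnt f u + cnt f v + min u.length f.length := by
  induction u with
  | nil => simp
  | cons b u ih =>
    rw [List.cons_append, cnt_cons, cnt_cons, List.length_cons]
    by_cases h1 : f <+: b :: (u ++ v)
    · by_cases h2 : f.length ≤ (b :: u).length
      · have h3 : f <+: b :: u := by
          rw [← List.cons_append] at h1
          exact List.prefix_of_prefix_length_le h1 (List.prefix_append _ _) h2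
        rw [if_pos h1, if_pos h3]
        have : min u.length f.length ≤ min (u.length + 1) f.length := by
          apply min_le_min_right; omega
        omega
      · rw [List.length_cons] at h2
        rw [if_pos h1]
        have h4 : min (u.length + 1) f.length = u.length + 1 := by
          apply min_eq_left; omega
        have h5 : min u.length f.length ≤ u.length := min_le_left _ _
        split_ifs <;> omega
    · rw [if_neg h1]
      have : min u.length f.length ≤ min (u.length + 1) f.length := by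
        apply min_le_min_right; omega
      omega

theorem cnt_append_le (f u v : List ℕ) :
    cnt f (u ++ v) ≤ cnt f u + cnt f v + f.length :=
  (cnt_append_le_min f u v).trans (by
    have : min u.length f.length ≤ f.length := min_le_right _ _
    omega)

theorem cnt_append_le' (f u v : List ℕ) : cnt f (u ++ v) ≤ u.length + cnt f v := by
  induction u with
  | nil => simp
  | cons b u ih =>
    rw [List.cons_append, cnt_cons, List.length_cons]
    split_ifs <;> omega

theorem cnt_append_ge (f u v : List ℕ) : cnt f u + cnt f v ≤ cnt f (u ++ v) := by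
  induction u with
  | nil => simp
  | cons b u ih =>
    rw [List.cons_append, cnt_cons, cnt_cons]
    by_cases h : f <+: b :: u
    · have h' : f <+: b :: (u ++ v) := by
        rw [← List.cons_append]; exact h.trans (List.prefix_append _ _)
      rw [if_pos h, if_pos h']
      omega
    · rw [if_neg h]
      split_ifs <;> omega

theorem cnt_suffix (f u v : List ℕ) : cnt f v ≤ cnt f (u ++ v) := by
  have := cnt_append_ge f u v
  omega

theorem cnt_prefix (f u v : List ℕ) : cnt f u ≤ cnt f (u ++ v) := by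
  have := cnt_append_ge f u v
  omega

theorem cnt_infix (f : List ℕ) {u v : List ℕ} (h : u <:+: v) : cnt f u ≤ cnt f v := by
  obtain ⟨s, t, rfl⟩ := h
  exact (cnt_suffix f s u).trans (cnt_prefix f (s ++ u) t)

theorem cnt_of_prefix {f : List ℕ} (hf : f ≠ []) {w : List ℕ} (h : f <+: w) : 1 ≤ cnt f w := by
  cases w with
  | nil => exact absurd (List.prefix_nil.1 h) hf
  | cons b w => rw [cnt_cons, if_pos h]; omega

theorem cnt_of_infix {f : List ℕ} (hf : f ≠ []) {w : List ℕ} (h : f <:+: w) : 1 ≤ cnt f w := by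
  obtain ⟨s, t, rfl⟩ := h
  have h1 : 1 ≤ cnt f (f ++ t) := cnt_of_prefix hf (List.prefix_append _ _)
  have h2 := cnt_suffix f s (f ++ t)
  rw [List.append_assoc]
  omega

theorem infix_of_cnt {f w : List ℕ} (h : 1 ≤ cnt f w) : f <:+: w := by
  induction w with
  | nil => simp at h
  | cons b w ih =>
    rw [cnt_cons] at h
    by_cases h1 : f <+: b :: w
    · exact h1.isInfix
    · rw [if_neg h1] at h
      exact (ih (by omega)).trans (List.infix_cons (List.infix_refl w))

/-! ### (w3) -/

theorem cnt_of_no {f w : List ℕ} {N : ℕ}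
    (h : ∀ t, t <:+ w → N < t.length → ¬ (f <+: t)) : cnt f w ≤ N := by
  induction w with
  | nil => simp
  | cons b w ih =>
    by_cases h1 : N < (b :: w).length
    · rw [cnt_cons, if_neg (h _ (List.suffix_refl _) h1), Nat.zero_add]
      exact ih fun t ht hN => h t (ht.trans (List.suffix_cons b w)) hN
    · exact (cnt_le_length f (b :: w)).trans (by omega)

/-! ### (w4) -/

theorem cnt_seg_le_of_no {T : ℕ → ℕ} {f : List ℕ} {N : ℕ}
    (h : ∀ i, N ≤ i → seg T i f.length ≠ f) (n i : ℕ) : cnt f (seg T i n) ≤ N - i := by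
  induction n generalizing i with
  | zero => simp
  | succ n ih =>
    rw [seg_succ', cnt_cons]
    have h1 := ih (i + 1)
    by_cases hi : N ≤ i
    · have h2 : ¬ (f <+: T i :: seg T (i + 1) n) := by
        intro h3
        rw [← seg_succ'] at h3
        exact h i hi (prefix_seg_iff.1 h3).2
      rw [if_neg h2]
      omega
    · split_ifs <;> omega

theorem not_IOc {T : ℕ → ℕ} {f : List ℕ} (h : ¬ IOc T f) :
    ∃ N, ∀ i, N ≤ i → seg T i f.length ≠ f := by
  unfold IOc at h
  push Not at h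
  exact h

theorem cnt_bdd_of_not_IOc {T : ℕ → ℕ} {f : List ℕ} (h : ¬ IOc T f) :
    ∃ C, ∀ n, cnt f (seg T 0 n) ≤ C := by
  obtain ⟨N, hN⟩ := not_IOc h
  exact ⟨N, fun n => by simpa using cnt_seg_le_of_no hN n 0⟩

theorem cnt_bound_of_not_IOc {T : ℕ → ℕ} {f : List ℕ} (_hf : f ≠ []) (h : ¬ IOc T f) :
    ∃ C, ∀ n, cnt f (seg T 0 n) ≤ C := cnt_bdd_of_not_IOc h

/-! ### (w9), (w10) -/

theorem IOc_infix {T : ℕ → ℕ} {f g : List ℕ} (h : IOc T f) (hg : g <:+: f) : IOc T g := by
  intro N
  obtain ⟨i, hi, hf⟩ := h N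
  rw [← hf] at hg
  obtain ⟨j, h1, _, h3⟩ := exists_of_infix_seg hg
  exact ⟨j, by omega, h3⟩

theorem exists_le_cnt {T : ℕ → ℕ} {f : List ℕ} (h : IOc T f) (hf : f ≠ []) (C : ℕ) :
    ∃ K, C ≤ cnt f (seg T 0 K) := by
  induction C with
  | zero => exact ⟨0, by simp⟩
  | succ C ih =>
    obtain ⟨K, hK⟩ := ih
    obtain ⟨i, hi, hfi⟩ := h K
    refine ⟨i + f.length, ?_⟩
    obtain ⟨m, rfl⟩ := Nat.exists_eq_add_of_le hi
    rw [seg_add, seg_add]
    simp only [Nat.zero_add] at *
    rw [hfi]
    have h1 := cnt_append_ge f (seg T 0 K ++ seg T K m) f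
    have h2 := cnt_append_ge f (seg T 0 K) (seg T K m)
    have h3 : 1 ≤ cnt f f := cnt_of_prefix hf (List.prefix_refl _)
    omega

theorem exists_lt_cnt {T : ℕ → ℕ} {f : List ℕ} (h : IOc T f) (hf : f ≠ []) (C : ℕ) :
    ∃ K, C < cnt f (seg T 0 K) := exists_le_cnt h hf (C + 1)

/-! ### (w5) -/

section levels

variable {T : ℕ → ℕ} {s : ℕ → ℕ} {L : ℕ → List ℕ}

theorem lev_mono (s1 : ∀ n, s (n + 1) = s n + (L n).length) : Monotone s :=
  monotone_nat_of_le_succ fun n => by rw [s1]; omega

/-- Every position beyond `s n0` lies in a level `n ≥ n0`. -/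
theorem exists_level (s1 : ∀ n, s (n + 1) = s n + (L n).length) {n0 : ℕ}
    (hpos : ∀ n, n0 ≤ n → 1 ≤ (L n).length) {i : ℕ} (hi : s n0 ≤ i) :
    ∃ n, n0 ≤ n ∧ s n ≤ i ∧ i < s (n + 1) := by
  have hgrow : ∀ k, s n0 + k ≤ s (n0 + k) := by
    intro k
    induction k with
    | zero => simp
    | succ k ih =>
      have h1 := s1 (n0 + k)
      have h2 := hpos (n0 + k) (by omega)
      rw [← Nat.add_assoc n0 k 1, h1]
      omega
  have hex : ∃ m, i < s m := ⟨n0 + (i + 1), by have := hgrow (i + 1); omega⟩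
  classical
  have hmin := Nat.find_spec hex
  have hlt : n0 < Nat.find hex := by
    by_contra hcon
    push Not at hcon
    have := lev_mono s1 hcon
    omega
  obtain ⟨m, hm⟩ : ∃ m, Nat.find hex = m + 1 := ⟨Nat.find hex - 1, by omega⟩
  refine ⟨m, by omega, ?_, by rw [← hm]; exact hmin⟩
  have := Nat.find_min hex (m := m) (by omega)
  omega

theorem level_bound (_s0 : s 0 = 0) (s1 : ∀ n, s (n + 1) = s n + (L n).length)
    (hL : ∀ n, seg T (s n) (L n).length = L n)
    (hinf : ∀ K, ∃ n0, ∀ n, n0 ≤ n → K ≤ (L n).length) {f : List ℕ} {C : ℕ}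
    (hC : ∀ n, cnt f (L n) ≤ C) :
    ∀ K, ∃ N, ∀ i, N ≤ i → cnt f (seg T i K) ≤ 2 * C + f.length := by
  intro K
  obtain ⟨n0, hn0⟩ := hinf (K + 1)
  refine ⟨s n0, fun i hi => ?_⟩
  obtain ⟨n, h1, h2, h3⟩ := exists_level s1 (fun n hn => (by omega : 1 ≤ K + 1).trans (hn0 n hn)) hi
  have h4 := hn0 (n + 1) (by omega)
  have h5 : seg T (s n) ((L n).length + (L (n + 1)).length) = L n ++ L (n + 1) := by
    rw [seg_add, hL, ← s1, hL]
  have h6 : seg T i K <:+: L n ++ L (n + 1) := by
    rw [← h5]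
    apply seg_infix T h2
    have := s1 n
    omega
  have h7 := cnt_infix f h6
  have h8 := cnt_append_le f (L n) (L (n + 1))
  have h9 := hC n
  have h10 := hC (n + 1)
  omega

/-! ### (w11) -/

theorem level_up' (_s0 : s 0 = 0) (s1 : ∀ n, s (n + 1) = s n + (L n).length)
    (hL : ∀ n, seg T (s n) (L n).length = L n) (hne : ∀ n, L n ≠ [])
    (hper : ∃ n0 p, 1 ≤ p ∧ ∀ n, n0 ≤ n → L (n + p) = L n) : UPw T := by
  obtain ⟨n0, p, hp, hper⟩ := hper
  have hpos : ∀ n, 1 ≤ (L n).length := fun n => List.length_pos_iff.2 (hne n)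
  have hmono := lev_mono s1
  have hstep : ∀ k, s (n0 + k + p) = s (n0 + k) + (s (n0 + p) - s n0) := by
    intro k
    induction k with
    | zero =>
      have := hmono (by omega : n0 ≤ n0 + p)
      simp only [Nat.add_zero]
      omega
    | succ k ih =>
      have e1 : n0 + (k + 1) + p = (n0 + k + p) + 1 := by omega
      have e2 : n0 + (k + 1) = (n0 + k) + 1 := by omega
      rw [e1, e2, s1, s1, ih, hper (n0 + k) (by omega)]
      omega
  have hP : 1 ≤ s (n0 + p) - s n0 := by
    have h1 := s1 n0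
    have h2 := hmono (by omega : n0 + 1 ≤ n0 + p)
    have h3 := hpos n0
    omega
  refine ⟨s n0, s (n0 + p) - s n0, hP, fun k hk => ?_⟩
  obtain ⟨n, h1, h2, h3⟩ := exists_level s1 (fun n _ => hpos n) hk
  obtain ⟨m, rfl⟩ := Nat.exists_eq_add_of_le h1
  obtain ⟨j, rfl⟩ := Nat.exists_eq_add_of_le h2
  have hj : j < (L (n0 + m)).length := by
    have := s1 (n0 + m)
    omega
  have hj' : j < (L (n0 + m + p)).length := by rw [hper (n0 + m) h1]; exact hj
  have e1 : T (s (n0 + m) + j) = (L (n0 + m)).getD j 0 := by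
    rw [← getD_seg T (s (n0 + m)) (L (n0 + m)).length j 0 hj, hL]
  have e2 : T (s (n0 + m + p) + j) = (L (n0 + m + p)).getD j 0 := by
    rw [← getD_seg T (s (n0 + m + p)) (L (n0 + m + p)).length j 0 hj', hL]
  have e3 : s (n0 + m) + j + (s (n0 + p) - s n0) = s (n0 + m + p) + j := by
    rw [hstep m]; omega
  rw [e3, e1, e2, hper (n0 + m) h1]

end levels

/-! ### (w6), (w7), (w8) -/

theorem window_IOc {T : ℕ → ℕ} (hT : ∃ B, ∀ i, T i < B) (n : ℕ) :
    ∃ N, ∀ i, N ≤ i → IOc T (seg T i n) := by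
  obtain ⟨B, hB⟩ := hT
  let F : ℕ → (Fin n → Fin B) := fun i j => ⟨T (i + j), hB _⟩
  have hfin : {i | {j | F j = F i}.Finite}.Finite := by
    have : {i | {j | F j = F i}.Finite} ⊆
        ⋃ v ∈ {v : Fin n → Fin B | {j | F j = v}.Finite}, {j | F j = v} := by
      intro i hi
      simp only [Set.mem_iUnion]
      exact ⟨F i, hi, rfl⟩
    refine Set.Finite.subset (Set.Finite.biUnion (Set.toFinite _) fun v hv => hv) this
  obtain ⟨N, hN⟩ := hfin.bddAbove
  refine ⟨N + 1, fun i hi M => ?_⟩
  have hi' : ¬ {j | F j = F i}.Finite := by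
    intro h
    have := hN h
    omega
  have hi'' : {j | F j = F i}.Infinite := hi'
  obtain ⟨j, hj, hj'⟩ := hi''.exists_gt M
  refine ⟨j, by omega, ?_⟩
  rw [length_seg]
  apply seg_congr
  intro k hk
  have := congrFun hj ⟨k, hk⟩
  exact congrArg Fin.val this

theorem UPw_of_windows' {T : ℕ → ℕ} (hT : ∃ B, ∀ i, T i < B) {p : ℕ} (hp : 1 ≤ p)
    (h : ∀ f, IOc T f → f.length = p + 1 → f.getD 0 0 = f.getD p 0) : UPw T := by
  obtain ⟨N, hN⟩ := window_IOc hT (p + 1)
  refine ⟨N, p, hp, fun k hk => ?_⟩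
  have h1 := h _ (hN k hk) (by simp)
  rw [getD_seg _ _ _ _ _ (by omega), getD_seg _ _ _ _ _ (by omega)] at h1
  exact h1.symm

theorem windows_of_UPw {T : ℕ → ℕ} (h : UPw T) :
    ∃ p, 1 ≤ p ∧ ∀ f, IOc T f → ∀ j, j + p < f.length → f.getD j 0 = f.getD (j + p) 0 := by
  obtain ⟨N, p, hp, hper⟩ := h
  refine ⟨p, hp, fun f hf j hj => ?_⟩
  obtain ⟨i, hi, hfi⟩ := hf N
  have h1 := (seg_eq_iff T i f).1 hfi
  rw [← h1 j (by omega), ← h1 (j + p) hj, ← Nat.add_assoc, hper (i + j) (by omega)]

end Sp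

end SUBST
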