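import Pool.Agent.Work.SUBST.Poly1
import Pool.Agent.Work.SUBST.SpW

/-!
# Polynomial growth, part 2: occurrences in rays
-/

set_option autoImplicit false

namespace SUBST

namespace Sp

variable {A : Type} [DecidableEq A]

/-- orientation of a word -/
def sgn (e : Bool) (f : List ℕ) : List ℕ := if e then f.reverse else f

theorem sgn_false (f : List ℕ) : sgn false f = f := rfl
theorem sgn_true (f : List ℕ) : sgn true f = f.reverse := rfl

theorem sgn_sgn (e d : Bool) (f : List ℕ) : sgn e (sgn d f) = sgn (xor e d) f := by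
  cases e <;> cases d <;> simp [sgn]

theorem length_sgn (e : Bool) (f : List ℕ) : (sgn e f).length = f.length := by
  cases e <;> simp [sgn]

theorem sgn_ne_nil {e : Bool} {f : List ℕ} (h : f ≠ []) : sgn e f ≠ [] := by
  cases e <;> simp [sgn, h]

theorem sgn_infix {e : Bool} {f g : List ℕ} (h : f <:+: g) : sgn e f <:+: sgn e g := by
  cases e
  · exact h
  · exact List.reverse_infix.2 h

/-- orientation of a system -/
def Sy (e : Bool) (S : ASys A) : ASys A := if e then rev S else S

theorem PS.sy {S : ASys A} (h : PS S) (e : Bool) : PS (Sy e S) := by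
  cases e
  · exact h
  · exact h.rev

theorem sig_sy {S : ASys A} {c : A} (e : Bool) : c ∈ (Sy e S).σ c ↔ c ∈ S.σ c := by
  cases e
  · exact Iff.rfl
  · change c ∈ (S.σ c).reverse ↔ _
    rw [List.mem_reverse]

/-- rays that meet the levels of `c` -/
def TT (S : ASys A) (c : A) (t : Bool × A) : Prop :=
  t.2 ∈ S.σ t.2 ∧ bet (Sy t.1 S) t.2 ≠ [] ∧ ∃ b ∈ bet S c, Rch S b t.2

/-- the ray of an index -/
def rayt (S : ASys A) (t : Bool × A) : ℕ → ℕ := ray (Sy t.1 S) t.2

theorem seg_ray_of_le {S : ASys A} (h : PS S) {c : A} (hb : bet S c ≠ []) {k n : ℕ} (hk : k ≤ n) :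
    seg (ray S c) 0 k <+: PR S c n := by
  rw [PR_seg h hb n]
  exact seg_prefix _ _ (hk.trans (PR_len h hb n))

/-- the levels are windows of the ray -/
theorem seg_level {S : ASys A} (h : PS S) {c : A} (hb : bet S c ≠ []) (n : ℕ) :
    seg (ray S c) (PR S c n).length (S.W n (bet S c)).length = S.W n (bet S c) := by
  have h1 := PR_seg h hb (n + 1)
  have h2 : (PR S c (n + 1)).length = (PR S c n).length + (S.W n (bet S c)).length := by
    change (PR S c n ++ S.W n (bet S c)).length = _
    rw [List.length_append]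
  rw [h2, seg_add, zero_add] at h1
  have h3 : PR S c (n + 1) = PR S c n ++ S.W n (bet S c) := rfl
  rw [h3] at h1
  exact (List.append_inj' h1 (by rw [length_seg])).2.symm

theorem seg_of_infix {T : ℕ → ℕ} {i n : ℕ} {f : List ℕ} (h : f <:+: seg T i n) :
    ∃ j, i ≤ j ∧ seg T j f.length = f := by
  obtain ⟨u, v, h⟩ := h
  refine ⟨i + u.length, by omega, ?_⟩
  have hn : n = (u.length + f.length) + v.length := by
    have := congrArg List.length h
    rw [length_seg] at this
    simp only [List.length_append] at this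
    omega
  rw [hn, seg_add, seg_add] at h
  have h1 := (List.append_inj' h (by rw [length_seg])).1
  exact (List.append_inj' h1 (by rw [length_seg])).2.symm

/-- a factor of infinitely many levels occurs infinitely often -/
theorem IOc_of_levels {S : ASys A} (h : PS S) {c : A} (hb : bet S c ≠ []) {f : List ℕ}
    (hf : ∀ N, ∃ n, N ≤ n ∧ f <:+: S.W n (bet S c)) : IOc (ray S c) f := by
  intro N
  obtain ⟨n, hn, hi⟩ := hf N
  rw [← seg_level h hb n] at hi
  obtain ⟨j, h1, h2⟩ := seg_of_infix hi
  exact ⟨j, le_trans (hn.trans (PR_len h hb n)) h1, h2⟩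

/-- an initial piece of a ray occurs infinitely often above it -/
theorem io_above {S : ASys A} (h : PS S) {c : A} (hb : bet S c ≠ []) {t : Bool × A}
    (ht : TT S c t) (k : ℕ) : IOc (ray S c) (sgn t.1 (seg (rayt S t) 0 k)) := by
  obtain ⟨e, d⟩ := t
  obtain ⟨h1, h2, b, h3, m, h4⟩ := ht
  simp only at h1 h2 h4 ⊢
  refine IOc_of_levels h hb fun N => ⟨(N + k) + m, by omega, ?_⟩
  obtain ⟨u, v, hu⟩ := List.append_of_mem (mem_it_of_mem h3 h4)
  have h5 : S.W ((N + k) + m) (bet S c) = S.W (N + k) u ++ (S.W (N + k) [d] ++ S.W (N + k) v) := by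
    rw [W_add, hu, show u ++ d :: v = u ++ ([d] ++ v) by simp, W_app, W_app]
  have h6 : sgn e (seg (rayt S (e, d)) 0 k) <:+: S.W (N + k) [d] := by
    rw [W_eq h h1]
    cases e
    · change seg (ray S d) 0 k <:+: _
      have h7 : seg (ray S d) 0 k <+: PR S d (N + k) := seg_ray_of_le h h2 (by omega)
      exact h7.isInfix.trans ((List.suffix_append _ _).trans (List.suffix_append _ _)).isInfix
    · change (seg (ray (rev S) d) 0 k).reverse <:+: _
      have h7 : seg (ray (rev S) d) 0 k <+: PR (rev S) d (N + k) :=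
        seg_ray_of_le h.rev h2 (by omega)
      exact (List.reverse_suffix.2 h7).isInfix.trans (List.prefix_append _ _).isInfix
  rw [h5]
  exact h6.trans ((List.prefix_append _ _).isInfix.trans (List.suffix_append _ _).isInfix)

/-- occurrences in the left part of the iterates are bounded if there are finitely many -/
theorem cnt_left {S : ASys A} (h : PS S) {b : A} {f : List ℕ}
    (hf : bet (rev S) b ≠ [] → ¬ IOc (ray (rev S) b) f.reverse) :
    ∃ C, ∀ n, cnt f (PR (rev S) b n).reverse ≤ C := by
  by_cases hb : bet (rev S) b = []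
  · refine ⟨0, fun n => ?_⟩
    have : PR (rev S) b n = [] := by
      induction n with
      | zero => rfl
      | succ n ih =>
        change PR (rev S) b n ++ (rev S).W n (bet (rev S) b) = []
        rw [ih, hb, W_nil]
        rfl
    rw [this]
    exact le_rfl
  · have h1 := hf hb
    unfold IOc at h1
    push Not at h1
    obtain ⟨N, hN⟩ := h1
    refine ⟨N + f.length, fun n => cnt_of_no fun t ht hlt hft => ?_⟩
    obtain ⟨s, rfl⟩ := hft
    rw [List.length_append] at hlt
    have h2 : s.reverse ++ f.reverse <+: PR (rev S) b n := by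
      have := List.reverse_prefix.2 ht
      rwa [List.reverse_append, List.reverse_reverse] at this
    rw [PR_seg h.rev hb n] at h2
    obtain ⟨w, hw⟩ := h2
    have h3 : (seg (ray (rev S) b) 0 (PR (rev S) b n).length).length =
        (s.length + f.length) + w.length := by
      rw [← hw]
      simp only [List.length_append, List.length_reverse]
    rw [length_seg] at h3
    rw [h3, seg_add, seg_add, zero_add] at hw
    have h4 := (List.append_inj' hw (by rw [length_seg])).1
    have h5 := (List.append_inj' h4 (by rw [length_seg]; simp)).2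
    refine hN s.length (by omega) ?_
    rw [List.length_reverse]
    exact h5.symm

theorem cnt_right {S : ASys A} (h : PS S) {b : A} {f : List ℕ} (hf0 : f ≠ [])
    (hf : bet S b ≠ [] → ¬ IOc (ray S b) f) : ∃ C, ∀ n, cnt f (PR S b n) ≤ C := by
  by_cases hb : bet S b = []
  · refine ⟨0, fun n => ?_⟩
    have : PR S b n = [] := by
      induction n with
      | zero => rfl
      | succ n ih =>
        change PR S b n ++ S.W n (bet S b) = []
        rw [ih, hb, W_nil]
        rfl
    rw [this]
    exact le_rfl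
  · obtain ⟨C, hC⟩ := cnt_bdd_of_not_IOc (hf hb)
    exact ⟨C, fun n => by rw [PR_seg h hb n]; exact hC _⟩

/-- bounded for letters, bounded for words -/
theorem cnt_word {S : ASys A} {f : List ℕ} {w : List A}
    (h : ∀ b ∈ w, ∃ C, ∀ n, cnt f (S.W n [b]) ≤ C) : ∃ C, ∀ n, cnt f (S.W n w) ≤ C := by
  induction w with
  | nil => exact ⟨0, fun n => by rw [W_nil]; exact le_rfl⟩
  | cons b w ih =>
    obtain ⟨C1, h1⟩ := h b List.mem_cons_self
    obtain ⟨C2, h2⟩ := ih fun d hd => h d (List.mem_cons_of_mem _ hd)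
    refine ⟨C1 + C2 + f.length, fun n => ?_⟩
    rw [show b :: w = [b] ++ w from rfl, W_app]
    have := cnt_append_le f (S.W n [b]) (S.W n w)
    have := h1 n
    have := h2 n
    omega

/-- finitely many occurrences in all rays: bounded in all blocks -/
theorem cnt_bounded [Finite A] {S : ASys A} (h : PS S) {c : A} {f : List ℕ} (hf0 : f ≠ [])
    (hf : ∀ t, TT S c t → ¬ IOc (rayt S t) (sgn t.1 f)) {b : A}
    (hb : ∃ b0 ∈ bet S c, Rch S b0 b) : ∃ C, ∀ n, cnt f (S.W n [b]) ≤ C := by
  induction b using (blw_wf S).induction with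
  | _ b ih =>
  obtain ⟨b0, hb0, hr⟩ := hb
  by_cases hc : b ∈ S.σ b
  · obtain ⟨C1, h1⟩ := cnt_left (f := f) h (b := b) fun hne =>
      hf (true, b) ⟨hc, hne, b0, hb0, hr⟩
    obtain ⟨C2, h2⟩ := cnt_right h (b := b) hf0 fun hne => hf (false, b) ⟨hc, hne, b0, hb0, hr⟩
    refine ⟨C1 + ((S.h b).length + C2) + f.length, fun n => ?_⟩
    rw [W_eq h hc]
    have a1 := cnt_append_le f (PR (rev S) b n).reverse (S.h b ++ PR S b n)
    have a2 := cnt_append_le' f (S.h b) (PR S b n)
    have a3 := h1 n
    have a4 := h2 n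
    omega
  · obtain ⟨C, hC⟩ := cnt_word (S := S) (f := f) (w := S.σ b) fun e he =>
      ih e (blw_of_not_mem h hc he) ⟨b0, hb0, hr.trans (Rch.of_mem he)⟩
    refine ⟨max C (cnt f (S.W 0 [b])), fun n => ?_⟩
    rcases n with _ | n
    · exact le_max_right _ _
    · rw [W_s, ap_one]
      exact (hC n).trans (le_max_left _ _)

/-- fact (i) -/
theorem exists_ray [Finite A] {S : ASys A} (h : PS S) {c : A} {f : List ℕ} (hf0 : f ≠ [])
    (hu : ∀ C, ∃ n, C < cnt f (S.W n (bet S c))) : ∃ t, TT S c t ∧ IOc (rayt S t) (sgn t.1 f) := by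
  by_contra hc
  push Not at hc
  obtain ⟨C, hC⟩ := cnt_word (S := S) (f := f) (w := bet S c) fun b hb =>
    cnt_bounded h hf0 hc ⟨b, hb, Rch.refl S b⟩
  obtain ⟨n, hn⟩ := hu C
  exact absurd (hC n) (not_le.2 hn)

end Sp

end SUBST
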