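import Pool.Agent.Work.SUBST.Growth

/-!
# Ratio limits
-/

set_option autoImplicit false

namespace SUBST

open Filter Topology

theorem q_zero (e d : ℕ) (r ρ : ℝ) (hr : 0 < r) (hρ : 0 < ρ) (h : r < ρ ∨ (r = ρ ∧ e < d)) :
    Tendsto (fun n : ℕ => ((n : ℝ) ^ e * r ^ n) / ((n : ℝ) ^ d * ρ ^ n)) atTop (𝓝 0) := by
  rcases h with h | ⟨h, h'⟩
  · have h1 := tendsto_pow_const_mul_const_pow_of_abs_lt_one e (r := r / ρ)
      (by rw [abs_of_pos (div_pos hr hρ), div_lt_one hρ]; exact h)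
    refine squeeze_zero' (Eventually.of_forall fun n => by positivity) ?_ h1
    filter_upwards [eventually_ge_atTop 1] with n hn
    have h2 : (1 : ℝ) ≤ (n : ℝ) ^ d := one_le_pow₀ (by exact_mod_cast hn)
    rw [div_pow, mul_div_assoc']
    have h3 : ρ ^ n ≤ (n : ℝ) ^ d * ρ ^ n := by
      have : 0 < ρ ^ n := pow_pos hρ n
      nlinarith
    exact div_le_div_of_nonneg_left (by positivity) (pow_pos hρ n) h3
  · subst h
    have h1 : Tendsto (fun n : ℕ => ((n : ℝ))⁻¹) atTop (𝓝 0) :=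
      tendsto_inv_atTop_zero.comp tendsto_natCast_atTop_atTop
    refine squeeze_zero' (Eventually.of_forall fun n => by positivity) ?_ h1
    filter_upwards [eventually_ge_atTop 1] with n hn
    have hn' : (1 : ℝ) ≤ (n : ℝ) := by exact_mod_cast hn
    have hn0 : (0 : ℝ) < n := by linarith
    obtain ⟨k, rfl⟩ := Nat.exists_eq_add_of_lt h'
    have h3 : ((n : ℝ) ^ e * r ^ n) / ((n : ℝ) ^ (e + k + 1) * r ^ n) = ((n : ℝ) ^ (k + 1))⁻¹ := by
      rw [add_assoc, pow_add]; field_simp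
    rw [h3]
    apply inv_anti₀ hn0
    calc (n : ℝ) = (n : ℝ) ^ 1 := (pow_one _).symm
      _ ≤ (n : ℝ) ^ (k + 1) := pow_le_pow_right₀ hn' (by omega)

theorem q_shift (d : ℕ) (ρ : ℝ) (hρ : 0 < ρ) :
    Tendsto (fun n : ℕ => (((n + 1 : ℕ) : ℝ) ^ d * ρ ^ (n + 1)) / ((n : ℝ) ^ d * ρ ^ n)) atTop
      (𝓝 ρ) := by
  have h1 : Tendsto (fun n : ℕ => (1 + ((n : ℝ))⁻¹) ^ d * ρ) atTop (𝓝 ρ) := by
    have h2 : Tendsto (fun n : ℕ => ((n : ℝ))⁻¹) atTop (𝓝 0) :=
      tendsto_inv_atTop_zero.comp tendsto_natCast_atTop_atTop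
    have := ((h2.const_add 1).pow d).mul_const ρ
    simpa using this
  refine h1.congr' ?_
  filter_upwards [eventually_ge_atTop 1] with n hn
  have hn0 : (0 : ℝ) < n := by exact_mod_cast hn
  have : (1 + ((n : ℝ))⁻¹) = ((n + 1 : ℕ) : ℝ) / n := by
    push_cast; field_simp
  rw [this, div_pow, pow_succ]
  field_simp

/-- Two sequences with exact asymptotics, one dominated by the other: the ratio converges. -/
theorem ratio_exists (u v : ℕ → ℝ) (hu : ∀ n, 0 < u n) (hv : ∀ n, 0 < v n) (K : ℝ)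
    (hK : ∀ n, v n ≤ K * u n) (C D ρ r : ℝ) (d e : ℕ) (hC : 0 < C) (hD : 0 < D) (hρ : 0 < ρ)
    (hr : 0 < r)
    (h1 : Tendsto (fun n : ℕ => u n / ((n : ℝ) ^ d * ρ ^ n)) atTop (𝓝 C))
    (h2 : Tendsto (fun n : ℕ => v n / ((n : ℝ) ^ e * r ^ n)) atTop (𝓝 D)) :
    ∃ l : ℝ, 0 ≤ l ∧ Tendsto (fun n : ℕ => v n / u n) atTop (𝓝 l) := by
  have hK0 : 0 < K := by
    have h3 := hK 0
    have h4 := hu 0
    have h5 := hv 0
    by_contra hcon
    push Not at hcon
    nlinarith
  have h3 : Tendsto (fun n : ℕ => (v n / ((n : ℝ) ^ e * r ^ n)) / (u n / ((n : ℝ) ^ d * ρ ^ n)))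
      atTop (𝓝 (D / C)) := h2.div h1 hC.ne'
  have h4 : ∀ᶠ n : ℕ in atTop, v n / u n =
      (v n / ((n : ℝ) ^ e * r ^ n)) / (u n / ((n : ℝ) ^ d * ρ ^ n)) *
        (((n : ℝ) ^ e * r ^ n) / ((n : ℝ) ^ d * ρ ^ n)) := by
    filter_upwards [eventually_ge_atTop 1] with n hn
    have hn0 : (0 : ℝ) < n := by exact_mod_cast hn
    have := hu n
    field_simp
  by_cases hcase : r < ρ ∨ (r = ρ ∧ e < d)
  · refine ⟨0, le_rfl, ?_⟩
    have h5 := h3.mul (q_zero e d r ρ hr hρ hcase)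
    rw [mul_zero] at h5
    exact h5.congr' (h4.mono fun n hn => hn.symm)
  · by_cases hcase2 : r = ρ ∧ e = d
    · obtain ⟨rfl, rfl⟩ := hcase2
      refine ⟨D / C, (div_pos hD hC).le, ?_⟩
      refine h3.congr' ?_
      filter_upwards [h4, eventually_ge_atTop 1] with n hn hn1
      have hn0 : (0 : ℝ) < n := by exact_mod_cast hn1
      rw [hn, div_self (by positivity), mul_one]
    · exfalso
      have hcase3 : ρ < r ∨ (ρ = r ∧ d < e) := by
        rcases lt_trichotomy r ρ with h | h | h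
        · exact absurd (Or.inl h) hcase
        · subst h
          rcases lt_trichotomy e d with h' | h' | h'
          · exact absurd (Or.inr ⟨rfl, h'⟩) hcase
          · exact absurd ⟨rfl, h'⟩ hcase2
          · exact Or.inr ⟨rfl, h'⟩
        · exact Or.inl h
      have h5 : Tendsto (fun n : ℕ => (u n / ((n : ℝ) ^ d * ρ ^ n)) / (v n / ((n : ℝ) ^ e * r ^ n)))
        atTop (𝓝 (C / D)) := h1.div h2 hD.ne'
      have h6 := h5.mul (q_zero d e ρ r hρ hr hcase3)
      rw [mul_zero] at h6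
      have h7 : Tendsto (fun n : ℕ => u n / v n) atTop (𝓝 0) := by
        refine h6.congr' ?_
        filter_upwards [eventually_ge_atTop 1] with n hn
        have hn0 : (0 : ℝ) < n := by exact_mod_cast hn
        have := hv n
        field_simp
      have h8 : K⁻¹ ≤ 0 := by
        refine ge_of_tendsto h7 (Eventually.of_forall fun n => ?_)
        rw [le_div_iff₀ (hv n), inv_mul_le_iff₀ hK0]
        exact hK n
      have : 0 < K⁻¹ := inv_pos.2 hK0
      linarith

section ratio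

variable {ι : Type*} [Fintype ι] [DecidableEq ι]

/-- **Ratio limits** with a root index `a`. `α = 1` means polynomial growth; if `1 < α` then the
growth is exponential. -/
theorem ratio_limits (M : ι → ι → ℕ) (hM : ∀ c, ∃ b, 0 < M c b) (a : ι) (haa : 0 < M a a)
    (hreach : ∀ c, Relation.ReflTransGen (fun x y => 0 < M x y) a c) :
    ∃ p, 1 ≤ p ∧ ∀ k, 1 ≤ k → ∀ w : ℕ → ι → ℕ, (∀ c, 1 ≤ w 0 c) →
      (∀ n c, w (n + 1) c = ∑ b, M c b * w n b) →
      ∃ (α : ℝ) (lam : ι → ℝ), 1 ≤ α ∧ (∀ c, 0 ≤ lam c) ∧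
        Tendsto (fun n : ℕ => (w (p * k * (n + 1)) a : ℝ) / (w (p * k * n) a : ℝ)) atTop (𝓝 α) ∧
        (∀ c, Tendsto (fun n : ℕ => (w (p * k * n) c : ℝ) / (w (p * k * n) a : ℝ)) atTop
          (𝓝 (lam c))) ∧
        (α = 1 → ∃ (K : ℝ) (d : ℕ), ∀ n : ℕ, (w (p * k * n) a : ℝ) ≤ K * ((n : ℝ) + 1) ^ d) ∧
        (1 < α → ∃ ε : ℝ, 0 < ε ∧ ∀ n : ℕ, ε * α ^ n ≤ (w (p * k * n) a : ℝ)) := by
  classical
  obtain ⟨p, hp, hgr⟩ := growth_mul M hM
  refine ⟨p, hp, fun k hk w hw0 hw => ?_⟩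
  have hw1 : ∀ n c, 1 ≤ w n c := by
    intro n
    induction n with
    | zero => exact hw0
    | succ n ih =>
      intro c
      rw [hw]
      obtain ⟨b, hb⟩ := hM c
      calc 1 = 1 * 1 := rfl
        _ ≤ M c b * w n b := Nat.mul_le_mul hb (ih b)
        _ ≤ _ := Finset.single_le_sum (f := fun b => M c b * w n b) (fun _ _ => Nat.zero_le _)
          (Finset.mem_univ b)
  obtain ⟨C, ρ, d, hC, hρ, hlim⟩ := hgr k hk w hw0 hw a
  set q := p * k with hq
  have hq1 : 1 ≤ q := Nat.mul_pos hp hk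
  have hρ0 : 0 < ρ := by linarith
  have hup : ∀ n, (0 : ℝ) < (w (q * n) a : ℝ) := fun n => by exact_mod_cast hw1 (q * n) a
  -- ratio of consecutive terms
  have hrat : Tendsto (fun n : ℕ => (w (q * (n + 1)) a : ℝ) / (w (q * n) a : ℝ)) atTop (𝓝 ρ) := by
    have h1 := (tendsto_add_atTop_iff_nat 1).2 hlim
    have h2 := (h1.div hlim hC.ne').mul (q_shift d ρ hρ0)
    rw [div_self hC.ne', one_mul] at h2
    refine h2.congr' ?_
    filter_upwards [eventually_ge_atTop 1] with n hn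
    have hn0 : (0 : ℝ) < n := by exact_mod_cast hn
    have hn1 : (0 : ℝ) < ((n + 1 : ℕ) : ℝ) := by positivity
    have := hup n
    simp only [Pi.div_apply]
    field_simp
  obtain ⟨K1, hK1⟩ := hrat.bddAbove_range
  have hK1' : ∀ n, (w (q * (n + 1)) a : ℝ) ≤ K1 * (w (q * n) a : ℝ) := by
    intro n
    have h1 := hK1 ⟨n, rfl⟩
    rwa [div_le_iff₀ (hup n)] at h1
  have hK1pos : 0 < K1 := by
    have h1 := hK1' 0
    have h2 := hup 1
    have h3 := hup 0
    by_contra hcon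
    push Not at hcon
    have h4 : K1 * (w (q * 0) a : ℝ) ≤ 0 := mul_nonpos_of_nonpos_of_nonneg hcon h3.le
    simp only [zero_add] at h1
    linarith
  have hKJ : ∀ J n : ℕ, (w (q * (n + J)) a : ℝ) ≤ K1 ^ J * (w (q * n) a : ℝ) := by
    intro J
    induction J with
    | zero => intro n; simp
    | succ J ih =>
      intro n
      have h1 := hK1' (n + J)
      calc (w (q * (n + (J + 1))) a : ℝ) ≤ K1 * (w (q * (n + J)) a : ℝ) := h1
        _ ≤ K1 * (K1 ^ J * (w (q * n) a : ℝ)) := mul_le_mul_of_nonneg_left (ih n) hK1pos.le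
        _ = K1 ^ (J + 1) * (w (q * n) a : ℝ) := by ring
  -- domination of all letters by the root
  have hmono : ∀ m j, w m a ≤ w (m + j) a := by
    intro m j
    induction j with
    | zero => exact le_rfl
    | succ j ih =>
      refine ih.trans ?_
      have : w (m + (j + 1)) a = ∑ b, M a b * w (m + j) b := hw (m + j) a
      rw [this]
      calc w (m + j) a = 1 * w (m + j) a := (one_mul _).symm
        _ ≤ M a a * w (m + j) a := Nat.mul_le_mul_right _ haa
        _ ≤ _ := Finset.single_le_sum (f := fun b => M a b * w (m + j) b)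
          (fun _ _ => Nat.zero_le _) (Finset.mem_univ a)
  have hdom : ∀ c, ∃ j, ∀ m, w m c ≤ w (m + j) a := by
    intro c
    have hc := hreach c
    induction hc with
    | refl => exact ⟨0, fun m => le_rfl⟩
    | tail _ hbc ih =>
      rename_i b e _
      obtain ⟨j, hj⟩ := ih
      refine ⟨j + 1, fun m => ?_⟩
      have h1 : w m e ≤ w (m + 1) b := by
        rw [hw]
        calc w m e = 1 * w m e := (one_mul _).symm
          _ ≤ M b e * w m e := Nat.mul_le_mul_right _ hbc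
          _ ≤ _ := Finset.single_le_sum (f := fun l => M b l * w m l) (fun _ _ => Nat.zero_le _)
            (Finset.mem_univ e)
      calc w m e ≤ w (m + 1) b := h1
        _ ≤ w (m + 1 + j) a := hj (m + 1)
        _ = w (m + (j + 1)) a := by congr 1; omega
  have hbd : ∀ c, ∃ K : ℝ, ∀ n, (w (q * n) c : ℝ) ≤ K * (w (q * n) a : ℝ) := by
    intro c
    obtain ⟨j, hj⟩ := hdom c
    refine ⟨K1 ^ j, fun n => ?_⟩
    have h1 : w (q * n) c ≤ w (q * (n + j)) a := by
      refine (hj (q * n)).trans ?_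
      have h2 : j ≤ q * j := Nat.le_mul_of_pos_left j hq1
      obtain ⟨t, ht⟩ := Nat.exists_eq_add_of_le h2
      have h3 := hmono (q * n + j) t
      have h4 : q * n + j + t = q * (n + j) := by rw [Nat.mul_add, ht]; omega
      rwa [h4] at h3
    have h2 : (w (q * n) c : ℝ) ≤ (w (q * (n + j)) a : ℝ) := by exact_mod_cast h1
    exact h2.trans (hKJ j n)
  have hlam : ∀ c, ∃ l : ℝ, 0 ≤ l ∧
      Tendsto (fun n : ℕ => (w (q * n) c : ℝ) / (w (q * n) a : ℝ)) atTop (𝓝 l) := by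
    intro c
    obtain ⟨D, r, e, hD, hr, hlim'⟩ := hgr k hk w hw0 hw c
    obtain ⟨K, hK⟩ := hbd c
    exact ratio_exists (fun n => (w (q * n) a : ℝ)) (fun n => (w (q * n) c : ℝ)) hup
      (fun n => by exact_mod_cast hw1 (q * n) c) K hK C D ρ r d e hC hD hρ0 (by linarith) hlim hlim'
  choose lam hlam0 hlam1 using hlam
  refine ⟨ρ, lam, hρ, hlam0, hrat, hlam1, ?_, ?_⟩
  · -- polynomial growth
    intro hρ1
    obtain ⟨K, hK⟩ := hlim.bddAbove_range
    refine ⟨max K (w (q * 0) a : ℝ), d, fun n => ?_⟩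
    rcases Nat.eq_zero_or_pos n with hn | hn
    · subst hn
      simp
    · have h1 := hK ⟨n, rfl⟩
      have hn0 : (0 : ℝ) < n := by exact_mod_cast hn
      simp only at h1
      rw [hρ1, one_pow, mul_one, div_le_iff₀ (by positivity)] at h1
      have hKpos : 0 ≤ K := by
        have h2 := hup n
        by_contra hcon
        push Not at hcon
        have : K * (n : ℝ) ^ d ≤ 0 := mul_nonpos_of_nonpos_of_nonneg hcon.le (by positivity)
        linarith
      calc (w (q * n) a : ℝ) ≤ K * (n : ℝ) ^ d := h1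
        _ ≤ K * ((n : ℝ) + 1) ^ d := by
          apply mul_le_mul_of_nonneg_left _ hKpos
          exact pow_le_pow_left₀ hn0.le (by linarith) d
        _ ≤ _ := mul_le_mul_of_nonneg_right (le_max_left _ _) (by positivity)
  · -- exponential growth
    intro _
    have h1 : ∀ᶠ n : ℕ in atTop, (C / 2) * ρ ^ n ≤ (w (q * n) a : ℝ) := by
      have h2 : ∀ᶠ n : ℕ in atTop, C / 2 < (w (q * n) a : ℝ) / ((n : ℝ) ^ d * ρ ^ n) :=
        hlim.eventually (lt_mem_nhds (by linarith))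
      filter_upwards [h2, eventually_ge_atTop 1] with n hn hn1
      have hn0 : (0 : ℝ) < n := by exact_mod_cast hn1
      rw [lt_div_iff₀ (by positivity)] at hn
      have h3 : (1 : ℝ) ≤ (n : ℝ) ^ d := one_le_pow₀ (by exact_mod_cast hn1)
      have h4 : ρ ^ n ≤ (n : ℝ) ^ d * ρ ^ n := by
        have : 0 < ρ ^ n := pow_pos hρ0 n
        nlinarith
      have h5 : (C / 2) * ρ ^ n ≤ (C / 2) * ((n : ℝ) ^ d * ρ ^ n) :=
        mul_le_mul_of_nonneg_left h4 (by linarith)
      linarith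
    obtain ⟨n0, hn0⟩ := eventually_atTop.1 h1
    -- finitely many small indices
    refine ⟨min (C / 2) ((ρ ^ n0)⁻¹), lt_min (by linarith) (by positivity), fun n => ?_⟩
    rcases le_total n0 n with h | h
    · refine le_trans ?_ (hn0 n h)
      exact mul_le_mul_of_nonneg_right (min_le_left _ _) (by positivity)
    · have h2 : (1 : ℝ) ≤ (w (q * n) a : ℝ) := by exact_mod_cast hw1 (q * n) a
      refine le_trans ?_ h2
      calc min (C / 2) ((ρ ^ n0)⁻¹) * ρ ^ n ≤ (ρ ^ n0)⁻¹ * ρ ^ n :=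
            mul_le_mul_of_nonneg_right (min_le_right _ _) (by positivity)
        _ ≤ (ρ ^ n0)⁻¹ * ρ ^ n0 :=
            mul_le_mul_of_nonneg_left (pow_le_pow_right₀ hρ h) (by positivity)
        _ = 1 := inv_mul_cancel₀ (by positivity)

end ratio

end SUBST
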