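import Pool.Agent.Work.SUBST.Defs

/-!
# General tools for recursively enumerable predicates
-/

set_option autoImplicit false

namespace SUBST

section General

variable {α β γ : Type} [Primcodable α] [Primcodable β] [Primcodable γ]

/-- A predicate in explicit `Σ₁` form. -/
def SF (p : α → Prop) : Prop :=
  ∃ f : α → ℕ → Bool, Computable₂ f ∧ ∀ a, p a ↔ ∃ n, f a n = true

theorem SF.of_eq {p q : α → Prop} (hp : SF p) (h : ∀ a, p a ↔ q a) : SF q := by
  obtain ⟨f, hf, H⟩ := hp
  exact ⟨f, hf, fun a => (h a).symm.trans (H a)⟩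

theorem SF.of_computable {p : α → Prop} (hp : ComputablePred p) : SF p := by
  obtain ⟨f, hf, rfl⟩ := ComputablePred.computable_iff.1 hp
  refine ⟨fun a _ => f a, hf.comp Computable.fst, fun a => ?_⟩
  simp

theorem SF.of_primrec {p : α → Prop} (hp : PrimrecPred p) : SF p :=
  SF.of_computable hp.computablePred

theorem SF.comp {p : β → Prop} (hp : SF p) {g : α → β} (hg : Computable g) :
    SF fun a => p (g a) := by
  obtain ⟨f, hf, H⟩ := hp
  refine ⟨fun a n => f (g a) n, ?_, fun a => H (g a)⟩
  exact hf.comp (hg.comp Computable.fst) Computable.snd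

theorem SF.and {p q : α → Prop} (hp : SF p) (hq : SF q) : SF fun a => p a ∧ q a := by
  obtain ⟨f, hf, Hf⟩ := hp
  obtain ⟨g, hg, Hg⟩ := hq
  refine ⟨fun a n => f a n.unpair.1 && g a n.unpair.2, ?_, fun a => ?_⟩
  · have h1 : Computable fun x : α × ℕ => f x.1 x.2.unpair.1 :=
      hf.comp Computable.fst
        (Computable.fst.comp (Computable.unpair.comp Computable.snd))
    have h2 : Computable fun x : α × ℕ => g x.1 x.2.unpair.2 :=
      hg.comp Computable.fst
        (Computable.snd.comp (Computable.unpair.comp Computable.snd))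
    exact Primrec.and.to_comp.comp h1 h2
  · constructor
    · rintro ⟨h1, h2⟩
      obtain ⟨n, hn⟩ := (Hf a).1 h1
      obtain ⟨m, hm⟩ := (Hg a).1 h2
      exact ⟨Nat.pair n m, by simp [hn, hm]⟩
    · rintro ⟨n, hn⟩
      rw [Bool.and_eq_true] at hn
      exact ⟨(Hf a).2 ⟨_, hn.1⟩, (Hg a).2 ⟨_, hn.2⟩⟩

theorem SF.or {p q : α → Prop} (hp : SF p) (hq : SF q) : SF fun a => p a ∨ q a := by
  obtain ⟨f, hf, Hf⟩ := hp
  obtain ⟨g, hg, Hg⟩ := hq
  refine ⟨fun a n => f a n || g a n, ?_, fun a => ?_⟩
  · have h1 : Computable fun x : α × ℕ => f x.1 x.2 := hf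
    have h2 : Computable fun x : α × ℕ => g x.1 x.2 := hg
    exact Primrec.or.to_comp.comp h1 h2
  · constructor
    · rintro (h | h)
      · obtain ⟨n, hn⟩ := (Hf a).1 h
        exact ⟨n, by simp [hn]⟩
      · obtain ⟨n, hn⟩ := (Hg a).1 h
        exact ⟨n, by simp [hn]⟩
    · rintro ⟨n, hn⟩
      rw [Bool.or_eq_true] at hn
      rcases hn with h | h
      · exact Or.inl ((Hf a).2 ⟨_, h⟩)
      · exact Or.inr ((Hg a).2 ⟨_, h⟩)

/-- Existential quantification over a coded type. -/
theorem SF.ex {p : α → β → Prop} (hp : SF fun x : α × β => p x.1 x.2) :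
    SF fun a => ∃ b, p a b := by
  obtain ⟨f, hf, Hf⟩ := hp
  refine ⟨fun a n => Option.casesOn (Encodable.decode (α := β) n.unpair.1) false
    (fun b => f (a, b) n.unpair.2), ?_, fun a => ?_⟩
  · have h1 : Computable fun x : α × ℕ => (Encodable.decode (α := β) x.2.unpair.1) :=
      Computable.decode.comp (Computable.fst.comp (Computable.unpair.comp Computable.snd))
    have h2 : Computable₂ fun (x : α × ℕ) (b : β) => f (x.1, b) x.2.unpair.2 := by
      refine hf.comp ?_ ?_
      · exact Computable.pair (Computable.fst.comp Computable.fst) Computable.snd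
      · exact Computable.snd.comp
          (Computable.unpair.comp (Computable.snd.comp Computable.fst))
    exact Computable.option_casesOn h1 (Computable.const false) h2
  · constructor
    · rintro ⟨b, hb⟩
      obtain ⟨n, hn⟩ := (Hf (a, b)).1 hb
      refine ⟨Nat.pair (Encodable.encode b) n, ?_⟩
      simp [hn]
    · rintro ⟨n, hn⟩
      have hn' : (Option.casesOn (Encodable.decode (α := β) n.unpair.1) false
        (fun b => f (a, b) n.unpair.2) : Bool) = true := hn
      rcases hd : (Encodable.decode (α := β) n.unpair.1) with _ | b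
      · rw [hd] at hn'
        simp at hn'
      · rw [hd] at hn'
        exact ⟨b, (Hf (a, b)).2 ⟨_, hn'⟩⟩

theorem SF.re {p : α → Prop} (hp : SF p) : REPred p := by
  obtain ⟨f, hf, Hf⟩ := hp
  have h0 : Computable₂ fun (a : α) (n : ℕ) => (cond (f a n) (some ()) none : Option Unit) := by
    exact Computable.cond hf (Computable.const _) (Computable.const _)
  have h1 := Partrec.rfindOpt h0
  refine (h1.dom_re).of_eq fun a => ?_
  rw [Hf a, Nat.rfindOpt_dom]
  constructor
  · rintro ⟨n, x, hx⟩
    refine ⟨n, ?_⟩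
    rcases hfn : f a n with _ | _
    · rw [hfn] at hx
      simp at hx
    · rfl
  · rintro ⟨n, hn⟩
    exact ⟨n, (), by rw [hn]; simp⟩

theorem sf_of_re {p : α → Prop} (hp : REPred p) : SF p := by
  have h1 : Nat.Partrec fun n => Part.bind (Encodable.decode (α := α) n) fun a =>
      (Part.assert (p a) fun _ => Part.some ()).map Encodable.encode := hp
  obtain ⟨c, hc⟩ := Nat.Partrec.Code.exists_code.1 h1
  refine ⟨fun a n => (Nat.Partrec.Code.evaln n c (Encodable.encode a)).isSome, ?_, fun a => ?_⟩
  · have h2 : Computable fun x : α × ℕ =>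
        Nat.Partrec.Code.evaln x.2 c (Encodable.encode x.1) :=
      Nat.Partrec.Code.primrec_evaln.to_comp.comp
        ((Computable.snd.pair (Computable.const c)).pair (Computable.encode.comp Computable.fst))
    exact Primrec.option_isSome.to_comp.comp h2
  · have h3 : p a ↔ (Nat.Partrec.Code.eval c (Encodable.encode a)).Dom := by
      rw [hc]
      simp only [Encodable.encodek, Part.coe_some, Part.bind_some]
      constructor
      · intro h
        exact ⟨h, trivial⟩
      · rintro ⟨h, -⟩
        exact h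
    rw [h3, Part.dom_iff_mem]
    constructor
    · rintro ⟨x, hx⟩
      obtain ⟨k, hk⟩ := Nat.Partrec.Code.evaln_complete.1 hx
      refine ⟨k, ?_⟩
      show (Nat.Partrec.Code.evaln k c (Encodable.encode a)).isSome = true
      rw [Option.mem_def.1 hk]
      rfl
    · rintro ⟨k, hk⟩
      obtain ⟨x, hx⟩ := Option.isSome_iff_exists.1 hk
      exact ⟨x, Nat.Partrec.Code.evaln_sound (Option.mem_def.2 hx)⟩

theorem sf_iff_re {p : α → Prop} : SF p ↔ REPred p := ⟨SF.re, sf_of_re⟩

/-- Uniformisation of two r.e. predicates covering everything. -/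
theorem exists_decider {A B : α → Prop} (hA : SF A) (hB : SF B) (h : ∀ a, A a ∨ B a) :
    ∃ f : α → Bool, Computable f ∧ (∀ a, f a = true → A a) ∧ (∀ a, ¬ B a → f a = true) := by
  obtain ⟨f, hf, Hf⟩ := hA
  obtain ⟨g, hg, Hg⟩ := hB
  have hex : ∀ a, ∃ n, (f a n || g a n) = true := by
    intro a
    rcases h a with h | h
    · obtain ⟨n, hn⟩ := (Hf a).1 h
      exact ⟨n, by simp [hn]⟩
    · obtain ⟨n, hn⟩ := (Hg a).1 h
      exact ⟨n, by simp [hn]⟩
  have hc : Computable fun x : α × ℕ => (f x.1 x.2 || g x.1 x.2) :=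
    Primrec.or.to_comp.comp (show Computable fun x : α × ℕ => f x.1 x.2 from hf)
      (show Computable fun x : α × ℕ => g x.1 x.2 from hg)
  have hcp : ComputablePred (fun x : α × ℕ => (f x.1 x.2 || g x.1 x.2) = true) := by
    refine ComputablePred.computable_iff.2 ⟨_, hc, rfl⟩
  have hfind : Computable (fun a => Nat.find (hex a)) :=
    Computable.find (P := fun a n => (f a n || g a n) = true) hcp hex
  refine ⟨fun a => f a (Nat.find (hex a)), hf.comp Computable.id hfind, ?_, ?_⟩
  · intro a ha
    exact (Hf a).2 ⟨_, ha⟩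
  · intro a ha
    have h1 := Nat.find_spec (hex a)
    rw [Bool.or_eq_true] at h1
    rcases h1 with h1 | h1
    · exact h1
    · exact absurd ((Hg a).2 ⟨_, h1⟩) ha

end General

/-! ### Primitive recursive operations on words -/

section Ops

variable {α : Type} [Primcodable α]

theorem prim_app {f : α → List (List ℕ)} {g : α → List ℕ} (hf : Primrec f) (hg : Primrec g) :
    Primrec fun a => app (f a) (g a) := by
  refine Primrec.list_flatMap hg ?_
  exact (Primrec.list_getD ([] : List ℕ)).comp (hf.comp Primrec.fst) Primrec.snd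

theorem prim_it {f : α → List (List ℕ)} {n : α → ℕ} {g : α → List ℕ}
    (hf : Primrec f) (hn : Primrec n) (hg : Primrec g) :
    Primrec fun a => it (f a) (n a) (g a) := by
  refine Primrec.nat_iterate (h := fun a w => app (f a) w) hn hg ?_
  exact prim_app (hf.comp Primrec.fst) Primrec.snd

theorem prim_cod {f : α → List ℕ} {g : α → List ℕ} (hf : Primrec f) (hg : Primrec g) :
    Primrec fun a => cod (f a) (g a) := by
  refine Primrec.list_map hg ?_
  exact (Primrec.list_getD (0 : ℕ)).comp (hf.comp Primrec.fst) Primrec.snd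

theorem prim_lev {s : α → List (List ℕ)} {m : α → ℕ} {w : α → List ℕ} {t : α → ℕ}
    {P : α → List ℕ} (hs : Primrec s) (hm : Primrec m) (hw : Primrec w) (ht : Primrec t)
    (hP : Primrec P) : Primrec fun a => lev (s a) (m a) (w a) (t a) (P a) := by
  refine Primrec.nat_iterate (h := fun a Z => it (s a) (m a) Z ++ w a) ht hP ?_
  exact Primrec.list_append.comp
    (prim_it (hs.comp Primrec.fst) (hm.comp Primrec.fst) Primrec.snd) (hw.comp Primrec.fst)

theorem prim_prefix {f g : α → List ℕ} (hf : Primrec f) (hg : Primrec g) :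
    PrimrecPred fun a => f a <+: g a := by
  have h : PrimrecPred fun a => f a = (g a).take (f a).length := by
    refine Primrec.eq.comp hf ?_
    exact Primrec.list_take.comp (Primrec.list_length.comp hf) hg
  refine h.of_eq fun a => ?_
  rw [List.prefix_iff_eq_take]

theorem prim_pow : Primrec₂ ((· ^ ·) : ℕ → ℕ → ℕ) :=
  Primrec₂.unpaired'.1 Nat.Primrec.pow

end Ops

end SUBST
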