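import Pool.Agent.Work.SUBST.Lev

/-!
# Reduction of a valid raw system: mortal letters (raw part)
-/

set_option autoImplicit false

namespace SUBST

/-- A letter is immortal. -/
def Imm (σ : List (List ℕ)) (c : ℕ) : Prop := ∀ n, it σ n [c] ≠ []

/-- Reachable immortal letters. -/
def RI (S : Sys) : Set ℕ := {c | (∃ n, c ∈ it S.1 n [S.2.2]) ∧ Imm S.1 c}

lemma it_singleton_mem {σ : List (List ℕ)} {n : ℕ} {w : List ℕ} {c : ℕ} (hc : c ∈ w)
    (h : it σ n w = []) : it σ n [c] = [] := by
  rw [it_flatMap, List.flatMap_eq_nil_iff] at h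
  exact h c hc

lemma it_one (σ : List (List ℕ)) (c : ℕ) : it σ 1 [c] = σ.getD c [] := by
  have : it σ 1 [c] = app σ [c] := rfl
  rw [this, app, List.flatMap_cons, List.flatMap_nil, List.append_nil]

lemma it_nil_of_le {σ : List (List ℕ)} {n m : ℕ} (hnm : n ≤ m) {w : List ℕ}
    (h : it σ n w = []) : it σ m w = [] := by
  obtain ⟨k, rfl⟩ := Nat.exists_eq_add_of_le hnm
  rw [Nat.add_comm, it_add, h, it_nil]

/-- Reachable letters are letters of the alphabet. -/
lemma reach_lt {S : Sys} (hS : Valid S) {n : ℕ} : ∀ c ∈ it S.1 n [S.2.2], c < S.1.length := by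
  induction n with
  | zero =>
    intro c hc
    have : c = S.2.2 := by simpa [it] using hc
    rw [this]; exact hS.1
  | succ n ih =>
    intro c hc
    rw [it_succ, app, List.mem_flatMap] at hc
    obtain ⟨d, hd, hc⟩ := hc
    have hd2 := ih d hd
    rw [List.getD_eq_getElem _ _ hd2] at hc
    exact hS.2.1 _ (List.getElem_mem hd2) c hc

/-- Mortality bound. -/
lemma exists_mort (σ : List (List ℕ)) (L : ℕ) :
    ∃ m, ∀ c < L, ¬ Imm σ c → it σ m [c] = [] := by
  classical
  have h : ∀ c, ∃ n, ¬ Imm σ c → it σ n [c] = [] := by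
    intro c
    by_cases hc : Imm σ c
    · exact ⟨0, fun h => absurd hc h⟩
    · rw [Imm] at hc
      push Not at hc
      obtain ⟨n, hn⟩ := hc
      exact ⟨n, fun _ => hn⟩
  choose f hf using h
  refine ⟨(Finset.range L).sup f, fun c hc hm => ?_⟩
  exact it_nil_of_le (Finset.le_sup (f := f) (Finset.mem_range.2 hc)) (hf c hm)

/-- Children of mortal letters are mortal. -/
lemma imm_of_child {σ : List (List ℕ)} {c d : ℕ} (hd : d ∈ σ.getD c []) (h : Imm σ d) :
    Imm σ c := by
  intro n
  cases n with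
  | zero => simp [it]
  | succ n =>
    intro h0
    rw [it_add, it_one] at h0
    exact h n (it_singleton_mem hd h0)

open Classical in
/-- Restriction of a word. -/
noncomputable def res (S : Sys) (w : List ℕ) : List (RI S) :=
  w.filterMap fun x => if h : x ∈ RI S then some ⟨x, h⟩ else none

open Classical in
lemma res_val (S : Sys) (w : List ℕ) :
    (res S w).map Subtype.val = w.filter (fun x => decide (x ∈ RI S)) := by
  induction w with
  | nil => rfl
  | cons x w ih =>
    by_cases hx : x ∈ RI S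
    · simp only [res, List.filterMap_cons, hx, dif_pos, List.map_cons, List.filter_cons,
        decide_true, if_true]
      rw [← ih]
      rfl
    · simp only [res, List.filterMap_cons, hx, dif_neg, not_false_iff, List.filter_cons,
        decide_false, Bool.false_eq_true, if_false]
      rw [← ih]
      rfl

lemma res_append (S : Sys) (u v : List ℕ) : res S (u ++ v) = res S u ++ res S v := by
  classical
  rw [res, res, res, List.filterMap_append]

lemma res_of_mem {S : Sys} {x : ℕ} (hx : x ∈ RI S) : res S [x] = [⟨x, hx⟩] := by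
  classical
  simp [res, hx]

/-- Words of reachable letters: deleting the mortal ones does not change the `m`-th image. -/
lemma it_res {S : Sys} {m : ℕ} (hm : ∀ c < S.1.length, ¬ Imm S.1 c → it S.1 m [c] = [])
    {w : List ℕ} (hw : ∀ c ∈ w, c < S.1.length ∧ ∃ n, c ∈ it S.1 n [S.2.2]) :
    it S.1 m ((res S w).map Subtype.val) = it S.1 m w := by
  classical
  rw [res_val]
  induction w with
  | nil => rfl
  | cons x w ih =>
    have hx := hw x List.mem_cons_self
    have ih' := ih fun c hc => hw c (List.mem_cons_of_mem _ hc)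
    have e : x :: w = [x] ++ w := rfl
    by_cases h : x ∈ RI S
    · rw [List.filter_cons, if_pos (by simpa using h)]
      have e2 : ∀ l : List ℕ, x :: l = [x] ++ l := fun _ => rfl
      rw [e2, it_append, ih', e, it_append]
    · rw [List.filter_cons, if_neg (by simpa using h), ih', e, it_append,
        hm x hx.1 (fun h2 => h ⟨hx.2, h2⟩), List.nil_append]

lemma finite_RI {S : Sys} (hS : Valid S) : (RI S).Finite := by
  refine (Set.finite_lt_nat S.1.length).subset ?_
  rintro c ⟨⟨n, hn⟩, -⟩
  exact reach_lt hS c hn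

lemma reach_child {S : Sys} {c d : ℕ} (hc : ∃ n, c ∈ it S.1 n [S.2.2])
    (hd : d ∈ S.1.getD c []) : ∃ n, d ∈ it S.1 n [S.2.2] := by
  obtain ⟨n, hn⟩ := hc
  refine ⟨n + 1, ?_⟩
  rw [it_succ, app, List.mem_flatMap]
  exact ⟨c, hn, hd⟩

/-- Structure of the iterates of the start letter. -/
lemma it_start {S : Sys} {u : List ℕ} (hu : S.1.getD S.2.2 [] = S.2.2 :: u) (n : ℕ) :
    it S.1 (n + 1) [S.2.2] = it S.1 n [S.2.2] ++ it S.1 n u := by
  rw [it_add, it_one, hu]
  exact it_append S.1 n [S.2.2] u

/-- The tail of the start letter never dies. -/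
lemma tail_ne {S : Sys} (hS : Valid S) {u : List ℕ} (hu : S.1.getD S.2.2 [] = S.2.2 :: u)
    (m : ℕ) : it S.1 m u ≠ [] := by
  intro h
  have h1 : ∀ k, it S.1 (m + k) [S.2.2] = it S.1 m [S.2.2] := by
    intro k
    induction k with
    | zero => rfl
    | succ k ih =>
      rw [← Nat.add_assoc, it_start hu, ih, it_nil_of_le (Nat.le_add_right m k) h,
        List.append_nil]
  obtain ⟨n, hn⟩ := hS.2.2.2 (it S.1 m [S.2.2]).length
  have h2 := (it_prefix_of_le hS.prolong (le_max_right m n)).length_le
  obtain ⟨k, hk⟩ := Nat.exists_eq_add_of_le (le_max_left m n)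
  rw [hk, h1] at h2
  omega

lemma start_imm {S : Sys} (hS : Valid S) : Imm S.1 S.2.2 := by
  intro n h
  have h1 := (it_prefix_of_le hS.prolong (Nat.zero_le n)).length_le
  rw [h] at h1
  simp [it] at h1

lemma start_RI {S : Sys} (hS : Valid S) : S.2.2 ∈ RI S :=
  ⟨⟨0, by simp [it]⟩, start_imm hS⟩

/-- An immortal reachable letter has an immortal child. -/
lemma child_ne {S : Sys} {m : ℕ} (hS : Valid S)
    (hm : ∀ c < S.1.length, ¬ Imm S.1 c → it S.1 m [c] = []) {c : ℕ} (hc : c ∈ RI S) :
    res S (S.1.getD c []) ≠ [] := by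
  intro h
  have h1 : ∀ d ∈ S.1.getD c [], d < S.1.length ∧ ∃ n, d ∈ it S.1 n [S.2.2] := by
    intro d hd
    obtain ⟨n, hn⟩ := reach_child hc.1 hd
    exact ⟨reach_lt hS d hn, n, hn⟩
  have h2 := it_res hm h1
  rw [h, List.map_nil, it_nil, ← it_one, ← it_add] at h2
  exact hc.2 _ h2.symm

lemma mem_res {S : Sys} {w : List ℕ} {x : RI S} : x ∈ res S w ↔ (x : ℕ) ∈ w := by
  classical
  have h := res_val S w
  constructor
  · intro hx
    have h1 : (x : ℕ) ∈ (res S w).map Subtype.val := List.mem_map_of_mem hx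
    rw [h] at h1
    exact (List.mem_filter.1 h1).1
  · intro hx
    have h1 : (x : ℕ) ∈ w.filter (fun x => decide (x ∈ RI S)) :=
      List.mem_filter.2 ⟨hx, by simp⟩
    rw [← h] at h1
    obtain ⟨y, hy, hxy⟩ := List.mem_map.1 h1
    rwa [← Subtype.ext hxy]

end SUBST
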