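import Pool.Agent.Work.SUBST.Red
import Pool.Agent.Work.SUBST.Abs

/-!
# Reduction: the core joint implies completeness of the certificates
-/

set_option autoImplicit false

namespace SUBST

namespace R2

section api

variable {A : Type} (S : ASys A)

lemma ap_append (u v : List A) : S.ap (u ++ v) = S.ap u ++ S.ap v := by
  simp [ASys.ap, List.flatMap_append]

lemma it_succ (n : ℕ) (w : List A) : S.it (n + 1) w = S.ap (S.it n w) := by
  rw [ASys.it, ASys.it, Function.iterate_succ_apply']

lemma it_append (n : ℕ) (u v : List A) : S.it n (u ++ v) = S.it n u ++ S.it n v := by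
  induction n with
  | zero => rfl
  | succ n ih => rw [it_succ, it_succ, it_succ, ih, ap_append]

lemma it_add (m n : ℕ) (w : List A) : S.it (m + n) w = S.it m (S.it n w) := by
  rw [ASys.it, ASys.it, ASys.it, Function.iterate_add_apply]

end api

/-- The reduced system. -/
noncomputable def rsys (S : Sys) (hS : Valid S) (m : ℕ) : ASys (RI S) :=
  ⟨fun c => res S (S.1.getD c []), fun c => cod S.2.1 (SUBST.it S.1 m [(c : ℕ)]),
    ⟨S.2.2, start_RI hS⟩⟩

/-- The word upstairs. -/
def up (S : Sys) (m : ℕ) (w : List (RI S)) : List ℕ := SUBST.it S.1 m (w.map Subtype.val)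

section

variable {S : Sys} {hS : Valid S} {m : ℕ}

lemma up_append (u v : List (RI S)) : up S m (u ++ v) = up S m u ++ up S m v := by
  rw [up, List.map_append, SUBST.it_append]; rfl

lemma up_nil : up S m [] = [] := by rw [up, List.map_nil, it_nil]

lemma up_prefix {u v : List (RI S)} (h : u <+: v) : up S m u <+: up S m v := by
  obtain ⟨w, rfl⟩ := h
  rw [up_append]
  exact List.prefix_append _ _

lemma up_ap (hm : ∀ c < S.1.length, ¬ Imm S.1 c → SUBST.it S.1 m [c] = [])
    (w : List (RI S)) : up S m ((rsys S hS m).ap w) = app S.1 (up S m w) := by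
  induction w with
  | nil =>
    have : (rsys S hS m).ap [] = [] := rfl
    rw [this, up_nil]; rfl
  | cons c w ih =>
    have e : c :: w = [c] ++ w := rfl
    rw [e, ap_append, up_append, up_append, app_append, ih]
    congr 1
    have h1 : (rsys S hS m).ap [c] = res S (S.1.getD c []) := by
      rw [ASys.ap, List.flatMap_cons, List.flatMap_nil, List.append_nil]; rfl
    have h2 : ∀ d ∈ S.1.getD (c : ℕ) [], d < S.1.length ∧ ∃ n, d ∈ SUBST.it S.1 n [S.2.2] := by
      intro d hd
      obtain ⟨n, hn⟩ := reach_child c.2.1 hd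
      exact ⟨reach_lt hS d hn, n, hn⟩
    rw [h1, up, it_res hm h2, up, List.map_cons, List.map_nil, ← it_one, ← SUBST.it_add,
      ← SUBST.it_succ, Nat.add_comm]

lemma up_it (hm : ∀ c < S.1.length, ¬ Imm S.1 c → SUBST.it S.1 m [c] = [])
    (n : ℕ) (w : List (RI S)) :
    up S m ((rsys S hS m).it n w) = SUBST.it S.1 n (up S m w) := by
  induction n with
  | zero => rfl
  | succ n ih => rw [it_succ, up_ap hm, ih, ← SUBST.it_succ]

lemma out_eq (w : List (RI S)) :
    w.flatMap (rsys S hS m).h = cod S.2.1 (up S m w) := by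
  induction w with
  | nil => rw [up_nil]; rfl
  | cons c w ih =>
    have e : c :: w = [c] ++ w := rfl
    rw [e, List.flatMap_append, ih, up_append, cod_append]
    congr 1
    rw [List.flatMap_cons, List.flatMap_nil, List.append_nil]
    rfl

lemma W_eq (hm : ∀ c < S.1.length, ¬ Imm S.1 c → SUBST.it S.1 m [c] = [])
    (n : ℕ) (w : List (RI S)) :
    (rsys S hS m).W n w = cod S.2.1 (SUBST.it S.1 n (up S m w)) := by
  rw [ASys.W, out_eq, up_it hm]

lemma up_start : up S m [(rsys S hS m).a] = SUBST.it S.1 m [S.2.2] := rfl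

lemma W_start (hm : ∀ c < S.1.length, ¬ Imm S.1 c → SUBST.it S.1 m [c] = []) (n : ℕ) :
    (rsys S hS m).W n [(rsys S hS m).a] = cod S.2.1 (SUBST.it S.1 (n + m) [S.2.2]) := by
  rw [W_eq hm, up_start, ← SUBST.it_add]

lemma mem_it {n : ℕ} : ∀ x : RI S, (x : ℕ) ∈ SUBST.it S.1 n [S.2.2] →
    x ∈ (rsys S hS m).it n [(rsys S hS m).a] := by
  induction n with
  | zero =>
    intro x hx
    have h1 : (x : ℕ) = S.2.2 := by simpa [SUBST.it] using hx
    have h2 : x = (rsys S hS m).a := Subtype.ext h1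
    rw [h2]
    simp [ASys.it]
  | succ n ih =>
    intro x hx
    rw [SUBST.it_succ, app, List.mem_flatMap] at hx
    obtain ⟨d, hd, hx⟩ := hx
    have hd2 : d ∈ RI S := ⟨⟨n, hd⟩, imm_of_child hx x.2.2⟩
    rw [it_succ, ASys.ap, List.mem_flatMap]
    exact ⟨⟨d, hd2⟩, ih ⟨d, hd2⟩ hd, mem_res.2 hx⟩

lemma good (hm : ∀ c < S.1.length, ¬ Imm S.1 c → SUBST.it S.1 m [c] = []) :
    (rsys S hS m).Good := by
  refine ⟨fun c => child_ne hS hm c.2, fun c => ?_, ?_, fun c => ?_⟩
  · intro h
    have h1 : (cod S.2.1 (SUBST.it S.1 m [(c : ℕ)])).length = 0 := by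
      have : (rsys S hS m).h c = cod S.2.1 (SUBST.it S.1 m [(c : ℕ)]) := rfl
      rw [← this, h]; rfl
    rw [cod_length] at h1
    exact c.2.2 m (List.length_eq_zero_iff.1 h1)
  · obtain ⟨-, -, ⟨u, hu0, hu⟩, -⟩ := id hS
    refine ⟨res S u, ?_, ?_⟩
    · intro h
      have h1 : ∀ d ∈ u, d < S.1.length ∧ ∃ n, d ∈ SUBST.it S.1 n [S.2.2] := by
        intro d hd
        have h2 : ∃ n, d ∈ SUBST.it S.1 n [S.2.2] := by
          refine ⟨1, ?_⟩
          rw [it_one, hu]
          exact List.mem_cons_of_mem _ hd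
        obtain ⟨n, hn⟩ := h2
        exact ⟨reach_lt hS d hn, n, hn⟩
      have h2 := it_res hm h1
      rw [h, List.map_nil, it_nil] at h2
      exact tail_ne hS hu m h2.symm
    · have h1 : (rsys S hS m).σ (rsys S hS m).a = res S (S.1.getD S.2.2 []) := rfl
      rw [h1, hu]
      have e : S.2.2 :: u = [S.2.2] ++ u := rfl
      rw [e, res_append, res_of_mem (start_RI hS)]
      rfl
  · obtain ⟨n, hn⟩ := c.2.1
    exact ⟨n, mem_it c hn⟩

end

/-- The word of a valid raw system. -/
lemma exists_word {S : Sys} (hS : Valid S) : ∃ x : ℕ → ℕ, ∀ n k,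
    k < (SUBST.it S.1 n [S.2.2]).length →
    S.2.1.getD ((SUBST.it S.1 n [S.2.2]).getD k 0) 0 = x k := by
  choose f hf using hS.2.2.2
  refine ⟨fun k => S.2.1.getD ((SUBST.it S.1 (f k) [S.2.2]).getD k 0) 0, fun n k hk => ?_⟩
  rw [it_getD_eq hS.prolong hk (hf k)]

lemma isWord {S : Sys} (hS : Valid S) {m : ℕ}
    (hm : ∀ c < S.1.length, ¬ Imm S.1 c → SUBST.it S.1 m [c] = []) {x : ℕ → ℕ}
    (hx : ∀ n k, k < (SUBST.it S.1 n [S.2.2]).length →
      S.2.1.getD ((SUBST.it S.1 n [S.2.2]).getD k 0) 0 = x k) :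
    (rsys S hS m).IsWord x := by
  intro n
  rw [ASys.len, W_start hm]
  apply List.ext_getElem
  · simp
  · intro k h1 h2
    rw [cod_length] at h1
    have h3 := hx (n + m) k h1
    simp only [cod, List.getElem_map, List.getElem_range]
    rw [← h3, List.getD_eq_getElem _ _ h1]

lemma lev_up {S : Sys} {hS : Valid S} {m : ℕ}
    (hm : ∀ c < S.1.length, ¬ Imm S.1 c → SUBST.it S.1 m [c] = []) (M : ℕ)
    (w P : List (RI S)) (t : ℕ) :
    SUBST.lev S.1 M (up S m w) t (up S m P) = up S m ((rsys S hS m).lev M w t P) := by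
  induction t with
  | zero => rfl
  | succ t ih =>
    have h1 : (rsys S hS m).lev M w (t + 1) P =
        (rsys S hS m).it M ((rsys S hS m).lev M w t P) ++ w := by
      rw [ASys.lev, ASys.lev, Function.iterate_succ_apply']
    rw [h1, up_append, up_it hm, lev_succ, ih]

lemma up_ne {S : Sys} {m : ℕ} {w : List (RI S)} (hw : w ≠ []) : up S m w ≠ [] := by
  obtain ⟨c, w', rfl⟩ := List.exists_cons_of_ne_nil hw
  intro h
  have h1 : (c : ℕ) ∈ (c :: w').map Subtype.val := by simp
  exact c.2.2 m (it_singleton_mem h1 h)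

lemma levOK_up {S : Sys} (hS : Valid S) {m : ℕ}
    (hm : ∀ c < S.1.length, ¬ Imm S.1 c → SUBST.it S.1 m [c] = []) {M : ℕ}
    {P z w : List (RI S)} (h : (rsys S hS m).LevOK M P z w) : ∃ n0, ∀ n ≥ n0,
    SUBST.LevOK S M (up S m P) (up S m z) (up S m w) n := by
  obtain ⟨h1, h2, -, ⟨n, h3⟩, h4⟩ := h
  refine ⟨n + m, fun k hk => ⟨h1, up_ne h2, ?_, ?_⟩⟩
  · have h5 := up_prefix (m := m) h3
    rw [up_append, up_it hm, up_start, ← SUBST.it_add] at h5
    exact h5.trans (it_prefix_of_le hS.prolong hk)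
  · have h5 := up_prefix (m := m) h4
    rwa [up_append, up_it hm] at h5

theorem levelCert_of_acert {S T : Sys} (hS : Valid S) (hT : Valid T) {m m' : ℕ}
    (hm : ∀ c < S.1.length, ¬ Imm S.1 c → SUBST.it S.1 m [c] = [])
    (hm' : ∀ c < T.1.length, ¬ Imm T.1 c → SUBST.it T.1 m' [c] = [])
    (h : ACert (rsys S hS m) (rsys T hT m')) : LevelCert S T := by
  obtain ⟨M, N, P, z, w, Q, z', w', r, s, h1, h2, h3⟩ := h
  obtain ⟨n1, hn1⟩ := levOK_up hS hm h1
  obtain ⟨n2, hn2⟩ := levOK_up hT hm' h2
  refine ⟨M, N, max n1 n2, up S m P, up S m z, up S m w, up T m' Q, up T m' z', up T m' w',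
    r, s, hn1 _ (le_max_left _ _), hn2 _ (le_max_right _ _), fun t => ?_⟩
  rw [lev_up hm, lev_up hm', ← out_eq (hS := hS), ← out_eq (hS := hT)]
  exact h3 t

/-- An ultimately periodic word in the form `u v v v ...`. -/
lemma exists_upw {x : ℕ → ℕ} (hx : UPw x) : ∃ u v : List ℕ, v ≠ [] ∧ ∀ k, x k = upw u v k := by
  obtain ⟨N, p, hp, h⟩ := hx
  refine ⟨(List.range N).map x, (List.range p).map (fun i => x (N + i)), ?_, ?_⟩
  · intro h0
    have := congrArg List.length h0
    simp at this
    omega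
  · intro k
    rw [upw]
    simp only [List.length_map, List.length_range]
    split_ifs with hk
    · rw [List.getD_eq_getElem _ _ (by simpa using hk)]
      simp
    · have hlt : (k - N) % p < p := Nat.mod_lt _ (by omega)
      rw [List.getD_eq_getElem _ _ (by simpa using hlt)]
      simp only [List.getElem_map, List.getElem_range]
      have h1 : ∀ q r, x (N + (r + p * q)) = x (N + r) := by
        intro q r
        induction q with
        | zero => simp
        | succ q ih =>
          rw [← ih, ← h (N + (r + p * q)) (Nat.le_add_right _ _)]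
          congr 1
          ring
      have h2 := h1 ((k - N) / p) ((k - N) % p)
      rw [Nat.mod_add_div] at h2
      rw [← h2]
      congr 1
      omega

/-- The core joint implies completeness. -/
theorem complete_of_core (hC : Core) : Complete := by
  classical
  intro S T hS hT hST
  obtain ⟨x, hx⟩ := exists_word hS
  have hy : ∀ n k, k < (SUBST.it T.1 n [T.2.2]).length →
      T.2.1.getD ((SUBST.it T.1 n [T.2.2]).getD k 0) 0 = x k := by
    intro n k hk
    obtain ⟨n', hn'⟩ := hS.2.2.2 k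
    rw [← hST n' n k hn' hk]
    exact hx n' k hn'
  by_cases hup : UPw x
  · obtain ⟨u, v, hv, huv⟩ := exists_upw hup
    left
    refine ⟨u, v, hv, fun n k hk => ?_, fun n k hk => ?_⟩
    · rw [hx n k hk, huv]
    · rw [hy n k hk, huv]
  · right
    obtain ⟨m, hm⟩ := exists_mort S.1 S.1.length
    obtain ⟨m', hm'⟩ := exists_mort T.1 T.1.length
    have : Fintype (RI S) := (finite_RI hS).fintype
    have : Fintype (RI T) := (finite_RI hT).fintype
    exact levelCert_of_acert hS hT hm hm' (hC (RI S) (RI T) (rsys S hS m) (rsys T hT m') x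
      (good hm) (good hm') (isWord hS hm hx) (isWord hT hm' hy) hup)

end R2

end SUBST
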