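import Pool.Agent.Work.SUBST.Joints
import Pool.Agent.Work.SUBST.Limits
import Pool.Agent.Work.SUBST.Api

/-!
# The dichotomy: bounded period of a core letter, or no small periods
-/

set_option autoImplicit false

open Filter Topology

namespace SUBST

namespace Split

variable {A : Type}

theorem hasPer_infix {u v w : List ℕ} {q : ℕ} (h : HasPer (u ++ v ++ w) q) : HasPer v q := by
  intro i hi
  have h1 := h (u.length + i) (by simp; omega)
  have e1 : ∀ j, j < v.length → (u ++ v ++ w).getD (u.length + j) 0 = v.getD j 0 := by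
    intro j hj
    rw [List.append_assoc, List.getD_append_right _ _ _ _ (by omega),
      List.getD_append _ _ _ _ (by omega)]
    congr 1
    omega
  rw [e1 i (by omega), Nat.add_assoc, e1 (i + q) hi] at h1
  exact h1

/-- Number of occurrences in an image. -/
theorem count_flatMap_ge [DecidableEq A] (f : A → List A) (b e : A) (w : List A) :
    w.count b * (f b).count e ≤ (w.flatMap f).count e := by
  induction w with
  | nil => simp
  | cons c w ih =>
    rw [List.flatMap_cons, List.count_append, List.count_cons]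
    by_cases h : c = b
    · subst h
      simp only [beq_self_eq_true, if_true]
      rw [Nat.add_mul, one_mul]
      omega
    · have : (c == b) = false := by simpa using h
      rw [this]
      simp only [Bool.false_eq_true, if_false, add_zero]
      omega

theorem count_it_ge [DecidableEq A] (S : ASys A) (m : ℕ) (b e : A) (w : List A) :
    w.count b * (S.it m [b]).count e ≤ (S.it m w).count e := by
  rw [LimAux.it_flatMap S m w]
  exact count_flatMap_ge (fun c => S.it m [c]) b e w

variable [Fintype A] [DecidableEq A]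

theorem lw_eq_sum (lam : A → ℝ) (w : List A) : lw lam w = ∑ b, (w.count b : ℝ) * lam b := by
  unfold lw
  induction w with
  | nil => simp
  | cons c w ih =>
    rw [List.map_cons, List.sum_cons, ih]
    have h1 : ∀ b, ((c :: w).count b : ℝ) * lam b =
        (if c = b then lam b else 0) + (w.count b : ℝ) * lam b := by
      intro b
      rw [List.count_cons]
      by_cases h : c = b
      · simp [h]; ring
      · simp [h]
    simp_rw [h1, Finset.sum_add_distrib]
    simp

omit [DecidableEq A] [Fintype A] in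
theorem tendsto_word {S : ASys A} {α : ℝ} {lam : A → ℝ} (hL : S.Limits α lam) (w : List A) :
    Tendsto (fun n => (S.len n w : ℝ) / S.len n [S.a]) atTop (𝓝 (lw lam w)) := by
  induction w with
  | nil =>
    refine tendsto_const_nhds.congr fun n => ?_
    simp [lw]
  | cons c w ih =>
    have h1 : lw lam (c :: w) = lam c + lw lam w := by simp [lw]
    rw [h1]
    refine ((hL.2.2.2.2 c).add ih).congr fun n => ?_
    rw [LimAux.len_cons S n c w]
    push_cast
    rw [add_div]

omit [DecidableEq A] [Fintype A] in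
theorem tendsto_shift {S : ASys A} (hS : S.Good) {α : ℝ} {lam : A → ℝ} (hL : S.Limits α lam)
    (j : ℕ) : Tendsto (fun n => (S.len (n + j) [S.a] : ℝ) / S.len n [S.a]) atTop (𝓝 (α ^ j)) := by
  have hpos : ∀ n, (0 : ℝ) < (S.len n [S.a] : ℝ) := fun n => by
    exact_mod_cast LimAux.len_pos hS n S.a
  induction j with
  | zero =>
    refine tendsto_const_nhds.congr fun n => ?_
    rw [Nat.add_zero, pow_zero, div_self (hpos n).ne']
  | succ j ih =>
    have h1 := ((tendsto_add_atTop_iff_nat j).2 hL.2.2.2.1).mul ih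
    rw [pow_succ, mul_comm]
    refine h1.congr fun n => ?_
    have := hpos (n + j)
    have h2 : n + j + 1 = n + (j + 1) := rfl
    rw [h2]
    field_simp

omit [DecidableEq A] [Fintype A] in
theorem tendsto_word_shift {S : ASys A} (hS : S.Good) {α : ℝ} {lam : A → ℝ}
    (hL : S.Limits α lam) (j : ℕ) (w : List A) :
    Tendsto (fun n => (S.len (n + j) w : ℝ) / S.len n [S.a]) atTop (𝓝 (α ^ j * lw lam w)) := by
  have hpos : ∀ n, (0 : ℝ) < (S.len n [S.a] : ℝ) := fun n => by
    exact_mod_cast LimAux.len_pos hS n S.a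
  have h1 := (tendsto_shift hS hL j).mul ((tendsto_add_atTop_iff_nat j).2 (tendsto_word hL w))
  refine h1.congr fun n => ?_
  have := hpos (n + j)
  have := hpos n
  field_simp

omit [DecidableEq A] [Fintype A] in
/-- Weights of images. -/
theorem lw_it {S : ASys A} (hS : S.Good) {α : ℝ} {lam : A → ℝ} (hL : S.Limits α lam) (j : ℕ)
    (w : List A) : lw lam (S.it j w) = α ^ j * lw lam w := by
  have h1 := tendsto_word_shift hS hL j w
  have h2 := tendsto_word hL (S.it j w)
  refine tendsto_nhds_unique h2 (h1.congr fun n => ?_)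
  rw [LimAux.len_add]

/-- A letter of maximal growth has a descendant of maximal growth occurring three times in one of
its iterates (iterates of the power `p`). -/
theorem exists_core {S : ASys A} (hS : S.Good) {α : ℝ} {lam : A → ℝ} (hL : S.Limits α lam)
    (hα : 1 < α) (p : ℕ) (hp : 1 ≤ p) (c : A) (hc : 0 < lam c) :
    ∃ e, 0 < lam e ∧ (∃ j, e ∈ S.it (p * j) [c]) ∧ ∃ n, 1 ≤ n ∧ 3 ≤ (S.it (p * n) [e]).count e := by
  classical
  set R : A → Finset A := fun c => Finset.univ.filter fun b => 0 < lam b ∧ ∃ j, b ∈ S.it (p * j) [c]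
    with hR
  have hmem : ∀ c b, b ∈ R c ↔ 0 < lam b ∧ ∃ j, b ∈ S.it (p * j) [c] := by
    intro c b; simp [hR]
  have hself : ∀ c, 0 < lam c → c ∈ R c := fun c hc =>
    (hmem c c).2 ⟨hc, 0, by simp [ASys.it]⟩
  have htrans : ∀ c b, b ∈ R c → R b ⊆ R c := by
    intro c b hb d hd
    obtain ⟨_, j, hj⟩ := (hmem c b).1 hb
    obtain ⟨h1, i, hi⟩ := (hmem b d).1 hd
    refine (hmem c d).2 ⟨h1, i + j, ?_⟩
    rw [Nat.mul_add, LimAux.it_add, LimAux.it_flatMap, List.mem_flatMap]
    exact ⟨b, hj, hi⟩
  obtain ⟨e, he, hmin⟩ := Finset.exists_min_image (R c) (fun b => (R b).card) ⟨c, hself c hc⟩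
  have hbot : ∀ b ∈ R e, e ∈ R b := by
    intro b hb
    have h1 : R b ⊆ R e := htrans e b hb
    have h2 : b ∈ R c := htrans c e he hb
    have h3 := Finset.eq_of_subset_of_card_le h1 (hmin b h2)
    rw [h3]
    exact hself e ((hmem c e).1 he).1
  have hle : 0 < lam e := ((hmem c e).1 he).1
  refine ⟨e, hle, ((hmem c e).1 he).2, ?_⟩
  -- a level with many letters
  have hαp : 1 < α ^ p := one_lt_pow₀ hα (by omega)
  obtain ⟨n, hn⟩ : ∃ n : ℕ, (3 * ∑ b, lam b) / lam e < (α ^ p) ^ n := pow_unbounded_of_one_lt _ hαp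
  rw [div_lt_iff₀ hle] at hn
  have h1 : lw lam (S.it (p * n) [e]) = (α ^ p) ^ n * lam e := by
    rw [lw_it hS hL, pow_mul]; simp [lw]
  rw [← h1, lw_eq_sum, Finset.mul_sum] at hn
  obtain ⟨b, _, hb⟩ := Finset.exists_lt_of_sum_lt hn
  have hlb : 0 < lam b := by
    rcases (hL.2.1 b).eq_or_lt with h | h
    · rw [← h] at hb; simp at hb
    · exact h
  have hcb : 3 ≤ (S.it (p * n) [e]).count b := by
    have h2 := lt_of_mul_lt_mul_right hb hlb.le
    exact_mod_cast h2.le
  have hbR : b ∈ R e := (hmem e b).2 ⟨hlb, n, List.count_pos_iff.1 (by omega)⟩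
  obtain ⟨_, i, hi⟩ := (hmem b e).1 (hbot b hbR)
  have hi' : 1 ≤ (S.it (p * i) [b]).count e := List.count_pos_iff.2 hi
  have h3 := count_it_ge S (p * i) b e (S.it (p * n) [e])
  rw [← LimAux.it_add, ← Nat.mul_add] at h3
  have h4 : 3 ≤ (S.it (p * (i + n)) [e]).count e := by
    refine le_trans ?_ h3
    calc 3 = 3 * 1 := rfl
      _ ≤ _ := Nat.mul_le_mul hcb hi'
  refine ⟨i + n, ?_, h4⟩
  by_contra hcon
  have : i + n = 0 := by omega
  rw [this] at h4
  simp [ASys.it] at h4

/-- A power after which all core letters occur three times in their image. -/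
theorem exists_core_power (S : ASys A) : ∃ p, 1 ≤ p ∧ ∀ e, ∀ k, 1 ≤ k →
    (∃ n, 1 ≤ n ∧ 3 ≤ (S.it n [e]).count e) → 3 ≤ (S.it (p * k) [e]).count e := by
  classical
  have h1 : ∀ e : A, ∃ n, 1 ≤ n ∧ ((∃ n, 1 ≤ n ∧ 3 ≤ (S.it n [e]).count e) →
      3 ≤ (S.it n [e]).count e) := by
    intro e
    by_cases h : ∃ n, 1 ≤ n ∧ 3 ≤ (S.it n [e]).count e
    · obtain ⟨n, hn, hn'⟩ := h
      exact ⟨n, hn, fun _ => hn'⟩
    · exact ⟨1, le_rfl, fun h' => absurd h' h⟩
  choose nn hn1 hn2 using h1
  have hmul : ∀ e n k, 1 ≤ k → 3 ≤ (S.it n [e]).count e → 3 ≤ (S.it (n * k) [e]).count e := by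
    intro e n k hk h
    induction k with
    | zero => omega
    | succ k ih =>
      rcases Nat.eq_zero_or_pos k with h0 | h0
      · subst h0; simpa using h
      · have h2 := ih h0
        have h3 := count_it_ge S n e e (S.it (n * k) [e])
        rw [← LimAux.it_add] at h3
        have h4 : n * (k + 1) = n + n * k := by ring
        rw [h4]
        refine le_trans ?_ h3
        calc 3 ≤ 3 * 3 := by norm_num
          _ ≤ _ := Nat.mul_le_mul h2 h
  refine ⟨∏ e, nn e, Finset.one_le_prod' fun e _ => hn1 e, fun e k hk h => ?_⟩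
  obtain ⟨m, hm⟩ : nn e ∣ (∏ e, nn e) * k :=
    (Finset.dvd_prod_of_mem nn (Finset.mem_univ e)).mul_right k
  have hpos : 1 ≤ (∏ e, nn e) * k :=
    Nat.mul_pos (Finset.one_le_prod' fun e _ => hn1 e) hk
  rw [hm]
  refine hmul e _ m ?_ (hn2 e h)
  by_contra hcon
  have : m = 0 := by omega
  subst this
  omega

omit [DecidableEq A] [Fintype A] in
/-- Comparison of two blocks of maximal growth at bounded distance of levels. -/
theorem len_le_mul {S : ASys A} (hS : S.Good) {α : ℝ} {lam : A → ℝ} (hL : S.Limits α lam)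
    (j : ℕ) (c e : A) (he : 0 < lam e) :
    ∃ K : ℝ, 0 < K ∧ ∃ n1 : ℕ, ∀ n, n1 ≤ n → (S.len (n + j) [c] : ℝ) ≤ K * S.len n [e] := by
  have hpos : ∀ n (c : A), (0 : ℝ) < (S.len n [c] : ℝ) := fun n c => by
    exact_mod_cast LimAux.len_pos hS n c
  have h1 := tendsto_word_shift hS hL j [c]
  have h2 := tendsto_word hL [e]
  have h3 : lw lam [e] = lam e := by simp [lw]
  rw [h3] at h2
  have h4 := h1.div h2 he.ne'
  set l := α ^ j * lw lam [c] / lam e with hl
  have h5 : ∀ᶠ n in atTop, (S.len (n + j) [c] : ℝ) / S.len n [e] < |l| + 1 := by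
    have h6 : l < |l| + 1 := lt_of_le_of_lt (le_abs_self l) (lt_add_one _)
    filter_upwards [h4.eventually (gt_mem_nhds h6)] with n hn
    have e1 : (S.len (n + j) [c] : ℝ) / S.len n [e] =
        (S.len (n + j) [c] : ℝ) / S.len n [S.a] / (S.len n [e] / S.len n [S.a]) := by
      have := hpos n S.a
      have := hpos n e
      field_simp
    rw [e1]
    exact hn
  obtain ⟨n1, hn1⟩ := eventually_atTop.1 h5
  refine ⟨|l| + 1, by positivity, n1, fun n hn => ?_⟩
  have := hn1 n hn
  rw [div_lt_iff₀ (hpos n e)] at this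
  exact this.le

end Split

theorem Split.three_of_count {A : Type} [DecidableEq A] (w : List A) (e : A)
    (h : 3 ≤ w.count e) : Three w e := by
  have step : ∀ (w : List A) (k : ℕ), k + 1 ≤ w.count e →
      ∃ z w' : List A, w = z ++ e :: w' ∧ k ≤ w'.count e := by
    intro w k hk
    induction w with
    | nil => simp at hk
    | cons c w ih =>
      by_cases hc : c = e
      · subst hc
        refine ⟨[], w, rfl, ?_⟩
        rw [List.count_cons_self] at hk
        omega
      · rw [List.count_cons_of_ne hc] at hk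
        obtain ⟨z, w', hw, hw'⟩ := ih hk
        exact ⟨c :: z, w', by rw [hw]; rfl, hw'⟩
  obtain ⟨z0, w1, h1, h1'⟩ := step w 2 h
  obtain ⟨z1, w2, h2, h2'⟩ := step w1 1 h1'
  obtain ⟨z2, w3, h3, _⟩ := step w2 0 h2'
  exact ⟨z0, z1, z2, w3, by rw [h1, h2, h3]; simp⟩

open Split in
/-- **The dichotomy**, from the gap theorem for core letters. -/
theorem Split.split {A : Type} [Fintype A] [DecidableEq A] (S : ASys A) {α : ℝ} {lam : A → ℝ}
    (hS : S.Good) (hL : S.Limits α lam) (hα : 1 < α)
    (hgap : ∀ (p : ℕ) (e : A), 1 ≤ p → 3 ≤ (S.it p [e]).count e →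
      (∃ q m, 1 ≤ q ∧ ∀ n, m ≤ n → HasPer (S.W (p * n) [e]) q) ∨
      ∃ k0, ∀ n, k0 ≤ n → ∀ q, 1 ≤ q → HasPer (S.W (p * n) [e]) q →
        S.len (p * (n - k0)) [e] < 2 * q) :
    ∃ p, 1 ≤ p ∧ ((S.pow p).GapII lam ∨ CaseIData (S.pow p) lam) := by
  classical
  obtain ⟨p, hp, hcore⟩ := exists_core_power S
  refine ⟨p, hp, ?_⟩
  by_cases hI : ∃ (e : A) (q m : ℕ), 0 < lam e ∧ 1 ≤ q ∧ ∀ n, m ≤ n → HasPer (S.W (p * n) [e]) q
  · right
    obtain ⟨e, q, m, h1, h2, h3⟩ := hI
    refine ⟨e, q, m, h1, h2, fun n hn => ?_⟩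
    rw [LimAux.W_pow]
    exact h3 n hn
  · left
    -- every core letter satisfies the second alternative
    have hII : ∀ e, 0 < lam e → 3 ≤ (S.it p [e]).count e →
        ∃ k0, ∀ n, k0 ≤ n → ∀ q, 1 ≤ q → HasPer (S.W (p * n) [e]) q →
          S.len (p * (n - k0)) [e] < 2 * q := by
      intro e he h3
      rcases hgap p e hp h3 with ⟨q, m, h1, h2⟩ | h
      · exact absurd ⟨e, q, m, he, h1, h2⟩ hI
      · exact h
    -- for every maximal letter a constant
    have hc : ∀ c, ∃ ε : ℝ, 0 < ε ∧ ∃ n1 : ℕ, 0 < lam c → ∀ n, n1 ≤ n → ∀ q : ℕ, 1 ≤ q →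
        HasPer (S.W (p * n) [c]) q → ε * S.len (p * n) [c] ≤ q := by
      intro c
      by_cases hc : 0 < lam c
      · obtain ⟨e, he, ⟨j, hj⟩, n0, hn0, hn0'⟩ := exists_core hS hL hα p hp c hc
        have h3 : 3 ≤ (S.it p [e]).count e := by
          have := hcore e 1 le_rfl ⟨p * n0, Nat.mul_pos hp hn0, hn0'⟩
          simpa using this
        obtain ⟨k0, hk0⟩ := hII e he h3
        obtain ⟨K, hK, n1, hn1⟩ := len_le_mul hS hL (p * (k0 + j)) c e he
        refine ⟨(2 * K)⁻¹, by positivity, n1 + k0 + j, fun _ n hn q hq hper => ?_⟩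
        -- the block of e inside the block of c
        obtain ⟨u, v, huv⟩ := List.append_of_mem hj
        have h5 : S.W (p * n) [c] = S.W (p * (n - j)) u ++ S.W (p * (n - j)) [e] ++
            S.W (p * (n - j)) v := by
          have e1 : p * n = p * (n - j) + p * j := by
            rw [← Nat.mul_add]; congr 1; omega
          unfold ASys.W
          rw [e1, LimAux.it_add, huv, LimAux.it_append,
            show e :: v = [e] ++ v from rfl, LimAux.it_append]
          simp
        rw [h5] at hper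
        have h6 := hasPer_infix hper
        have h7 := hk0 (n - j) (by omega) q hq h6
        have h8 := hn1 (p * (n - j - k0)) (by
          have : n1 ≤ n - j - k0 := by omega
          exact this.trans (Nat.le_mul_of_pos_left _ hp))
        have e2 : p * (n - j - k0) + p * (k0 + j) = p * n := by
          rw [← Nat.mul_add]; congr 1; omega
        rw [e2] at h8
        have h9 : (S.len (p * (n - j - k0)) [e] : ℝ) ≤ 2 * q := by
          have : S.len (p * (n - j - k0)) [e] ≤ 2 * q := h7.le
          exact_mod_cast this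
        rw [inv_mul_le_iff₀ (by positivity)]
        calc (S.len (p * n) [c] : ℝ) ≤ K * (S.len (p * (n - j - k0)) [e] : ℝ) := h8
          _ ≤ K * (2 * q) := mul_le_mul_of_nonneg_left h9 hK.le
          _ = 2 * K * q := by ring
      · exact ⟨1, one_pos, 0, fun h => absurd h hc⟩
    choose ε hε n1 hn1 using hc
    have hne : (Finset.univ : Finset A).Nonempty := ⟨S.a, Finset.mem_univ _⟩
    refine ⟨Finset.univ.inf' hne ε, ?_, Finset.univ.sup n1, ?_⟩
    · rw [Finset.lt_inf'_iff]; exact fun c _ => hε c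
    · intro n hn c hc q hq hper
      rw [LimAux.len_pow]
      rw [LimAux.W_pow] at hper
      have h1 := hn1 c hc n ((Finset.le_sup (Finset.mem_univ c)).trans hn) q hq hper
      refine le_trans ?_ h1
      exact mul_le_mul_of_nonneg_right (Finset.inf'_le _ (Finset.mem_univ c)) (by positivity)

/-! ### Powers and shifts -/

theorem Split.good_pow {A : Type} {S : ASys A} (hS : S.Good) {p : ℕ} (hp : 1 ≤ p) :
    (S.pow p).Good := by
  refine ⟨fun c => hS.it_ne_nil p (by simp), hS.hne, ?_, ?_⟩
  · obtain ⟨v, hv⟩ := hS.it_prefix_le (Nat.zero_le p)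
    refine ⟨v, ?_, ?_⟩
    · intro h0
      subst h0
      have h1 := hS.lt_it_length p
      rw [← hv] at h1
      simp at h1
      omega
    · change S.it p [S.a] = S.a :: v
      rw [← hv]; rfl
  · intro c
    obtain ⟨n, hn⟩ := hS.reach c
    refine ⟨n, ?_⟩
    change c ∈ (S.pow p).it n [S.a]
    rw [LimAux.it_pow]
    exact (hS.it_prefix_le (Nat.le_mul_of_pos_left n hp)).subset hn

theorem Split.good_shift {A : Type} {S : ASys A} (hS : S.Good) (r : ℕ) : (S.shift r).Good :=
  ⟨hS.ne, fun c => hS.W_ne_nil r (by simp), hS.start, fun c => hS.reach c⟩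

theorem Split.isWord_pow {A : Type} {S : ASys A} {x : ℕ → ℕ} (hx : S.IsWord x) (p : ℕ) :
    (S.pow p).IsWord x := by
  intro n
  change (S.pow p).W n [S.a] = (List.range ((S.pow p).len n [S.a])).map x
  rw [LimAux.W_pow, LimAux.len_pow]
  exact hx (p * n)

theorem Split.isWord_shift {A : Type} {S : ASys A} {x : ℕ → ℕ} (hx : S.IsWord x) (r : ℕ) :
    (S.shift r).IsWord x := by
  intro n
  change (S.shift r).W n [S.a] = (List.range ((S.shift r).len n [S.a])).map x
  rw [LimAux.W_shift, LimAux.len_shift]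
  exact hx (r + n)

theorem Split.limits_pow {A : Type} {S : ASys A} (hS : S.Good) {α : ℝ} {lam : A → ℝ}
    (hL : S.Limits α lam) {p : ℕ} (hp : 1 ≤ p) : (S.pow p).Limits (α ^ p) lam := by
  have hp' : Tendsto (fun n : ℕ => p * n) atTop atTop :=
    tendsto_id.const_mul_atTop' hp
  refine ⟨one_le_pow₀ hL.1, hL.2.1, hL.2.2.1, ?_, ?_⟩
  · refine ((Split.tendsto_shift hS hL p).comp hp').congr fun n => ?_
    simp only [Function.comp_apply]
    rw [LimAux.len_pow, LimAux.len_pow, ← Nat.mul_succ]
    rfl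
  · intro c
    refine ((hL.2.2.2.2 c).comp hp').congr fun n => ?_
    simp only [Function.comp_apply]
    rw [LimAux.len_pow, LimAux.len_pow]
    rfl

/-- **JSplit** from `JGap`. -/
theorem Split.jsplit (hG : JGap) : JSplit := by
  intro A _ S α lam hS hL hα
  classical
  have : Fintype A := Fintype.ofFinite A
  refine Split.split S hS hL hα ?_
  intro p e hp he
  have h1 := hG A (S.pow p) e (Split.good_pow hS hp) (Split.three_of_count _ _ he)
  rcases h1 with ⟨q, m, hq, h⟩ | ⟨k0, h⟩
  · left
    refine ⟨q, m, hq, fun n hn => ?_⟩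
    have := h n hn
    rwa [LimAux.W_pow] at this
  · right
    refine ⟨k0, fun n hn q hq hper => ?_⟩
    rw [← LimAux.W_pow] at hper
    have := h n hn q hq hper
    rwa [LimAux.len_pow] at this

end SUBST
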