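import Pool.Agent.Work.SUBST.SpDefs

/-!
# J7, part 1: the shift-and automaton of a word and counting of occurrences
-/

set_option autoImplicit false

namespace SUBST
namespace Spr

/-! ## Windows -/

theorem length_seg' (T : ℕ → ℕ) (i n : ℕ) : (seg T i n).length = n := by simp [seg]

theorem seg_zero' (T : ℕ → ℕ) (i : ℕ) : seg T i 0 = [] := by simp [seg]

theorem seg_succ' (T : ℕ → ℕ) (i n : ℕ) : seg T i (n + 1) = seg T i n ++ [T (i + n)] := by
  simp [seg, List.range_succ]

theorem seg_cons' (T : ℕ → ℕ) (i n : ℕ) : seg T i (n + 1) = T i :: seg T (i + 1) n := by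
  induction n with
  | zero => simp [seg]
  | succ n ih =>
    rw [seg_succ', ih, seg_succ']
    simp [Nat.add_comm, Nat.add_left_comm]

theorem seg_add' (T : ℕ → ℕ) (i n m : ℕ) :
    seg T i (n + m) = seg T i n ++ seg T (i + n) m := by
  induction m with
  | zero => simp [seg_zero']
  | succ m ih =>
    rw [← Nat.add_assoc, seg_succ', ih, seg_succ', List.append_assoc]
    simp [Nat.add_assoc]

theorem seg_of_append {T : ℕ → ℕ} {i n : ℕ} {u v : List ℕ} (h : seg T i n = u ++ v) :
    u = seg T i u.length ∧ v = seg T (i + u.length) v.length := by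
  have hl : n = u.length + v.length := by
    have := congrArg List.length h
    rw [length_seg', List.length_append] at this
    exact this
  rw [hl, seg_add'] at h
  have := List.append_inj h (by rw [length_seg'])
  exact ⟨this.1.symm, this.2.symm⟩

/-! ## The automaton -/

/-- States: the set of `j` such that the last `j` letters are the first `j` letters of `f`. -/
abbrev Q (f : List ℕ) := Fin f.length → Bool

/-- The state after the word `w`. -/
def st (f w : List ℕ) : Q f := fun j => decide (f.take j.val <:+ w)

/-- The transition. -/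
def step (f : List ℕ) (q : Q f) (b : ℕ) : Q f := fun j =>
  if h : 0 < j.val then
    (q ⟨j.val - 1, by have := j.isLt; omega⟩ && decide (f.getD (j.val - 1) 0 = b))
  else true

/-- An occurrence is completed by the letter `b`. -/
def hit (f : List ℕ) (q : Q f) (b : ℕ) : Bool :=
  if h : 0 < f.length then
    (q ⟨f.length - 1, by omega⟩ && decide (f.getD (f.length - 1) 0 = b))
  else false

theorem suffix_snoc {u w : List ℕ} {c b : ℕ} :
    (u ++ [c]) <:+ (w ++ [b]) ↔ u <:+ w ∧ c = b := by
  constructor
  · rintro ⟨t, ht⟩
    rw [← List.append_assoc] at ht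
    have := List.append_inj' ht rfl
    exact ⟨⟨t, this.1⟩, by simpa using this.2⟩
  · rintro ⟨⟨t, ht⟩, rfl⟩
    exact ⟨t, by rw [← List.append_assoc, ht]⟩

theorem take_succ_getD {f : List ℕ} {j : ℕ} (hj : j < f.length) :
    f.take (j + 1) = f.take j ++ [f.getD j 0] := by
  rw [List.take_add_one, List.getD_eq_getElem?_getD, List.getElem?_eq_getElem hj]
  simp

theorem step_st (f w : List ℕ) (b : ℕ) : step f (st f w) b = st f (w ++ [b]) := by
  funext j
  unfold step
  by_cases h : 0 < j.val
  · rw [dif_pos h]
    have hj : j.val - 1 < f.length := by have := j.isLt; omega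
    have e : f.take j.val = f.take (j.val - 1) ++ [f.getD (j.val - 1) 0] := by
      rw [← take_succ_getD hj]; congr 1; omega
    simp only [st]
    rw [e]
    have := @suffix_snoc (f.take (j.val - 1)) w (f.getD (j.val - 1) 0) b
    rw [← Bool.decide_and]
    exact decide_eq_decide.2 this.symm
  · rw [dif_neg h]
    have h0 : j.val = 0 := by omega
    simp [st, h0]

theorem hit_st {f : List ℕ} (hf : f ≠ []) (w : List ℕ) (b : ℕ) :
    hit f (st f w) b = decide (f <:+ w ++ [b]) := by
  have hp : 0 < f.length := List.length_pos_iff.2 hf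
  unfold hit
  rw [dif_pos hp]
  have e : f = f.take (f.length - 1) ++ [f.getD (f.length - 1) 0] := by
    rw [← take_succ_getD (by omega)]
    rw [Nat.sub_add_cancel hp, List.take_length]
  simp only [st]
  rw [← Bool.decide_and]
  refine decide_eq_decide.2 ?_
  rw [← suffix_snoc, ← e]

/-- The state after reading `w` from `q`. -/
def run (f : List ℕ) (q : Q f) (w : List ℕ) : Q f := w.foldl (step f) q

/-- The number of occurrences completed while reading `w` from `q`. -/
def hits (f : List ℕ) : Q f → List ℕ → ℕ
  | _, [] => 0
  | q, b :: w => (if hit f q b then 1 else 0) + hits f (step f q b) w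

theorem run_append (f : List ℕ) (q : Q f) (u v : List ℕ) :
    run f q (u ++ v) = run f (run f q u) v := by
  simp [run, List.foldl_append]

theorem run_nil (f : List ℕ) (q : Q f) : run f q [] = q := rfl

theorem hits_nil (f : List ℕ) (q : Q f) : hits f q [] = 0 := rfl

theorem hits_append (f : List ℕ) (q : Q f) (u v : List ℕ) :
    hits f q (u ++ v) = hits f q u + hits f (run f q u) v := by
  induction u generalizing q with
  | nil => simp [hits, run]
  | cons b u ih =>
    simp only [List.cons_append, hits, ih, run, List.foldl_cons]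
    omega

theorem run_st (f u v : List ℕ) : run f (st f u) v = st f (u ++ v) := by
  induction v generalizing u with
  | nil => simp [run]
  | cons b v ih =>
    have : run f (st f u) (b :: v) = run f (step f (st f u) b) v := rfl
    rw [this, step_st, ih]
    simp

/-- The occurrences of `f` in `x`. -/
def Occ (x : ℕ → ℕ) (f : List ℕ) (i : ℕ) : Prop := seg x i f.length = f

instance (x : ℕ → ℕ) (f : List ℕ) : DecidablePred (Occ x f) := fun _ => by
  unfold Occ; infer_instance

theorem suffix_seg {x : ℕ → ℕ} {f : List ℕ} {k : ℕ} :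
    f <:+ seg x 0 k ↔ f.length ≤ k ∧ Occ x f (k - f.length) := by
  constructor
  · intro h
    have hl : f.length ≤ k := by
      have := h.length_le
      rwa [length_seg'] at this
    refine ⟨hl, ?_⟩
    obtain ⟨t, ht⟩ := h
    have h2 := (seg_of_append ht.symm).2
    have h3 : t.length = k - f.length := by
      have := congrArg List.length ht
      rw [length_seg', List.length_append] at this
      omega
    rw [h3, Nat.zero_add] at h2
    exact h2.symm
  · rintro ⟨hl, ho⟩
    refine ⟨seg x 0 (k - f.length), ?_⟩
    have : seg x 0 k = seg x 0 ((k - f.length) + f.length) := by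
      rw [Nat.sub_add_cancel hl]
    rw [this, seg_add', Nat.zero_add]
    rw [Occ] at ho
    rw [ho]

/-- The number of completed occurrences in a prefix of `x`. -/
theorem hits_seg {x : ℕ → ℕ} {f : List ℕ} (hf : f ≠ []) (n : ℕ) :
    hits f (st f []) (seg x 0 n) = Nat.count (Occ x f) (n + 1 - f.length) := by
  have hp : 0 < f.length := List.length_pos_iff.2 hf
  induction n with
  | zero =>
    rw [seg_zero', hits_nil]
    have : 0 + 1 - f.length = 0 := by omega
    rw [this, Nat.count_zero]
  | succ n ih =>
    rw [seg_succ', hits_append, ih, run_st]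
    simp only [hits, List.nil_append, Nat.add_zero]
    have hh : (hit f (st f (seg x 0 n)) (x (0 + n)) = true) ↔ f <:+ seg x 0 (n + 1) := by
      rw [hit_st hf, ← seg_succ']
      simp
    by_cases h : f.length ≤ n + 1
    · have e : n + 1 + 1 - f.length = (n + 1 - f.length) + 1 := by omega
      rw [e, Nat.count_succ]
      have : (f <:+ seg x 0 (n + 1)) ↔ Occ x f (n + 1 - f.length) := by
        rw [suffix_seg]
        exact ⟨fun h => h.2, fun h' => ⟨h, h'⟩⟩
      by_cases h2 : Occ x f (n + 1 - f.length)
      · rw [if_pos h2, if_pos (hh.2 (this.2 h2))]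
      · rw [if_neg h2, if_neg (fun h3 => h2 (this.1 (hh.1 h3)))]
    · have e : n + 1 + 1 - f.length = n + 1 - f.length := by omega
      rw [e]
      have : ¬ (f <:+ seg x 0 (n + 1)) := by
        rw [suffix_seg]
        exact fun h' => h h'.1
      rw [if_neg (fun h3 => this (hh.1 h3))]
      omega

/-- Occurrences inside a window. -/
theorem cnt_seg {x : ℕ → ℕ} {f : List ℕ} (hf : f ≠ []) (K i : ℕ) :
    cnt f (seg x i K) + Nat.count (Occ x f) i =
      Nat.count (Occ x f) (i + (K + 1 - f.length)) := by
  have hp : 0 < f.length := List.length_pos_iff.2 hf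
  induction K generalizing i with
  | zero =>
    rw [seg_zero']
    have : 0 + 1 - f.length = 0 := by omega
    rw [this]; simp [cnt]
  | succ K ih =>
    have h1 := ih (i + 1)
    rw [seg_cons', cnt, ← seg_cons']
    have hpre : (f <+: seg x i (K + 1)) ↔ (f.length ≤ K + 1 ∧ Occ x f i) := by
      constructor
      · intro h
        have hl : f.length ≤ K + 1 := by
          have := h.length_le
          rwa [length_seg'] at this
        obtain ⟨t, ht⟩ := h
        exact ⟨hl, (seg_of_append ht.symm).1.symm⟩
      · rintro ⟨hl, ho⟩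
        refine ⟨seg x (i + f.length) (K + 1 - f.length), ?_⟩
        have : seg x i (K + 1) = seg x i (f.length + (K + 1 - f.length)) := by
          congr 1; omega
        rw [this, seg_add']
        rw [Occ] at ho
        rw [ho]
    by_cases hl : f.length ≤ K + 1
    · have e : i + (K + 1 + 1 - f.length) = i + 1 + (K + 1 - f.length) := by omega
      rw [e, ← h1, Nat.count_succ]
      by_cases ho : Occ x f i
      · rw [if_pos (hpre.2 ⟨hl, ho⟩), if_pos ho]; omega
      · rw [if_neg (fun h => ho (hpre.1 h).2), if_neg ho]; omega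
    · have e : i + (K + 1 + 1 - f.length) = i := by omega
      rw [if_neg (fun h => hl (hpre.1 h).1), e]
      have e2 : i + 1 + (K + 1 - f.length) = i + 1 := by omega
      rw [e2] at h1
      omega

/-- Sparseness in terms of the counting function. -/
theorem sparse_count {x : ℕ → ℕ} {f : List ℕ} (hs : Sparse x f) :
    ∃ C, ∀ L, ∃ N, ∀ i, N ≤ i →
      Nat.count (Occ x f) (i + L) ≤ Nat.count (Occ x f) i + C := by
  obtain ⟨hf, _, C, hC⟩ := hs
  have hp : 0 < f.length := List.length_pos_iff.2 hf
  refine ⟨C, fun L => ?_⟩
  obtain ⟨N, hN⟩ := hC (L + f.length)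
  refine ⟨N, fun i hi => ?_⟩
  have h1 := hN i hi
  have h2 := cnt_seg (x := x) hf (L + f.length) i
  have h3 : Nat.count (Occ x f) (i + L) ≤
      Nat.count (Occ x f) (i + (L + f.length + 1 - f.length)) :=
    Nat.count_monotone _ (by omega)
  omega

theorem occ_infinite {x : ℕ → ℕ} {f : List ℕ} (hs : Sparse x f) :
    {i | Occ x f i}.Infinite := by
  obtain ⟨_, hI, _⟩ := hs
  rw [Set.infinite_iff_exists_gt]
  intro a
  obtain ⟨i, hi, ho⟩ := hI (a + 1)
  exact ⟨i, ho, by omega⟩

end Spr
end SUBST
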