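import Pool.Agent.Work.SUBST.SprA

/-!
# J7, part 2: labelled letters and the normal form
-/

set_option autoImplicit false

namespace SUBST
namespace Spr

variable {A : Type}

/-! ## Words of a system -/

section Sys
variable (S : ASys A)

theorem it_zero (w : List A) : S.it 0 w = w := rfl

theorem it_succ (n : ℕ) (w : List A) : S.it (n + 1) w = S.it n (S.ap w) := rfl

theorem it_add (m n : ℕ) (w : List A) : S.it (m + n) w = S.it m (S.it n w) := by
  simp [ASys.it, Function.iterate_add_apply]

theorem ap_append (u v : List A) : S.ap (u ++ v) = S.ap u ++ S.ap v := by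
  simp [ASys.ap]

theorem it_append (n : ℕ) (u v : List A) : S.it n (u ++ v) = S.it n u ++ S.it n v := by
  induction n generalizing u v with
  | zero => rfl
  | succ n ih => rw [it_succ, it_succ, it_succ, ap_append, ih]

theorem it_nil (n : ℕ) : S.it n [] = [] := by
  induction n with
  | zero => rfl
  | succ n ih => rw [it_succ]; simpa [ASys.ap] using ih

theorem it_one (w : List A) : S.it 1 w = S.ap w := rfl

theorem ap_single (c : A) : S.ap [c] = S.σ c := by simp [ASys.ap]

theorem W_append (n : ℕ) (u v : List A) : S.W n (u ++ v) = S.W n u ++ S.W n v := by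
  simp [ASys.W, it_append]

theorem W_nil (n : ℕ) : S.W n [] = [] := by simp [ASys.W, it_nil]

theorem W_it (m n : ℕ) (w : List A) : S.W m (S.it n w) = S.W (m + n) w := by
  simp [ASys.W, it_add]

theorem W_cons (n : ℕ) (c : A) (w : List A) : S.W n (c :: w) = S.W n [c] ++ S.W n w := by
  rw [← W_append]; rfl

theorem W_zero (w : List A) : S.W 0 w = w.flatMap S.h := rfl

theorem le_length_ap (hne : ∀ c, S.σ c ≠ []) (w : List A) : w.length ≤ (S.ap w).length := by
  induction w with
  | nil => simp
  | cons c w ih =>
    have : 0 < (S.σ c).length := List.length_pos_iff.2 (hne c)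
    simp only [ASys.ap, List.flatMap_cons, List.length_append, List.length_cons] at ih ⊢
    omega

theorem le_length_it (hne : ∀ c, S.σ c ≠ []) (n : ℕ) (w : List A) :
    w.length ≤ (S.it n w).length := by
  induction n generalizing w with
  | zero => exact le_rfl
  | succ n ih => rw [it_succ]; exact (le_length_ap S hne w).trans (ih _)

theorem le_length_h (hne : ∀ c, S.h c ≠ []) (w : List A) : w.length ≤ (w.flatMap S.h).length := by
  induction w with
  | nil => simp
  | cons c w ih =>
    have : 0 < (S.h c).length := List.length_pos_iff.2 (hne c)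
    simp only [List.flatMap_cons, List.length_append, List.length_cons] at ih ⊢
    omega

theorem le_length_W (hG : S.Good) (n : ℕ) (w : List A) : w.length ≤ (S.W n w).length :=
  (le_length_it S hG.ne n w).trans (le_length_h S hG.hne _)

/-- `it (n+1) [a] = it n [a] ++ it n u`. -/
theorem it_start {u : List A} (hu : S.σ S.a = S.a :: u) (n : ℕ) :
    S.it (n + 1) [S.a] = S.it n [S.a] ++ S.it n u := by
  rw [it_succ, ap_single, hu, ← it_append]; rfl

theorem length_start {u : List A} (hG : S.Good) (hu : S.σ S.a = S.a :: u) (hu0 : u ≠ []) (n : ℕ) :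
    n + 1 ≤ (S.it n [S.a]).length := by
  induction n with
  | zero => simp [it_zero]
  | succ n ih =>
    rw [it_start S hu, List.length_append]
    have h1 : 0 < u.length := List.length_pos_iff.2 hu0
    have h2 := le_length_it S hG.ne n u
    omega

end Sys

/-! ## Labels -/

section Lab
variable {P : Type} (T : A → P → P)

/-- The state after the word `w` of blocks. -/
def Tw (q : P) (w : List A) : P := w.foldl (fun q c => T c q) q

/-- The labelled word. -/
def lab : P → List A → List (A × P)
  | _, [] => []
  | q, c :: w => (c, q) :: lab (T c q) w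

theorem Tw_nil (q : P) : Tw T q [] = q := rfl

theorem Tw_cons (q : P) (c : A) (w : List A) : Tw T q (c :: w) = Tw T (T c q) w := rfl

theorem Tw_append (q : P) (u v : List A) : Tw T q (u ++ v) = Tw T (Tw T q u) v := by
  simp [Tw, List.foldl_append]

theorem lab_append (q : P) (u v : List A) :
    lab T q (u ++ v) = lab T q u ++ lab T (Tw T q u) v := by
  induction u generalizing q with
  | nil => rfl
  | cons c u ih => simp [lab, ih, Tw_cons]

theorem lab_fst (q : P) (w : List A) : (lab T q w).map Prod.fst = w := by
  induction w generalizing q with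
  | nil => rfl
  | cons c w ih => simp [lab, ih]

theorem lab_length (q : P) (w : List A) : (lab T q w).length = w.length := by
  have := congrArg List.length (lab_fst T q w)
  rwa [List.length_map] at this

/-- Splitting a labelled word at a labelled letter. -/
theorem lab_split {q : P} {w : List A} {v' v'' : List (A × P)} {b : A × P}
    (h : lab T q w = v' ++ b :: v'') :
    ∃ v₁ v₂ : List A, w = v₁ ++ b.1 :: v₂ ∧ lab T q v₁ = v' ∧ Tw T q v₁ = b.2 ∧
      lab T (T b.1 b.2) v₂ = v'' := by
  induction v' generalizing q w with
  | nil =>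
    cases w with
    | nil => simp [lab] at h
    | cons c w =>
      simp only [lab, List.nil_append, List.cons.injEq] at h
      obtain ⟨h1, h2⟩ := h
      subst h1
      exact ⟨[], w, rfl, rfl, rfl, h2⟩
  | cons e v' ih =>
    cases w with
    | nil => simp [lab] at h
    | cons c w =>
      simp only [lab, List.cons_append, List.cons.injEq] at h
      obtain ⟨h1, h2⟩ := h
      obtain ⟨v₁, v₂, h3, h4, h5, h6⟩ := ih h2
      exact ⟨c :: v₁, v₂, by rw [h3]; rfl, by rw [lab, h4, h1], by rw [Tw_cons, h5], h6⟩

end Lab

/-! ## Normal systems -/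

/-- The action of the blocks on the states and the productive letters do not depend on the
level. -/
structure Nrm (S : ASys A) (f : List ℕ) (T : A → Q f → Q f) (Pr : A × Q f → Bool) : Prop where
  act : ∀ n c q, run f q (S.W n [c]) = T c q
  prod : ∀ n c q, 0 < hits f q (S.W n [c]) ↔ Pr (c, q) = true

/-- The labelled system. -/
def hat (S : ASys A) {f : List ℕ} (T : A → Q f → Q f) : ASys (A × Q f) :=
  ⟨fun c => lab T c.2 (S.σ c.1), fun c => S.h c.1, (S.a, st f [])⟩

namespace Nrm
variable {S : ASys A} {f : List ℕ} {T : A → Q f → Q f} {Pr : A × Q f → Bool} (H : Nrm S f T Pr)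
include H

theorem run_W (n : ℕ) (q : Q f) (w : List A) : run f q (S.W n w) = Tw T q w := by
  induction w generalizing q with
  | nil => rw [W_nil]; rfl
  | cons c w ih => rw [W_cons, run_append, H.act, ih, Tw_cons]

theorem Tw_it (n : ℕ) (q : Q f) (w : List A) : Tw T q (S.it n w) = Tw T q w := by
  rw [← H.run_W 0, W_it, H.run_W]

theorem Tw_ap (q : Q f) (w : List A) : Tw T q (S.ap w) = Tw T q w := H.Tw_it 1 q w

theorem lab_ap (q : Q f) (w : List A) : lab T q (S.ap w) = (hat S T).ap (lab T q w) := by
  induction w generalizing q with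
  | nil => rfl
  | cons c w ih =>
    have e : S.ap (c :: w) = S.σ c ++ S.ap w := by simp [ASys.ap]
    have e2 : Tw T q (S.σ c) = T c q := by
      have := H.Tw_ap q [c]
      rw [ap_single] at this
      rw [this]; rfl
    rw [e, lab_append, ih, e2]
    simp [lab, ASys.ap, hat]

theorem lab_it (n : ℕ) (q : Q f) (w : List A) :
    lab T q (S.it n w) = (hat S T).it n (lab T q w) := by
  induction n generalizing w with
  | zero => rfl
  | succ n ih => rw [it_succ, it_succ, ih, H.lab_ap]

theorem hits_W (n : ℕ) (q : Q f) (w : List A) :
    hits f q (S.W n w) = ((lab T q w).map fun c => hits f c.2 (S.W n [c.1])).sum := by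
  induction w generalizing q with
  | nil => rw [W_nil]; rfl
  | cons c w ih => rw [W_cons, hits_append, H.act, ih]; simp [lab]

/-- A letter is productive iff its image has a productive letter. -/
theorem prod_iff (c : A × Q f) :
    Pr c = true ↔ ∃ d ∈ lab T c.2 (S.σ c.1), Pr d = true := by
  obtain ⟨c, q⟩ := c
  rw [← H.prod 1 c q, ← Nat.zero_add 1, ← W_it, it_one, ap_single, H.hits_W]
  constructor
  · intro h
    by_contra hc
    push Not at hc
    have : ((lab T q (S.σ c)).map fun c => hits f c.2 (S.W 0 [c.1])).sum = 0 := by
      rw [List.sum_eq_zero_iff]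
      intro y hy
      rw [List.mem_map] at hy
      obtain ⟨d, hd, rfl⟩ := hy
      have h2 := hc d hd
      have h3 := (H.prod 0 d.1 d.2).not.2 h2
      omega
    omega
  · rintro ⟨d, hd, h⟩
    have h2 := (H.prod 0 d.1 d.2).2 h
    have h3 := List.single_le_sum (l := (lab T q (S.σ c)).map fun c => hits f c.2 (S.W 0 [c.1]))
      (by intro y _; exact Nat.zero_le y) _ (List.mem_map.2 ⟨d, hd, rfl⟩)
    omega

/-- The number of productive letters is at most the number of occurrences. -/
theorem pc_le_hits (n : ℕ) (q : Q f) (w : List A) :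
    (lab T q w).countP Pr ≤ hits f q (S.W n w) := by
  induction w generalizing q with
  | nil => simp [lab]
  | cons c w ih =>
    rw [W_cons, hits_append, H.act, lab, List.countP_cons]
    have h1 := ih (T c q)
    by_cases h : Pr (c, q) = true
    · have := (H.prod n c q).2 h
      rw [if_pos h]; omega
    · rw [if_neg h]; omega

end Nrm

end Spr
end SUBST
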