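import Pool.Agent.Work.SUBST.SprB

/-!
# J7, part 3: boundedness, unique children, the periodic structure
-/

set_option autoImplicit false

namespace SUBST
namespace Spr

variable {A : Type}

/-! ## Existence of the normal form -/

section Normal
variable (S : ASys A) (f : List ℕ)

theorem it_flatMap (n : ℕ) (w : List A) : S.it n w = w.flatMap fun c => S.it n [c] := by
  induction w with
  | nil => rw [it_nil]; rfl
  | cons c w ih =>
    have : S.it n (c :: w) = S.it n [c] ++ S.it n w := by rw [← it_append]; rfl
    rw [this, ih]; rfl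

theorem W_flatMap (n : ℕ) (w : List A) : S.W n w = w.flatMap fun c => S.W n [c] := by
  induction w with
  | nil => rw [W_nil]; rfl
  | cons c w ih => rw [W_cons, ih]; rfl

/-- The shifted power. -/
def sp (r p : ℕ) : ASys A := (S.shift r).pow p

theorem sp_it (r p n : ℕ) (w : List A) : (sp S r p).it n w = S.it (p * n) w := by
  induction n generalizing w with
  | zero => simp [it_zero]
  | succ n ih =>
    rw [it_succ, ih, Nat.mul_succ, it_add]
    congr 1
    exact (it_flatMap S p w).symm

theorem sp_W (r p n : ℕ) (w : List A) : (sp S r p).W n w = S.W (r + p * n) w := by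
  have : (sp S r p).W n w = ((sp S r p).it n w).flatMap fun c => S.W r [c] := rfl
  rw [this, sp_it, ← W_flatMap, W_it]

/-- The data of a level. -/
def alp (n : ℕ) : A → Q f → Q f × Bool := fun c q =>
  (run f q (S.W n [c]), decide (0 < hits f q (S.W n [c])))

/-- Composition of the data along a word. -/
def cmb (β : A → Q f → Q f × Bool) : Q f → List A → Q f × Bool
  | q, [] => (q, false)
  | q, c :: w => ((cmb β (β c q).1 w).1, (β c q).2 || (cmb β (β c q).1 w).2)

theorem cmb_alp (n : ℕ) (q : Q f) (w : List A) :
    cmb f (alp S f n) q w = (run f q (S.W n w), decide (0 < hits f q (S.W n w))) := by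
  induction w generalizing q with
  | nil => rw [W_nil]; simp [cmb, run, hits]
  | cons c w ih =>
    rw [cmb, ih, W_cons, run_append, hits_append]
    simp only [alp, Prod.mk.injEq, true_and]
    rw [← Bool.decide_or]
    refine decide_eq_decide.2 ?_
    omega

theorem alp_succ (n : ℕ) : alp S f (n + 1) = fun c q => cmb f (alp S f n) q (S.σ c) := by
  funext c q
  rw [cmb_alp]
  have : S.W (n + 1) [c] = S.W n (S.σ c) := by rw [← W_it, it_one, ap_single]
  rw [← this]; rfl

theorem exists_nrm [Finite A] : ∃ r p : ℕ, 1 ≤ p ∧ ∃ T Pr, Nrm (sp S r p) f T Pr := by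
  obtain ⟨i, j, hij, he⟩ := Finite.exists_ne_map_eq_of_infinite (alp S f)
  wlog hlt : i < j generalizing i j
  · exact this j i (Ne.symm hij) he.symm (lt_of_le_of_ne (not_lt.1 hlt) (Ne.symm hij))
  have h1 : ∀ t, alp S f (i + t) = alp S f (j + t) := by
    intro t
    induction t with
    | zero => exact he
    | succ t ih => rw [← Nat.add_assoc, ← Nat.add_assoc, alp_succ, alp_succ, ih]
  have h2 : ∀ n, alp S f (i + (j - i) * n) = alp S f i := by
    intro n
    induction n with
    | zero => rfl
    | succ n ih =>
      have e : i + (j - i) * (n + 1) = j + (j - i) * n := by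
        rw [Nat.mul_succ]; omega
      rw [e, ← h1, ih]
  refine ⟨i, j - i, by omega, fun c q => (alp S f i c q).1, fun c => (alp S f i c.1 c.2).2, ?_, ?_⟩
  · intro n c q
    rw [sp_W]
    have := congrFun (congrFun (h2 n) c) q
    exact congrArg Prod.fst this
  · intro n c q
    rw [sp_W]
    have := congrFun (congrFun (h2 n) c) q
    have h3 := congrArg Prod.snd this
    rw [← h3]
    simp [alp]

end Normal

/-! ## Productive letters -/

namespace Nrm
variable {S : ASys A} {f : List ℕ} {T : A → Q f → Q f} {Pr : A × Q f → Bool} (H : Nrm S f T Pr)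
include H

theorem lab_ap_cons (q : Q f) (c : A) (w : List A) :
    lab T q (S.ap (c :: w)) = lab T q (S.σ c) ++ lab T (T c q) (S.ap w) := by
  have e : S.ap (c :: w) = S.σ c ++ S.ap w := by simp [ASys.ap]
  have e2 : Tw T q (S.σ c) = T c q := by
    have := H.Tw_ap q [c]
    rw [ap_single] at this
    rw [this]; rfl
  rw [e, lab_append, e2]

theorem one_le (c : A) (q : Q f) :
    (if Pr (c, q) = true then 1 else 0) ≤ (lab T q (S.σ c)).countP Pr := by
  by_cases h : Pr (c, q) = true
  · rw [if_pos h]
    obtain ⟨d, hd, h2⟩ := (H.prod_iff (c, q)).1 h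
    exact Nat.succ_le_iff.2 (List.countP_pos_iff.2 ⟨d, hd, h2⟩)
  · rw [if_neg h]; exact Nat.zero_le _

theorem pc_mono (q : Q f) (w : List A) :
    (lab T q w).countP Pr ≤ (lab T q (S.ap w)).countP Pr := by
  induction w generalizing q with
  | nil => simp [lab, ASys.ap]
  | cons c w ih =>
    rw [H.lab_ap_cons, List.countP_append, lab, List.countP_cons]
    have h1 := ih (T c q)
    have h2 := H.one_le c q
    omega

theorem uniq_child (q : Q f) (w : List A)
    (he : (lab T q (S.ap w)).countP Pr = (lab T q w).countP Pr) :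
    ∀ b ∈ lab T q w, Pr b = true → (lab T b.2 (S.σ b.1)).countP Pr = 1 := by
  induction w generalizing q with
  | nil => intro b hb; simp [lab] at hb
  | cons c w ih =>
    rw [H.lab_ap_cons, List.countP_append, lab, List.countP_cons] at he
    have h1 := H.pc_mono (T c q) w
    have h2 := H.one_le c q
    intro b hb hp
    rw [lab, List.mem_cons] at hb
    rcases hb with rfl | hb
    · rw [if_pos hp] at he h2
      show (lab T q (S.σ c)).countP Pr = 1
      omega
    · exact ih (T c q) (by omega) b hb hp

/-- A word all of whose descendants have unique productive children. -/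
def Ok (S : ASys A) (f : List ℕ) (T : A → Q f → Q f) (Pr : A × Q f → Bool) (q : Q f)
    (w : List A) : Prop :=
  ∀ j, ∀ b ∈ lab T q (S.it j w), Pr b = true → (lab T b.2 (S.σ b.1)).countP Pr = 1

omit H in
theorem Ok.left {q : Q f} {u v : List A} (h : Ok S f T Pr q (u ++ v)) : Ok S f T Pr q u := by
  intro j b hb
  refine h j b ?_
  rw [it_append, lab_append]
  exact List.mem_append_left _ hb

theorem Ok.right {q : Q f} {u v : List A} (h : Ok S f T Pr q (u ++ v)) :
    Ok S f T Pr (Tw T q u) v := by
  intro j b hb
  refine h j b ?_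
  rw [it_append, lab_append, H.Tw_it]
  exact List.mem_append_right _ hb

omit H in
theorem Ok.it {q : Q f} {w : List A} (h : Ok S f T Pr q w) (n : ℕ) :
    Ok S f T Pr q (S.it n w) := by
  intro j b hb
  rw [← it_add] at hb
  exact h _ b hb

/-- The productive child. -/
def phi (S : ASys A) (f : List ℕ) (T : A → Q f → Q f) (Pr : A × Q f → Bool) (b : A × Q f) :
    A × Q f :=
  (((lab T b.2 (S.σ b.1)).filter Pr).head?).getD b

omit H in
theorem filter_child {b : A × Q f} (h1 : (lab T b.2 (S.σ b.1)).countP Pr = 1) :
    (lab T b.2 (S.σ b.1)).filter Pr = [phi S f T Pr b] := by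
  rw [List.countP_eq_length_filter] at h1
  obtain ⟨d, hd⟩ := List.length_eq_one_iff.1 h1
  rw [phi, hd]; rfl

theorem filter_child_not {b : A × Q f} (h : ¬ Pr b = true) :
    (lab T b.2 (S.σ b.1)).filter Pr = [] := by
  rw [List.filter_eq_nil_iff]
  intro d hd hp
  exact h ((H.prod_iff b).2 ⟨d, hd, hp⟩)

theorem filter_ap (q : Q f) (w : List A)
    (h : ∀ b ∈ lab T q w, Pr b = true → (lab T b.2 (S.σ b.1)).countP Pr = 1) :
    (lab T q (S.ap w)).filter Pr = ((lab T q w).filter Pr).map (phi S f T Pr) := by
  induction w generalizing q with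
  | nil => simp [lab, ASys.ap]
  | cons c w ih =>
    have h1 := ih (T c q) (fun b hb => h b (by rw [lab]; exact List.mem_cons_of_mem _ hb))
    rw [H.lab_ap_cons, List.filter_append, h1, lab]
    by_cases hp : Pr (c, q) = true
    · rw [List.filter_cons_of_pos hp]
      have h2 := h (c, q) (by rw [lab]; exact List.mem_cons_self) hp
      have h3 := filter_child (b := (c, q)) h2
      simp only at h3
      rw [h3]; rfl
    · rw [List.filter_cons_of_neg hp]
      have h3 := H.filter_child_not (b := (c, q)) hp
      simp only at h3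
      rw [h3]; rfl

theorem filter_it {q : Q f} {w : List A} (h : Ok S f T Pr q w) (j : ℕ) :
    (lab T q (S.it j w)).filter Pr = ((lab T q w).filter Pr).map (phi S f T Pr)^[j] := by
  induction j with
  | zero => simp [it_zero]
  | succ j ih =>
    have e : S.it (j + 1) w = S.ap (S.it j w) := by
      rw [Nat.add_comm, it_add, it_one]
    rw [e, H.filter_ap q _ (h j), ih, List.map_map]
    rw [Function.iterate_succ', Function.comp_def]

/-- Sums over productive letters. -/
theorem sum_filter (n : ℕ) (l : List (A × Q f)) :
    (l.map fun c => hits f c.2 (S.W n [c.1])).sum =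
      ((l.filter Pr).map fun c => hits f c.2 (S.W n [c.1])).sum := by
  induction l with
  | nil => rfl
  | cons c l ih =>
    by_cases hp : Pr c = true
    · rw [List.filter_cons_of_pos hp, List.map_cons, List.map_cons, List.sum_cons, List.sum_cons, ih]
    · rw [List.filter_cons_of_neg hp, List.map_cons, List.sum_cons, ih]
      have := (H.prod n c.1 c.2).not.2 hp
      omega

theorem hits_filter (n : ℕ) (q : Q f) (w : List A) :
    hits f q (S.W n w) = (((lab T q w).filter Pr).map fun c => hits f c.2 (S.W n [c.1])).sum := by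
  rw [H.hits_W, H.sum_filter]

end Nrm

/-- An idempotent iterate. -/
theorem exists_idem {α : Type} [Finite α] (g : α → α) :
    ∃ M, 1 ≤ M ∧ ∀ b, g^[M] (g^[M] b) = g^[M] b := by
  obtain ⟨i, j, hij, he⟩ := Finite.exists_ne_map_eq_of_infinite (fun n : ℕ => g^[n])
  wlog hlt : i < j generalizing i j
  · exact this j i (Ne.symm hij) he.symm (lt_of_le_of_ne (not_lt.1 hlt) (Ne.symm hij))
  change g^[i] = g^[j] at he
  have h1 : ∀ n t, i ≤ t → g^[t + (j - i) * n] = g^[t] := by
    intro n
    induction n with
    | zero => intro t _; rfl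
    | succ n ih =>
      intro t ht
      have e : t + (j - i) * (n + 1) = (t + (j - i)) + (j - i) * n := by
        rw [Nat.mul_succ]; omega
      rw [e, ih _ (by omega)]
      have e2 : t + (j - i) = (t - i) + j := by omega
      have e3 : t = (t - i) + i := by omega
      rw [e2, Function.iterate_add, ← he, ← Function.iterate_add, ← e3]
  refine ⟨(j - i) * (i + 1), Nat.mul_pos (by omega) (by omega), fun b => ?_⟩
  have h2 := h1 (i + 1) ((j - i) * (i + 1)) (by nlinarith [Nat.sub_pos_of_lt hlt])
  rw [← Function.iterate_add_apply, h2]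

end Spr
end SUBST
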