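import Pool.Agent.Work.SUBST.Defs

/-!
# Words as vectors: generic matrices
-/

set_option autoImplicit false

namespace SUBST

section generic

variable {R S : Type*} [CommSemiring R] [CommSemiring S]

/-- One generic `2 × 2` matrix applied to a vector. -/
def step (x : ℕ → R) (c : ℕ) (v : R × R) : R × R :=
  (x (4 * c) * v.1 + x (4 * c + 1) * v.2, x (4 * c + 2) * v.1 + x (4 * c + 3) * v.2)

/-- The product of the matrices of a word applied to a vector. -/
def act (x : ℕ → R) (w : List ℕ) (v : R × R) : R × R := w.foldr (step x) v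

/-- The vector of a word. -/
def V (x : ℕ → R) (w : List ℕ) : R × R := act x w (1, 1)

/-- Substitution of matrices. -/
def sub (σ : List (List ℕ)) (x : ℕ → R) (j : ℕ) : R :=
  if j % 4 = 0 then (act x (σ.getD (j / 4) []) (1, 0)).1
  else if j % 4 = 1 then (act x (σ.getD (j / 4) []) (0, 1)).1
  else if j % 4 = 2 then (act x (σ.getD (j / 4) []) (1, 0)).2
  else (act x (σ.getD (j / 4) []) (0, 1)).2

lemma act_nil (x : ℕ → R) (v : R × R) : act x [] v = v := rfl

lemma act_cons (x : ℕ → R) (c : ℕ) (w : List ℕ) (v : R × R) :
    act x (c :: w) v = step x c (act x w v) := rfl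

lemma act_append (x : ℕ → R) (w w' : List ℕ) (v : R × R) :
    act x (w ++ w') v = act x w (act x w' v) := by
  rw [act, act, act, List.foldr_append]

lemma act_lin (x : ℕ → R) (w : List ℕ) (s t : R) :
    act x w (s, t) = ((act x w (1, 0)).1 * s + (act x w (0, 1)).1 * t,
      (act x w (1, 0)).2 * s + (act x w (0, 1)).2 * t) := by
  induction w with
  | nil => simp [act_nil]
  | cons c w ih =>
    rw [act_cons, act_cons, act_cons, ih]
    simp only [step, Prod.mk.injEq]
    constructor <;> ring

lemma step_sub (σ : List (List ℕ)) (x : ℕ → R) (c : ℕ) (v : R × R) :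
    step (sub σ x) c v = act x (σ.getD c []) v := by
  obtain ⟨s, t⟩ := v
  rw [act_lin, step]
  have h0 : sub σ x (4 * c) = (act x (σ.getD c []) (1, 0)).1 := by
    rw [sub, if_pos (by omega), Nat.mul_div_cancel_left c (by norm_num)]
  have h1 : sub σ x (4 * c + 1) = (act x (σ.getD c []) (0, 1)).1 := by
    rw [sub, if_neg (by omega), if_pos (by omega), show (4 * c + 1) / 4 = c by omega]
  have h2 : sub σ x (4 * c + 2) = (act x (σ.getD c []) (1, 0)).2 := by
    rw [sub, if_neg (by omega), if_neg (by omega), if_pos (by omega),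
      show (4 * c + 2) / 4 = c by omega]
  have h3 : sub σ x (4 * c + 3) = (act x (σ.getD c []) (0, 1)).2 := by
    rw [sub, if_neg (by omega), if_neg (by omega), if_neg (by omega),
      show (4 * c + 3) / 4 = c by omega]
  rw [h0, h1, h2, h3]

lemma act_sub (σ : List (List ℕ)) (x : ℕ → R) (w : List ℕ) (v : R × R) :
    act (sub σ x) w v = act x (app σ w) v := by
  induction w with
  | nil => rfl
  | cons c w ih =>
    rw [act_cons, ih, step_sub, ← act_append]
    rfl

lemma V_sub (σ : List (List ℕ)) (x : ℕ → R) (w : List ℕ) :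
    V (sub σ x) w = V x (app σ w) := act_sub σ x w _

lemma it_succ (σ : List (List ℕ)) (n : ℕ) (w : List ℕ) : it σ (n + 1) w = app σ (it σ n w) :=
  Function.iterate_succ_apply' _ _ _

lemma it_succ' (σ : List (List ℕ)) (n : ℕ) (w : List ℕ) : it σ (n + 1) w = it σ n (app σ w) :=
  Function.iterate_succ_apply _ _ _

lemma it_zero (σ : List (List ℕ)) (w : List ℕ) : it σ 0 w = w := rfl

lemma V_sub_iterate (σ : List (List ℕ)) (x : ℕ → R) (m i : ℕ) (z : List ℕ) :
    V ((sub σ)^[m] x) (it σ i z) = V x (it σ (i + m) z) := by
  induction m generalizing i with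
  | zero => rfl
  | succ m ih =>
    rw [Function.iterate_succ_apply', V_sub, ← it_succ, ih, show i + 1 + m = i + (m + 1) by ring]

/-- Naturality. -/
lemma act_map (φ : R →+* S) (x : ℕ → R) (w : List ℕ) (v : R × R) :
    act (fun j => φ (x j)) w (φ v.1, φ v.2) = (φ (act x w v).1, φ (act x w v).2) := by
  induction w with
  | nil => rfl
  | cons c w ih =>
    rw [act_cons, act_cons, ih]
    simp only [step, map_add, map_mul]

lemma V_map (φ : R →+* S) (x : ℕ → R) (w : List ℕ) :
    V (fun j => φ (x j)) w = (φ (V x w).1, φ (V x w).2) := by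
  have h := act_map φ x w (1, 1)
  rw [map_one] at h
  exact h

lemma act_congr {x y : ℕ → R} {L : ℕ} (h : ∀ j < 4 * L, x j = y j) {w : List ℕ}
    (hw : ∀ c ∈ w, c < L) (v : R × R) : act x w v = act y w v := by
  induction w with
  | nil => rfl
  | cons c w ih =>
    have hc : c < L := hw c List.mem_cons_self
    rw [act_cons, act_cons, ih (fun d hd => hw d (List.mem_cons_of_mem _ hd)), step, step,
      h _ (by omega), h _ (by omega), h _ (by omega), h _ (by omega)]

end generic

/-- The standard point: letter `n` has matrix `[[1+n, n], [1, 1]]`. -/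
def pt (j : ℕ) : ℕ :=
  if j % 4 = 0 then 1 + j / 4 else if j % 4 = 1 then j / 4 else 1

lemma step_pt (n : ℕ) (v : ℕ × ℕ) : step pt n v = (v.1 + n * (v.1 + v.2), v.1 + v.2) := by
  have h0 : pt (4 * n) = 1 + n := by
    rw [pt, if_pos (by omega), Nat.mul_div_cancel_left n (by norm_num)]
  have h1 : pt (4 * n + 1) = n := by
    rw [pt, if_neg (by omega), if_pos (by omega), show (4 * n + 1) / 4 = n by omega]
  have h2 : pt (4 * n + 2) = 1 := by rw [pt, if_neg (by omega), if_neg (by omega)]
  have h3 : pt (4 * n + 3) = 1 := by rw [pt, if_neg (by omega), if_neg (by omega)]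
  rw [step, h0, h1, h2, h3]
  ext
  · simp only; ring
  · simp only; ring

lemma V_pt_pos (w : List ℕ) : 1 ≤ (V pt w).1 ∧ 1 ≤ (V pt w).2 := by
  induction w with
  | nil => exact ⟨le_rfl, le_rfl⟩
  | cons n w ih =>
    rw [V, act_cons, step_pt]
    exact ⟨le_trans ih.1 (Nat.le_add_right _ _), le_trans ih.1 (Nat.le_add_right _ _)⟩

/-- The vector of a word at the standard point determines the word. -/
lemma V_pt_injective : Function.Injective (V pt) := by
  intro w
  induction w with
  | nil =>
    intro w' h
    cases w' with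
    | nil => rfl
    | cons n w' =>
      exfalso
      have h1 := congrArg Prod.snd h
      rw [V, V, act_cons, step_pt, act_nil] at h1
      have h2 := V_pt_pos w'
      have h3 : (1 : ℕ) = (V pt w').1 + (V pt w').2 := h1
      omega
  | cons n w ih =>
    intro w' h
    cases w' with
    | nil =>
      exfalso
      have h1 := congrArg Prod.snd h
      rw [V, V, act_cons, step_pt, act_nil] at h1
      have h2 := V_pt_pos w
      have h3 : (V pt w).1 + (V pt w).2 = 1 := h1
      omega
    | cons n' w' =>
      have h0 : step pt n (V pt w) = step pt n' (V pt w') := h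
      rw [step_pt, step_pt] at h0
      have hw := V_pt_pos w
      have hw' := V_pt_pos w'
      set a := (V pt w).1 with ha
      set b := (V pt w).2 with hb
      set a' := (V pt w').1 with ha'
      set b' := (V pt w').2 with hb'
      have h1 : a + n * (a + b) = a' + n' * (a' + b') := congrArg Prod.fst h0
      have h2 : a + b = a' + b' := congrArg Prod.snd h0
      have h3 : n = n' := by
        have e1 : (a + n * (a + b)) / (a + b) = n := by
          rw [Nat.add_mul_div_right _ _ (by omega), Nat.div_eq_of_lt (by omega), zero_add]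
        have e2 : (a' + n' * (a' + b')) / (a' + b') = n' := by
          rw [Nat.add_mul_div_right _ _ (by omega), Nat.div_eq_of_lt (by omega), zero_add]
        rw [← e1, ← e2, h1, h2]
      subst h3
      have h4 : a = a' := by
        rw [h2] at h1
        exact Nat.add_right_cancel h1
      have h5 : b = b' := by omega
      rw [ih (Prod.ext h4 h5 : V pt w = V pt w')]

/-- The point of an output table. -/
lemma V_out (o : List (List ℕ)) (w : List ℕ) : V (sub o pt) w = V pt (app o w) := V_sub o pt w

end SUBST
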